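import Pool.Agent.H494.Kac.Defs2

open MeasureTheory Filter Topology
open scoped ENNReal

namespace Pool.Agent.H494.Kac
theorem Phi_bd_fin : IsFiniteMeasure unif := by
  unfold unif
  exact Measure.smul_finite _ (by
    rw [Ne, ENNReal.inv_eq_top, ENNReal.ofReal_eq_zero, not_le]
    positivity)

theorem Phi_bd_int (q : ℝ) (hq : 0 ≤ q) :
    Integrable (fun θ => ((Real.cos θ) ^ 2) ^ q) unif := by
  have := Phi_bd_fin
  refine Integrable.of_bound
    ((Real.measurable_cos.pow_const 2).pow_const q).aestronglyMeasurable 1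
    (Filter.Eventually.of_forall (fun θ => ?_))
  have h0 : 0 ≤ (Real.cos θ) ^ 2 := sq_nonneg _
  have h1 : (Real.cos θ) ^ 2 ≤ 1 := Real.cos_sq_le_one θ
  rw [Real.norm_eq_abs, abs_of_nonneg (Real.rpow_nonneg h0 q)]
  exact Real.rpow_le_one h0 h1 hq

theorem Phi_bd (hcv : ConvexOn ℝ (Set.Ioi 0) mom) (h2 : mom 2 = 3 / 8) (h3 : mom 3 = 5 / 16)
    (q : ℝ) (hq : 2 ≤ q) (hq3 : q ≤ 3) :
    q / 8 ≤ 1 - 2 * mom q ∧ 1 - 2 * mom q ≤ 1 / 2 ∧ mom q ≤ 3 / 8 ∧ 0 ≤ mom q := by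
  have h4 : mom q ≤ 1 / 2 - q / 16 := by
    have h5 := hcv.2 (show (2 : ℝ) ∈ Set.Ioi 0 by norm_num) (show (3 : ℝ) ∈ Set.Ioi 0 by norm_num)
      (show 0 ≤ 3 - q by linarith) (show 0 ≤ q - 2 by linarith) (by ring)
    rw [h2, h3] at h5
    simp only [smul_eq_mul] at h5
    have h6 : (3 - q) * 2 + (q - 2) * 3 = q := by ring
    rw [h6] at h5
    linarith
  have h7 : mom 3 ≤ mom q := by
    unfold mom
    refine integral_mono (Phi_bd_int 3 (by norm_num)) (Phi_bd_int q (by linarith)) (fun θ => ?_)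
    exact Real.rpow_le_rpow_of_exponent_ge' (sq_nonneg _) (Real.cos_sq_le_one θ) (by linarith) hq3
  rw [h3] at h7
  refine ⟨by linarith, by linarith, by linarith, by linarith⟩

end Pool.Agent.H494.Kac
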