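import Pool.Agent.H494.Kac.Defs2

open MeasureTheory Filter Topology
open scoped ENNReal

namespace Pool.Agent.H494.Kac
theorem avg_good_mix {n : ℕ} (i j : Fin n) (b : ℝ) (hb0 : 0 < b) (hb1 : b < 1)
    (M : Fin n → Fin n → ℝ) (hM : (∀ i k, 0 ≤ M i k) ∧ ∀ k, 0 < ∑ i, M i k) :
    (∀ l k, 0 ≤ mixR i j b M l k) ∧ ∀ k, 0 < ∑ l, mixR i j b M l k := by
  have h0 : ∀ l k, 0 ≤ mixR i j b M l k := by
    intro l k
    unfold mixR
    have h1 := hM.1 i k
    have h2 := hM.1 j k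
    have h3 := hM.1 l k
    split_ifs
    · have h4 := mul_nonneg hb0.le h1
      have h5 := mul_nonneg (sub_nonneg.2 hb1.le) h2
      linarith
    · exact h3
  refine ⟨h0, fun k => ?_⟩
  obtain ⟨l, hl⟩ : ∃ l, 0 < M l k := by
    by_contra hne
    push Not at hne
    exact absurd (hM.2 k) (not_lt.2 (Finset.sum_nonpos fun l _ => hne l))
  refine Finset.sum_pos' (fun l _ => h0 l k) ⟨l, Finset.mem_univ l, ?_⟩
  unfold mixR
  have h1 := hM.1 i k
  have h2 := hM.1 j k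
  split_ifs with h
  · have h4 := mul_nonneg hb0.le h1
    have h5 := mul_nonneg (sub_nonneg.2 hb1.le) h2
    rcases h with h | h
    · rw [h] at hl
      have := mul_pos hb0 hl
      linarith
    · rw [h] at hl
      have := mul_pos (sub_pos.2 hb1) hl
      linarith
  · exact hl

theorem avg_good_ae : ∀ᵐ φ ∂unif, 0 < (Real.cos φ) ^ 2 ∧ (Real.cos φ) ^ 2 < 1 := by
  have h1 : ∀ᵐ φ : ℝ, Real.cos φ ≠ 0 := by
    have hc : Set.Countable {φ : ℝ | Real.cos φ = 0} := by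
      refine (Set.countable_range (fun k : ℤ => (2 * (k : ℝ) + 1) * Real.pi / 2)).mono ?_
      intro φ hφ
      obtain ⟨k, hk⟩ := Real.cos_eq_zero_iff.1 hφ
      exact ⟨k, hk.symm⟩
    have := hc.measure_zero volume
    rw [ae_iff]
    simpa using this
  have h2 : ∀ᵐ φ : ℝ, Real.sin φ ≠ 0 := by
    have hc : Set.Countable {φ : ℝ | Real.sin φ = 0} := by
      refine (Set.countable_range (fun k : ℤ => (k : ℝ) * Real.pi)).mono ?_
      intro φ hφ
      obtain ⟨k, hk⟩ := Real.sin_eq_zero_iff.1 hφ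
      exact ⟨k, hk⟩
    have := hc.measure_zero volume
    rw [ae_iff]
    simpa using this
  have h3 : ∀ᵐ φ : ℝ, 0 < (Real.cos φ) ^ 2 ∧ (Real.cos φ) ^ 2 < 1 := by
    filter_upwards [h1, h2] with φ hc hs
    have h4 := Real.sin_sq_add_cos_sq φ
    have h5 : 0 < (Real.cos φ) ^ 2 := by positivity
    have h6 : 0 < (Real.sin φ) ^ 2 := by positivity
    exact ⟨h5, by linarith⟩
  unfold unif
  exact Measure.ae_smul_measure (ae_restrict_of_ae h3) _

theorem avg_good (n : ℕ) (hm : Measurable (avgStep n))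
    (h : ∀ (M : Fin n → Fin n → ℝ) (f : (Fin n → Fin n → ℝ) → ℝ≥0∞), Measurable f →
      ∫⁻ M', f M' ∂(avgStep n M) = ((prs n).card : ℝ≥0∞)⁻¹ *
        ∑ p ∈ prs n, ∫⁻ φ, f (mixR p.1 p.2 ((Real.cos φ) ^ 2) M) ∂unif) (t : ℕ) :
    ∀ᵐ M ∂(avgLaw n t), (∀ i k, 0 ≤ M i k) ∧ ∀ k, 0 < ∑ i, M i k := by
  have hG : MeasurableSet {M : Fin n → Fin n → ℝ | (∀ i k, 0 ≤ M i k) ∧ ∀ k, 0 < ∑ i, M i k} := by
    have he : {M : Fin n → Fin n → ℝ | (∀ i k, 0 ≤ M i k) ∧ ∀ k, 0 < ∑ i, M i k} =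
        (⋂ i, ⋂ k, {M : Fin n → Fin n → ℝ | 0 ≤ M i k}) ∩
          ⋂ k, {M : Fin n → Fin n → ℝ | 0 < ∑ i, M i k} := by
      ext M
      simp
    rw [he]
    refine (MeasurableSet.iInter fun i => MeasurableSet.iInter fun k =>
      measurableSet_le measurable_const (by fun_prop)).inter
      (MeasurableSet.iInter fun k => measurableSet_lt measurable_const (by fun_prop))
  induction t with
  | zero =>
    change ∀ᵐ M ∂(Measure.dirac (idm n)), _
    rw [ae_dirac_iff hG]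
    refine ⟨fun i k => ?_, fun k => ?_⟩
    · unfold idm
      split_ifs <;> norm_num
    · unfold idm
      simp
  | succ t ih =>
    change ∀ᵐ M ∂((avgLaw n t).bind (avgStep n)), _
    rw [ae_iff]
    have hset : {M : Fin n → Fin n → ℝ | ¬ ((∀ i k, 0 ≤ M i k) ∧ ∀ k, 0 < ∑ i, M i k)} =
        {M : Fin n → Fin n → ℝ | (∀ i k, 0 ≤ M i k) ∧ ∀ k, 0 < ∑ i, M i k}ᶜ := rfl
    rw [hset, Measure.bind_apply hG.compl hm.aemeasurable]
    rw [lintegral_eq_zero_iff' (by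
      exact (Measure.measurable_coe hG.compl).comp hm |>.aemeasurable)]
    filter_upwards [ih] with M hM
    change (avgStep n M) _ = 0
    rw [← lintegral_indicator_one hG.compl, h M _ (measurable_one.indicator hG.compl)]
    rw [Finset.sum_eq_zero, mul_zero]
    intro p hp
    have hz : (fun φ : ℝ => {M : Fin n → Fin n → ℝ | (∀ i k, 0 ≤ M i k) ∧ ∀ k, 0 < ∑ i, M i k}ᶜ.indicator
        (1 : (Fin n → Fin n → ℝ) → ℝ≥0∞) (mixR p.1 p.2 (Real.cos φ ^ 2) M)) =ᵐ[unif]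
        fun _ => (0 : ℝ≥0∞) := by
      filter_upwards [avg_good_ae] with φ hφ
      have hmix := avg_good_mix p.1 p.2 _ hφ.1 hφ.2 M hM
      refine Set.indicator_of_notMem ?_ _
      intro hn
      exact hn hmix
    exact (lintegral_congr_ae hz).trans lintegral_zero

end Pool.Agent.H494.Kac
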