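import Pool.Agent.H494.Kac.Defs2

open MeasureTheory Filter Topology
open scoped ENNReal

namespace Pool.Agent.H494.Kac
theorem am_joint {n : ℕ} (i j : Fin n) : Measurable (fun q : (Fin n → Fin n → ℝ) × ℝ =>
    mixR i j ((Real.cos q.2) ^ 2) q.1) := by
  refine measurable_pi_lambda _ (fun k => measurable_pi_lambda _ (fun l => ?_))
  unfold mixR
  by_cases h : k = i ∨ k = j
  · simp only [if_pos h]
    have m1 : Measurable (fun q : (Fin n → Fin n → ℝ) × ℝ => (Real.cos q.2) ^ 2) :=
      (Real.measurable_cos.comp measurable_snd).pow_const 2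
    have m2 : ∀ a b : Fin n, Measurable (fun q : (Fin n → Fin n → ℝ) × ℝ => q.1 a b) :=
      fun a b => (measurable_pi_apply b).comp ((measurable_pi_apply a).comp measurable_fst)
    exact (m1.mul (m2 i l)).add ((measurable_const.sub m1).mul (m2 j l))
  · simp only [if_neg h]
    exact (measurable_pi_apply l).comp ((measurable_pi_apply k).comp measurable_fst)

theorem am_single {n : ℕ} (i j : Fin n) (M : Fin n → Fin n → ℝ) : Measurable (fun φ : ℝ =>
    mixR i j ((Real.cos φ) ^ 2) M) := by
  refine measurable_pi_lambda _ (fun k => measurable_pi_lambda _ (fun l => ?_))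
  unfold mixR
  by_cases h : k = i ∨ k = j
  · simp only [if_pos h]
    have m1 : Measurable (fun φ : ℝ => (Real.cos φ) ^ 2) := Real.measurable_cos.pow_const 2
    exact (m1.mul measurable_const).add ((measurable_const.sub m1).mul measurable_const)
  · simp only [if_neg h]
    exact measurable_const

theorem avg_meas (n : ℕ) : Measurable (avgStep n) ∧
    ∀ (M : Fin n → Fin n → ℝ) (f : (Fin n → Fin n → ℝ) → ℝ≥0∞), Measurable f →
      ∫⁻ M', f M' ∂(avgStep n M) = ((prs n).card : ℝ≥0∞)⁻¹ *
        ∑ p ∈ prs n, ∫⁻ φ, f (mixR p.1 p.2 ((Real.cos φ) ^ 2) M) ∂unif := by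
  have : SFinite unif := by unfold unif; infer_instance
  constructor
  · refine Measure.measurable_of_measurable_coe _ (fun s hs => ?_)
    have h1 : ∀ M : Fin n → Fin n → ℝ, avgStep n M s = ((prs n).card : ℝ≥0∞)⁻¹ *
        ∑ p ∈ prs n, unif (Prod.mk M ⁻¹' ((fun q : (Fin n → Fin n → ℝ) × ℝ =>
          mixR p.1 p.2 ((Real.cos q.2) ^ 2) q.1) ⁻¹' s)) := by
      intro M
      unfold avgStep
      rw [Measure.smul_apply, Measure.finsetSum_apply, smul_eq_mul]
      congr 1
      refine Finset.sum_congr rfl (fun p _ => ?_)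
      rw [Measure.map_apply (am_single p.1 p.2 M) hs]
      rfl
    simp only [h1]
    refine Measurable.const_mul (Finset.measurable_sum _ (fun p _ => ?_)) _
    exact measurable_measure_prodMk_left ((am_joint p.1 p.2) hs)
  · intro M f hf
    unfold avgStep
    rw [lintegral_smul_measure, lintegral_finsetSum_measure, smul_eq_mul]
    congr 1
    refine Finset.sum_congr rfl (fun p _ => ?_)
    rw [lintegral_map hf (am_single p.1 p.2 M)]

end Pool.Agent.H494.Kac
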