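import Pool.Agent.H494.Kac.Defs2

open MeasureTheory Filter Topology
open scoped ENNReal

namespace Pool.Agent.H494.Kac
theorem avg_perm_sum {n : ℕ} (σ : Equiv.Perm (Fin n)) (G : Fin n → Fin n → ℝ≥0∞)
    (hG : ∀ i j, G i j = G j i) :
    ∑ p ∈ prs n, G (σ p.1) (σ p.2) = ∑ p ∈ prs n, G p.1 p.2 := by
  classical
  let τ : Equiv.Perm (Fin n) → Fin n × Fin n → Fin n × Fin n := fun ρ p =>
    if ρ p.1 < ρ p.2 then (ρ p.1, ρ p.2) else (ρ p.2, ρ p.1)
  have hmem : ∀ (ρ : Equiv.Perm (Fin n)) (p : Fin n × Fin n), p ∈ prs n → τ ρ p ∈ prs n := by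
    intro ρ p hp
    simp only [prs, Finset.mem_filter, Finset.mem_univ, true_and] at hp ⊢
    have hne : ρ p.1 ≠ ρ p.2 := fun h => hp.ne (ρ.injective h)
    by_cases h : ρ p.1 < ρ p.2
    · simp only [τ, if_pos h]
      exact h
    · simp only [τ, if_neg h]
      exact lt_of_le_of_ne (not_lt.1 h) hne.symm
  have hinv : ∀ (ρ : Equiv.Perm (Fin n)) (p : Fin n × Fin n), p ∈ prs n →
      τ ρ⁻¹ (τ ρ p) = p := by
    intro ρ p hp
    simp only [prs, Finset.mem_filter, Finset.mem_univ, true_and] at hp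
    have hi : ∀ x, ρ⁻¹ (ρ x) = x := fun x => ρ.symm_apply_apply x
    by_cases h : ρ p.1 < ρ p.2
    · simp only [τ, if_pos h, hi, if_pos hp]
    · simp only [τ, if_neg h, hi, if_neg hp.not_gt]
  refine Finset.sum_nbij' (τ σ) (τ σ⁻¹) (hmem σ) (hmem σ⁻¹) (hinv σ) ?_ ?_
  · intro p hp
    have := hinv σ⁻¹ p hp
    rwa [inv_inv] at this
  · intro p hp
    by_cases h : σ p.1 < σ p.2
    · simp only [τ, if_pos h]
    · simp only [τ, if_neg h]
      exact hG _ _

theorem avg_perm_meas {n : ℕ} (i j : Fin n) (M : Fin n → Fin n → ℝ) :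
    Measurable (fun b : ℝ => mixR i j b M) := by
  apply measurable_pi_lambda
  intro k
  apply measurable_pi_lambda
  intro l
  unfold mixR
  by_cases h : k = i ∨ k = j
  · simp only [if_pos h]
    fun_prop
  · simp only [if_neg h]
    exact measurable_const

theorem avg_perm_swap {n : ℕ} (i j : Fin n) (b : ℝ) (M : Fin n → Fin n → ℝ) :
    mixR j i b M = mixR i j (1 - b) M := by
  funext k l
  unfold mixR
  by_cases h : k = i ∨ k = j
  · rw [if_pos h, if_pos (Or.comm.1 h)]
    ring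
  · rw [if_neg h, if_neg (fun h' => h (Or.comm.1 h'))]

theorem avg_perm (n : ℕ) (hm : Measurable (avgStep n))
    (h : ∀ (M : Fin n → Fin n → ℝ) (f : (Fin n → Fin n → ℝ) → ℝ≥0∞), Measurable f →
      ∫⁻ M', f M' ∂(avgStep n M) = ((prs n).card : ℝ≥0∞)⁻¹ *
        ∑ p ∈ prs n, ∫⁻ φ, f (mixR p.1 p.2 ((Real.cos φ) ^ 2) M) ∂unif)
    (hs : ∀ g : ℝ → ℝ≥0∞, Measurable g →
      ∫⁻ φ, g (1 - (Real.cos φ) ^ 2) ∂unif = ∫⁻ φ, g ((Real.cos φ) ^ 2) ∂unif)
    (σ : Equiv.Perm (Fin n)) (t : ℕ) (f : (Fin n → Fin n → ℝ) → ℝ≥0∞) (hf : Measurable f) :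
    ∫⁻ M, f (fun i k => M (σ i) (σ k)) ∂(avgLaw n t) = ∫⁻ M, f M ∂(avgLaw n t) := by
  let S : (Fin n → Fin n → ℝ) → (Fin n → Fin n → ℝ) := fun M i k => M (σ i) (σ k)
  have hS : Measurable S := by
    apply measurable_pi_lambda
    intro i
    apply measurable_pi_lambda
    intro k
    exact (measurable_pi_apply (σ k)).comp (measurable_pi_apply (σ i))
  have hmix : ∀ (i j : Fin n) (b : ℝ) (M : Fin n → Fin n → ℝ),
      S (mixR (σ i) (σ j) b M) = mixR i j b (S M) := by
    intro i j b M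
    funext k l
    show mixR (σ i) (σ j) b M (σ k) (σ l) = mixR i j b (S M) k l
    unfold mixR
    by_cases h : k = i ∨ k = j
    · have h' : σ k = σ i ∨ σ k = σ j := by
        rcases h with h | h
        · left; rw [h]
        · right; rw [h]
      rw [if_pos h, if_pos h']
    · have h' : ¬ (σ k = σ i ∨ σ k = σ j) := by
        rintro (h' | h')
        · exact h (Or.inl (σ.injective h'))
        · exact h (Or.inr (σ.injective h'))
      rw [if_neg h, if_neg h']
  have hstep : ∀ (f : (Fin n → Fin n → ℝ) → ℝ≥0∞), Measurable f → ∀ M,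
      ∫⁻ M', f (S M') ∂(avgStep n M) = ∫⁻ M', f M' ∂(avgStep n (S M)) := by
    intro f hf M
    rw [h M (fun M' => f (S M')) (hf.comp hS), h (S M) f hf]
    congr 1
    rw [← avg_perm_sum σ (fun i j => ∫⁻ φ, f (S (mixR i j ((Real.cos φ) ^ 2) M)) ∂unif)]
    · simp only [hmix]
    · intro i j
      have e1 := hs (fun b => f (S (mixR i j b M))) ((hf.comp hS).comp (avg_perm_meas i j M))
      rw [← e1]
      simp only [avg_perm_swap i j]
  induction t generalizing f with
  | zero =>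
    show ∫⁻ M, f (S M) ∂(Measure.dirac (idm n)) = ∫⁻ M, f M ∂(Measure.dirac (idm n))
    have hfS : Measurable (fun M => f (S M)) := hf.comp hS
    rw [lintegral_dirac' _ hfS, lintegral_dirac' _ hf]
    congr 1
    funext i k
    show idm n (σ i) (σ k) = idm n i k
    unfold idm
    simp only [EmbeddingLike.apply_eq_iff_eq]
  | succ t ih =>
    show ∫⁻ M, f (S M) ∂((avgLaw n t).bind (avgStep n)) = ∫⁻ M, f M ∂((avgLaw n t).bind (avgStep n))
    have hfS : Measurable (fun M => f (S M)) := hf.comp hS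
    rw [Measure.lintegral_bind hm.aemeasurable hfS.aemeasurable,
      Measure.lintegral_bind hm.aemeasurable hf.aemeasurable]
    have hg : Measurable (fun M => ∫⁻ M', f M' ∂(avgStep n M)) :=
      (Measure.measurable_lintegral hf).comp hm
    rw [← ih (fun M => ∫⁻ M', f M' ∂(avgStep n M)) hg]
    congr 1
    funext M
    exact hstep f hf M

end Pool.Agent.H494.Kac
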