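import Pool.Agent.H494.Kac.Defs2

open MeasureTheory Filter Topology
open scoped ENNReal

namespace Pool.Agent.H494.Kac
theorem avg_prob_map_meas {n : ℕ} (i j : Fin n) (M : Fin n → Fin n → ℝ) :
    Measurable (fun φ : ℝ => mixR i j ((Real.cos φ) ^ 2) M) := by
  refine measurable_pi_iff.mpr fun k => measurable_pi_iff.mpr fun l => ?_
  unfold mixR
  by_cases h : k = i ∨ k = j
  · simp only [if_pos h]
    fun_prop
  · simp only [if_neg h]
    exact measurable_const

theorem avg_prob_step (n : ℕ) (hn : 2 ≤ n) (hu : IsProbabilityMeasure unif)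
    (M : Fin n → Fin n → ℝ) : avgStep n M Set.univ = 1 := by
  unfold avgStep
  rw [Measure.smul_apply, Measure.finsetSum_apply]
  have h1 : ∀ p ∈ prs n, (unif.map (fun φ => mixR p.1 p.2 ((Real.cos φ) ^ 2) M)) Set.univ = 1 := by
    intro p _
    rw [Measure.map_apply (avg_prob_map_meas p.1 p.2 M) MeasurableSet.univ, Set.preimage_univ]
    exact measure_univ
  rw [Finset.sum_congr rfl h1, Finset.sum_const, nsmul_eq_mul, mul_one, smul_eq_mul]
  have hne : (prs n).card ≠ 0 := by
    rw [Finset.card_ne_zero]
    refine ⟨(⟨0, by omega⟩, ⟨1, by omega⟩), ?_⟩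
    simp [prs]
  exact ENNReal.inv_mul_cancel (by exact_mod_cast hne) (ENNReal.natCast_ne_top _)

theorem avg_prob (n : ℕ) (hn : 2 ≤ n) (hu : IsProbabilityMeasure unif)
    (hm : Measurable (avgStep n)) (t : ℕ) :
    IsProbabilityMeasure (avgLaw n t) := by
  induction t with
  | zero => 
    rw [avgLaw]
    infer_instance
  | succ t ih =>
    rw [avgLaw]
    constructor
    rw [Measure.bind_apply MeasurableSet.univ hm.aemeasurable]
    simp only [avg_prob_step n hn hu]
    rw [lintegral_one]
    exact measure_univ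

end Pool.Agent.H494.Kac
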