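import Pool.Agent.H494.Kac.Defs2

open MeasureTheory Filter Topology
open scoped ENNReal

namespace Pool.Agent.H494.Kac
theorem bi_bound (e : ℝ → ℝ → ℝ) (he : Measurable (fun q : ℝ × ℝ => e q.1 q.2))
    (hb : ∀ x y, |e x y| ≤ 1 / 1000)
    (hpt : ∀ (m : ℕ) (ε : Fin (m + 1) → Fin (m + 1) → ℝ), (∀ i j, |ε i j| ≤ 1 / 1000) →
      ∑ i, ∑ j, (1 + ε i j) * Real.exp ((∑ a : Fin m, ∑ b : Fin m, ε (i.succAbove a) (j.succAbove b)) / m +
        300 * (∑ a : Fin m, ∑ b : Fin m, ε (i.succAbove a) (j.succAbove b) ^ 2) / m) ≤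
      ((m : ℝ) + 1) ^ 2 * Real.exp ((∑ i, ∑ j, ε i j) / (m + 1) +
        300 * (∑ i, ∑ j, ε i j ^ 2) / (m + 1)))
    (m : ℕ) (μ : Measure ((Fin m → ℝ) × (Fin m → ℝ))) [IsFiniteMeasure μ]
    (hinv : ∀ (σ τ : Equiv.Perm (Fin m)) (f : (Fin m → ℝ) × (Fin m → ℝ) → ℝ≥0∞), Measurable f →
      ∫⁻ p, f (p.1 ∘ σ, p.2 ∘ τ) ∂μ = ∫⁻ p, f p ∂μ) :
    ∫⁻ p, ENNReal.ofReal (∏ i, (1 + e (p.1 i) (p.2 i))) ∂μ ≤
      ∫⁻ p, ENNReal.ofReal (Real.exp ((∑ i, ∑ j, e (p.1 i) (p.2 j)) / m +
        300 * (∑ i, ∑ j, e (p.1 i) (p.2 j) ^ 2) / m)) ∂μ := by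
  classical
  -- measurability facts
  have hmeas : ∀ (k : ℕ) (i j : Fin k), Measurable (fun p : (Fin k → ℝ) × (Fin k → ℝ) =>
      e (p.1 i) (p.2 j)) := by
    intro k i j
    have h1 : Measurable (fun p : (Fin k → ℝ) × (Fin k → ℝ) => ((p.1 i, p.2 j) : ℝ × ℝ)) :=
      Measurable.prodMk ((measurable_pi_apply i).comp measurable_fst)
        ((measurable_pi_apply j).comp measurable_snd)
    exact he.comp h1
  have hF : ∀ k : ℕ, Measurable (fun p : (Fin k → ℝ) × (Fin k → ℝ) =>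
      ENNReal.ofReal (Real.exp ((∑ i, ∑ j, e (p.1 i) (p.2 j)) / k +
        300 * (∑ i, ∑ j, e (p.1 i) (p.2 j) ^ 2) / k))) := by
    intro k
    apply Measurable.ennreal_ofReal
    apply Real.measurable_exp.comp
    apply Measurable.add
    · apply Measurable.div_const
      exact Finset.measurable_sum _ fun i _ => Finset.measurable_sum _ fun j _ => hmeas k i j
    · apply Measurable.div_const
      apply Measurable.const_mul
      exact Finset.measurable_sum _ fun i _ => Finset.measurable_sum _ fun j _ =>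
        (hmeas k i j).pow_const 2
  have hone : ∀ x y, 0 ≤ 1 + e x y := by
    intro x y
    have := (abs_le.1 (hb x y)).1
    linarith
  -- permutations
  have hperm : ∀ (k : ℕ) (a : Fin (k + 1)) (σ : Equiv.Perm (Fin k)),
      ∃ P : Equiv.Perm (Fin (k + 1)), P 0 = a ∧ ∀ c : Fin k, P c.succ = a.succAbove (σ c) := by
    intro k a σ
    refine ⟨(finSuccEquiv' 0).trans ((Equiv.optionCongr σ).trans (finSuccEquiv' a).symm), ?_, ?_⟩
    · simp
    · intro c
      have : (c.succ : Fin (k + 1)) = (0 : Fin (k + 1)).succAbove c := by simp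
      rw [this]
      simp only [Equiv.trans_apply, finSuccEquiv'_succAbove, Equiv.optionCongr_apply,
        Option.map_some, finSuccEquiv'_symm_some]
  induction m with
  | zero =>
    simp
  | succ m ih =>
    set w : (Fin (m + 1) → ℝ) × (Fin (m + 1) → ℝ) → ℝ≥0∞ :=
      fun p => ENNReal.ofReal (1 + e (p.1 0) (p.2 0)) with hw
    have hwm : Measurable w := ((hmeas (m + 1) 0 0).const_add 1).ennreal_ofReal
    set tl : (Fin (m + 1) → ℝ) × (Fin (m + 1) → ℝ) → (Fin m → ℝ) × (Fin m → ℝ) :=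
      fun p => (fun c => p.1 c.succ, fun c => p.2 c.succ) with htl
    have htlm : Measurable tl := by
      apply Measurable.prodMk
      · exact measurable_pi_lambda _ fun c => (measurable_pi_apply c.succ).comp measurable_fst
      · exact measurable_pi_lambda _ fun c => (measurable_pi_apply c.succ).comp measurable_snd
    set ν : Measure ((Fin m → ℝ) × (Fin m → ℝ)) := (μ.withDensity w).map tl with hν
    have hlin : ∀ g : (Fin m → ℝ) × (Fin m → ℝ) → ℝ≥0∞, Measurable g →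
        ∫⁻ q, g q ∂ν = ∫⁻ p, w p * g (tl p) ∂μ := by
      intro g hg
      rw [hν, lintegral_map hg htlm]
      exact lintegral_withDensity_eq_lintegral_mul μ hwm (hg.comp htlm)
    have hfin : IsFiniteMeasure ν := by
      refine ⟨?_⟩
      have h1 : ν Set.univ = ∫⁻ q, 1 ∂ν := by simp
      rw [h1, hlin _ measurable_const]
      have h2 : ∫⁻ p, w p * 1 ∂μ ≤ ∫⁻ p, 2 ∂μ := by
        apply lintegral_mono
        intro p
        simp only [mul_one, hw]
        have : (2 : ℝ≥0∞) = ENNReal.ofReal 2 := by simp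
        rw [this]
        apply ENNReal.ofReal_le_ofReal
        have := (abs_le.1 (hb (p.1 0) (p.2 0))).2
        linarith
      refine lt_of_le_of_lt h2 ?_
      rw [lintegral_const]
      exact ENNReal.mul_lt_top (by simp) (measure_lt_top μ _)
    have hinv' : ∀ (σ τ : Equiv.Perm (Fin m)) (f : (Fin m → ℝ) × (Fin m → ℝ) → ℝ≥0∞), Measurable f →
        ∫⁻ p, f (p.1 ∘ σ, p.2 ∘ τ) ∂ν = ∫⁻ p, f p ∂ν := by
      intro σ τ f hf
      obtain ⟨P, hP0, hPs⟩ := hperm m 0 σ
      obtain ⟨Q, hQ0, hQs⟩ := hperm m 0 τ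
      have hcm : Measurable (fun p : (Fin m → ℝ) × (Fin m → ℝ) =>
          ((p.1 ∘ σ, p.2 ∘ τ) : (Fin m → ℝ) × (Fin m → ℝ))) := by
        apply Measurable.prodMk
        · exact measurable_pi_lambda _ fun c => (measurable_pi_apply (σ c)).comp measurable_fst
        · exact measurable_pi_lambda _ fun c => (measurable_pi_apply (τ c)).comp measurable_snd
      rw [hlin (fun p => f (p.1 ∘ σ, p.2 ∘ τ)) (hf.comp hcm), hlin _ hf]
      rw [← hinv P Q (fun p => w p * f (tl p)) (hwm.mul (hf.comp htlm))]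
      apply lintegral_congr
      intro p
      have e1 : w (p.1 ∘ P, p.2 ∘ Q) = w p := by
        simp only [hw, Function.comp_apply, hP0, hQ0]
      have e2 : tl (p.1 ∘ P, p.2 ∘ Q) = ((tl p).1 ∘ σ, (tl p).2 ∘ τ) := by
        simp only [htl, Prod.mk.injEq]
        constructor
        · funext c
          simp [hPs]
        · funext c
          simp [hQs]
      simp only [Function.comp_def] at e1 e2 ⊢
      rw [e1, e2]
    have hIH := ih ν hinv'
    have hprodm : Measurable (fun p : (Fin m → ℝ) × (Fin m → ℝ) =>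
        ENNReal.ofReal (∏ i, (1 + e (p.1 i) (p.2 i)))) := by
      apply Measurable.ennreal_ofReal
      exact Finset.measurable_prod _ fun i _ => (hmeas m i i).const_add 1
    rw [hlin _ hprodm, hlin _ (hF m)] at hIH
    have hL : ∫⁻ p, ENNReal.ofReal (∏ i, (1 + e (p.1 i) (p.2 i))) ∂μ =
        ∫⁻ p, w p * ENNReal.ofReal (∏ i, (1 + e ((tl p).1 i) ((tl p).2 i))) ∂μ := by
      apply lintegral_congr
      intro p
      rw [Fin.prod_univ_succ, ENNReal.ofReal_mul (hone _ _)]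
    rw [hL]
    refine hIH.trans ?_
    -- the averaging
    set G : (Fin (m + 1) → ℝ) × (Fin (m + 1) → ℝ) → ℝ≥0∞ := fun p =>
      w p * ENNReal.ofReal (Real.exp ((∑ i, ∑ j, e ((tl p).1 i) ((tl p).2 j)) / m +
        300 * (∑ i, ∑ j, e ((tl p).1 i) ((tl p).2 j) ^ 2) / m)) with hG
    have hGm : Measurable G := hwm.mul ((hF m).comp htlm)
    set H : Fin (m + 1) → Fin (m + 1) → (Fin (m + 1) → ℝ) × (Fin (m + 1) → ℝ) → ℝ := fun i j p =>
      (1 + e (p.1 i) (p.2 j)) * Real.exp ((∑ a : Fin m, ∑ b : Fin m,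
        e (p.1 (i.succAbove a)) (p.2 (j.succAbove b))) / m +
        300 * (∑ a : Fin m, ∑ b : Fin m, e (p.1 (i.succAbove a)) (p.2 (j.succAbove b)) ^ 2) / m) with hH
    have hHG : ∀ i j, ∃ P Q : Equiv.Perm (Fin (m + 1)), ∀ p : (Fin (m + 1) → ℝ) × (Fin (m + 1) → ℝ),
        G (p.1 ∘ P, p.2 ∘ Q) = ENNReal.ofReal (H i j p) := by
      intro i j
      obtain ⟨P, hP0, hPs⟩ := hperm m i 1
      obtain ⟨Q, hQ0, hQs⟩ := hperm m j 1
      refine ⟨P, Q, fun p => ?_⟩
      simp only [hG, hH, hw, htl, Function.comp_apply, hP0, hQ0, hPs, hQs, Equiv.Perm.coe_one, id]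
      rw [ENNReal.ofReal_mul (hone _ _)]
    have hHm : ∀ i j, Measurable (fun p => ENNReal.ofReal (H i j p)) := by
      intro i j
      obtain ⟨P, Q, hPQ⟩ := hHG i j
      have hcm : Measurable (fun p : (Fin (m + 1) → ℝ) × (Fin (m + 1) → ℝ) =>
          ((p.1 ∘ P, p.2 ∘ Q) : (Fin (m + 1) → ℝ) × (Fin (m + 1) → ℝ))) := by
        apply Measurable.prodMk
        · exact measurable_pi_lambda _ fun c => (measurable_pi_apply (P c)).comp measurable_fst
        · exact measurable_pi_lambda _ fun c => (measurable_pi_apply (Q c)).comp measurable_snd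
      have := hGm.comp hcm
      have h3 : (fun p => ENNReal.ofReal (H i j p)) = G ∘ (fun p : (Fin (m + 1) → ℝ) × (Fin (m + 1) → ℝ) =>
          ((p.1 ∘ P, p.2 ∘ Q) : (Fin (m + 1) → ℝ) × (Fin (m + 1) → ℝ))) := by
        funext p
        exact (hPQ p).symm
      rw [h3]
      exact this
    have hHint : ∀ i j, ∫⁻ p, ENNReal.ofReal (H i j p) ∂μ = ∫⁻ p, G p ∂μ := by
      intro i j
      obtain ⟨P, Q, hPQ⟩ := hHG i j
      rw [← hinv P Q G hGm]
      exact lintegral_congr fun p => (hPQ p).symm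
    have hHnn : ∀ i j p, 0 ≤ H i j p := fun i j p => mul_nonneg (hone _ _) (Real.exp_pos _).le
    have hsum : ((m : ℝ≥0∞) + 1) ^ 2 * ∫⁻ p, G p ∂μ =
        ∫⁻ p, ENNReal.ofReal (∑ i, ∑ j, H i j p) ∂μ := by
      have h1 : ∀ p, ENNReal.ofReal (∑ i, ∑ j, H i j p) = ∑ i, ∑ j, ENNReal.ofReal (H i j p) := by
        intro p
        rw [ENNReal.ofReal_sum_of_nonneg (fun i _ => Finset.sum_nonneg fun j _ => hHnn i j p)]
        exact Finset.sum_congr rfl fun i _ =>
          ENNReal.ofReal_sum_of_nonneg (fun j _ => hHnn i j p)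
      rw [lintegral_congr h1, lintegral_finsetSum]
      · have h2 : ∀ i, ∫⁻ p, ∑ j, ENNReal.ofReal (H i j p) ∂μ = ((m : ℝ≥0∞) + 1) * ∫⁻ p, G p ∂μ := by
          intro i
          rw [lintegral_finsetSum _ (fun j _ => hHm i j)]
          rw [Finset.sum_congr rfl (fun j _ => hHint i j)]
          simp
        rw [Finset.sum_congr rfl (fun i _ => h2 i)]
        simp
        ring
      · intro i _
        exact Finset.measurable_sum _ fun j _ => hHm i j
    have hle : ((m : ℝ≥0∞) + 1) ^ 2 * ∫⁻ p, G p ∂μ ≤ ((m : ℝ≥0∞) + 1) ^ 2 *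
        ∫⁻ p, ENNReal.ofReal (Real.exp ((∑ i, ∑ j, e (p.1 i) (p.2 j)) / ((m + 1 : ℕ) : ℝ) +
        300 * (∑ i, ∑ j, e (p.1 i) (p.2 j) ^ 2) / ((m + 1 : ℕ) : ℝ))) ∂μ := by
      rw [hsum, ← lintegral_const_mul _ (hF (m + 1))]
      apply lintegral_mono
      intro p
      have h4 : ((m : ℝ≥0∞) + 1) ^ 2 = ENNReal.ofReal (((m : ℝ) + 1) ^ 2) := by
        rw [ENNReal.ofReal_pow (by positivity), ENNReal.ofReal_add (by positivity) (by norm_num)]
        simp
      simp only
      rw [h4, ← ENNReal.ofReal_mul (by positivity)]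
      apply ENNReal.ofReal_le_ofReal
      have := hpt m (fun i j => e (p.1 i) (p.2 j)) (fun i j => hb _ _)
      simp only [hH]
      push_cast
      exact this
    have h5 : ((m : ℝ≥0∞) + 1) ^ 2 ≠ 0 := by simp
    have h6 : ((m : ℝ≥0∞) + 1) ^ 2 ≠ ⊤ := by simp
    exact (ENNReal.mul_le_mul_iff_right h5 h6).1 hle
end Pool.Agent.H494.Kac
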