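import Pool.Agent.H494.Kac.Defs2

open MeasureTheory Filter Topology
open scoped ENNReal

namespace Pool.Agent.H494.Kac
theorem col_bounds_good {n : ℕ} (hn : 2 ≤ n) (M : Fin n → Fin n → ℝ)
    (hM : (∀ i k, 0 ≤ M i k) ∧ ∀ k, 0 < ∑ i, M i k) (k : Fin n) :
    (∀ i, 0 ≤ col M k i) ∧ (∑ i, col M k i = n) ∧
    ∀ (w : Fin n → ℝ) (i : Fin n), w i ^ 2 * col M k i / (∑ j, w j ^ 2 * col M k j) -
      w i ^ 2 / ∑ j, w j ^ 2 = Dv k M w i := by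
  have hS := hM.2 k
  have hn0 : (0 : ℝ) < n := by
    have : 0 < n := by omega
    exact_mod_cast this
  refine ⟨fun i => ?_, ?_, fun w i => ?_⟩
  · unfold col
    exact div_nonneg (mul_nonneg hn0.le (hM.1 i k)) hS.le
  · unfold col
    rw [← Finset.sum_div, ← Finset.mul_sum]
    exact mul_div_cancel_right₀ _ hS.ne'
  · obtain ⟨c, hc⟩ : ∃ c : ℝ, c = n / ∑ j, M j k := ⟨_, rfl⟩
    have hc0 : c ≠ 0 := by rw [hc]; positivity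
    have hcol : ∀ i, col M k i = c * M i k := by
      intro i
      unfold col
      rw [hc]
      ring
    unfold Dv cs
    congr 1
    have e1 : ∑ j, w j ^ 2 * col M k j = c * ∑ j, w j ^ 2 * M j k := by
      rw [Finset.mul_sum]
      refine Finset.sum_congr rfl fun j _ => ?_
      rw [hcol]; ring
    rw [e1, hcol, show w i ^ 2 * (c * M i k) = c * (w i ^ 2 * M i k) by ring]
    exact mul_div_mul_left _ _ hc0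

theorem col_bounds_int {α β : Type*} [MeasurableSpace α] [MeasurableSpace β] (μ : Measure α)
    (ν : Measure β) (f : α → ℝ≥0∞) (g : α → β → ℝ≥0∞) (C y b : ℝ) (hC : 0 ≤ C)
    (h : ∀ᵐ x ∂μ, f x ≤ ENNReal.ofReal C * ∫⁻ w, g x w ∂ν)
    (hy : ∫⁻ x, ∫⁻ w, g x w ∂ν ∂μ = ENNReal.ofReal y) (hb : C * y ≤ b) :
    ∫⁻ x, f x ∂μ ≤ ENNReal.ofReal b := by
  calc ∫⁻ x, f x ∂μ ≤ ∫⁻ x, ENNReal.ofReal C * ∫⁻ w, g x w ∂ν ∂μ := lintegral_mono_ae h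
    _ = ENNReal.ofReal C * ∫⁻ x, ∫⁻ w, g x w ∂ν ∂μ := lintegral_const_mul' _ _ ENNReal.ofReal_ne_top
    _ = ENNReal.ofReal (C * y) := by rw [hy, ENNReal.ofReal_mul hC]
    _ ≤ ENNReal.ofReal b := ENNReal.ofReal_le_ofReal hb

theorem col_bounds
    (hall : ∀ (δ c q Φ K ε : ℝ), 0 < δ → δ ≤ 1 → 1 / 8 ≤ c → c ≤ 1315 / 10000 → 9 / 4 ≤ q → q ≤ 3 →
      q / 8 ≤ Φ → Φ ≤ 1 / 2 → c * q < (1 + δ / 2) * Φ → 0 < K → 0 < ε →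
      ∀ᶠ n : ℕ in atTop, ∀ y u v a : ℕ → ℝ, (∀ t, 0 ≤ y t ∧ 0 ≤ u t ∧ 0 ≤ v t ∧ 0 ≤ a t) →
      (y 0 ≤ 10 ∧ u 0 ≤ 10 ∧ v 0 ≤ 10 ∧ a 0 ≤ 10) →
      (∀ t, y (t + 1) ≤ (1 - 1 / (2 * n)) * y t) →
      (∀ t, u (t + 1) ≤ (1 - 3 / (4 * n)) * u t + 20 / n * (n : ℝ) ^ (-(1 / 2) : ℝ) * v t) →
      (∀ t, v (t + 1) ≤ (1 - 3 / (4 * n)) * v t + 20 / n * u t) →
      (∀ t, a (t + 1) ≤ (1 - 2 * Φ / n) * a t +
        20 / n * (n : ℝ) ^ (1 - q / 2) * v t ^ (q / 3)) →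
      ∀ t : ℕ, (1 + δ) * (n * Real.log n) / (2 * c) ≤ t →
        t ≤ (1 + δ) * (n * Real.log n) / (2 * c) + 1 →
        K * (n : ℝ) ^ (2 : ℝ) * y t ≤ (n : ℝ) ^ (1 / 5 : ℝ) ∧
        K * (n : ℝ) ^ (3 : ℝ) * v t ≤ (n : ℝ) ^ (18 / 100 : ℝ) ∧
        K * (n : ℝ) ^ q * a t ≤ ε)
    (hseq : ∀ (n : ℕ), 2 ≤ n → ∀ (k : Fin n) (q : ℝ), 2 ≤ q → q ≤ 3 →
      ∃ y u v a : ℕ → ℝ, (∀ t, 0 ≤ y t ∧ 0 ≤ u t ∧ 0 ≤ v t ∧ 0 ≤ a t) ∧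
      (y 0 ≤ 10 ∧ u 0 ≤ 10 ∧ v 0 ≤ 10 ∧ a 0 ≤ 10) ∧
      (∀ t, y (t + 1) ≤ (1 - 1 / (2 * n)) * y t) ∧
      (∀ t, u (t + 1) ≤ (1 - 3 / (4 * n)) * u t + 20 / n * (n : ℝ) ^ (-(1 / 2) : ℝ) * v t) ∧
      (∀ t, v (t + 1) ≤ (1 - 3 / (4 * n)) * v t + 20 / n * u t) ∧
      (∀ t, a (t + 1) ≤ (1 - 2 * (1 - 2 * mom q) / n) * a t +
        20 / n * (n : ℝ) ^ (1 - q / 2) * v t ^ (q / 3)) ∧
      (∀ t, ∫⁻ M, ∫⁻ w, ENNReal.ofReal (∑ i, Dv k M w i ^ 2) ∂(gam n) ∂(avgLaw n t) =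
        ENNReal.ofReal (y t)) ∧
      (∀ t, ∫⁻ M, ∫⁻ w, ENNReal.ofReal ((∑ i, Dv k M w i ^ 2) ^ (3 / 2 : ℝ)) ∂(gam n)
        ∂(avgLaw n t) = ENNReal.ofReal (v t)) ∧
      (∀ t, ∫⁻ M, ∫⁻ w, ENNReal.ofReal (∑ i, |Dv k M w i| ^ q) ∂(gam n) ∂(avgLaw n t) =
        ENNReal.ofReal (a t)))
    (hrev : ∀ (n : ℕ), 2 ≤ n → ∀ (a : Fin n → ℝ), (∀ i, 0 ≤ a i) → (∑ i, a i = n) →
      (∀ q : ℝ, 1 ≤ q → q ≤ 3 →
      ENNReal.ofReal (∑ i, |a i - 1| ^ q) ≤ ENNReal.ofReal (10 ^ 10 * (n : ℝ) ^ q) *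
      ∫⁻ w, ENNReal.ofReal (∑ i, |w i ^ 2 * a i / (∑ j, w j ^ 2 * a j) -
        w i ^ 2 / ∑ j, w j ^ 2| ^ q) ∂(gam n)) ∧
      ENNReal.ofReal ((∑ i, (a i - 1) ^ 2) ^ (3 / 2 : ℝ)) ≤
      ENNReal.ofReal (10 ^ 15 * (n : ℝ) ^ (3 : ℝ)) *
      ∫⁻ w, ENNReal.ofReal ((∑ i, (w i ^ 2 * a i / (∑ j, w j ^ 2 * a j) -
        w i ^ 2 / ∑ j, w j ^ 2) ^ 2) ^ (3 / 2 : ℝ)) ∂(gam n))
    (hgood : ∀ n t, ∀ᵐ M ∂(avgLaw n t), (∀ i k, 0 ≤ M i k) ∧ ∀ k, 0 < ∑ i, M i k)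
    (hq : ∀ v : ℝ, v < cstar → ∃ q : ℝ, 9 / 4 ≤ q ∧ q ≤ 3 ∧ v < (1 - 2 * mom q) / q)
    (hc1 : 1 / 8 ≤ cstar) (hc2 : cstar ≤ 1315 / 10000)
    (hΦ : ∀ q : ℝ, 2 ≤ q → q ≤ 3 → q / 8 ≤ 1 - 2 * mom q ∧ 1 - 2 * mom q ≤ 1 / 2)
    (δ ε : ℝ) (hδ : 0 < δ) (hδ1 : δ ≤ 1) (hε : 0 < ε) :
    ∃ q : ℝ, 2 ≤ q ∧ q ≤ 3 ∧ ∀ᶠ n : ℕ in atTop, ∀ t : ℕ,
      (1 + δ) * (n * Real.log n) / (2 * cstar) ≤ t →
      t ≤ (1 + δ) * (n * Real.log n) / (2 * cstar) + 1 → ∀ k : Fin n,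
      ∫⁻ M, ENNReal.ofReal (∑ i, (col M k i - 1) ^ 2) ∂(avgLaw n t) ≤
        ENNReal.ofReal ((n : ℝ) ^ (1 / 5 : ℝ)) ∧
      ∫⁻ M, ENNReal.ofReal ((∑ i, (col M k i - 1) ^ 2) ^ (3 / 2 : ℝ)) ∂(avgLaw n t) ≤
        ENNReal.ofReal ((n : ℝ) ^ (18 / 100 : ℝ)) ∧
      ∫⁻ M, ENNReal.ofReal (∑ i, |col M k i - 1| ^ q) ∂(avgLaw n t) ≤ ENNReal.ofReal ε := by
  have hcpos : 0 < cstar := by linarith
  have h1δ : 0 < 1 + δ / 2 := by linarith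
  obtain ⟨q, hq1, hq2, hq3⟩ := hq (cstar / (1 + δ / 2)) (by
    rw [div_lt_iff₀ h1δ]
    nlinarith)
  have hq0 : 0 < q := by linarith
  have hkey : cstar * q < (1 + δ / 2) * (1 - 2 * mom q) := by
    rw [div_lt_div_iff₀ h1δ hq0] at hq3
    linarith
  have hq' : 2 ≤ q := by linarith
  refine ⟨q, hq', hq2, ?_⟩
  have hall' := hall δ cstar q (1 - 2 * mom q) (10 ^ 15) ε hδ hδ1 hc1 hc2 hq1 hq2
    (hΦ q hq' hq2).1 (hΦ q hq' hq2).2 hkey (by norm_num) hε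
  filter_upwards [hall', eventually_ge_atTop 2] with n hn hn2
  intro t ht1 ht2 k
  obtain ⟨y, u, v, a, hpos, h0, hy, hu, hv, ha, hyi, hvi, hai⟩ := hseq n hn2 k q hq' hq2
  obtain ⟨b1, b2, b3⟩ := hn y u v a hpos h0 hy hu hv ha t ht1 ht2
  have hn0 : (0 : ℝ) < n := by
    have : 0 < n := by omega
    exact_mod_cast this
  obtain ⟨hpy, hpu, hpv, hpa⟩ := hpos t
  refine ⟨?_, ?_, ?_⟩
  · refine col_bounds_int (avgLaw n t) (gam n) _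
      (fun M w => ENNReal.ofReal (∑ i, Dv k M w i ^ 2)) (10 ^ 10 * (n : ℝ) ^ (2 : ℝ)) (y t) _
      (by positivity) ?_ (hyi t) ?_
    · filter_upwards [hgood n t] with M hM
      obtain ⟨g1, g2, g3⟩ := col_bounds_good hn2 M hM k
      have h := (hrev n hn2 (col M k) g1 g2).1 2 (by norm_num) (by norm_num)
      simp only [g3] at h
      simpa only [Real.rpow_two, sq_abs] using h
    · have : 0 ≤ (n : ℝ) ^ (2 : ℝ) * y t := by positivity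
      nlinarith
  · refine col_bounds_int (avgLaw n t) (gam n) _
      (fun M w => ENNReal.ofReal ((∑ i, Dv k M w i ^ 2) ^ (3 / 2 : ℝ)))
      (10 ^ 15 * (n : ℝ) ^ (3 : ℝ)) (v t) _
      (by positivity) ?_ (hvi t) b2
    filter_upwards [hgood n t] with M hM
    obtain ⟨g1, g2, g3⟩ := col_bounds_good hn2 M hM k
    have h := (hrev n hn2 (col M k) g1 g2).2
    simp only [g3] at h
    exact h
  · refine col_bounds_int (avgLaw n t) (gam n) _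
      (fun M w => ENNReal.ofReal (∑ i, |Dv k M w i| ^ q)) (10 ^ 10 * (n : ℝ) ^ q) (a t) _
      (by positivity) ?_ (hai t) ?_
    · filter_upwards [hgood n t] with M hM
      obtain ⟨g1, g2, g3⟩ := col_bounds_good hn2 M hM k
      have h := (hrev n hn2 (col M k) g1 g2).1 q (by linarith) hq2
      simp only [g3] at h
      exact h
    · have : 0 ≤ (n : ℝ) ^ q * a t := by positivity
      nlinarith

end Pool.Agent.H494.Kac
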