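import Pool.Agent.H494.Kac.Defs2

open MeasureTheory Filter Topology
open scoped ENNReal

namespace Pool.Agent.H494.Kac
theorem cl_aux (u : ℝ) (hu : |u| ≤ 1 / 900) :
    |(1 - u) ^ (-(1 / 2) : ℝ) - 1| ≤ 1 / 1000 ∧ (1 - u) ^ (-(1 / 2) : ℝ) - 1 ≤ u / 2 + u ^ 2 ∧
    ((1 - u) ^ (-(1 / 2) : ℝ) - 1) ^ 2 ≤ u ^ 2 ∧ (1 - u) ^ (-(1 / 2) : ℝ) ≤ 1 + |u| := by
  have hu' := abs_le.1 hu
  have h1 : 0 < 1 - u := by linarith [hu'.2]
  set r := (1 - u) ^ (-(1 / 2) : ℝ) with hr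
  have hr0 : 0 < r := Real.rpow_pos_of_pos h1 _
  have hr2 : r ^ 2 * (1 - u) = 1 := by
    have h2 : r ^ 2 = (1 - u)⁻¹ := by
      rw [hr, ← Real.rpow_natCast, ← Real.rpow_mul h1.le, ← Real.rpow_neg_one]
      norm_num
    rw [h2]
    exact inv_mul_cancel₀ h1.ne'
  have hu3 : u ^ 3 ≤ 1 := by
    refine (le_abs_self _).trans ?_
    rw [abs_pow]
    exact pow_le_one₀ (abs_nonneg _) (hu.trans (by norm_num))
  have hup : r ≤ 1 + u / 2 + u ^ 2 := by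
    by_contra h
    push Not at h
    have h2 : (1 + u / 2 + u ^ 2) ^ 2 < r ^ 2 := by
      have : 0 < 1 + u / 2 + u ^ 2 := by nlinarith [hu'.1, sq_nonneg u]
      exact pow_lt_pow_left₀ h this.le two_ne_zero
    have h3 := mul_lt_mul_of_pos_right h2 h1
    rw [hr2] at h3
    have h4 : (1 + u / 2 + u ^ 2) ^ 2 * (1 - u) = 1 + u ^ 2 * (5 / 4 - 5 / 4 * u - u ^ 3) := by ring
    have h5 : 0 ≤ u ^ 2 * (5 / 4 - 5 / 4 * u - u ^ 3) :=
      mul_nonneg (sq_nonneg _) (by linarith [hu'.2])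
    linarith
  have hlo : 1 + u / 2 ≤ r := by
    by_contra h
    push Not at h
    have h2 : r ^ 2 < (1 + u / 2) ^ 2 := pow_lt_pow_left₀ h hr0.le two_ne_zero
    have h3 := mul_lt_mul_of_pos_right h2 h1
    rw [hr2] at h3
    have h4 : (1 + u / 2) ^ 2 * (1 - u) = 1 - u ^ 2 * (3 / 4 + u / 4) := by ring
    have h5 : 0 ≤ u ^ 2 * (3 / 4 + u / 4) :=
      mul_nonneg (sq_nonneg _) (by linarith [hu'.1])
    linarith
  have hsq : u ^ 2 ≤ |u| * (1 / 900) := by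
    rw [← sq_abs, sq]
    exact mul_le_mul_of_nonneg_left hu (abs_nonneg _)
  have hua : u ≤ |u| := le_abs_self u
  have hub : -|u| ≤ u := neg_abs_le u
  have hu0 : 0 ≤ |u| := abs_nonneg u
  have habs : |r - 1| ≤ |u| * (451 / 900) := by
    rw [abs_le]
    constructor <;> linarith
  have habs2 : |r - 1| ≤ |u| := by linarith
  refine ⟨by linarith, by linarith, sq_le_sq.2 habs2, ?_⟩
  have := (abs_le.1 habs2).2
  linarith

theorem cl_perm (m : ℕ) (k : Fin (m + 1)) (σ : Equiv.Perm (Fin m)) :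
    ∃ σ' : Equiv.Perm (Fin (m + 1)),
      σ' k = k ∧ ∀ i, σ' (k.succAbove i) = k.succAbove (σ i) := by
  refine ⟨((finSuccEquiv' k).trans (Equiv.optionCongr σ)).trans (finSuccEquiv' k).symm, ?_, ?_⟩
  · simp
  · intro i
    simp

theorem cl_mu (m : ℕ) (k : Fin (m + 1)) (Q : Measure (Fin (m + 1) → ℝ)) [IsProbabilityMeasure Q]
    (W : (Fin (m + 1) → ℝ) × (Fin (m + 1) → ℝ) → ℝ≥0∞) (hW : Measurable W)
    (g : (Fin m → ℝ) × (Fin m → ℝ) → ℝ≥0∞) (hg : Measurable g) :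
    ∫⁻ p, g p ∂(((Q.prod Q).withDensity W).map
      (fun p => (p.1 ∘ k.succAbove, p.2 ∘ k.succAbove))) =
    ∫⁻ η, ∫⁻ ξ, W (η, ξ) * g (η ∘ k.succAbove, ξ ∘ k.succAbove) ∂Q ∂Q := by
  have hΦ : Measurable (fun p : (Fin (m + 1) → ℝ) × (Fin (m + 1) → ℝ) =>
      (p.1 ∘ k.succAbove, p.2 ∘ k.succAbove)) := by
    refine Measurable.prodMk ?_ ?_
    · exact measurable_pi_lambda _ (fun i => (measurable_pi_apply _).comp measurable_fst)
    · exact measurable_pi_lambda _ (fun i => (measurable_pi_apply _).comp measurable_snd)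
  have hgΦ : Measurable (fun p : (Fin (m + 1) → ℝ) × (Fin (m + 1) → ℝ) =>
      g (p.1 ∘ k.succAbove, p.2 ∘ k.succAbove)) := hg.comp hΦ
  rw [lintegral_map hg hΦ, lintegral_withDensity_eq_lintegral_mul _ hW hgΦ,
    lintegral_prod _ (hW.mul hgΦ).aemeasurable]
  rfl

theorem cl_sum (m : ℕ) (e : ℝ → ℝ → ℝ) (x y : Fin m → ℝ) (A Y : ℝ) (hA1 : |∑ i, x i| ≤ A)
    (hA2 : |∑ i, y i| ≤ A) (hY1 : ∑ i, x i ^ 2 ≤ Y) (hY2 : ∑ i, y i ^ 2 ≤ Y)
    (h1 : ∀ i j, e (x i) (y j) ≤ x i * y j / 2 + (x i * y j) ^ 2)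
    (h2 : ∀ i j, e (x i) (y j) ^ 2 ≤ (x i * y j) ^ 2) :
    (∑ i, ∑ j, e (x i) (y j)) / m + 300 * (∑ i, ∑ j, e (x i) (y j) ^ 2) / m ≤
      (A ^ 2 + 400 * Y ^ 2) / m := by
  rw [← add_div]
  apply div_le_div_of_nonneg_right _ (Nat.cast_nonneg m)
  have hP : ∑ i, ∑ j, (x i * y j) ^ 2 = (∑ i, x i ^ 2) * (∑ j, y j ^ 2) := by
    rw [Finset.sum_mul_sum]
    simp only [mul_pow]
  have hL : ∑ i, ∑ j, (x i * y j / 2) = (∑ i, x i) * (∑ j, y j) / 2 := by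
    rw [Finset.sum_mul_sum, Finset.sum_div]
    simp only [Finset.sum_div]
  have hS1 : ∑ i, ∑ j, e (x i) (y j) ≤
      (∑ i, x i) * (∑ j, y j) / 2 + (∑ i, x i ^ 2) * (∑ j, y j ^ 2) := by
    rw [← hL, ← hP, ← Finset.sum_add_distrib]
    refine Finset.sum_le_sum (fun i _ => ?_)
    rw [← Finset.sum_add_distrib]
    exact Finset.sum_le_sum (fun j _ => h1 i j)
  have hS2 : ∑ i, ∑ j, e (x i) (y j) ^ 2 ≤ (∑ i, x i ^ 2) * (∑ j, y j ^ 2) := by
    rw [← hP]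
    exact Finset.sum_le_sum (fun i _ => Finset.sum_le_sum (fun j _ => h2 i j))
  have hXY : (∑ i, x i) * (∑ j, y j) ≤ A ^ 2 := by
    calc (∑ i, x i) * (∑ j, y j) ≤ |(∑ i, x i) * (∑ j, y j)| := le_abs_self _
      _ = |∑ i, x i| * |∑ j, y j| := abs_mul _ _
      _ ≤ A * A := mul_le_mul hA1 hA2 (abs_nonneg _) ((abs_nonneg _).trans hA1)
      _ = A ^ 2 := (sq A).symm
  have hYY : (∑ i, x i ^ 2) * (∑ j, y j ^ 2) ≤ Y ^ 2 := by
    calc (∑ i, x i ^ 2) * (∑ j, y j ^ 2) ≤ Y * Y :=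
          mul_le_mul hY1 hY2 (Finset.sum_nonneg (fun i _ => sq_nonneg _))
            ((Finset.sum_nonneg (fun i _ => sq_nonneg _)).trans hY1)
      _ = Y ^ 2 := (sq Y).symm
  linarith [sq_nonneg A, sq_nonneg Y]

theorem col_l2 (m : ℕ) (hm : 1 ≤ m)
    (hbi : ∀ (e : ℝ → ℝ → ℝ), Measurable (fun q : ℝ × ℝ => e q.1 q.2) →
      (∀ x y, |e x y| ≤ 1 / 1000) →
      ∀ (μ : Measure ((Fin m → ℝ) × (Fin m → ℝ))), IsFiniteMeasure μ →
      (∀ (σ τ : Equiv.Perm (Fin m)) (f : (Fin m → ℝ) × (Fin m → ℝ) → ℝ≥0∞), Measurable f →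
        ∫⁻ p, f (p.1 ∘ σ, p.2 ∘ τ) ∂μ = ∫⁻ p, f p ∂μ) →
      ∫⁻ p, ENNReal.ofReal (∏ i, (1 + e (p.1 i) (p.2 i))) ∂μ ≤
      ∫⁻ p, ENNReal.ofReal (Real.exp ((∑ i, ∑ j, e (p.1 i) (p.2 j)) / m +
        300 * (∑ i, ∑ j, e (p.1 i) (p.2 j) ^ 2) / m)) ∂μ)
    (k : Fin (m + 1)) (Q : Measure (Fin (m + 1) → ℝ)) [IsProbabilityMeasure Q]
    (hb : ∀ᵐ η ∂Q, ∀ i, |η i| ≤ 1 / 30) (A Y B : ℝ) (hB0 : 0 ≤ B)
    (hA : ∀ᵐ η ∂Q, |∑ i : Fin m, η (k.succAbove i)| ≤ A) (hY : ∀ᵐ η ∂Q, ∑ i, η i ^ 2 ≤ Y)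
    (hinv : ∀ σ : Equiv.Perm (Fin (m + 1)), σ k = k →
      ∀ f : (Fin (m + 1) → ℝ) → ℝ≥0∞, Measurable f → ∫⁻ η, f (η ∘ σ) ∂Q = ∫⁻ η, f η ∂Q)
    (hB : ∫⁻ η, ENNReal.ofReal |η k| ∂Q ≤ ENNReal.ofReal B) :
    ∫⁻ η, ∫⁻ ξ, ENNReal.ofReal (∏ i, (1 - η i * ξ i) ^ (-(1 / 2) : ℝ)) ∂Q ∂Q ≤
      ENNReal.ofReal ((1 + B ^ 2) * Real.exp ((A ^ 2 + 400 * Y ^ 2) / m)) := by
  classical
  set e : ℝ → ℝ → ℝ := fun x y =>
    if |x| ≤ 1 / 30 ∧ |y| ≤ 1 / 30 then (1 - x * y) ^ (-(1 / 2) : ℝ) - 1 else 0 with he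
  have hemeas : Measurable (fun q : ℝ × ℝ => e q.1 q.2) := by
    refine Measurable.ite ?_ ?_ measurable_const
    · exact (measurableSet_le (measurable_fst.abs) measurable_const).inter
        (measurableSet_le measurable_snd.abs measurable_const)
    · exact ((measurable_const.sub (measurable_fst.mul measurable_snd)).pow_const _).sub
        measurable_const
  have hxy : ∀ x y : ℝ, |x| ≤ 1 / 30 → |y| ≤ 1 / 30 → |x * y| ≤ 1 / 900 := by
    intro x y hx hy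
    rw [abs_mul]
    calc |x| * |y| ≤ 1 / 30 * (1 / 30) := mul_le_mul hx hy (abs_nonneg _) (by norm_num)
      _ = 1 / 900 := by norm_num
  have heb : ∀ x y, |e x y| ≤ 1 / 1000 := by
    intro x y
    simp only [he]
    split_ifs with h
    · exact (cl_aux _ (hxy x y h.1 h.2)).1
    · norm_num
  set W : (Fin (m + 1) → ℝ) × (Fin (m + 1) → ℝ) → ℝ≥0∞ :=
    fun p => 1 + ENNReal.ofReal |p.1 k| * ENNReal.ofReal |p.2 k| with hWdef
  have hmk : Measurable (fun η : Fin (m + 1) → ℝ => ENNReal.ofReal |η k|) :=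
    ((measurable_pi_apply k).abs).ennreal_ofReal
  have hW : Measurable W :=
    measurable_const.add ((hmk.comp measurable_fst).mul (hmk.comp measurable_snd))
  set μ := ((Q.prod Q).withDensity W).map
    (fun p => (p.1 ∘ k.succAbove, p.2 ∘ k.succAbove)) with hμdef
  have hμ : ∀ g : (Fin m → ℝ) × (Fin m → ℝ) → ℝ≥0∞, Measurable g → ∫⁻ p, g p ∂μ =
      ∫⁻ η, ∫⁻ ξ, W (η, ξ) * g (η ∘ k.succAbove, ξ ∘ k.succAbove) ∂Q ∂Q := cl_mu m k Q W hW
  have hWint : ∫⁻ η, ∫⁻ ξ, W (η, ξ) ∂Q ∂Q ≤ ENNReal.ofReal (1 + B ^ 2) := by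
    have h1 : ∀ η, ∫⁻ ξ, W (η, ξ) ∂Q =
        1 + ENNReal.ofReal |η k| * ∫⁻ ξ, ENNReal.ofReal |ξ k| ∂Q := by
      intro η
      simp only [hWdef]
      rw [lintegral_add_left measurable_const, lintegral_const, measure_univ, mul_one,
        lintegral_const_mul _ hmk]
    simp only [h1]
    rw [lintegral_add_left measurable_const, lintegral_const, measure_univ, mul_one,
      lintegral_mul_const _ hmk]
    calc 1 + (∫⁻ η, ENNReal.ofReal |η k| ∂Q) * (∫⁻ η, ENNReal.ofReal |η k| ∂Q)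
        ≤ 1 + ENNReal.ofReal B * ENNReal.ofReal B := by gcongr
      _ = ENNReal.ofReal (1 + B ^ 2) := by
        rw [ENNReal.ofReal_add (by norm_num) (by positivity), ENNReal.ofReal_one, sq,
          ENNReal.ofReal_mul hB0]
  have hfin : IsFiniteMeasure μ := by
    constructor
    have h1 : μ Set.univ = ∫⁻ _p, 1 ∂μ := by rw [lintegral_one]
    rw [h1, hμ _ measurable_const]
    simp only [mul_one]
    exact lt_of_le_of_lt hWint ENNReal.ofReal_lt_top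
  have hco : ∀ ρ : Equiv.Perm (Fin m), Measurable (fun x : Fin m → ℝ => x ∘ ρ) := by
    intro ρ
    exact measurable_pi_lambda _ (fun i => measurable_pi_apply _)
  have hcs : Measurable (fun x : Fin (m + 1) → ℝ => x ∘ k.succAbove) :=
    measurable_pi_lambda _ (fun i => measurable_pi_apply _)
  have hinvμ : ∀ (σ τ : Equiv.Perm (Fin m)) (f : (Fin m → ℝ) × (Fin m → ℝ) → ℝ≥0∞),
      Measurable f → ∫⁻ p, f (p.1 ∘ σ, p.2 ∘ τ) ∂μ = ∫⁻ p, f p ∂μ := by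
    intro σ τ f hf
    obtain ⟨σ', hσk, hσ⟩ := cl_perm m k σ
    obtain ⟨τ', hτk, hτ⟩ := cl_perm m k τ
    have hm1 : Measurable (fun p : (Fin m → ℝ) × (Fin m → ℝ) => f (p.1 ∘ σ, p.2 ∘ τ)) :=
      hf.comp (((hco σ).comp measurable_fst).prodMk ((hco τ).comp measurable_snd))
    rw [hμ _ hm1, hμ _ hf]
    have e1 : ∀ η : Fin (m + 1) → ℝ,
        ∫⁻ ξ, W (η, ξ) * f ((η ∘ k.succAbove) ∘ σ, (ξ ∘ k.succAbove) ∘ τ) ∂Q =
        ∫⁻ ξ, W (η, ξ) * f ((η ∘ k.succAbove) ∘ σ, ξ ∘ k.succAbove) ∂Q := by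
      intro η
      rw [← hinv τ' hτk (fun ξ => W (η, ξ) * f ((η ∘ k.succAbove) ∘ σ, ξ ∘ k.succAbove))
        ((hW.comp (measurable_const.prodMk measurable_id)).mul
          (hf.comp (measurable_const.prodMk hcs)))]
      refine lintegral_congr (fun ξ => ?_)
      have h1 : (ξ ∘ τ') ∘ k.succAbove = (ξ ∘ k.succAbove) ∘ τ := by
        funext i
        simp only [Function.comp_apply, hτ]
      have h2 : W (η, ξ ∘ τ') = W (η, ξ) := by
        simp only [hWdef, Function.comp_apply, hτk]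
      rw [h1, h2]
    simp only [e1]
    have hm2 : Measurable (fun p : (Fin (m + 1) → ℝ) × (Fin (m + 1) → ℝ) =>
        W p * f (p.1 ∘ k.succAbove, p.2 ∘ k.succAbove)) :=
      hW.mul (hf.comp ((hcs.comp measurable_fst).prodMk (hcs.comp measurable_snd)))
    rw [← hinv σ' hσk (fun η => ∫⁻ ξ, W (η, ξ) * f (η ∘ k.succAbove, ξ ∘ k.succAbove) ∂Q)
      hm2.lintegral_prod_right']
    refine lintegral_congr (fun η => ?_)
    refine lintegral_congr (fun ξ => ?_)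
    have h1 : (η ∘ σ') ∘ k.succAbove = (η ∘ k.succAbove) ∘ σ := by
      funext i
      simp only [Function.comp_apply, hσ]
    have h2 : W (η ∘ σ', ξ) = W (η, ξ) := by
      simp only [hWdef, Function.comp_apply, hσk]
    rw [h1, h2]
  have hem : ∀ i j, Measurable (fun p : (Fin m → ℝ) × (Fin m → ℝ) => e (p.1 i) (p.2 j)) := by
    intro i j
    have h : Measurable (fun p : (Fin m → ℝ) × (Fin m → ℝ) => (p.1 i, p.2 j)) :=
      ((measurable_pi_apply i).comp measurable_fst).prodMk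
        ((measurable_pi_apply j).comp measurable_snd)
    exact hemeas.comp h
  have hme1 : Measurable (fun p : (Fin m → ℝ) × (Fin m → ℝ) =>
      ENNReal.ofReal (∏ i, (1 + e (p.1 i) (p.2 i)))) :=
    (Finset.measurable_fun_prod _ (fun i _ => measurable_const.add (hem i i))).ennreal_ofReal
  have hme2 : Measurable (fun p : (Fin m → ℝ) × (Fin m → ℝ) =>
      ENNReal.ofReal (Real.exp ((∑ i, ∑ j, e (p.1 i) (p.2 j)) / m +
        300 * (∑ i, ∑ j, e (p.1 i) (p.2 j) ^ 2) / m))) := by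
    refine (Real.measurable_exp.comp (Measurable.add ?_ ?_)).ennreal_ofReal
    · exact (Finset.measurable_fun_sum _ (fun i _ =>
        Finset.measurable_fun_sum _ (fun j _ => hem i j))).div_const _
    · exact (measurable_const.mul (Finset.measurable_fun_sum _ (fun i _ =>
        Finset.measurable_fun_sum _ (fun j _ => (hem i j).pow_const _)))).div_const _
  have hE : ∀ η ξ : Fin (m + 1) → ℝ, (∀ i, |η i| ≤ 1 / 30) → (∀ i, |ξ i| ≤ 1 / 30) →
      ∀ i j, e (η i) (ξ j) = (1 - η i * ξ j) ^ (-(1 / 2) : ℝ) - 1 := by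
    intro η ξ hη hξ i j
    simp only [he]
    rw [if_pos ⟨hη i, hξ j⟩]
  calc ∫⁻ η, ∫⁻ ξ, ENNReal.ofReal (∏ i, (1 - η i * ξ i) ^ (-(1 / 2) : ℝ)) ∂Q ∂Q
      ≤ ∫⁻ η, ∫⁻ ξ, W (η, ξ) * ENNReal.ofReal
        (∏ i, (1 + e ((η ∘ k.succAbove) i) ((ξ ∘ k.succAbove) i))) ∂Q ∂Q := by
        refine lintegral_mono_ae ?_
        filter_upwards [hb] with η hη
        refine lintegral_mono_ae ?_
        filter_upwards [hb] with ξ hξ
        have h0 : 0 ≤ 1 - η k * ξ k := by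
          have := (abs_le.1 (hxy _ _ (hη k) (hξ k))).2
          linarith
        rw [Fin.prod_univ_succAbove _ k, ENNReal.ofReal_mul (Real.rpow_nonneg h0 _)]
        have h1 : ∀ i, 1 + e (η i) (ξ i) = (1 - η i * ξ i) ^ (-(1 / 2) : ℝ) := by
          intro i
          rw [hE η ξ hη hξ]
          ring
        simp only [Function.comp_apply, h1]
        refine mul_le_mul' ?_ le_rfl
        have h2 := (cl_aux _ (hxy _ _ (hη k) (hξ k))).2.2.2
        simp only [hWdef]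
        rw [← ENNReal.ofReal_mul (abs_nonneg _), ← ENNReal.ofReal_one,
          ← ENNReal.ofReal_add zero_le_one (by positivity), ← abs_mul]
        exact ENNReal.ofReal_le_ofReal h2
    _ = ∫⁻ p, ENNReal.ofReal (∏ i, (1 + e (p.1 i) (p.2 i))) ∂μ := (hμ _ hme1).symm
    _ ≤ ∫⁻ p, ENNReal.ofReal (Real.exp ((∑ i, ∑ j, e (p.1 i) (p.2 j)) / m +
        300 * (∑ i, ∑ j, e (p.1 i) (p.2 j) ^ 2) / m)) ∂μ := hbi e hemeas heb μ hfin hinvμ
    _ = ∫⁻ η, ∫⁻ ξ, W (η, ξ) * ENNReal.ofReal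
        (Real.exp ((∑ i, ∑ j, e ((η ∘ k.succAbove) i) ((ξ ∘ k.succAbove) j)) / m +
        300 * (∑ i, ∑ j, e ((η ∘ k.succAbove) i) ((ξ ∘ k.succAbove) j) ^ 2) / m)) ∂Q ∂Q :=
        hμ _ hme2
    _ ≤ ∫⁻ η, ∫⁻ ξ, W (η, ξ) * ENNReal.ofReal (Real.exp ((A ^ 2 + 400 * Y ^ 2) / m)) ∂Q ∂Q := by
        refine lintegral_mono_ae ?_
        filter_upwards [hb, hA, hY] with η hη hηA hηY
        refine lintegral_mono_ae ?_
        filter_upwards [hb, hA, hY] with ξ hξ hξA hξY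
        refine mul_le_mul' le_rfl (ENNReal.ofReal_le_ofReal (Real.exp_le_exp.2 ?_))
        refine cl_sum m e (η ∘ k.succAbove) (ξ ∘ k.succAbove) A Y hηA hξA ?_ ?_ ?_ ?_
        · refine le_trans ?_ hηY
          rw [Fin.sum_univ_succAbove _ k]
          simp only [Function.comp_apply]
          linarith [sq_nonneg (η k)]
        · refine le_trans ?_ hξY
          rw [Fin.sum_univ_succAbove _ k]
          simp only [Function.comp_apply]
          linarith [sq_nonneg (ξ k)]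
        · intro i j
          simp only [Function.comp_apply]
          rw [hE η ξ hη hξ]
          exact (cl_aux _ (hxy _ _ (hη _) (hξ _))).2.1
        · intro i j
          simp only [Function.comp_apply]
          rw [hE η ξ hη hξ]
          exact (cl_aux _ (hxy _ _ (hη _) (hξ _))).2.2.1
    _ = (∫⁻ η, ∫⁻ ξ, W (η, ξ) ∂Q ∂Q) * ENNReal.ofReal (Real.exp ((A ^ 2 + 400 * Y ^ 2) / m)) := by
        simp only [lintegral_mul_const' _ _ ENNReal.ofReal_ne_top]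
    _ ≤ ENNReal.ofReal (1 + B ^ 2) * ENNReal.ofReal (Real.exp ((A ^ 2 + 400 * Y ^ 2) / m)) :=
        mul_le_mul' hWint le_rfl
    _ = ENNReal.ofReal ((1 + B ^ 2) * Real.exp ((A ^ 2 + 400 * Y ^ 2) / m)) := by
        rw [ENNReal.ofReal_mul (by positivity)]

end Pool.Agent.H494.Kac
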