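import Pool.Agent.H494.Kac.Defs2

open MeasureTheory Filter Topology
open scoped ENNReal

namespace Pool.Agent.H494.Kac
theorem c2_young (a b : ℝ≥0∞) : 2 * (a * b) ≤ a * a + b * b := by
  rcases le_total a b with h | h
  · obtain ⟨c, rfl⟩ := exists_add_of_le h
    have e : a * a + (a + c) * (a + c) = 2 * (a * (a + c)) + c * c := by ring
    rw [e]
    exact le_self_add
  · obtain ⟨c, rfl⟩ := exists_add_of_le h
    have e : (b + c) * (b + c) + b * b = 2 * ((b + c) * b) + c * c := by ring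
    rw [e]
    exact le_self_add

theorem conv_l2 (n : ℕ) {Ω : Type} [MeasurableSpace Ω] (μ : Measure Ω) [IsProbabilityMeasure μ]
    (p : Fin n → ℝ) (hp : ∀ k, 0 ≤ p k) (hp1 : ∑ k, p k = 1)
    (η : Ω → Fin n → Fin n → ℝ) (hη : Measurable η) (hb : ∀ ω k i, |η ω k i| ≤ 1 / 30)
    (h1 : ∀ η ξ : Fin n → ℝ, (∀ i, |η i| ≤ 1 / 2) → (∀ i, |ξ i| ≤ 1 / 2) →
      ∫⁻ w, ENNReal.ofReal (∏ i, gd (η i) (w i)) * ENNReal.ofReal (∏ i, gd (ξ i) (w i)) ∂(gam n) =
        ENNReal.ofReal (∏ i, (1 - η i * ξ i) ^ (-(1 / 2) : ℝ)))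
    (hpt : ∀ x y : Fin n → Fin n → ℝ, (∀ k i, |x k i| ≤ 1 / 30) → (∀ k i, |y k i| ≤ 1 / 30) →
      ∏ i, (1 - (∑ k, p k * x k i) * (∑ k, p k * y k i)) ^ (-(1 / 2) : ℝ) ≤
      ∑ k, ∑ l, p k * p l * ∏ i, (1 - x k i * y l i) ^ (-(1 / 2) : ℝ))
    (C : ℝ≥0∞)
    (h : ∀ k, ∫⁻ ω, ∫⁻ ω', ENNReal.ofReal (∏ i, (1 - η ω k i * η ω' k i) ^ (-(1 / 2) : ℝ)) ∂μ ∂μ ≤ C) :
    ∫⁻ ω, ∫⁻ ω', ENNReal.ofReal (∏ i, (1 - (∑ k, p k * η ω k i) * (∑ k, p k * η ω' k i)) ^
      (-(1 / 2) : ℝ)) ∂μ ∂μ ≤ C := by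
  haveI hprob : IsProbabilityMeasure (gam n) := by unfold gam; infer_instance
  have hηm : ∀ k i, Measurable (fun ω => η ω k i) := fun k i =>
    (measurable_pi_apply i).comp ((measurable_pi_apply k).comp hη)
  obtain ⟨g, hg⟩ : ∃ g : Fin n → Ω → (Fin n → ℝ) → ℝ≥0∞,
      ∀ k ω w, g k ω w = ENNReal.ofReal (∏ i, gd (η ω k i) (w i)) := ⟨_, fun _ _ _ => rfl⟩
  have hgm : ∀ k, Measurable (fun q : Ω × (Fin n → ℝ) => g k q.1 q.2) := by
    intro k
    simp only [hg]
    refine ENNReal.measurable_ofReal.comp (Finset.measurable_prod _ fun i _ => ?_)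
    unfold gd
    have h1 : Measurable (fun q : Ω × (Fin n → ℝ) => η q.1 k i) := (hηm k i).comp measurable_fst
    have h2 : Measurable (fun q : Ω × (Fin n → ℝ) => q.2 i) :=
      (measurable_pi_apply i).comp measurable_snd
    fun_prop
  obtain ⟨G, hG⟩ : ∃ G : Fin n → (Fin n → ℝ) → ℝ≥0∞, ∀ k w, G k w = ∫⁻ ω, g k ω w ∂μ :=
    ⟨_, fun _ _ => rfl⟩
  have hGm : ∀ k, Measurable (G k) := by
    intro k
    have : G k = fun w => ∫⁻ ω, g k ω w ∂μ := funext (hG k)
    rw [this]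
    exact Measurable.lintegral_prod_left' (hgm k)
  obtain ⟨F, hF⟩ : ∃ F : Fin n → Fin n → Ω → Ω → ℝ≥0∞, ∀ k l ω ω', F k l ω ω' =
    ENNReal.ofReal (∏ i, (1 - η ω k i * η ω' l i) ^ (-(1 / 2) : ℝ)) := ⟨_, fun _ _ _ _ => rfl⟩
  have hFm : ∀ k l, Measurable (fun q : Ω × Ω => F k l q.1 q.2) := by
    intro k l
    simp only [hF]
    refine ENNReal.measurable_ofReal.comp (Finset.measurable_prod _ fun i _ => ?_)
    have h1 : Measurable (fun q : Ω × Ω => η q.1 k i) := (hηm k i).comp measurable_fst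
    have h2 : Measurable (fun q : Ω × Ω => η q.2 l i) := (hηm l i).comp measurable_snd
    fun_prop
  have hFg : ∀ k l ω ω', F k l ω ω' = ∫⁻ w, g k ω w * g l ω' w ∂(gam n) := by
    intro k l ω ω'
    rw [hF, ← h1 (η ω k) (η ω' l) (fun i => (hb ω k i).trans (by norm_num))
      (fun i => (hb ω' l i).trans (by norm_num))]
    simp only [hg]
  have hI : ∀ k l, ∫⁻ ω, ∫⁻ ω', F k l ω ω' ∂μ ∂μ = ∫⁻ w, G k w * G l w ∂(gam n) := by
    intro k l
    have step1 : ∀ ω, ∫⁻ ω', F k l ω ω' ∂μ = ∫⁻ w, g k ω w * G l w ∂(gam n) := by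
      intro ω
      simp only [hFg]
      rw [lintegral_lintegral_swap]
      · refine lintegral_congr fun w => ?_
        rw [lintegral_const_mul, hG]
        exact (hgm l).comp (measurable_id.prodMk measurable_const)
      · apply Measurable.aemeasurable
        have e1 : Measurable (fun q : Ω × (Fin n → ℝ) => g k ω q.2) :=
          (hgm k).comp (measurable_const.prodMk measurable_snd)
        exact e1.mul (hgm l)
    simp only [step1]
    rw [lintegral_lintegral_swap]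
    · refine lintegral_congr fun w => ?_
      rw [lintegral_mul_const, hG k]
      exact (hgm k).comp (measurable_id.prodMk measurable_const)
    · apply Measurable.aemeasurable
      exact (hgm k).mul ((hGm l).comp measurable_snd)
  have hIC : ∀ k l, ∫⁻ ω, ∫⁻ ω', F k l ω ω' ∂μ ∂μ ≤ C := by
    intro k l
    have hkk : ∀ k, ∫⁻ w, G k w * G k w ∂(gam n) ≤ C := by
      intro k
      rw [← hI k k]
      simp only [hF]
      exact h k
    have h2 : 2 * ∫⁻ w, G k w * G l w ∂(gam n) ≤ 2 * C := by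
      calc 2 * ∫⁻ w, G k w * G l w ∂(gam n) = ∫⁻ w, 2 * (G k w * G l w) ∂(gam n) :=
            (lintegral_const_mul' _ _ (by norm_num)).symm
        _ ≤ ∫⁻ w, (G k w * G k w + G l w * G l w) ∂(gam n) :=
            lintegral_mono fun w => c2_young _ _
        _ = (∫⁻ w, G k w * G k w ∂(gam n)) + ∫⁻ w, G l w * G l w ∂(gam n) :=
            lintegral_add_left ((hGm k).mul (hGm k)) _
        _ ≤ C + C := add_le_add (hkk k) (hkk l)
        _ = 2 * C := (two_mul C).symm
    rw [hI]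
    exact (ENNReal.mul_le_mul_iff_right (by norm_num) (by norm_num)).1 h2
  have hFp : ∀ k l ω ω', 0 ≤ ∏ i, (1 - η ω k i * η ω' l i) ^ (-(1 / 2) : ℝ) := by
    intro k l ω ω'
    refine Finset.prod_nonneg fun i _ => Real.rpow_nonneg ?_ _
    have h3 : |η ω k i * η ω' l i| ≤ 1 / 30 * (1 / 30) := by
      rw [abs_mul]
      exact mul_le_mul (hb ω k i) (hb ω' l i) (abs_nonneg _) (by norm_num)
    have := abs_le.1 h3
    linarith
  calc ∫⁻ ω, ∫⁻ ω', ENNReal.ofReal (∏ i, (1 - (∑ k, p k * η ω k i) * (∑ k, p k * η ω' k i)) ^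
      (-(1 / 2) : ℝ)) ∂μ ∂μ
      ≤ ∫⁻ ω, ∫⁻ ω', ∑ k, ∑ l, ENNReal.ofReal (p k * p l) * F k l ω ω' ∂μ ∂μ := by
        refine lintegral_mono fun ω => lintegral_mono fun ω' => ?_
        refine le_trans (ENNReal.ofReal_le_ofReal (hpt (η ω) (η ω') (hb ω) (hb ω'))) ?_
        rw [ENNReal.ofReal_sum_of_nonneg (fun k _ => Finset.sum_nonneg fun l _ =>
          mul_nonneg (mul_nonneg (hp k) (hp l)) (hFp k l ω ω'))]
        refine Finset.sum_le_sum fun k _ => ?_
        rw [ENNReal.ofReal_sum_of_nonneg (fun l _ =>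
          mul_nonneg (mul_nonneg (hp k) (hp l)) (hFp k l ω ω'))]
        refine Finset.sum_le_sum fun l _ => ?_
        rw [ENNReal.ofReal_mul (mul_nonneg (hp k) (hp l)), hF]
    _ = ∑ k, ∑ l, ENNReal.ofReal (p k * p l) * ∫⁻ ω, ∫⁻ ω', F k l ω ω' ∂μ ∂μ := by
        have hm1 : ∀ k l ω, Measurable (fun ω' => F k l ω ω') := fun k l ω =>
          (hFm k l).comp (measurable_const.prodMk measurable_id)
        have hm2 : ∀ k l, Measurable (fun ω => ∫⁻ ω', F k l ω ω' ∂μ) := fun k l =>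
          Measurable.lintegral_prod_right' (hFm k l)
        have e1 : ∀ ω, ∫⁻ ω', ∑ k, ∑ l, ENNReal.ofReal (p k * p l) * F k l ω ω' ∂μ =
            ∑ k, ∑ l, ENNReal.ofReal (p k * p l) * ∫⁻ ω', F k l ω ω' ∂μ := by
          intro ω
          rw [lintegral_finset_sum _ (fun k _ => Finset.measurable_sum _ fun l _ =>
            (hm1 k l ω).const_mul _)]
          refine Finset.sum_congr rfl fun k _ => ?_
          rw [lintegral_finset_sum _ (fun l _ => (hm1 k l ω).const_mul _)]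
          refine Finset.sum_congr rfl fun l _ => ?_
          rw [lintegral_const_mul _ (hm1 k l ω)]
        simp only [e1]
        rw [lintegral_finset_sum _ (fun k _ => Finset.measurable_sum _ fun l _ =>
          (hm2 k l).const_mul _)]
        refine Finset.sum_congr rfl fun k _ => ?_
        rw [lintegral_finset_sum _ (fun l _ => (hm2 k l).const_mul _)]
        refine Finset.sum_congr rfl fun l _ => ?_
        rw [lintegral_const_mul _ (hm2 k l)]
    _ ≤ ∑ k, ∑ l, ENNReal.ofReal (p k * p l) * C :=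
        Finset.sum_le_sum fun k _ => Finset.sum_le_sum fun l _ => by
          gcongr
          exact hIC k l
    _ = C := by
        simp only [← Finset.sum_mul]
        have e : ∑ k, ∑ l, ENNReal.ofReal (p k * p l) = 1 := by
          have e1 : ∀ k, ∑ l, ENNReal.ofReal (p k * p l) = ENNReal.ofReal (p k) := by
            intro k
            rw [← ENNReal.ofReal_sum_of_nonneg (fun l _ => mul_nonneg (hp k) (hp l)),
              ← Finset.mul_sum, hp1, mul_one]
          simp only [e1]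
          rw [← ENNReal.ofReal_sum_of_nonneg (fun l _ => hp l), hp1, ENNReal.ofReal_one]
        rw [e, one_mul]

end Pool.Agent.H494.Kac
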