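import Pool.Agent.H494.Kac.Defs2

open MeasureTheory Filter Topology
open scoped ENNReal

namespace Pool.Agent.H494.Kac
theorem conv_pt_pos {a b : ℝ} (ha : |a| ≤ 1 / 30) (hb : |b| ≤ 1 / 30) : 0 < 1 - a * b := by
  have h : |a * b| ≤ 1 / 30 * (1 / 30) := by
    rw [abs_mul]
    exact mul_le_mul ha hb (abs_nonneg _) (by norm_num)
  have := (abs_le.1 h).2
  linarith

theorem conv_pt_step (n m : ℕ) (p : Fin m → ℝ) (hp : ∀ k, 0 ≤ p k) (hp1 : ∑ k, p k = 1)
    (x : Fin m → Fin n → ℝ) (c : Fin n → ℝ) (hx : ∀ k i, |x k i| ≤ 1 / 30)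
    (hc : ∀ i, |c i| ≤ 1 / 30) :
    ∏ i, (1 - (∑ k, p k * x k i) * c i) ^ (-(1 / 2) : ℝ) ≤
      ∑ k, p k * ∏ i, (1 - x k i * c i) ^ (-(1 / 2) : ℝ) := by
  have hpos : ∀ k i, 0 < 1 - x k i * c i := fun k i => conv_pt_pos (hx k i) (hc i)
  have h1 : ∀ i, (1 - (∑ k, p k * x k i) * c i) ^ (-(1 / 2) : ℝ) ≤
      ∏ k, ((1 - x k i * c i) ^ (-(1 / 2) : ℝ)) ^ (p k) := by
    intro i
    have e1 : 1 - (∑ k, p k * x k i) * c i = ∑ k, p k * (1 - x k i * c i) := by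
      have : ∀ k, p k * (1 - x k i * c i) = p k - p k * x k i * c i := fun k => by ring
      rw [Finset.sum_congr rfl fun k _ => this k, Finset.sum_sub_distrib, hp1, Finset.sum_mul]
    have e2 := Real.geom_mean_le_arith_mean_weighted Finset.univ p (fun k => 1 - x k i * c i)
      (fun k _ => hp k) hp1 (fun k _ => (hpos k i).le)
    have e3 : 0 < ∏ k, (1 - x k i * c i) ^ p k :=
      Finset.prod_pos fun k _ => Real.rpow_pos_of_pos (hpos k i) _
    rw [e1]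
    refine (Real.rpow_le_rpow_of_nonpos e3 e2 (by norm_num)).trans (le_of_eq ?_)
    rw [← Real.finsetProd_rpow _ _ (fun k _ => Real.rpow_nonneg (hpos k i).le _)]
    refine Finset.prod_congr rfl fun k _ => ?_
    rw [← Real.rpow_mul (hpos k i).le, ← Real.rpow_mul (hpos k i).le, mul_comm (p k)]
  have h0 : ∀ i, 0 ≤ (1 - (∑ k, p k * x k i) * c i) ^ (-(1 / 2) : ℝ) := by
    intro i
    apply Real.rpow_nonneg
    have e1 : 1 - (∑ k, p k * x k i) * c i = ∑ k, p k * (1 - x k i * c i) := by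
      have : ∀ k, p k * (1 - x k i * c i) = p k - p k * x k i * c i := fun k => by ring
      rw [Finset.sum_congr rfl fun k _ => this k, Finset.sum_sub_distrib, hp1, Finset.sum_mul]
    rw [e1]
    exact Finset.sum_nonneg fun k _ => mul_nonneg (hp k) (hpos k i).le
  calc ∏ i, (1 - (∑ k, p k * x k i) * c i) ^ (-(1 / 2) : ℝ)
      ≤ ∏ i, ∏ k, ((1 - x k i * c i) ^ (-(1 / 2) : ℝ)) ^ (p k) :=
        Finset.prod_le_prod (fun i _ => h0 i) (fun i _ => h1 i)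
    _ = ∏ k, (∏ i, (1 - x k i * c i) ^ (-(1 / 2) : ℝ)) ^ (p k) := by
        rw [Finset.prod_comm]
        refine Finset.prod_congr rfl fun k _ => ?_
        rw [Real.finsetProd_rpow _ _ (fun i _ => Real.rpow_nonneg (hpos k i).le _)]
    _ ≤ ∑ k, p k * ∏ i, (1 - x k i * c i) ^ (-(1 / 2) : ℝ) :=
        Real.geom_mean_le_arith_mean_weighted Finset.univ p _ (fun k _ => hp k) hp1
          (fun k _ => Finset.prod_nonneg fun i _ => Real.rpow_nonneg (hpos k i).le _)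

theorem conv_pt (n m : ℕ) (p : Fin m → ℝ) (hp : ∀ k, 0 ≤ p k) (hp1 : ∑ k, p k = 1)
    (x y : Fin m → Fin n → ℝ) (hx : ∀ k i, |x k i| ≤ 1 / 30) (hy : ∀ k i, |y k i| ≤ 1 / 30) :
    ∏ i, (1 - (∑ k, p k * x k i) * (∑ k, p k * y k i)) ^ (-(1 / 2) : ℝ) ≤
      ∑ k, ∑ l, p k * p l * ∏ i, (1 - x k i * y l i) ^ (-(1 / 2) : ℝ) := by
  have hY : ∀ i, |∑ l, p l * y l i| ≤ 1 / 30 := by
    intro i
    calc |∑ l, p l * y l i| ≤ ∑ l, |p l * y l i| := Finset.abs_sum_le_sum_abs _ _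
      _ ≤ ∑ l, p l * (1 / 30) := by
        refine Finset.sum_le_sum fun l _ => ?_
        rw [abs_mul, abs_of_nonneg (hp l)]
        exact mul_le_mul_of_nonneg_left (hy l i) (hp l)
      _ = 1 / 30 := by rw [← Finset.sum_mul, hp1, one_mul]
  refine (conv_pt_step n m p hp hp1 x (fun i => ∑ l, p l * y l i) hx hY).trans ?_
  refine Finset.sum_le_sum fun k _ => ?_
  have h2 := conv_pt_step n m p hp hp1 y (x k) hy (hx k)
  have h3 : ∏ i, (1 - x k i * ∑ l, p l * y l i) ^ (-(1 / 2) : ℝ) =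
      ∏ i, (1 - (∑ l, p l * y l i) * x k i) ^ (-(1 / 2) : ℝ) :=
    Finset.prod_congr rfl fun i _ => by rw [mul_comm]
  rw [h3]
  refine (mul_le_mul_of_nonneg_left h2 (hp k)).trans (le_of_eq ?_)
  rw [Finset.mul_sum]
  refine Finset.sum_congr rfl fun l _ => ?_
  rw [← mul_assoc]
  congr 1
  exact Finset.prod_congr rfl fun i _ => by rw [mul_comm]

end Pool.Agent.H494.Kac
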