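import Pool.Agent.H494.Kac.Defs2

open MeasureTheory Filter Topology
open scoped ENNReal

namespace Pool.Agent.H494.Kac
/-- the Gaussian density -/
noncomputable def cvphi (n : ℕ) (w : Fin n → ℝ) : ℝ :=
  ∏ i, ProbabilityTheory.gaussianPDFReal 0 1 (w i)

theorem cvphi_meas (n : ℕ) : Measurable (cvphi n) := by
  unfold cvphi
  exact Finset.measurable_prod _ fun i _ =>
    (ProbabilityTheory.measurable_gaussianPDFReal 0 1).comp (measurable_pi_apply i)

theorem cvphi_pos (n : ℕ) (w : Fin n → ℝ) : 0 < cvphi n w :=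
  Finset.prod_pos fun _ _ => ProbabilityTheory.gaussianPDFReal_pos 0 1 _ one_ne_zero

theorem cvphi_eq (n : ℕ) (w : Fin n → ℝ) :
    cvphi n w = (√(2 * Real.pi * ((1 : NNReal) : ℝ)))⁻¹ ^ n * Real.exp (-(∑ i, w i ^ 2) / 2) := by
  unfold cvphi ProbabilityTheory.gaussianPDFReal
  rw [Finset.prod_mul_distrib, Finset.prod_const, Finset.card_univ, Fintype.card_fin,
    ← Real.exp_sum]
  congr 2
  rw [← Finset.sum_div, ← Finset.sum_neg_distrib]
  simp

theorem gam_eq (n : ℕ) :
    gam n = (volume : Measure (Fin n → ℝ)).withDensity (fun w => ENNReal.ofReal (cvphi n w)) := by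
  unfold gam
  apply Measure.pi_eq
  intro s hs
  rw [withDensity_apply _ (MeasurableSet.univ_pi hs)]
  have h1 : ∀ i, ProbabilityTheory.gaussianReal 0 1 (s i) =
      ENNReal.ofReal (∫ x, (s i).indicator (ProbabilityTheory.gaussianPDFReal 0 1) x) := by
    intro i
    rw [ProbabilityTheory.gaussianReal_apply_eq_integral 0 one_ne_zero, integral_indicator (hs i)]
  simp only [h1]
  have hnn : ∀ i x, 0 ≤ (s i).indicator (ProbabilityTheory.gaussianPDFReal 0 1) x := fun i x =>
    Set.indicator_nonneg (fun y _ => ProbabilityTheory.gaussianPDFReal_nonneg 0 1 y) x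
  rw [← ENNReal.ofReal_prod_of_nonneg (fun i _ => integral_nonneg (hnn i)),
    ← integral_fintype_prod_volume_eq_prod
      (fun i => (s i).indicator (ProbabilityTheory.gaussianPDFReal 0 1)),
    ofReal_integral_eq_lintegral_ofReal]
  · rw [← lintegral_indicator (MeasurableSet.univ_pi hs)]
    apply lintegral_congr
    intro w
    by_cases hw : w ∈ Set.univ.pi s
    · rw [Set.indicator_of_mem hw]
      congr 1
      unfold cvphi
      apply Finset.prod_congr rfl
      intro i _
      rw [Set.indicator_of_mem (hw i (Set.mem_univ i))]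
    · rw [Set.indicator_of_notMem hw]
      have h2 : ∃ i, w i ∉ s i := by
        by_contra hcon
        push Not at hcon
        exact hw fun i _ => hcon i
      obtain ⟨i, hi⟩ := h2
      rw [Finset.prod_eq_zero (Finset.mem_univ i) (Set.indicator_of_notMem hi _),
        ENNReal.ofReal_zero]
  · apply Integrable.fintype_prod
    intro i
    exact (ProbabilityTheory.integrable_gaussianPDFReal 0 1).indicator (hs i)
  · exact Filter.Eventually.of_forall fun w => Finset.prod_nonneg fun i _ => hnn i _

theorem cv_bound (n : ℕ) (T₁ : (Fin n → ℝ) → (Fin n → ℝ))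
    (T' : (Fin n → ℝ) → ((Fin n → ℝ) →L[ℝ] (Fin n → ℝ))) (s : Set (Fin n → ℝ))
    (hs : MeasurableSet s) (hs0 : gam n sᶜ = 0) (hT : ∀ w ∈ s, HasFDerivAt T₁ (T' w) w)
    (hinj : Set.InjOn T₁ s) (hTm : Measurable T₁)
    (f : (Fin n → ℝ) → ℝ) (hf : Measurable f) (hf0 : ∀ v, 0 ≤ f v) (hf1 : ∀ v, f v ≤ 1) :
    ∫ w, f (T₁ w) ∂(gam n) ≤ ∫ w, f w ∂(gam n) +
      ∫ w, max 0 (1 - Real.exp ((∑ i, w i ^ 2 - ∑ i, (T₁ w i) ^ 2) / 2) * |(T' w).det|) ∂(gam n) := by
  classical
  set g : (Fin n → ℝ) → ℝ := fun w =>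
    max 0 (1 - Real.exp ((∑ i, w i ^ 2 - ∑ i, (T₁ w i) ^ 2) / 2) * |(T' w).det|) with hg
  have hprob : IsProbabilityMeasure (gam n) := by
    unfold gam
    infer_instance
  have hg0 : ∀ w, 0 ≤ g w := fun w => le_max_left _ _
  have hg1 : ∀ w, g w ≤ 1 := fun w => by
    apply max_le zero_le_one
    have : 0 ≤ Real.exp ((∑ i, w i ^ 2 - ∑ i, (T₁ w i) ^ 2) / 2) * |(T' w).det| := by positivity
    linarith
  have hres : (gam n).restrict s = gam n := by
    apply Measure.restrict_eq_self_of_ae_mem
    rw [ae_iff]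
    exact hs0
  have hT' : ∀ w ∈ s, HasFDerivWithinAt T₁ (T' w) s w := fun w hw => (hT w hw).hasFDerivWithinAt
  have hφm : Measurable (fun w => ENNReal.ofReal (cvphi n w)) :=
    ENNReal.measurable_ofReal.comp (cvphi_meas n)
  have hac : gam n ≪ (volume : Measure (Fin n → ℝ)).restrict s := by
    rw [← hres]
    apply Measure.AbsolutelyContinuous.restrict
    rw [gam_eq]
    exact withDensity_absolutelyContinuous _ _
  have hdet : AEMeasurable (fun w => (T' w).det) ((volume : Measure (Fin n → ℝ)).restrict s) :=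
    ContinuousLinearMap.continuous_det.measurable.comp_aemeasurable
      (aemeasurable_fderivWithin volume hs hT')
  have hexpm : Measurable (fun w : Fin n → ℝ =>
      Real.exp ((∑ i, w i ^ 2 - ∑ i, (T₁ w i) ^ 2) / 2)) := by
    apply Real.measurable_exp.comp
    apply Measurable.div_const
    apply Measurable.sub
    · exact Finset.measurable_sum _ fun i _ => (measurable_pi_apply i).pow_const 2
    · exact Finset.measurable_sum _ fun i _ =>
        ((measurable_pi_apply i).comp hTm).pow_const 2
  have hgm : AEMeasurable g (gam n) := by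
    have hd : AEMeasurable (fun w => |(T' w).det|) (gam n) :=
      (continuous_abs.measurable.comp_aemeasurable hdet).mono_ac hac
    exact (aemeasurable_const (b := (0:ℝ))).max (aemeasurable_const.sub (hexpm.aemeasurable.mul hd))
  -- lintegral formula
  have hL : ∀ h : (Fin n → ℝ) → ENNReal, ∫⁻ w, h w ∂(gam n) =
      ∫⁻ w in s, ENNReal.ofReal (cvphi n w) * h w := by
    intro h
    rw [← hres, gam_eq, restrict_withDensity hs,
      lintegral_withDensity_eq_lintegral_mul_non_measurable _ hφm
        (Filter.Eventually.of_forall fun _ => ENNReal.ofReal_lt_top)]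
    rfl
  have hL' : ∀ h : (Fin n → ℝ) → ENNReal, ∫⁻ w, h w ∂(gam n) =
      ∫⁻ w, ENNReal.ofReal (cvphi n w) * h w := by
    intro h
    rw [gam_eq, lintegral_withDensity_eq_lintegral_mul_non_measurable _ hφm
        (Filter.Eventually.of_forall fun _ => ENNReal.ofReal_lt_top)]
    rfl
  have key : ∫⁻ w, ENNReal.ofReal (f (T₁ w)) ∂(gam n) ≤
      ∫⁻ w, ENNReal.ofReal (f w) ∂(gam n) + ∫⁻ w, ENNReal.ofReal (g w) ∂(gam n) := by
    have hGm : Measurable (fun v : Fin n → ℝ => ENNReal.ofReal (cvphi n v) * ENNReal.ofReal (f v)) :=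
      hφm.mul (ENNReal.measurable_ofReal.comp hf)
    calc ∫⁻ w, ENNReal.ofReal (f (T₁ w)) ∂(gam n)
        = ∫⁻ w in s, ENNReal.ofReal (cvphi n w) * ENNReal.ofReal (f (T₁ w)) := hL _
      _ ≤ ∫⁻ w in s, (ENNReal.ofReal |(T' w).det| *
            (ENNReal.ofReal (cvphi n (T₁ w)) * ENNReal.ofReal (f (T₁ w))) +
            ENNReal.ofReal (cvphi n w) * ENNReal.ofReal (g w)) := by
          apply lintegral_mono
          intro w
          have e1 : cvphi n (T₁ w) = cvphi n w *
              Real.exp ((∑ i, w i ^ 2 - ∑ i, (T₁ w i) ^ 2) / 2) := by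
            rw [cvphi_eq, cvphi_eq]
            generalize (√(2 * Real.pi * ((1 : NNReal) : ℝ)))⁻¹ ^ n = c
            rw [mul_assoc c, ← Real.exp_add]
            congr 2
            ring
          have hp := cvphi_pos n w
          simp only
          rw [← ENNReal.ofReal_mul hp.le, ← ENNReal.ofReal_mul (cvphi_pos n (T₁ w)).le,
            ← ENNReal.ofReal_mul (abs_nonneg _), ← ENNReal.ofReal_mul hp.le,
            ← ENNReal.ofReal_add (mul_nonneg (abs_nonneg _)
              (mul_nonneg (cvphi_pos n (T₁ w)).le (hf0 _))) (mul_nonneg hp.le (hg0 w))]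
          apply ENNReal.ofReal_le_ofReal
          rw [e1]
          set x : ℝ := Real.exp ((∑ i, w i ^ 2 - ∑ i, (T₁ w i) ^ 2) / 2) * |(T' w).det| with hx
          have hx0 : 0 ≤ x := by positivity
          have hgx : g w = max 0 (1 - x) := rfl
          have h2 : f (T₁ w) ≤ f (T₁ w) * x + max 0 (1 - x) := by
            have a1 := hf0 (T₁ w)
            have a2 := hf1 (T₁ w)
            rcases le_total x 1 with h | h
            · rw [max_eq_right (by linarith)]
              nlinarith
            · rw [max_eq_left (by linarith)]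
              nlinarith
          have h3 : |(T' w).det| * (cvphi n w *
              Real.exp ((∑ i, w i ^ 2 - ∑ i, (T₁ w i) ^ 2) / 2) * f (T₁ w)) +
              cvphi n w * g w = cvphi n w * (f (T₁ w) * x + max 0 (1 - x)) := by
            rw [hgx, hx]
            ring
          rw [h3]
          exact mul_le_mul_of_nonneg_left h2 hp.le
      _ = (∫⁻ w in s, ENNReal.ofReal |(T' w).det| *
            (ENNReal.ofReal (cvphi n (T₁ w)) * ENNReal.ofReal (f (T₁ w)))) +
          (∫⁻ w in s, ENNReal.ofReal (cvphi n w) * ENNReal.ofReal (g w)) := by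
          apply lintegral_add_left'
          exact (aemeasurable_ofReal_abs_det_fderivWithin volume hs hT').mul
            (hGm.comp hTm).aemeasurable
      _ ≤ (∫⁻ w, ENNReal.ofReal (f w) ∂(gam n)) + (∫⁻ w, ENNReal.ofReal (g w) ∂(gam n)) := by
          rw [hL (fun w => ENNReal.ofReal (g w)), hL' (fun w => ENNReal.ofReal (f w))]
          apply add_le_add _ le_rfl
          have h5 := lintegral_image_eq_lintegral_abs_det_fderiv_mul volume hs hT' hinj
            (fun v : Fin n → ℝ => ENNReal.ofReal (cvphi n v) * ENNReal.ofReal (f v))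
          rw [← h5]
          exact lintegral_mono' Measure.restrict_le_self le_rfl
  -- conclusion
  have hfin : ∀ h : (Fin n → ℝ) → ℝ, (∀ w, h w ≤ 1) →
      ∫⁻ w, ENNReal.ofReal (h w) ∂(gam n) ≠ ⊤ := by
    intro h hh
    apply ne_of_lt
    calc ∫⁻ w, ENNReal.ofReal (h w) ∂(gam n) ≤ ∫⁻ _, 1 ∂(gam n) := by
          apply lintegral_mono
          intro w
          exact ENNReal.ofReal_le_one.2 (hh w)
      _ = 1 := by rw [lintegral_one, measure_univ]
      _ < ⊤ := ENNReal.one_lt_top
  rw [integral_eq_lintegral_of_nonneg_ae (Filter.Eventually.of_forall fun w => hf0 _)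
      (hf.comp hTm).aestronglyMeasurable,
    integral_eq_lintegral_of_nonneg_ae (Filter.Eventually.of_forall fun w => hf0 _)
      hf.aestronglyMeasurable,
    integral_eq_lintegral_of_nonneg_ae (Filter.Eventually.of_forall fun w => hg0 _)
      hgm.aestronglyMeasurable,
    ← ENNReal.toReal_add (hfin f hf1) (hfin g hg1)]
  exact ENNReal.toReal_mono (ENNReal.add_ne_top.2 ⟨hfin f hf1, hfin g hg1⟩) key

end Pool.Agent.H494.Kac
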