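import Pool.Agent.H494.Kac.Defs2

open MeasureTheory Filter Topology
open scoped ENNReal

namespace Pool.Agent.H494.Kac
theorem det_JT (n : ℕ) (a : Fin n → Fin n → ℝ) (p w : Fin n → ℝ) (hw : ∀ i, w i ≠ 0) :
    (JT a p w).det = (∏ i, √(gf a p w i / bv a p i)) * (Jf a p w).det := by
  have h1 : JT a p w = Matrix.diagonal (fun i => √(gf a p w i / bv a p i) * w i) *
      Jf a p w * Matrix.diagonal (fun j => (w j)⁻¹) := by
    ext i j
    rw [Matrix.mul_diagonal, Matrix.diagonal_mul]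
    simp only [JT, Matrix.of_apply]
    ring
  rw [h1, Matrix.det_mul, Matrix.det_mul, Matrix.det_diagonal, Matrix.det_diagonal,
    Finset.prod_mul_distrib]
  have h2 : (∏ i, w i) * ∏ i, (w i)⁻¹ = 1 := by
    rw [← Finset.prod_mul_distrib]
    apply Finset.prod_eq_one
    intro i _
    exact mul_inv_cancel₀ (hw i)
  calc (∏ i, √(gf a p w i / bv a p i)) * (∏ i, w i) * (Jf a p w).det * ∏ i, (w i)⁻¹
      = (∏ i, √(gf a p w i / bv a p i)) * (Jf a p w).det * ((∏ i, w i) * ∏ i, (w i)⁻¹) := by ring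
    _ = _ := by rw [h2, mul_one]

end Pool.Agent.H494.Kac
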