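import Pool.Agent.H494.Kac.Defs2

open MeasureTheory Filter Topology
open scoped ENNReal

namespace Pool.Agent.H494.Kac
theorem det_bound_aux833 {n : ℕ} (p τ : Fin n → ℝ) (hp : ∀ k, 0 ≤ p k) (hp1 : ∑ k, p k = 1)
    (g : ℝ) (hg : ∑ k, p k * τ k = g) (hg2 : 1 / 2 ≤ g) :
    (∑ k, p k * τ k ^ 2) / g ≤ g + 2 * ∑ k, p k * (τ k - 1) ^ 2 := by
  obtain ⟨S, hS⟩ : ∃ S, S = ∑ k, p k * τ k ^ 2 := ⟨_, rfl⟩
  have h1 : ∑ k, p k * (τ k - 1) ^ 2 = S - 2 * g + 1 := by
    have h3 : ∑ k, p k * (τ k - 1) ^ 2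
        = ∑ k, p k * τ k ^ 2 - 2 * ∑ k, p k * τ k + ∑ k, p k := by
      rw [Finset.mul_sum, ← Finset.sum_sub_distrib, ← Finset.sum_add_distrib]
      exact Finset.sum_congr rfl (fun k _ => by ring)
    rw [h3, hg, hp1, hS]
  have h2 : ∑ k, p k * (τ k - g) ^ 2 = S - 2 * g * g + g ^ 2 * 1 := by
    have h3 : ∑ k, p k * (τ k - g) ^ 2
        = ∑ k, p k * τ k ^ 2 - 2 * g * ∑ k, p k * τ k + g ^ 2 * ∑ k, p k := by
      rw [Finset.mul_sum, Finset.mul_sum, ← Finset.sum_sub_distrib, ← Finset.sum_add_distrib]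
      exact Finset.sum_congr rfl (fun k _ => by ring)
    rw [h3, hg, hp1, hS]
  have h4 : 0 ≤ ∑ k, p k * (τ k - g) ^ 2 :=
    Finset.sum_nonneg (fun k _ => mul_nonneg (hp k) (sq_nonneg _))
  have h5 : 0 ≤ ∑ k, p k * (τ k - 1) ^ 2 :=
    Finset.sum_nonneg (fun k _ => mul_nonneg (hp k) (sq_nonneg _))
  rw [h2] at h4
  rw [h1] at h5 ⊢
  rw [← hS, div_le_iff₀ (by linarith)]
  have h6 : 0 ≤ (2 * g - 1) * (S - 2 * g + 1) := mul_nonneg (by linarith) h5
  have h7 := sq_nonneg (g - 1)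
  linarith only [h4, h6, h7]

theorem det_bound (n : ℕ) (hn : 0 < n) (a : Fin n → Fin n → ℝ) (p : Fin n → ℝ)
    (ha : ∀ k i, 0 ≤ a k i) (hs : ∀ k, ∑ i, a k i = n) (hp : ∀ k, 0 ≤ p k) (hp1 : ∑ k, p k = 1)
    (w : Fin n → ℝ) (hw : ∀ i, w i ≠ 0) (hg : ∀ i, 1 / 2 ≤ gf a p w i)
    (hdet : ∀ (K : Matrix (Fin n) (Fin n) ℝ) (μ q : Fin n → ℝ), (∀ i, 0 < μ i) →
      (∀ i j, 0 ≤ K i j) → (∀ i, ∑ j, K i j = 1) → (∀ i j, μ i * K i j = μ j * K j i) →
      (∀ x : Fin n → ℝ, 0 ≤ ∑ i, ∑ j, μ i * x i * K i j * x j) → ∑ i, q i = 1 →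
      2 - K.trace ≤ (1 - K + Matrix.of (fun _ j => q j)).det) :
    1 - 2 * ∑ i, w i ^ 2 / (∑ l, w l ^ 2) *
      ∑ k, p k * (a k i * (∑ l, w l ^ 2) / zs a w k - 1) ^ 2 ≤ (Jf a p w).det := by
  have hn' : (0 : ℝ) < n := by exact_mod_cast hn
  have hw2 : ∀ i, 0 < w i ^ 2 := fun i => by have := hw i; positivity
  obtain ⟨W, hWdef⟩ : ∃ W, W = ∑ l, w l ^ 2 := ⟨_, rfl⟩
  have hW : 0 < W := by
    rw [hWdef]
    exact Finset.sum_pos (fun i _ => hw2 i) ⟨⟨0, hn⟩, Finset.mem_univ _⟩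
  have hz : ∀ k, 0 < zs a w k := by
    intro k
    unfold zs
    have h1 : ∃ j, 0 < a k j := by
      by_contra hcon
      push Not at hcon
      have h2 := hs k
      have h3 : ∑ i, a k i ≤ 0 := Finset.sum_nonpos (fun i _ => hcon i)
      linarith
    obtain ⟨j, hj⟩ := h1
    exact Finset.sum_pos' (fun i _ => mul_nonneg (ha k i) (hw2 i).le)
      ⟨j, Finset.mem_univ _, mul_pos hj (hw2 j)⟩
  obtain ⟨s, hsdef⟩ : ∃ s : Fin n → ℝ, s = fun i => ∑ l, p l * a l i / zs a w l := ⟨_, rfl⟩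
  have hgs : ∀ i, 1 / 2 ≤ W * s i := by
    intro i
    have h := hg i
    unfold gf at h
    rw [hWdef, hsdef]
    exact h
  have hspos : ∀ i, 0 < s i := by
    intro i
    by_contra hcon
    push Not at hcon
    have h1 := hgs i
    have h2 : W * s i ≤ 0 := mul_nonpos_of_nonneg_of_nonpos hW.le hcon
    linarith
  have hKf : ∀ i j, Kf a p w i j
      = ∑ k, (p k * a k i / zs a w k) / s i * (a k j * w j ^ 2 / zs a w k) := by
    intro i j; rw [hsdef]; rfl
  have hmuK : ∀ i j, w i ^ 2 * s i * Kf a p w i j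
      = ∑ k, p k / zs a w k ^ 2 * (a k i * w i ^ 2) * (a k j * w j ^ 2) := by
    intro i j
    rw [hKf, Finset.mul_sum]
    apply Finset.sum_congr rfl
    intro k _
    have h1 := (hz k).ne'
    have h2 := (hspos i).ne'
    field_simp
  have hrow : ∀ k, ∑ j, a k j * w j ^ 2 / zs a w k = 1 := by
    intro k
    rw [← Finset.sum_div]
    exact div_self (hz k).ne'
  have hmain := hdet (Kf a p w) (fun i => w i ^ 2 * s i) (fun j => w j ^ 2 / W)
    (fun i => mul_pos (hw2 i) (hspos i)) ?_ ?_ ?_ ?_ ?_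
  · have hJ : (1 - Kf a p w + Matrix.of (fun _ j => w j ^ 2 / W)) = Jf a p w := by
      rw [hWdef]; rfl
    rw [hJ] at hmain
    refine le_trans ?_ hmain
    have htr : (Kf a p w).trace ≤ 1 + 2 * ∑ i, w i ^ 2 / W *
        ∑ k, p k * (a k i * W / zs a w k - 1) ^ 2 := by
      have hii : ∀ i, Kf a p w i i ≤ w i ^ 2 * s i + 2 * (w i ^ 2 / W *
          ∑ k, p k * (a k i * W / zs a w k - 1) ^ 2) := by
        intro i
        have h1 : Kf a p w i i
            = w i ^ 2 / W * ((∑ k, p k * (a k i * W / zs a w k) ^ 2) / (W * s i)) := by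
          rw [hKf, Finset.sum_div, Finset.mul_sum]
          apply Finset.sum_congr rfl
          intro k _
          have h1 := (hz k).ne'
          have h2 := (hspos i).ne'
          field_simp
        have h2 : ∑ k, p k * (a k i * W / zs a w k) = W * s i := by
          rw [hsdef, Finset.mul_sum]
          apply Finset.sum_congr rfl
          intro k _
          ring
        have h3 := det_bound_aux833 p (fun k => a k i * W / zs a w k) hp hp1 (W * s i) h2 (hgs i)
        rw [h1]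
        have h4 : w i ^ 2 / W * ((∑ k, p k * (a k i * W / zs a w k) ^ 2) / (W * s i))
            ≤ w i ^ 2 / W * (W * s i + 2 * ∑ k, p k * (a k i * W / zs a w k - 1) ^ 2) :=
          mul_le_mul_of_nonneg_left h3 (div_nonneg (hw2 i).le hW.le)
        refine h4.trans (le_of_eq ?_)
        field_simp
      have hsum1 : ∑ i, w i ^ 2 * s i = 1 := by
        rw [hsdef]
        have h1 : ∀ i, w i ^ 2 * (∑ l, p l * a l i / zs a w l)
            = ∑ l, p l * (a l i * w i ^ 2 / zs a w l) := by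
          intro i
          rw [Finset.mul_sum]
          exact Finset.sum_congr rfl (fun l _ => by ring)
        rw [Finset.sum_congr rfl (fun i _ => h1 i), Finset.sum_comm, ← hp1]
        apply Finset.sum_congr rfl
        intro l _
        rw [← Finset.mul_sum, hrow, mul_one]
      calc (Kf a p w).trace = ∑ i, Kf a p w i i := rfl
        _ ≤ ∑ i, (w i ^ 2 * s i + 2 * (w i ^ 2 / W *
          ∑ k, p k * (a k i * W / zs a w k - 1) ^ 2)) := Finset.sum_le_sum (fun i _ => hii i)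
        _ = 1 + 2 * ∑ i, w i ^ 2 / W * ∑ k, p k * (a k i * W / zs a w k - 1) ^ 2 := by
          rw [Finset.sum_add_distrib, hsum1, ← Finset.mul_sum]
    rw [← hWdef]
    linarith
  · intro i j
    rw [hKf]
    apply Finset.sum_nonneg
    intro k _
    have h1 := hz k
    have h2 := hspos i
    have h3 := hp k
    have h4 := ha k i
    have h5 := ha k j
    positivity
  · intro i
    rw [Finset.sum_congr rfl (fun j _ => hKf i j), Finset.sum_comm]
    have h1 : ∀ k, ∑ j, (p k * a k i / zs a w k) / s i * (a k j * w j ^ 2 / zs a w k)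
        = (p k * a k i / zs a w k) / s i := by
      intro k
      rw [← Finset.mul_sum, hrow, mul_one]
    rw [Finset.sum_congr rfl (fun k _ => h1 k), ← Finset.sum_div]
    have h2 : ∑ k, p k * a k i / zs a w k = s i := by rw [hsdef]
    rw [h2]
    exact div_self (hspos i).ne'
  · intro i j
    show w i ^ 2 * s i * Kf a p w i j = w j ^ 2 * s j * Kf a p w j i
    rw [hmuK, hmuK]
    exact Finset.sum_congr rfl (fun k _ => by ring)
  · intro x
    have h1 : ∀ i j, w i ^ 2 * s i * x i * Kf a p w i j * x j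
        = ∑ k, p k / zs a w k ^ 2 * ((x i * (a k i * w i ^ 2)) * (x j * (a k j * w j ^ 2))) := by
      intro i j
      have h2 : w i ^ 2 * s i * x i * Kf a p w i j * x j
          = (w i ^ 2 * s i * Kf a p w i j) * (x i * x j) := by ring
      rw [h2, hmuK, Finset.sum_mul]
      exact Finset.sum_congr rfl (fun k _ => by ring)
    have h3 : ∑ i, ∑ j, w i ^ 2 * s i * x i * Kf a p w i j * x j
        = ∑ k, p k / zs a w k ^ 2 * (∑ i, x i * (a k i * w i ^ 2)) ^ 2 := by
      rw [Finset.sum_congr rfl (fun i _ => Finset.sum_congr rfl (fun j _ => h1 i j))]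
      have h4 : ∀ k, p k / zs a w k ^ 2 * (∑ i, x i * (a k i * w i ^ 2)) ^ 2
          = ∑ i, ∑ j, p k / zs a w k ^ 2 *
            ((x i * (a k i * w i ^ 2)) * (x j * (a k j * w j ^ 2))) := by
        intro k
        rw [pow_two (∑ i, x i * (a k i * w i ^ 2)), Finset.sum_mul_sum, Finset.mul_sum]
        exact Finset.sum_congr rfl (fun i _ => by rw [Finset.mul_sum])
      rw [Finset.sum_congr rfl (fun k _ => h4 k)]
      conv_rhs => rw [Finset.sum_comm]
      apply Finset.sum_congr rfl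
      intro i _
      rw [Finset.sum_comm]
    show 0 ≤ ∑ i, ∑ j, w i ^ 2 * s i * x i * Kf a p w i j * x j
    rw [h3]
    apply Finset.sum_nonneg
    intro k _
    have h5 := hz k
    have h6 := hp k
    positivity
  · show ∑ i, w i ^ 2 / W = 1
    rw [← Finset.sum_div, ← hWdef]
    exact div_self hW.ne'

end Pool.Agent.H494.Kac
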