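import Pool.Agent.H494.Kac.Defs2

open MeasureTheory Filter Topology
open scoped ENNReal

namespace Pool.Agent.H494.Kac
/-- symmetric matrix with quadratic form between `0` and `|x|^2` -/
theorem det_mark_sym (n : ℕ) (H : Matrix (Fin n) (Fin n) ℝ) (hs : H.IsHermitian)
    (h0 : ∀ x : Fin n → ℝ, 0 ≤ x ⬝ᵥ (H.mulVec x))
    (h1 : ∀ x : Fin n → ℝ, x ⬝ᵥ (H.mulVec x) ≤ x ⬝ᵥ x) :
    1 - H.trace ≤ (1 - H).det := by
  have hB : (1 - H).IsHermitian := by
    unfold Matrix.IsHermitian
    rw [Matrix.conjTranspose_sub, Matrix.conjTranspose_one, hs.eq]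
  have hval : ∀ k, 0 ≤ hB.eigenvalues k ∧ hB.eigenvalues k ≤ 1 := by
    intro k
    rw [hB.eigenvalues_eq k]
    set v : Fin n → ℝ := ⇑(hB.eigenvectorBasis k) with hv
    have hnorm : v ⬝ᵥ v = 1 := by
      have h2 : inner ℝ (hB.eigenvectorBasis k) (hB.eigenvectorBasis k) = (1 : ℝ) := by
        rw [real_inner_self_eq_norm_sq, hB.eigenvectorBasis.norm_eq_one]; norm_num
      rw [PiLp.inner_apply] at h2
      simp only [RCLike.inner_apply, conj_trivial] at h2
      rw [hv, dotProduct]
      exact h2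
    have e1 : RCLike.re (star v ⬝ᵥ ((1 - H).mulVec v)) = v ⬝ᵥ v - v ⬝ᵥ (H.mulVec v) := by
      rw [Matrix.sub_mulVec, Matrix.one_mulVec, dotProduct_sub]
      simp
    rw [e1]
    have := h0 v
    have := h1 v
    constructor <;> linarith
  have hprod : ∀ s : Finset (Fin n), 0 ≤ ∏ k ∈ s, hB.eigenvalues k ∧
      ∏ k ∈ s, hB.eigenvalues k ≤ 1 ∧
      1 - ∑ k ∈ s, (1 - hB.eigenvalues k) ≤ ∏ k ∈ s, hB.eigenvalues k := by
    intro s
    induction s using Finset.induction_on with
    | empty => simp
    | insert a s ha ih =>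
      rw [Finset.prod_insert ha, Finset.sum_insert ha]
      obtain ⟨i1, i2, i3⟩ := ih
      obtain ⟨j1, j2⟩ := hval a
      refine ⟨mul_nonneg j1 i1, mul_le_one₀ j2 i1 i2, ?_⟩
      nlinarith [mul_nonneg (sub_nonneg.2 j2) (sub_nonneg.2 i2)]
  have hd := hB.det_eq_prod_eigenvalues
  have ht := hB.trace_eq_sum_eigenvalues
  obtain ⟨-, -, h3⟩ := hprod Finset.univ
  simp only [RCLike.ofReal_real_eq_id, id_eq] at hd ht
  rw [hd]
  refine le_trans ?_ h3
  rw [Finset.sum_sub_distrib, ← ht, Matrix.trace_sub, Matrix.trace_one]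
  simp

theorem det_mark (n : ℕ) (K : Matrix (Fin n) (Fin n) ℝ) (μ q : Fin n → ℝ) (hn : 0 < n)
    (hμ : ∀ i, 0 < μ i) (hK0 : ∀ i j, 0 ≤ K i j) (hK1 : ∀ i, ∑ j, K i j = 1)
    (hrev : ∀ i j, μ i * K i j = μ j * K j i)
    (hpsd : ∀ x : Fin n → ℝ, 0 ≤ ∑ i, ∑ j, μ i * x i * K i j * x j) (hq : ∑ i, q i = 1) :
    2 - K.trace ≤ (1 - K + Matrix.of (fun _ j => q j)).det := by
  set m : ℝ := ∑ i, μ i with hm
  haveI : Nonempty (Fin n) := ⟨⟨0, hn⟩⟩
  have hmpos : 0 < m := Finset.sum_pos (fun i _ => hμ i) Finset.univ_nonempty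
  set π : Fin n → ℝ := fun i => μ i / m with hπ
  have hπ1 : ∑ i, π i = 1 := by
    rw [hπ, ← Finset.sum_div, ← hm, div_self hmpos.ne']
  -- change of `q` to `π`
  have hfac : 1 - K + Matrix.of (fun (_ : Fin n) j => q j) =
      (1 - K + Matrix.of (fun (_ : Fin n) j => π j)) *
        (1 + Matrix.replicateCol Unit (fun _ : Fin n => (1 : ℝ)) *
          Matrix.replicateRow Unit (fun j => q j - π j)) := by
    ext i j
    rw [Matrix.mul_add, Matrix.mul_one, ← Matrix.mul_assoc]
    simp only [Matrix.add_apply, Matrix.sub_apply, Matrix.of_apply, Matrix.mul_apply,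
      Matrix.replicateCol_apply, Matrix.replicateRow_apply, Finset.univ_unique,
      Finset.sum_singleton, mul_one]
    have : ∑ x, ((1 : Matrix (Fin n) (Fin n) ℝ) i x - K i x + π x) = 1 := by
      rw [Finset.sum_add_distrib, Finset.sum_sub_distrib, hK1 i, hπ1]
      simp [Matrix.one_apply]
    rw [this]; ring
  have hdet1 : (1 + Matrix.replicateCol Unit (fun _ : Fin n => (1 : ℝ)) *
          Matrix.replicateRow Unit (fun j => q j - π j)).det = 1 := by
    rw [Matrix.det_one_add_replicateCol_mul_replicateRow]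
    simp only [dotProduct, mul_one]
    rw [Finset.sum_sub_distrib, hq, hπ1]; norm_num
  rw [hfac, Matrix.det_mul, hdet1, mul_one]
  -- symmetrise
  set s : Fin n → ℝ := fun i => √(μ i) with hs
  have hspos : ∀ i, 0 < s i := fun i => Real.sqrt_pos.2 (hμ i)
  have hs2 : ∀ i, s i * s i = μ i := fun i => Real.mul_self_sqrt (hμ i).le
  set H : Matrix (Fin n) (Fin n) ℝ := Matrix.of (fun i j => s i * (K i j - π j) / s j) with hH
  have hconj : (1 - K + Matrix.of (fun (_ : Fin n) j => π j)).det = (1 - H).det := by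
    have : (1 - H) = Matrix.diagonal s * (1 - K + Matrix.of (fun (_ : Fin n) j => π j)) *
        Matrix.diagonal (fun i => (s i)⁻¹) := by
      ext i j
      rw [Matrix.mul_diagonal, Matrix.diagonal_mul]
      simp only [hH, Matrix.add_apply, Matrix.sub_apply, Matrix.of_apply]
      by_cases hij : i = j
      · subst hij
        have := (hspos i).ne'
        simp only [Matrix.one_apply_eq]
        field_simp
        ring
      · simp only [Matrix.one_apply_ne hij]
        have := (hspos j).ne'
        field_simp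
        ring
    rw [this, Matrix.det_mul, Matrix.det_mul, Matrix.det_diagonal, Matrix.det_diagonal,
      mul_comm (∏ i, s i), mul_assoc, ← Finset.prod_mul_distrib]
    have : ∏ i, s i * (s i)⁻¹ = 1 := Finset.prod_eq_one (fun i _ => mul_inv_cancel₀ (hspos i).ne')
    rw [this, mul_one]
  rw [hconj]
  have htr : H.trace = K.trace - 1 := by
    have h1 : H.trace = ∑ i, (K i i - π i) := by
      simp only [Matrix.trace, Matrix.diag_apply, hH, Matrix.of_apply]
      refine Finset.sum_congr rfl (fun i _ => ?_)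
      have := (hspos i).ne'
      field_simp
    rw [h1, Finset.sum_sub_distrib, hπ1]
    rfl
  have hsym : H.IsHermitian := by
    ext i j
    rw [Matrix.conjTranspose_apply]
    simp only [hH, Matrix.of_apply, star_trivial, hπ]
    have h1 := (hspos i).ne'
    have h2 := (hspos j).ne'
    have h3 := hrev i j
    rw [div_eq_div_iff h1 h2]
    have e1 : s j * (K j i - μ i / m) * s j = μ j * K j i - μ i * μ j / m := by
      calc s j * (K j i - μ i / m) * s j = (s j * s j) * (K j i - μ i / m) := by ring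
        _ = _ := by rw [hs2]; ring
    have e2 : s i * (K i j - μ j / m) * s i = μ i * K i j - μ i * μ j / m := by
      calc s i * (K i j - μ j / m) * s i = (s i * s i) * (K i j - μ j / m) := by ring
        _ = _ := by rw [hs2]; ring
    rw [e1, e2, h3]
  -- the quadratic form
  have hquad : ∀ x : Fin n → ℝ, x ⬝ᵥ (H.mulVec x) =
      ∑ i, ∑ j, μ i * (x i / s i) * K i j * (x j / s j) - (∑ i, μ i * (x i / s i)) ^ 2 / m := by
    intro x
    have e : ∀ i j, x i * (H i j * x j) = μ i * (x i / s i) * K i j * (x j / s j) -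
        (μ i * (x i / s i)) * (μ j * (x j / s j)) / m := by
      intro i j
      simp only [hH, Matrix.of_apply, hπ]
      have h1 := (hspos i).ne'
      have h2 := (hspos j).ne'
      have h3 := hs2 i
      rw [← h3]
      field_simp
    calc x ⬝ᵥ (H.mulVec x) = ∑ i, ∑ j, x i * (H i j * x j) := by
          simp only [dotProduct, Matrix.mulVec, Finset.mul_sum]
      _ = ∑ i, ∑ j, (μ i * (x i / s i) * K i j * (x j / s j) -
        (μ i * (x i / s i)) * (μ j * (x j / s j)) / m) := by simp only [e]
      _ = _ := by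
          simp only [Finset.sum_sub_distrib]
          congr 1
          rw [sq, Finset.sum_mul_sum, Finset.sum_div]
          refine Finset.sum_congr rfl (fun i _ => ?_)
          rw [Finset.sum_div]
  have hcol : ∀ j, ∑ i, μ i * K i j = μ j := by
    intro j
    calc ∑ i, μ i * K i j = ∑ i, μ j * K j i := Finset.sum_congr rfl (fun i _ => hrev i j)
      _ = μ j := by rw [← Finset.mul_sum, hK1, mul_one]
  have key := det_mark_sym n H hsym ?_ ?_
  · linarith
  · intro x
    rw [hquad x]
    set u : Fin n → ℝ := fun i => x i / s i with hu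
    set a : ℝ := (∑ i, μ i * u i) / m with ha
    have h1 := hpsd (fun i => u i - a)
    have e1 : ∑ i, ∑ j, μ i * (u i - a) * K i j * (u j - a) =
        ∑ i, ∑ j, μ i * u i * K i j * u j - a * (∑ i, μ i * u i) - a * (∑ i, μ i * u i) +
          a ^ 2 * m := by
      have e2 : ∀ i, ∑ j, μ i * (u i - a) * K i j * (u j - a) =
          ∑ j, μ i * u i * K i j * u j - a * (μ i * u i) - a * ∑ j, μ i * K i j * u j +
            a ^ 2 * μ i := by
        intro i
        have hk := hK1 i
        have : ∀ j, μ i * (u i - a) * K i j * (u j - a) = μ i * u i * K i j * u j -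
            a * (μ i * u i) * K i j - a * (μ i * K i j * u j) + a ^ 2 * μ i * K i j := by
          intro j; ring
        simp only [this, Finset.sum_add_distrib, Finset.sum_sub_distrib, ← Finset.mul_sum, hk]
        ring
      simp only [e2, Finset.sum_add_distrib, Finset.sum_sub_distrib, ← Finset.mul_sum]
      have e3 : ∑ i, ∑ j, μ i * K i j * u j = ∑ i, μ i * u i := by
        rw [Finset.sum_comm]
        refine Finset.sum_congr rfl (fun j _ => ?_)
        rw [← Finset.sum_mul, hcol j]
      rw [e3]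
    rw [e1] at h1
    have e4 : (∑ i, μ i * u i) = a * m := by rw [ha]; field_simp
    rw [e4] at h1 ⊢
    have e5 : (a * m) ^ 2 / m = a ^ 2 * m := by field_simp
    rw [e5]
    nlinarith
  · intro x
    rw [hquad x]
    set u : Fin n → ℝ := fun i => x i / s i with hu
    have hx : x ⬝ᵥ x = ∑ i, μ i * u i ^ 2 := by
      rw [dotProduct]
      refine Finset.sum_congr rfl (fun i _ => ?_)
      have h1 := (hspos i).ne'
      simp only [hu]
      rw [← hs2 i]
      field_simp
    have h2 : 0 ≤ ∑ i, ∑ j, μ i * K i j * (u i - u j) ^ 2 :=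
      Finset.sum_nonneg (fun i _ => Finset.sum_nonneg (fun j _ =>
        mul_nonneg (mul_nonneg (hμ i).le (hK0 i j)) (sq_nonneg _)))
    have e1 : ∑ i, ∑ j, μ i * K i j * (u i - u j) ^ 2 =
        2 * ∑ i, μ i * u i ^ 2 - 2 * ∑ i, ∑ j, μ i * u i * K i j * u j := by
      have e2 : ∀ i, ∑ j, μ i * K i j * (u i - u j) ^ 2 =
          μ i * u i ^ 2 - 2 * ∑ j, μ i * u i * K i j * u j + ∑ j, μ i * K i j * u j ^ 2 := by
        intro i
        have hk := hK1 i
        have : ∀ j, μ i * K i j * (u i - u j) ^ 2 = μ i * u i ^ 2 * K i j -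
            2 * (μ i * u i * K i j * u j) + μ i * K i j * u j ^ 2 := by
          intro j; ring
        simp only [this, Finset.sum_add_distrib, Finset.sum_sub_distrib, ← Finset.mul_sum, hk]
        ring
      simp only [e2, Finset.sum_add_distrib, Finset.sum_sub_distrib, ← Finset.mul_sum]
      have e3 : ∑ i, ∑ j, μ i * K i j * u j ^ 2 = ∑ i, μ i * u i ^ 2 := by
        rw [Finset.sum_comm]
        refine Finset.sum_congr rfl (fun j _ => ?_)
        rw [← Finset.sum_mul, hcol j]
      rw [e3]; ring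
    rw [hx]
    have h3 : 0 ≤ (∑ i, μ i * u i) ^ 2 / m := div_nonneg (sq_nonneg _) hmpos.le
    linarith

end Pool.Agent.H494.Kac
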