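import Pool.Agent.H494.Kac.Defs2

open MeasureTheory Filter Topology
open scoped ENNReal

namespace Pool.Agent.H494.Kac

lemma meas_Dv {n : ℕ} (k : Fin n) :
    Measurable (fun q : (Fin n → Fin n → ℝ) × (Fin n → ℝ) => Dv k q.1 q.2) := by
  refine measurable_pi_iff.2 fun i => ?_
  unfold Dv cs
  fun_prop

lemma meas_mixR {n : ℕ} (i j : Fin n) (M : Fin n → Fin n → ℝ) :
    Measurable (fun b : ℝ => mixR i j b M) := by
  refine measurable_pi_iff.2 fun k => measurable_pi_iff.2 fun l => ?_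
  unfold mixR
  by_cases h : k = i ∨ k = j
  · simp only [h, if_true]; fun_prop
  · simp only [h, if_false]; fun_prop

lemma meas_T {n : ℕ} (i j : Fin n) :
    Measurable (fun q : (Fin n → ℝ) × ℝ => T i j q.2 q.1) := by
  refine measurable_pi_iff.2 fun k => ?_
  unfold T
  by_cases h1 : k = i
  · simp only [h1, if_true]; fun_prop
  · by_cases h2 : k = j
    · subst h2
      simp only [h1, if_true, if_false]
      fun_prop
    · simp only [h1, h2, if_false]; fun_prop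

instance : SFinite unif := by unfold unif; infer_instance
instance (n : ℕ) : IsProbabilityMeasure (gam n) := by unfold gam; infer_instance

lemma ae_ne {n : ℕ} (i j : Fin n) : ∀ᵐ w ∂(gam n), w i ^ 2 + w j ^ 2 ≠ 0 := by
  have hna : ∀ᵐ w ∂(gam n), w i ≠ 0 := by
    have h0 : (gam n).map (fun w : Fin n → ℝ => w i) = ProbabilityTheory.gaussianReal 0 1 := by
      unfold gam
      exact (measurePreserving_eval (fun _ => ProbabilityTheory.gaussianReal 0 1) i).map_eq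
    have h1 : ∀ᵐ x ∂((gam n).map (fun w : Fin n → ℝ => w i)), x ≠ 0 := by
      rw [h0]
      have h2 : (ProbabilityTheory.gaussianReal 0 1) {(0 : ℝ)} = 0 :=
        (ProbabilityTheory.nullSingletonClass_gaussianReal (μ := 0) (v := 1)
          (by norm_num)).measure_singleton 0
      rw [ae_iff]
      simpa using h2
    exact ae_of_ae_map (measurable_pi_apply i).aemeasurable h1
  filter_upwards [hna] with w hw
  have : 0 < w i ^ 2 := by positivity
  have : 0 ≤ w j ^ 2 := by positivity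
  linarith

theorem dv_main (n : ℕ) (k : Fin n) (hm : Measurable (avgStep n))
    (h : ∀ (M : Fin n → Fin n → ℝ) (f : (Fin n → Fin n → ℝ) → ℝ≥0∞), Measurable f →
      ∫⁻ M', f M' ∂(avgStep n M) = ((prs n).card : ℝ≥0∞)⁻¹ *
        ∑ p ∈ prs n, ∫⁻ φ, f (mixR p.1 p.2 ((Real.cos φ) ^ 2) M) ∂unif)
    (hpol : ∀ i j : Fin n, i ≠ j → ∀ G : ℝ → (Fin n → ℝ) → ℝ≥0∞,
      Measurable (fun q : ℝ × (Fin n → ℝ) => G q.1 q.2) →
      ∫⁻ w, ∫⁻ θ, G (w i ^ 2 / (w i ^ 2 + w j ^ 2)) (pol i j θ w) ∂unif ∂(gam n) =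
      ∫⁻ φ, ∫⁻ w, G ((Real.cos φ) ^ 2) w ∂(gam n) ∂unif)
    (hgood : ∀ t, ∀ᵐ M ∂(avgLaw n t), ∀ i k, 0 ≤ M i k)
    (halg : ∀ (M : Fin n → Fin n → ℝ), (∀ i k, 0 ≤ M i k) → ∀ i j : Fin n, i ≠ j →
      ∀ (w : Fin n → ℝ), w i ^ 2 + w j ^ 2 ≠ 0 → ∀ θ : ℝ,
      Dv k (mixR i j (w i ^ 2 / (w i ^ 2 + w j ^ 2)) M) (pol i j θ w) =
        T i j ((Real.cos θ) ^ 2) (Dv k M w))
    (t : ℕ) (g : (Fin n → ℝ) → ℝ≥0∞) (hg : Measurable g) :
    ∫⁻ M, ∫⁻ w, g (Dv k M w) ∂(gam n) ∂(avgLaw n (t + 1)) =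
      ∫⁻ M, ∫⁻ w, Qop n g (Dv k M w) ∂(gam n) ∂(avgLaw n t) := by
  classical
  have hF : Measurable (fun M' : Fin n → Fin n → ℝ => ∫⁻ w, g (Dv k M' w) ∂(gam n)) :=
    Measurable.lintegral_prod_right' (hg.comp (meas_Dv k))
  show ∫⁻ M, ∫⁻ w, g (Dv k M w) ∂(gam n) ∂((avgLaw n t).bind (avgStep n)) = _
  rw [Measure.lintegral_bind hm.aemeasurable hF.aemeasurable]
  refine lintegral_congr_ae ?_
  filter_upwards [hgood t] with M hM
  rw [h M _ hF]
  have hw : Measurable (fun w : Fin n → ℝ => Dv k M w) :=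
    (meas_Dv k).comp (measurable_const.prodMk measurable_id)
  have hr : ∀ i j : Fin n, Measurable (fun w : Fin n → ℝ =>
      ∫⁻ θ, g (T i j ((Real.cos θ) ^ 2) (Dv k M w)) ∂unif) := fun i j =>
    Measurable.lintegral_prod_right' (hg.comp ((meas_T i j).comp
      ((hw.comp measurable_fst).prodMk
        ((Real.continuous_cos.measurable.comp measurable_snd).pow_const 2))))
  have hp : ∀ p ∈ prs n, ∫⁻ φ, ∫⁻ w, g (Dv k (mixR p.1 p.2 ((Real.cos φ) ^ 2) M) w) ∂(gam n) ∂unif =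
      ∫⁻ w, ∫⁻ θ, g (T p.1 p.2 ((Real.cos θ) ^ 2) (Dv k M w)) ∂unif ∂(gam n) := by
    intro p hp
    have hne : p.1 ≠ p.2 := ne_of_lt (Finset.mem_filter.1 hp).2
    have e := hpol p.1 p.2 hne (fun b w => g (Dv k (mixR p.1 p.2 b M) w))
      (hg.comp ((meas_Dv k).comp (((meas_mixR p.1 p.2 M).comp measurable_fst).prodMk
        measurable_snd)))
    rw [← e]
    refine lintegral_congr_ae ?_
    filter_upwards [ae_ne p.1 p.2] with w hw
    refine lintegral_congr fun θ => ?_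
    rw [halg M hM p.1 p.2 hne w hw θ]
  rw [Finset.sum_congr rfl hp]
  unfold Qop
  rw [lintegral_const_mul _ (Finset.measurable_sum _ fun p _ => hr p.1 p.2),
    lintegral_finsetSum _ fun p _ => hr p.1 p.2]

end Pool.Agent.H494.Kac
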