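import Pool.Agent.H494.Kac.Defs2

open MeasureTheory Filter Topology
open scoped ENNReal

namespace Pool.Agent.H494.Kac
theorem p147_conv (hcv : ConvexOn ℝ (Set.Ioi 0) mom) {x y z : ℝ} (hx : 0 < x) (hxy : x < y)
    (hyz : y < z) : (z - x) * mom y ≤ (z - y) * mom x + (y - x) * mom z := by
  have hzx : 0 < z - x := by linarith
  have h := hcv.2 (show x ∈ Set.Ioi (0 : ℝ) from hx)
    (show z ∈ Set.Ioi (0 : ℝ) from (show (0 : ℝ) < z by linarith))
    (show 0 ≤ (z - y) / (z - x) by apply div_nonneg <;> linarith)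
    (show 0 ≤ (y - x) / (z - x) by apply div_nonneg <;> linarith)
    (by field_simp; ring)
  have e : ((z - y) / (z - x)) • x + ((y - x) / (z - x)) • z = y := by
    simp only [smul_eq_mul]
    field_simp
    ring
  rw [e] at h
  simp only [smul_eq_mul] at h
  have h' := mul_le_mul_of_nonneg_left h hzx.le
  have e2 : (z - x) * ((z - y) / (z - x) * mom x + (y - x) / (z - x) * mom z) =
      (z - y) * mom x + (y - x) * mom z := by
    field_simp
  rw [e2] at h'
  exact h'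

theorem exists_q (hcv : ConvexOn ℝ (Set.Ioi 0) mom) (h1 : 0.35558 ≤ mom (9 / 4))
    (h2 : mom (5 / 2) = 16 / (15 * Real.pi)) (h3 : mom 3 = 5 / 16)
    (v : ℝ) (hv : v < cstar) : ∃ q : ℝ, 9 / 4 ≤ q ∧ q ≤ 3 ∧ v < (1 - 2 * mom q) / q := by
  have : Nonempty {p : ℝ // 0 < p} := ⟨⟨1, one_pos⟩⟩
  obtain ⟨⟨p, hp⟩, hvp⟩ := exists_lt_of_lt_ciSup hv
  simp only at hvp
  have hb : mom (5 / 2) ≤ 0.339531 := by
    rw [h2]
    have hpi := Real.pi_gt_d6
    rw [div_le_iff₀ (by positivity)]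
    linarith
  by_cases hc1 : p < 9 / 4
  · refine ⟨9 / 4, le_rfl, by norm_num, lt_of_lt_of_le hvp ?_⟩
    have hc := p147_conv hcv hp hc1 (show (9 / 4 : ℝ) < 5 / 2 by norm_num)
    rw [div_le_div_iff₀ hp (by norm_num)]
    nlinarith
  · by_cases hc2 : p ≤ 3
    · exact ⟨p, not_lt.1 hc1, hc2, hvp⟩
    · push Not at hc2
      refine ⟨3, by norm_num, le_rfl, lt_of_lt_of_le hvp ?_⟩
      have hc := p147_conv hcv (show (0 : ℝ) < 5 / 2 by norm_num) (show (5 / 2 : ℝ) < 3 by norm_num)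
        hc2
      rw [h3] at hc ⊢
      rw [div_le_div_iff₀ hp (by norm_num)]
      nlinarith

end Pool.Agent.H494.Kac
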