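import Pool.Agent.H494.Kac.Defs2

open MeasureTheory Filter Topology
open scoped ENNReal

namespace Pool.Agent.H494.Kac

theorem fa_one (n : ℕ) (hn : 2 ≤ n) (t : ℕ) (ht : 3 * (n * Real.log n) ≤ t) :
    n * (1 - 2 / (n : ℝ)) ^ t ≤ n * Real.exp (-6 * Real.log n) := by
  have hn' : (2 : ℝ) ≤ n := by exact_mod_cast hn
  have hn0 : (0 : ℝ) < n := by linarith
  apply mul_le_mul_of_nonneg_left _ hn0.le
  have h0 : 0 ≤ 1 - 2 / (n : ℝ) := by
    rw [sub_nonneg, div_le_one hn0]; exact hn'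
  have h1 : 1 - 2 / (n : ℝ) ≤ Real.exp (-(2 / (n : ℝ))) := by
    have := Real.add_one_le_exp (-(2 / (n : ℝ)))
    linarith
  calc (1 - 2 / (n : ℝ)) ^ t ≤ (Real.exp (-(2 / (n : ℝ)))) ^ t := pow_le_pow_left₀ h0 h1 t
    _ = Real.exp (t * (-(2 / (n : ℝ)))) := by rw [← Real.exp_nat_mul]
    _ ≤ Real.exp (-6 * Real.log n) := by
      apply Real.exp_le_exp.mpr
      have : 6 * Real.log n ≤ t * (2 / (n : ℝ)) := by
        rw [mul_div_assoc', le_div_iff₀ hn0]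
        nlinarith
      linarith

theorem fa_lim1 : Tendsto (fun n : ℕ => (n : ℝ) * Real.exp (-6 * Real.log n)) atTop (𝓝 0) := by
  have h : Tendsto (fun n : ℕ => Real.exp (-(5 * Real.log n))) atTop (𝓝 0) := by
    apply Real.tendsto_exp_neg_atTop_nhds_zero.comp
    apply Tendsto.const_mul_atTop (by norm_num)
    exact Real.tendsto_log_atTop.comp tendsto_natCast_atTop_atTop
  refine h.congr' ?_
  filter_upwards [eventually_ge_atTop 1] with n hn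
  have hn0 : (0 : ℝ) < n := by exact_mod_cast hn
  conv_rhs => rw [← Real.exp_log hn0]
  rw [Real.log_exp, ← Real.exp_add]
  congr 1; ring

theorem fa_lim2 (c : ℝ) (hc : 0 < c) : Tendsto (fun n : ℕ => (n : ℝ) ^ (-c)) atTop (𝓝 0) :=
  (tendsto_rpow_neg_atTop hc).comp tendsto_natCast_atTop_atTop

theorem fa_lim3 : Tendsto (fun n : ℕ => ((n - 1 : ℕ) + 1 : ℝ) ^ (4 / 5 : ℝ) / (n - 1 : ℕ)) atTop (𝓝 0) := by
  have h : Tendsto (fun n : ℕ => 2 * (n : ℝ) ^ (-(1 / 5) : ℝ)) atTop (𝓝 0) := by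
    have := (fa_lim2 (1 / 5) (by norm_num)).const_mul 2
    simpa using this
  refine squeeze_zero' (Eventually.of_forall fun n => by positivity) ?_ h
  filter_upwards [eventually_ge_atTop 2] with n hn
  have hc : ((n - 1 : ℕ) : ℝ) = n - 1 := by
    rw [Nat.cast_sub (by omega)]; simp
  have hn' : (2 : ℝ) ≤ n := by exact_mod_cast hn
  rw [hc, sub_add_cancel]
  have hn0 : (0 : ℝ) < n := by linarith
  rw [div_le_iff₀ (by linarith)]
  have e : (n : ℝ) ^ (4 / 5 : ℝ) = (n : ℝ) ^ (-(1 / 5) : ℝ) * n := by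
    rw [← Real.rpow_add_one hn0.ne']
    norm_num
  rw [e]
  have hp : 0 < (n : ℝ) ^ (-(1 / 5) : ℝ) := Real.rpow_pos_of_pos hn0 _
  nlinarith

theorem final_asym (ε : ℝ) (hε : 0 < ε) :
    ∃ θ : ℝ, 0 < θ ∧ θ ≤ 1 ∧ ∀ᶠ n : ℕ in atTop, 2 ≤ n ∧ ∀ t : ℕ, 3 * (n * Real.log n) ≤ t →
      n * (1 - 2 / (n : ℝ)) ^ t + (1400 * (n : ℝ) ^ (-(2 / 5) : ℝ) + 65 * θ ^ 3) +
      8 * (θ + (30 * θ ^ 3 + (n : ℝ) ^ (-(1 / 50) : ℝ)) / θ) +
      √((1 + (2 * θ) ^ 2) * Real.exp (1361 * ((n - 1 : ℕ) + 1 : ℝ) ^ (4 / 5 : ℝ) / (n - 1 : ℕ)) - 1) ≤ ε := by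
  set θ : ℝ := min 1 (ε / 400) with hθ
  have h0 : 0 < θ := lt_min one_pos (by positivity)
  have h1 : θ ≤ 1 := min_le_left _ _
  have h2 : θ ≤ ε / 400 := min_le_right _ _
  refine ⟨θ, h0, h1, ?_⟩
  have hL : Tendsto (fun n : ℕ => (n : ℝ) * Real.exp (-6 * Real.log n) +
      (1400 * (n : ℝ) ^ (-(2 / 5) : ℝ) + 65 * θ ^ 3) +
      8 * (θ + (30 * θ ^ 3 + (n : ℝ) ^ (-(1 / 50) : ℝ)) / θ) +
      √((1 + (2 * θ) ^ 2) * Real.exp (1361 * ((n - 1 : ℕ) + 1 : ℝ) ^ (4 / 5 : ℝ) / (n - 1 : ℕ)) - 1))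
      atTop (𝓝 (0 + (1400 * 0 + 65 * θ ^ 3) + 8 * (θ + (30 * θ ^ 3 + 0) / θ) +
        √((1 + (2 * θ) ^ 2) * Real.exp 0 - 1))) := by
    refine ((fa_lim1.add (((fa_lim2 (2 / 5) (by norm_num)).const_mul 1400).add_const _)).add
      (((((fa_lim2 (1 / 50) (by norm_num)).const_add _).div_const θ).const_add θ).const_mul 8)).add ?_
    apply Tendsto.sqrt
    apply Tendsto.sub_const
    apply Tendsto.const_mul
    apply (Real.continuous_exp.tendsto 0).comp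
    have := fa_lim3.const_mul 1361
    simp only [mul_zero] at this
    refine this.congr (fun n => ?_)
    ring
  have hlt : (0 + (1400 * 0 + 65 * θ ^ 3) + 8 * (θ + (30 * θ ^ 3 + 0) / θ) +
        √((1 + (2 * θ) ^ 2) * Real.exp 0 - 1)) < ε := by
    have e1 : √((1 + (2 * θ) ^ 2) * Real.exp 0 - 1) = 2 * θ := by
      rw [Real.exp_zero, mul_one, add_sub_cancel_left]
      exact Real.sqrt_sq (by linarith)
    have e2 : (30 * θ ^ 3 + 0) / θ = 30 * θ ^ 2 := by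
      field_simp
      ring
    rw [e1, e2]
    have h3 : θ ^ 2 ≤ θ := by nlinarith
    have h4 : θ ^ 3 ≤ θ := by
      have : θ ^ 3 = θ * θ ^ 2 := by ring
      nlinarith
    nlinarith
  filter_upwards [hL.eventually (gt_mem_nhds hlt), eventually_ge_atTop 2] with n hn hn2
  refine ⟨hn2, fun t ht => ?_⟩
  have := fa_one n hn2 t ht
  linarith

end Pool.Agent.H494.Kac
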