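import Pool.Agent.H494.Kac.Defs2

open MeasureTheory Filter Topology
open scoped ENNReal

namespace Pool.Agent.H494.Kac
theorem flip_aux_rot {n : ℕ} (i j k : Fin n) (hi : i ≠ k) (hj : j ≠ k) (θ : ℝ) (x : E n) :
    rot i j θ (flp k x) = flp k (rot i j θ x) := by
  ext l
  simp only [rot, flp, PiLp.toLp_apply, if_neg hi, if_neg hj]
  by_cases h1 : l = i
  · subst h1
    simp [hi]
  · by_cases h2 : l = j
    · subst h2
      simp [h1, hj]
    · simp [h1, h2]

theorem flip_aux_pol {n : ℕ} (i j k : Fin n) (h : k = i ∨ k = j) (θ : ℝ) (x : E n) :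
    pol i j θ (flp k x).ofLp = pol i j θ x.ofLp := by
  have hsq : ∀ m, ((flp k x).ofLp m) ^ 2 = (x.ofLp m) ^ 2 := by
    intro m
    simp only [flp]
    split_ifs <;> ring
  funext l
  simp only [pol, hsq]
  by_cases h1 : l = i
  · rw [if_pos h1, if_pos h1]
  · by_cases h2 : l = j
    · rw [if_neg h1, if_neg h1, if_pos h2, if_pos h2]
    · rw [if_neg h1, if_neg h2, if_neg h1, if_neg h2]
      have h3 : l ≠ k := by
        rintro rfl
        rcases h with h | h
        · exact h1 h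
        · exact h2 h
      simp [flp, h3]

theorem flip_aux_count (n : ℕ) (k : Fin n) :
    n - 1 ≤ ((prs n).filter (fun p => k = p.1 ∨ k = p.2)).card := by
  have h1 : (Finset.univ.erase k).card = n - 1 := by
    rw [Finset.card_erase_of_mem (Finset.mem_univ _), Finset.card_univ, Fintype.card_fin]
  rw [← h1]
  refine Finset.card_le_card_of_injOn (fun l => if l < k then (l, k) else (k, l)) ?_ ?_
  · intro l hl
    have hl1 : l ≠ k := by
      have := Finset.mem_coe.1 hl
      exact (Finset.mem_erase.1 this).1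
    rw [Finset.mem_coe, Finset.mem_filter]
    dsimp only
    by_cases h : l < k
    · rw [if_pos h]
      refine ⟨?_, Or.inr rfl⟩
      rw [prs, Finset.mem_filter]
      exact ⟨Finset.mem_univ _, h⟩
    · rw [if_neg h]
      refine ⟨?_, Or.inl rfl⟩
      rw [prs, Finset.mem_filter]
      exact ⟨Finset.mem_univ _, lt_of_le_of_ne (not_lt.1 h) (Ne.symm hl1)⟩
  · intro l hl l' hl' he
    have hl1 : l ≠ k := by
      have := Finset.mem_coe.1 hl
      exact (Finset.mem_erase.1 this).1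
    have hl2 : l' ≠ k := by
      have := Finset.mem_coe.1 hl'
      exact (Finset.mem_erase.1 this).1
    dsimp only at he
    by_cases h : l < k
    · by_cases h' : l' < k
      · rw [if_pos h, if_pos h'] at he
        exact (Prod.mk.inj he).1
      · rw [if_pos h, if_neg h'] at he
        exact absurd (Prod.mk.inj he).1 hl1
    · by_cases h' : l' < k
      · rw [if_neg h, if_pos h'] at he
        exact absurd (Prod.mk.inj he).1.symm hl2
      · rw [if_neg h, if_neg h'] at he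
        exact (Prod.mk.inj he).2

theorem flip_aux_num (n : ℕ) (hn : 2 ≤ n) (k : Fin n)
    (hcard : ((prs n).card : ℝ) = n * (n - 1) / 2) (t : ℕ) :
    ((prs n).card : ℝ≥0∞)⁻¹ * ∑ p ∈ prs n,
      (if k = p.1 ∨ k = p.2 then 0 else ENNReal.ofReal ((1 - 2 / n) ^ t)) ≤
      ENNReal.ofReal ((1 - 2 / n) ^ (t + 1)) := by
  have hn' : (2 : ℝ) ≤ n := by exact_mod_cast hn
  have hN : (0 : ℝ) < (prs n).card := by
    rw [hcard]
    have : (0 : ℝ) < n * (n - 1) := mul_pos (by linarith) (by linarith)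
    linarith
  have hr : (0 : ℝ) ≤ 1 - 2 / n := by
    have : (2 : ℝ) / n ≤ 1 := by
      rw [div_le_one (by linarith)]
      exact hn'
    linarith
  rw [Finset.sum_ite, Finset.sum_const_zero, zero_add, Finset.sum_const, nsmul_eq_mul]
  set M := ((prs n).filter (fun p => ¬ (k = p.1 ∨ k = p.2))).card with hM
  have h1 := flip_aux_count n k
  have h2 : ((prs n).filter (fun p => k = p.1 ∨ k = p.2)).card + M = (prs n).card := by
    rw [hM]
    exact Finset.card_filter_add_card_filter_not _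
  have h3 : (M : ℝ) ≤ (prs n).card - (n - 1) := by
    have h4 : n + M ≤ (prs n).card + 1 := by omega
    have h5 : (n : ℝ) + M ≤ (prs n).card + 1 := by exact_mod_cast h4
    linarith
  have e1 : ((prs n).card : ℝ≥0∞)⁻¹ = ENNReal.ofReal (((prs n).card : ℝ)⁻¹) := by
    rw [ENNReal.ofReal_inv_of_pos hN, ENNReal.ofReal_natCast]
  have e2 : (M : ℝ≥0∞) = ENNReal.ofReal (M : ℝ) := by rw [ENNReal.ofReal_natCast]
  rw [e1, e2, ← ENNReal.ofReal_mul (by positivity), ← ENNReal.ofReal_mul (by positivity)]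
  apply ENNReal.ofReal_le_ofReal
  have h6 : ((prs n).card : ℝ)⁻¹ * M ≤ 1 - 2 / n := by
    rw [inv_mul_le_iff₀ hN]
    refine h3.trans (le_of_eq ?_)
    rw [hcard]
    have : (n : ℝ) ≠ 0 := by linarith
    field_simp
  calc ((prs n).card : ℝ)⁻¹ * ((M : ℝ) * (1 - 2 / n) ^ t)
      = (((prs n).card : ℝ)⁻¹ * M) * (1 - 2 / n) ^ t := by ring
    _ ≤ (1 - 2 / n) * (1 - 2 / n) ^ t := mul_le_mul_of_nonneg_right h6 (pow_nonneg hr t)
    _ = (1 - 2 / n) ^ (t + 1) := by ring

theorem flip_bound (n : ℕ) (hn : 2 ≤ n) (k : Fin n) (hms : Measurable (stepLaw n))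
    (hlaw : ∀ t, Measurable (fun x : E n => law n x t))
    (hsucc : ∀ (x : E n) (t : ℕ) (f : E n → ℝ≥0∞), Measurable f →
      ∫⁻ v, f v ∂(law n x (t + 1)) = ∫⁻ y, ∫⁻ v, f v ∂(law n y t) ∂(stepLaw n x))
    (hstep : ∀ (v : E n) (f : E n → ℝ≥0∞), Measurable f → ∫⁻ w, f w ∂(stepLaw n v) =
      ((prs n).card : ℝ≥0∞)⁻¹ * ∑ p ∈ prs n, ∫⁻ θ, f (rot p.1 p.2 θ v) ∂unif)
    (hrot : ∀ i j : Fin n, i ≠ j → ∀ (v : Fin n → ℝ) (f : E n → ℝ≥0∞), Measurable f →
      ∫⁻ θ, f (rot i j θ (WithLp.toLp 2 v)) ∂unif =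
      ∫⁻ θ, f (WithLp.toLp 2 (pol i j θ v)) ∂unif)
    (hcard : ((prs n).card : ℝ) = n * (n - 1) / 2)
    (hu : IsProbabilityMeasure unif)
    (t : ℕ) (x : E n) (f : E n → ℝ≥0∞) (hf : Measurable f) (hf1 : ∀ v, f v ≤ 1)
    (hprob : ∀ t (y : E n), IsProbabilityMeasure (law n y t)) :
    ∫⁻ v, f v ∂(law n x t) ≤ ∫⁻ v, f v ∂(law n (flp k x) t) +
      ENNReal.ofReal ((1 - 2 / n) ^ t) := by
  induction t generalizing x with
  | zero =>
    simp only [law, pow_zero, ENNReal.ofReal_one]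
    rw [lintegral_dirac' _ hf]
    exact (hf1 x).trans le_add_self
  | succ t ih =>
    have hF : Measurable (fun y : E n => ∫⁻ v, f v ∂(law n y t)) :=
      (Measure.measurable_lintegral hf).comp (hlaw t)
    rw [hsucc x t f hf, hsucc (flp k x) t f hf, hstep x _ hF, hstep (flp k x) _ hF]
    set F := fun y : E n => ∫⁻ v, f v ∂(law n y t) with hFdef
    have key : ∀ p ∈ prs n, ∫⁻ θ, F (rot p.1 p.2 θ x) ∂unif ≤
        ∫⁻ θ, F (rot p.1 p.2 θ (flp k x)) ∂unif +
          (if k = p.1 ∨ k = p.2 then 0 else ENNReal.ofReal ((1 - 2 / n) ^ t)) := by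
      intro p hp
      have hp12 : p.1 ≠ p.2 := ne_of_lt (Finset.mem_filter.1 hp).2
      split_ifs with h
      · rw [add_zero]
        have e1 := hrot p.1 p.2 hp12 x.ofLp F hF
        have e2 := hrot p.1 p.2 hp12 (flp k x).ofLp F hF
        rw [WithLp.toLp_ofLp] at e1 e2
        rw [e1, e2]
        simp only [flip_aux_pol _ _ _ h, le_refl]
      · push Not at h
        calc ∫⁻ θ, F (rot p.1 p.2 θ x) ∂unif
            ≤ ∫⁻ θ, (F (rot p.1 p.2 θ (flp k x)) + ENNReal.ofReal ((1 - 2 / n) ^ t)) ∂unif := by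
              refine lintegral_mono (fun θ => ?_)
              rw [flip_aux_rot _ _ _ (Ne.symm h.1) (Ne.symm h.2)]
              exact ih _
          _ = _ := by
              rw [lintegral_add_right _ measurable_const, lintegral_const, measure_univ, mul_one]
    calc ((prs n).card : ℝ≥0∞)⁻¹ * ∑ p ∈ prs n, ∫⁻ θ, F (rot p.1 p.2 θ x) ∂unif
        ≤ ((prs n).card : ℝ≥0∞)⁻¹ * ∑ p ∈ prs n, (∫⁻ θ, F (rot p.1 p.2 θ (flp k x)) ∂unif +
          (if k = p.1 ∨ k = p.2 then 0 else ENNReal.ofReal ((1 - 2 / n) ^ t))) := by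
          exact mul_le_mul_right (Finset.sum_le_sum key) _
      _ ≤ _ := by
          rw [Finset.sum_add_distrib, mul_add]
          exact add_le_add le_rfl (flip_aux_num n hn k hcard t)

end Pool.Agent.H494.Kac
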