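import Pool.Agent.H494.Kac.Defs2

open MeasureTheory Filter Topology
open scoped ENNReal

namespace Pool.Agent.H494.Kac
instance gp_sfin : SFinite unif := by
  unfold unif
  infer_instance

theorem gp_pol_upd {n : ℕ} (i j : Fin n) (hij : i ≠ j) (w : Fin n → ℝ) (x y θ : ℝ) :
    pol i j θ (Function.update (Function.update w i x) j y) =
      Function.update (Function.update w i (√(x ^ 2 + y ^ 2) * Real.cos θ)) j
        (√(x ^ 2 + y ^ 2) * Real.sin θ) := by
  funext k
  unfold pol
  simp only [Function.update_apply]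
  by_cases h1 : k = i
  · subst h1
    simp [hij]
  · by_cases h2 : k = j
    · subst h2
      simp [h1, hij]
    · simp [h1, h2]

theorem gp_meas_pol {n : ℕ} (i j : Fin n) :
    Measurable (fun q : (Fin n → ℝ) × ℝ => pol i j q.2 q.1) := by
  apply measurable_pi_lambda
  intro k
  unfold pol
  by_cases h1 : k = i
  · simp only [h1, if_true]
    fun_prop
  · by_cases h2 : k = j
    · have h3 : j ≠ i := fun h => h1 (h2.trans h)
      simp only [h2, h3, if_true, if_false]
      fun_prop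
    · simp only [h1, h2, if_false]
      fun_prop

theorem gp_meas_upd {n : ℕ} (i j : Fin n) (w : Fin n → ℝ) :
    Measurable (fun q : ℝ × ℝ => Function.update (Function.update w i q.1) j q.2) := by
  apply measurable_pi_lambda
  intro k
  simp only [Function.update_apply]
  by_cases h2 : k = j
  · simp only [h2, if_true]; fun_prop
  · by_cases h1 : k = i
    · simp only [h2, h1, if_true, if_false]
      by_cases h3 : i = j
      · exact absurd (h1.trans h3) h2
      · simp only [h3, if_false]; fun_prop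
    · simp only [h1, h2, if_false]; fun_prop

theorem gp_marg {n : ℕ} (i j : Fin n) (hij : i ≠ j) (f : (Fin n → ℝ) → ℝ≥0∞) (hf : Measurable f)
    (w : Fin n → ℝ) :
    lmarginal (fun _ => ProbabilityTheory.gaussianReal 0 1) {i, j} f w =
      ∫⁻ x, ∫⁻ y, f (Function.update (Function.update w i x) j y)
        ∂(ProbabilityTheory.gaussianReal 0 1) ∂(ProbabilityTheory.gaussianReal 0 1) := by
  have hni : i ∉ ({j} : Finset (Fin n)) := by simpa using hij
  rw [show ({i, j} : Finset (Fin n)) = insert i {j} from rfl, lmarginal_insert f hf hni w]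
  simp only [lmarginal_singleton]

theorem gauss_polar (n : ℕ) (i j : Fin n) (hij : i ≠ j)
    (h2 : ∀ H : ℝ → ℝ → ℝ → ℝ≥0∞, Measurable (fun q : ℝ × ℝ × ℝ => H q.1 q.2.1 q.2.2) →
      ∫⁻ x, ∫⁻ y, ∫⁻ θ, H (x ^ 2 / (x ^ 2 + y ^ 2)) (√(x ^ 2 + y ^ 2) * Real.cos θ)
        (√(x ^ 2 + y ^ 2) * Real.sin θ) ∂unif ∂(ProbabilityTheory.gaussianReal 0 1)
        ∂(ProbabilityTheory.gaussianReal 0 1) =
      ∫⁻ φ, ∫⁻ x, ∫⁻ y, H ((Real.cos φ) ^ 2) x y ∂(ProbabilityTheory.gaussianReal 0 1)
        ∂(ProbabilityTheory.gaussianReal 0 1) ∂unif)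
    (G : ℝ → (Fin n → ℝ) → ℝ≥0∞) (hG : Measurable (fun q : ℝ × (Fin n → ℝ) => G q.1 q.2)) :
    ∫⁻ w, ∫⁻ θ, G (w i ^ 2 / (w i ^ 2 + w j ^ 2)) (pol i j θ w) ∂unif ∂(gam n) =
      ∫⁻ φ, ∫⁻ w, G ((Real.cos φ) ^ 2) w ∂(gam n) ∂unif := by
  have hF1 : Measurable (fun w : Fin n → ℝ =>
      ∫⁻ θ, G (w i ^ 2 / (w i ^ 2 + w j ^ 2)) (pol i j θ w) ∂unif) := by
    apply Measurable.lintegral_prod_right'
      (f := fun q : (Fin n → ℝ) × ℝ => G (q.1 i ^ 2 / (q.1 i ^ 2 + q.1 j ^ 2)) (pol i j q.2 q.1))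
    exact hG.comp (Measurable.prodMk (by fun_prop) (gp_meas_pol i j))
  have hG2 : Measurable (fun q : (Fin n → ℝ) × ℝ => G ((Real.cos q.2) ^ 2) q.1) :=
    hG.comp (Measurable.prodMk (by fun_prop) measurable_fst)
  have hF2 : Measurable (fun w : Fin n → ℝ => ∫⁻ φ, G ((Real.cos φ) ^ 2) w ∂unif) :=
    Measurable.lintegral_prod_right'
      (f := fun q : (Fin n → ℝ) × ℝ => G ((Real.cos q.2) ^ 2) q.1) hG2
  have hswap : ∫⁻ φ, ∫⁻ w, G ((Real.cos φ) ^ 2) w ∂(gam n) ∂unif
      = ∫⁻ w, ∫⁻ φ, G ((Real.cos φ) ^ 2) w ∂unif ∂(gam n) := by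
    have : SFinite (gam n) := by unfold gam; infer_instance
    apply lintegral_lintegral_swap
    apply Measurable.aemeasurable
    exact hG.comp (Measurable.prodMk (by fun_prop) measurable_snd)
  rw [hswap]
  unfold gam
  refine lintegral_eq_of_lmarginal_eq {i, j} hF1 hF2 ?_
  funext w
  rw [gp_marg i j hij _ hF1, gp_marg i j hij _ hF2]
  have hH := h2 (fun b x y => G b (Function.update (Function.update w i x) j y))
    (hG.comp (Measurable.prodMk measurable_fst ((gp_meas_upd i j w).comp measurable_snd)))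
  have hl : ∀ x y : ℝ, (Function.update (Function.update w i x) j y) i = x := by
    intro x y; simp [hij]
  have hl' : ∀ x y : ℝ, (Function.update (Function.update w i x) j y) j = y := by
    intro x y; simp
  simp only [hl, hl', gp_pol_upd i j hij]

  rw [hH]
  have hH3 : Measurable (fun q : ℝ × ℝ × ℝ =>
      G ((Real.cos q.1) ^ 2) (Function.update (Function.update w i q.2.1) j q.2.2)) :=
    hG.comp (Measurable.prodMk (by fun_prop) ((gp_meas_upd i j w).comp measurable_snd))
  have s1 : ∀ x : ℝ, ∫⁻ y, ∫⁻ φ, G ((Real.cos φ) ^ 2) (Function.update (Function.update w i x) j y)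
      ∂unif ∂(ProbabilityTheory.gaussianReal 0 1) =
      ∫⁻ φ, ∫⁻ y, G ((Real.cos φ) ^ 2) (Function.update (Function.update w i x) j y)
        ∂(ProbabilityTheory.gaussianReal 0 1) ∂unif := by
    intro x
    apply lintegral_lintegral_swap
    apply Measurable.aemeasurable
    exact hH3.comp (f := fun q : ℝ × ℝ => ((q.2, x, q.1) : ℝ × ℝ × ℝ)) (by fun_prop)
  simp only [s1]
  apply lintegral_lintegral_swap
  apply Measurable.aemeasurable
  apply Measurable.lintegral_prod_right'
    (f := fun q : (ℝ × ℝ) × ℝ =>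
      G ((Real.cos q.1.1) ^ 2) (Function.update (Function.update w i q.1.2) j q.2))
  exact hH3.comp (f := fun q : (ℝ × ℝ) × ℝ => ((q.1.1, q.1.2, q.2) : ℝ × ℝ × ℝ)) (by fun_prop)

end Pool.Agent.H494.Kac
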