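import Pool.Agent.H494.Kac.Defs2

open MeasureTheory Filter Topology
open scoped ENNReal

namespace Pool.Agent.H494.Kac

theorem gp_unif (G : ℝ → ℝ≥0∞) (hG : ∀ θ, G (θ + 2 * Real.pi) = G θ) :
    ∫⁻ a, G a ∂unif = (ENNReal.ofReal (2 * Real.pi))⁻¹ * ∫⁻ a in Set.Ioo (-Real.pi) Real.pi, G a := by
  unfold unif
  rw [lintegral_smul_measure, smul_eq_mul]
  congr 1
  have hpi : 0 < 2 * Real.pi := by positivity
  have hper : Function.Periodic G (2 * Real.pi) := hG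
  have e1 : ∫⁻ a in Set.Ico 0 (2 * Real.pi), G a = ∫⁻ a in Set.Ioc 0 (0 + 2 * Real.pi), G a := by
    rw [zero_add]
    exact setLIntegral_congr Ico_ae_eq_Ioc
  have e2 : ∫⁻ a in Set.Ioo (-Real.pi) Real.pi, G a =
      ∫⁻ a in Set.Ioc (-Real.pi) (-Real.pi + 2 * Real.pi), G a := by
    rw [show -Real.pi + 2 * Real.pi = Real.pi by ring]
    exact setLIntegral_congr Ioo_ae_eq_Ioc
  rw [e1, e2]
  haveI : VAddInvariantMeasure (AddSubgroup.zmultiples (2 * Real.pi)) ℝ volume :=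
    ⟨fun c s _ => measure_preimage_add _ _ _⟩
  exact (isAddFundamentalDomain_Ioc hpi 0 volume).setLIntegral_eq
    (isAddFundamentalDomain_Ioc hpi (-Real.pi) volume) G (fun g x => by
      obtain ⟨g, k, rfl⟩ := g
      have := hper.zsmul k x
      simpa [AddSubgroup.vadd_def, add_comm] using this)

theorem gp_polar (F : ℝ × ℝ → ℝ≥0∞) (hF : Measurable F) :
    ∫⁻ x, ∫⁻ y, F (x, y) ∂(ProbabilityTheory.gaussianReal 0 1)
        ∂(ProbabilityTheory.gaussianReal 0 1) =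
      ∫⁻ r in Set.Ioi (0 : ℝ), ENNReal.ofReal (r * Real.exp (-r ^ 2 / 2)) *
        ∫⁻ a, F (r * Real.cos a, r * Real.sin a) ∂unif := by
  have hg : ProbabilityTheory.gaussianReal 0 1 = volume.withDensity
      (ProbabilityTheory.gaussianPDF 0 1) :=
    ProbabilityTheory.gaussianReal_of_var_ne_zero 0 one_ne_zero
  have hpm : Measurable (ProbabilityTheory.gaussianPDF 0 1) :=
    ProbabilityTheory.measurable_gaussianPDF 0 1
  have hpdf : ∀ x : ℝ, ProbabilityTheory.gaussianPDF 0 1 x =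
      ENNReal.ofReal ((√(2 * Real.pi))⁻¹ * Real.exp (-x ^ 2 / 2)) := by
    intro x
    simp [ProbabilityTheory.gaussianPDF, ProbabilityTheory.gaussianPDFReal]
  have e1 : ∫⁻ x, ∫⁻ y, F (x, y) ∂(ProbabilityTheory.gaussianReal 0 1)
        ∂(ProbabilityTheory.gaussianReal 0 1) =
      ∫⁻ q : ℝ × ℝ, F q * ENNReal.ofReal ((2 * Real.pi)⁻¹ * Real.exp (-(q.1 ^ 2 + q.2 ^ 2) / 2)) := by
    have hm1 : Measurable (fun x => ∫⁻ y, F (x, y) ∂(ProbabilityTheory.gaussianReal 0 1)) :=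
      Measurable.lintegral_prod_right' hF
    rw [hg, lintegral_withDensity_eq_lintegral_mul _ hpm (by rw [← hg]; exact hm1)]
    rw [Measure.volume_eq_prod, lintegral_prod _ (by fun_prop)]
    apply lintegral_congr
    intro x
    rw [Pi.mul_apply, lintegral_withDensity_eq_lintegral_mul _ hpm (by fun_prop),
      ← lintegral_const_mul _ (by fun_prop)]
    apply lintegral_congr
    intro y
    rw [Pi.mul_apply, hpdf, hpdf]
    rw [← mul_assoc, mul_comm (F (x, y)), ← ENNReal.ofReal_mul (by positivity)]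
    congr 2
    have hs : (2 * Real.pi)⁻¹ = (√(2 * Real.pi))⁻¹ * (√(2 * Real.pi))⁻¹ := by
      rw [← mul_inv, Real.mul_self_sqrt (by positivity)]
    rw [hs, show -(x ^ 2 + y ^ 2) / 2 = -x ^ 2 / 2 + -y ^ 2 / 2 by ring, Real.exp_add]
    ring
  rw [e1, ← lintegral_comp_polarCoord_symm]
  rw [polarCoord_target, Measure.volume_eq_prod, ← Measure.prod_restrict, lintegral_prod _ (by
    apply Measurable.aemeasurable
    apply Measurable.mul (by fun_prop)
    apply Measurable.mul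
    · exact hF.comp (by
        have : Measurable (fun q : ℝ × ℝ => (q.1 * Real.cos q.2, q.1 * Real.sin q.2)) := by fun_prop
        exact this)
    · have : Measurable (fun q : ℝ × ℝ => ENNReal.ofReal ((2 * Real.pi)⁻¹ *
        Real.exp (-((q.1 * Real.cos q.2) ^ 2 + (q.1 * Real.sin q.2) ^ 2) / 2))) := by fun_prop
      exact this)]
  apply setLIntegral_congr_fun measurableSet_Ioi
  intro r hr
  have hr0 : (0 : ℝ) < r := hr
  simp only [polarCoord_symm_apply, smul_eq_mul]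
  rw [gp_unif (fun a => F (r * Real.cos a, r * Real.sin a)) (fun θ => by
    simp only [Real.cos_add_two_pi, Real.sin_add_two_pi])]
  have hsq : ∀ a : ℝ, (r * Real.cos a) ^ 2 + (r * Real.sin a) ^ 2 = r ^ 2 := by
    intro a
    have := Real.cos_sq_add_sin_sq a
    nlinarith
  simp only [hsq]
  rw [← mul_assoc, ← lintegral_const_mul _ (by
    exact hF.comp (by fun_prop))]
  apply lintegral_congr
  intro a
  have hc : ENNReal.ofReal (r * Real.exp (-r ^ 2 / 2)) * (ENNReal.ofReal (2 * Real.pi))⁻¹ =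
      ENNReal.ofReal r * ENNReal.ofReal ((2 * Real.pi)⁻¹ * Real.exp (-r ^ 2 / 2)) := by
    rw [← ENNReal.ofReal_inv_of_pos (by positivity), ← ENNReal.ofReal_mul (by positivity),
      ← ENNReal.ofReal_mul (by positivity)]
    congr 1
    ring
  rw [hc]
  ring

theorem gauss_polar2 (H : ℝ → ℝ → ℝ → ℝ≥0∞)
    (hH : Measurable (fun q : ℝ × ℝ × ℝ => H q.1 q.2.1 q.2.2)) :
    ∫⁻ x, ∫⁻ y, ∫⁻ θ, H (x ^ 2 / (x ^ 2 + y ^ 2)) (√(x ^ 2 + y ^ 2) * Real.cos θ)
        (√(x ^ 2 + y ^ 2) * Real.sin θ) ∂unif ∂(ProbabilityTheory.gaussianReal 0 1)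
        ∂(ProbabilityTheory.gaussianReal 0 1) =
      ∫⁻ φ, ∫⁻ x, ∫⁻ y, H ((Real.cos φ) ^ 2) x y ∂(ProbabilityTheory.gaussianReal 0 1)
        ∂(ProbabilityTheory.gaussianReal 0 1) ∂unif := by
  haveI : SFinite unif := by unfold unif; infer_instance
  have hm1 : Measurable (fun q : ℝ × ℝ => ∫⁻ θ, H (q.1 ^ 2 / (q.1 ^ 2 + q.2 ^ 2))
      (√(q.1 ^ 2 + q.2 ^ 2) * Real.cos θ) (√(q.1 ^ 2 + q.2 ^ 2) * Real.sin θ) ∂unif) := by
    apply Measurable.lintegral_prod_right' (f := fun z : (ℝ × ℝ) × ℝ =>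
      H (z.1.1 ^ 2 / (z.1.1 ^ 2 + z.1.2 ^ 2)) (√(z.1.1 ^ 2 + z.1.2 ^ 2) * Real.cos z.2)
        (√(z.1.1 ^ 2 + z.1.2 ^ 2) * Real.sin z.2))
    exact hH.comp (g := fun q : ℝ × ℝ × ℝ => H q.1 q.2.1 q.2.2) (f := fun z : (ℝ × ℝ) × ℝ =>
      (z.1.1 ^ 2 / (z.1.1 ^ 2 + z.1.2 ^ 2), √(z.1.1 ^ 2 + z.1.2 ^ 2) * Real.cos z.2,
        √(z.1.1 ^ 2 + z.1.2 ^ 2) * Real.sin z.2)) (by fun_prop)
  have h1 := gp_polar _ hm1
  simp only at h1
  rw [h1]
  have h2 : ∀ φ : ℝ, ∫⁻ x, ∫⁻ y, H ((Real.cos φ) ^ 2) x y ∂(ProbabilityTheory.gaussianReal 0 1)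
        ∂(ProbabilityTheory.gaussianReal 0 1) = ∫⁻ r in Set.Ioi (0 : ℝ),
        ENNReal.ofReal (r * Real.exp (-r ^ 2 / 2)) *
        ∫⁻ a, H ((Real.cos φ) ^ 2) (r * Real.cos a) (r * Real.sin a) ∂unif := by
    intro φ
    exact gp_polar (fun q => H ((Real.cos φ) ^ 2) q.1 q.2)
      (hH.comp (g := fun q : ℝ × ℝ × ℝ => H q.1 q.2.1 q.2.2) (f := fun q : ℝ × ℝ =>
        ((Real.cos φ) ^ 2, q.1, q.2)) (by fun_prop))
  simp only [h2]
  rw [lintegral_lintegral_swap]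
  · apply setLIntegral_congr_fun measurableSet_Ioi
    intro r hr
    have hr0 : (0 : ℝ) < r := hr
    have hsq : ∀ a : ℝ, (r * Real.cos a) ^ 2 + (r * Real.sin a) ^ 2 = r ^ 2 := by
      intro a
      have := Real.cos_sq_add_sin_sq a
      nlinarith
    have hdiv : ∀ a : ℝ, (r * Real.cos a) ^ 2 / r ^ 2 = (Real.cos a) ^ 2 := by
      intro a
      field_simp
    simp only [hsq, hdiv, Real.sqrt_sq hr0.le]
    rw [← lintegral_const_mul _ (by
      apply Measurable.lintegral_prod_right' (f := fun z : ℝ × ℝ =>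
        H ((Real.cos z.1) ^ 2) (r * Real.cos z.2) (r * Real.sin z.2))
      exact hH.comp (g := fun q : ℝ × ℝ × ℝ => H q.1 q.2.1 q.2.2) (f := fun z : ℝ × ℝ =>
        ((Real.cos z.1) ^ 2, r * Real.cos z.2, r * Real.sin z.2)) (by fun_prop))]
  · apply Measurable.aemeasurable
    apply Measurable.mul (by fun_prop)
    apply Measurable.lintegral_prod_right' (f := fun z : (ℝ × ℝ) × ℝ =>
        H ((Real.cos z.1.1) ^ 2) (z.1.2 * Real.cos z.2) (z.1.2 * Real.sin z.2))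
    exact hH.comp (g := fun q : ℝ × ℝ × ℝ => H q.1 q.2.1 q.2.2) (f := fun z : (ℝ × ℝ) × ℝ =>
        ((Real.cos z.1.1) ^ 2, z.1.2 * Real.cos z.2, z.1.2 * Real.sin z.2)) (by fun_prop)

end Pool.Agent.H494.Kac
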