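import Pool.Agent.H494.Kac.Defs2

open MeasureTheory Filter Topology
open scoped ENNReal

namespace Pool.Agent.H494.Kac
theorem p147_pdf (x : ℝ) (hx : 0 < 1 + x) (v : ℝ) (s : NNReal) (hs : (s : ℝ) = 1 + x) :
    ProbabilityTheory.gaussianPDFReal 0 s v =
      ProbabilityTheory.gaussianPDFReal 0 1 v * gd x v := by
  unfold ProbabilityTheory.gaussianPDFReal gd
  rw [hs]
  have h1 : (√(2 * Real.pi * (1 + x)))⁻¹ =
      (√(2 * Real.pi * ((1 : NNReal) : ℝ)))⁻¹ * (1 + x) ^ (-(1 / 2) : ℝ) := by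
    have h2 : √(2 * Real.pi * (1 + x)) = √(2 * Real.pi) * √(1 + x) :=
      Real.sqrt_mul (by positivity) _
    have h3 : (1 + x) ^ (-(1 / 2) : ℝ) = (√(1 + x))⁻¹ := by
      rw [Real.rpow_neg hx.le, Real.sqrt_eq_rpow]
    rw [h2, h3, mul_inv]
    simp
  have h4 : Real.exp (-(v - 0) ^ 2 / (2 * (1 + x))) =
      Real.exp (-(v - 0) ^ 2 / (2 * ((1 : NNReal) : ℝ))) *
        Real.exp (v ^ 2 * x / (2 * (1 + x))) := by
    rw [← Real.exp_add]
    congr 1
    push_cast
    field_simp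
    ring
  rw [h1, h4]
  ring

theorem gdens (x : ℝ) (hx : |x| ≤ 1 / 2) (f : ℝ → ℝ≥0∞) (hf : Measurable f) :
    ∫⁻ v, f (v * √(1 + x)) ∂(ProbabilityTheory.gaussianReal 0 1) =
      ∫⁻ v, f v * ENNReal.ofReal (gd x v) ∂(ProbabilityTheory.gaussianReal 0 1) := by
  have hx1 : 0 < 1 + x := by
    have := (abs_le.1 hx).1
    linarith
  have hgd : ∀ v, 0 ≤ gd x v := fun v => by unfold gd; positivity
  have hgm : Measurable (fun v => ENNReal.ofReal (gd x v)) := by
    unfold gd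
    fun_prop
  set c := √(1 + x) with hc
  have h1 : ∫⁻ v, f (v * c) ∂(ProbabilityTheory.gaussianReal 0 1) =
      ∫⁻ v, f v ∂((ProbabilityTheory.gaussianReal 0 1).map (· * c)) := by
    rw [lintegral_map hf (by fun_prop)]
  rw [h1, ProbabilityTheory.gaussianReal_map_mul_const]
  have hv : ((NNReal.mk (c ^ 2) (sq_nonneg _) * 1 : NNReal) : ℝ) = 1 + x := by
    rw [mul_one]
    show c ^ 2 = 1 + x
    rw [hc, Real.sq_sqrt hx1.le]
  generalize hs : (NNReal.mk (c ^ 2) (sq_nonneg _) * 1 : NNReal) = s at hv ⊢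
  have hs0 : s ≠ 0 := by
    intro h
    rw [h] at hv
    simp at hv
    linarith
  rw [mul_zero, ProbabilityTheory.gaussianReal_of_var_ne_zero _ hs0,
    ProbabilityTheory.gaussianReal_of_var_ne_zero _ one_ne_zero,
    lintegral_withDensity_eq_lintegral_mul _ (ProbabilityTheory.measurable_gaussianPDF 0 s) hf]
  have h2 : ∫⁻ v, f v * ENNReal.ofReal (gd x v)
      ∂(volume.withDensity (ProbabilityTheory.gaussianPDF 0 1)) =
      ∫⁻ v, (ProbabilityTheory.gaussianPDF 0 1 * fun v => f v * ENNReal.ofReal (gd x v)) v :=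
    lintegral_withDensity_eq_lintegral_mul _ (ProbabilityTheory.measurable_gaussianPDF 0 1)
      (hf.mul hgm)
  rw [h2]
  refine lintegral_congr fun v => ?_
  simp only [Pi.mul_apply, ProbabilityTheory.gaussianPDF]
  rw [p147_pdf x hx1 v s hv, ENNReal.ofReal_mul (ProbabilityTheory.gaussianPDFReal_nonneg 0 1 v)]
  ring

end Pool.Agent.H494.Kac
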