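import Pool.Agent.H494.Kac.Defs2

open MeasureTheory Filter Topology
open scoped ENNReal

namespace Pool.Agent.H494.Kac
theorem gn_gd_nonneg (x v : ℝ) (hx : |x| ≤ 1 / 2) : 0 ≤ gd x v := by
  unfold gd
  have h1 : 0 ≤ 1 + x := by
    have := abs_le.1 hx
    linarith
  exact mul_nonneg (Real.rpow_nonneg h1 _) (Real.exp_pos _).le

theorem gn_gd_meas (x : ℝ) : Measurable (fun v => ENNReal.ofReal (gd x v)) := by
  unfold gd
  fun_prop

theorem gn_prod (n : ℕ) (F : Fin n → ℝ → ℝ≥0∞) (hF : ∀ i, Measurable (F i)) :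
    ∫⁻ w, ∏ i, F i (w i) ∂(gam n) =
      ∏ i, ∫⁻ v, F i v ∂(ProbabilityTheory.gaussianReal 0 1) := by
  have hind : ProbabilityTheory.iIndepFun (fun (i : Fin n) (w : Fin n → ℝ) => F i (w i))
      (gam n) :=
    ProbabilityTheory.iIndepFun_pi (fun i => (hF i).aemeasurable)
  rw [ProbabilityTheory.lintegral_prod_eq_prod_lintegral_of_indepFun Finset.univ
    (fun (i : Fin n) (w : Fin n → ℝ) => F i (w i)) hind
    (fun i => (hF i).comp (measurable_pi_apply i))]
  refine Finset.prod_congr rfl fun i _ => ?_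
  exact (measurePreserving_eval (fun _ : Fin n => ProbabilityTheory.gaussianReal 0 1)
    i).lintegral_comp (hF i)

theorem gn_ind_prod (n : ℕ) (s : Fin n → Set ℝ) (G : Fin n → ℝ → ℝ≥0∞) (w : Fin n → ℝ) :
    (Set.univ.pi s).indicator (fun w => ∏ i, G i (w i)) w =
      ∏ i, (s i).indicator (G i) (w i) := by
  classical
  by_cases h : w ∈ Set.univ.pi s
  · rw [Set.indicator_of_mem h]
    refine Finset.prod_congr rfl fun i _ => ?_
    rw [Set.indicator_of_mem (h i (Set.mem_univ i))]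
  · rw [Set.indicator_of_notMem h]
    rw [Set.mem_univ_pi] at h
    push Not at h
    obtain ⟨i, hi⟩ := h
    symm
    apply Finset.prod_eq_zero (Finset.mem_univ i)
    rw [Set.indicator_of_notMem hi]

theorem gdens_n (n : ℕ)
    (h1 : ∀ x : ℝ, |x| ≤ 1 / 2 → ∀ f : ℝ → ℝ≥0∞, Measurable f →
      ∫⁻ v, f (v * √(1 + x)) ∂(ProbabilityTheory.gaussianReal 0 1) =
      ∫⁻ v, f v * ENNReal.ofReal (gd x v) ∂(ProbabilityTheory.gaussianReal 0 1))
    (h2 : ∀ x y : ℝ, |x| ≤ 1 / 2 → |y| ≤ 1 / 2 →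
      ∫⁻ v, ENNReal.ofReal (gd x v) * ENNReal.ofReal (gd y v)
      ∂(ProbabilityTheory.gaussianReal 0 1) = ENNReal.ofReal ((1 - x * y) ^ (-(1 / 2) : ℝ)))
    (η ξ : Fin n → ℝ) (hη : ∀ i, |η i| ≤ 1 / 2) (hξ : ∀ i, |ξ i| ≤ 1 / 2) :
    (∀ f : (Fin n → ℝ) → ℝ≥0∞, Measurable f →
      ∫⁻ w, f (fun i => w i * √(1 + η i)) ∂(gam n) =
        ∫⁻ w, f w * ENNReal.ofReal (∏ i, gd (η i) (w i)) ∂(gam n)) ∧
    ∫⁻ w, ENNReal.ofReal (∏ i, gd (η i) (w i)) * ENNReal.ofReal (∏ i, gd (ξ i) (w i)) ∂(gam n) =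
      ENNReal.ofReal (∏ i, (1 - η i * ξ i) ^ (-(1 / 2) : ℝ)) := by
  classical
  have hD : ∀ ζ : Fin n → ℝ, (∀ i, |ζ i| ≤ 1 / 2) → ∀ w : Fin n → ℝ,
      ENNReal.ofReal (∏ i, gd (ζ i) (w i)) = ∏ i, ENNReal.ofReal (gd (ζ i) (w i)) := by
    intro ζ hζ w
    exact ENNReal.ofReal_prod_of_nonneg (fun i _ => gn_gd_nonneg _ _ (hζ i))
  constructor
  · intro f hf
    have hT : Measurable (fun (w : Fin n → ℝ) (i : Fin n) => w i * √(1 + η i)) := by
      fun_prop
    have hDm : Measurable (fun w : Fin n → ℝ => ∏ i, ENNReal.ofReal (gd (η i) (w i))) := by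
      refine Finset.measurable_prod _ fun i _ => ?_
      exact (gn_gd_meas (η i)).comp (measurable_pi_apply i)
    have hprob : ∀ i, IsProbabilityMeasure
        ((ProbabilityTheory.gaussianReal 0 1).map (fun v : ℝ => v * √(1 + η i))) := by
      intro i
      exact Measure.isProbabilityMeasure_map (by fun_prop)
    have hmap : (gam n).map (fun (w : Fin n → ℝ) (i : Fin n) => w i * √(1 + η i)) =
        (gam n).withDensity (fun w => ∏ i, ENNReal.ofReal (gd (η i) (w i))) := by
      have e1 : (gam n).map (fun (w : Fin n → ℝ) (i : Fin n) => w i * √(1 + η i)) =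
          Measure.pi (fun i =>
            (ProbabilityTheory.gaussianReal 0 1).map (fun v : ℝ => v * √(1 + η i))) := by
        unfold gam
        exact Measure.pi_map_pi (f := fun (i : Fin n) (v : ℝ) => v * √(1 + η i))
          (fun i => by fun_prop)
      rw [e1]
      refine Measure.pi_eq fun s hs => ?_
      rw [withDensity_apply _ (MeasurableSet.univ_pi hs),
        ← lintegral_indicator (MeasurableSet.univ_pi hs)]
      have e2 : ∀ w : Fin n → ℝ, (Set.univ.pi s).indicator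
          (fun w => ∏ i, ENNReal.ofReal (gd (η i) (w i))) w =
          ∏ i, (s i).indicator (fun v => ENNReal.ofReal (gd (η i) v)) (w i) :=
        fun w => gn_ind_prod n s (fun i v => ENNReal.ofReal (gd (η i) v)) w
      rw [lintegral_congr e2, gn_prod n
        (fun i => (s i).indicator (fun v => ENNReal.ofReal (gd (η i) v)))
        (fun i => (gn_gd_meas (η i)).indicator (hs i))]
      refine Finset.prod_congr rfl fun i _ => ?_
      have hm : Measurable (fun v : ℝ => v * √(1 + η i)) := by fun_prop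
      have e3 := h1 (η i) (hη i) ((s i).indicator 1) (measurable_one.indicator (hs i))
      rw [Measure.map_apply hm (hs i), ← lintegral_indicator_one (hm (hs i))]
      have e4 : ∀ v : ℝ, ((fun v : ℝ => v * √(1 + η i)) ⁻¹' (s i)).indicator
          (1 : ℝ → ℝ≥0∞) v = (s i).indicator (1 : ℝ → ℝ≥0∞) (v * √(1 + η i)) := by
        intro v
        rfl
      rw [lintegral_congr e4, e3]
      refine lintegral_congr fun v => ?_
      by_cases hv : v ∈ s i
      · simp [Set.indicator_of_mem hv]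
      · simp [Set.indicator_of_notMem hv]
    calc ∫⁻ w, f (fun i => w i * √(1 + η i)) ∂(gam n)
        = ∫⁻ w, f w ∂((gam n).map (fun (w : Fin n → ℝ) (i : Fin n) => w i * √(1 + η i))) :=
          (lintegral_map hf hT).symm
      _ = ∫⁻ w, f w ∂((gam n).withDensity
            (fun w : Fin n → ℝ => ∏ i, ENNReal.ofReal (gd (η i) (w i)))) := by
          rw [hmap]
      _ = ∫⁻ w, ((fun w : Fin n → ℝ => ∏ i, ENNReal.ofReal (gd (η i) (w i))) * f) w ∂(gam n) :=
          lintegral_withDensity_eq_lintegral_mul _ hDm hf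
      _ = ∫⁻ w, f w * ENNReal.ofReal (∏ i, gd (η i) (w i)) ∂(gam n) := by
          refine lintegral_congr fun w => ?_
          rw [Pi.mul_apply, mul_comm, hD η hη w]
  · have e1 : ∀ w : Fin n → ℝ, ENNReal.ofReal (∏ i, gd (η i) (w i)) *
        ENNReal.ofReal (∏ i, gd (ξ i) (w i)) =
        ∏ i, (ENNReal.ofReal (gd (η i) (w i)) * ENNReal.ofReal (gd (ξ i) (w i))) := by
      intro w
      rw [hD η hη w, hD ξ hξ w, Finset.prod_mul_distrib]
    rw [lintegral_congr e1, gn_prod n
      (fun i v => ENNReal.ofReal (gd (η i) v) * ENNReal.ofReal (gd (ξ i) v))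
      (fun i => (gn_gd_meas (η i)).mul (gn_gd_meas (ξ i)))]
    rw [ENNReal.ofReal_prod_of_nonneg]
    · refine Finset.prod_congr rfl fun i _ => ?_
      exact h2 (η i) (ξ i) (hη i) (hξ i)
    · intro i _
      apply Real.rpow_nonneg
      have a1 := abs_le.1 (hη i)
      have a2 := abs_le.1 (hξ i)
      nlinarith

end Pool.Agent.H494.Kac
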