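import Pool.Agent.H494.Kac.Defs2

open MeasureTheory Filter Topology
open scoped ENNReal

namespace Pool.Agent.H494.Kac
theorem gker (x y : ℝ) (hx : |x| ≤ 1 / 2) (hy : |y| ≤ 1 / 2) :
    ∫⁻ v, ENNReal.ofReal (gd x v) * ENNReal.ofReal (gd y v)
      ∂(ProbabilityTheory.gaussianReal 0 1) = ENNReal.ofReal ((1 - x * y) ^ (-(1 / 2) : ℝ)) := by
  have hx1 : 0 < 1 + x := by linarith [(abs_le.1 hx).1]
  have hy1 : 0 < 1 + y := by linarith [(abs_le.1 hy).1]
  have hxy : 0 < 1 - x * y := by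
    have h1 : |x * y| ≤ 1 / 2 * (1 / 2) := by
      rw [abs_mul]
      exact mul_le_mul hx hy (abs_nonneg _) (by norm_num)
    have h2 := le_abs_self (x * y)
    linarith
  have hb : 0 < (1 - x * y) / (2 * (1 + x) * (1 + y)) := by positivity
  have hgd : ∀ z : ℝ, 0 < 1 + z → ∀ v : ℝ, 0 ≤ gd z v := by
    intro z hz v
    unfold gd
    positivity
  have hgm : ∀ z : ℝ, Measurable (gd z) := by
    intro z
    unfold gd
    fun_prop
  have hmeas : Measurable (fun v => ENNReal.ofReal (gd x v) * ENNReal.ofReal (gd y v)) :=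
    ((hgm x).ennreal_ofReal).mul ((hgm y).ennreal_ofReal)
  rw [ProbabilityTheory.gaussianReal_of_var_ne_zero 0 one_ne_zero]
  rw [lintegral_withDensity_eq_lintegral_mul _ (ProbabilityTheory.measurable_gaussianPDF 0 1) hmeas]
  have e : ∀ v : ℝ, (ProbabilityTheory.gaussianPDF 0 1 *
      fun v => ENNReal.ofReal (gd x v) * ENNReal.ofReal (gd y v)) v =
      ENNReal.ofReal ((√(2 * Real.pi))⁻¹ * (√(1 + x))⁻¹ * (√(1 + y))⁻¹ *
        Real.exp (-((1 - x * y) / (2 * (1 + x) * (1 + y))) * v ^ 2)) := by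
    intro v
    change ENNReal.ofReal (ProbabilityTheory.gaussianPDFReal 0 1 v) *
      (ENNReal.ofReal (gd x v) * ENNReal.ofReal (gd y v)) = _
    rw [← ENNReal.ofReal_mul (hgd x hx1 v),
      ← ENNReal.ofReal_mul (ProbabilityTheory.gaussianPDFReal_nonneg _ _ _)]
    congr 1
    unfold ProbabilityTheory.gaussianPDFReal gd
    rw [Real.rpow_neg hx1.le, Real.rpow_neg hy1.le, ← Real.sqrt_eq_rpow, ← Real.sqrt_eq_rpow]
    have h1 : Real.exp (-((1 - x * y) / (2 * (1 + x) * (1 + y))) * v ^ 2) =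
        Real.exp (-(v - 0) ^ 2 / (2 * ((1 : NNReal) : ℝ))) * (Real.exp (v ^ 2 * x / (2 * (1 + x))) *
          Real.exp (v ^ 2 * y / (2 * (1 + y)))) := by
      rw [← Real.exp_add, ← Real.exp_add]
      congr 1
      rw [NNReal.coe_one, sub_zero]
      field_simp
      ring
    rw [h1, NNReal.coe_one, mul_one]
    ring
  rw [lintegral_congr e, ← ofReal_integral_eq_lintegral_ofReal, integral_const_mul,
    integral_gaussian]
  · congr 1
    rw [Real.rpow_neg hxy.le, ← Real.sqrt_eq_rpow]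
    have h2 : Real.pi / ((1 - x * y) / (2 * (1 + x) * (1 + y))) =
        2 * Real.pi * (1 + x) * (1 + y) / (1 - x * y) := by
      field_simp
    have h3 : √(2 * Real.pi * (1 + x) * (1 + y)) = √(2 * Real.pi) * √(1 + x) * √(1 + y) := by
      rw [Real.sqrt_mul (x := 2 * Real.pi * (1 + x)) (by positivity) (1 + y),
        Real.sqrt_mul (x := 2 * Real.pi) (by positivity) (1 + x)]
    rw [h2, Real.sqrt_div (by positivity), h3]
    have s1 : √(2 * Real.pi) ≠ 0 := (Real.sqrt_pos.2 (by positivity)).ne'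
    have s2 : √(1 + x) ≠ 0 := (Real.sqrt_pos.2 hx1).ne'
    have s3 : √(1 + y) ≠ 0 := (Real.sqrt_pos.2 hy1).ne'
    have s4 : √(1 - x * y) ≠ 0 := (Real.sqrt_pos.2 hxy).ne'
    generalize √(2 * Real.pi) = s1' at s1 ⊢
    generalize √(1 + x) = s2' at s2 ⊢
    generalize √(1 + y) = s3' at s3 ⊢
    generalize √(1 - x * y) = s4' at s4 ⊢
    field_simp
  · exact (integrable_exp_neg_mul_sq hb).const_mul _
  · exact Eventually.of_forall fun v => by positivity

end Pool.Agent.H494.Kac
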