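import Pool.Agent.H494.Kac.Defs2

open MeasureTheory Filter Topology
open scoped ENNReal

namespace Pool.Agent.H494.Kac
instance lr_prob (n : ℕ) : IsProbabilityMeasure (gam n) := by
  unfold gam
  infer_instance

theorem lr_ne (n : ℕ) : ∀ᵐ w ∂(gam n), ∀ i, w i ≠ 0 := by
  rw [ae_all_iff]
  intro i
  have h := measurePreserving_eval (fun _ : Fin n => ProbabilityTheory.gaussianReal 0 1) i
  have h2 : ∀ᵐ x ∂(ProbabilityTheory.gaussianReal 0 1), x ≠ 0 := by
    have h3 := ProbabilityTheory.gaussianReal_absolutelyContinuous 0 (v := 1) one_ne_zero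
    apply h3.ae_le
    rw [mem_ae_iff]
    have : {x : ℝ | x ≠ 0}ᶜ = {0} := by
      ext x
      simp
    exact (congrArg volume this).trans Real.volume_singleton
  exact h.quasiMeasurePreserving.ae h2

theorem lr_cs_pos {n : ℕ} {M : Fin n → Fin n → ℝ} (h1 : ∀ i k, 0 ≤ M i k)
    (h2 : ∀ k, 0 < ∑ i, M i k) {w : Fin n → ℝ} (hw : ∀ i, w i ≠ 0) (k : Fin n) :
    0 < cs M w k := by
  unfold cs
  obtain ⟨i, _, hi⟩ : ∃ i ∈ Finset.univ, M i k ≠ 0 := by
    apply Finset.exists_ne_zero_of_sum_ne_zero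
    exact (h2 k).ne'
  have hi' : 0 < M i k := lt_of_le_of_ne (h1 i k) (Ne.symm hi)
  have hwi : 0 < w i ^ 2 := by
    have := hw i
    positivity
  exact Finset.sum_pos' (fun j _ => mul_nonneg (sq_nonneg _) (h1 j k))
    ⟨i, Finset.mem_univ _, mul_pos hwi hi'⟩

theorem lr_gf {n : ℕ} (hn : 2 ≤ n) {M : Fin n → Fin n → ℝ} (h1 : ∀ i k, 0 ≤ M i k)
    (h2 : ∀ k, 0 < ∑ i, M i k) {w : Fin n → ℝ} (hw : ∀ i, w i ≠ 0) (p : Fin n → ℝ)
    (i : Fin n) :
    gf (col M) p w i = (∑ j, w j ^ 2) * ∑ k, p k * M i k / cs M w k := by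
  have hn0 : (n : ℝ) ≠ 0 := by
    have : n ≠ 0 := by omega
    exact_mod_cast this
  unfold gf
  congr 1
  refine Finset.sum_congr rfl fun k _ => ?_
  have hc := lr_cs_pos h1 h2 hw k
  have hk := h2 k
  have hz : zs (col M) w k = n * cs M w k / ∑ j, M j k := by
    unfold zs cs col
    rw [Finset.mul_sum, Finset.sum_div]
    refine Finset.sum_congr rfl fun j _ => ?_
    ring
  rw [hz]
  unfold col
  field_simp

theorem lr_sum {n : ℕ} {M : Fin n → Fin n → ℝ} (h1 : ∀ i k, 0 ≤ M i k)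
    (h2 : ∀ k, 0 < ∑ i, M i k) {w : Fin n → ℝ} (hw : ∀ i, w i ≠ 0) (p : Fin n → ℝ) :
    ∑ i, w i ^ 2 * ∑ k, p k * M i k / cs M w k = ∑ k, p k := by
  simp_rw [Finset.mul_sum]
  rw [Finset.sum_comm]
  refine Finset.sum_congr rfl fun k _ => ?_
  have hc := lr_cs_pos h1 h2 hw k
  have h3 : ∀ i, w i ^ 2 * (p k * M i k / cs M w k) = p k / cs M w k * (w i ^ 2 * M i k) := by
    intro i
    ring
  simp_rw [h3]
  rw [← Finset.mul_sum]
  change p k / cs M w k * cs M w k = p k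
  field_simp

theorem lr_norm {n : ℕ} (hn : 2 ≤ n) {x : E n} (hx : ‖x‖ = 1) {M : Fin n → Fin n → ℝ}
    (h1 : ∀ i k, 0 ≤ M i k)
    (h2 : ∀ k, 0 < ∑ i, M i k) {w : Fin n → ℝ} (hw : ∀ i, w i ≠ 0) :
    (‖(WithLp.toLp 2 (fun i => w i * √(gf (col M) (fun k => x k ^ 2) w i)) : E n)‖⁻¹ •
        (WithLp.toLp 2 (fun i => w i * √(gf (col M) (fun k => x k ^ 2) w i)) : E n)) =
      WithLp.toLp 2 (Psi (fun k => x k) M w) := by
  have hW : 0 < ∑ j, w j ^ 2 := by
    apply Finset.sum_pos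
    · intro j _
      have := hw j
      positivity
    · exact ⟨⟨0, by omega⟩, Finset.mem_univ _⟩
  have hpn : ∀ i, 0 ≤ ∑ k, x k ^ 2 * M i k / cs M w k := fun i =>
    Finset.sum_nonneg fun k _ => div_nonneg (mul_nonneg (sq_nonneg _) (h1 i k))
      (lr_cs_pos h1 h2 hw k).le
  have hv : (WithLp.toLp 2 (fun i => w i * √(gf (col M) (fun k => x k ^ 2) w i)) : E n) =
      √(∑ j, w j ^ 2) • (WithLp.toLp 2 (Psi (fun k => x k) M w) : E n) := by
    ext i
    simp only [PiLp.smul_apply, smul_eq_mul]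
    rw [lr_gf hn h1 h2 hw, Real.sqrt_mul hW.le]
    unfold Psi
    ring
  have hP : ‖(WithLp.toLp 2 (Psi (fun k => x k) M w) : E n)‖ = 1 := by
    rw [EuclideanSpace.norm_eq, Real.sqrt_eq_one]
    have h3 : ∀ i, ‖(WithLp.toLp 2 (Psi (fun k => x k) M w) : E n) i‖ ^ 2 =
        w i ^ 2 * ∑ k, x k ^ 2 * M i k / cs M w k := by
      intro i
      rw [Real.norm_eq_abs, sq_abs]
      change (w i * √(∑ k, x k ^ 2 * M i k / cs M w k)) ^ 2 = _
      rw [mul_pow, Real.sq_sqrt (hpn i)]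
    rw [Finset.sum_congr rfl fun i _ => h3 i, lr_sum h1 h2 hw]
    have h4 := hx
    rw [EuclideanSpace.norm_eq, Real.sqrt_eq_one] at h4
    rw [← h4]
    refine Finset.sum_congr rfl fun i _ => ?_
    rw [Real.norm_eq_abs, sq_abs]
  rw [hv, norm_smul, hP, mul_one, Real.norm_eq_abs, abs_of_nonneg (Real.sqrt_nonneg _), smul_smul,
    inv_mul_cancel₀ (Real.sqrt_pos.2 hW).ne', one_smul]

theorem lr_id {n : ℕ} (x : E n) {w : Fin n → ℝ} (hw : ∀ i, w i ≠ 0) (k : Fin n) :
    (WithLp.toLp 2 (Psi (fun k => x k) (idm n) w) : E n) k ^ 2 = x k ^ 2 := by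
  change (w k * √(∑ l, x l ^ 2 * idm n k l / cs (idm n) w l)) ^ 2 = _
  have hcs : ∀ l, cs (idm n) w l = w l ^ 2 := by
    intro l
    unfold cs idm
    simp
  have h1 : ∑ l, x l ^ 2 * idm n k l / cs (idm n) w l = x k ^ 2 / w k ^ 2 := by
    rw [Finset.sum_eq_single k]
    · rw [hcs]
      unfold idm
      simp
    · intro l _ hl
      unfold idm
      rw [if_neg (Ne.symm hl)]
      simp
    · intro h
      exact absurd (Finset.mem_univ _) h
  rw [h1, mul_pow, Real.sq_sqrt (by positivity)]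
  have := hw k
  field_simp

theorem lr_meas {n : ℕ} (x : E n) :
    Measurable (fun p : (Fin n → Fin n → ℝ) × (Fin n → ℝ) =>
      (WithLp.toLp 2 (Psi (fun k => x k) p.1 p.2) : E n)) := by
  have h1 : Measurable (fun p : (Fin n → Fin n → ℝ) × (Fin n → ℝ) =>
      Psi (fun k => x k) p.1 p.2) := by
    rw [measurable_pi_iff]
    intro i
    unfold Psi cs
    apply Measurable.mul
    · fun_prop
    · apply Measurable.sqrt
      apply Finset.measurable_sum
      intro k _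
      apply Measurable.div
      · fun_prop
      · fun_prop
  exact (WithLp.measurable_toLp 2 _).comp h1

theorem law_rep (n : ℕ) (hn : 2 ≤ n) (t : ℕ) (x : E n) (hx : ‖x‖ = 1)
    (hlaw : Measurable (fun y : E n => law n y t))
    (hlp : ∀ y : E n, IsProbabilityMeasure (law n y t))
    (hprob : IsProbabilityMeasure (avgLaw n t))
    (hgood : ∀ᵐ M ∂(avgLaw n t), (∀ i k, 0 ≤ M i k) ∧ ∀ k, 0 < ∑ i, M i k)
    (hrep : ∀ f : E n → ℝ≥0∞, Measurable f →
      ∫⁻ w, ∫⁻ y, f y ∂(law n (WithLp.toLp 2 (Psi (fun k => x k) (idm n) w)) t) ∂(gam n) =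
      ∫⁻ M, ∫⁻ w, f (WithLp.toLp 2 (Psi (fun k => x k) M w)) ∂(gam n) ∂(avgLaw n t))
    (hsign : ∀ y z : E n, (∀ k, y k ^ 2 = z k ^ 2) → ∀ f : E n → ℝ≥0∞, Measurable f →
      (∀ v, f v ≤ 1) →
      ∫⁻ v, f v ∂(law n y t) ≤ ∫⁻ v, f v ∂(law n z t) + n * ENNReal.ofReal ((1 - 2 / n) ^ t))
    (S : Set (E n)) (hS : MeasurableSet S) :
    |(law n x t).real S - ∫ M, ∫ w, S.indicator (fun _ => (1 : ℝ))
      (‖(WithLp.toLp 2 (fun i => w i * √(gf (col M) (fun k => x k ^ 2) w i)) : E n)‖⁻¹ •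
        (WithLp.toLp 2 (fun i => w i * √(gf (col M) (fun k => x k ^ 2) w i)) : E n))
        ∂(gam n) ∂(avgLaw n t)| ≤ n * (1 - 2 / n) ^ t := by
  have hn2 : (2 : ℝ) ≤ n := by exact_mod_cast hn
  have he0 : (0 : ℝ) ≤ (1 - 2 / n) ^ t := by
    apply pow_nonneg
    rw [sub_nonneg, div_le_one (by linarith)]
    exact hn2
  set ε : ℝ≥0∞ := n * ENNReal.ofReal ((1 - 2 / n) ^ t) with hε
  have hεt : ε ≠ ⊤ := ENNReal.mul_ne_top (ENNReal.natCast_ne_top n) ENNReal.ofReal_ne_top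
  have hεr : ε.toReal = n * (1 - 2 / n) ^ t := by
    rw [hε, ENNReal.toReal_mul, ENNReal.toReal_natCast, ENNReal.toReal_ofReal he0]
  set f : E n → ℝ≥0∞ := S.indicator (fun _ => 1) with hf
  have hfm : Measurable f := measurable_const.indicator hS
  have hf1 : ∀ v, f v ≤ 1 := by
    intro v
    rw [hf]
    by_cases hv : v ∈ S
    · rw [Set.indicator_of_mem hv]
    · rw [Set.indicator_of_notMem hv]
      exact zero_le_one
  have hfl : ∀ y, ∫⁻ v, f v ∂(law n y t) = law n y t S := by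
    intro y
    rw [hf, lintegral_indicator_const hS, one_mul]
  set A : ℝ≥0∞ := ∫⁻ M, ∫⁻ w, f (WithLp.toLp 2 (Psi (fun k => x k) M w)) ∂(gam n) ∂(avgLaw n t)
    with hA
  have hAe := hrep f hfm
  rw [← hA] at hAe
  have hA1 : A ≤ law n x t S + ε := by
    rw [← hAe]
    calc ∫⁻ w, ∫⁻ y, f y ∂(law n (WithLp.toLp 2 (Psi (fun k => x k) (idm n) w)) t) ∂(gam n)
        ≤ ∫⁻ _, (law n x t S + ε) ∂(gam n) := by
          apply lintegral_mono_ae
          filter_upwards [lr_ne n] with w hw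
          have := hsign (WithLp.toLp 2 (Psi (fun k => x k) (idm n) w)) x (lr_id x hw) f hfm hf1
          rw [hfl x] at this
          exact this
      _ = law n x t S + ε := by
          rw [lintegral_const, measure_univ, mul_one]
  have hA2 : law n x t S ≤ A + ε := by
    rw [← hAe]
    calc law n x t S = ∫⁻ _, (law n x t S) ∂(gam n) := by
          rw [lintegral_const, measure_univ, mul_one]
      _ ≤ ∫⁻ w, (∫⁻ y, f y ∂(law n (WithLp.toLp 2 (Psi (fun k => x k) (idm n) w)) t) + ε)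
          ∂(gam n) := by
          apply lintegral_mono_ae
          filter_upwards [lr_ne n] with w hw
          have := hsign x (WithLp.toLp 2 (Psi (fun k => x k) (idm n) w))
            (fun k => (lr_id x hw k).symm) f hfm hf1
          rw [hfl x] at this
          exact this
      _ = _ := by
          rw [lintegral_add_right _ measurable_const, lintegral_const, measure_univ, mul_one]
  have hL1 : law n x t S ≤ 1 := prob_le_one
  have hLt : law n x t S ≠ ⊤ := (hL1.trans_lt ENNReal.one_lt_top).ne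
  have hAt : A ≠ ⊤ := ne_top_of_le_ne_top (ENNReal.add_ne_top.2 ⟨hLt, hεt⟩) hA1
  have hJ : Measurable (fun p : (Fin n → Fin n → ℝ) × (Fin n → ℝ) =>
      f (WithLp.toLp 2 (Psi (fun k => x k) p.1 p.2))) := hfm.comp (lr_meas x)
  have hI : (∫ M, ∫ w, S.indicator (fun _ => (1 : ℝ))
      (‖(WithLp.toLp 2 (fun i => w i * √(gf (col M) (fun k => x k ^ 2) w i)) : E n)‖⁻¹ •
        (WithLp.toLp 2 (fun i => w i * √(gf (col M) (fun k => x k ^ 2) w i)) : E n))
        ∂(gam n) ∂(avgLaw n t)) = A.toReal := by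
    have h1 : ∀ᵐ M ∂(avgLaw n t), (∫ w, S.indicator (fun _ => (1 : ℝ))
      (‖(WithLp.toLp 2 (fun i => w i * √(gf (col M) (fun k => x k ^ 2) w i)) : E n)‖⁻¹ •
        (WithLp.toLp 2 (fun i => w i * √(gf (col M) (fun k => x k ^ 2) w i)) : E n))
        ∂(gam n)) = (∫⁻ w, f (WithLp.toLp 2 (Psi (fun k => x k) M w)) ∂(gam n)).toReal := by
      filter_upwards [hgood] with M hM
      have h2 : (∫ w, S.indicator (fun _ => (1 : ℝ))
        (‖(WithLp.toLp 2 (fun i => w i * √(gf (col M) (fun k => x k ^ 2) w i)) : E n)‖⁻¹ •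
          (WithLp.toLp 2 (fun i => w i * √(gf (col M) (fun k => x k ^ 2) w i)) : E n))
          ∂(gam n)) = ∫ w, (f (WithLp.toLp 2 (Psi (fun k => x k) M w))).toReal ∂(gam n) := by
        apply integral_congr_ae
        filter_upwards [lr_ne n] with w hw
        rw [lr_norm hn hx hM.1 hM.2 hw, hf]
        by_cases hv : (WithLp.toLp 2 (Psi (fun k => x k) M w) : E n) ∈ S
        · rw [Set.indicator_of_mem hv, Set.indicator_of_mem hv, ENNReal.toReal_one]
        · rw [Set.indicator_of_notMem hv, Set.indicator_of_notMem hv, ENNReal.toReal_zero]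
      rw [h2, integral_toReal]
      · have h3 : Measurable (fun w : Fin n → ℝ =>
            ((M, w) : (Fin n → Fin n → ℝ) × (Fin n → ℝ))) := measurable_prodMk_left
        exact (hJ.comp h3).aemeasurable
      · exact ae_of_all _ fun w => (hf1 _).trans_lt ENNReal.one_lt_top
    rw [integral_congr_ae h1, integral_toReal]
    · exact (hJ.lintegral_prod_right' (ν := gam n)).aemeasurable
    · refine ae_of_all _ fun M => ?_
      calc ∫⁻ w, f (WithLp.toLp 2 (Psi (fun k => x k) M w)) ∂(gam n) ≤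
          ∫⁻ _, 1 ∂(gam n) := lintegral_mono fun w => hf1 _
        _ = 1 := by rw [lintegral_const, measure_univ, mul_one]
        _ < ⊤ := ENNReal.one_lt_top
  rw [hI, ← hεr, abs_le]
  have e1 := ENNReal.toReal_mono (ENNReal.add_ne_top.2 ⟨hLt, hεt⟩) hA1
  have e2 := ENNReal.toReal_mono (ENNReal.add_ne_top.2 ⟨hAt, hεt⟩) hA2
  rw [ENNReal.toReal_add hLt hεt] at e1
  rw [ENNReal.toReal_add hAt hεt] at e2
  unfold Measure.real
  constructor <;> linarith

end Pool.Agent.H494.Kac
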