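import Pool.Agent.H494.Kac.Defs2

open MeasureTheory Filter Topology
open scoped ENNReal

namespace Pool.Agent.H494.Kac
theorem law_succ (n : ℕ) (hms : Measurable (stepLaw n)) :
    (∀ t, Measurable (fun x : E n => law n x t)) ∧
    ∀ (x : E n) (t : ℕ) (f : E n → ℝ≥0∞), Measurable f →
      ∫⁻ v, f v ∂(law n x (t + 1)) = ∫⁻ y, ∫⁻ v, f v ∂(law n y t) ∂(stepLaw n x) := by
  have hmeas : ∀ t, Measurable (fun x : E n => law n x t) := by
    intro t
    induction t with
    | zero => exact Measure.measurable_dirac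
    | succ t ih => exact (Measure.measurable_bind' hms).comp ih
  refine ⟨hmeas, ?_⟩
  have hg : ∀ f : E n → ℝ≥0∞, Measurable f →
      Measurable (fun y => ∫⁻ v, f v ∂(stepLaw n y)) := fun f hf =>
    (Measure.measurable_lintegral hf).comp hms
  intro x t
  induction t with
  | zero =>
    intro f hf
    show ∫⁻ v, f v ∂((Measure.dirac x).bind (stepLaw n)) = ∫⁻ y, ∫⁻ v, f v ∂(Measure.dirac y) ∂_
    rw [Measure.lintegral_bind hms.aemeasurable hf.aemeasurable, lintegral_dirac' _ (hg f hf)]
    refine lintegral_congr fun y => ?_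
    rw [lintegral_dirac' _ hf]
  | succ t ih =>
    intro f hf
    have h1 : ∫⁻ v, f v ∂(law n x (t + 1 + 1)) =
        ∫⁻ y, ∫⁻ v, f v ∂(stepLaw n y) ∂(law n x (t + 1)) := by
      show ∫⁻ v, f v ∂((law n x (t + 1)).bind (stepLaw n)) = _
      rw [Measure.lintegral_bind hms.aemeasurable hf.aemeasurable]
    rw [h1, ih _ (hg f hf)]
    refine lintegral_congr fun y => ?_
    show _ = ∫⁻ v, f v ∂((law n y t).bind (stepLaw n))
    rw [Measure.lintegral_bind hms.aemeasurable hf.aemeasurable]

end Pool.Agent.H494.Kac
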