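import Pool.Agent.H494.Kac.Defs2

open MeasureTheory Filter Topology
open scoped ENNReal

namespace Pool.Agent.H494.Kac
theorem mom94
    (h : (∀ p : ℝ, 0 < p → mom (p + 1) = mom p * ((p + 1 / 2) / (p + 1))) ∧
    (∀ p q a : ℝ, 0 < p → 0 < q → 0 < a → a < 1 →
      mom (a * p + (1 - a) * q) ≤ mom p ^ a * mom q ^ (1 - a)) ∧ (∀ p : ℝ, 0 < p → 0 < mom p))
    (h52 : mom (5 / 2) = 16 / (15 * Real.pi)) (h4 : mom 4 = 35 / 128) :
    0.35558 ≤ mom (9 / 4) := by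
  obtain ⟨hrec, hlc, hpos⟩ := h
  have h8 : mom 8 = 12870 / 65536 := by
    have e5 := hrec 4 (by norm_num)
    have e6 := hrec 5 (by norm_num)
    have e7 := hrec 6 (by norm_num)
    have e8 := hrec 7 (by norm_num)
    norm_num at e5 e6 e7 e8
    rw [e8, e7, e6, e5, h4]
    norm_num
  have h152 : mom (15 / 2) = 16 / (15 * Real.pi) * (6 / 7 * (8 / 9) * (10 / 11) * (12 / 13) * (14 / 15)) := by
    have e1 := hrec (5 / 2) (by norm_num)
    have e2 := hrec (7 / 2) (by norm_num)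
    have e3 := hrec (9 / 2) (by norm_num)
    have e4 := hrec (11 / 2) (by norm_num)
    have e5 := hrec (13 / 2) (by norm_num)
    have f1 : (5 / 2 : ℝ) + 1 = 7 / 2 := by norm_num
    have f2 : (7 / 2 : ℝ) + 1 = 9 / 2 := by norm_num
    have f3 : (9 / 2 : ℝ) + 1 = 11 / 2 := by norm_num
    have f4 : (11 / 2 : ℝ) + 1 = 13 / 2 := by norm_num
    have f5 : (13 / 2 : ℝ) + 1 = 15 / 2 := by norm_num
    rw [f1] at e1
    rw [f2] at e2
    rw [f3] at e3
    rw [f4] at e4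
    rw [f5] at e5
    rw [e5, e4, e3, e2, e1, h52]
    ring
  have h294 : mom (29 / 4) = mom (9 / 4) * (11 / 13 * (15 / 17) * (19 / 21) * (23 / 25) * (27 / 29)) := by
    have e1 := hrec (9 / 4) (by norm_num)
    have e2 := hrec (13 / 4) (by norm_num)
    have e3 := hrec (17 / 4) (by norm_num)
    have e4 := hrec (21 / 4) (by norm_num)
    have e5 := hrec (25 / 4) (by norm_num)
    have f1 : (9 / 4 : ℝ) + 1 = 13 / 4 := by norm_num
    have f2 : (13 / 4 : ℝ) + 1 = 17 / 4 := by norm_num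
    have f3 : (17 / 4 : ℝ) + 1 = 21 / 4 := by norm_num
    have f4 : (21 / 4 : ℝ) + 1 = 25 / 4 := by norm_num
    have f5 : (25 / 4 : ℝ) + 1 = 29 / 4 := by norm_num
    rw [f1] at e1
    rw [f2] at e2
    rw [f3] at e3
    rw [f4] at e4
    rw [f5] at e5
    rw [e5, e4, e3, e2, e1]
    ring
  have hA := hpos (29 / 4) (by norm_num)
  have hB := hpos 8 (by norm_num)
  have hC := hpos (15 / 2) (by norm_num)
  have hx := hpos (9 / 4) (by norm_num)
  have hl := hlc (29 / 4) 8 (2 / 3) (by norm_num) (by norm_num) (by norm_num) (by norm_num)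
  have g1 : (2 / 3 : ℝ) * (29 / 4) + (1 - 2 / 3) * 8 = 15 / 2 := by norm_num
  rw [g1] at hl
  have hcube : mom (15 / 2) ^ 3 ≤ mom (29 / 4) ^ 2 * mom 8 := by
    have h1 := pow_le_pow_left₀ hC.le hl 3
    have h2 : (mom (29 / 4) ^ (2 / 3 : ℝ) * mom 8 ^ (1 - 2 / 3 : ℝ)) ^ 3 =
        mom (29 / 4) ^ 2 * mom 8 := by
      rw [mul_pow, ← Real.rpow_natCast (mom (29 / 4) ^ (2 / 3 : ℝ)) 3,
        ← Real.rpow_mul hA.le, ← Real.rpow_natCast (mom 8 ^ (1 - 2 / 3 : ℝ)) 3,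
        ← Real.rpow_mul hB.le]
      have g2 : (2 / 3 : ℝ) * ((3 : ℕ) : ℝ) = ((2 : ℕ) : ℝ) := by norm_num
      have g3 : (1 - 2 / 3 : ℝ) * ((3 : ℕ) : ℝ) = 1 := by norm_num
      rw [g2, g3, Real.rpow_natCast, Real.rpow_one]
    rwa [h2] at h1
  by_contra hcon
  push Not at hcon
  have hpi : Real.pi < 3.141593 := Real.pi_lt_d6
  have hpi0 := Real.pi_pos
  have hClow : 16 / (15 * 3.141593) * (6 / 7 * (8 / 9) * (10 / 11) * (12 / 13) * (14 / 15)) ≤
      mom (15 / 2) := by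
    rw [h152]
    gcongr
  have h3 : (16 / (15 * 3.141593) * (6 / 7 * (8 / 9) * (10 / 11) * (12 / 13) * (14 / 15)) : ℝ) ^ 3 ≤
      mom (15 / 2) ^ 3 := pow_le_pow_left₀ (by norm_num) hClow 3
  have h4 : mom (29 / 4) ^ 2 * mom 8 ≤
      (0.35558 * (11 / 13 * (15 / 17) * (19 / 21) * (23 / 25) * (27 / 29))) ^ 2 * (12870 / 65536) := by
    rw [h294, h8]
    gcongr
  have h5 := h3.trans (hcube.trans h4)
  norm_num at h5

end Pool.Agent.H494.Kac
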