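import Pool.Agent.H494.Kac.Defs2

open MeasureTheory Filter Topology
open scoped ENNReal

namespace Pool.Agent.H494.Kac
theorem mom_rec_momI (p : ℝ) : mom p =
    (2 * Real.pi)⁻¹ * ∫ θ in (0:ℝ)..(2 * Real.pi), ((Real.cos θ) ^ 2) ^ p := by
  have hpi : (0:ℝ) ≤ 2 * Real.pi := by positivity
  unfold mom unif
  rw [integral_smul_measure, intervalIntegral.integral_of_le hpi, integral_Ico_eq_integral_Ioo,
    integral_Ioc_eq_integral_Ioo, ENNReal.toReal_inv, ENNReal.toReal_ofReal hpi, smul_eq_mul]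

theorem mom_rec_h (p : ℝ) (hp : 0 < p) (x : ℝ) :
    HasDerivAt (fun x : ℝ => x * (x ^ 2) ^ p) ((2 * p + 1) * (x ^ 2) ^ p) x := by
  by_cases hx : x = 0
  · subst hx
    have h0 : ((0:ℝ) ^ 2) ^ p = 0 := by
      rw [zero_pow two_ne_zero, Real.zero_rpow hp.ne']
    rw [h0, mul_zero, hasDerivAt_iff_tendsto_slope]
    have hc : Continuous (fun x : ℝ => (x ^ 2) ^ p) :=
      (continuous_pow 2).rpow_const (fun _ => Or.inr hp.le)
    have h1 : Tendsto (fun x : ℝ => (x ^ 2) ^ p) (𝓝[≠] 0) (𝓝 0) := by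
      have := hc.tendsto 0
      rw [h0] at this
      exact this.mono_left nhdsWithin_le_nhds
    refine h1.congr' ?_
    filter_upwards [self_mem_nhdsWithin] with y hy
    have hy' : y ≠ 0 := hy
    rw [slope_def_field]
    simp only [zero_mul, sub_zero]
    field_simp
  · have hx2 : x ^ 2 ≠ 0 := pow_ne_zero 2 hx
    have h1 : HasDerivAt (fun x : ℝ => x ^ 2) (2 * x) x := by
      simpa using hasDerivAt_pow 2 x
    have h2 := h1.rpow_const (p := p) (Or.inl hx2)
    have h3 := (hasDerivAt_id x).mul h2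
    refine h3.congr_deriv ?_
    simp only [id]
    have h4 : (x ^ 2) ^ p = (x ^ 2) ^ (p - 1) * x ^ 2 := by
      have := Real.rpow_add_one hx2 (p - 1)
      rw [sub_add_cancel] at this
      exact this
    rw [h4]
    ring

theorem mom_rec_cont (p : ℝ) (hp : 0 < p) : Continuous (fun θ : ℝ => ((Real.cos θ) ^ 2) ^ p) :=
  (Real.continuous_cos.pow 2).rpow_const (fun _ => Or.inr hp.le)

theorem mom_rec_prob : IsProbabilityMeasure unif := by
  refine ⟨?_⟩
  unfold unif
  rw [Measure.smul_apply, Measure.restrict_apply_univ, Real.volume_Ico, sub_zero, smul_eq_mul]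
  refine ENNReal.inv_mul_cancel ?_ ENNReal.ofReal_ne_top
  have : 0 < 2 * Real.pi := by positivity
  simpa using this

theorem mom_rec_memLp (p : ℝ) (hp : 0 < p) (r : ℝ≥0∞) :
    MemLp (fun θ : ℝ => ((Real.cos θ) ^ 2) ^ p) r unif := by
  haveI := mom_rec_prob
  refine MemLp.of_bound (mom_rec_cont p hp).aestronglyMeasurable 1 (Filter.Eventually.of_forall ?_)
  intro θ
  have h0 : 0 ≤ (Real.cos θ) ^ 2 := sq_nonneg _
  rw [Real.norm_of_nonneg (Real.rpow_nonneg h0 p)]
  exact Real.rpow_le_one h0 (Real.cos_sq_le_one θ) hp.le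

theorem mom_rec : (∀ p : ℝ, 0 < p → mom (p + 1) = mom p * ((p + 1 / 2) / (p + 1))) ∧
    (∀ p q a : ℝ, 0 < p → 0 < q → 0 < a → a < 1 →
      mom (a * p + (1 - a) * q) ≤ mom p ^ a * mom q ^ (1 - a)) ∧ (∀ p : ℝ, 0 < p → 0 < mom p) := by
  refine ⟨?_, ?_, ?_⟩
  · intro p hp
    have hF : ∀ θ : ℝ, HasDerivAt (fun θ : ℝ => Real.sin θ * (Real.cos θ * ((Real.cos θ) ^ 2) ^ p))
        ((2 * p + 2) * ((Real.cos θ) ^ 2) ^ (p + 1) - (2 * p + 1) * ((Real.cos θ) ^ 2) ^ p) θ := by
      intro θ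
      have h1 : HasDerivAt (fun θ : ℝ => Real.cos θ * ((Real.cos θ) ^ 2) ^ p)
          ((2 * p + 1) * ((Real.cos θ) ^ 2) ^ p * (-Real.sin θ)) θ :=
        (mom_rec_h p hp (Real.cos θ)).comp θ (Real.hasDerivAt_cos θ)
      have h2 := (Real.hasDerivAt_sin θ).mul h1
      refine h2.congr_deriv ?_
      have h3 : ((Real.cos θ) ^ 2) ^ (p + 1) = ((Real.cos θ) ^ 2) ^ p * (Real.cos θ) ^ 2 :=
        Real.rpow_add_one' (sq_nonneg _) (by positivity)
      rw [h3]
      have h4 := Real.sin_sq_add_cos_sq θ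
      linear_combination (-(2 * p + 1) * ((Real.cos θ) ^ 2) ^ p) * h4
    have hc1 := mom_rec_cont (p + 1) (by positivity)
    have hc0 := mom_rec_cont p hp
    have hint : ∫ θ in (0:ℝ)..(2 * Real.pi), ((2 * p + 2) * ((Real.cos θ) ^ 2) ^ (p + 1) -
        (2 * p + 1) * ((Real.cos θ) ^ 2) ^ p) = 0 := by
      rw [intervalIntegral.integral_eq_sub_of_hasDerivAt (fun θ _ => hF θ)
        (((continuous_const.mul hc1).sub (continuous_const.mul hc0)).intervalIntegrable _ _)]
      simp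
    have i1 : IntervalIntegrable (fun θ : ℝ => (2 * p + 2) * ((Real.cos θ) ^ 2) ^ (p + 1)) volume 0
        (2 * Real.pi) := (hc1.intervalIntegrable _ _).const_mul _
    have i0 : IntervalIntegrable (fun θ : ℝ => (2 * p + 1) * ((Real.cos θ) ^ 2) ^ p) volume 0
        (2 * Real.pi) := (hc0.intervalIntegrable _ _).const_mul _
    rw [intervalIntegral.integral_sub i1 i0, intervalIntegral.integral_const_mul,
      intervalIntegral.integral_const_mul] at hint
    rw [mom_rec_momI, mom_rec_momI]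
    have hp1 : p + 1 ≠ 0 := by positivity
    have h5 : (∫ θ in (0:ℝ)..(2 * Real.pi), ((Real.cos θ) ^ 2) ^ (p + 1)) =
        (∫ θ in (0:ℝ)..(2 * Real.pi), ((Real.cos θ) ^ 2) ^ p) * ((p + 1 / 2) / (p + 1)) := by
      field_simp
      linarith
    rw [h5]
    ring
  · intro p q a hp hq ha ha1
    have ha' : 0 < 1 - a := by linarith
    have hconj : (1 / a).HolderConjugate (1 / (1 - a)) :=
      Real.holderConjugate_one_div ha ha' (by ring)
    have hnn : ∀ (θ r : ℝ), 0 ≤ ((Real.cos θ) ^ 2) ^ r := fun θ r =>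
      Real.rpow_nonneg (sq_nonneg _) r
    have h := integral_mul_le_Lp_mul_Lq_of_nonneg (μ := unif) hconj
      (f := fun θ => ((Real.cos θ) ^ 2) ^ (a * p)) (g := fun θ => ((Real.cos θ) ^ 2) ^ ((1 - a) * q))
      (Filter.Eventually.of_forall fun θ => hnn θ _) (Filter.Eventually.of_forall fun θ => hnn θ _)
      (mom_rec_memLp _ (by positivity) _) (mom_rec_memLp _ (by positivity) _)
    have e1 : ∀ θ : ℝ, (((Real.cos θ) ^ 2) ^ (a * p)) ^ (1 / a) = ((Real.cos θ) ^ 2) ^ p := by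
      intro θ
      rw [← Real.rpow_mul (sq_nonneg _)]
      congr 1
      field_simp
    have e2 : ∀ θ : ℝ, (((Real.cos θ) ^ 2) ^ ((1 - a) * q)) ^ (1 / (1 - a)) =
        ((Real.cos θ) ^ 2) ^ q := by
      intro θ
      rw [← Real.rpow_mul (sq_nonneg _)]
      congr 1
      field_simp
    have e3 : ∀ θ : ℝ, ((Real.cos θ) ^ 2) ^ (a * p) * ((Real.cos θ) ^ 2) ^ ((1 - a) * q) =
        ((Real.cos θ) ^ 2) ^ (a * p + (1 - a) * q) := by
      intro θ
      rw [Real.rpow_add_of_nonneg (sq_nonneg _) (by positivity) (by positivity)]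
    simp only [e1, e2, e3] at h
    have e4 : 1 / (1 / a) = a := one_div_one_div a
    have e5 : 1 / (1 / (1 - a)) = 1 - a := one_div_one_div (1 - a)
    rw [e4, e5] at h
    exact h
  · intro p hp
    rw [mom_rec_momI]
    have hpi : (0:ℝ) < 2 * Real.pi := by positivity
    refine mul_pos (inv_pos.2 hpi) ?_
    refine intervalIntegral.integral_pos hpi (mom_rec_cont p hp).continuousOn
      (fun θ _ => Real.rpow_nonneg (sq_nonneg _) p) ⟨0, ⟨le_refl _, hpi.le⟩, ?_⟩
    simp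

end Pool.Agent.H494.Kac
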