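import Pool.Agent.H494.Kac.Defs2

open MeasureTheory Filter Topology
open scoped ENNReal

namespace Pool.Agent.H494.Kac
theorem ms_gam_prob (n : ℕ) : IsProbabilityMeasure (gam n) := by
  unfold gam
  infer_instance

theorem ms_gam_ae (n : ℕ) : ∀ᵐ w ∂(gam n), ∀ i, w i ≠ 0 := by
  rw [ae_all_iff]
  intro i
  have h1 : ∀ᵐ x ∂(ProbabilityTheory.gaussianReal 0 1), x ≠ 0 := by
    have hac := ProbabilityTheory.gaussianReal_absolutelyContinuous (0:ℝ) (v := 1) one_ne_zero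
    have h0 : ∀ᵐ x ∂(volume : Measure ℝ), x ≠ 0 := by
      rw [ae_iff]
      simp
    exact hac.ae_le h0
  unfold gam
  exact (Measure.quasiMeasurePreserving_eval (fun _ => ProbabilityTheory.gaussianReal 0 1) i).ae h1

theorem ms_Dv_good {n : ℕ} (k : Fin n) (M : Fin n → Fin n → ℝ) (w : Fin n → ℝ)
    (hM : ∀ i k, 0 ≤ M i k) (hMk : ∀ k, 0 < ∑ i, M i k) (hw : ∀ i, w i ≠ 0) :
    ∑ i, Dv k M w i = 0 ∧ (∀ i, |Dv k M w i| ≤ 1) ∧ ∑ i, |Dv k M w i| ≤ 2 := by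
  have hcs : 0 < cs M w k := by
    unfold cs
    apply Finset.sum_pos'
    · intro i _
      exact mul_nonneg (sq_nonneg _) (hM i k)
    · by_contra hcon
      push Not at hcon
      have : ∑ i, M i k ≤ 0 := by
        apply Finset.sum_nonpos
        intro i hi
        by_contra hpos
        push Not at hpos
        have := hcon i hi
        have h2 : 0 < w i ^ 2 := by
          have := hw i
          positivity
        nlinarith [mul_pos h2 hpos]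
      linarith [hMk k]
  have hS : 0 < ∑ j, w j ^ 2 := by
    apply Finset.sum_pos
    · intro i _
      have := hw i
      positivity
    · exact ⟨k, Finset.mem_univ k⟩
  have hP0 : ∀ i, 0 ≤ w i ^ 2 * M i k / cs M w k := fun i =>
    div_nonneg (mul_nonneg (sq_nonneg _) (hM i k)) hcs.le
  have hR0 : ∀ i, 0 ≤ w i ^ 2 / ∑ j, w j ^ 2 := fun i => div_nonneg (sq_nonneg _) hS.le
  have hP1 : ∑ i, w i ^ 2 * M i k / cs M w k = 1 := by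
    rw [← Finset.sum_div]
    exact div_self hcs.ne'
  have hR1 : ∑ i, w i ^ 2 / ∑ j, w j ^ 2 = 1 := by
    rw [← Finset.sum_div]
    exact div_self hS.ne'
  have hPle : ∀ i, w i ^ 2 * M i k / cs M w k ≤ 1 := by
    intro i
    rw [← hP1]
    exact Finset.single_le_sum (f := fun i => w i ^ 2 * M i k / cs M w k) (fun j _ => hP0 j)
      (Finset.mem_univ i)
  have hRle : ∀ i, w i ^ 2 / ∑ j, w j ^ 2 ≤ 1 := by
    intro i
    rw [← hR1]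
    exact Finset.single_le_sum (f := fun i => w i ^ 2 / ∑ j, w j ^ 2) (fun j _ => hR0 j)
      (Finset.mem_univ i)
  refine ⟨?_, ?_, ?_⟩
  · unfold Dv
    rw [Finset.sum_sub_distrib, hP1, hR1, sub_self]
  · intro i
    unfold Dv
    rw [abs_le]
    constructor <;> linarith [hP0 i, hR0 i, hPle i, hRle i]
  · calc ∑ i, |Dv k M w i| ≤ ∑ i, (w i ^ 2 * M i k / cs M w k + w i ^ 2 / ∑ j, w j ^ 2) := by
          apply Finset.sum_le_sum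
          intro i _
          unfold Dv
          rw [abs_le]
          constructor <;> linarith [hP0 i, hR0 i]
      _ = 2 := by
          rw [Finset.sum_add_distrib, hP1, hR1]; norm_num

theorem ms_meas {n : ℕ} (k : Fin n) :
    Measurable (fun z : (Fin n → Fin n → ℝ) × (Fin n → ℝ) => Dv k z.1 z.2) := by
  rw [measurable_pi_iff]
  intro i
  unfold Dv cs
  fun_prop

theorem ms_bounds {n : ℕ} (A : Fin n → ℝ) (h1 : ∀ i, |A i| ≤ 1) (h2 : ∑ i, |A i| ≤ 2) :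
    ∑ i, A i ^ 2 ≤ 3 ∧ (∑ i, A i ^ 2) ^ (3 / 2 : ℝ) ≤ 3 ∧
    (∀ r : ℝ, 1 ≤ r → ∑ i, |A i| ^ r ≤ 3) ∧
    (∀ r : ℝ, 0 ≤ r → r ≤ 3 / 2 → (∑ i, A i ^ 2) ^ r ≤ 3) := by
  have hY : ∑ i, A i ^ 2 ≤ 2 := by
    refine le_trans (Finset.sum_le_sum fun i _ => ?_) h2
    rw [← sq_abs]
    have := abs_nonneg (A i)
    nlinarith [h1 i]
  have hY0 : 0 ≤ ∑ i, A i ^ 2 := Finset.sum_nonneg fun i _ => sq_nonneg _
  have h3 : (2 : ℝ) ^ (3 / 2 : ℝ) ≤ 3 := by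
    have e1 : (2 : ℝ) ^ (3 / 2 : ℝ) = √ ((2:ℝ) ^ (3:ℝ)) := by
      rw [Real.sqrt_eq_rpow, ← Real.rpow_mul (by norm_num)]
      norm_num
    rw [e1, Real.sqrt_le_left (by norm_num)]
    norm_num
  have h4 : ∀ r : ℝ, 0 ≤ r → r ≤ 3 / 2 → (∑ i, A i ^ 2) ^ r ≤ 3 := by
    intro r hr0 hr
    calc (∑ i, A i ^ 2) ^ r ≤ (2 : ℝ) ^ r := Real.rpow_le_rpow hY0 hY hr0
      _ ≤ (2 : ℝ) ^ (3 / 2 : ℝ) := Real.rpow_le_rpow_of_exponent_le (by norm_num) hr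
      _ ≤ 3 := h3
  refine ⟨by linarith, h4 _ (by norm_num) le_rfl, ?_, h4⟩
  intro r hr
  refine le_trans (Finset.sum_le_sum fun i _ => ?_) (le_trans h2 (by norm_num))
  calc |A i| ^ r ≤ |A i| ^ (1:ℝ) :=
        Real.rpow_le_rpow_of_exponent_ge' (abs_nonneg _) (h1 i) (by norm_num) hr
    _ = |A i| := Real.rpow_one _

/-- expectation at time `t` -/
noncomputable def msE {n : ℕ} (k : Fin n) (t : ℕ) (g : (Fin n → ℝ) → ℝ) : ℝ≥0∞ :=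
  ∫⁻ M, ∫⁻ w, ENNReal.ofReal (g (Dv k M w)) ∂(gam n) ∂(avgLaw n t)

theorem ms_prod {n : ℕ} (k : Fin n) (t : ℕ) (hp : IsProbabilityMeasure (avgLaw n t))
    (g : (Fin n → ℝ) → ℝ) (hg : Measurable g) :
    msE k t g = ∫⁻ z, ENNReal.ofReal (g (Dv k z.1 z.2)) ∂((avgLaw n t).prod (gam n)) := by
  haveI := ms_gam_prob n
  unfold msE
  rw [lintegral_prod]
  exact (ENNReal.measurable_ofReal.comp (hg.comp (ms_meas k))).aemeasurable

theorem ms_le {n : ℕ} (k : Fin n) (t : ℕ) (hp : IsProbabilityMeasure (avgLaw n t))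
    (hgood : ∀ᵐ M ∂(avgLaw n t), (∀ i k, 0 ≤ M i k) ∧ ∀ k, 0 < ∑ i, M i k)
    (F G : (Fin n → ℝ) → ℝ≥0∞)
    (h : ∀ A : Fin n → ℝ, ∑ i, A i = 0 → (∀ i, |A i| ≤ 1) → ∑ i, |A i| ≤ 2 → F A ≤ G A) :
    ∫⁻ M, ∫⁻ w, F (Dv k M w) ∂(gam n) ∂(avgLaw n t) ≤
      ∫⁻ M, ∫⁻ w, G (Dv k M w) ∂(gam n) ∂(avgLaw n t) := by
  apply lintegral_mono_ae
  filter_upwards [hgood] with M hM
  apply lintegral_mono_ae
  filter_upwards [ms_gam_ae n] with w hw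
  obtain ⟨a1, a2, a3⟩ := ms_Dv_good k M w hM.1 hM.2 hw
  exact h _ a1 a2 a3

theorem ms_fin {n : ℕ} (k : Fin n) (t : ℕ) (hp : IsProbabilityMeasure (avgLaw n t))
    (hgood : ∀ᵐ M ∂(avgLaw n t), (∀ i k, 0 ≤ M i k) ∧ ∀ k, 0 < ∑ i, M i k)
    (g : (Fin n → ℝ) → ℝ)
    (h : ∀ A : Fin n → ℝ, (∀ i, |A i| ≤ 1) → ∑ i, |A i| ≤ 2 → g A ≤ 3) :
    msE k t g ≤ ENNReal.ofReal 3 := by
  haveI := ms_gam_prob n
  have := ms_le k t hp hgood (fun A => ENNReal.ofReal (g A)) (fun _ => ENNReal.ofReal 3)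
    (fun A _ h1 h2 => ENNReal.ofReal_le_ofReal (h A h1 h2))
  unfold msE
  refine le_trans this ?_
  simp

theorem ms_step {n : ℕ} (k : Fin n) (t : ℕ) (hp : IsProbabilityMeasure (avgLaw n t))
    (hgood : ∀ᵐ M ∂(avgLaw n t), (∀ i k, 0 ≤ M i k) ∧ ∀ k, 0 < ∑ i, M i k)
    (hp1 : IsProbabilityMeasure (avgLaw n (t + 1)))
    (hgood1 : ∀ᵐ M ∂(avgLaw n (t + 1)), (∀ i k, 0 ≤ M i k) ∧ ∀ k, 0 < ∑ i, M i k)
    (G X Z : (Fin n → ℝ) → ℝ) (hG : Measurable G) (hX : Measurable X) (hZ : Measurable Z)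
    (hX0 : ∀ A, 0 ≤ X A) (hZ0 : ∀ A, 0 ≤ Z A)
    (hX3 : ∀ A : Fin n → ℝ, (∀ i, |A i| ≤ 1) → ∑ i, |A i| ≤ 2 → X A ≤ 3)
    (hZ3 : ∀ A : Fin n → ℝ, (∀ i, |A i| ≤ 1) → ∑ i, |A i| ≤ 2 → Z A ≤ 3)
    (c1 c2 : ℝ) (hc1 : 0 ≤ c1) (hc2 : 0 ≤ c2)
    (hmain : ∫⁻ M, ∫⁻ w, ENNReal.ofReal (G (Dv k M w)) ∂(gam n) ∂(avgLaw n (t + 1)) =
      ∫⁻ M, ∫⁻ w, Qop n (fun B => ENNReal.ofReal (G B)) (Dv k M w) ∂(gam n) ∂(avgLaw n t))
    (h : ∀ A : Fin n → ℝ, ∑ i, A i = 0 → Qop n (fun B => ENNReal.ofReal (G B)) A ≤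
      ENNReal.ofReal (c1 * X A + c2 * Z A)) :
    (msE k (t + 1) G).toReal ≤ c1 * (msE k t X).toReal + c2 * (msE k t Z).toReal := by
  haveI := ms_gam_prob n
  have e1 : msE k (t + 1) G ≤ msE k t (fun A => c1 * X A + c2 * Z A) := by
    unfold msE
    rw [hmain]
    exact ms_le k t hp hgood _ (fun A => ENNReal.ofReal (c1 * X A + c2 * Z A)) (fun A h0 _ _ => h A h0)
  have e2 : msE k t (fun A => c1 * X A + c2 * Z A) =
      ENNReal.ofReal c1 * msE k t X + ENNReal.ofReal c2 * msE k t Z := by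
    rw [ms_prod k t hp (fun A => c1 * X A + c2 * Z A) ((hX.const_mul c1).add (hZ.const_mul c2)),
      ms_prod k t hp X hX, ms_prod k t hp Z hZ]
    have hXm : Measurable (fun z : (Fin n → Fin n → ℝ) × (Fin n → ℝ) =>
        ENNReal.ofReal (X (Dv k z.1 z.2))) := ENNReal.measurable_ofReal.comp (hX.comp (ms_meas k))
    have hZm : Measurable (fun z : (Fin n → Fin n → ℝ) × (Fin n → ℝ) =>
        ENNReal.ofReal (Z (Dv k z.1 z.2))) := ENNReal.measurable_ofReal.comp (hZ.comp (ms_meas k))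
    rw [← lintegral_const_mul _ hXm, ← lintegral_const_mul _ hZm,
      ← lintegral_add_left (hXm.const_mul _)]
    apply lintegral_congr
    intro z
    rw [ENNReal.ofReal_add (mul_nonneg hc1 (hX0 _)) (mul_nonneg hc2 (hZ0 _)),
      ENNReal.ofReal_mul hc1, ENNReal.ofReal_mul hc2]
  have fX : msE k t X ≠ ⊤ := ne_top_of_le_ne_top ENNReal.ofReal_ne_top (ms_fin k t hp hgood X hX3)
  have fZ : msE k t Z ≠ ⊤ := ne_top_of_le_ne_top ENNReal.ofReal_ne_top (ms_fin k t hp hgood Z hZ3)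
  rw [e2] at e1
  have fR : ENNReal.ofReal c1 * msE k t X + ENNReal.ofReal c2 * msE k t Z ≠ ⊤ :=
    ENNReal.add_ne_top.2 ⟨ENNReal.mul_ne_top ENNReal.ofReal_ne_top fX,
      ENNReal.mul_ne_top ENNReal.ofReal_ne_top fZ⟩
  have e3 := ENNReal.toReal_mono fR e1
  rw [ENNReal.toReal_add (ENNReal.mul_ne_top ENNReal.ofReal_ne_top fX)
    (ENNReal.mul_ne_top ENNReal.ofReal_ne_top fZ), ENNReal.toReal_mul, ENNReal.toReal_mul,
    ENNReal.toReal_ofReal hc1, ENNReal.toReal_ofReal hc2] at e3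
  exact e3

theorem ms_jensen0 {Ω : Type*} [MeasurableSpace Ω] (μ : Measure Ω) [IsProbabilityMeasure μ]
    (f : Ω → ℝ) (hf : Measurable f) (hf0 : ∀ z, 0 ≤ f z) (q : ℝ) (hq : 2 ≤ q) (hq3 : q ≤ 3) :
    ∫⁻ z, ENNReal.ofReal (f z ^ (q / 2)) ∂μ ≤
      (∫⁻ z, ENNReal.ofReal (f z ^ (3 / 2 : ℝ)) ∂μ) ^ (q / 3) := by
  have key := eLpNorm'_le_eLpNorm'_of_exponent_le (μ := μ)
    (f := f) (p := q / 2) (q := 3 / 2) (by linarith) (by linarith) hf.aestronglyMeasurable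
  have hconv : ∀ r : ℝ, 0 ≤ r → ∫⁻ z, ‖f z‖ₑ ^ r ∂μ = ∫⁻ z, ENNReal.ofReal (f z ^ r) ∂μ := by
    intro r hr
    apply lintegral_congr
    intro z
    rw [Real.enorm_of_nonneg (hf0 _), ENNReal.ofReal_rpow_of_nonneg (hf0 _) hr]
  unfold eLpNorm' at key
  rw [hconv (q / 2) (by linarith), hconv (3 / 2) (by norm_num)] at key
  have k2 := ENNReal.rpow_le_rpow key (show (0:ℝ) ≤ q / 2 by linarith)
  rw [← ENNReal.rpow_mul, ← ENNReal.rpow_mul] at k2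
  have e1 : 1 / (q / 2) * (q / 2) = 1 := by
    have : q / 2 ≠ 0 := by linarith
    field_simp
  have e2 : 1 / (3 / 2 : ℝ) * (q / 2) = q / 3 := by ring
  rw [e1, e2, ENNReal.rpow_one] at k2
  exact k2

theorem ms_jensen {n : ℕ} (k : Fin n) (t : ℕ) (hp : IsProbabilityMeasure (avgLaw n t))
    (q : ℝ) (hq : 2 ≤ q) (hq3 : q ≤ 3)
    (hfin : msE k t (fun A => (∑ i, A i ^ 2) ^ (3 / 2 : ℝ)) ≠ ⊤) :
    (msE k t (fun A => (∑ i, A i ^ 2) ^ (q / 2))).toReal ≤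
      (msE k t (fun A => (∑ i, A i ^ 2) ^ (3 / 2 : ℝ))).toReal ^ (q / 3) := by
  haveI := ms_gam_prob n
  have hm : ∀ r : ℝ, Measurable (fun A : Fin n → ℝ => (∑ i, A i ^ 2) ^ r) := by
    intro r
    exact Measurable.pow_const (by fun_prop) r
  have hmY : Measurable (fun z : (Fin n → Fin n → ℝ) × (Fin n → ℝ) => ∑ i, (Dv k z.1 z.2) i ^ 2) := by
    have := ms_meas k
    have h2 : Measurable (fun A : Fin n → ℝ => ∑ i, A i ^ 2) := by fun_prop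
    exact h2.comp this
  have k2 : msE k t (fun A => (∑ i, A i ^ 2) ^ (q / 2)) ≤
      (msE k t (fun A => (∑ i, A i ^ 2) ^ (3 / 2 : ℝ))) ^ (q / 3) := by
    rw [ms_prod k t hp (fun A => (∑ i, A i ^ 2) ^ (q / 2)) (hm _),
      ms_prod k t hp (fun A => (∑ i, A i ^ 2) ^ (3 / 2 : ℝ)) (hm _)]
    exact ms_jensen0 ((avgLaw n t).prod (gam n)) _ hmY
      (fun z => Finset.sum_nonneg fun i _ => sq_nonneg _) q hq hq3
  have k3 := ENNReal.toReal_mono (ENNReal.rpow_ne_top_of_nonneg (by linarith) hfin) k2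
  rw [← ENNReal.toReal_rpow] at k3
  exact k3

theorem moment_seq (n : ℕ) (hn : 2 ≤ n) (k : Fin n) (q : ℝ) (hq : 2 ≤ q) (hq3 : q ≤ 3)
    (hmq0 : 0 ≤ mom q) (hmq : mom q ≤ 3 / 8) (hm3 : mom 3 = 5 / 16)
    (hprob : ∀ t, IsProbabilityMeasure (avgLaw n t))
    (hgood : ∀ t, ∀ᵐ M ∂(avgLaw n t), (∀ i k, 0 ≤ M i k) ∧ ∀ k, 0 < ∑ i, M i k)
    (hmain : ∀ (t : ℕ) (g : (Fin n → ℝ) → ℝ≥0∞), Measurable g →
      ∫⁻ M, ∫⁻ w, g (Dv k M w) ∂(gam n) ∂(avgLaw n (t + 1)) =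
      ∫⁻ M, ∫⁻ w, Qop n g (Dv k M w) ∂(gam n) ∂(avgLaw n t))
    (h1 : ∀ A : Fin n → ℝ, ∑ k, A k = 0 → Qop n (fun B => ENNReal.ofReal (∑ k, B k ^ 2)) A ≤
      ENNReal.ofReal ((1 - 1 / (2 * n)) * ∑ k, A k ^ 2))
    (h2 : ∀ A : Fin n → ℝ, ∑ k, A k = 0 →
      Qop n (fun B => ENNReal.ofReal ((∑ k, B k ^ 2) ^ (3 / 2 : ℝ))) A ≤
      ENNReal.ofReal ((1 - 3 / (4 * n)) * (∑ k, A k ^ 2) ^ (3 / 2 : ℝ) +
        20 / n * ∑ k, |A k| ^ (3 : ℝ)))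
    (h3 : ∀ r : ℝ, (r = q ∨ r = 3) → ∀ A : Fin n → ℝ, ∑ k, A k = 0 →
      Qop n (fun B => ENNReal.ofReal (∑ k, |B k| ^ r)) A ≤
      ENNReal.ofReal ((1 - 2 * (1 - 2 * mom r) / n) * ∑ k, |A k| ^ r +
        20 / n * (n : ℝ) ^ (1 - r / 2) * (∑ k, A k ^ 2) ^ (r / 2))) :
    ∃ y u v a : ℕ → ℝ, (∀ t, 0 ≤ y t ∧ 0 ≤ u t ∧ 0 ≤ v t ∧ 0 ≤ a t) ∧
      (y 0 ≤ 10 ∧ u 0 ≤ 10 ∧ v 0 ≤ 10 ∧ a 0 ≤ 10) ∧
      (∀ t, y (t + 1) ≤ (1 - 1 / (2 * n)) * y t) ∧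
      (∀ t, u (t + 1) ≤ (1 - 3 / (4 * n)) * u t + 20 / n * (n : ℝ) ^ (-(1 / 2) : ℝ) * v t) ∧
      (∀ t, v (t + 1) ≤ (1 - 3 / (4 * n)) * v t + 20 / n * u t) ∧
      (∀ t, a (t + 1) ≤ (1 - 2 * (1 - 2 * mom q) / n) * a t +
        20 / n * (n : ℝ) ^ (1 - q / 2) * v t ^ (q / 3)) ∧
      (∀ t, ∫⁻ M, ∫⁻ w, ENNReal.ofReal (∑ i, Dv k M w i ^ 2) ∂(gam n) ∂(avgLaw n t) =
        ENNReal.ofReal (y t)) ∧
      (∀ t, ∫⁻ M, ∫⁻ w, ENNReal.ofReal ((∑ i, Dv k M w i ^ 2) ^ (3 / 2 : ℝ)) ∂(gam n)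
        ∂(avgLaw n t) = ENNReal.ofReal (v t)) ∧
      (∀ t, ∫⁻ M, ∫⁻ w, ENNReal.ofReal (∑ i, |Dv k M w i| ^ q) ∂(gam n) ∂(avgLaw n t) =
        ENNReal.ofReal (a t)) := by
  haveI := ms_gam_prob n
  have hn0 : (0:ℝ) < n := by
    have : (2:ℝ) ≤ n := by exact_mod_cast hn
    linarith
  have hn2 : (2:ℝ) ≤ n := by exact_mod_cast hn
  have hY0 : ∀ A : Fin n → ℝ, 0 ≤ ∑ i, A i ^ 2 := fun A => Finset.sum_nonneg fun i _ => sq_nonneg _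
  have mY : Measurable (fun A : Fin n → ℝ => ∑ i, A i ^ 2) := by fun_prop
  have mP : ∀ r : ℝ, Measurable (fun A : Fin n → ℝ => (∑ i, A i ^ 2) ^ r) := by
    intro r
    exact Measurable.pow_const mY r
  have mU : ∀ r : ℝ, Measurable (fun A : Fin n → ℝ => ∑ i, |A i| ^ r) := by
    intro r
    apply Finset.measurable_sum
    intro i _
    exact Measurable.pow_const (continuous_abs.measurable.comp
      (measurable_pi_apply i : Measurable (fun A : Fin n → ℝ => A i))) r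
  have bY : ∀ A : Fin n → ℝ, (∀ i, |A i| ≤ 1) → ∑ i, |A i| ≤ 2 → ∑ i, A i ^ 2 ≤ 3 :=
    fun A h1 h2 => (ms_bounds A h1 h2).1
  have bV : ∀ A : Fin n → ℝ, (∀ i, |A i| ≤ 1) → ∑ i, |A i| ≤ 2 → (∑ i, A i ^ 2) ^ (3 / 2 : ℝ) ≤ 3 :=
    fun A h1 h2 => (ms_bounds A h1 h2).2.1
  have bU : ∀ r : ℝ, 1 ≤ r → ∀ A : Fin n → ℝ, (∀ i, |A i| ≤ 1) → ∑ i, |A i| ≤ 2 →
      ∑ i, |A i| ^ r ≤ 3 := fun r hr A h1 h2 => (ms_bounds A h1 h2).2.2.1 r hr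
  have bZ : ∀ A : Fin n → ℝ, (∀ i, |A i| ≤ 1) → ∑ i, |A i| ≤ 2 → (∑ i, A i ^ 2) ^ (q / 2) ≤ 3 :=
    fun A h1 h2 => (ms_bounds A h1 h2).2.2.2 (q / 2) (by linarith) (by linarith)
  have U0 : ∀ r : ℝ, ∀ A : Fin n → ℝ, 0 ≤ ∑ i, |A i| ^ r := fun r A =>
    Finset.sum_nonneg fun i _ => Real.rpow_nonneg (abs_nonneg _) _
  have P0 : ∀ r : ℝ, ∀ A : Fin n → ℝ, 0 ≤ (∑ i, A i ^ 2) ^ r := fun r A =>
    Real.rpow_nonneg (hY0 A) _
  have fin : ∀ (t : ℕ) (g : (Fin n → ℝ) → ℝ),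
      (∀ A : Fin n → ℝ, (∀ i, |A i| ≤ 1) → ∑ i, |A i| ≤ 2 → g A ≤ 3) → msE k t g ≠ ⊤ :=
    fun t g hg => ne_top_of_le_ne_top ENNReal.ofReal_ne_top (ms_fin k t (hprob t) (hgood t) g hg)
  have le10 : ∀ (g : (Fin n → ℝ) → ℝ),
      (∀ A : Fin n → ℝ, (∀ i, |A i| ≤ 1) → ∑ i, |A i| ≤ 2 → g A ≤ 3) → (msE k 0 g).toReal ≤ 10 := by
    intro g hg
    have h := ms_fin k 0 (hprob 0) (hgood 0) g hg
    have h2 := ENNReal.toReal_mono ENNReal.ofReal_ne_top h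
    rw [ENNReal.toReal_ofReal (by norm_num)] at h2
    linarith
  refine ⟨fun t => (msE k t (fun A => ∑ i, A i ^ 2)).toReal,
    fun t => (msE k t (fun A => ∑ i, |A i| ^ (3:ℝ))).toReal,
    fun t => (msE k t (fun A => (∑ i, A i ^ 2) ^ (3 / 2 : ℝ))).toReal,
    fun t => (msE k t (fun A => ∑ i, |A i| ^ q)).toReal,
    fun t => ⟨ENNReal.toReal_nonneg, ENNReal.toReal_nonneg, ENNReal.toReal_nonneg,
      ENNReal.toReal_nonneg⟩,
    ⟨le10 _ bY, le10 _ (bU 3 (by norm_num)), le10 _ bV, le10 _ (bU q (by linarith))⟩,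
    ?_, ?_, ?_, ?_, ?_, ?_, ?_⟩
  · intro t
    have hc : (0:ℝ) ≤ 1 - 1 / (2 * n) := by
      have : 1 / (2 * (n:ℝ)) ≤ 1 := by
        rw [div_le_one (by linarith)]
        linarith
      linarith
    have := ms_step k t (hprob t) (hgood t) (hprob (t + 1)) (hgood (t + 1))
      (fun A => ∑ i, A i ^ 2) (fun A => ∑ i, A i ^ 2) (fun A => ∑ i, A i ^ 2) mY mY mY hY0 hY0 bY bY
      (1 - 1 / (2 * n)) 0 hc le_rfl
      (hmain t (fun B => ENNReal.ofReal (∑ k, B k ^ 2)) (ENNReal.measurable_ofReal.comp mY))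
      (fun A hA => by simpa using h1 A hA)
    simpa using this
  · intro t
    have hc : (0:ℝ) ≤ 1 - 3 / (4 * n) := by
      have : 3 / (4 * (n:ℝ)) ≤ 1 := by
        rw [div_le_one (by linarith)]
        linarith
      linarith
    have hc2 : (0:ℝ) ≤ 20 / n * (n : ℝ) ^ (-(1 / 2) : ℝ) := by positivity
    have := ms_step k t (hprob t) (hgood t) (hprob (t + 1)) (hgood (t + 1))
      (fun A => ∑ i, |A i| ^ (3:ℝ)) (fun A => ∑ i, |A i| ^ (3:ℝ))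
      (fun A => (∑ i, A i ^ 2) ^ (3 / 2 : ℝ)) (mU 3) (mU 3) (mP (3 / 2)) (U0 3) (P0 (3 / 2))
      (bU 3 (by norm_num)) bV
      (1 - 3 / (4 * n)) (20 / n * (n : ℝ) ^ (-(1 / 2) : ℝ)) hc hc2
      (hmain t (fun B => ENNReal.ofReal (∑ k, |B k| ^ (3:ℝ))) (ENNReal.measurable_ofReal.comp (mU 3)))
      (fun A hA => by
        have h := h3 3 (Or.inr rfl) A hA
        rw [hm3] at h
        have e1 : (1 : ℝ) - 2 * (1 - 2 * (5 / 16)) / n = 1 - 3 / (4 * n) := by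
          field_simp; ring
        have e2 : (1 : ℝ) - 3 / 2 = -(1 / 2) := by norm_num
        rw [e1, e2] at h
        exact h)
    exact this
  · intro t
    have hc : (0:ℝ) ≤ 1 - 3 / (4 * n) := by
      have : 3 / (4 * (n:ℝ)) ≤ 1 := by
        rw [div_le_one (by linarith)]
        linarith
      linarith
    have hc2 : (0:ℝ) ≤ 20 / n := by positivity
    exact ms_step k t (hprob t) (hgood t) (hprob (t + 1)) (hgood (t + 1))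
      (fun A => (∑ i, A i ^ 2) ^ (3 / 2 : ℝ)) (fun A => (∑ i, A i ^ 2) ^ (3 / 2 : ℝ))
      (fun A => ∑ i, |A i| ^ (3:ℝ)) (mP (3 / 2)) (mP (3 / 2)) (mU 3) (P0 (3 / 2)) (U0 3)
      bV (bU 3 (by norm_num))
      (1 - 3 / (4 * n)) (20 / n) hc hc2
      (hmain t (fun B => ENNReal.ofReal ((∑ k, B k ^ 2) ^ (3 / 2 : ℝ)))
        (ENNReal.measurable_ofReal.comp (mP (3 / 2))))
      h2
  · intro t
    have hc : (0:ℝ) ≤ 1 - 2 * (1 - 2 * mom q) / n := by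
      have : 2 * (1 - 2 * mom q) / (n:ℝ) ≤ 1 := by
        rw [div_le_one hn0]
        linarith
      linarith
    have hc2 : (0:ℝ) ≤ 20 / n * (n : ℝ) ^ (1 - q / 2) := by positivity
    have st := ms_step k t (hprob t) (hgood t) (hprob (t + 1)) (hgood (t + 1))
      (fun A => ∑ i, |A i| ^ q) (fun A => ∑ i, |A i| ^ q)
      (fun A => (∑ i, A i ^ 2) ^ (q / 2)) (mU q) (mU q) (mP (q / 2)) (U0 q) (P0 (q / 2))
      (bU q (by linarith)) bZ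
      (1 - 2 * (1 - 2 * mom q) / n) (20 / n * (n : ℝ) ^ (1 - q / 2)) hc hc2
      (hmain t (fun B => ENNReal.ofReal (∑ k, |B k| ^ q)) (ENNReal.measurable_ofReal.comp (mU q)))
      (h3 q (Or.inl rfl))
    have je := ms_jensen k t (hprob t) q hq hq3 (fin t _ bV)
    have := mul_le_mul_of_nonneg_left je hc2
    linarith
  · intro t
    exact (ENNReal.ofReal_toReal (fin t _ bY)).symm
  · intro t
    exact (ENNReal.ofReal_toReal (fin t _ bV)).symm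
  · intro t
    exact (ENNReal.ofReal_toReal (fin t _ (bU q (by linarith)))).symm

end Pool.Agent.H494.Kac
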