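import Pool.Agent.H494.Kac.Defs2

open MeasureTheory Filter Topology
open scoped ENNReal

namespace Pool.Agent.H494.Kac
theorem perm_pt_minor {m : ℕ} (A : Fin (m + 1) → Fin (m + 1) → ℝ) (i j : Fin (m + 1)) :
    ∑ a : Fin m, ∑ b : Fin m, A (i.succAbove a) (j.succAbove b)
      = (∑ k, ∑ l, A k l) - (∑ l, A i l) - (∑ k, A k j) + A i j := by
  have h1 : ∀ k, ∑ l, A k l = A k j + ∑ b, A k (j.succAbove b) :=
    fun k => Fin.sum_univ_succAbove _ j
  have h2 : ∑ k, ∑ l, A k l = ∑ l, A i l + ∑ a, ∑ l, A (i.succAbove a) l :=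
    Fin.sum_univ_succAbove _ i
  have h3 : ∑ k, A k j = A i j + ∑ a, A (i.succAbove a) j := Fin.sum_univ_succAbove _ i
  have h4 : ∑ a, ∑ l, A (i.succAbove a) l
      = ∑ a, A (i.succAbove a) j + ∑ a, ∑ b, A (i.succAbove a) (j.succAbove b) := by
    rw [← Finset.sum_add_distrib]
    exact Finset.sum_congr rfl fun a _ => h1 _
  linarith

theorem perm_pt_sum2 {m : ℕ} (a : ℝ) (f g : Fin (m + 1) → ℝ) (h : Fin (m + 1) → Fin (m + 1) → ℝ) :
    ∑ i, ∑ j, (a + f i + g j + h i j) = ((m : ℝ) + 1) ^ 2 * a + ((m : ℝ) + 1) * ∑ i, f i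
      + ((m : ℝ) + 1) * ∑ j, g j + ∑ i, ∑ j, h i j := by
  simp only [Finset.sum_add_distrib, Finset.sum_const, Finset.card_univ, Fintype.card_fin,
    nsmul_eq_mul, Nat.cast_add, Nat.cast_one]
  rw [← Finset.mul_sum]
  ring

/-- deviation of the exponent -/
noncomputable def perm_pt_F {m : ℕ} (A : Fin (m + 1) → Fin (m + 1) → ℝ) (i j : Fin (m + 1)) : ℝ :=
  ((∑ k, ∑ l, A k l) / ((m : ℝ) + 1) - (∑ l, A i l) - (∑ k, A k j) + A i j) / m

theorem perm_pt_exp {m : ℕ} (hm : 0 < m) (A : Fin (m + 1) → Fin (m + 1) → ℝ)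
    (i j : Fin (m + 1)) :
    (∑ a : Fin m, ∑ b : Fin m, A (i.succAbove a) (j.succAbove b)) / m
      = (∑ k, ∑ l, A k l) / ((m : ℝ) + 1) + perm_pt_F A i j := by
  have h0 : (m : ℝ) ≠ 0 := by positivity
  have h1 : (m : ℝ) + 1 ≠ 0 := by positivity
  rw [perm_pt_minor, perm_pt_F]
  field_simp
  ring

theorem perm_pt_sumF {m : ℕ} (hm : 0 < m) (A : Fin (m + 1) → Fin (m + 1) → ℝ) :
    ∑ i, ∑ j, perm_pt_F A i j = -∑ k, ∑ l, A k l := by
  have h0 : (m : ℝ) ≠ 0 := by positivity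
  have h1 : (m : ℝ) + 1 ≠ 0 := by positivity
  set S := ∑ k, ∑ l, A k l with hS
  have e : ∀ i j, perm_pt_F A i j = S / ((m : ℝ) + 1) / m + (-(∑ l, A i l) / m)
      + (-(∑ k, A k j) / m) + (A i j / m) := by
    intro i j
    rw [perm_pt_F]
    ring
  simp only [e]
  rw [perm_pt_sum2]
  have e2 : ∑ i, -(∑ l, A i l) / (m : ℝ) = -S / m := by
    rw [← Finset.sum_div, Finset.sum_neg_distrib]
  have e3 : ∑ j, -(∑ k, A k j) / (m : ℝ) = -S / m := by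
    rw [← Finset.sum_div, Finset.sum_neg_distrib, Finset.sum_comm]
  have e4 : ∑ i, ∑ j, A i j / (m : ℝ) = S / m := by
    rw [hS, Finset.sum_div]
    exact Finset.sum_congr rfl fun i _ => (Finset.sum_div _ _ _).symm
  rw [e2, e3, e4]
  field_simp
  ring

theorem perm_pt_row {m : ℕ} (A : Fin (m + 1) → ℝ) (c : ℝ) (h : ∀ i, |A i| ≤ c) :
    |∑ i, A i| ≤ ((m : ℝ) + 1) * c := by
  refine (Finset.abs_sum_le_sum_abs _ _).trans ?_
  refine (Finset.sum_le_sum fun i _ => h i).trans ?_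
  rw [Finset.sum_const, Finset.card_univ, Fintype.card_fin, nsmul_eq_mul]
  push_cast
  exact le_rfl

theorem perm_pt_cs {m : ℕ} (A : Fin (m + 1) → ℝ) :
    (∑ i, A i) ^ 2 ≤ ((m : ℝ) + 1) * ∑ i, A i ^ 2 := by
  have h := sq_sum_le_card_mul_sum_sq (s := (Finset.univ : Finset (Fin (m + 1)))) (f := A)
  rw [Finset.card_univ, Fintype.card_fin] at h
  push_cast at h
  exact h

theorem perm_pt_F2 {m : ℕ} (hm : 0 < m) (A : Fin (m + 1) → Fin (m + 1) → ℝ) :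
    ∑ i, ∑ j, perm_pt_F A i j ^ 2 ≤ 52 * ∑ k, ∑ l, A k l ^ 2 := by
  have hm1 : (1 : ℝ) ≤ m := by exact_mod_cast hm
  set S := ∑ k, ∑ l, A k l with hS
  set Q := ∑ k, ∑ l, A k l ^ 2 with hQ
  have hQ0 : 0 ≤ Q := Finset.sum_nonneg fun i _ => Finset.sum_nonneg fun j _ => sq_nonneg _
  set N : ℝ := (m : ℝ) + 1 with hN
  have hN0 : 0 < N := by rw [hN]; linarith
  have hR : ∑ i, (∑ l, A i l) ^ 2 ≤ N * Q := by
    rw [hQ, Finset.mul_sum]
    exact Finset.sum_le_sum fun i _ => perm_pt_cs _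
  have hC : ∑ j, (∑ k, A k j) ^ 2 ≤ N * Q := by
    rw [hQ, Finset.sum_comm, Finset.mul_sum]
    exact Finset.sum_le_sum fun i _ => perm_pt_cs _
  have hSS : S ^ 2 ≤ N * (N * Q) := by
    refine (perm_pt_cs (fun i => ∑ l, A i l)).trans ?_
    exact mul_le_mul_of_nonneg_left hR hN0.le
  have hpt : ∀ i j, perm_pt_F A i j ^ 2 ≤ 4 * (S / N) ^ 2 / m ^ 2 + 4 * (∑ l, A i l) ^ 2 / m ^ 2
      + 4 * (∑ k, A k j) ^ 2 / m ^ 2 + 4 * A i j ^ 2 / m ^ 2 := by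
    intro i j
    rw [perm_pt_F, div_pow, ← add_div, ← add_div, ← add_div]
    refine div_le_div_of_nonneg_right ?_ (sq_nonneg _)
    rw [← hS, ← hN]
    nlinarith [sq_nonneg (S / N + ∑ l, A i l), sq_nonneg (S / N + ∑ k, A k j),
      sq_nonneg (S / N - A i j), sq_nonneg ((∑ l, A i l) - ∑ k, A k j),
      sq_nonneg ((∑ l, A i l) + A i j), sq_nonneg ((∑ k, A k j) + A i j)]
  have h1 : ∑ i, ∑ j, perm_pt_F A i j ^ 2 ≤ ∑ i, ∑ j, (4 * (S / N) ^ 2 / m ^ 2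
      + 4 * (∑ l, A i l) ^ 2 / m ^ 2 + 4 * (∑ k, A k j) ^ 2 / m ^ 2 + 4 * A i j ^ 2 / m ^ 2) :=
    Finset.sum_le_sum fun i _ => Finset.sum_le_sum fun j _ => hpt i j
  rw [perm_pt_sum2] at h1
  have e2 : ∑ i, 4 * (∑ l, A i l) ^ 2 / (m : ℝ) ^ 2 = 4 / m ^ 2 * ∑ i, (∑ l, A i l) ^ 2 := by
    rw [Finset.mul_sum]
    exact Finset.sum_congr rfl fun i _ => by ring
  have e3 : ∑ j, 4 * (∑ k, A k j) ^ 2 / (m : ℝ) ^ 2 = 4 / m ^ 2 * ∑ j, (∑ k, A k j) ^ 2 := by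
    rw [Finset.mul_sum]
    exact Finset.sum_congr rfl fun i _ => by ring
  have e4 : ∑ i, ∑ j, 4 * A i j ^ 2 / (m : ℝ) ^ 2 = 4 / m ^ 2 * Q := by
    rw [hQ, Finset.mul_sum]
    refine Finset.sum_congr rfl fun i _ => ?_
    rw [Finset.mul_sum]
    exact Finset.sum_congr rfl fun i _ => by ring
  rw [e2, e3, e4, ← hN] at h1
  refine h1.trans ?_
  have hc : (0 : ℝ) < 4 / m ^ 2 := by positivity
  have e5 : N ^ 2 * (4 * (S / N) ^ 2 / (m : ℝ) ^ 2) = 4 / m ^ 2 * S ^ 2 := by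
    field_simp
  rw [e5]
  have h2 : 4 / (m : ℝ) ^ 2 * S ^ 2 ≤ 4 / m ^ 2 * (N * (N * Q)) :=
    mul_le_mul_of_nonneg_left hSS hc.le
  have h3 : N * (4 / (m : ℝ) ^ 2 * ∑ i, (∑ l, A i l) ^ 2) ≤ 4 / m ^ 2 * (N * (N * Q)) := by
    have := mul_le_mul_of_nonneg_left hR (mul_pos hc hN0).le
    linarith
  have h4 : N * (4 / (m : ℝ) ^ 2 * ∑ j, (∑ k, A k j) ^ 2) ≤ 4 / m ^ 2 * (N * (N * Q)) := by
    have := mul_le_mul_of_nonneg_left hC (mul_pos hc hN0).le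
    linarith
  have h5 : 4 / (m : ℝ) ^ 2 * (N * (N * Q)) ≤ 16 * Q := by
    have h6 : N ^ 2 ≤ 4 * m ^ 2 := by rw [hN]; nlinarith
    have h7 : 4 / (m : ℝ) ^ 2 * (N * (N * Q)) = (4 * (N ^ 2 * Q)) / m ^ 2 := by ring
    rw [h7, div_le_iff₀ (by positivity)]
    have := mul_le_mul_of_nonneg_right h6 hQ0
    linarith
  have h8 : 4 / (m : ℝ) ^ 2 * Q ≤ 4 * Q := by
    have h9 : 4 / (m : ℝ) ^ 2 ≤ 4 := by
      rw [div_le_iff₀ (by positivity)]
      nlinarith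
    exact mul_le_mul_of_nonneg_right h9 hQ0
  linarith

theorem perm_pt_Fabs {m : ℕ} (hm : 0 < m) (A : Fin (m + 1) → Fin (m + 1) → ℝ) (c : ℝ)
    (hA : ∀ i j, |A i j| ≤ c) (i j : Fin (m + 1)) : |perm_pt_F A i j| ≤ 7 * c := by
  have hm1 : (1 : ℝ) ≤ m := by exact_mod_cast hm
  have hc : 0 ≤ c := (abs_nonneg _).trans (hA i j)
  have hR := abs_le.1 (perm_pt_row (fun l => A i l) c (fun l => hA i l))
  have hC := abs_le.1 (perm_pt_row (fun k => A k j) c (fun k => hA k j))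
  have hS := abs_le.1 (perm_pt_row (fun k => ∑ l, A k l) (((m : ℝ) + 1) * c)
    (fun k => perm_pt_row (fun l => A k l) c (fun l => hA k l)))
  have hE := abs_le.1 (hA i j)
  set S := ∑ k, ∑ l, A k l with hSd
  have hN0 : (0 : ℝ) < (m : ℝ) + 1 := by linarith
  have hS1 : S / ((m : ℝ) + 1) ≤ ((m : ℝ) + 1) * c := by
    rw [div_le_iff₀ hN0]; linarith [hS.2]
  have hS2 : -(((m : ℝ) + 1) * c) ≤ S / ((m : ℝ) + 1) := by
    rw [le_div_iff₀ hN0]; linarith [hS.1]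
  rw [perm_pt_F, abs_div, abs_of_nonneg (by linarith : (0 : ℝ) ≤ m), div_le_iff₀ (by linarith)]
  have hcm : c ≤ c * m := by nlinarith
  rw [← hSd, abs_le]
  constructor
  · linarith [hR.2, hC.2, hE.1]
  · linarith [hR.1, hC.1, hE.2]

theorem perm_pt_Gsq {m : ℕ} (hm : 0 < m) (A : Fin (m + 1) → Fin (m + 1) → ℝ) (c : ℝ)
    (hA : ∀ i j, 0 ≤ A i j) (hA' : ∀ i j, A i j ≤ c) :
    ∑ i, ∑ j, perm_pt_F A i j ^ 2 ≤ 52 * (c * ∑ k, ∑ l, A k l) := by
  refine (perm_pt_F2 hm A).trans ?_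
  refine mul_le_mul_of_nonneg_left ?_ (by norm_num)
  rw [Finset.mul_sum]
  refine Finset.sum_le_sum fun i _ => ?_
  rw [Finset.mul_sum]
  refine Finset.sum_le_sum fun j _ => ?_
  rw [pow_two]
  exact mul_le_mul_of_nonneg_right (hA' i j) (hA i j)

theorem perm_pt_scal (E x : ℝ) (hE : |E| ≤ 1 / 1000) (hx : |x| ≤ 1) :
    (1 + E) * Real.exp x ≤ 1 + E + x + E ^ 2 / 2 + 1501 / 1000 * x ^ 2 := by
  have h1 := Real.abs_exp_sub_one_sub_id_le hx
  have h2 := (abs_le.1 h1).2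
  have h3 := abs_le.1 hE
  have h4 : (1 + E) * Real.exp x ≤ (1 + E) * (1 + x + x ^ 2) :=
    mul_le_mul_of_nonneg_left (by linarith) (by linarith [h3.1])
  nlinarith [sq_nonneg (E - x), sq_nonneg x, h3.2]

theorem perm_pt (m : ℕ) (ε : Fin (m + 1) → Fin (m + 1) → ℝ) (hb : ∀ i j, |ε i j| ≤ 1 / 1000) :
    ∑ i, ∑ j, (1 + ε i j) * Real.exp ((∑ a : Fin m, ∑ b : Fin m, ε (i.succAbove a) (j.succAbove b)) / m +
        300 * (∑ a : Fin m, ∑ b : Fin m, ε (i.succAbove a) (j.succAbove b) ^ 2) / m) ≤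
      ((m : ℝ) + 1) ^ 2 * Real.exp ((∑ i, ∑ j, ε i j) / (m + 1) +
        300 * (∑ i, ∑ j, ε i j ^ 2) / (m + 1)) := by
  rcases Nat.eq_zero_or_pos m with rfl | hm
  · have h := Real.add_one_le_exp (ε 0 0 + 300 * ε 0 0 ^ 2)
    simp
    nlinarith [sq_nonneg (ε 0 0)]
  · set S := ∑ i, ∑ j, ε i j with hS
    set Q := ∑ i, ∑ j, ε i j ^ 2 with hQ
    have hQ0 : 0 ≤ Q := Finset.sum_nonneg fun i _ => Finset.sum_nonneg fun j _ => sq_nonneg _
    set e : ℝ := S / (m + 1) + 300 * Q / (m + 1) with he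
    have hexp : ∀ i j, (∑ a : Fin m, ∑ b : Fin m, ε (i.succAbove a) (j.succAbove b)) / (m : ℝ) +
        300 * (∑ a : Fin m, ∑ b : Fin m, ε (i.succAbove a) (j.succAbove b) ^ 2) / m
        = e + (perm_pt_F ε i j + 300 * perm_pt_F (fun i j => ε i j ^ 2) i j) := by
      intro i j
      have a1 := perm_pt_exp hm ε i j
      have a2 := perm_pt_exp hm (fun i j => ε i j ^ 2) i j
      rw [mul_div_assoc, a1]
      rw [a2, he]
      ring
    simp only [hexp, Real.exp_add e]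
    have hpull : ∑ i, ∑ j, (1 + ε i j) * (Real.exp e * Real.exp (perm_pt_F ε i j
        + 300 * perm_pt_F (fun i j => ε i j ^ 2) i j))
        = (∑ i, ∑ j, (1 + ε i j) * Real.exp (perm_pt_F ε i j
          + 300 * perm_pt_F (fun i j => ε i j ^ 2) i j)) * Real.exp e := by
      rw [Finset.sum_mul]
      refine Finset.sum_congr rfl fun i _ => ?_
      rw [Finset.sum_mul]
      refine Finset.sum_congr rfl fun j _ => ?_
      ring
    rw [hpull]
    refine mul_le_mul_of_nonneg_right ?_ (Real.exp_pos e).le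
    have hsq : ∀ i j, |ε i j ^ 2| ≤ 1 / 1000000 := by
      intro i j
      rw [abs_pow]
      have := pow_le_pow_left₀ (abs_nonneg _) (hb i j) 2
      linarith
    have hx : ∀ i j, |perm_pt_F ε i j + 300 * perm_pt_F (fun i j => ε i j ^ 2) i j| ≤ 1 := by
      intro i j
      have a1 := perm_pt_Fabs hm ε _ hb i j
      have a2 := perm_pt_Fabs hm (fun i j => ε i j ^ 2) _ hsq i j
      refine (abs_add_le _ _).trans ?_
      rw [abs_mul, abs_of_pos (by norm_num : (0 : ℝ) < 300)]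
      linarith
    have hpt : ∀ i j, (1 + ε i j) * Real.exp (perm_pt_F ε i j
        + 300 * perm_pt_F (fun i j => ε i j ^ 2) i j)
        ≤ 1 + (ε i j + perm_pt_F ε i j + 300 * perm_pt_F (fun i j => ε i j ^ 2) i j
          + ε i j ^ 2 / 2 + 1501 / 500 * perm_pt_F ε i j ^ 2
          + 1501 / 500 * 90000 * perm_pt_F (fun i j => ε i j ^ 2) i j ^ 2) := by
      intro i j
      refine (perm_pt_scal _ _ (hb i j) (hx i j)).trans ?_
      nlinarith [sq_nonneg (perm_pt_F ε i j - 300 * perm_pt_F (fun i j => ε i j ^ 2) i j)]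
    refine (Finset.sum_le_sum fun i _ => Finset.sum_le_sum fun j _ => hpt i j).trans ?_
    simp only [Finset.sum_add_distrib, ← Finset.mul_sum, ← Finset.sum_div]
    have b1 := perm_pt_sumF hm ε
    have b2 := perm_pt_sumF hm (fun i j => ε i j ^ 2)
    have b3 := perm_pt_F2 hm ε
    have b4 := perm_pt_Gsq hm (fun i j => ε i j ^ 2) (1 / 1000000) (fun i j => sq_nonneg _)
      (fun i j => (le_abs_self _).trans (hsq i j))
    rw [← hS] at b1
    rw [← hQ] at b2 b3 b4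
    rw [b1, b2, ← hS, ← hQ]
    simp only [Finset.sum_const, Finset.card_univ, Fintype.card_fin, nsmul_eq_mul, Nat.cast_add,
      Nat.cast_one, mul_one]
    nlinarith [b3, b4, hQ0]

end Pool.Agent.H494.Kac
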