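import Pool.Agent.H494.Kac.Defs2

open MeasureTheory Filter Topology
open scoped ENNReal

namespace Pool.Agent.H494.Kac
lemma pol_alg_sum {n : ℕ} (f g : Fin n → ℝ) (i j : Fin n) (hij : i ≠ j) (h1 : f i + f j = g i + g j)
    (h2 : ∀ k, k ≠ i → k ≠ j → f k = g k) : ∑ k, f k = ∑ k, g k := by
  have hs : ∀ f : Fin n → ℝ, ∑ k, f k = f i + (f j + ∑ k ∈ (Finset.univ.erase i).erase j, f k) := by
    intro f
    rw [Finset.add_sum_erase _ f (Finset.mem_erase.2 ⟨hij.symm, Finset.mem_univ j⟩),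
      Finset.add_sum_erase _ f (Finset.mem_univ i)]
  rw [hs f, hs g]
  have : ∑ k ∈ (Finset.univ.erase i).erase j, f k = ∑ k ∈ (Finset.univ.erase i).erase j, g k := by
    refine Finset.sum_congr rfl fun k hk => ?_
    rw [Finset.mem_erase, Finset.mem_erase] at hk
    exact h2 k hk.2.1 hk.1
  rw [this]
  linarith

theorem pol_alg (n : ℕ) (x : Fin n → ℝ) (M : Fin n → Fin n → ℝ) (hM : ∀ i k, 0 ≤ M i k)
    (i j : Fin n) (hij : i ≠ j) (w : Fin n → ℝ) (hw : w i ^ 2 + w j ^ 2 ≠ 0) (θ : ℝ) :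
    (∀ k, cs (mixR i j (w i ^ 2 / (w i ^ 2 + w j ^ 2)) M) (pol i j θ w) k = cs M w k) ∧
    (∑ k, pol i j θ w k ^ 2 = ∑ k, w k ^ 2) ∧
    pol i j θ (Psi x M w) = Psi x (mixR i j (w i ^ 2 / (w i ^ 2 + w j ^ 2)) M) (pol i j θ w) ∧
    (∀ k, Dv k (mixR i j (w i ^ 2 / (w i ^ 2 + w j ^ 2)) M) (pol i j θ w) =
      T i j ((Real.cos θ) ^ 2) (Dv k M w)) := by
  set s : ℝ := w i ^ 2 + w j ^ 2 with hs
  set b : ℝ := w i ^ 2 / s with hb
  have hs0 : 0 ≤ s := by positivity
  have hbi : s * b = w i ^ 2 := by rw [hb]; field_simp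
  have hbj : s * (1 - b) = w j ^ 2 := by rw [mul_sub, hbi, hs]; ring
  have hb0 : 0 ≤ b := by rw [hb]; positivity
  have hspos : 0 < s := lt_of_le_of_ne hs0 (Ne.symm hw)
  have hb1 : 0 ≤ 1 - b := by
    by_contra hc
    push Not at hc
    have := mul_neg_of_pos_of_neg hspos hc
    rw [hbj] at this
    exact absurd this (not_lt.2 (sq_nonneg _))
  have hcs : Real.cos θ ^ 2 + Real.sin θ ^ 2 = 1 := Real.cos_sq_add_sin_sq θ
  have hsin : Real.sin θ ^ 2 = 1 - Real.cos θ ^ 2 := by linarith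
  have hji : j ≠ i := hij.symm
  have hsq : √s ^ 2 = s := Real.sq_sqrt hs0
  have pi : pol i j θ w i = √s * Real.cos θ := by simp [pol, hs]
  have pj : pol i j θ w j = √s * Real.sin θ := by simp [pol, hs, hji]
  have pk : ∀ k, k ≠ i → k ≠ j → pol i j θ w k = w k := fun k h1 h2 => by simp [pol, h1, h2]
  have pi2 : pol i j θ w i ^ 2 = s * Real.cos θ ^ 2 := by rw [pi, mul_pow, hsq]
  have pj2 : pol i j θ w j ^ 2 = s * (1 - Real.cos θ ^ 2) := by rw [pj, mul_pow, hsq, hsin]
  have mi : ∀ l, mixR i j b M i l = b * M i l + (1 - b) * M j l := fun l => by simp [mixR]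
  have mj : ∀ l, mixR i j b M j l = b * M i l + (1 - b) * M j l := fun l => by simp [mixR]
  have mk : ∀ k, k ≠ i → k ≠ j → ∀ l, mixR i j b M k l = M k l := fun k h1 h2 l => by
    simp [mixR, h1, h2]
  have A : ∀ k, cs (mixR i j b M) (pol i j θ w) k = cs M w k := by
    intro k
    refine pol_alg_sum _ _ i j hij ?_ ?_
    · show pol i j θ w i ^ 2 * mixR i j b M i k + pol i j θ w j ^ 2 * mixR i j b M j k
        = w i ^ 2 * M i k + w j ^ 2 * M j k
      rw [pi2, pj2, mi, mj, ← hbi, ← hbj]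
      ring
    · intro l h1 h2
      show pol i j θ w l ^ 2 * mixR i j b M l k = w l ^ 2 * M l k
      rw [pk l h1 h2, mk l h1 h2]
  have B : ∑ k, pol i j θ w k ^ 2 = ∑ k, w k ^ 2 := by
    refine pol_alg_sum _ _ i j hij ?_ ?_
    · show pol i j θ w i ^ 2 + pol i j θ w j ^ 2 = w i ^ 2 + w j ^ 2
      rw [pi2, pj2]
      linarith
    · intro l h1 h2
      show pol i j θ w l ^ 2 = w l ^ 2
      rw [pk l h1 h2]
  have hcs0 : ∀ k, 0 ≤ cs M w k := fun k =>
    Finset.sum_nonneg fun l _ => mul_nonneg (sq_nonneg _) (hM l k)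
  have hh : ∀ l, 0 ≤ ∑ k, x k ^ 2 * M l k / cs M w k := fun l =>
    Finset.sum_nonneg fun k _ => div_nonneg (mul_nonneg (sq_nonneg _) (hM l k)) (hcs0 k)
  have hmix : ∀ l, (l = i ∨ l = j) → ∑ k, x k ^ 2 * mixR i j b M l k / cs (mixR i j b M) (pol i j θ w) k
      = b * (∑ k, x k ^ 2 * M i k / cs M w k) + (1 - b) * (∑ k, x k ^ 2 * M j k / cs M w k) := by
    intro l hl
    rw [Finset.mul_sum, Finset.mul_sum, ← Finset.sum_add_distrib]
    refine Finset.sum_congr rfl fun k _ => ?_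
    rw [A k]
    have : mixR i j b M l k = b * M i k + (1 - b) * M j k := by
      rcases hl with rfl | rfl
      · exact mi k
      · exact mj k
    rw [this]
    ring
  have hPP : √(Psi x M w i ^ 2 + Psi x M w j ^ 2)
      = √s * √(b * (∑ k, x k ^ 2 * M i k / cs M w k) + (1 - b) * (∑ k, x k ^ 2 * M j k / cs M w k)) := by
    rw [← Real.sqrt_mul hs0]
    congr 1
    simp only [Psi]
    rw [mul_pow, mul_pow, Real.sq_sqrt (hh i), Real.sq_sqrt (hh j), ← hbi, ← hbj]
    ring
  refine ⟨A, B, ?_, ?_⟩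
  · funext l
    by_cases h1 : l = i
    · subst h1
      show (if l = l then √(Psi x M w l ^ 2 + Psi x M w j ^ 2) * Real.cos θ
        else if l = j then √(Psi x M w l ^ 2 + Psi x M w j ^ 2) * Real.sin θ else Psi x M w l)
        = pol l j θ w l * √(∑ k, x k ^ 2 * mixR l j b M l k / cs (mixR l j b M) (pol l j θ w) k)
      rw [if_pos rfl, hPP, hmix l (Or.inl rfl), pi]
      ring
    · by_cases h2 : l = j
      · subst h2
        show (if l = i then √(Psi x M w i ^ 2 + Psi x M w l ^ 2) * Real.cos θ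
          else if l = l then √(Psi x M w i ^ 2 + Psi x M w l ^ 2) * Real.sin θ else Psi x M w l)
          = pol i l θ w l * √(∑ k, x k ^ 2 * mixR i l b M l k / cs (mixR i l b M) (pol i l θ w) k)
        rw [if_neg h1, if_pos rfl, hPP, hmix l (Or.inr rfl), pj]
        ring
      · show (if l = i then √(Psi x M w i ^ 2 + Psi x M w j ^ 2) * Real.cos θ
          else if l = j then √(Psi x M w i ^ 2 + Psi x M w j ^ 2) * Real.sin θ else Psi x M w l)
          = pol i j θ w l * √(∑ k, x k ^ 2 * mixR i j b M l k / cs (mixR i j b M) (pol i j θ w) k)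
        rw [if_neg h1, if_neg h2, pk l h1 h2]
        simp only [Psi]
        congr 2
        refine Finset.sum_congr rfl fun k _ => ?_
        rw [A k, mk l h1 h2]
  · intro k
    funext l
    show pol i j θ w l ^ 2 * mixR i j b M l k / cs (mixR i j b M) (pol i j θ w) k
        - pol i j θ w l ^ 2 / ∑ q, pol i j θ w q ^ 2
      = (if l = i then (Dv k M w i + Dv k M w j) * Real.cos θ ^ 2
          else if l = j then (Dv k M w i + Dv k M w j) * (1 - Real.cos θ ^ 2) else Dv k M w l)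
    rw [A k, B]
    have hD : Dv k M w i + Dv k M w j = s * (b * M i k + (1 - b) * M j k) / cs M w k - s / ∑ q, w q ^ 2 := by
      simp only [Dv]
      have : s * (b * M i k + (1 - b) * M j k) = w i ^ 2 * M i k + w j ^ 2 * M j k := by
        rw [← hbi, ← hbj]; ring
      rw [this, hs]
      ring
    by_cases h1 : l = i
    · rw [if_pos h1, hD, h1, pi2, mi]
      ring
    · by_cases h2 : l = j
      · rw [if_neg h1, if_pos h2, hD, h2, pj2, mj]
        ring
      · rw [if_neg h1, if_neg h2, pk l h1 h2, mk l h1 h2]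
        rfl

end Pool.Agent.H494.Kac
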