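import Pool.Agent.H494.Kac.Defs2

open MeasureTheory Filter Topology
open scoped ENNReal

namespace Pool.Agent.H494.Kac
theorem pow_ineq_core (q : ℝ) (hq : 2 ≤ q) (hq3 : q ≤ 3) (x : ℝ) (hx : |x| ≤ 1) :
    (1 + x) ^ q ≤ 1 + |x| ^ q + q * (x + |x| ^ (q - 2) * x) + 9 * |x| ^ (q / 2) := by
  have hx1 : -1 ≤ x := (abs_le.1 hx).1
  have hx2 : x ≤ 1 := (abs_le.1 hx).2
  have h1x : 0 ≤ 1 + x := by linarith
  have hb : (1 + x) ^ (q - 2) ≤ 1 + (q - 2) * x :=
    rpow_one_add_le_one_add_mul_self hx1 (by linarith) (by linarith)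
  have hsplit : (1 + x) ^ q = (1 + x) ^ 2 * (1 + x) ^ (q - 2) := by
    rcases eq_or_lt_of_le h1x with h | h
    · rw [← h]
      rw [Real.zero_rpow (by linarith)]
      norm_num
    · rw [← Real.rpow_natCast (1 + x) 2, ← Real.rpow_add h]
      congr 1
      push_cast
      ring
  have hx0 : 0 ≤ |x| := abs_nonneg x
  have hxx : x ^ 2 = |x| ^ 2 := (sq_abs x).symm
  have h2 : |x| ^ 2 ≤ |x| ^ (q / 2) := by
    rw [← Real.rpow_natCast |x| 2]
    apply Real.rpow_le_rpow_of_exponent_ge' hx0 hx (by linarith)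
    push_cast
    linarith
  have h3 : |x| ^ (q - 2) * |x| ≤ |x| ^ (q / 2) := by
    rcases eq_or_lt_of_le hx0 with h | h
    · rw [← h, mul_zero]
      positivity
    · have h5 : |x| ^ (q - 2) * |x| = |x| ^ (q - 1) := by
        rw [← Real.rpow_add_one h.ne']
        congr 1
        ring
      rw [h5]
      apply Real.rpow_le_rpow_of_exponent_ge' hx0 hx (by linarith)
      linarith
  have h4 : -(|x| ^ (q - 2) * |x|) ≤ |x| ^ (q - 2) * x := by
    have h6 : 0 ≤ |x| ^ (q - 2) := by positivity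
    have h7 := neg_abs_le x
    nlinarith
  have h5 : 0 ≤ |x| ^ q := by positivity
  have h6 : (1 + x) ^ q ≤ 1 + q * x + 4 * |x| ^ 2 := by
    rw [hsplit]
    have h7 : (1 + x) ^ 2 * (1 + x) ^ (q - 2) ≤ (1 + x) ^ 2 * (1 + (q - 2) * x) :=
      mul_le_mul_of_nonneg_left hb (by positivity)
    have h8 : (1 + x) ^ 2 * (1 + (q - 2) * x) =
        1 + q * x + (1 + 2 * (q - 2)) * x ^ 2 + (q - 2) * (x * x ^ 2) := by ring
    have h9 : x * x ^ 2 ≤ x ^ 2 := by nlinarith [sq_nonneg x]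
    have h10 : (q - 2) * (x * x ^ 2) ≤ (q - 2) * x ^ 2 :=
      mul_le_mul_of_nonneg_left h9 (by linarith)
    have h11 : (1 + 3 * (q - 2)) * x ^ 2 ≤ 4 * x ^ 2 :=
      mul_le_mul_of_nonneg_right (by linarith) (sq_nonneg x)
    rw [← hxx]
    nlinarith
  have h12 : q * (-(|x| ^ (q / 2))) ≤ q * (|x| ^ (q - 2) * x) :=
    mul_le_mul_of_nonneg_left (by linarith) (by linarith)
  have h13 : 0 ≤ |x| ^ (q / 2) := by positivity
  nlinarith

theorem pow_ineq_pos (q : ℝ) (hq : 2 ≤ q) (hq3 : q ≤ 3) (a b : ℝ) (ha : 0 < a) (hb : |b| ≤ a) :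
    |a + b| ^ q ≤ |a| ^ q + |b| ^ q + q * (|a| ^ (q - 2) * a * b + |b| ^ (q - 2) * a * b) +
      9 * (|a| ^ (q / 2) * |b| ^ (q / 2)) := by
  obtain ⟨x, rfl⟩ : ∃ x, b = a * x := ⟨b / a, by field_simp⟩
  have haa : |a| = a := abs_of_pos ha
  have hx : |x| ≤ 1 := by
    rw [abs_mul, haa] at hb
    nlinarith
  have hx1 : -1 ≤ x := (abs_le.1 hx).1
  have hc := pow_ineq_core q hq hq3 x hx
  have h1 : |a + a * x| = a * (1 + x) := by
    rw [show a + a * x = a * (1 + x) by ring]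
    apply abs_of_nonneg
    have : 0 ≤ 1 + x := by linarith
    positivity
  have hx0 : 0 ≤ |x| := abs_nonneg x
  rw [h1, abs_mul, haa, Real.mul_rpow ha.le (by linarith), Real.mul_rpow ha.le hx0,
    Real.mul_rpow ha.le hx0, Real.mul_rpow ha.le hx0]
  have e1 : a ^ (q - 2) * a * a = a ^ q := by
    rw [← Real.rpow_add_one ha.ne', ← Real.rpow_add_one ha.ne']
    congr 1
    ring
  have e2 : a ^ (q / 2) * a ^ (q / 2) = a ^ q := by
    rw [← Real.rpow_add ha]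
    congr 1
    ring
  have e3 : a ^ q * |x| ^ q + a ^ q + q * (a ^ (q - 2) * a * (a * x) +
      a ^ (q - 2) * |x| ^ (q - 2) * a * (a * x)) + 9 * (a ^ (q / 2) * (a ^ (q / 2) * |x| ^ (q / 2))) =
      a ^ q * |x| ^ q + a ^ q + q * ((a ^ (q - 2) * a * a) * x +
      (a ^ (q - 2) * a * a) * |x| ^ (q - 2) * x) + 9 * ((a ^ (q / 2) * a ^ (q / 2)) * |x| ^ (q / 2)) := by
    ring
  rw [e1, e2] at e3
  have h5 : 0 ≤ a ^ q := by positivity
  have h6 := mul_le_mul_of_nonneg_left hc h5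
  calc a ^ q * (1 + x) ^ q ≤ _ := h6
    _ = a ^ q * |x| ^ q + a ^ q + q * (a ^ q * x +
      a ^ q * |x| ^ (q - 2) * x) + 9 * (a ^ q * |x| ^ (q / 2)) := by ring
    _ = _ := e3.symm
    _ = _ := by ring

theorem pow_ineq_abs (q : ℝ) (hq : 2 ≤ q) (hq3 : q ≤ 3) (a b : ℝ) (hb : |b| ≤ |a|) :
    |a + b| ^ q ≤ |a| ^ q + |b| ^ q + q * (|a| ^ (q - 2) * a * b + |b| ^ (q - 2) * a * b) +
      9 * (|a| ^ (q / 2) * |b| ^ (q / 2)) := by
  rcases lt_trichotomy a 0 with h | h | h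
  · have h1 := pow_ineq_pos q hq hq3 (-a) (-b) (by linarith) (by
      rw [abs_neg]
      rw [abs_of_neg h] at hb
      exact hb)
    rw [show -a + -b = -(a + b) by ring, abs_neg, abs_neg, abs_neg] at h1
    calc _ ≤ _ := h1
      _ = _ := by ring
  · subst h
    have hb0 : b = 0 := by
      rw [abs_zero] at hb
      exact abs_eq_zero.1 (le_antisymm hb (abs_nonneg b))
    subst hb0
    have h2 : (0 : ℝ) ^ q = 0 := Real.zero_rpow (by linarith)
    simp only [abs_zero, add_zero, mul_zero, h2, zero_add]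
    positivity
  · exact pow_ineq_pos q hq hq3 a b h (by rw [abs_of_pos h] at hb; exact hb)

theorem pow_ineq (q : ℝ) (hq : 2 ≤ q) (hq3 : q ≤ 3) (a b : ℝ) :
    |a + b| ^ q ≤ |a| ^ q + |b| ^ q + q * (|a| ^ (q - 2) * a * b + |b| ^ (q - 2) * a * b) +
      9 * (|a| ^ (q / 2) * |b| ^ (q / 2)) := by
  rcases le_total |b| |a| with h | h
  · exact pow_ineq_abs q hq hq3 a b h
  · have h1 := pow_ineq_abs q hq hq3 b a h
    rw [add_comm b a] at h1
    calc _ ≤ _ := h1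
      _ = _ := by ring

end Pool.Agent.H494.Kac
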