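import Pool.Agent.H494.Kac.Defs2

open MeasureTheory Filter Topology
open scoped ENNReal

namespace Pool.Agent.H494.Kac

lemma meas_toLp {n : ℕ} : Measurable (fun v : Fin n → ℝ => (WithLp.toLp 2 v : E n)) :=
  (PiLp.continuous_toLp 2 _).measurable

lemma meas_Psi {n : ℕ} (x : Fin n → ℝ) :
    Measurable (fun q : (Fin n → Fin n → ℝ) × (Fin n → ℝ) => Psi x q.1 q.2) := by
  refine measurable_pi_iff.2 fun i => ?_
  unfold Psi cs
  fun_prop

lemma meas_PsiE {n : ℕ} (x : Fin n → ℝ) :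
    Measurable (fun q : (Fin n → Fin n → ℝ) × (Fin n → ℝ) =>
      (WithLp.toLp 2 (Psi x q.1 q.2) : E n)) := meas_toLp.comp (meas_Psi x)

lemma meas_rot {n : ℕ} (i j : Fin n) :
    Measurable (fun q : (E n) × ℝ => rot i j q.2 q.1) := by
  unfold rot
  refine meas_toLp.comp (measurable_pi_iff.2 fun k => ?_)
  by_cases h1 : k = i
  · simp only [h1, if_true]; fun_prop
  · by_cases h2 : k = j
    · simp only [h1, h2, if_true, if_false]
      split_ifs
      · fun_prop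
      · fun_prop
    · simp only [h1, h2, if_false]; fun_prop

instance : SFinite unif := by unfold unif; infer_instance
instance (n : ℕ) : IsProbabilityMeasure (gam n) := by unfold gam; infer_instance

theorem rep_main (n : ℕ) (x : Fin n → ℝ) (hm : Measurable (avgStep n)) (hms : Measurable (stepLaw n))
    (h : ∀ (M : Fin n → Fin n → ℝ) (f : (Fin n → Fin n → ℝ) → ℝ≥0∞), Measurable f →
      ∫⁻ M', f M' ∂(avgStep n M) = ((prs n).card : ℝ≥0∞)⁻¹ *
        ∑ p ∈ prs n, ∫⁻ φ, f (mixR p.1 p.2 ((Real.cos φ) ^ 2) M) ∂unif)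
    (hstep : ∀ (v : E n) (f : E n → ℝ≥0∞), Measurable f → ∫⁻ w, f w ∂(stepLaw n v) =
      ((prs n).card : ℝ≥0∞)⁻¹ * ∑ p ∈ prs n, ∫⁻ θ, f (rot p.1 p.2 θ v) ∂unif)
    (hgood : ∀ t, ∀ᵐ M ∂(avgLaw n t), ∀ i k, 0 ≤ M i k)
    (hrep : ∀ (M : Fin n → Fin n → ℝ), (∀ i k, 0 ≤ M i k) → ∀ i j : Fin n, i ≠ j →
      ∀ f : E n → ℝ≥0∞, Measurable f →
      ∫⁻ w, ∫⁻ θ, f (rot i j θ (WithLp.toLp 2 (Psi x M w))) ∂unif ∂(gam n) =
      ∫⁻ φ, ∫⁻ w, f (WithLp.toLp 2 (Psi x (mixR i j ((Real.cos φ) ^ 2) M) w)) ∂(gam n) ∂unif)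
    (t : ℕ) (f : E n → ℝ≥0∞) (hf : Measurable f) :
    ∫⁻ w, ∫⁻ y, f y ∂(law n (WithLp.toLp 2 (Psi x (idm n) w)) t) ∂(gam n) =
      ∫⁻ M, ∫⁻ w, f (WithLp.toLp 2 (Psi x M w)) ∂(gam n) ∂(avgLaw n t) := by
  classical
  induction t generalizing f with
  | zero =>
    simp only [law, avgLaw]
    rw [lintegral_dirac]
    refine lintegral_congr fun w => ?_
    rw [lintegral_dirac' _ hf]
  | succ t ih =>
    have hPf : Measurable (fun y : E n => ∫⁻ v, f v ∂(stepLaw n y)) :=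
      (Measure.measurable_lintegral hf).comp hms
    have hF : Measurable (fun M' : Fin n → Fin n → ℝ =>
        ∫⁻ w, f (WithLp.toLp 2 (Psi x M' w)) ∂(gam n)) :=
      Measurable.lintegral_prod_right' (hf.comp (meas_PsiE x))
    have e1 : ∫⁻ w, ∫⁻ y, f y ∂(law n (WithLp.toLp 2 (Psi x (idm n) w)) (t + 1)) ∂(gam n) =
        ∫⁻ w, ∫⁻ y, (∫⁻ v, f v ∂(stepLaw n y))
          ∂(law n (WithLp.toLp 2 (Psi x (idm n) w)) t) ∂(gam n) := by
      refine lintegral_congr fun w => ?_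
      show ∫⁻ y, f y ∂((law n (WithLp.toLp 2 (Psi x (idm n) w)) t).bind (stepLaw n)) = _
      rw [Measure.lintegral_bind hms.aemeasurable hf.aemeasurable]
    rw [e1, ih _ hPf]
    show _ = ∫⁻ M, ∫⁻ w, f (WithLp.toLp 2 (Psi x M w)) ∂(gam n) ∂((avgLaw n t).bind (avgStep n))
    rw [Measure.lintegral_bind hm.aemeasurable hF.aemeasurable]
    refine lintegral_congr_ae ?_
    filter_upwards [hgood t] with M hM
    rw [h M _ hF]
    have hw : Measurable (fun w : Fin n → ℝ => (WithLp.toLp 2 (Psi x M w) : E n)) :=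
      (meas_PsiE x).comp (measurable_const.prodMk measurable_id)
    have hr : ∀ i j : Fin n, Measurable (fun w : Fin n → ℝ =>
        ∫⁻ θ, f (rot i j θ (WithLp.toLp 2 (Psi x M w))) ∂unif) := fun i j =>
      Measurable.lintegral_prod_right' (hf.comp ((meas_rot i j).comp
        ((hw.comp measurable_fst).prodMk measurable_snd)))
    calc ∫⁻ w, (∫⁻ v, f v ∂(stepLaw n (WithLp.toLp 2 (Psi x M w)))) ∂(gam n)
        = ∫⁻ w, ((prs n).card : ℝ≥0∞)⁻¹ *
            ∑ p ∈ prs n, ∫⁻ θ, f (rot p.1 p.2 θ (WithLp.toLp 2 (Psi x M w))) ∂unif ∂(gam n) :=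
          lintegral_congr fun w => hstep _ f hf
      _ = ((prs n).card : ℝ≥0∞)⁻¹ * ∑ p ∈ prs n,
            ∫⁻ w, ∫⁻ θ, f (rot p.1 p.2 θ (WithLp.toLp 2 (Psi x M w))) ∂unif ∂(gam n) := by
          rw [lintegral_const_mul _ (Finset.measurable_sum _ fun p _ => hr p.1 p.2),
            lintegral_finset_sum _ fun p _ => hr p.1 p.2]
      _ = _ := by
          congr 1
          refine Finset.sum_congr rfl fun p hp => ?_
          exact hrep M hM p.1 p.2 (ne_of_lt (Finset.mem_filter.1 hp).2) f hf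

end Pool.Agent.H494.Kac
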