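import Pool.Agent.H494.Kac.Defs2

open MeasureTheory Filter Topology
open scoped ENNReal

namespace Pool.Agent.H494.Kac
theorem rep_step (n : ℕ) (x : Fin n → ℝ) (M : Fin n → Fin n → ℝ) (hM : ∀ i k, 0 ≤ M i k)
    (i j : Fin n) (hij : i ≠ j) (f : E n → ℝ≥0∞) (hf : Measurable f)
    (hpol : ∀ G : ℝ → (Fin n → ℝ) → ℝ≥0∞, Measurable (fun q : ℝ × (Fin n → ℝ) => G q.1 q.2) →
      ∫⁻ w, ∫⁻ θ, G (w i ^ 2 / (w i ^ 2 + w j ^ 2)) (pol i j θ w) ∂unif ∂(gam n) =
      ∫⁻ φ, ∫⁻ w, G ((Real.cos φ) ^ 2) w ∂(gam n) ∂unif)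
    (hrot : ∀ v : Fin n → ℝ, ∫⁻ θ, f (rot i j θ (WithLp.toLp 2 v)) ∂unif =
      ∫⁻ θ, f (WithLp.toLp 2 (pol i j θ v)) ∂unif)
    (halg : ∀ (w : Fin n → ℝ), w i ^ 2 + w j ^ 2 ≠ 0 → ∀ θ : ℝ,
      pol i j θ (Psi x M w) = Psi x (mixR i j (w i ^ 2 / (w i ^ 2 + w j ^ 2)) M) (pol i j θ w)) :
    ∫⁻ w, ∫⁻ θ, f (rot i j θ (WithLp.toLp 2 (Psi x M w))) ∂unif ∂(gam n) =
      ∫⁻ φ, ∫⁻ w, f (WithLp.toLp 2 (Psi x (mixR i j ((Real.cos φ) ^ 2) M) w)) ∂(gam n) ∂unif := by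
  have hG : Measurable (fun q : ℝ × (Fin n → ℝ) =>
      f (WithLp.toLp 2 (Psi x (mixR i j q.1 M) q.2))) := by
    refine hf.comp ((WithLp.measurable_toLp 2 (Fin n → ℝ)).comp ?_)
    refine measurable_pi_iff.2 fun a => ?_
    have hmix : ∀ k l, Measurable (fun q : ℝ × (Fin n → ℝ) => mixR i j q.1 M k l) := by
      intro k l
      unfold mixR
      split_ifs
      · fun_prop
      · fun_prop
    have hcs : ∀ k, Measurable (fun q : ℝ × (Fin n → ℝ) => cs (mixR i j q.1 M) q.2 k) := by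
      intro k
      unfold cs
      refine Finset.measurable_sum _ fun b _ => ?_
      exact (by fun_prop : Measurable fun q : ℝ × (Fin n → ℝ) => q.2 b ^ 2).mul (hmix b k)
    unfold Psi
    refine (by fun_prop : Measurable fun q : ℝ × (Fin n → ℝ) => q.2 a).mul ?_
    refine Measurable.sqrt ?_
    refine Finset.measurable_sum _ fun k _ => ?_
    exact ((hmix a k).const_mul _).div (hcs k)
  have h0 := hpol (fun b w => f (WithLp.toLp 2 (Psi x (mixR i j b M) w))) hG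
  rw [← h0]
  refine lintegral_congr_ae ?_
  have hae : ∀ᵐ w ∂(gam n), w i ^ 2 + w j ^ 2 ≠ 0 := by
    have hna : NullSingletonClass (ProbabilityTheory.gaussianReal 0 1) :=
      ProbabilityTheory.nullSingletonClass_gaussianReal one_ne_zero
    have h1 : (gam n) {w | w i = 0} = 0 := by
      unfold gam
      exact Measure.pi_hyperplane (fun _ : Fin n => ProbabilityTheory.gaussianReal 0 1) i 0
    refine measure_mono_null ?_ h1
    intro w hw
    simp only [Set.mem_compl_iff, Set.mem_ofPred_eq, not_not] at hw ⊢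
    nlinarith [sq_nonneg (w i), sq_nonneg (w j)]
  filter_upwards [hae] with w hw
  rw [hrot]
  refine lintegral_congr fun θ => ?_
  rw [halg w hw θ]

end Pool.Agent.H494.Kac
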