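import Pool.Agent.H494.Kac.Defs2

open MeasureTheory Filter Topology
open scoped ENNReal

namespace Pool.Agent.H494.Kac
theorem rv_g2 : ∫⁻ x, ENNReal.ofReal (x ^ 2) ∂(ProbabilityTheory.gaussianReal 0 1) = 1 := by
  have hi : Integrable (fun x : ℝ => x ^ 2) (ProbabilityTheory.gaussianReal 0 1) :=
    (ProbabilityTheory.memLp_id_gaussianReal (μ := 0) (v := 1) 2).integrable_sq
  rw [← ofReal_integral_eq_lintegral_ofReal hi (ae_of_all _ fun x => sq_nonneg x)]
  have h := ProbabilityTheory.variance_fun_id_gaussianReal (μ := 0) (v := 1)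
  rw [ProbabilityTheory.variance_of_integral_eq_zero (by fun_prop)
    ProbabilityTheory.integral_id_gaussianReal] at h
  rw [h]
  simp

theorem rv_small : ProbabilityTheory.gaussianReal 0 1 {x : ℝ | x ^ 2 < 1 / 100} ≤
    ENNReal.ofReal (1 / 10) := by
  rw [ProbabilityTheory.gaussianReal_apply 0 one_ne_zero]
  have hset : {x : ℝ | x ^ 2 < 1 / 100} = Set.Ioo (-(1 / 10)) (1 / 10) := by
    ext x
    simp only [Set.mem_ofPred_eq, Set.mem_Ioo]
    rw [← abs_lt, ← sq_lt_sq₀ (abs_nonneg x) (by norm_num), sq_abs]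
    norm_num
  rw [hset]
  have hb : ∀ x, ProbabilityTheory.gaussianPDF 0 1 x ≤ ENNReal.ofReal (1 / 2) := by
    intro x
    rw [ProbabilityTheory.gaussianPDF_def]
    apply ENNReal.ofReal_le_ofReal
    rw [ProbabilityTheory.gaussianPDFReal_def]
    simp only [NNReal.coe_one, mul_one, sub_zero]
    have h1 : Real.exp (-x ^ 2 / 2) ≤ 1 := by
      rw [Real.exp_le_one_iff]
      have := sq_nonneg x
      linarith
    have h2 : (√(2 * Real.pi))⁻¹ ≤ 1 / 2 := by
      rw [inv_eq_one_div]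
      apply one_div_le_one_div_of_le (by norm_num)
      apply Real.le_sqrt_of_sq_le
      have := Real.pi_gt_three
      nlinarith
    have h3 : 0 ≤ (√(2 * Real.pi))⁻¹ := by positivity
    calc (√(2 * Real.pi))⁻¹ * Real.exp (-x ^ 2 / 2) ≤ (1 / 2) * 1 :=
          mul_le_mul h2 h1 (Real.exp_pos _).le (by norm_num)
      _ = 1 / 2 := by norm_num
  calc ∫⁻ x in Set.Ioo (-(1 / 10) : ℝ) (1 / 10), ProbabilityTheory.gaussianPDF 0 1 x
      ≤ ∫⁻ _ in Set.Ioo (-(1 / 10) : ℝ) (1 / 10), ENNReal.ofReal (1 / 2) :=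
        lintegral_mono fun x => hb x
    _ = ENNReal.ofReal (1 / 10) := by
      rw [setLIntegral_const, Real.volume_Ioo, ← ENNReal.ofReal_mul (by norm_num)]
      norm_num

instance rv_prob (n : ℕ) : IsProbabilityMeasure (gam n) := by
  unfold gam
  infer_instance

theorem rv_small' (n : ℕ) (i : Fin n) : gam n {w | w i ^ 2 < 1 / 100} ≤
    ENNReal.ofReal (1 / 10) := by
  have h := measurePreserving_eval
    (fun _ : Fin n => ProbabilityTheory.gaussianReal 0 1) i
  have hm : MeasurableSet {x : ℝ | x ^ 2 < 1 / 100} := by measurability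
  have h2 := h.measure_preimage hm.nullMeasurableSet
  refine le_trans (le_of_eq ?_) rv_small
  rw [← h2]
  rfl

theorem rv_g2' (n : ℕ) (i : Fin n) : ∫⁻ w, ENNReal.ofReal (w i ^ 2) ∂(gam n) = 1 := by
  have h := measurePreserving_eval
    (fun _ : Fin n => ProbabilityTheory.gaussianReal 0 1) i
  have h2 := h.lintegral_comp (f := fun x => ENNReal.ofReal (x ^ 2)) (by fun_prop)
  rw [rv_g2] at h2
  exact h2

theorem rv_markov (n : ℕ) (hn : 2 ≤ n) (a : Fin n → ℝ) (ha : ∀ i, 0 ≤ a i)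
    (hs : ∑ i, a i = n) : gam n {w | 8 * (n : ℝ) < ∑ j, w j ^ 2 * a j} ≤
    ENNReal.ofReal (1 / 8) := by
  have h1 : ∫⁻ w, ENNReal.ofReal (∑ j, w j ^ 2 * a j) ∂(gam n) = n := by
    have h2 : ∀ w : Fin n → ℝ, ENNReal.ofReal (∑ j, w j ^ 2 * a j) =
        ∑ j, ENNReal.ofReal (w j ^ 2) * ENNReal.ofReal (a j) := by
      intro w
      rw [ENNReal.ofReal_sum_of_nonneg fun j _ => mul_nonneg (sq_nonneg _) (ha j)]
      exact Finset.sum_congr rfl fun j _ => ENNReal.ofReal_mul (sq_nonneg _)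
    simp_rw [h2]
    rw [lintegral_finsetSum]
    · have h3 : ∀ j : Fin n, ∫⁻ w, ENNReal.ofReal (w j ^ 2) * ENNReal.ofReal (a j) ∂(gam n) =
          ENNReal.ofReal (a j) := by
        intro j
        rw [lintegral_mul_const _ (by fun_prop), rv_g2', one_mul]
      rw [Finset.sum_congr rfl fun j _ => h3 j, ← ENNReal.ofReal_sum_of_nonneg fun j _ => ha j, hs]
      simp
    · intro j _
      fun_prop
  have hmz : Measurable (fun w : Fin n → ℝ => ENNReal.ofReal (∑ j, w j ^ 2 * a j)) := by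
    fun_prop
  have h4 := mul_meas_ge_le_lintegral₀ (μ := gam n)
    (f := fun w => ENNReal.ofReal (∑ j, w j ^ 2 * a j)) hmz.aemeasurable (ENNReal.ofReal (8 * n))
  rw [h1] at h4
  have hn0 : (0 : ℝ) < n := by
    have : 0 < n := by omega
    exact_mod_cast this
  have h5 : gam n {w | 8 * (n : ℝ) < ∑ j, w j ^ 2 * a j} ≤
      gam n {w | ENNReal.ofReal (8 * n) ≤ ENNReal.ofReal (∑ j, w j ^ 2 * a j)} := by
    apply measure_mono
    intro w hw
    exact ENNReal.ofReal_le_ofReal (le_of_lt hw)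
  refine h5.trans ?_
  have h6 : (ENNReal.ofReal (8 * n)) ≠ 0 := by
    rw [Ne, ENNReal.ofReal_eq_zero, not_le]
    positivity
  have h7 : gam n {w | ENNReal.ofReal (8 * n) ≤ ENNReal.ofReal (∑ j, w j ^ 2 * a j)} ≤
      (n : ℝ≥0∞) / ENNReal.ofReal (8 * n) := by
    rw [ENNReal.le_div_iff_mul_le (Or.inl h6) (Or.inl ENNReal.ofReal_ne_top), mul_comm]
    exact h4
  refine h7.trans (le_of_eq ?_)
  rw [← ENNReal.ofReal_natCast, ← ENNReal.ofReal_div_of_pos (by positivity)]
  congr 1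
  field_simp

/-- the good event -/
def rvG {n : ℕ} (a : Fin n → ℝ) (i j : Fin n) : Set (Fin n → ℝ) :=
  {w | 1 / 100 ≤ w i ^ 2 ∧ 1 / 100 ≤ w j ^ 2 ∧ ∑ l, w l ^ 2 * a l ≤ 8 * n}

theorem rvG_meas {n : ℕ} (a : Fin n → ℝ) (i j : Fin n) : MeasurableSet (rvG a i j) := by
  unfold rvG
  have h1 : ∀ k : Fin n, MeasurableSet {w : Fin n → ℝ | 1 / 100 ≤ w k ^ 2} := fun k =>
    measurableSet_le measurable_const (by fun_prop)
  have h2 : MeasurableSet {w : Fin n → ℝ | ∑ l, w l ^ 2 * a l ≤ 8 * n} :=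
    measurableSet_le (by fun_prop) measurable_const
  exact (h1 i).inter ((h1 j).inter h2)

theorem rvG_prob (n : ℕ) (hn : 2 ≤ n) (a : Fin n → ℝ) (ha : ∀ i, 0 ≤ a i)
    (hs : ∑ i, a i = n) (i j : Fin n) : ENNReal.ofReal (1 / 2) ≤ gam n (rvG a i j) := by
  have h1 : gam n (rvG a i j)ᶜ ≤ ENNReal.ofReal (1 / 2) := by
    have h2 : (rvG a i j)ᶜ ⊆ {w | w i ^ 2 < 1 / 100} ∪ ({w | w j ^ 2 < 1 / 100} ∪
        {w | 8 * (n : ℝ) < ∑ l, w l ^ 2 * a l}) := by
      intro w hw
      by_contra hc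
      apply hw
      simp only [Set.mem_union, Set.mem_ofPred_eq, not_or, not_lt] at hc
      exact hc
    refine (measure_mono h2).trans ((measure_union_le _ _).trans ?_)
    refine (add_le_add (rv_small' n i) ((measure_union_le _ _).trans
      (add_le_add (rv_small' n j) (rv_markov n hn a ha hs)))).trans ?_
    rw [← ENNReal.ofReal_add (by norm_num) (by norm_num),
      ← ENNReal.ofReal_add (by norm_num) (by norm_num)]
    apply ENNReal.ofReal_le_ofReal
    norm_num
  have h3 := prob_add_prob_compl (μ := gam n) (rvG_meas a i j)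
  by_contra hc
  rw [not_le] at hc
  have h4 : gam n (rvG a i j) + gam n (rvG a i j)ᶜ <
      ENNReal.ofReal (1 / 2) + ENNReal.ofReal (1 / 2) :=
    ENNReal.add_lt_add_of_lt_of_le (measure_ne_top _ _) hc h1
  rw [h3, ← ENNReal.ofReal_add (by norm_num) (by norm_num)] at h4
  norm_num at h4

theorem rv_pow2 {x y q : ℝ} (hx : 0 ≤ x) (hy : 0 ≤ y) (hq : 1 ≤ q) :
    (x + y) ^ q ≤ 2 ^ (q - 1) * (x ^ q + y ^ q) := by
  have h := NNReal.rpow_add_le_mul_rpow_add_rpow ⟨x, hx⟩ ⟨y, hy⟩ hq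
  exact_mod_cast h

theorem rv_pt {n : ℕ} (hn : 2 ≤ n) (a : Fin n → ℝ) (ha : ∀ i, 0 ≤ a i) {q : ℝ} (hq : 1 ≤ q)
    {i j : Fin n} {w : Fin n → ℝ} (hw : w ∈ rvG a i j) :
    |a i - a j| ^ q ≤ 2 ^ (q - 1) * (800 * n) ^ q *
      (|w i ^ 2 * a i / (∑ j, w j ^ 2 * a j) - w i ^ 2 / ∑ j, w j ^ 2| ^ q +
        |w j ^ 2 * a j / (∑ j, w j ^ 2 * a j) - w j ^ 2 / ∑ j, w j ^ 2| ^ q) := by
  obtain ⟨h1, h2, h3⟩ := hw
  set Z := ∑ l, w l ^ 2 * a l with hZ
  set W := ∑ l, w l ^ 2 with hW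
  have hn0 : (0 : ℝ) < n := by
    have : 0 < n := by omega
    exact_mod_cast this
  have hq0 : q ≠ 0 := by linarith
  have hZ0 : 0 ≤ Z := Finset.sum_nonneg fun l _ => mul_nonneg (sq_nonneg _) (ha l)
  have hWi : 0 < W := by
    have : w i ^ 2 ≤ W := Finset.single_le_sum (f := fun l => w l ^ 2)
      (fun l _ => sq_nonneg _) (Finset.mem_univ i)
    linarith
  rcases hZ0.eq_or_lt with h0 | hZp
  · have hz : ∀ l, 1 / 100 ≤ w l ^ 2 → a l = 0 := by
      intro l hl
      have h4 : w l ^ 2 * a l ≤ Z := Finset.single_le_sum (f := fun l => w l ^ 2 * a l)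
        (fun l _ => mul_nonneg (sq_nonneg _) (ha l)) (Finset.mem_univ l)
      have h5 := ha l
      nlinarith
    rw [hz i h1, hz j h2, sub_zero, abs_zero, Real.zero_rpow hq0]
    positivity
  · have key : ∀ l, 1 / 100 ≤ w l ^ 2 → |a l - Z / W| ≤
        800 * n * |w l ^ 2 * a l / Z - w l ^ 2 / W| := by
      intro l hl
      have hwl : 0 < w l ^ 2 := by linarith
      have h4 : a l - Z / W = (Z / w l ^ 2) * (w l ^ 2 * a l / Z - w l ^ 2 / W) := by
        have hne : w l ≠ 0 := by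
          intro h
          rw [h] at hwl
          norm_num at hwl
        field_simp
      rw [h4, abs_mul, abs_of_nonneg (by positivity)]
      apply mul_le_mul_of_nonneg_right _ (abs_nonneg _)
      rw [div_le_iff₀ hwl]
      nlinarith
    have h5 : |a i - a j| ≤ 800 * n * (|w i ^ 2 * a i / Z - w i ^ 2 / W| +
        |w j ^ 2 * a j / Z - w j ^ 2 / W|) := by
      have h6 := abs_sub (a i - Z / W) (a j - Z / W)
      rw [show a i - Z / W - (a j - Z / W) = a i - a j by ring] at h6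
      have h7 := key i h1
      have h8 := key j h2
      rw [mul_add]
      linarith
    calc |a i - a j| ^ q ≤ (800 * n * (|w i ^ 2 * a i / Z - w i ^ 2 / W| +
        |w j ^ 2 * a j / Z - w j ^ 2 / W|)) ^ q :=
          Real.rpow_le_rpow (abs_nonneg _) h5 (by linarith)
      _ = (800 * n) ^ q * (|w i ^ 2 * a i / Z - w i ^ 2 / W| +
        |w j ^ 2 * a j / Z - w j ^ 2 / W|) ^ q := by
          rw [Real.mul_rpow (by positivity) (by positivity)]
      _ ≤ (800 * n) ^ q * (2 ^ (q - 1) * (|w i ^ 2 * a i / Z - w i ^ 2 / W| ^ q +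
        |w j ^ 2 * a j / Z - w j ^ 2 / W| ^ q)) := by
          apply mul_le_mul_of_nonneg_left _ (by positivity)
          exact rv_pow2 (abs_nonneg _) (abs_nonneg _) hq
      _ = _ := by ring

theorem rv_jensen {n : ℕ} (hn : 2 ≤ n) (a : Fin n → ℝ)
    (hs : ∑ i, a i = n) {q : ℝ} (hq : 1 ≤ q) (i : Fin n) :
    n * |a i - 1| ^ q ≤ ∑ j, |a i - a j| ^ q := by
  have hn0 : (0 : ℝ) < n := by
    have : 0 < n := by omega
    exact_mod_cast this
  have h1 := Real.rpow_arith_mean_le_arith_mean_rpow Finset.univ (fun _ : Fin n => (1 / n : ℝ))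
    (fun j => |a i - a j|) (fun _ _ => by positivity)
    (by rw [Finset.sum_const, Finset.card_univ, Fintype.card_fin, nsmul_eq_mul]; field_simp)
    (fun _ _ => abs_nonneg _) hq
  rw [← Finset.mul_sum, ← Finset.mul_sum] at h1
  have h2 : |a i - 1| ≤ 1 / n * ∑ j, |a i - a j| := by
    have h3 : a i - 1 = 1 / n * ∑ j, (a i - a j) := by
      rw [Finset.sum_sub_distrib, hs, Finset.sum_const, Finset.card_univ, Fintype.card_fin,
        nsmul_eq_mul]
      field_simp
    rw [h3, abs_mul, abs_of_nonneg (by positivity : (0 : ℝ) ≤ 1 / n)]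
    apply mul_le_mul_of_nonneg_left _ (by positivity)
    exact Finset.abs_sum_le_sum_abs _ _
  have h4 : |a i - 1| ^ q ≤ 1 / n * ∑ j, |a i - a j| ^ q :=
    (Real.rpow_le_rpow (abs_nonneg _) h2 (by linarith)).trans h1
  calc n * |a i - 1| ^ q ≤ n * (1 / n * ∑ j, |a i - a j| ^ q) :=
        mul_le_mul_of_nonneg_left h4 hn0.le
    _ = _ := by field_simp

theorem reverse (n : ℕ) (hn : 2 ≤ n) (a : Fin n → ℝ) (ha : ∀ i, 0 ≤ a i) (hs : ∑ i, a i = n)
    (q : ℝ) (hq : 1 ≤ q) (hq3 : q ≤ 3) :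
    ENNReal.ofReal (∑ i, |a i - 1| ^ q) ≤ ENNReal.ofReal (10 ^ 10 * (n : ℝ) ^ q) *
      ∫⁻ w, ENNReal.ofReal (∑ i, |w i ^ 2 * a i / (∑ j, w j ^ 2 * a j) -
        w i ^ 2 / ∑ j, w j ^ 2| ^ q) ∂(gam n) := by
  have hn0 : (0 : ℝ) < n := by
    have : 0 < n := by omega
    exact_mod_cast this
  set D : (Fin n → ℝ) → Fin n → ℝ := fun w i => |w i ^ 2 * a i / (∑ j, w j ^ 2 * a j) -
        w i ^ 2 / ∑ j, w j ^ 2| ^ q with hD
  have hD0 : ∀ w i, 0 ≤ D w i := fun w i => Real.rpow_nonneg (abs_nonneg _) _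
  set C : ℝ := 2 ^ (q - 1) * (800 * n) ^ q with hC
  have hC0 : 0 ≤ C := by positivity
  have hP : ∀ w, ∑ i, ∑ j, (rvG a i j).indicator (fun _ => ENNReal.ofReal (|a i - a j| ^ q)) w ≤
      ENNReal.ofReal (C * (2 * n)) * ENNReal.ofReal (∑ i, D w i) := by
    intro w
    have h1 : ∀ i j, (rvG a i j).indicator (fun _ => ENNReal.ofReal (|a i - a j| ^ q)) w ≤
        ENNReal.ofReal (C * (D w i + D w j)) := by
      intro i j
      by_cases hw : w ∈ rvG a i j
      · rw [Set.indicator_of_mem hw]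
        exact ENNReal.ofReal_le_ofReal (rv_pt hn a ha hq hw)
      · rw [Set.indicator_of_notMem hw]
        exact bot_le
    refine (Finset.sum_le_sum fun i _ => Finset.sum_le_sum fun j _ => h1 i j).trans ?_
    have h2 : ∀ i, ∑ j, ENNReal.ofReal (C * (D w i + D w j)) =
        ENNReal.ofReal (∑ j, C * (D w i + D w j)) := fun i =>
      (ENNReal.ofReal_sum_of_nonneg fun j _ =>
        mul_nonneg hC0 (add_nonneg (hD0 w i) (hD0 w j))).symm
    rw [Finset.sum_congr rfl fun i _ => h2 i, ← ENNReal.ofReal_sum_of_nonneg fun i _ =>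
      Finset.sum_nonneg fun j _ => mul_nonneg hC0 (add_nonneg (hD0 w i) (hD0 w j)),
      ← ENNReal.ofReal_mul (by positivity)]
    apply ENNReal.ofReal_le_ofReal
    apply le_of_eq
    simp only [← Finset.mul_sum, Finset.sum_add_distrib, Finset.sum_const, Finset.card_univ,
      Fintype.card_fin, nsmul_eq_mul]
    ring
  have hI := lintegral_mono (μ := gam n) hP
  rw [lintegral_const_mul' _ _ ENNReal.ofReal_ne_top, lintegral_finsetSum] at hI
  · have h3 : ∀ i j, ∫⁻ w, (rvG a i j).indicator (fun _ => ENNReal.ofReal (|a i - a j| ^ q)) w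
        ∂(gam n) = ENNReal.ofReal (|a i - a j| ^ q) * gam n (rvG a i j) := fun i j => by
      rw [lintegral_indicator_const (rvG_meas a i j)]
    have h4 : ∀ i, ∫⁻ w, ∑ j, (rvG a i j).indicator
        (fun _ => ENNReal.ofReal (|a i - a j| ^ q)) w ∂(gam n) =
        ∑ j, ENNReal.ofReal (|a i - a j| ^ q) * gam n (rvG a i j) := by
      intro i
      rw [lintegral_finsetSum]
      · exact Finset.sum_congr rfl fun j _ => h3 i j
      · intro j _
        exact measurable_const.indicator (rvG_meas a i j)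
    rw [Finset.sum_congr rfl fun i _ => h4 i] at hI
    have h5 : ENNReal.ofReal ((n : ℝ) / 2 * ∑ i, |a i - 1| ^ q) ≤
        ∑ i, ∑ j, ENNReal.ofReal (|a i - a j| ^ q) * gam n (rvG a i j) := by
      have h6 : ∀ i, ENNReal.ofReal ((n : ℝ) / 2 * |a i - 1| ^ q) ≤
          ∑ j, ENNReal.ofReal (|a i - a j| ^ q) * gam n (rvG a i j) := by
        intro i
        calc ENNReal.ofReal ((n : ℝ) / 2 * |a i - 1| ^ q)
            ≤ ENNReal.ofReal (∑ j, |a i - a j| ^ q * (1 / 2)) := by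
              apply ENNReal.ofReal_le_ofReal
              rw [← Finset.sum_mul]
              have := rv_jensen hn a hs hq i
              linarith
          _ = ∑ j, ENNReal.ofReal (|a i - a j| ^ q) * ENNReal.ofReal (1 / 2) := by
              rw [ENNReal.ofReal_sum_of_nonneg fun j _ =>
                mul_nonneg (Real.rpow_nonneg (abs_nonneg _) _) (by norm_num)]
              exact Finset.sum_congr rfl fun j _ =>
                ENNReal.ofReal_mul (Real.rpow_nonneg (abs_nonneg _) _)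
          _ ≤ _ := Finset.sum_le_sum fun j _ =>
              mul_le_mul_right (rvG_prob n hn a ha hs i j) _
      rw [Finset.mul_sum, ENNReal.ofReal_sum_of_nonneg fun i _ =>
        mul_nonneg (by positivity) (Real.rpow_nonneg (abs_nonneg _) _)]
      exact Finset.sum_le_sum fun i _ => h6 i
    have h7 := h5.trans hI
    have h8 : ENNReal.ofReal (∑ i, |a i - 1| ^ q) =
        ENNReal.ofReal (2 / n) * ENNReal.ofReal ((n : ℝ) / 2 * ∑ i, |a i - 1| ^ q) := by
      rw [← ENNReal.ofReal_mul (by positivity)]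
      congr 1
      field_simp
    rw [h8]
    refine (mul_le_mul_right h7 _).trans ?_
    rw [← mul_assoc, ← ENNReal.ofReal_mul (by positivity)]
    apply mul_le_mul_left
    apply ENNReal.ofReal_le_ofReal
    have h9 : (2 : ℝ) ^ (q - 1) = 2 ^ q / 2 := by
      rw [Real.rpow_sub_one (by norm_num)]
    have h10 : C * (2 * n) = (2 * 800) ^ q * n ^ q * n := by
      rw [hC, h9, Real.mul_rpow (by norm_num) hn0.le, Real.mul_rpow (by norm_num) (by norm_num)]
      ring
    rw [h10]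
    have h11 : (2 * 800 : ℝ) ^ q ≤ (2 * 800) ^ (3 : ℝ) :=
      Real.rpow_le_rpow_of_exponent_le (by norm_num) hq3
    have h12 : (2 * 800 : ℝ) ^ (3 : ℝ) = 4096000000 := by
      rw [show (3 : ℝ) = ((3 : ℕ) : ℝ) by norm_num, Real.rpow_natCast]
      norm_num
    have h13 : (0 : ℝ) ≤ (n : ℝ) ^ q := by positivity
    calc 2 / (n : ℝ) * ((2 * 800) ^ q * n ^ q * n) = 2 * (2 * 800) ^ q * n ^ q := by
          field_simp
      _ ≤ 10 ^ 10 * n ^ q := by
          apply mul_le_mul_of_nonneg_right _ h13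
          linarith
  · intro i _
    exact Finset.measurable_sum _ fun j _ => measurable_const.indicator (rvG_meas a i j)

end Pool.Agent.H494.Kac
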