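import Pool.Agent.H494.Kac.Defs2

open MeasureTheory Filter Topology
open scoped ENNReal

namespace Pool.Agent.H494.Kac
theorem reverse32 (n : ℕ) (hn : 2 ≤ n) (a : Fin n → ℝ)
    (h : ENNReal.ofReal (∑ i, |a i - 1| ^ (2 : ℝ)) ≤ ENNReal.ofReal (10 ^ 10 * (n : ℝ) ^ (2 : ℝ)) *
      ∫⁻ w, ENNReal.ofReal (∑ i, |w i ^ 2 * a i / (∑ j, w j ^ 2 * a j) -
        w i ^ 2 / ∑ j, w j ^ 2| ^ (2 : ℝ)) ∂(gam n)) :
    ENNReal.ofReal ((∑ i, (a i - 1) ^ 2) ^ (3 / 2 : ℝ)) ≤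
      ENNReal.ofReal (10 ^ 15 * (n : ℝ) ^ (3 : ℝ)) *
      ∫⁻ w, ENNReal.ofReal ((∑ i, (w i ^ 2 * a i / (∑ j, w j ^ 2 * a j) -
        w i ^ 2 / ∑ j, w j ^ 2) ^ 2) ^ (3 / 2 : ℝ)) ∂(gam n) := by
  have hprob : IsProbabilityMeasure (gam n) := by
    unfold gam
    infer_instance
  have e1 : ∀ x : ℝ, |x| ^ (2 : ℝ) = x ^ 2 := by
    intro x
    rw [Real.rpow_two, sq_abs]
  simp only [e1] at h
  set F : (Fin n → ℝ) → ℝ≥0∞ := fun w => ENNReal.ofReal (∑ i, (w i ^ 2 * a i / (∑ j, w j ^ 2 * a j) -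
        w i ^ 2 / ∑ j, w j ^ 2) ^ 2) with hF
  have hFm : Measurable F := by
    rw [hF]
    refine ENNReal.measurable_ofReal.comp ?_
    refine Finset.measurable_sum _ (fun i _ => ?_)
    refine Measurable.pow_const ?_ 2
    refine Measurable.sub ?_ ?_
    · refine Measurable.div ?_ ?_
      · exact ((measurable_pi_apply i).pow_const 2).mul_const _
      · exact Finset.measurable_sum _ (fun j _ => ((measurable_pi_apply j).pow_const 2).mul_const _)
    · refine Measurable.div ?_ ?_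
      · exact ((measurable_pi_apply i).pow_const 2)
      · exact Finset.measurable_sum _ (fun j _ => ((measurable_pi_apply j).pow_const 2))
  have hJ : (∫⁻ w, F w ∂(gam n)) ^ (3 / 2 : ℝ) ≤ ∫⁻ w, (F w) ^ (3 / 2 : ℝ) ∂(gam n) := by
    have hpq : (3 / 2 : ℝ).HolderConjugate 3 := by
      rw [Real.holderConjugate_iff]
      norm_num
    have := ENNReal.lintegral_mul_le_Lp_mul_Lq (gam n) hpq (f := F) (g := fun _ => 1)
      hFm.aemeasurable aemeasurable_const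
    simp only [Pi.mul_apply, mul_one, ENNReal.one_rpow, lintegral_const, measure_univ] at this
    have h2 := ENNReal.rpow_le_rpow this (by norm_num : (0 : ℝ) ≤ 3 / 2)
    rw [← ENNReal.rpow_mul] at h2
    norm_num at h2
    exact h2
  have hL := ENNReal.rpow_le_rpow h (by norm_num : (0 : ℝ) ≤ 3 / 2)
  rw [ENNReal.mul_rpow_of_nonneg _ _ (by norm_num : (0 : ℝ) ≤ 3 / 2),
    ENNReal.ofReal_rpow_of_nonneg (Finset.sum_nonneg fun i _ => sq_nonneg _) (by norm_num),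
    ENNReal.ofReal_rpow_of_nonneg (by positivity) (by norm_num)] at hL
  have hc : (10 ^ 10 * (n : ℝ) ^ (2 : ℝ)) ^ (3 / 2 : ℝ) = 10 ^ 15 * (n : ℝ) ^ (3 : ℝ) := by
    rw [Real.mul_rpow (by positivity) (by positivity), ← Real.rpow_mul (by positivity)]
    have : ((10 : ℝ) ^ 10) ^ (3 / 2 : ℝ) = 10 ^ 15 := by
      rw [← Real.rpow_natCast, ← Real.rpow_mul (by norm_num)]
      norm_num
    rw [this]
    norm_num
  rw [hc] at hL
  refine hL.trans ?_
  gcongr
  refine hJ.trans (le_of_eq ?_)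
  refine lintegral_congr fun w => ?_
  rw [hF]
  simp only
  rw [ENNReal.ofReal_rpow_of_nonneg (Finset.sum_nonneg fun i _ => sq_nonneg _) (by norm_num)]

end Pool.Agent.H494.Kac
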