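import Pool.Agent.H494.Kac.Defs2

open MeasureTheory Filter Topology
open scoped ENNReal

namespace Pool.Agent.H494.Kac
theorem rot_pol (n : ℕ) (i j : Fin n) (hij : i ≠ j) (v : Fin n → ℝ) (f : E n → ℝ≥0∞)
    (hf : Measurable f) :
    ∫⁻ θ, f (rot i j θ (WithLp.toLp 2 v)) ∂unif =
      ∫⁻ θ, f (WithLp.toLp 2 (pol i j θ v)) ∂unif := by
  set z : ℂ := ⟨v i, v j⟩ with hz
  set a : ℝ := Complex.arg z with ha
  have hr : ‖z‖ = √(v i ^ 2 + v j ^ 2) := by
    rw [Complex.norm_eq_sqrt_sq_add_sq]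
  have h1 : √(v i ^ 2 + v j ^ 2) * Real.cos a = v i := by
    rw [← hr]
    exact Complex.norm_mul_cos_arg z
  have h2 : √(v i ^ 2 + v j ^ 2) * Real.sin a = v j := by
    rw [← hr]
    exact Complex.norm_mul_sin_arg z
  set g : ℝ → ℝ≥0∞ := fun θ => f (WithLp.toLp 2 (pol i j θ v)) with hg
  have hrot : ∀ θ, f (rot i j θ (WithLp.toLp 2 v)) = g (θ + a) := by
    intro θ
    simp only [hg]
    congr 1
    unfold rot pol
    congr 1
    funext k
    by_cases hki : k = i
    · rw [if_pos hki, if_pos hki, Real.cos_add]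
      show v i * Real.cos θ - v j * Real.sin θ = _
      linear_combination (-Real.cos θ) * h1 + Real.sin θ * h2
    · rw [if_neg hki, if_neg hki]
      by_cases hkj : k = j
      · rw [if_pos hkj, if_pos hkj, Real.sin_add]
        show v i * Real.sin θ + v j * Real.cos θ = _
        linear_combination (-Real.sin θ) * h1 - Real.cos θ * h2
      · rw [if_neg hkj, if_neg hkj]
  have hper : ∀ (k : ℤ) (θ : ℝ), g (θ + k * (2 * Real.pi)) = g θ := by
    intro k θ
    simp only [hg]
    congr 2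
    unfold pol
    funext l
    rw [Real.cos_add_int_mul_two_pi, Real.sin_add_int_mul_two_pi]
  have hpi : (0:ℝ) < 2 * Real.pi := by positivity
  have hshift : ∫⁻ θ in Set.Ioc 0 (2 * Real.pi), g (θ + a) = ∫⁻ θ in Set.Ioc a (a + 2 * Real.pi), g θ := by
    rw [← (measurePreserving_add_right volume a).setLIntegral_comp_preimage_emb
      (measurableEmbedding_addRight a) g (Set.Ioc a (a + 2 * Real.pi))]
    congr 2
    rw [Set.preimage_add_const_Ioc]
    congr 1 <;> ring
  have hfund : ∫⁻ θ in Set.Ioc a (a + 2 * Real.pi), g θ = ∫⁻ θ in Set.Ioc 0 (0 + 2 * Real.pi), g θ := by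
    refine (isAddFundamentalDomain_Ioc hpi a volume).setLIntegral_eq
      (isAddFundamentalDomain_Ioc hpi 0 volume) g ?_
    rintro ⟨_, k, rfl⟩ θ
    show g (k • (2 * Real.pi) + θ) = g θ
    rw [zsmul_eq_mul, add_comm]
    exact hper k θ
  rw [zero_add] at hfund
  simp only [hrot]
  unfold unif
  rw [lintegral_smul_measure, lintegral_smul_measure, restrict_Ico_eq_restrict_Ioc, hshift, hfund]

end Pool.Agent.H494.Kac
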