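import Pool.Agent.H494.Kac.Defs2

open MeasureTheory Filter Topology
open scoped ENNReal

namespace Pool.Agent.H494.Kac
theorem sa_decay (y : ℕ → ℝ) (r : ℝ) (h0 : ∀ t, 0 ≤ y t) (h1 : y 0 ≤ 10)
    (h : ∀ t, y (t + 1) ≤ (1 - r) * y t) : ∀ t : ℕ, y t ≤ 10 * Real.exp (-(r * t)) := by
  intro t
  induction t with
  | zero => simpa using h1
  | succ t ih =>
    have h2 : 1 - r ≤ Real.exp (-r) := by
      have := Real.add_one_le_exp (-r)
      linarith
    calc y (t + 1) ≤ (1 - r) * y t := h t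
      _ ≤ Real.exp (-r) * y t := mul_le_mul_of_nonneg_right h2 (h0 t)
      _ ≤ Real.exp (-r) * (10 * Real.exp (-(r * t))) :=
          mul_le_mul_of_nonneg_left ih (Real.exp_pos _).le
      _ = 10 * (Real.exp (-r) * Real.exp (-(r * t))) := by ring
      _ = 10 * Real.exp (-(r * ((t + 1 : ℕ) : ℝ))) := by
          rw [← Real.exp_add]
          congr 2
          push_cast
          ring

theorem sa_rec (a : ℕ → ℝ) (r b B : ℝ) (hB : 0 ≤ B) (hbr : b ≤ r) (h0 : ∀ t, 0 ≤ a t)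
    (h1 : a 0 ≤ 10) (h : ∀ t : ℕ, a (t + 1) ≤ (1 - r) * a t + B * Real.exp (-(b * t))) :
    ∀ t : ℕ, a t ≤ 10 * Real.exp (-(r * t)) + B * Real.exp b * t * Real.exp (-(b * t)) := by
  intro t
  induction t with
  | zero => simpa using h1
  | succ t ih =>
    have h2 : 1 - r ≤ Real.exp (-r) := by
      have := Real.add_one_le_exp (-r)
      linarith
    have h3 : Real.exp (-r) ≤ Real.exp (-b) := Real.exp_le_exp.2 (by linarith)
    have e1 : Real.exp (-r) * Real.exp (-(r * t)) = Real.exp (-(r * ((t + 1 : ℕ) : ℝ))) := by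
      rw [← Real.exp_add]
      congr 1
      push_cast
      ring
    have e2 : Real.exp (-b) * Real.exp (-(b * t)) = Real.exp (-(b * ((t + 1 : ℕ) : ℝ))) := by
      rw [← Real.exp_add]
      congr 1
      push_cast
      ring
    have e3 : Real.exp (-(b * t)) = Real.exp b * Real.exp (-(b * ((t + 1 : ℕ) : ℝ))) := by
      rw [← Real.exp_add]
      congr 1
      push_cast
      ring
    have hnn : 0 ≤ B * Real.exp b * t * Real.exp (-(b * t)) := by positivity
    calc a (t + 1) ≤ (1 - r) * a t + B * Real.exp (-(b * t)) := h t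
      _ ≤ Real.exp (-r) * a t + B * Real.exp (-(b * t)) := by
          have := mul_le_mul_of_nonneg_right h2 (h0 t)
          linarith
      _ ≤ Real.exp (-r) * (10 * Real.exp (-(r * t)) +
            B * Real.exp b * t * Real.exp (-(b * t))) + B * Real.exp (-(b * t)) := by
          have := mul_le_mul_of_nonneg_left ih (Real.exp_pos (-r)).le
          linarith
      _ = 10 * (Real.exp (-r) * Real.exp (-(r * t))) + Real.exp (-r) *
            (B * Real.exp b * t * Real.exp (-(b * t))) + B * Real.exp (-(b * t)) := by ring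
      _ ≤ 10 * (Real.exp (-r) * Real.exp (-(r * t))) + Real.exp (-b) *
            (B * Real.exp b * t * Real.exp (-(b * t))) + B * Real.exp (-(b * t)) := by
          have := mul_le_mul_of_nonneg_right h3 hnn
          linarith
      _ = 10 * (Real.exp (-r) * Real.exp (-(r * t))) + B * Real.exp b * t *
            (Real.exp (-b) * Real.exp (-(b * t))) + B * Real.exp (-(b * t)) := by ring
      _ = 10 * Real.exp (-(r * ((t + 1 : ℕ) : ℝ))) + B * Real.exp b * t *
            Real.exp (-(b * ((t + 1 : ℕ) : ℝ))) +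
            B * (Real.exp b * Real.exp (-(b * ((t + 1 : ℕ) : ℝ)))) := by rw [e1, e2, ← e3]
      _ = 10 * Real.exp (-(r * ((t + 1 : ℕ) : ℝ))) + B * Real.exp b * ((t + 1 : ℕ) : ℝ) *
            Real.exp (-(b * ((t + 1 : ℕ) : ℝ))) := by
          push_cast
          ring

theorem sa_ev (A b ε : ℝ) (hb : 0 < b) (hε : 0 < ε) :
    ∀ᶠ n : ℕ in atTop, A * Real.exp (-(b * Real.log n)) ≤ ε := by
  have h1 : Tendsto (fun n : ℕ => Real.log (n : ℝ)) atTop atTop :=
    Real.tendsto_log_atTop.comp tendsto_natCast_atTop_atTop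
  have h2 : Tendsto (fun n : ℕ => b * Real.log (n : ℝ)) atTop atTop :=
    h1.const_mul_atTop hb
  have h3 : Tendsto (fun n : ℕ => A * Real.exp (-(b * Real.log (n : ℝ)))) atTop (𝓝 (A * 0)) :=
    (Real.tendsto_exp_neg_atTop_nhds_zero.comp h2).const_mul A
  rw [mul_zero] at h3
  exact h3.eventually_le_const hε

theorem seq_all (δ c q Φ K ε : ℝ) (hδ : 0 < δ) (hδ1 : δ ≤ 1) (hc : 1 / 8 ≤ c)
    (hc1 : c ≤ 1315 / 10000) (hq : 9 / 4 ≤ q) (hq3 : q ≤ 3) (hΦ8 : q / 8 ≤ Φ) (hΦ2 : Φ ≤ 1 / 2)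
    (hΦ : c * q < (1 + δ / 2) * Φ) (hK : 0 < K) (hε : 0 < ε)
    (hv : ∀ e : ℝ, 0 < e → e < 3 / 4 →
      ∃ (C : ℝ) (N : ℕ), 0 < C ∧ ∀ n : ℕ, N ≤ n → ∀ u v : ℕ → ℝ, (∀ t, 0 ≤ u t ∧ 0 ≤ v t) →
      u 0 ≤ 10 → v 0 ≤ 10 →
      (∀ t, u (t + 1) ≤ (1 - 3 / (4 * n)) * u t + 20 / n * (n : ℝ) ^ (-(1 / 2) : ℝ) * v t) →
      (∀ t, v (t + 1) ≤ (1 - 3 / (4 * n)) * v t + 20 / n * u t) →
      ∀ t : ℕ, v t ≤ C * Real.exp (-((3 / 4 - e) * t / n))) :
    ∀ᶠ n : ℕ in atTop, ∀ y u v a : ℕ → ℝ, (∀ t, 0 ≤ y t ∧ 0 ≤ u t ∧ 0 ≤ v t ∧ 0 ≤ a t) →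
      (y 0 ≤ 10 ∧ u 0 ≤ 10 ∧ v 0 ≤ 10 ∧ a 0 ≤ 10) →
      (∀ t, y (t + 1) ≤ (1 - 1 / (2 * n)) * y t) →
      (∀ t, u (t + 1) ≤ (1 - 3 / (4 * n)) * u t + 20 / n * (n : ℝ) ^ (-(1 / 2) : ℝ) * v t) →
      (∀ t, v (t + 1) ≤ (1 - 3 / (4 * n)) * v t + 20 / n * u t) →
      (∀ t, a (t + 1) ≤ (1 - 2 * Φ / n) * a t +
        20 / n * (n : ℝ) ^ (1 - q / 2) * v t ^ (q / 3)) →
      ∀ t : ℕ, (1 + δ) * (n * Real.log n) / (2 * c) ≤ t →
        t ≤ (1 + δ) * (n * Real.log n) / (2 * c) + 1 →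
        K * (n : ℝ) ^ (2 : ℝ) * y t ≤ (n : ℝ) ^ (1 / 5 : ℝ) ∧
        K * (n : ℝ) ^ (3 : ℝ) * v t ≤ (n : ℝ) ^ (18 / 100 : ℝ) ∧
        K * (n : ℝ) ^ q * a t ≤ ε := by
  obtain ⟨C, N, hC, hvC⟩ := hv (1 / 1000) (by norm_num) (by norm_num)
  have hc0 : 0 < c := by linarith
  have hΦ0 : 0 < Φ := by linarith
  obtain ⟨η, hη⟩ : ∃ η : ℝ, η = (1 + δ) * Φ / c - q := ⟨_, rfl⟩
  have hη0 : 0 < η := by
    rw [hη, sub_pos, lt_div_iff₀ hc0]
    nlinarith
  obtain ⟨C', hC'⟩ : ∃ C' : ℝ, C' = C ^ (q / 3) := ⟨_, rfl⟩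
  have hC'0 : 0 < C' := by rw [hC']; exact Real.rpow_pos_of_pos hC _
  have E1 : ∀ᶠ n : ℕ in atTop, 1 ≤ Real.log (n : ℝ) :=
    (Real.tendsto_log_atTop.comp tendsto_natCast_atTop_atTop).eventually_ge_atTop 1
  have E2 := sa_ev (10 * K) (1 / 10) 1 (by norm_num) one_pos
  have E3 := sa_ev (K * C) (2 / 100) 1 (by norm_num) one_pos
  have E4 := sa_ev (10 * K) η (ε / 2) hη0 (by positivity)
  have E5 := sa_ev (108000 * K * C') (1 / 200) (ε / 2) (by norm_num) (by positivity)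
  filter_upwards [E1, E2, E3, E4, E5, eventually_ge_atTop N, eventually_ge_atTop 1] with
    n e1 e2 e3 e4 e5 hN hn1
  intro y u v a hnn h0 hy hu hvv ha t ht1 ht2
  obtain ⟨L, hL⟩ : ∃ L : ℝ, L = Real.log (n : ℝ) := ⟨_, rfl⟩
  rw [← hL] at e1 e2 e3 e4 e5 ht1 ht2
  have hn : (1 : ℝ) ≤ n := by exact_mod_cast hn1
  have hn0 : (0 : ℝ) < n := by linarith
  have hrp : ∀ s : ℝ, (n : ℝ) ^ s = Real.exp (L * s) := by
    intro s
    rw [Real.rpow_def_of_pos hn0, hL]
  have hnL : 1 ≤ (n : ℝ) * L := by nlinarith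
  -- bounds on τ = t / n
  obtain ⟨τ, hτ⟩ : ∃ τ : ℝ, τ = (t : ℝ) / n := ⟨_, rfl⟩
  have htτ : (t : ℝ) = τ * n := by rw [hτ]; field_simp
  have hτ1 : (1 + δ) * L / (2 * c) ≤ τ := by
    rw [hτ, le_div_iff₀ hn0]
    calc (1 + δ) * L / (2 * c) * n = (1 + δ) * (n * L) / (2 * c) := by ring
      _ ≤ t := ht1
  have hτ2 : 3802 / 1000 * L ≤ τ := by
    refine le_trans ?_ hτ1
    rw [le_div_iff₀ (by positivity)]
    nlinarith [mul_nonneg hδ.le (by linarith : (0:ℝ) ≤ L),
      mul_le_mul_of_nonneg_right hc1 (by linarith : (0:ℝ) ≤ L)]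
  have hτ3 : τ ≤ 9 * L := by
    rw [hτ, div_le_iff₀ hn0]
    have h1 : (1 + δ) * (n * L) / (2 * c) ≤ 8 * (n * L) := by
      rw [div_le_iff₀ (by positivity)]
      nlinarith [mul_nonneg (by linarith : (0:ℝ) ≤ c - 1 / 8) (by linarith : (0:ℝ) ≤ n * L),
        mul_nonneg (by linarith : (0:ℝ) ≤ 1 - δ) (by linarith : (0:ℝ) ≤ n * L)]
    nlinarith
  have hL0 : 0 ≤ L := by linarith
  have hτ0 : 0 ≤ τ := by nlinarith
  refine ⟨?_, ?_, ?_⟩
  · -- y
    have h1 := sa_decay y (1 / (2 * n)) (fun t => (hnn t).1) h0.1 hy t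
    have h2 : (1 / (2 * (n : ℝ)) * t) = τ / 2 := by
      rw [htτ]
      field_simp
    rw [h2] at h1
    rw [hrp, hrp]
    calc K * Real.exp (L * 2) * y t ≤ K * Real.exp (L * 2) * (10 * Real.exp (-(τ / 2))) :=
          mul_le_mul_of_nonneg_left h1 (by positivity)
      _ = 10 * K * Real.exp (L * 2 + -(τ / 2)) := by rw [Real.exp_add]; ring
      _ ≤ 10 * K * Real.exp (-(1 / 10 * L) + L * (1 / 5)) := by
          refine mul_le_mul_of_nonneg_left (Real.exp_le_exp.2 ?_) (by positivity)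
          linarith
      _ = (10 * K * Real.exp (-(1 / 10 * L))) * Real.exp (L * (1 / 5)) := by
          rw [Real.exp_add]; ring
      _ ≤ 1 * Real.exp (L * (1 / 5)) := mul_le_mul_of_nonneg_right e2 (Real.exp_pos _).le
      _ = _ := one_mul _
  · -- v
    have h1 := hvC n hN u v (fun t => ⟨(hnn t).2.1, (hnn t).2.2.1⟩) h0.2.1 h0.2.2.1 hu hvv t
    have h2 : ((3 / 4 - 1 / 1000) * (t : ℝ) / n) = 749 / 1000 * τ := by
      rw [hτ]
      ring
    rw [h2] at h1
    rw [hrp, hrp]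
    calc K * Real.exp (L * 3) * v t
        ≤ K * Real.exp (L * 3) * (C * Real.exp (-(749 / 1000 * τ))) :=
          mul_le_mul_of_nonneg_left h1 (by positivity)
      _ = K * C * Real.exp (L * 3 + -(749 / 1000 * τ)) := by rw [Real.exp_add]; ring
      _ ≤ K * C * Real.exp (-(2 / 100 * L) + L * (18 / 100)) := by
          refine mul_le_mul_of_nonneg_left (Real.exp_le_exp.2 ?_) (by positivity)
          linarith
      _ = (K * C * Real.exp (-(2 / 100 * L))) * Real.exp (L * (18 / 100)) := by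
          rw [Real.exp_add]; ring
      _ ≤ 1 * Real.exp (L * (18 / 100)) := mul_le_mul_of_nonneg_right e3 (Real.exp_pos _).le
      _ = _ := one_mul _
  · -- a
    obtain ⟨b, hb⟩ : ∃ b : ℝ, b = 749 / 1000 * (q / 3) / n := ⟨_, rfl⟩
    obtain ⟨B, hB⟩ : ∃ B : ℝ, B = 20 / n * (n : ℝ) ^ (1 - q / 2) * C' := ⟨_, rfl⟩
    have hB0 : 0 ≤ B := by
      rw [hB]
      have := Real.rpow_pos_of_pos hn0 (1 - q / 2)
      positivity
    have hbr : b ≤ 2 * Φ / n := by
      rw [hb]
      refine div_le_div_of_nonneg_right ?_ hn0.le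
      nlinarith
    have hrec : ∀ t : ℕ, a (t + 1) ≤ (1 - 2 * Φ / n) * a t + B * Real.exp (-(b * t)) := by
      intro t
      have h1 := hvC n hN u v (fun t => ⟨(hnn t).2.1, (hnn t).2.2.1⟩) h0.2.1 h0.2.2.1 hu hvv t
      have h2 : v t ^ (q / 3) ≤ C' * Real.exp (-(b * t)) := by
        calc v t ^ (q / 3) ≤ (C * Real.exp (-((3 / 4 - 1 / 1000) * t / n))) ^ (q / 3) :=
              Real.rpow_le_rpow (hnn t).2.2.1 h1 (by linarith)
          _ = C ^ (q / 3) * (Real.exp (-((3 / 4 - 1 / 1000) * t / n))) ^ (q / 3) :=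
              Real.mul_rpow hC.le (Real.exp_pos _).le
          _ = C' * Real.exp (-(b * t)) := by
              rw [← Real.exp_mul, hC', hb]
              congr 2
              ring
      have h3 : 20 / (n : ℝ) * (n : ℝ) ^ (1 - q / 2) * v t ^ (q / 3) ≤
          B * Real.exp (-(b * t)) := by
        rw [hB]
        calc 20 / (n : ℝ) * (n : ℝ) ^ (1 - q / 2) * v t ^ (q / 3)
            ≤ 20 / (n : ℝ) * (n : ℝ) ^ (1 - q / 2) * (C' * Real.exp (-(b * t))) := by
              refine mul_le_mul_of_nonneg_left h2 ?_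
              have := Real.rpow_pos_of_pos hn0 (1 - q / 2)
              positivity
          _ = _ := by ring
      linarith [ha t]
    have h1 := sa_rec a (2 * Φ / n) b B hB0 hbr (fun t => (hnn t).2.2.2) h0.2.2.2 hrec t
    have hq0 : 0 < q := by linarith
    have hbt : b * t = 749 / 1000 * (q / 3) * τ := by
      rw [hb, hτ]
      ring
    have hΦt : 2 * Φ / n * t = 2 * Φ * τ := by
      rw [hτ]
      ring
    rw [hbt, hΦt] at h1
    have hbe : Real.exp b ≤ 3 := by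
      have hb1 : b ≤ 1 := by
        rw [hb, div_le_one hn0]
        nlinarith
      have := Real.exp_one_lt_d9
      have h5 : Real.exp b ≤ Real.exp 1 := Real.exp_le_exp.2 hb1
      linarith
    -- first term
    have hT1 : K * (n : ℝ) ^ q * (10 * Real.exp (-(2 * Φ * τ))) ≤ ε / 2 := by
      rw [hrp]
      refine le_trans ?_ e4
      calc K * Real.exp (L * q) * (10 * Real.exp (-(2 * Φ * τ)))
          = 10 * K * Real.exp (L * q + -(2 * Φ * τ)) := by rw [Real.exp_add]; ring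
        _ ≤ 10 * K * Real.exp (-(η * L)) := by
            refine mul_le_mul_of_nonneg_left (Real.exp_le_exp.2 ?_) (by positivity)
            have h6 : 2 * Φ * ((1 + δ) * L / (2 * c)) ≤ 2 * Φ * τ :=
              mul_le_mul_of_nonneg_left hτ1 (by positivity)
            have h7 : 2 * Φ * ((1 + δ) * L / (2 * c)) = (1 + δ) * Φ / c * L := by
              field_simp
            rw [hη]
            rw [h7] at h6
            linarith
    -- second term
    have hT2 : K * (n : ℝ) ^ q * (B * Real.exp b * t *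
        Real.exp (-(749 / 1000 * (q / 3) * τ))) ≤ ε / 2 := by
      refine le_trans ?_ e5
      have hLe : L ≤ 200 * Real.exp (L / 200) := by
        have := Real.add_one_le_exp (L / 200)
        linarith
      have hbig : Real.exp (L * q) * Real.exp (L * (1 - q / 2)) *
          Real.exp (-(749 / 1000 * (q / 3) * τ)) ≤ Real.exp (-(1 / 100 * L)) := by
        rw [← Real.exp_add, ← Real.exp_add]
        refine Real.exp_le_exp.2 ?_
        have h8 : 749 / 1000 * (q / 3) * (3802 / 1000 * L) ≤ 749 / 1000 * (q / 3) * τ :=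
          mul_le_mul_of_nonneg_left hτ2 (by positivity)
        nlinarith [mul_nonneg (by linarith : (0:ℝ) ≤ q - 9 / 4) hL0]
      have heq : K * (n : ℝ) ^ q * (B * Real.exp b * t *
          Real.exp (-(749 / 1000 * (q / 3) * τ))) = 20 * K * C' * τ * Real.exp b *
          (Real.exp (L * q) * Real.exp (L * (1 - q / 2)) *
            Real.exp (-(749 / 1000 * (q / 3) * τ))) := by
        rw [hB, hrp, hrp, htτ]
        field_simp
      rw [heq]
      calc 20 * K * C' * τ * Real.exp b * (Real.exp (L * q) * Real.exp (L * (1 - q / 2)) *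
            Real.exp (-(749 / 1000 * (q / 3) * τ)))
          ≤ 20 * K * C' * τ * Real.exp b * Real.exp (-(1 / 100 * L)) :=
            mul_le_mul_of_nonneg_left hbig (by positivity)
        _ ≤ 20 * K * C' * τ * 3 * Real.exp (-(1 / 100 * L)) := by
            refine mul_le_mul_of_nonneg_right ?_ (Real.exp_pos _).le
            exact mul_le_mul_of_nonneg_left hbe (by positivity)
        _ = (60 * K * C' * Real.exp (-(1 / 100 * L))) * τ := by ring
        _ ≤ (60 * K * C' * Real.exp (-(1 / 100 * L))) * (9 * (200 * Real.exp (L / 200))) := by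
            refine mul_le_mul_of_nonneg_left ?_ (by positivity)
            linarith
        _ = 108000 * K * C' * Real.exp (-(1 / 100 * L) + L / 200) := by
            rw [Real.exp_add]; ring
        _ = 108000 * K * C' * Real.exp (-(1 / 200 * L)) := by
            congr 2
            ring
    have hKn : 0 ≤ K * (n : ℝ) ^ q := by
      have := Real.rpow_pos_of_pos hn0 q
      positivity
    calc K * (n : ℝ) ^ q * a t ≤ K * (n : ℝ) ^ q * (10 * Real.exp (-(2 * Φ * τ)) +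
          B * Real.exp b * t * Real.exp (-(749 / 1000 * (q / 3) * τ))) :=
          mul_le_mul_of_nonneg_left h1 hKn
      _ = K * (n : ℝ) ^ q * (10 * Real.exp (-(2 * Φ * τ))) + K * (n : ℝ) ^ q *
          (B * Real.exp b * t * Real.exp (-(749 / 1000 * (q / 3) * τ))) := by ring
      _ ≤ ε / 2 + ε / 2 := add_le_add hT1 hT2
      _ = ε := by ring

end Pool.Agent.H494.Kac
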