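import Pool.Agent.H494.Kac.Defs2

open MeasureTheory Filter Topology
open scoped ENNReal

namespace Pool.Agent.H494.Kac
theorem seq_v (e : ℝ) (he : 0 < e) (he1 : e < 3 / 4) :
    ∃ (C : ℝ) (N : ℕ), 0 < C ∧ ∀ n : ℕ, N ≤ n → ∀ u v : ℕ → ℝ, (∀ t, 0 ≤ u t ∧ 0 ≤ v t) →
      u 0 ≤ 10 → v 0 ≤ 10 →
      (∀ t, u (t + 1) ≤ (1 - 3 / (4 * n)) * u t + 20 / n * (n : ℝ) ^ (-(1 / 2) : ℝ) * v t) →
      (∀ t, v (t + 1) ≤ (1 - 3 / (4 * n)) * v t + 20 / n * u t) →
      ∀ t : ℕ, v t ≤ C * Real.exp (-((3 / 4 - e) * t / n)) := by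
  set lam : ℝ := e / 20 with hlam
  have hl : 0 < lam := by positivity
  refine ⟨(10 + 10 * lam) / lam, ⌈(400 / e ^ 2) ^ 2⌉₊ + 1, by positivity, ?_⟩
  intro n hn u v hnn hu0 hv0 hu hv t
  have hn1 : (400 / e ^ 2) ^ 2 ≤ (n : ℝ) := by
    refine (Nat.le_ceil _).trans ?_
    have : ⌈(400 / e ^ 2) ^ 2⌉₊ ≤ n := by omega
    exact_mod_cast this
  have hnpos : (0 : ℝ) < n := by
    have : 0 < n := by omega
    exact_mod_cast this
  have hsq : 400 / e ^ 2 ≤ √(n : ℝ) := Real.le_sqrt_of_sq_le hn1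
  have hsp : 0 < √(n : ℝ) := Real.sqrt_pos.2 hnpos
  have hr : (n : ℝ) ^ (-(1 / 2) : ℝ) = (√(n : ℝ))⁻¹ := by
    rw [Real.rpow_neg hnpos.le, Real.sqrt_eq_rpow]
  have hr2 : 20 * (n : ℝ) ^ (-(1 / 2) : ℝ) ≤ lam * e := by
    rw [hr]
    have h1 : 400 ≤ √(n : ℝ) * e ^ 2 := by
      rwa [div_le_iff₀ (by positivity)] at hsq
    rw [← div_eq_mul_inv, div_le_iff₀ hsp, hlam]
    nlinarith
  have hstep : ∀ t, u (t + 1) + lam * v (t + 1) ≤
      Real.exp (-((3 / 4 - e) / n)) * (u t + lam * v t) := by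
    intro t
    have h1 := hu t
    have h2 := hv t
    obtain ⟨hu', hv'⟩ := hnn t
    have h3 : u (t + 1) + lam * v (t + 1) ≤ (1 - (3 / 4 - e) / n) * (u t + lam * v t) := by
      have h4 : 20 / (n : ℝ) * (n : ℝ) ^ (-(1 / 2) : ℝ) * v t ≤ lam * e / n * v t := by
        refine mul_le_mul_of_nonneg_right ?_ hv'
        rw [div_mul_eq_mul_div]
        exact div_le_div_of_nonneg_right hr2 hnpos.le
      have h5 : lam * v (t + 1) ≤ lam * ((1 - 3 / (4 * n)) * v t + 20 / n * u t) :=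
        mul_le_mul_of_nonneg_left h2 hl.le
      have h6 : (1 - 3 / (4 * (n : ℝ))) * u t + lam * e / n * v t +
          lam * ((1 - 3 / (4 * n)) * v t + 20 / n * u t) =
          (1 - (3 / 4 - e) / n) * (u t + lam * v t) := by
        rw [hlam]
        field_simp
        ring
      linarith
    refine h3.trans (mul_le_mul_of_nonneg_right ?_ (by positivity))
    have := Real.add_one_le_exp (-((3 / 4 - e) / (n : ℝ)))
    linarith
  have hW : ∀ t : ℕ, u t + lam * v t ≤ Real.exp (-((3 / 4 - e) * t / n)) * (10 + 10 * lam) := by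
    intro t
    induction t with
    | zero =>
      simp only [Nat.cast_zero, mul_zero, zero_div, neg_zero, Real.exp_zero, one_mul]
      nlinarith
    | succ t ih =>
      refine (hstep t).trans ?_
      have h1 : Real.exp (-((3 / 4 - e) * ((t + 1 : ℕ) : ℝ) / n)) =
          Real.exp (-((3 / 4 - e) / n)) * Real.exp (-((3 / 4 - e) * t / n)) := by
        rw [← Real.exp_add]
        congr 1
        push_cast
        ring
      rw [h1, mul_assoc]
      exact mul_le_mul_of_nonneg_left ih (Real.exp_pos _).le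
  have h1 := hW t
  have h2 := (hnn t).1
  have h3 : lam * v t ≤ Real.exp (-((3 / 4 - e) * t / n)) * (10 + 10 * lam) := by linarith
  rw [div_mul_eq_mul_div, le_div_iff₀ hl]
  linarith

end Pool.Agent.H494.Kac
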