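import Pool.Agent.H494.Kac.Defs2

open MeasureTheory Filter Topology
open scoped ENNReal

namespace Pool.Agent.H494.Kac
instance sa_prob (n : ℕ) : IsProbabilityMeasure (gam n) := by
  unfold gam
  infer_instance

theorem sa_meas_col {n : ℕ} (k i : Fin n) :
    Measurable (fun M : Fin n → Fin n → ℝ => col M k i) := by
  unfold col
  fun_prop

theorem sa_meas_trc {n : ℕ} (k i : Fin n) :
    Measurable (fun M : Fin n → Fin n → ℝ => trc M k i) := by
  unfold trc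
  have h := fun j => sa_meas_col (n := n) k j
  refine Measurable.ite ?_ ((h i).sub_const 1) measurable_const
  refine MeasurableSet.inter ?_ ?_
  · exact measurableSet_le (continuous_abs.measurable.comp ((h i).sub_const 1)) measurable_const
  · exact measurableSet_le (Finset.measurable_fun_sum _ (fun j _ => ((h j).sub_const 1).pow_const 2))
      measurable_const

theorem sa_ineq (x q : ℝ) (hx : 1 / 30 < |x|) (hq : 2 ≤ q) (hq3 : q ≤ 3) :
    x ^ 2 ≤ 30 * |x| ^ q := by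
  have hx0 : 0 < |x| := by linarith
  have h1 : |x| ^ q = x ^ 2 * |x| ^ (q - 2) := by
    rw [← sq_abs x, ← Real.rpow_natCast |x| 2, ← Real.rpow_add hx0]
    congr 1
    push_cast
    ring
  have h2 : 1 / 30 ≤ |x| ^ (q - 2) := by
    by_cases h : 1 ≤ |x|
    · have := Real.one_le_rpow h (by linarith : 0 ≤ q - 2)
      linarith
    · push Not at h
      have := Real.rpow_le_rpow_of_exponent_ge hx0 h.le (by linarith : q - 2 ≤ 1)
      rw [Real.rpow_one] at this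
      linarith
  rw [h1]
  have := sq_nonneg x
  nlinarith

theorem sa_col {n : ℕ} (hn : 2 ≤ n) (M : Fin n → Fin n → ℝ) (k : Fin n) (q : ℝ) (hq : 2 ≤ q)
    (hq3 : q ≤ 3) :
    ∑ i, (col M k i - 1 - trc M k i) ^ 2 ≤ 30 * ∑ i, |col M k i - 1| ^ q +
      (n : ℝ) ^ (-(1 / 5) : ℝ) * (∑ i, (col M k i - 1) ^ 2) ^ (3 / 2 : ℝ) := by
  have hn0 : (0 : ℝ) < n := by
    have : 0 < n := by omega
    exact_mod_cast this
  have he : 0 ≤ ∑ i, (col M k i - 1) ^ 2 := Finset.sum_nonneg (fun i _ => sq_nonneg _)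
  have hU : 0 ≤ ∑ i, |col M k i - 1| ^ q :=
    Finset.sum_nonneg (fun i _ => Real.rpow_nonneg (abs_nonneg _) _)
  by_cases h : ∑ j, (col M k j - 1) ^ 2 ≤ (n : ℝ) ^ (2 / 5 : ℝ)
  · have h1 : ∑ i, (col M k i - 1 - trc M k i) ^ 2 ≤ 30 * ∑ i, |col M k i - 1| ^ q := by
      rw [Finset.mul_sum]
      refine Finset.sum_le_sum (fun i _ => ?_)
      unfold trc
      by_cases h2 : |col M k i - 1| ≤ 1 / 30
      · rw [if_pos ⟨h2, h⟩, sub_self]
        have := Real.rpow_nonneg (abs_nonneg (col M k i - 1)) q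
        nlinarith
      · rw [if_neg (fun h3 => h2 h3.1), sub_zero]
        push Not at h2
        exact sa_ineq _ q h2 hq hq3
    have h2 : 0 ≤ (n : ℝ) ^ (-(1 / 5) : ℝ) * (∑ i, (col M k i - 1) ^ 2) ^ (3 / 2 : ℝ) := by
      positivity
    linarith
  · have h1 : ∑ i, (col M k i - 1 - trc M k i) ^ 2 = ∑ i, (col M k i - 1) ^ 2 := by
      refine Finset.sum_congr rfl (fun i _ => ?_)
      unfold trc
      rw [if_neg (fun h3 => h h3.2), sub_zero]
    rw [h1]
    push Not at h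
    generalize ∑ i, (col M k i - 1) ^ 2 = e at *
    have hnp : 0 < (n : ℝ) ^ (2 / 5 : ℝ) := Real.rpow_pos_of_pos hn0 _
    have he0 : 0 < e := hnp.trans h
    have h2 : e ^ (3 / 2 : ℝ) = e * e ^ (1 / 2 : ℝ) := by
      rw [← Real.rpow_one_add' he0.le (by norm_num)]
      norm_num
    have h3 : (n : ℝ) ^ (1 / 5 : ℝ) ≤ e ^ (1 / 2 : ℝ) := by
      have := Real.rpow_le_rpow hnp.le h.le (by norm_num : (0 : ℝ) ≤ 1 / 2)
      rw [← Real.rpow_mul hn0.le] at this
      norm_num at this ⊢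
      exact this
    have h4 : (n : ℝ) ^ (-(1 / 5) : ℝ) * (n : ℝ) ^ (1 / 5 : ℝ) = 1 := by
      rw [← Real.rpow_add hn0]
      norm_num
    have h5 : 0 < (n : ℝ) ^ (-(1 / 5) : ℝ) := Real.rpow_pos_of_pos hn0 _
    have h6 : e = e * ((n : ℝ) ^ (-(1 / 5) : ℝ) * (n : ℝ) ^ (1 / 5 : ℝ)) := by rw [h4, mul_one]
    have h7 : (n : ℝ) ^ (-(1 / 5) : ℝ) * (n : ℝ) ^ (1 / 5 : ℝ) ≤
        (n : ℝ) ^ (-(1 / 5) : ℝ) * e ^ (1 / 2 : ℝ) := mul_le_mul_of_nonneg_left h3 h5.le
    have h8 := mul_le_mul_of_nonneg_left h7 he0.le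
    rw [← h6] at h8
    rw [h2]
    nlinarith

theorem sa_jensen {n : ℕ} (p y : Fin n → ℝ) (hp : ∀ k, 0 ≤ p k) (hp1 : ∑ k, p k = 1) :
    (∑ k, p k * y k) ^ 2 ≤ ∑ k, p k * y k ^ 2 := by
  have h := (even_two.convexOn_pow (𝕜 := ℝ)).map_sum_le (t := Finset.univ) (w := p) (p := y)
    (fun i _ => hp i) hp1 (fun i _ => Set.mem_univ _)
  simpa only [smul_eq_mul] using h

theorem sa_sqrt (X θ : ℝ) (hX : 0 ≤ X) (hθ : 0 < θ) : √X ≤ θ + X / θ := by
  have h0 := Real.sqrt_nonneg X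
  have h1 := Real.sq_sqrt hX
  have h2 : √X * θ ≤ (θ + X / θ) * θ := by
    rw [add_mul, div_mul_cancel₀ _ hθ.ne']
    nlinarith [sq_nonneg (√X - θ)]
  exact le_of_mul_le_mul_right h2 hθ

theorem sa_trc_abs {n : ℕ} (M : Fin n → Fin n → ℝ) (k i : Fin n) : |trc M k i| ≤ 1 / 30 := by
  unfold trc
  split_ifs with h
  · exact h.1
  · rw [abs_zero]
    norm_num

theorem sa_pt {n : ℕ} (hn : 2 ≤ n) (M : Fin n → Fin n → ℝ) (p : Fin n → ℝ)
    (hp : ∀ k, 0 ≤ p k) (hp1 : ∑ k, p k = 1) (q : ℝ) (hq : 2 ≤ q) (hq3 : q ≤ 3) :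
    ∑ i, (bv (col M) p i - (1 + ∑ k, p k * trc M k i)) ^ 2 ≤
      ∑ k, p k * (30 * ∑ i, |col M k i - 1| ^ q +
      (n : ℝ) ^ (-(1 / 5) : ℝ) * (∑ i, (col M k i - 1) ^ 2) ^ (3 / 2 : ℝ)) := by
  have h1 : ∀ i, (bv (col M) p i - (1 + ∑ k, p k * trc M k i)) ^ 2 ≤
      ∑ k, p k * (col M k i - 1 - trc M k i) ^ 2 := by
    intro i
    have h2 : bv (col M) p i - (1 + ∑ k, p k * trc M k i) =
        ∑ k, p k * (col M k i - 1 - trc M k i) := by
      unfold bv
      simp only [mul_sub, Finset.sum_sub_distrib, mul_one, hp1]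
      ring
    rw [h2]
    exact sa_jensen p _ hp hp1
  calc _ ≤ ∑ i, ∑ k, p k * (col M k i - 1 - trc M k i) ^ 2 :=
        Finset.sum_le_sum (fun i _ => h1 i)
    _ = ∑ k, p k * ∑ i, (col M k i - 1 - trc M k i) ^ 2 := by
        rw [Finset.sum_comm]
        simp only [Finset.mul_sum]
    _ ≤ _ := Finset.sum_le_sum (fun k _ => mul_le_mul_of_nonneg_left (sa_col hn M k q hq hq3) (hp k))

theorem shift_avg (n : ℕ) (hn : 2 ≤ n) (μ : Measure (Fin n → Fin n → ℝ)) [IsProbabilityMeasure μ]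
    (hgood : ∀ᵐ M ∂μ, (∀ i k, 0 ≤ M i k) ∧ ∀ k, 0 < ∑ i, M i k)
    (p : Fin n → ℝ) (hp : ∀ k, 0 ≤ p k) (hp1 : ∑ k, p k = 1)
    (f : (Fin n → ℝ) → ℝ) (hf : Measurable f) (hf0 : ∀ v, 0 ≤ f v) (hf1 : ∀ v, f v ≤ 1)
    (q : ℝ) (hq : 2 ≤ q) (hq3 : q ≤ 3) (ε θ : ℝ) (hε : 0 ≤ ε) (hθ : 0 < θ)
    (hU : ∀ k, ∫⁻ M, ENNReal.ofReal (∑ i, |col M k i - 1| ^ q) ∂μ ≤ ENNReal.ofReal ε)
    (hV : ∀ k, ∫⁻ M, ENNReal.ofReal ((∑ i, (col M k i - 1) ^ 2) ^ (3 / 2 : ℝ)) ∂μ ≤
      ENNReal.ofReal ((n : ℝ) ^ (18 / 100 : ℝ)))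
    (hshift : ∀ b c : Fin n → ℝ, (∀ i, 0 ≤ b i) → (∀ i, 1 / 2 ≤ c i) →
      |∫ w, f (fun i => w i * √(b i)) ∂(gam n) - ∫ w, f (fun i => w i * √(c i)) ∂(gam n)| ≤
      8 * √(∑ i, (b i - c i) ^ 2)) :
    |∫ M, ∫ w, f (fun i => w i * √(bv (col M) p i)) ∂(gam n) ∂μ -
      ∫ M, ∫ w, f (fun i => w i * √(1 + ∑ k, p k * trc M k i)) ∂(gam n) ∂μ| ≤
      8 * (θ + (30 * ε + (n : ℝ) ^ (-(1 / 50) : ℝ)) / θ) := by
  have hfb : ∀ (g : (Fin n → ℝ) → (Fin n → ℝ)), ‖∫ w, f (g w) ∂(gam n)‖ ≤ 1 := by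
    intro g
    have h := norm_integral_le_of_norm_le_const (μ := gam n) (f := fun w => f (g w)) (C := 1)
      (Eventually.of_forall (fun w => by
        rw [Real.norm_eq_abs, abs_of_nonneg (hf0 _)]
        exact hf1 _))
    simpa using h
  have hmeas : ∀ b : (Fin n → Fin n → ℝ) → Fin n → ℝ, (∀ i, Measurable (fun M => b M i)) →
      StronglyMeasurable (fun M => ∫ w, f (fun i => w i * √(b M i)) ∂(gam n)) := by
    intro b hb
    apply StronglyMeasurable.integral_prod_right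
      (f := fun (M : Fin n → Fin n → ℝ) (w : Fin n → ℝ) => f (fun i => w i * √(b M i)))
    apply Measurable.stronglyMeasurable
    apply hf.comp
    rw [measurable_pi_iff]
    intro i
    exact ((measurable_pi_apply i).comp measurable_snd).mul
      (Real.continuous_sqrt.measurable.comp ((hb i).comp measurable_fst))
  have hFm := hmeas (fun M i => bv (col M) p i) (fun i => by
    unfold bv
    exact Finset.measurable_fun_sum _ (fun k _ => (sa_meas_col k i).const_mul _))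
  have hGm := hmeas (fun M i => 1 + ∑ k, p k * trc M k i) (fun i =>
    (Finset.measurable_fun_sum _ (fun k _ => (sa_meas_trc k i).const_mul _)).const_add 1)
  have hFi : Integrable (fun M => ∫ w, f (fun i => w i * √(bv (col M) p i)) ∂(gam n)) μ :=
    Integrable.of_bound hFm.aestronglyMeasurable 1 (Eventually.of_forall (fun M => hfb _))
  have hGi : Integrable (fun M => ∫ w, f (fun i => w i * √(1 + ∑ k, p k * trc M k i)) ∂(gam n)) μ :=
    Integrable.of_bound hGm.aestronglyMeasurable 1 (Eventually.of_forall (fun M => hfb _))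
  rw [← integral_sub hFi hGi, ← Real.norm_eq_abs]
  have hn0 : (0 : ℝ) < n := by
    have : 0 < n := by omega
    exact_mod_cast this
  obtain ⟨U, hUdef⟩ : ∃ U : Fin n → (Fin n → Fin n → ℝ) → ℝ, ∀ k M,
      U k M = ∑ i, |col M k i - 1| ^ q := ⟨_, fun k M => rfl⟩
  obtain ⟨W, hWdef⟩ : ∃ W : Fin n → (Fin n → Fin n → ℝ) → ℝ, ∀ k M,
      W k M = (∑ i, (col M k i - 1) ^ 2) ^ (3 / 2 : ℝ) := ⟨_, fun k M => rfl⟩
  have hU0 : ∀ k M, 0 ≤ U k M := by
    intro k M
    rw [hUdef]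
    exact Finset.sum_nonneg (fun i _ => Real.rpow_nonneg (abs_nonneg _) _)
  have hW0 : ∀ k M, 0 ≤ W k M := by
    intro k M
    rw [hWdef]
    exact Real.rpow_nonneg (Finset.sum_nonneg (fun i _ => sq_nonneg _)) _
  have hUm : ∀ k, Measurable (U k) := by
    intro k
    have : U k = fun M => ∑ i, |col M k i - 1| ^ q := funext (hUdef k)
    rw [this]
    refine Finset.measurable_fun_sum _ (fun i _ => ?_)
    exact (continuous_abs.measurable.comp ((sa_meas_col k i).sub_const 1)).pow_const q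
  have hWm : ∀ k, Measurable (W k) := by
    intro k
    have : W k = fun M => (∑ i, (col M k i - 1) ^ 2) ^ (3 / 2 : ℝ) := funext (hWdef k)
    rw [this]
    exact (Finset.measurable_fun_sum _
      (fun j _ => ((sa_meas_col k j).sub_const 1).pow_const 2)).pow_const _
  simp only [← hUdef, ← hWdef] at hU hV
  have hνp : 0 < (n : ℝ) ^ (-(1 / 5) : ℝ) := Real.rpow_pos_of_pos hn0 _
  have hae : ∀ᵐ M ∂μ, ENNReal.ofReal ‖(∫ w, f (fun i => w i * √(bv (col M) p i)) ∂(gam n)) -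
      ∫ w, f (fun i => w i * √(1 + ∑ k, p k * trc M k i)) ∂(gam n)‖ ≤
      ENNReal.ofReal (8 * θ) + ∑ k, (ENNReal.ofReal (8 / θ * p k * 30) * ENNReal.ofReal (U k M) +
        ENNReal.ofReal (8 / θ * p k * (n : ℝ) ^ (-(1 / 5) : ℝ)) * ENNReal.ofReal (W k M)) := by
    filter_upwards [hgood] with M hM
    have h1 : ∀ i, 0 ≤ bv (col M) p i := by
      intro i
      unfold bv
      refine Finset.sum_nonneg (fun k _ => mul_nonneg (hp k) ?_)
      unfold col
      exact div_nonneg (mul_nonneg hn0.le (hM.1 i k)) (hM.2 k).le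
    have h2 : ∀ i, 1 / 2 ≤ 1 + ∑ k, p k * trc M k i := by
      intro i
      have h3 : -(1 / 30) ≤ ∑ k, p k * trc M k i := by
        calc -(1 / 30 : ℝ) = ∑ k, p k * (-(1 / 30)) := by
              rw [← Finset.sum_mul, hp1, one_mul]
          _ ≤ _ := Finset.sum_le_sum (fun k _ =>
            mul_le_mul_of_nonneg_left (abs_le.1 (sa_trc_abs M k i)).1 (hp k))
      linarith
    have h3 := hshift (fun i => bv (col M) p i) (fun i => 1 + ∑ k, p k * trc M k i) h1 h2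
    have h4 := sa_pt hn M p hp hp1 q hq hq3
    simp only [← hUdef, ← hWdef] at h4
    have hX0 : 0 ≤ ∑ i, (bv (col M) p i - (1 + ∑ k, p k * trc M k i)) ^ 2 :=
      Finset.sum_nonneg (fun i _ => sq_nonneg _)
    have h5 := sa_sqrt _ θ hX0 hθ
    have h6 := div_le_div_of_nonneg_right h4 hθ.le
    have h7 : ‖(∫ w, f (fun i => w i * √(bv (col M) p i)) ∂(gam n)) -
      ∫ w, f (fun i => w i * √(1 + ∑ k, p k * trc M k i)) ∂(gam n)‖ ≤
      8 * θ + ∑ k, (8 / θ * p k * 30 * U k M +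
        8 / θ * p k * (n : ℝ) ^ (-(1 / 5) : ℝ) * W k M) := by
      have h8 : ∑ k, (8 / θ * p k * 30 * U k M +
        8 / θ * p k * (n : ℝ) ^ (-(1 / 5) : ℝ) * W k M) =
        8 * ((∑ k, p k * (30 * U k M + (n : ℝ) ^ (-(1 / 5) : ℝ) * W k M)) / θ) := by
        rw [Finset.sum_div, Finset.mul_sum]
        refine Finset.sum_congr rfl (fun k _ => ?_)
        field_simp
      rw [h8, Real.norm_eq_abs]
      linarith
    have hc1 : ∀ k, 0 ≤ 8 / θ * p k * 30 := fun k => by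
      have := hp k
      positivity
    have hc2 : ∀ k, 0 ≤ 8 / θ * p k * (n : ℝ) ^ (-(1 / 5) : ℝ) := fun k => by
      have := hp k
      positivity
    refine (ENNReal.ofReal_le_ofReal h7).trans ?_
    rw [ENNReal.ofReal_add (by positivity) (Finset.sum_nonneg (fun k _ =>
      add_nonneg (mul_nonneg (hc1 k) (hU0 k M)) (mul_nonneg (hc2 k) (hW0 k M)))),
      ENNReal.ofReal_sum_of_nonneg (fun k _ =>
      add_nonneg (mul_nonneg (hc1 k) (hU0 k M)) (mul_nonneg (hc2 k) (hW0 k M)))]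
    refine add_le_add le_rfl (Finset.sum_le_sum (fun k _ => ?_))
    rw [ENNReal.ofReal_add (mul_nonneg (hc1 k) (hU0 k M)) (mul_nonneg (hc2 k) (hW0 k M)),
      ENNReal.ofReal_mul (hc1 k), ENNReal.ofReal_mul (hc2 k)]
  have hc1 : ∀ k, 0 ≤ 8 / θ * p k * 30 := fun k => by
    have := hp k
    positivity
  have hc2 : ∀ k, 0 ≤ 8 / θ * p k * (n : ℝ) ^ (-(1 / 5) : ℝ) := fun k => by
    have := hp k
    positivity
  have hlin : ∫⁻ M, ENNReal.ofReal ‖(∫ w, f (fun i => w i * √(bv (col M) p i)) ∂(gam n)) -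
      ∫ w, f (fun i => w i * √(1 + ∑ k, p k * trc M k i)) ∂(gam n)‖ ∂μ ≤
      ENNReal.ofReal (8 * (θ + (30 * ε + (n : ℝ) ^ (-(1 / 50) : ℝ)) / θ)) := by
    refine (lintegral_mono_ae hae).trans ?_
    have hmk : ∀ k, Measurable (fun M => ENNReal.ofReal (8 / θ * p k * 30) *
        ENNReal.ofReal (U k M) + ENNReal.ofReal (8 / θ * p k * (n : ℝ) ^ (-(1 / 5) : ℝ)) *
        ENNReal.ofReal (W k M)) := fun k => ((hUm k).ennreal_ofReal.const_mul _).add
        ((hWm k).ennreal_ofReal.const_mul _)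
    rw [lintegral_add_left measurable_const, lintegral_const, measure_univ, mul_one,
      lintegral_finsetSum _ (fun k _ => hmk k)]
    have hk : ∀ k, ∫⁻ M, (ENNReal.ofReal (8 / θ * p k * 30) * ENNReal.ofReal (U k M) +
        ENNReal.ofReal (8 / θ * p k * (n : ℝ) ^ (-(1 / 5) : ℝ)) * ENNReal.ofReal (W k M)) ∂μ ≤
        ENNReal.ofReal (8 / θ * p k * (30 * ε + (n : ℝ) ^ (-(1 / 50) : ℝ))) := by
      intro k
      rw [lintegral_add_left ((hUm k).ennreal_ofReal.const_mul _),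
        lintegral_const_mul' _ _ ENNReal.ofReal_ne_top,
        lintegral_const_mul' _ _ ENNReal.ofReal_ne_top]
      calc _ ≤ ENNReal.ofReal (8 / θ * p k * 30) * ENNReal.ofReal ε +
            ENNReal.ofReal (8 / θ * p k * (n : ℝ) ^ (-(1 / 5) : ℝ)) *
              ENNReal.ofReal ((n : ℝ) ^ (18 / 100 : ℝ)) :=
            add_le_add (mul_le_mul_right (hU k) _) (mul_le_mul_right (hV k) _)
        _ = ENNReal.ofReal (8 / θ * p k * 30 * ε +
            8 / θ * p k * (n : ℝ) ^ (-(1 / 5) : ℝ) * (n : ℝ) ^ (18 / 100 : ℝ)) := by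
            rw [← ENNReal.ofReal_mul (hc1 k), ← ENNReal.ofReal_mul (hc2 k),
              ← ENNReal.ofReal_add (mul_nonneg (hc1 k) hε)
              (mul_nonneg (hc2 k) (Real.rpow_nonneg hn0.le _))]
        _ = _ := by
            congr 1
            have hpw : (n : ℝ) ^ (-(1 / 5) : ℝ) * (n : ℝ) ^ (18 / 100 : ℝ) =
                (n : ℝ) ^ (-(1 / 50) : ℝ) := by
              rw [← Real.rpow_add hn0]
              norm_num
            rw [mul_assoc (8 / θ * p k) ((n : ℝ) ^ (-(1 / 5) : ℝ)), hpw]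
            ring
    have hpn : 0 < (n : ℝ) ^ (-(1 / 50) : ℝ) := Real.rpow_pos_of_pos hn0 _
    calc _ ≤ ENNReal.ofReal (8 * θ) +
          ∑ k, ENNReal.ofReal (8 / θ * p k * (30 * ε + (n : ℝ) ^ (-(1 / 50) : ℝ))) :=
          add_le_add le_rfl (Finset.sum_le_sum (fun k _ => hk k))
      _ = ENNReal.ofReal (8 * θ + ∑ k, 8 / θ * p k * (30 * ε + (n : ℝ) ^ (-(1 / 50) : ℝ))) := by
          have hnn : ∀ k ∈ Finset.univ, 0 ≤ 8 / θ * p k * (30 * ε + (n : ℝ) ^ (-(1 / 50) : ℝ)) := by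
            intro k _
            have := hp k
            positivity
          rw [ENNReal.ofReal_add (by positivity) (Finset.sum_nonneg hnn),
            ENNReal.ofReal_sum_of_nonneg hnn]
      _ = _ := by
          congr 1
          rw [← Finset.sum_mul, ← Finset.mul_sum, hp1]
          ring
  refine (norm_integral_le_lintegral_norm _).trans ?_
  have hpn : 0 < (n : ℝ) ^ (-(1 / 50) : ℝ) := Real.rpow_pos_of_pos hn0 _
  have hfin : 0 ≤ 8 * (θ + (30 * ε + (n : ℝ) ^ (-(1 / 50) : ℝ)) / θ) := by positivity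
  calc _ ≤ (ENNReal.ofReal (8 * (θ + (30 * ε + (n : ℝ) ^ (-(1 / 50) : ℝ)) / θ))).toReal :=
        ENNReal.toReal_mono ENNReal.ofReal_ne_top hlin
    _ = _ := ENNReal.toReal_ofReal hfin

end Pool.Agent.H494.Kac
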