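import Pool.Agent.H494.Kac.Defs2

open MeasureTheory Filter Topology
open scoped ENNReal

namespace Pool.Agent.H494.Kac
theorem sign_coupling (n : ℕ) (t : ℕ)
    (hflip : ∀ (k : Fin n) (x : E n) (f : E n → ℝ≥0∞), Measurable f → (∀ v, f v ≤ 1) →
      ∫⁻ v, f v ∂(law n x t) ≤ ∫⁻ v, f v ∂(law n (flp k x) t) + ENNReal.ofReal ((1 - 2 / n) ^ t))
    (x y : E n) (hxy : ∀ k, x k ^ 2 = y k ^ 2) (f : E n → ℝ≥0∞) (hf : Measurable f)
    (hf1 : ∀ v, f v ≤ 1) :
    ∫⁻ v, f v ∂(law n x t) ≤ ∫⁻ v, f v ∂(law n y t) + n * ENNReal.ofReal ((1 - 2 / n) ^ t) := by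
  have key : ∀ s : Finset (Fin n), ∀ x y : E n, (∀ k, x k ^ 2 = y k ^ 2) →
      (∀ k, k ∉ s → x k = y k) →
      ∫⁻ v, f v ∂(law n x t) ≤
        ∫⁻ v, f v ∂(law n y t) + s.card * ENNReal.ofReal ((1 - 2 / n) ^ t) := by
    intro s
    induction s using Finset.induction_on with
    | empty =>
      intro x y _ h
      have hx : x = y := by
        ext k
        exact h k (Finset.notMem_empty k)
      rw [hx]
      exact le_self_add
    | insert k s hk ih =>
      intro x y h2 h
      rw [Finset.card_insert_of_notMem hk]
      push_cast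
      by_cases hxy : x k = y k
      · refine (ih x y h2 ?_).trans ?_
        · intro l hl
          by_cases hlk : l = k
          · rw [hlk]; exact hxy
          · exact h l (by simp [hlk, hl])
        · gcongr
          exact le_self_add
      · have hneg : x k = - y k := by
          rcases sq_eq_sq_iff_eq_or_eq_neg.mp (h2 k) with h3 | h3
          · exact absurd h3 hxy
          · exact h3
        refine (hflip k x f hf hf1).trans ?_
        have h4 := ih (flp k x) y ?_ ?_
        · refine (add_le_add_left h4 _).trans ?_
          rw [add_mul, one_mul, add_assoc]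
        · intro l
          unfold flp
          by_cases hlk : l = k
          · simp [hlk, h2 k]
          · simp [hlk, h2 l]
        · intro l hl
          unfold flp
          by_cases hlk : l = k
          · simp [hlk, hneg]
          · simp only [PiLp.toLp_apply, if_neg hlk]
            exact h l (by simp [hlk, hl])
  have h := key Finset.univ x y hxy (fun k hk => absurd (Finset.mem_univ k) hk)
  simpa using h


end Pool.Agent.H494.Kac
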