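import Pool.Agent.H494.Kac.Defs2

open MeasureTheory Filter Topology
open scoped ENNReal

namespace Pool.Agent.H494.Kac
theorem step1_avg_int {α : Type*} [MeasurableSpace α] {μ : Measure α} {g : α → ℝ}
    (hg : Measurable g) (h0 : ∀ a, 0 ≤ g a) {c : ℝ} (hc : 0 ≤ c)
    (h : ∫⁻ a, ENNReal.ofReal (g a) ∂μ ≤ ENNReal.ofReal c) :
    Integrable g μ ∧ ∫ a, g a ∂μ ≤ c := by
  constructor
  · refine ⟨hg.aestronglyMeasurable, ?_⟩
    rw [hasFiniteIntegral_iff_ofReal (ae_of_all _ h0)]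
    exact lt_of_le_of_lt h ENNReal.ofReal_lt_top
  · rw [integral_eq_lintegral_of_nonneg_ae (ae_of_all _ h0) hg.aestronglyMeasurable]
    exact ENNReal.toReal_le_of_le_ofReal hc h

theorem step1_avg_num (N : ℝ) (hN : 1 ≤ N) :
    0 < N ^ (-(2 / 5) : ℝ) ∧ 0 < N ^ (-(3 / 5) : ℝ) ∧
    N ^ (-(2 / 5) : ℝ) * N ^ (-(3 / 5) : ℝ) = 1 / N ∧ 1 / N ≤ N ^ (-(2 / 5) : ℝ) ∧
    N ^ (1 / 5 : ℝ) / N ≤ N ^ (-(2 / 5) : ℝ) ∧
    N ^ (1 / 5 : ℝ) * N ^ (-(3 / 5) : ℝ) = N ^ (-(2 / 5) : ℝ) := by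
  have h0 : 0 < N := by linarith
  refine ⟨Real.rpow_pos_of_pos h0 _, Real.rpow_pos_of_pos h0 _, ?_, ?_, ?_, ?_⟩
  · rw [← Real.rpow_add h0, show (-(2 / 5) : ℝ) + -(3 / 5) = -1 by norm_num,
      Real.rpow_neg_one, one_div]
  · rw [one_div, ← Real.rpow_neg_one]
    exact Real.rpow_le_rpow_of_exponent_le hN (by norm_num)
  · rw [div_eq_mul_inv, ← Real.rpow_neg_one, ← Real.rpow_add h0]
    exact Real.rpow_le_rpow_of_exponent_le hN (by norm_num)
  · rw [← Real.rpow_add h0]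
    norm_num

theorem step1_avg_sqrt (N s t e : ℝ) (hN : 0 < N) (hs : 0 < s) (ht : 0 < t)
    (hst : s * t = 1 / N) (he : 0 ≤ e) : √(e * (N + e)) / N ≤ e / N + s + t * e := by
  rw [div_le_iff₀ hN]
  have h1 : (e / N + s + t * e) * N = e + N * s + N * t * e := by
    field_simp
  rw [h1]
  apply Real.sqrt_le_iff.2
  refine ⟨by positivity, ?_⟩
  have h2 : (N * s) * (N * t * e) = N * e := by
    have : N * N * (s * t) = N := by
      rw [hst]
      field_simp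
    calc (N * s) * (N * t * e) = (N * N * (s * t)) * e := by ring
      _ = N * e := by rw [this]
  have h3 : 0 ≤ N * s := by positivity
  have h4 : 0 ≤ N * t * e := by positivity
  nlinarith [mul_nonneg he h3, mul_nonneg he h4, sq_nonneg (N * s), sq_nonneg (N * t * e),
    mul_nonneg hN.le he]

theorem step1_avg_pt (n : ℕ) (hn : 2 ≤ n) (p : Fin n → ℝ) (hp : ∀ k, 0 ≤ p k)
    (hp1 : ∑ k, p k = 1) (q : ℝ) (hq : 2 ≤ q) (hq3 : q ≤ 3) (a : Fin n → Fin n → ℝ)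
    (ha : ∀ k i, 0 ≤ a k i) (k₀ : Fin n) (D : ℝ) (hD : D ≤ 1)
    (hstep : (∀ i, 3 / 4 ≤ bv a p i) → (∀ i, 0 < a k₀ i) → D ≤
      200 * (1 / (n : ℝ) + ∑ k, (∑ j, (a k j - 1) ^ 2) / (n : ℝ) ^ 2 +
        ∑ k, p k * ((∑ j, (a k j - 1) ^ 2) / (n : ℝ) +
        √((∑ j, (a k j - 1) ^ 2) * ((n : ℝ) + ∑ j, (a k j - 1) ^ 2)) / (n : ℝ)))) :
    D ≤ (200 / (n : ℝ) + 200 * (n : ℝ) ^ (-(2 / 5) : ℝ)) +
      ∑ k, (200 / (n : ℝ) ^ 2 + 200 * p k * (2 / (n : ℝ) + (n : ℝ) ^ (-(3 / 5) : ℝ))) *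
        (∑ j, (a k j - 1) ^ 2) +
      ∑ k, (64 * p k + if k = k₀ then 1 else 0) * (∑ i, |a k i - 1| ^ q) := by
  have hN : (1 : ℝ) ≤ n := by exact_mod_cast (by omega : 1 ≤ n)
  have hN0 : (0 : ℝ) < n := by linarith
  obtain ⟨hs, ht, hst, h1s, h2s, h3s⟩ := step1_avg_num (n : ℝ) hN
  set s := (n : ℝ) ^ (-(2 / 5) : ℝ)
  set t := (n : ℝ) ^ (-(3 / 5) : ℝ)
  have he : ∀ k, 0 ≤ ∑ j, (a k j - 1) ^ 2 := fun k => Finset.sum_nonneg fun j _ => sq_nonneg _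
  have hU : ∀ k, 0 ≤ ∑ i, |a k i - 1| ^ q := fun k =>
    Finset.sum_nonneg fun j _ => Real.rpow_nonneg (abs_nonneg _) _
  have hUp : 0 ≤ ∑ k, p k * (∑ i, |a k i - 1| ^ q) :=
    Finset.sum_nonneg fun k _ => mul_nonneg (hp k) (hU k)
  have hUsum : ∑ k, (64 * p k + if k = k₀ then 1 else 0) * (∑ i, |a k i - 1| ^ q) =
      64 * ∑ k, p k * (∑ i, |a k i - 1| ^ q) + ∑ i, |a k₀ i - 1| ^ q := by
    rw [Finset.mul_sum]
    have : ∀ k, (64 * p k + if k = k₀ then 1 else 0) * (∑ i, |a k i - 1| ^ q) =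
        64 * (p k * (∑ i, |a k i - 1| ^ q)) +
          (if k = k₀ then (∑ i, |a k i - 1| ^ q) else 0) := by
      intro k
      split_ifs <;> ring
    rw [Finset.sum_congr rfl fun k _ => this k, Finset.sum_add_distrib]
    simp
  have hEpos : 0 ≤ (200 / (n : ℝ) + 200 * s) +
      ∑ k, (200 / (n : ℝ) ^ 2 + 200 * p k * (2 / (n : ℝ) + t)) * (∑ j, (a k j - 1) ^ 2) := by
    refine add_nonneg (by positivity) (Finset.sum_nonneg fun k _ => mul_nonneg ?_ (he k))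
    have := hp k
    positivity
  rw [hUsum]
  by_cases h1 : ∀ i, 3 / 4 ≤ bv a p i
  · by_cases h2 : ∀ i, 0 < a k₀ i
    · have h3 := hstep h1 h2
      have h4 : 200 * (1 / (n : ℝ) + ∑ k, (∑ j, (a k j - 1) ^ 2) / (n : ℝ) ^ 2 +
          ∑ k, p k * ((∑ j, (a k j - 1) ^ 2) / (n : ℝ) +
          √((∑ j, (a k j - 1) ^ 2) * ((n : ℝ) + ∑ j, (a k j - 1) ^ 2)) / (n : ℝ))) ≤
          (200 / (n : ℝ) + 200 * s) +
          ∑ k, (200 / (n : ℝ) ^ 2 + 200 * p k * (2 / (n : ℝ) + t)) *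
            (∑ j, (a k j - 1) ^ 2) := by
        have h5 : ∑ k, p k * ((∑ j, (a k j - 1) ^ 2) / (n : ℝ) +
            √((∑ j, (a k j - 1) ^ 2) * ((n : ℝ) + ∑ j, (a k j - 1) ^ 2)) / (n : ℝ)) ≤
            ∑ k, (p k * s + p k * (2 / (n : ℝ) + t) * (∑ j, (a k j - 1) ^ 2)) := by
          refine Finset.sum_le_sum fun k _ => ?_
          have h6 := step1_avg_sqrt (n : ℝ) s t _ hN0 hs ht hst (he k)
          calc p k * ((∑ j, (a k j - 1) ^ 2) / (n : ℝ) +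
              √((∑ j, (a k j - 1) ^ 2) * ((n : ℝ) + ∑ j, (a k j - 1) ^ 2)) / (n : ℝ))
              ≤ p k * ((∑ j, (a k j - 1) ^ 2) / (n : ℝ) + ((∑ j, (a k j - 1) ^ 2) / (n : ℝ) +
                s + t * (∑ j, (a k j - 1) ^ 2))) :=
                mul_le_mul_of_nonneg_left (by linarith) (hp k)
            _ = p k * s + p k * (2 / (n : ℝ) + t) * (∑ j, (a k j - 1) ^ 2) := by ring
        rw [Finset.sum_add_distrib, ← Finset.sum_mul, hp1, one_mul] at h5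
        have h7 : ∑ k, (200 / (n : ℝ) ^ 2 + 200 * p k * (2 / (n : ℝ) + t)) *
            (∑ j, (a k j - 1) ^ 2) = 200 * ∑ k, (∑ j, (a k j - 1) ^ 2) / (n : ℝ) ^ 2 +
            200 * ∑ k, p k * (2 / (n : ℝ) + t) * (∑ j, (a k j - 1) ^ 2) := by
          rw [Finset.mul_sum, Finset.mul_sum, ← Finset.sum_add_distrib]
          refine Finset.sum_congr rfl fun k _ => ?_
          ring
        rw [h7, div_eq_mul_one_div (200 : ℝ) (n : ℝ)]
        linarith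
      have h8 := hU k₀
      linarith
    · push Not at h2
      obtain ⟨i, hi⟩ := h2
      have h0 : a k₀ i = 0 := le_antisymm hi (ha k₀ i)
      have h9 : (1 : ℝ) ≤ ∑ i, |a k₀ i - 1| ^ q := by
        have h10 : |a k₀ i - 1| ^ q = 1 := by
          rw [h0, zero_sub, abs_neg, abs_one, Real.one_rpow]
        calc (1 : ℝ) = |a k₀ i - 1| ^ q := h10.symm
          _ ≤ ∑ i, |a k₀ i - 1| ^ q :=
            Finset.single_le_sum (f := fun i => |a k₀ i - 1| ^ q)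
              (fun j _ => Real.rpow_nonneg (abs_nonneg _) _) (Finset.mem_univ i)
      linarith
  · push Not at h1
    obtain ⟨i, hi⟩ := h1
    have hb : bv a p i - 1 = ∑ k, p k * (a k i - 1) := by
      unfold bv
      simp_rw [mul_sub, mul_one]
      rw [Finset.sum_sub_distrib, hp1]
    have hb1 : 1 / 4 ≤ ∑ k, p k * |a k i - 1| := by
      calc (1 / 4 : ℝ) ≤ |bv a p i - 1| := by
            rw [le_abs]
            right
            linarith
        _ = |∑ k, p k * (a k i - 1)| := by rw [hb]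
        _ ≤ ∑ k, |p k * (a k i - 1)| := Finset.abs_sum_le_sum_abs _ _
        _ = ∑ k, p k * |a k i - 1| := by
            refine Finset.sum_congr rfl fun k _ => ?_
            rw [abs_mul, abs_of_nonneg (hp k)]
    have hb2 := Real.rpow_arith_mean_le_arith_mean_rpow Finset.univ p (fun k => |a k i - 1|)
      (fun k _ => hp k) hp1 (fun k _ => abs_nonneg _) (by linarith : (1 : ℝ) ≤ q)
    have hb3 : (1 / 64 : ℝ) ≤ (∑ k, p k * |a k i - 1|) ^ q := by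
      calc (1 / 64 : ℝ) = (1 / 4 : ℝ) ^ (3 : ℝ) := by
            rw [show (3 : ℝ) = ((3 : ℕ) : ℝ) by norm_num, Real.rpow_natCast]
            norm_num
        _ ≤ (1 / 4 : ℝ) ^ q :=
            Real.rpow_le_rpow_of_exponent_ge (by norm_num) (by norm_num) hq3
        _ ≤ (∑ k, p k * |a k i - 1|) ^ q :=
            Real.rpow_le_rpow (by norm_num) hb1 (by linarith)
    have hb4 : ∑ k, p k * |a k i - 1| ^ q ≤ ∑ k, p k * (∑ i, |a k i - 1| ^ q) := by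
      refine Finset.sum_le_sum fun k _ => mul_le_mul_of_nonneg_left ?_ (hp k)
      exact Finset.single_le_sum (f := fun i => |a k i - 1| ^ q)
        (fun j _ => Real.rpow_nonneg (abs_nonneg _) _) (Finset.mem_univ i)
    have h8 := hU k₀
    have hb5 : (1 : ℝ) / 64 ≤ ∑ k, p k * (∑ i, |a k i - 1| ^ q) := hb3.trans (hb2.trans hb4)
    linarith

theorem step1_avg_ms (n : ℕ) (p : Fin n → ℝ) (f : (Fin n → ℝ) → ℝ) (hf : Measurable f)
    (g : (Fin n → Fin n → ℝ) → (Fin n → ℝ) → (Fin n → ℝ))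
    (hg : Measurable (fun z : (Fin n → Fin n → ℝ) × (Fin n → ℝ) => g z.1 z.2)) :
    StronglyMeasurable (fun M : Fin n → Fin n → ℝ => ∫ w, f (g M w) ∂(gam n)) := by
  haveI : IsProbabilityMeasure (gam n) := by unfold gam; infer_instance
  have h : StronglyMeasurable (Function.uncurry fun (M : Fin n → Fin n → ℝ) (w : Fin n → ℝ) =>
      f (g M w)) := (hf.comp hg).stronglyMeasurable
  exact h.integral_prod_right

theorem step1_avg (n : ℕ) (hn : 2 ≤ n) (μ : Measure (Fin n → Fin n → ℝ)) [IsProbabilityMeasure μ]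
    (hgood : ∀ᵐ M ∂μ, (∀ i k, 0 ≤ M i k) ∧ ∀ k, 0 < ∑ i, M i k)
    (p : Fin n → ℝ) (hp : ∀ k, 0 ≤ p k) (hp1 : ∑ k, p k = 1)
    (f : (Fin n → ℝ) → ℝ) (hf : Measurable f) (hf0 : ∀ v, 0 ≤ f v) (hf1 : ∀ v, f v ≤ 1)
    (q : ℝ) (hq : 2 ≤ q) (hq3 : q ≤ 3) (ε : ℝ) (hε : 0 ≤ ε)
    (hU : ∀ k, ∫⁻ M, ENNReal.ofReal (∑ i, |col M k i - 1| ^ q) ∂μ ≤ ENNReal.ofReal ε)
    (hE : ∀ k, ∫⁻ M, ENNReal.ofReal (∑ i, (col M k i - 1) ^ 2) ∂μ ≤
      ENNReal.ofReal ((n : ℝ) ^ (1 / 5 : ℝ)))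
    (hstep : ∀ a : Fin n → Fin n → ℝ, (∀ k i, 0 ≤ a k i) → (∀ k, ∑ i, a k i = n) →
      (∀ i, 3 / 4 ≤ bv a p i) → ∀ k₀, 0 < p k₀ → (∀ i, 0 < a k₀ i) →
      |∫ w, f (fun i => w i * √(gf a p w i)) ∂(gam n) -
        ∫ w, f (fun i => w i * √(bv a p i)) ∂(gam n)| ≤
      200 * (1 / (n : ℝ) + ∑ k, (∑ j, (a k j - 1) ^ 2) / (n : ℝ) ^ 2 +
        ∑ k, p k * ((∑ j, (a k j - 1) ^ 2) / (n : ℝ) +
        √((∑ j, (a k j - 1) ^ 2) * ((n : ℝ) + ∑ j, (a k j - 1) ^ 2)) / (n : ℝ)))) :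
    |∫ M, ∫ w, f (fun i => w i * √(gf (col M) p w i)) ∂(gam n) ∂μ -
      ∫ M, ∫ w, f (fun i => w i * √(bv (col M) p i)) ∂(gam n) ∂μ| ≤
      1400 * (n : ℝ) ^ (-(2 / 5) : ℝ) + 65 * ε := by
  haveI hgp : IsProbabilityMeasure (gam n) := by unfold gam; infer_instance
  have hN : (1 : ℝ) ≤ n := by exact_mod_cast (by omega : 1 ≤ n)
  have hN0 : (0 : ℝ) < n := by linarith
  obtain ⟨hs, ht, hst, h1s, h2s, h3s⟩ := step1_avg_num (n : ℝ) hN
  have hcol : ∀ k i, Measurable fun M : Fin n → Fin n → ℝ => col M k i := by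
    intro k i
    unfold col
    fun_prop
  have hmA : StronglyMeasurable (fun M : Fin n → Fin n → ℝ =>
      ∫ w, f (fun i => w i * √(gf (col M) p w i)) ∂(gam n)) := by
    refine step1_avg_ms n p f hf (fun M w i => w i * √(gf (col M) p w i)) ?_
    refine measurable_pi_lambda _ fun i => ?_
    unfold gf zs col
    fun_prop
  have hmB : StronglyMeasurable (fun M : Fin n → Fin n → ℝ =>
      ∫ w, f (fun i => w i * √(bv (col M) p i)) ∂(gam n)) := by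
    refine step1_avg_ms n p f hf (fun M w i => w i * √(bv (col M) p i)) ?_
    refine measurable_pi_lambda _ fun i => ?_
    unfold bv col
    fun_prop
  have hbd : ∀ g : (Fin n → ℝ) → (Fin n → ℝ), 0 ≤ ∫ w, f (g w) ∂(gam n) ∧
      ∫ w, f (g w) ∂(gam n) ≤ 1 := by
    intro g
    refine ⟨integral_nonneg fun w => hf0 _, ?_⟩
    have h := norm_integral_le_of_norm_le_const (μ := gam n) (f := fun w => f (g w)) (C := 1)
      (ae_of_all _ fun w => by rw [Real.norm_eq_abs, abs_of_nonneg (hf0 _)]; exact hf1 _)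
    rw [probReal_univ, mul_one] at h
    exact (le_abs_self _).trans h
  have hiA : Integrable (fun M : Fin n → Fin n → ℝ =>
      ∫ w, f (fun i => w i * √(gf (col M) p w i)) ∂(gam n)) μ := by
    refine Integrable.of_bound hmA.aestronglyMeasurable 1 (ae_of_all _ fun M => ?_)
    rw [Real.norm_eq_abs, abs_of_nonneg (hbd _).1]
    exact (hbd _).2
  have hiB : Integrable (fun M : Fin n → Fin n → ℝ =>
      ∫ w, f (fun i => w i * √(bv (col M) p i)) ∂(gam n)) μ := by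
    refine Integrable.of_bound hmB.aestronglyMeasurable 1 (ae_of_all _ fun M => ?_)
    rw [Real.norm_eq_abs, abs_of_nonneg (hbd _).1]
    exact (hbd _).2
  obtain ⟨k₀, hk₀⟩ : ∃ k₀, 0 < p k₀ := by
    by_contra hc
    push Not at hc
    have h0 : ∑ k, p k ≤ 0 := Finset.sum_nonpos fun k _ => hc k
    linarith
  have hEi : ∀ k, Integrable (fun M : Fin n → Fin n → ℝ => ∑ i, (col M k i - 1) ^ 2) μ ∧
      ∫ M, ∑ i, (col M k i - 1) ^ 2 ∂μ ≤ (n : ℝ) ^ (1 / 5 : ℝ) := by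
    intro k
    refine step1_avg_int ?_ (fun M => Finset.sum_nonneg fun i _ => sq_nonneg _)
      (Real.rpow_nonneg hN0.le _) (hE k)
    exact Finset.measurable_sum _ fun i _ => ((hcol k i).sub_const 1).pow_const 2
  have hUi : ∀ k, Integrable (fun M : Fin n → Fin n → ℝ => ∑ i, |col M k i - 1| ^ q) μ ∧
      ∫ M, ∑ i, |col M k i - 1| ^ q ∂μ ≤ ε := by
    intro k
    refine step1_avg_int ?_ (fun M => Finset.sum_nonneg fun i _ =>
      Real.rpow_nonneg (abs_nonneg _) _) hε (hU k)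
    refine Finset.measurable_sum _ fun i _ => ?_
    have := ((hcol k i).sub_const 1).norm
    exact this.pow_const q
  rw [← integral_sub hiA hiB]
  have hae : ∀ᵐ M ∂μ, |(∫ w, f (fun i => w i * √(gf (col M) p w i)) ∂(gam n)) -
      ∫ w, f (fun i => w i * √(bv (col M) p i)) ∂(gam n)| ≤
      (200 / (n : ℝ) + 200 * (n : ℝ) ^ (-(2 / 5) : ℝ)) +
      ∑ k, (200 / (n : ℝ) ^ 2 + 200 * p k * (2 / (n : ℝ) + (n : ℝ) ^ (-(3 / 5) : ℝ))) *
        (∑ j, (col M k j - 1) ^ 2) +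
      ∑ k, (64 * p k + if k = k₀ then 1 else 0) * (∑ i, |col M k i - 1| ^ q) := by
    filter_upwards [hgood] with M hM
    have hc0 : ∀ k i, 0 ≤ col M k i := by
      intro k i
      unfold col
      exact div_nonneg (mul_nonneg hN0.le (hM.1 i k)) (hM.2 k).le
    have hcs : ∀ k, ∑ i, col M k i = n := by
      intro k
      unfold col
      rw [← Finset.sum_div, ← Finset.mul_sum, mul_div_assoc, div_self (hM.2 k).ne', mul_one]
    refine step1_avg_pt n hn p hp hp1 q hq hq3 (col M) hc0 k₀ _ ?_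
      (fun h1 h2 => hstep (col M) hc0 hcs h1 k₀ hk₀ h2)
    have b1 := hbd (fun w i => w i * √(gf (col M) p w i))
    have b2 := hbd (fun w i => w i * √(bv (col M) p i))
    rw [abs_le]
    constructor <;> linarith
  have hiE : Integrable (fun M : Fin n → Fin n → ℝ =>
      ∑ k, (200 / (n : ℝ) ^ 2 + 200 * p k * (2 / (n : ℝ) + (n : ℝ) ^ (-(3 / 5) : ℝ))) *
        (∑ j, (col M k j - 1) ^ 2)) μ :=
    integrable_finsetSum _ fun k _ => (hEi k).1.const_mul _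
  have hiU : Integrable (fun M : Fin n → Fin n → ℝ =>
      ∑ k, (64 * p k + if k = k₀ then 1 else 0) * (∑ i, |col M k i - 1| ^ q)) μ :=
    integrable_finsetSum _ fun k _ => (hUi k).1.const_mul _
  have hiC : Integrable (fun _ : Fin n → Fin n → ℝ =>
      (200 / (n : ℝ) + 200 * (n : ℝ) ^ (-(2 / 5) : ℝ))) μ := integrable_const _
  have hiCE : Integrable (fun M : Fin n → Fin n → ℝ =>
      (200 / (n : ℝ) + 200 * (n : ℝ) ^ (-(2 / 5) : ℝ)) +
      ∑ k, (200 / (n : ℝ) ^ 2 + 200 * p k * (2 / (n : ℝ) + (n : ℝ) ^ (-(3 / 5) : ℝ))) *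
        (∑ j, (col M k j - 1) ^ 2)) μ := hiC.add hiE
  have hIE : ∫ M, ∑ k, (200 / (n : ℝ) ^ 2 + 200 * p k * (2 / (n : ℝ) +
      (n : ℝ) ^ (-(3 / 5) : ℝ))) * (∑ j, (col M k j - 1) ^ 2) ∂μ ≤
      ∑ k, (200 / (n : ℝ) ^ 2 + 200 * p k * (2 / (n : ℝ) + (n : ℝ) ^ (-(3 / 5) : ℝ))) *
        (n : ℝ) ^ (1 / 5 : ℝ) := by
    rw [integral_finsetSum _ fun k _ => (hEi k).1.const_mul _]
    refine Finset.sum_le_sum fun k _ => ?_
    rw [integral_const_mul]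
    refine mul_le_mul_of_nonneg_left (hEi k).2 ?_
    have := hp k
    positivity
  have hIU : ∫ M, ∑ k, (64 * p k + if k = k₀ then 1 else 0) *
      (∑ i, |col M k i - 1| ^ q) ∂μ ≤ ∑ k, (64 * p k + if k = k₀ then 1 else 0) * ε := by
    rw [integral_finsetSum _ fun k _ => (hUi k).1.const_mul _]
    refine Finset.sum_le_sum fun k _ => ?_
    rw [integral_const_mul]
    refine mul_le_mul_of_nonneg_left (hUi k).2 ?_
    have := hp k
    split_ifs <;> positivity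
  have hsumE : ∑ k, (200 / (n : ℝ) ^ 2 + 200 * p k * (2 / (n : ℝ) +
      (n : ℝ) ^ (-(3 / 5) : ℝ))) * (n : ℝ) ^ (1 / 5 : ℝ) =
      600 * ((n : ℝ) ^ (1 / 5 : ℝ) / n) +
        200 * ((n : ℝ) ^ (1 / 5 : ℝ) * (n : ℝ) ^ (-(3 / 5) : ℝ)) := by
    rw [← Finset.sum_mul, Finset.sum_add_distrib, Finset.sum_const, Finset.card_univ,
      Fintype.card_fin, ← Finset.sum_mul, ← Finset.mul_sum, hp1, nsmul_eq_mul]
    field_simp
    ring
  have hsumU : ∑ k, (64 * p k + if k = k₀ then 1 else 0) * ε = 65 * ε := by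
    have h1 : ∑ x : Fin n, (if x = k₀ then (1 : ℝ) else 0) = 1 := by simp
    rw [← Finset.sum_mul, Finset.sum_add_distrib, ← Finset.mul_sum, hp1, h1]
    ring
  calc |∫ M, ((∫ w, f (fun i => w i * √(gf (col M) p w i)) ∂(gam n)) -
        ∫ w, f (fun i => w i * √(bv (col M) p i)) ∂(gam n)) ∂μ|
      ≤ ∫ M, |(∫ w, f (fun i => w i * √(gf (col M) p w i)) ∂(gam n)) -
        ∫ w, f (fun i => w i * √(bv (col M) p i)) ∂(gam n)| ∂μ := abs_integral_le_integral_abs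
    _ ≤ ∫ M, ((200 / (n : ℝ) + 200 * (n : ℝ) ^ (-(2 / 5) : ℝ)) +
      ∑ k, (200 / (n : ℝ) ^ 2 + 200 * p k * (2 / (n : ℝ) + (n : ℝ) ^ (-(3 / 5) : ℝ))) *
        (∑ j, (col M k j - 1) ^ 2) +
      ∑ k, (64 * p k + if k = k₀ then 1 else 0) * (∑ i, |col M k i - 1| ^ q)) ∂μ :=
        integral_mono_ae (hiA.sub hiB).abs (hiCE.add hiU) hae
    _ = (200 / (n : ℝ) + 200 * (n : ℝ) ^ (-(2 / 5) : ℝ)) +
        (∫ M, ∑ k, (200 / (n : ℝ) ^ 2 + 200 * p k * (2 / (n : ℝ) +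
          (n : ℝ) ^ (-(3 / 5) : ℝ))) * (∑ j, (col M k j - 1) ^ 2) ∂μ) +
        ∫ M, ∑ k, (64 * p k + if k = k₀ then 1 else 0) * (∑ i, |col M k i - 1| ^ q) ∂μ := by
        rw [integral_add hiCE hiU, integral_add hiC hiE, integral_const, probReal_univ, one_smul]
    _ ≤ 1400 * (n : ℝ) ^ (-(2 / 5) : ℝ) + 65 * ε := by
        rw [hsumE] at hIE
        rw [hsumU] at hIU
        rw [h3s] at hIE
        have h5 : 200 / (n : ℝ) = 200 * (1 / (n : ℝ)) := by ring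
        rw [h5]
        linarith

end Pool.Agent.H494.Kac
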