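import Pool.Agent.H494.Kac.Defs2

open MeasureTheory Filter Topology
open scoped ENNReal

namespace Pool.Agent.H494.Kac
theorem step1_fin_gf_nonneg {n : ℕ} (a : Fin n → Fin n → ℝ) (p w : Fin n → ℝ)
    (ha : ∀ k i, 0 ≤ a k i) (hp : ∀ k, 0 ≤ p k) (i : Fin n) : 0 ≤ gf a p w i := by
  unfold gf
  refine mul_nonneg (Finset.sum_nonneg fun j _ => sq_nonneg _) (Finset.sum_nonneg fun k _ => ?_)
  refine div_nonneg (mul_nonneg (hp k) (ha k i)) ?_
  unfold zs
  exact Finset.sum_nonneg fun j _ => mul_nonneg (ha k j) (sq_nonneg _)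

theorem step1_fin_meas {n : ℕ} (a : Fin n → Fin n → ℝ) (p : Fin n → ℝ) :
    Measurable (Th a p) := by
  refine measurable_pi_lambda _ fun i => ?_
  unfold Th gf zs
  fun_prop

instance step1_fin_prob (n : ℕ) : IsProbabilityMeasure (gam n) := by
  unfold gam
  infer_instance

theorem step1_fin_null (n : ℕ) : gam n {w : Fin n → ℝ | ∀ i, w i ≠ 0}ᶜ = 0 := by
  have e : {w : Fin n → ℝ | ∀ i, w i ≠ 0}ᶜ = ⋃ i, {w : Fin n → ℝ | w i = 0} := by
    ext w
    simp
  rw [e, measure_iUnion_null_iff]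
  intro i
  have hna : NullSingletonClass (ProbabilityTheory.gaussianReal 0 1) :=
    ProbabilityTheory.nullSingletonClass_gaussianReal (by norm_num)
  unfold gam
  exact Measure.pi_hyperplane (μ := fun _ : Fin n => ProbabilityTheory.gaussianReal 0 1) i 0

theorem step1_fin (n : ℕ) (hn : 2 ≤ n) (a : Fin n → Fin n → ℝ) (p : Fin n → ℝ)
    (ha : ∀ k i, 0 ≤ a k i) (hs : ∀ k, ∑ i, a k i = n) (hp : ∀ k, 0 ≤ p k) (hp1 : ∑ k, p k = 1)
    (hb : ∀ i, 3 / 4 ≤ bv a p i) (R : (Fin n → ℝ) → ℝ) (hR : Integrable R (gam n)) (B : ℝ)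
    (hRB : ∫ w, R w ∂(gam n) ≤ B)
    (hpt : ∀ w : Fin n → ℝ, (∀ i, w i ≠ 0) →
      1 - Real.exp ((∑ i, w i ^ 2 - ∑ i, (Th a p w i) ^ 2) / 2) *
      ((∏ i, √(gf a p w i / bv a p i)) * |(Jf a p w).det|) ≤ R w) (hR0 : ∀ w, 0 ≤ R w)
    (hdetJ : ∀ w : Fin n → ℝ, (∀ i, w i ≠ 0) →
      (JT a p w).det = (∏ i, √(gf a p w i / bv a p i)) * (Jf a p w).det)
    (hder : ∀ w : Fin n → ℝ, (∀ i, w i ≠ 0) →
      HasFDerivAt (Th a p) (LinearMap.toContinuousLinearMap (Matrix.toLin' (JT a p w))) w)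
    (hinj : Set.InjOn (Th a p) {w | ∀ i, w i ≠ 0})
    (hcv : ∀ (T₁ : (Fin n → ℝ) → (Fin n → ℝ))
      (T' : (Fin n → ℝ) → ((Fin n → ℝ) →L[ℝ] (Fin n → ℝ))) (s : Set (Fin n → ℝ)),
      MeasurableSet s → gam n sᶜ = 0 → (∀ w ∈ s, HasFDerivAt T₁ (T' w) w) →
      Set.InjOn T₁ s → Measurable T₁ → ∀ (f : (Fin n → ℝ) → ℝ), Measurable f →
      (∀ v, 0 ≤ f v) → (∀ v, f v ≤ 1) →
      ∫ w, f (T₁ w) ∂(gam n) ≤ ∫ w, f w ∂(gam n) +
      ∫ w, max 0 (1 - Real.exp ((∑ i, w i ^ 2 - ∑ i, (T₁ w i) ^ 2) / 2) * |(T' w).det|) ∂(gam n))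
    (f : (Fin n → ℝ) → ℝ) (hf : Measurable f) (hf0 : ∀ v, 0 ≤ f v) (hf1 : ∀ v, f v ≤ 1) :
    |∫ w, f (fun i => w i * √(gf a p w i)) ∂(gam n) -
      ∫ w, f (fun i => w i * √(bv a p i)) ∂(gam n)| ≤ B := by
  have hb0 : ∀ i, 0 < bv a p i := fun i => lt_of_lt_of_le (by norm_num) (hb i)
  have hms : MeasurableSet {w : Fin n → ℝ | ∀ i, w i ≠ 0} := by
    have e : {w : Fin n → ℝ | ∀ i, w i ≠ 0} = ⋂ i, {w : Fin n → ℝ | w i ≠ 0} := by
      ext w
      simp
    rw [e]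
    refine MeasurableSet.iInter fun i => ?_
    have hmi : Measurable fun w : Fin n → ℝ => w i := measurable_pi_apply i
    exact hmi (measurableSet_singleton (0 : ℝ)).compl
  -- the general inequality
  have key : ∀ (g : (Fin n → ℝ) → ℝ), Measurable g → (∀ v, 0 ≤ g v) → (∀ v, g v ≤ 1) →
      ∫ w, g (Th a p w) ∂(gam n) ≤ ∫ w, g w ∂(gam n) + B := by
    intro g hg hg0 hg1
    have h := hcv (Th a p)
      (fun w => LinearMap.toContinuousLinearMap (Matrix.toLin' (JT a p w)))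
      {w | ∀ i, w i ≠ 0} hms (step1_fin_null n) hder hinj (step1_fin_meas a p) g hg hg0 hg1
    refine h.trans ?_
    have h2 : ∫ w, max 0 (1 - Real.exp ((∑ i, w i ^ 2 - ∑ i, (Th a p w i) ^ 2) / 2) *
        |(LinearMap.toContinuousLinearMap (Matrix.toLin' (JT a p w))).det|) ∂(gam n) ≤ B := by
      refine le_trans ?_ hRB
      refine integral_mono_of_nonneg (Filter.Eventually.of_forall fun w => le_max_left _ _) hR ?_
      have hae : ∀ᵐ w ∂(gam n), w ∈ {w : Fin n → ℝ | ∀ i, w i ≠ 0} :=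
        mem_ae_iff.2 (step1_fin_null n)
      filter_upwards [hae] with w hw
      refine max_le (hR0 w) ?_
      have hdet : (LinearMap.toContinuousLinearMap (Matrix.toLin' (JT a p w))).det =
          (JT a p w).det := by
        rw [LinearMap.det_toContinuousLinearMap, LinearMap.det_toLin']
      rw [hdet, hdetJ w hw, abs_mul, abs_of_nonneg (Finset.prod_nonneg fun i _ => Real.sqrt_nonneg _)]
      exact hpt w hw
    linarith
  set g : (Fin n → ℝ) → ℝ := fun v => f (fun i => v i * √(bv a p i)) with hgdef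
  have hgm : Measurable g := by
    refine hf.comp ?_
    refine measurable_pi_lambda _ fun i => ?_
    fun_prop
  have hg0 : ∀ v, 0 ≤ g v := fun v => hf0 _
  have hg1 : ∀ v, g v ≤ 1 := fun v => hf1 _
  have hgT : ∀ w, g (Th a p w) = f (fun i => w i * √(gf a p w i)) := by
    intro w
    simp only [hgdef]
    congr 1
    funext i
    unfold Th
    rw [mul_assoc, ← Real.sqrt_mul
      (div_nonneg (step1_fin_gf_nonneg a p w ha hp i) (hb0 i).le), div_mul_cancel₀ _ (hb0 i).ne']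
  have hgi : ∀ (h : (Fin n → ℝ) → ℝ), Measurable h → (∀ v, 0 ≤ h v) → (∀ v, h v ≤ 1) →
      Integrable h (gam n) := by
    intro h hm h0 h1
    refine Integrable.of_bound hm.aestronglyMeasurable 1 (Filter.Eventually.of_forall fun w => ?_)
    rw [Real.norm_eq_abs, abs_of_nonneg (h0 w)]
    exact h1 w
  have k1 := key g hgm hg0 hg1
  have k2 := key (fun v => 1 - g v) (measurable_const.sub hgm)
    (fun v => by linarith [hg1 v]) (fun v => by linarith [hg0 v])
  have i1 : Integrable g (gam n) := hgi g hgm hg0 hg1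
  have i2 : Integrable (fun w => g (Th a p w)) (gam n) :=
    hgi _ (hgm.comp (step1_fin_meas a p)) (fun v => hg0 _) (fun v => hg1 _)
  rw [integral_sub (integrable_const _) i2, integral_sub (integrable_const _) i1] at k2
  have e1 : ∫ w, f (fun i => w i * √(gf a p w i)) ∂(gam n) = ∫ w, g (Th a p w) ∂(gam n) := by
    refine integral_congr_ae (Filter.Eventually.of_forall fun w => ?_)
    exact (hgT w).symm
  rw [e1]
  show |∫ w, g (Th a p w) ∂(gam n) - ∫ w, g w ∂(gam n)| ≤ B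
  rw [abs_le]
  constructor <;> linarith

end Pool.Agent.H494.Kac
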