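import Pool.Agent.H494.Kac.Defs2

open MeasureTheory Filter Topology
open scoped ENNReal

namespace Pool.Agent.H494.Kac
open ProbabilityTheory in
private lemma g4 : ∫ x, x ^ 4 ∂(gaussianReal 0 1) = 3 := by
  rw [integral_gaussianReal_eq_integral_smul one_ne_zero]
  have h1 : (fun x : ℝ => gaussianPDFReal 0 1 x • x ^ 4) =
      fun x : ℝ => (fun y : ℝ => (√(2 * Real.pi))⁻¹ * (y ^ (4 : ℝ) * Real.exp (-(1 / 2) * y ^ (2 : ℝ)))) |x| := by
    ext x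
    simp only [gaussianPDFReal, smul_eq_mul, sub_zero, NNReal.coe_one, mul_one]
    have e1 : |x| ^ (4 : ℝ) = x ^ 4 := by
      rw [show (4 : ℝ) = ((4 : ℕ) : ℝ) by norm_num, Real.rpow_natCast]
      exact (Even.pow_abs (by decide) x)
    have e2 : |x| ^ (2 : ℝ) = x ^ 2 := by
      rw [show (2 : ℝ) = ((2 : ℕ) : ℝ) by norm_num, Real.rpow_natCast]
      exact (Even.pow_abs (by decide) x)
    rw [e1, e2, show -x ^ 2 / 2 = -(1 / 2) * x ^ 2 by ring]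
    ring
  rw [h1, integral_comp_abs (f := fun y : ℝ => (√(2 * Real.pi))⁻¹ * (y ^ (4 : ℝ) * Real.exp (-(1 / 2) * y ^ (2 : ℝ)))), integral_const_mul, integral_rpow_mul_exp_neg_mul_rpow (by norm_num) (by norm_num) (by norm_num)]
  have h2 : Real.Gamma ((4 + 1) / 2) = 3 / 4 * √Real.pi := by
    have := Real.Gamma_nat_add_half 2
    rw [show (((2 : ℕ) : ℝ) + 1 / 2) = (4 + 1) / 2 by norm_num] at this
    rw [this]
    norm_num [Nat.doubleFactorial]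
    ring
  have h3 : (1 / 2 : ℝ) ^ (-(4 + 1) / 2 : ℝ) = 4 * √2 := by
    rw [show (1 / 2 : ℝ) = (2 : ℝ)⁻¹ by norm_num, Real.inv_rpow (by norm_num), ← Real.rpow_neg (by norm_num),
      show (-(-(4 + 1) / 2) : ℝ) = ((2 : ℕ) : ℝ) + 1 / 2 by norm_num, Real.rpow_add (by norm_num), Real.rpow_natCast,
      ← Real.sqrt_eq_rpow]
    norm_num
  rw [h2, h3, Real.sqrt_mul (by norm_num)]
  have h4 : √2 ≠ 0 := by positivity
  have h5 : √Real.pi ≠ 0 := by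
    have := Real.pi_pos
    positivity
  field_simp

open ProbabilityTheory in
private lemma g2 : ∫ x, x ^ 2 ∂(gaussianReal 0 1) = 1 := by
  have h := variance_fun_id_gaussianReal (μ := 0) (v := 1)
  rw [variance_eq_integral (by fun_prop)] at h
  simpa using h

open ProbabilityTheory in
private lemma gML (q : ℝ≥0∞) (hq : q ≠ ∞) : MemLp (fun x : ℝ => x) q (gaussianReal 0 1) :=
  memLp_id_gaussianReal' q hq

open ProbabilityTheory in
private lemma gML2 : MemLp (fun x : ℝ => x ^ 2) 2 (gaussianReal 0 1) := by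
  have h := gML 4 (by simp)
  have h2 := h.norm_rpow_div (2 : ℝ≥0∞)
  have e : ((4 : ℝ≥0∞) / 2) = 2 := by
    rw [ENNReal.div_eq_inv_mul]
    rw [show (4 : ℝ≥0∞) = 2 * 2 by norm_num, ← mul_assoc, ENNReal.inv_mul_cancel (by simp) (by simp), one_mul]
  rw [e] at h2
  refine h2.congr_norm (by fun_prop) (Eventually.of_forall fun x => ?_)
  simp

open ProbabilityTheory in
private lemma qv {n : ℕ} (c : Fin n → ℝ) :
    MemLp (fun w : Fin n → ℝ => ∑ j, c j * (w j ^ 2 - 1)) 2 (gam n) ∧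
    ∫ w, (∑ j, c j * (w j ^ 2 - 1)) ^ 2 ∂(gam n) = 2 * ∑ j, c j ^ 2 := by
  have hX : ∀ i, MemLp (fun x : ℝ => c i * (x ^ 2 - 1)) 2 (gaussianReal 0 1) := fun i =>
    (gML2.sub (memLp_const 1)).const_mul (c i)
  have hv := variance_sum_pi (μ := fun _ : Fin n => gaussianReal 0 1) (X := fun i x => c i * (x ^ 2 - 1)) hX
  have hM : MemLp (fun w : Fin n → ℝ => ∑ j, c j * (w j ^ 2 - 1)) 2 (gam n) := by
    refine memLp_finsetSum _ fun i _ => ?_
    exact (hX i).comp_measurePreserving (measurePreserving_eval _ i)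
  refine ⟨hM, ?_⟩
  have hP : IsProbabilityMeasure (gam n) := by unfold gam; infer_instance
  have hi2 : Integrable (fun x : ℝ => x ^ 2) (gaussianReal 0 1) := gML2.integrable (by norm_num)
  have hi4 : Integrable (fun x : ℝ => x ^ 4) (gaussianReal 0 1) := by
    have := gML2.integrable_sq
    refine this.congr (Eventually.of_forall fun x => ?_)
    show (x ^ 2) ^ 2 = x ^ 4
    ring
  have h0 : ∀ i, ∫ x, c i * (x ^ 2 - 1) ∂(gaussianReal 0 1) = 0 := by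
    intro i
    rw [integral_const_mul, integral_sub hi2 (integrable_const _), g2]
    simp
  have h1 : ∀ i, Var[fun x : ℝ => c i * (x ^ 2 - 1); gaussianReal 0 1] = 2 * c i ^ 2 := by
    intro i
    rw [variance_eq_integral (hX i).aestronglyMeasurable.aemeasurable, h0 i]
    have : (fun x : ℝ => (c i * (x ^ 2 - 1) - 0) ^ 2) = fun x : ℝ => c i ^ 2 * (x ^ 4 - 2 * x ^ 2 + 1) := by
      ext x
      ring
    rw [this, integral_const_mul, integral_add (by fun_prop) (by fun_prop), integral_sub hi4 (by fun_prop),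
      integral_const_mul, g2, g4]
    simp
    ring
  have hm : ∫ w, (∑ j, c j * (w j ^ 2 - 1)) ∂(gam n) = 0 := by
    rw [integral_finsetSum]
    · refine Finset.sum_eq_zero fun i _ => ?_
      rw [← h0 i]
      exact integral_comp_eval (μ := fun _ : Fin n => gaussianReal 0 1) (i := i) (hX i).aestronglyMeasurable
    · intro i _
      exact ((hX i).comp_measurePreserving (measurePreserving_eval _ i)).integrable (by norm_num)
  have hv2 : Var[fun w : Fin n → ℝ => ∑ j, c j * (w j ^ 2 - 1); gam n] = ∑ i, 2 * c i ^ 2 := by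
    rw [← Finset.sum_congr rfl (fun i _ => h1 i), ← hv]
    congr 1
    ext w
    simp
  rw [variance_eq_integral hM.aestronglyMeasurable.aemeasurable, hm] at hv2
  simp only [sub_zero] at hv2
  rw [hv2, Finset.mul_sum]

private lemma cs2 {α : Type*} [MeasurableSpace α] (μ : Measure α) (f g : α → ℝ) (hf : MemLp f 2 μ) (hg : MemLp g 2 μ) :
    ∫ w, |f w| * |g w| ∂μ ≤ √((∫ w, f w ^ 2 ∂μ) * ∫ w, g w ^ 2 ∂μ) := by
  have h := integral_mul_le_Lp_mul_Lq_of_nonneg (μ := μ) (p := 2) (q := 2) (f := fun w => |f w|) (g := fun w => |g w|)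
    (Real.HolderConjugate.two_two) (Eventually.of_forall fun w => abs_nonneg _) (Eventually.of_forall fun w => abs_nonneg _)
    (by rw [ENNReal.ofReal_ofNat]; exact hf.abs) (by rw [ENNReal.ofReal_ofNat]; exact hg.abs)
  refine h.trans (le_of_eq ?_)
  have e : ∀ x : ℝ, |x| ^ (2 : ℝ) = x ^ 2 := by
    intro x
    rw [show (2 : ℝ) = ((2 : ℕ) : ℝ) by norm_num, Real.rpow_natCast]
    exact sq_abs x
  simp only [e]
  rw [← Real.sqrt_eq_rpow, ← Real.sqrt_eq_rpow, Real.sqrt_mul (integral_nonneg fun w => sq_nonneg _)]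

theorem step1_int (n : ℕ) (hn : 2 ≤ n) (a : Fin n → Fin n → ℝ) (p : Fin n → ℝ)
    (ha : ∀ k i, 0 ≤ a k i) (hs : ∀ k, ∑ i, a k i = n) (hp : ∀ k, 0 ≤ p k) (hp1 : ∑ k, p k = 1)
    (hb : ∀ i, 3 / 4 ≤ bv a p i) :
    Integrable (fun w : Fin n → ℝ => 4 * (∑ i, w i ^ 2 - n) ^ 2 / (n : ℝ) ^ 2 +
      ∑ k, 16 * (∑ j, (a k j - 1) * (w j ^ 2 - 1)) ^ 2 / (n : ℝ) ^ 2 +
      ∑ k, p k * (2 / (n : ℝ) * (|∑ j, (a k j - 1) * (w j ^ 2 - 1)| *
          |∑ j, (w j ^ 2 - 1) * (a k j / bv a p j)|) +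
        12 * (∑ j, (a k j - 1) * (w j ^ 2 - 1)) ^ 2 / (n : ℝ) +
        32 / (n : ℝ) * ∑ j, w j ^ 2 * (a k j - 1) ^ 2 +
        64 * (∑ j, (a k j - 1) * (w j ^ 2 - 1)) ^ 2 / (n : ℝ) ^ 2)) (gam n) ∧
    ∫ w, (4 * (∑ i, w i ^ 2 - n) ^ 2 / (n : ℝ) ^ 2 +
      ∑ k, 16 * (∑ j, (a k j - 1) * (w j ^ 2 - 1)) ^ 2 / (n : ℝ) ^ 2 +
      ∑ k, p k * (2 / (n : ℝ) * (|∑ j, (a k j - 1) * (w j ^ 2 - 1)| *
          |∑ j, (w j ^ 2 - 1) * (a k j / bv a p j)|) +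
        12 * (∑ j, (a k j - 1) * (w j ^ 2 - 1)) ^ 2 / (n : ℝ) +
        32 / (n : ℝ) * ∑ j, w j ^ 2 * (a k j - 1) ^ 2 +
        64 * (∑ j, (a k j - 1) * (w j ^ 2 - 1)) ^ 2 / (n : ℝ) ^ 2)) ∂(gam n) ≤
      200 * (1 / (n : ℝ) + ∑ k, (∑ j, (a k j - 1) ^ 2) / (n : ℝ) ^ 2 + ∑ k, p k * ((∑ j, (a k j - 1) ^ 2) / (n : ℝ) +
        √((∑ j, (a k j - 1) ^ 2) * ((n : ℝ) + ∑ j, (a k j - 1) ^ 2)) / (n : ℝ))) := by
  have hP : IsProbabilityMeasure (gam n) := by unfold gam; infer_instance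
  have hn0 : (2 : ℝ) ≤ n := by exact_mod_cast hn
  have hnp : (0 : ℝ) < n := by linarith
  -- the linear forms
  have hS : ∀ w : Fin n → ℝ, ∑ i, w i ^ 2 - (n : ℝ) = ∑ j, (1 : ℝ) * (w j ^ 2 - 1) := by
    intro w
    simp [Finset.sum_sub_distrib]
  have hT : ∀ (k : Fin n) (w : Fin n → ℝ), ∑ j, (w j ^ 2 - 1) * (a k j / bv a p j) =
      ∑ j, (a k j / bv a p j) * (w j ^ 2 - 1) := by
    intro k w
    exact Finset.sum_congr rfl fun j _ => mul_comm _ _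
  simp only [hS, hT]
  obtain ⟨mS, iS⟩ := qv (n := n) (fun _ => 1)
  have mX : ∀ k, MemLp (fun w : Fin n → ℝ => ∑ j, (a k j - 1) * (w j ^ 2 - 1)) 2 (gam n) :=
    fun k => (qv (fun j => a k j - 1)).1
  have iX : ∀ k, ∫ w, (∑ j, (a k j - 1) * (w j ^ 2 - 1)) ^ 2 ∂(gam n) = 2 * ∑ j, (a k j - 1) ^ 2 :=
    fun k => (qv (fun j => a k j - 1)).2
  have mT : ∀ k, MemLp (fun w : Fin n → ℝ => ∑ j, (a k j / bv a p j) * (w j ^ 2 - 1)) 2 (gam n) :=
    fun k => (qv (fun j => a k j / bv a p j)).1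
  have iT : ∀ k, ∫ w, (∑ j, (a k j / bv a p j) * (w j ^ 2 - 1)) ^ 2 ∂(gam n) = 2 * ∑ j, (a k j / bv a p j) ^ 2 :=
    fun k => (qv (fun j => a k j / bv a p j)).2
  have nS : Integrable (fun w : Fin n → ℝ => (∑ j, (1 : ℝ) * (w j ^ 2 - 1)) ^ 2) (gam n) := mS.integrable_sq
  have nX : ∀ k, Integrable (fun w : Fin n → ℝ => (∑ j, (a k j - 1) * (w j ^ 2 - 1)) ^ 2) (gam n) :=
    fun k => (mX k).integrable_sq
  have nXT : ∀ k, Integrable (fun w : Fin n → ℝ => |∑ j, (a k j - 1) * (w j ^ 2 - 1)| *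
      |∑ j, (a k j / bv a p j) * (w j ^ 2 - 1)|) (gam n) := by
    intro k
    exact (mX k).abs.integrable_mul (mT k).abs
  have n2 : Integrable (fun x : ℝ => x ^ 2) (ProbabilityTheory.gaussianReal 0 1) := gML2.integrable (by norm_num)
  have nW : ∀ j, Integrable (fun w : Fin n → ℝ => w j ^ 2) (gam n) := by
    intro j
    exact integrable_comp_eval (μ := fun _ : Fin n => ProbabilityTheory.gaussianReal 0 1) (i := j) n2
  have iW : ∀ j, ∫ w, w j ^ 2 ∂(gam n) = 1 := by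
    intro j
    rw [← g2]
    exact integral_comp_eval (μ := fun _ : Fin n => ProbabilityTheory.gaussianReal 0 1) (i := j)
      n2.aestronglyMeasurable
  have nL : ∀ k, Integrable (fun w : Fin n → ℝ => ∑ j, w j ^ 2 * (a k j - 1) ^ 2) (gam n) :=
    fun k => integrable_finsetSum _ fun j _ => (nW j).mul_const _
  have iL : ∀ k, ∫ w, (∑ j, w j ^ 2 * (a k j - 1) ^ 2) ∂(gam n) = ∑ j, (a k j - 1) ^ 2 := by
    intro k
    rw [integral_finsetSum _ fun j _ => (nW j).mul_const _]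
    refine Finset.sum_congr rfl fun j _ => ?_
    rw [integral_mul_const, iW, one_mul]
  have n1 : Integrable (fun w : Fin n → ℝ => 4 * (∑ j, (1 : ℝ) * (w j ^ 2 - 1)) ^ 2 / (n : ℝ) ^ 2) (gam n) :=
    (nS.const_mul 4).div_const _
  have n2' : ∀ k, Integrable (fun w : Fin n → ℝ => 16 * (∑ j, (a k j - 1) * (w j ^ 2 - 1)) ^ 2 / (n : ℝ) ^ 2) (gam n) :=
    fun k => ((nX k).const_mul 16).div_const _
  have n2s : Integrable (fun w : Fin n → ℝ => ∑ k, 16 * (∑ j, (a k j - 1) * (w j ^ 2 - 1)) ^ 2 / (n : ℝ) ^ 2) (gam n) :=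
    integrable_finsetSum _ fun k _ => n2' k
  have n3a : ∀ k, Integrable (fun w : Fin n → ℝ => 2 / (n : ℝ) * (|∑ j, (a k j - 1) * (w j ^ 2 - 1)| *
      |∑ j, (a k j / bv a p j) * (w j ^ 2 - 1)|)) (gam n) := fun k => (nXT k).const_mul _
  have n3b : ∀ k, Integrable (fun w : Fin n → ℝ => 12 * (∑ j, (a k j - 1) * (w j ^ 2 - 1)) ^ 2 / (n : ℝ)) (gam n) :=
    fun k => ((nX k).const_mul 12).div_const _
  have n3c : ∀ k, Integrable (fun w : Fin n → ℝ => 32 / (n : ℝ) * ∑ j, w j ^ 2 * (a k j - 1) ^ 2) (gam n) :=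
    fun k => (nL k).const_mul _
  have n3d : ∀ k, Integrable (fun w : Fin n → ℝ => 64 * (∑ j, (a k j - 1) * (w j ^ 2 - 1)) ^ 2 / (n : ℝ) ^ 2) (gam n) :=
    fun k => ((nX k).const_mul 64).div_const _
  have n3' : ∀ k, Integrable (fun w : Fin n → ℝ => p k * (2 / (n : ℝ) * (|∑ j, (a k j - 1) * (w j ^ 2 - 1)| *
          |∑ j, (a k j / bv a p j) * (w j ^ 2 - 1)|) +
        12 * (∑ j, (a k j - 1) * (w j ^ 2 - 1)) ^ 2 / (n : ℝ) +
        32 / (n : ℝ) * ∑ j, w j ^ 2 * (a k j - 1) ^ 2 +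
        64 * (∑ j, (a k j - 1) * (w j ^ 2 - 1)) ^ 2 / (n : ℝ) ^ 2)) (gam n) :=
    fun k => ((((n3a k).add (n3b k)).add (n3c k)).add (n3d k)).const_mul _
  have n3s : Integrable (fun w : Fin n → ℝ => ∑ k, p k * (2 / (n : ℝ) * (|∑ j, (a k j - 1) * (w j ^ 2 - 1)| *
          |∑ j, (a k j / bv a p j) * (w j ^ 2 - 1)|) +
        12 * (∑ j, (a k j - 1) * (w j ^ 2 - 1)) ^ 2 / (n : ℝ) +
        32 / (n : ℝ) * ∑ j, w j ^ 2 * (a k j - 1) ^ 2 +
        64 * (∑ j, (a k j - 1) * (w j ^ 2 - 1)) ^ 2 / (n : ℝ) ^ 2)) (gam n) :=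
    integrable_finsetSum _ fun k _ => n3' k
  have n12 : Integrable (fun w : Fin n → ℝ => 4 * (∑ j, (1 : ℝ) * (w j ^ 2 - 1)) ^ 2 / (n : ℝ) ^ 2 +
      ∑ k, 16 * (∑ j, (a k j - 1) * (w j ^ 2 - 1)) ^ 2 / (n : ℝ) ^ 2) (gam n) := n1.add n2s
  have n3ab : ∀ k, Integrable (fun w : Fin n → ℝ => 2 / (n : ℝ) * (|∑ j, (a k j - 1) * (w j ^ 2 - 1)| *
      |∑ j, (a k j / bv a p j) * (w j ^ 2 - 1)|) +
      12 * (∑ j, (a k j - 1) * (w j ^ 2 - 1)) ^ 2 / (n : ℝ)) (gam n) := fun k => (n3a k).add (n3b k)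
  have n3abc : ∀ k, Integrable (fun w : Fin n → ℝ => 2 / (n : ℝ) * (|∑ j, (a k j - 1) * (w j ^ 2 - 1)| *
      |∑ j, (a k j / bv a p j) * (w j ^ 2 - 1)|) +
      12 * (∑ j, (a k j - 1) * (w j ^ 2 - 1)) ^ 2 / (n : ℝ) +
      32 / (n : ℝ) * ∑ j, w j ^ 2 * (a k j - 1) ^ 2) (gam n) := fun k => (n3ab k).add (n3c k)
  refine ⟨n12.add n3s, ?_⟩
  rw [integral_add n12 n3s, integral_add n1 n2s, integral_finsetSum _ fun k _ => n2' k,
    integral_finsetSum _ fun k _ => n3' k]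
  have e1 : ∫ w : Fin n → ℝ, 4 * (∑ j, (1 : ℝ) * (w j ^ 2 - 1)) ^ 2 / (n : ℝ) ^ 2 ∂(gam n) = 8 / (n : ℝ) := by
    rw [integral_div, integral_const_mul, iS]
    simp
    field_simp
    norm_num
  have e2 : ∀ k, ∫ w : Fin n → ℝ, 16 * (∑ j, (a k j - 1) * (w j ^ 2 - 1)) ^ 2 / (n : ℝ) ^ 2 ∂(gam n) =
      32 * ((∑ j, (a k j - 1) ^ 2) / (n : ℝ) ^ 2) := by
    intro k
    rw [integral_div, integral_const_mul, iX k]
    ring
  have hC : ∀ k, ∫ w : Fin n → ℝ, |∑ j, (a k j - 1) * (w j ^ 2 - 1)| *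
      |∑ j, (a k j / bv a p j) * (w j ^ 2 - 1)| ∂(gam n) ≤
      3 * √((∑ j, (a k j - 1) ^ 2) * ((n : ℝ) + ∑ j, (a k j - 1) ^ 2)) := by
    intro k
    refine (cs2 (gam n) _ _ (mX k) (mT k)).trans ?_
    rw [iX k, iT k]
    have hE : 0 ≤ ∑ j, (a k j - 1) ^ 2 := Finset.sum_nonneg fun j _ => sq_nonneg _
    have h1 : ∑ j, (a k j / bv a p j) ^ 2 ≤ 16 / 9 * ((n : ℝ) + ∑ j, (a k j - 1) ^ 2) := by
      have h2 : ∑ j, a k j ^ 2 = (n : ℝ) + ∑ j, (a k j - 1) ^ 2 := by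
        have h3 : ∀ j, a k j ^ 2 = (2 * a k j - 1) + (a k j - 1) ^ 2 := fun j => by ring
        rw [Finset.sum_congr rfl fun j _ => h3 j, Finset.sum_add_distrib, Finset.sum_sub_distrib, ← Finset.mul_sum, hs k]
        simp
        ring
      rw [← h2, Finset.mul_sum]
      refine Finset.sum_le_sum fun j _ => ?_
      have hbj := hb j
      have hbp : 0 < bv a p j := by linarith
      rw [div_pow, div_le_iff₀ (by positivity)]
      have h4 : (1 : ℝ) ≤ 16 / 9 * bv a p j ^ 2 := by nlinarith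
      nlinarith [sq_nonneg (a k j)]
    have h5 : 3 * √((∑ j, (a k j - 1) ^ 2) * ((n : ℝ) + ∑ j, (a k j - 1) ^ 2)) =
        √(9 * ((∑ j, (a k j - 1) ^ 2) * ((n : ℝ) + ∑ j, (a k j - 1) ^ 2))) := by
      rw [Real.sqrt_mul (by norm_num : (0 : ℝ) ≤ 9), show (9 : ℝ) = 3 ^ 2 by norm_num, Real.sqrt_sq (by norm_num)]
    rw [h5]
    refine Real.sqrt_le_sqrt ?_
    have h6 : 0 ≤ (∑ j, (a k j - 1) ^ 2) * ((n : ℝ) + ∑ j, (a k j - 1) ^ 2) := by positivity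
    calc (2 * ∑ j, (a k j - 1) ^ 2) * (2 * ∑ j, (a k j / bv a p j) ^ 2) =
          4 * ((∑ j, (a k j - 1) ^ 2) * ∑ j, (a k j / bv a p j) ^ 2) := by ring
      _ ≤ 4 * ((∑ j, (a k j - 1) ^ 2) * (16 / 9 * ((n : ℝ) + ∑ j, (a k j - 1) ^ 2))) := by
          gcongr
      _ ≤ 9 * ((∑ j, (a k j - 1) ^ 2) * ((n : ℝ) + ∑ j, (a k j - 1) ^ 2)) := by
          nlinarith
  have e3 : ∀ k, ∫ w : Fin n → ℝ, p k * (2 / (n : ℝ) * (|∑ j, (a k j - 1) * (w j ^ 2 - 1)| *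
          |∑ j, (a k j / bv a p j) * (w j ^ 2 - 1)|) +
        12 * (∑ j, (a k j - 1) * (w j ^ 2 - 1)) ^ 2 / (n : ℝ) +
        32 / (n : ℝ) * ∑ j, w j ^ 2 * (a k j - 1) ^ 2 +
        64 * (∑ j, (a k j - 1) * (w j ^ 2 - 1)) ^ 2 / (n : ℝ) ^ 2) ∂(gam n) ≤
      200 * (p k * ((∑ j, (a k j - 1) ^ 2) / (n : ℝ) +
        √((∑ j, (a k j - 1) ^ 2) * ((n : ℝ) + ∑ j, (a k j - 1) ^ 2)) / (n : ℝ))) := by
    intro k
    have hE : 0 ≤ ∑ j, (a k j - 1) ^ 2 := Finset.sum_nonneg fun j _ => sq_nonneg _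
    rw [integral_const_mul, integral_add (n3abc k) (n3d k),
      integral_add (n3ab k) (n3c k), integral_add (n3a k) (n3b k), integral_const_mul,
      integral_div, integral_const_mul, integral_const_mul, integral_div, integral_const_mul, iX k, iL k]
    rw [mul_left_comm (200 : ℝ) (p k)]
    refine mul_le_mul_of_nonneg_left ?_ (hp k)
    have h1 := hC k
    set R := √((∑ j, (a k j - 1) ^ 2) * ((n : ℝ) + ∑ j, (a k j - 1) ^ 2)) with hR
    set I := ∫ w : Fin n → ℝ, |∑ j, (a k j - 1) * (w j ^ 2 - 1)| *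
      |∑ j, (a k j / bv a p j) * (w j ^ 2 - 1)| ∂(gam n) with hI
    set e := ∑ j, (a k j - 1) ^ 2 with he
    have hR0 : 0 ≤ R := Real.sqrt_nonneg _
    have h2 : 2 / (n : ℝ) * I ≤ 6 * (R / n) := by
      calc 2 / (n : ℝ) * I ≤ 2 / (n : ℝ) * (3 * R) := by gcongr
        _ = 6 * (R / n) := by ring
    have h3 : e / (n : ℝ) ^ 2 ≤ 1 / 2 * (e / n) := by
      rw [div_le_iff₀ (by positivity)]
      have : 1 / 2 * (e / (n : ℝ)) * (n : ℝ) ^ 2 = e * (n / 2) := by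
        field_simp
      rw [this]
      nlinarith
    have h4 : 0 ≤ e / (n : ℝ) := by positivity
    have h5 : 0 ≤ R / (n : ℝ) := by positivity
    have h6 : 12 * (2 * e) / (n : ℝ) = 24 * (e / n) := by ring
    have h7 : 32 / (n : ℝ) * e = 32 * (e / n) := by ring
    have h8 : 64 * (2 * e) / (n : ℝ) ^ 2 = 128 * (e / (n : ℝ) ^ 2) := by ring
    rw [h6, h7, h8]
    linarith
  rw [e1, Finset.sum_congr rfl fun k _ => e2 k]
  have h9 := Finset.sum_le_sum fun k (_ : k ∈ Finset.univ) => e3 k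
  have h10 : 0 ≤ ∑ k, (∑ j, (a k j - 1) ^ 2) / (n : ℝ) ^ 2 :=
    Finset.sum_nonneg fun k _ => div_nonneg (Finset.sum_nonneg fun j _ => sq_nonneg _) (by positivity)
  have h11 : (8 : ℝ) / n = 8 * (1 / n) := by ring
  have h12 : (0 : ℝ) ≤ 1 / n := by positivity
  rw [← Finset.mul_sum, h11]
  rw [← Finset.mul_sum] at h9
  linarith

end Pool.Agent.H494.Kac
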