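import Pool.Agent.H494.Kac.Defs2

open MeasureTheory Filter Topology
open scoped ENNReal

namespace Pool.Agent.H494.Kac
theorem step1_log (r : ℝ) (hr : -(1 / 3) ≤ r) : r - Real.log (1 + r) ≤ r ^ 2 := by
  rcases le_or_gt 0 r with h | h
  · have h1 := Real.le_log_one_add_of_nonneg h
    have h2 : r - r ^ 2 ≤ 2 * r / (r + 2) := by
      rw [le_div_iff₀ (by linarith)]
      nlinarith [mul_nonneg h h, mul_nonneg (mul_nonneg h h) h]
    linarith
  · have h1 : |(-r)| < 1 := by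
      rw [abs_of_pos (by linarith)]
      linarith
    have h2 := Real.abs_log_sub_add_sum_range_le h1 2
    rw [abs_of_pos (show (0 : ℝ) < -r by linarith)] at h2
    have h3 := (abs_le.mp h2).1
    simp only [Finset.sum_range_succ, Finset.sum_range_zero, sub_neg_eq_add] at h3
    norm_num at h3
    have h4 : (-r) ^ 3 / (1 + r) ≤ r ^ 2 / 2 := by
      rw [div_le_iff₀ (by linarith)]
      nlinarith [sq_nonneg r, mul_nonneg (sq_nonneg r) (show (0 : ℝ) ≤ 1 + 3 * r by linarith)]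
    linarith

theorem step1_comb (X κ d : ℝ) (hκ : 0 ≤ κ) (hd : 1 - κ ≤ d) :
    1 - Real.exp (-X) * |d| ≤ κ + |X| := by
  have h1 := Real.add_one_le_exp (-X)
  have h2 := le_abs_self X
  have h3 := Real.exp_pos (-X)
  have h4 := le_abs_self d
  have h5 := abs_nonneg d
  have h6 := abs_nonneg X
  rcases le_or_gt 1 κ with h | h
  · nlinarith [mul_nonneg h3.le h5]
  · rcases le_or_gt 1 |X| with h' | h'
    · nlinarith [mul_nonneg h3.le h5]
    · have h7 : (1 - |X|) * (1 - κ) ≤ Real.exp (-X) * |d| :=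
        mul_le_mul (by linarith) (by linarith) (by linarith) h3.le
      nlinarith [mul_nonneg h6 hκ]

theorem step1_h (ζ : ℝ) (h : |ζ| ≤ 1 / 2) : 1 / (1 + ζ) = 1 - ζ / (1 + ζ) ∧
    |ζ / (1 + ζ)| ≤ 2 * |ζ| ∧ -1 ≤ ζ / (1 + ζ) ∧ ζ / (1 + ζ) ≤ 1 / 3 := by
  have h1 := abs_le.mp h
  have h2 : 0 < 1 + ζ := by linarith [h1.1]
  refine ⟨?_, ?_, ?_, ?_⟩
  · field_simp
    ring
  · rw [abs_div, abs_of_pos h2, div_le_iff₀ h2]
    nlinarith [abs_nonneg ζ, h1.1]
  · rw [le_div_iff₀ h2]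
    linarith [h1.1]
  · rw [div_le_iff₀ h2]
    linarith [h1.2]

/-- the abstract estimate -/
theorem step1_core (n : ℕ) (hn : 0 < (n : ℝ)) (a : Fin n → Fin n → ℝ) (p b w : Fin n → ℝ)
    (N : ℝ) (ξ h r G : Fin n → ℝ)
    (ha : ∀ k i, 0 ≤ a k i) (hs : ∀ k, ∑ i, a k i = n) (hp : ∀ k, 0 ≤ p k)
    (hbv : ∀ i, b i = ∑ k, p k * a k i)
    (hb : ∀ i, 3 / 4 ≤ b i) (hNd : N = ∑ i, w i ^ 2) (hN : (n : ℝ) / 2 ≤ N)
    (hh : ∀ k, |h k| ≤ 4 * |ξ k| / n) (hh1 : ∀ k, -1 ≤ h k) (hh2 : ∀ k, h k ≤ 1 / 3)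
    (hr : ∀ i, r i = - ∑ k, (p k * a k i / b i) * h k) (hG : ∀ i, G i = 1 + r i)
    (d κ : ℝ) (hκd : κ = 2 * ∑ i, w i ^ 2 / N * ∑ k, p k * (a k i * (1 - h k) - 1) ^ 2)
    (hd : 1 - κ ≤ d) :
    1 - Real.exp ((∑ i, w i ^ 2 - ∑ i, w i ^ 2 * G i) / 2) * ((∏ i, √(G i)) * |d|) ≤
      ∑ k, p k * (2 / (n : ℝ) * (|ξ k| * |∑ j, (w j ^ 2 - 1) * (a k j / b j)|) +
        12 * (ξ k) ^ 2 / (n : ℝ) +
        32 / (n : ℝ) * ∑ j, w j ^ 2 * (a k j - 1) ^ 2 +
        64 * (ξ k) ^ 2 / (n : ℝ) ^ 2) := by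
  have hNpos : 0 < N := lt_of_lt_of_le (by positivity) hN
  have hbp : ∀ i, 0 < b i := fun i => lt_of_lt_of_le (by norm_num) (hb i)
  have hω0 : ∀ i k, 0 ≤ p k * a k i / b i := fun i k =>
    div_nonneg (mul_nonneg (hp k) (ha k i)) (hbp i).le
  have hω1 : ∀ i, ∑ k, p k * a k i / b i = 1 := by
    intro i
    rw [← Finset.sum_div, ← hbv i, div_self (hbp i).ne']
  have hr1 : ∀ i, -(1 / 3) ≤ r i := by
    intro i
    rw [hr i]
    have : ∑ k, (p k * a k i / b i) * h k ≤ ∑ k, (p k * a k i / b i) * (1 / 3) :=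
      Finset.sum_le_sum fun k _ => mul_le_mul_of_nonneg_left (hh2 k) (hω0 i k)
    rw [← Finset.sum_mul, hω1 i, one_mul] at this
    linarith
  have hGpos : ∀ i, 0 < 1 + r i := fun i => by linarith [hr1 i]
  have hhsq : ∀ k, h k ^ 2 ≤ 16 * ξ k ^ 2 / (n : ℝ) ^ 2 := by
    intro k
    have h1 : h k ^ 2 = |h k| ^ 2 := (sq_abs _).symm
    have h2 : |h k| ^ 2 ≤ (4 * |ξ k| / n) ^ 2 := pow_le_pow_left₀ (abs_nonneg _) (hh k) 2
    rw [h1]
    refine h2.trans (le_of_eq ?_)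
    rw [div_pow, mul_pow, sq_abs]
    norm_num
  have hr2 : ∀ i, r i ^ 2 ≤ ∑ k, (p k * a k i / b i) * h k ^ 2 := by
    intro i
    rw [hr i, neg_sq]
    exact Real.pow_arith_mean_le_arith_mean_pow_of_even Finset.univ
      (fun k => p k * a k i / b i) h (fun k _ => hω0 i k) (hω1 i) (by norm_num)
  have hωn : ∀ k, ∑ i, p k * a k i / b i ≤ 4 / 3 * n * p k := by
    intro k
    have h1 : ∀ i, p k * a k i / b i ≤ p k * a k i * (4 / 3) := by
      intro i
      rw [div_le_iff₀ (hbp i)]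
      have := mul_nonneg (hp k) (ha k i)
      nlinarith [hb i]
    calc ∑ i, p k * a k i / b i ≤ ∑ i, p k * a k i * (4 / 3) := Finset.sum_le_sum fun i _ => h1 i
      _ = 4 / 3 * n * p k := by
        rw [← Finset.sum_mul, ← Finset.mul_sum, hs k]
        ring
  -- the exponential form
  obtain ⟨X, hX⟩ : ∃ X, X = (1 / 2) * ∑ i, (w i ^ 2 * r i - Real.log (1 + r i)) := ⟨_, rfl⟩
  have hexp : Real.exp ((∑ i, w i ^ 2 - ∑ i, w i ^ 2 * G i) / 2) * ((∏ i, √(G i)) * |d|) =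
      Real.exp (-X) * |d| := by
    have h1 : ∏ i, √(G i) = Real.exp (∑ i, Real.log (1 + r i) / 2) := by
      rw [Real.exp_sum]
      apply Finset.prod_congr rfl
      intro i _
      rw [Real.exp_half, Real.exp_log (hGpos i), hG i]
    rw [h1, ← mul_assoc, ← Real.exp_add]
    congr 2
    rw [hX, Finset.sum_sub_distrib, ← Finset.sum_div]
    have h2 : ∑ i, w i ^ 2 * G i = ∑ i, w i ^ 2 + ∑ i, w i ^ 2 * r i := by
      rw [← Finset.sum_add_distrib]
      apply Finset.sum_congr rfl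
      intro i _
      rw [hG i]
      ring
    rw [h2]
    ring
  have hκ0 : 0 ≤ κ := by
    rw [hκd]
    apply mul_nonneg (by norm_num)
    apply Finset.sum_nonneg
    intro i _
    apply mul_nonneg (div_nonneg (sq_nonneg _) hNpos.le)
    exact Finset.sum_nonneg fun k _ => mul_nonneg (hp k) (sq_nonneg _)
  rw [hexp]
  refine (step1_comb X κ d hκ0 hd).trans ?_
  -- bound on X
  have hXb : |X| ≤ ∑ k, p k * (2 / (n : ℝ) * (|ξ k| * |∑ j, (w j ^ 2 - 1) * (a k j / b j)|) +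
      12 * (ξ k) ^ 2 / (n : ℝ)) := by
    have h1 : X = (1 / 2) * ∑ i, (w i ^ 2 - 1) * r i +
        (1 / 2) * ∑ i, (r i - Real.log (1 + r i)) := by
      rw [hX, ← mul_add, ← Finset.sum_add_distrib]
      congr 1
      apply Finset.sum_congr rfl
      intro i _
      ring
    have h2 : ∑ i, (w i ^ 2 - 1) * r i =
        - ∑ k, p k * (h k * ∑ j, (w j ^ 2 - 1) * (a k j / b j)) := by
      have h3 : ∀ i, (w i ^ 2 - 1) * r i =
          - ∑ k, p k * (h k * ((w i ^ 2 - 1) * (a k i / b i))) := by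
        intro i
        rw [hr i, mul_neg, Finset.mul_sum]
        congr 1
        apply Finset.sum_congr rfl
        intro k _
        ring
      simp only [h3]
      rw [Finset.sum_neg_distrib, Finset.sum_comm]
      congr 1
      apply Finset.sum_congr rfl
      intro k _
      rw [← Finset.mul_sum, ← Finset.mul_sum]
    have h4 : |(1 / 2) * ∑ i, (w i ^ 2 - 1) * r i| ≤
        ∑ k, p k * (2 / (n : ℝ) * (|ξ k| * |∑ j, (w j ^ 2 - 1) * (a k j / b j)|)) := by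
      rw [h2, abs_mul, abs_neg]
      rw [abs_of_pos (show (0 : ℝ) < 1 / 2 by norm_num)]
      refine (mul_le_mul_of_nonneg_left (Finset.abs_sum_le_sum_abs _ _)
        (by norm_num : (0 : ℝ) ≤ 1 / 2)).trans ?_
      rw [Finset.mul_sum]
      apply Finset.sum_le_sum
      intro k _
      rw [abs_mul, abs_mul, abs_of_nonneg (hp k)]
      have h5 : |h k| * |∑ j, (w j ^ 2 - 1) * (a k j / b j)| ≤
          4 * |ξ k| / n * |∑ j, (w j ^ 2 - 1) * (a k j / b j)| :=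
        mul_le_mul_of_nonneg_right (hh k) (abs_nonneg _)
      calc 1 / 2 * (p k * (|h k| * |∑ j, (w j ^ 2 - 1) * (a k j / b j)|))
          ≤ 1 / 2 * (p k * (4 * |ξ k| / n * |∑ j, (w j ^ 2 - 1) * (a k j / b j)|)) := by
            apply mul_le_mul_of_nonneg_left _ (by norm_num)
            exact mul_le_mul_of_nonneg_left h5 (hp k)
        _ = p k * (2 / (n : ℝ) * (|ξ k| * |∑ j, (w j ^ 2 - 1) * (a k j / b j)|)) := by ring
    have h6 : 0 ≤ (1 / 2) * ∑ i, (r i - Real.log (1 + r i)) := by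
      apply mul_nonneg (by norm_num)
      apply Finset.sum_nonneg
      intro i _
      have := Real.log_le_sub_one_of_pos (hGpos i)
      linarith
    have h7 : (1 / 2) * ∑ i, (r i - Real.log (1 + r i)) ≤
        ∑ k, p k * (12 * (ξ k) ^ 2 / (n : ℝ)) := by
      have h8 : ∑ i, (r i - Real.log (1 + r i)) ≤
          ∑ i, ∑ k, (p k * a k i / b i) * h k ^ 2 :=
        Finset.sum_le_sum fun i _ => (step1_log (r i) (hr1 i)).trans (hr2 i)
      rw [Finset.sum_comm] at h8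
      calc (1 / 2) * ∑ i, (r i - Real.log (1 + r i))
          ≤ (1 / 2) * ∑ k, ∑ i, (p k * a k i / b i) * h k ^ 2 :=
            mul_le_mul_of_nonneg_left h8 (by norm_num)
        _ = ∑ k, (1 / 2) * ((∑ i, p k * a k i / b i) * h k ^ 2) := by
            rw [Finset.mul_sum]
            apply Finset.sum_congr rfl
            intro k _
            rw [Finset.sum_mul]
        _ ≤ ∑ k, p k * (12 * (ξ k) ^ 2 / (n : ℝ)) := by
            apply Finset.sum_le_sum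
            intro k _
            have h9 : (∑ i, p k * a k i / b i) * h k ^ 2 ≤
                (4 / 3 * n * p k) * (16 * ξ k ^ 2 / (n : ℝ) ^ 2) :=
              mul_le_mul (hωn k) (hhsq k) (sq_nonneg _)
                (mul_nonneg (by positivity) (hp k))
            have h10 : (4 / 3 * (n : ℝ) * p k) * (16 * ξ k ^ 2 / (n : ℝ) ^ 2) =
                (64 / 3) * (p k * (ξ k ^ 2 / (n : ℝ))) := by
              field_simp
              try ring
            have h11 : 0 ≤ p k * (ξ k ^ 2 / (n : ℝ)) :=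
              mul_nonneg (hp k) (div_nonneg (sq_nonneg _) hn.le)
            have h12 : p k * (12 * (ξ k) ^ 2 / (n : ℝ)) = 12 * (p k * (ξ k ^ 2 / (n : ℝ))) := by
              ring
            rw [h12]
            rw [h10] at h9
            linarith
    rw [h1]
    refine (abs_add_le _ _).trans ?_
    rw [abs_of_nonneg h6]
    have h13 : ∑ k, p k * (2 / (n : ℝ) * (|ξ k| * |∑ j, (w j ^ 2 - 1) * (a k j / b j)|) +
      12 * (ξ k) ^ 2 / (n : ℝ)) =
        ∑ k, p k * (2 / (n : ℝ) * (|ξ k| * |∑ j, (w j ^ 2 - 1) * (a k j / b j)|)) +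
        ∑ k, p k * (12 * (ξ k) ^ 2 / (n : ℝ)) := by
      rw [← Finset.sum_add_distrib]
      apply Finset.sum_congr rfl
      intro k _
      ring
    rw [h13]
    exact add_le_add h4 h7
  have hκb : κ ≤ ∑ k, p k * (32 / (n : ℝ) * ∑ j, w j ^ 2 * (a k j - 1) ^ 2 +
        64 * (ξ k) ^ 2 / (n : ℝ) ^ 2) := by
    have h1 : ∀ k i, (a k i * (1 - h k) - 1) ^ 2 ≤
        8 * (a k i - 1) ^ 2 + 32 * ξ k ^ 2 / (n : ℝ) ^ 2 := by
      intro k i
      have h2 : (a k i * (1 - h k) - 1) ^ 2 ≤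
          2 * ((a k i - 1) ^ 2 * (1 - h k) ^ 2) + 2 * h k ^ 2 := by
        nlinarith [sq_nonneg ((a k i - 1) * (1 - h k) + h k)]
      have h3 : (1 - h k) ^ 2 ≤ 4 := by
        nlinarith [hh1 k, hh2 k]
      have h4 : (a k i - 1) ^ 2 * (1 - h k) ^ 2 ≤ (a k i - 1) ^ 2 * 4 :=
        mul_le_mul_of_nonneg_left h3 (sq_nonneg _)
      have h5 := hhsq k
      have h6 : 32 * ξ k ^ 2 / (n : ℝ) ^ 2 = 2 * (16 * ξ k ^ 2 / (n : ℝ) ^ 2) := by ring
      rw [h6]
      linarith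
    have hz1 : ∑ i, w i ^ 2 / N = 1 := by
      rw [← Finset.sum_div, ← hNd, div_self hNpos.ne']
    have hz2 : ∀ i, w i ^ 2 / N ≤ 2 / n * w i ^ 2 := by
      intro i
      rw [div_le_iff₀ hNpos]
      have h2 : (1 : ℝ) ≤ 2 / n * N := by
        rw [div_mul_eq_mul_div, le_div_iff₀ hn]
        linarith
      nlinarith [mul_le_mul_of_nonneg_left h2 (sq_nonneg (w i))]
    calc κ = 2 * ∑ i, w i ^ 2 / N * ∑ k, p k * (a k i * (1 - h k) - 1) ^ 2 := hκd
      _ ≤ 2 * ∑ i, w i ^ 2 / N * ∑ k, p k * (8 * (a k i - 1) ^ 2 + 32 * ξ k ^ 2 / (n : ℝ) ^ 2) := by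
          apply mul_le_mul_of_nonneg_left _ (by norm_num)
          apply Finset.sum_le_sum
          intro i _
          apply mul_le_mul_of_nonneg_left _ (div_nonneg (sq_nonneg _) hNpos.le)
          apply Finset.sum_le_sum
          intro k _
          exact mul_le_mul_of_nonneg_left (h1 k i) (hp k)
      _ = ∑ k, p k * (16 * ∑ i, w i ^ 2 / N * (a k i - 1) ^ 2 + 64 * ξ k ^ 2 / (n : ℝ) ^ 2) := by
          have h7 : ∀ i, w i ^ 2 / N * ∑ k, p k * (8 * (a k i - 1) ^ 2 + 32 * ξ k ^ 2 / (n : ℝ) ^ 2) =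
              ∑ k, (p k * 8 * (w i ^ 2 / N * (a k i - 1) ^ 2) +
                p k * (32 * ξ k ^ 2 / (n : ℝ) ^ 2) * (w i ^ 2 / N)) := by
            intro i
            rw [Finset.mul_sum]
            apply Finset.sum_congr rfl
            intro k _
            ring
          simp only [h7]
          rw [Finset.sum_comm, Finset.mul_sum]
          apply Finset.sum_congr rfl
          intro k _
          rw [Finset.sum_add_distrib, ← Finset.mul_sum, ← Finset.mul_sum, hz1]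
          ring
      _ ≤ ∑ k, p k * (32 / (n : ℝ) * ∑ j, w j ^ 2 * (a k j - 1) ^ 2 +
        64 * (ξ k) ^ 2 / (n : ℝ) ^ 2) := by
          apply Finset.sum_le_sum
          intro k _
          apply mul_le_mul_of_nonneg_left _ (hp k)
          apply add_le_add_left
          rw [Finset.mul_sum, Finset.mul_sum]
          apply Finset.sum_le_sum
          intro i _
          have h8 := mul_le_mul_of_nonneg_right (hz2 i) (sq_nonneg (a k i - 1))
          calc 16 * (w i ^ 2 / N * (a k i - 1) ^ 2) ≤ 16 * (2 / n * w i ^ 2 * (a k i - 1) ^ 2) :=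
                mul_le_mul_of_nonneg_left h8 (by norm_num)
            _ = 32 / n * (w i ^ 2 * (a k i - 1) ^ 2) := by ring
  have hfin : ∑ k, p k * (2 / (n : ℝ) * (|ξ k| * |∑ j, (w j ^ 2 - 1) * (a k j / b j)|) +
        12 * (ξ k) ^ 2 / (n : ℝ) +
        32 / (n : ℝ) * ∑ j, w j ^ 2 * (a k j - 1) ^ 2 +
        64 * (ξ k) ^ 2 / (n : ℝ) ^ 2) =
      ∑ k, p k * (2 / (n : ℝ) * (|ξ k| * |∑ j, (w j ^ 2 - 1) * (a k j / b j)|) +
        12 * (ξ k) ^ 2 / (n : ℝ)) +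
      ∑ k, p k * (32 / (n : ℝ) * ∑ j, w j ^ 2 * (a k j - 1) ^ 2 +
        64 * (ξ k) ^ 2 / (n : ℝ) ^ 2) := by
    rw [← Finset.sum_add_distrib]
    apply Finset.sum_congr rfl
    intro k _
    ring
  rw [hfin]
  linarith

theorem step1_pt (n : ℕ) (hn : 2 ≤ n) (a : Fin n → Fin n → ℝ) (p : Fin n → ℝ)
    (ha : ∀ k i, 0 ≤ a k i) (hs : ∀ k, ∑ i, a k i = n) (hp : ∀ k, 0 ≤ p k) (hp1 : ∑ k, p k = 1)
    (hb : ∀ i, 3 / 4 ≤ bv a p i) (w : Fin n → ℝ) (hw : ∀ i, w i ≠ 0)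
    (hdet : (∀ i, 1 / 2 ≤ gf a p w i) → 1 - 2 * ∑ i, w i ^ 2 / (∑ l, w l ^ 2) *
      ∑ k, p k * (a k i * (∑ l, w l ^ 2) / zs a w k - 1) ^ 2 ≤ (Jf a p w).det) :
    1 - Real.exp ((∑ i, w i ^ 2 - ∑ i, (Th a p w i) ^ 2) / 2) *
      ((∏ i, √(gf a p w i / bv a p i)) * |(Jf a p w).det|) ≤
    4 * (∑ i, w i ^ 2 - n) ^ 2 / (n : ℝ) ^ 2 +
      ∑ k, 16 * (∑ j, (a k j - 1) * (w j ^ 2 - 1)) ^ 2 / (n : ℝ) ^ 2 +
      ∑ k, p k * (2 / (n : ℝ) * (|∑ j, (a k j - 1) * (w j ^ 2 - 1)| *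
          |∑ j, (w j ^ 2 - 1) * (a k j / bv a p j)|) +
        12 * (∑ j, (a k j - 1) * (w j ^ 2 - 1)) ^ 2 / (n : ℝ) +
        32 / (n : ℝ) * ∑ j, w j ^ 2 * (a k j - 1) ^ 2 +
        64 * (∑ j, (a k j - 1) * (w j ^ 2 - 1)) ^ 2 / (n : ℝ) ^ 2) := by
  have hnR : (0 : ℝ) < n := by
    have : (2 : ℝ) ≤ n := by exact_mod_cast hn
    linarith
  have hb' : ∀ i, bv a p i = ∑ k, p k * a k i := fun i => rfl
  obtain ⟨N, hN⟩ : ∃ N, N = ∑ i, w i ^ 2 := ⟨_, rfl⟩
  obtain ⟨ξ, hξ⟩ : ∃ ξ : Fin n → ℝ, ∀ k, ξ k = ∑ j, (a k j - 1) * (w j ^ 2 - 1) :=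
    ⟨_, fun k => rfl⟩
  simp only [← hξ, ← hN]
  have hnn : 0 ≤ ∑ k, p k * (2 / (n : ℝ) * (|ξ k| * |∑ j, (w j ^ 2 - 1) * (a k j / bv a p j)|) +
        12 * (ξ k) ^ 2 / (n : ℝ) +
        32 / (n : ℝ) * ∑ j, w j ^ 2 * (a k j - 1) ^ 2 +
        64 * (ξ k) ^ 2 / (n : ℝ) ^ 2) := by
    apply Finset.sum_nonneg
    intro k _
    apply mul_nonneg (hp k)
    have : 0 ≤ ∑ j, w j ^ 2 * (a k j - 1) ^ 2 :=
      Finset.sum_nonneg fun j _ => mul_nonneg (sq_nonneg _) (sq_nonneg _)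
    positivity
  have hn1 : 0 ≤ 4 * (N - n) ^ 2 / (n : ℝ) ^ 2 := by positivity
  have hn2 : 0 ≤ ∑ k, 16 * (ξ k) ^ 2 / (n : ℝ) ^ 2 :=
    Finset.sum_nonneg fun k _ => by positivity
  have hlhs : 1 - Real.exp ((N - ∑ i, (Th a p w i) ^ 2) / 2) *
      ((∏ i, √(gf a p w i / bv a p i)) * |(Jf a p w).det|) ≤ 1 := by
    have : 0 ≤ Real.exp ((N - ∑ i, (Th a p w i) ^ 2) / 2) *
      ((∏ i, √(gf a p w i / bv a p i)) * |(Jf a p w).det|) := by
      apply mul_nonneg (Real.exp_pos _).le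
      apply mul_nonneg _ (abs_nonneg _)
      exact Finset.prod_nonneg fun i _ => Real.sqrt_nonneg _
    linarith
  rcases lt_or_ge N ((n : ℝ) / 2) with hc1 | hc1
  · have h1 : 1 ≤ 4 * (N - n) ^ 2 / (n : ℝ) ^ 2 := by
      rw [le_div_iff₀ (by positivity)]
      nlinarith
    linarith
  by_cases hc2 : ∀ k, |ξ k| ≤ (n : ℝ) / 4
  swap
  · push Not at hc2
    obtain ⟨k, hk⟩ := hc2
    have h1 : 1 ≤ 16 * (ξ k) ^ 2 / (n : ℝ) ^ 2 := by
      rw [le_div_iff₀ (by positivity), ← sq_abs (ξ k)]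
      nlinarith [abs_nonneg (ξ k)]
    have h2 : 16 * (ξ k) ^ 2 / (n : ℝ) ^ 2 ≤ ∑ k, 16 * (ξ k) ^ 2 / (n : ℝ) ^ 2 :=
      Finset.single_le_sum (f := fun k => 16 * (ξ k) ^ 2 / (n : ℝ) ^ 2)
        (fun k _ => by positivity) (Finset.mem_univ k)
    linarith
  have hNpos : 0 < N := lt_of_lt_of_le (by positivity) hc1
  have hζ : ∀ k, |ξ k / N| ≤ 1 / 2 := by
    intro k
    rw [abs_div, abs_of_pos hNpos, div_le_iff₀ hNpos]
    linarith [hc2 k]
  have hzs : ∀ k, zs a w k = N * (1 + ξ k / N) := by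
    intro k
    rw [mul_add, mul_one, mul_div_cancel₀ _ hNpos.ne', hξ k, hN]
    unfold zs
    have h1 : ∑ j, (a k j - 1) * (w j ^ 2 - 1) =
        ∑ j, a k j * w j ^ 2 - ∑ j, w j ^ 2 - (∑ j, a k j - ∑ j : Fin n, (1 : ℝ)) := by
      rw [← Finset.sum_sub_distrib, ← Finset.sum_sub_distrib, ← Finset.sum_sub_distrib]
      apply Finset.sum_congr rfl
      intro j _
      ring
    rw [h1, hs k]
    simp
  obtain ⟨h, hhd⟩ : ∃ h : Fin n → ℝ, ∀ k, h k = (ξ k / N) / (1 + ξ k / N) := ⟨_, fun k => rfl⟩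
  have hinv : ∀ k, N / zs a w k = 1 - h k := by
    intro k
    obtain ⟨e, _⟩ := step1_h _ (hζ k)
    rw [hhd k, ← e, hzs k, ← div_div, div_self hNpos.ne']
  have hh : ∀ k, |h k| ≤ 4 * |ξ k| / n := by
    intro k
    obtain ⟨_, e, _⟩ := step1_h _ (hζ k)
    rw [hhd k]
    refine e.trans ?_
    rw [abs_div, abs_of_pos hNpos, le_div_iff₀ hnR]
    have h1 : |ξ k| / N * N = |ξ k| := div_mul_cancel₀ _ hNpos.ne'
    have h2 : 0 ≤ |ξ k| / N := div_nonneg (abs_nonneg _) hNpos.le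
    nlinarith [mul_le_mul_of_nonneg_left hc1 h2]
  have hh1 : ∀ k, -1 ≤ h k := by
    intro k
    obtain ⟨_, _, e, _⟩ := step1_h _ (hζ k)
    rw [hhd k]
    exact e
  have hh2 : ∀ k, h k ≤ 1 / 3 := by
    intro k
    obtain ⟨_, _, _, e⟩ := step1_h _ (hζ k)
    rw [hhd k]
    exact e
  have hbp : ∀ i, 0 < bv a p i := fun i => lt_of_lt_of_le (by norm_num) (hb i)
  obtain ⟨r, hr⟩ : ∃ r : Fin n → ℝ, ∀ i, r i = - ∑ k, (p k * a k i / bv a p i) * h k :=
    ⟨_, fun i => rfl⟩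
  have hgf : ∀ i, gf a p w i = ∑ k, p k * a k i * (1 - h k) := by
    intro i
    unfold gf
    rw [← hN, Finset.mul_sum]
    apply Finset.sum_congr rfl
    intro k _
    rw [← hinv k]
    ring
  have hG : ∀ i, gf a p w i / bv a p i = 1 + r i := by
    intro i
    have h1 : ∑ k, p k * a k i * (1 - h k) = bv a p i - ∑ k, p k * a k i * h k := by
      rw [hb' i, ← Finset.sum_sub_distrib]
      apply Finset.sum_congr rfl
      intro k _
      ring
    rw [hgf i, h1, sub_div, div_self (hbp i).ne', hr i, Finset.sum_div]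
    rw [sub_eq_add_neg]
    congr 2
    apply Finset.sum_congr rfl
    intro k _
    ring
  have hgfl : ∀ i, 1 / 2 ≤ gf a p w i := by
    intro i
    rw [hgf i]
    have h1 : ∑ k, p k * a k i * (2 / 3) ≤ ∑ k, p k * a k i * (1 - h k) :=
      Finset.sum_le_sum fun k _ => mul_le_mul_of_nonneg_left (by linarith [hh2 k])
        (mul_nonneg (hp k) (ha k i))
    rw [← Finset.sum_mul, ← hb' i] at h1
    linarith [hb i]
  have hd := hdet hgfl
  have hTh : ∑ i, (Th a p w i) ^ 2 = ∑ i, w i ^ 2 * (gf a p w i / bv a p i) := by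
    apply Finset.sum_congr rfl
    intro i _
    unfold Th
    rw [mul_pow, Real.sq_sqrt]
    exact div_nonneg (by linarith [hgfl i]) (hbp i).le
  have hmain := step1_core n hnR a p (bv a p) w N ξ h r (fun i => gf a p w i / bv a p i)
    ha hs hp hb' hb hN hc1 hh hh1 hh2 hr hG (Jf a p w).det
    (2 * ∑ i, w i ^ 2 / N * ∑ k, p k * (a k i * (1 - h k) - 1) ^ 2) rfl (by
      refine le_trans (le_of_eq ?_) hd
      congr 2
      rw [← hN]
      apply Finset.sum_congr rfl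
      intro i _
      congr 1
      apply Finset.sum_congr rfl
      intro k _
      rw [← hinv k, mul_div_assoc])
  rw [← hN, ← hTh] at hmain
  linarith

end Pool.Agent.H494.Kac
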