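import Pool.Agent.H494.Kac.Defs2

open MeasureTheory Filter Topology
open scoped ENNReal

namespace Pool.Agent.H494.Kac
/-- the differential of `∑ j, c j * w j ^ 2` -/
noncomputable def th_deriv_Z {n : ℕ} (c w : Fin n → ℝ) : (Fin n → ℝ) →L[ℝ] ℝ :=
  ∑ j, (c j * (2 * w j)) • (ContinuousLinearMap.proj (R := ℝ) (φ := fun _ : Fin n => ℝ) j)

theorem th_deriv_Z_apply {n : ℕ} (c w v : Fin n → ℝ) :
    th_deriv_Z c w v = ∑ j, c j * (2 * w j) * v j := by
  unfold th_deriv_Z
  simp [ContinuousLinearMap.sum_apply]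

theorem th_deriv_sq {n : ℕ} (c w : Fin n → ℝ) :
    HasFDerivAt (fun w : Fin n → ℝ => ∑ j, c j * w j ^ 2) (th_deriv_Z c w) w := by
  unfold th_deriv_Z
  refine HasFDerivAt.fun_sum fun j _ => ?_
  have h1 : HasFDerivAt (fun w : Fin n → ℝ => w j)
      (ContinuousLinearMap.proj (R := ℝ) (φ := fun _ : Fin n => ℝ) j) w := hasFDerivAt_apply j w
  have h2 : HasDerivAt (fun y : ℝ => c j * y ^ 2) (c j * (2 * w j)) (w j) := by
    refine ((hasDerivAt_pow 2 (w j)).const_mul (c j)).congr_deriv ?_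
    simp
  show HasFDerivAt ((fun y : ℝ => c j * y ^ 2) ∘ (fun w : Fin n → ℝ => w j)) _ w
  exact h2.comp_hasFDerivAt w h1

/-- `G` -/
noncomputable def th_deriv_G {n : ℕ} (a : Fin n → Fin n → ℝ) (p w : Fin n → ℝ) (i : Fin n) : ℝ :=
  ∑ k, p k * a k i / zs a w k

theorem th_deriv_hG {n : ℕ} (a : Fin n → Fin n → ℝ) (p w : Fin n → ℝ) (i : Fin n)
    (hz : ∀ k, zs a w k ≠ 0) :
    HasFDerivAt (fun w => th_deriv_G a p w i)
      (∑ k, (-(p k * a k i / zs a w k ^ 2)) • th_deriv_Z (a k) w) w := by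
  unfold th_deriv_G
  refine HasFDerivAt.fun_sum fun k _ => ?_
  have h1 : HasFDerivAt (fun w => zs a w k) (th_deriv_Z (a k) w) w := th_deriv_sq (a k) w
  have h2 : HasDerivAt (fun y : ℝ => p k * a k i / y) (-(p k * a k i / zs a w k ^ 2))
      (zs a w k) := by
    refine ((hasDerivAt_inv (hz k)).const_mul (p k * a k i)).congr_deriv ?_
    rw [mul_neg, div_eq_mul_inv]
  exact h2.comp_hasFDerivAt w h1

theorem th_deriv_hgf {n : ℕ} (a : Fin n → Fin n → ℝ) (p w : Fin n → ℝ) (i : Fin n)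
    (hz : ∀ k, zs a w k ≠ 0) :
    HasFDerivAt (fun w => gf a p w i)
      ((∑ j, w j ^ 2) • (∑ k, (-(p k * a k i / zs a w k ^ 2)) • th_deriv_Z (a k) w)
        + (th_deriv_G a p w i) • th_deriv_Z (fun _ => 1) w) w := by
  have hS : HasFDerivAt (fun w : Fin n → ℝ => ∑ j, w j ^ 2) (th_deriv_Z (fun _ => 1) w) w := by
    have h := th_deriv_sq (fun _ : Fin n => (1 : ℝ)) w
    simpa using h
  exact hS.mul (th_deriv_hG a p w i hz)

/-- one coordinate of `Th` -/
theorem th_deriv_hTh {n : ℕ} (a : Fin n → Fin n → ℝ) (p w : Fin n → ℝ) (i : Fin n)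
    (hz : ∀ k, zs a w k ≠ 0) (hg : gf a p w i / bv a p i ≠ 0) :
    HasFDerivAt (fun w => Th a p w i)
      ((w i) • (((1 / bv a p i) / (2 * √(gf a p w i / bv a p i))) •
        ((∑ j, w j ^ 2) • (∑ k, (-(p k * a k i / zs a w k ^ 2)) • th_deriv_Z (a k) w)
        + (th_deriv_G a p w i) • th_deriv_Z (fun _ => 1) w))
        + (√(gf a p w i / bv a p i)) •
          (ContinuousLinearMap.proj (R := ℝ) (φ := fun _ : Fin n => ℝ) i)) w := by
  have h1 : HasFDerivAt (fun w : Fin n → ℝ => w i)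
      (ContinuousLinearMap.proj (R := ℝ) (φ := fun _ : Fin n => ℝ) i) w := hasFDerivAt_apply i w
  have h2 : HasDerivAt (fun y : ℝ => √(y / bv a p i))
      ((1 / bv a p i) / (2 * √(gf a p w i / bv a p i))) (gf a p w i) :=
    ((hasDerivAt_id (gf a p w i)).div_const (bv a p i)).sqrt hg
  have h3 := h2.comp_hasFDerivAt w (th_deriv_hgf a p w i hz)
  exact h1.mul h3

theorem th_deriv_alg {n : ℕ} (a : Fin n → Fin n → ℝ) (p w v : Fin n → ℝ) (i : Fin n)
    (hw : ∀ j, w j ≠ 0) (hS : 0 < ∑ j, w j ^ 2) (hG : 0 < th_deriv_G a p w i)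
    (hb : 0 < bv a p i) :
    w i * (((1 / bv a p i) / (2 * √(gf a p w i / bv a p i))) *
        ((∑ j, w j ^ 2) * (∑ k, (-(p k * a k i / zs a w k ^ 2)) * ∑ j, a k j * (2 * w j) * v j)
        + (th_deriv_G a p w i) * ∑ j, 1 * (2 * w j) * v j))
        + √(gf a p w i / bv a p i) * v i
      = ∑ j, JT a p w i j * v j := by
  have hgf : gf a p w i = (∑ j, w j ^ 2) * th_deriv_G a p w i := rfl
  have hgpos : 0 < gf a p w i / bv a p i := by rw [hgf]; positivity
  set Q := √(gf a p w i / bv a p i) with hQ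
  have hQpos : 0 < Q := Real.sqrt_pos.mpr hgpos
  have hQ2 : Q * Q = (∑ j, w j ^ 2) * th_deriv_G a p w i / bv a p i := by
    rw [hQ, Real.mul_self_sqrt hgpos.le, hgf]
  -- expand the right-hand side
  have hR : ∑ j, JT a p w i j * v j
      = Q * v i - Q * w i * (∑ j, ∑ k, (p k * a k i / zs a w k) / th_deriv_G a p w i *
          (a k j * w j / zs a w k) * v j)
        + Q * w i * ∑ j, w j / (∑ l, w l ^ 2) * v j := by
    have hj : ∀ j, JT a p w i j * v j = Q * ((if i = j then 1 else 0) * v j)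
        - Q * w i * (∑ k, (p k * a k i / zs a w k) / th_deriv_G a p w i *
          (a k j * w j / zs a w k) * v j) + Q * w i * (w j / (∑ l, w l ^ 2) * v j) := by
      intro j
      have hK : Kf a p w i j = w j * ∑ k, (p k * a k i / zs a w k) / th_deriv_G a p w i *
          (a k j * w j / zs a w k) := by
        unfold Kf
        rw [Matrix.of_apply, Finset.mul_sum]
        refine Finset.sum_congr rfl fun k _ => ?_
        unfold th_deriv_G
        ring
      have hJ : Jf a p w i j = (if i = j then 1 else 0) - w j * (∑ k, (p k * a k i / zs a w k) /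
          th_deriv_G a p w i * (a k j * w j / zs a w k)) + w j ^ 2 / ∑ l, w l ^ 2 := by
        unfold Jf
        rw [Matrix.add_apply, Matrix.sub_apply, Matrix.one_apply, hK, Matrix.of_apply]
      unfold JT
      rw [Matrix.of_apply, hJ, ← Finset.sum_mul, ← hQ]
      have hwj := hw j
      generalize (∑ k, (p k * a k i / zs a w k) / th_deriv_G a p w i *
          (a k j * w j / zs a w k)) = Sg
      generalize (∑ l, w l ^ 2) = Sl at hS ⊢
      by_cases hij : i = j
      · subst hij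
        rw [if_pos rfl]
        field_simp
      · rw [if_neg hij]
        field_simp
        ring
    rw [Finset.sum_congr rfl (fun j _ => hj j), Finset.sum_add_distrib, Finset.sum_sub_distrib,
      ← Finset.mul_sum, ← Finset.mul_sum, ← Finset.mul_sum]
    congr 3
    simp
  rw [hR]
  -- the two sums
  have e1 : ∑ j, ∑ k, (p k * a k i / zs a w k) / th_deriv_G a p w i *
          (a k j * w j / zs a w k) * v j
      = -(∑ k, (-(p k * a k i / zs a w k ^ 2)) * ∑ j, a k j * (2 * w j) * v j)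
        / (2 * th_deriv_G a p w i) := by
    rw [Finset.sum_comm, ← Finset.sum_neg_distrib, Finset.sum_div]
    refine Finset.sum_congr rfl fun k _ => ?_
    rw [Finset.mul_sum, ← Finset.sum_neg_distrib, Finset.sum_div]
    refine Finset.sum_congr rfl fun j _ => ?_
    field_simp
  have e2 : ∑ j, w j / (∑ l, w l ^ 2) * v j = (∑ j, 1 * (2 * w j) * v j) / (2 * ∑ l, w l ^ 2) := by
    rw [Finset.sum_div]
    refine Finset.sum_congr rfl fun j _ => ?_
    field_simp
  rw [e1, e2]
  generalize (∑ k, (-(p k * a k i / zs a w k ^ 2)) * ∑ j, a k j * (2 * w j) * v j) = A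
  generalize (∑ j, 1 * (2 * w j) * v j) = B
  generalize th_deriv_G a p w i = Gi at hG hQ2 ⊢
  generalize (∑ j, w j ^ 2) = Si at hS hQ2 ⊢
  generalize bv a p i = bi at hb hQ2 ⊢
  have hbQ : 1 / bi / (2 * Q) = Q / (2 * (Si * Gi)) := by
    rw [div_div, div_eq_div_iff (by positivity) (by positivity)]
    have : Q * (bi * (2 * Q)) = 2 * bi * (Q * Q) := by ring
    rw [this, hQ2]
    field_simp
  rw [hbQ]
  field_simp
  ring

theorem th_deriv (n : ℕ) (a : Fin n → Fin n → ℝ) (p : Fin n → ℝ) (ha : ∀ k i, 0 ≤ a k i)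
    (hs : ∀ k, ∑ i, a k i = n) (hp : ∀ k, 0 ≤ p k) (hp1 : ∑ k, p k = 1)
    (hb : ∀ i, 0 < bv a p i) (w : Fin n → ℝ) (hw : ∀ i, w i ≠ 0) :
    HasFDerivAt (Th a p) (LinearMap.toContinuousLinearMap (Matrix.toLin' (JT a p w))) w := by
  rw [hasFDerivAt_pi']
  intro i
  have hn : (0 : ℝ) < n := by
    have : 0 < n := Fin.pos i
    exact_mod_cast this
  have hzpos : ∀ k, 0 < zs a w k := by
    intro k
    unfold zs
    have hex : ∃ j, 0 < a k j := by
      by_contra hcon
      push Not at hcon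
      have : ∑ j, a k j ≤ 0 := Finset.sum_nonpos fun j _ => hcon j
      rw [hs k] at this
      linarith
    obtain ⟨j, hj⟩ := hex
    have hwj : 0 < w j ^ 2 := by
      have := hw j
      positivity
    exact Finset.sum_pos' (fun l _ => mul_nonneg (ha k l) (sq_nonneg _))
      ⟨j, Finset.mem_univ _, mul_pos hj hwj⟩
  have hS : 0 < ∑ j, w j ^ 2 :=
    Finset.sum_pos' (fun l _ => sq_nonneg _) ⟨i, Finset.mem_univ _, by
      have := hw i
      positivity⟩
  have hG : 0 < th_deriv_G a p w i := by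
    unfold th_deriv_G
    have hex : ∃ k, 0 < p k * a k i := by
      by_contra hcon
      push Not at hcon
      have : bv a p i ≤ 0 := Finset.sum_nonpos fun k _ => hcon k
      have := hb i
      linarith
    obtain ⟨k, hk⟩ := hex
    exact Finset.sum_pos' (fun l _ => div_nonneg (mul_nonneg (hp l) (ha l i)) (hzpos l).le)
      ⟨k, Finset.mem_univ _, div_pos hk (hzpos k)⟩
  have hg : gf a p w i / bv a p i ≠ 0 := by
    have h1 : gf a p w i = (∑ j, w j ^ 2) * th_deriv_G a p w i := rfl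
    have := hb i
    rw [h1]
    positivity
  refine (th_deriv_hTh a p w i (fun k => (hzpos k).ne') hg).congr_fderiv ?_
  ext1 v
  have h1 := th_deriv_alg a p w v i hw hS hG (hb i)
  have h2 : ((ContinuousLinearMap.proj (R := ℝ) (φ := fun _ : Fin n => ℝ) i).comp
      (LinearMap.toContinuousLinearMap (Matrix.toLin' (JT a p w)))) v
      = ∑ j, JT a p w i j * v j := by
    rfl
  refine Eq.trans ?_ (h1.trans h2.symm)
  simp only [ContinuousLinearMap.add_apply, ContinuousLinearMap.smul_apply,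
    ContinuousLinearMap.sum_apply, ContinuousLinearMap.proj_apply, th_deriv_Z_apply, smul_eq_mul]

end Pool.Agent.H494.Kac
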