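import Pool.Agent.H494.Kac.Defs2

open MeasureTheory Filter Topology
open scoped ENNReal

namespace Pool.Agent.H494.Kac
theorem th_inj_zs {n : ℕ} (a : Fin n → Fin n → ℝ) (ha : ∀ k i, 0 ≤ a k i)
    (hs : ∀ k, ∑ i, a k i = n) (w : Fin n → ℝ) (hw : ∀ i, w i ≠ 0) (k : Fin n) :
    0 < zs a w k := by
  have hn : (0 : ℝ) < n := by exact_mod_cast k.pos
  unfold zs
  refine Finset.sum_pos' (fun j _ => mul_nonneg (ha k j) (sq_nonneg _)) ?_
  by_contra hcon
  push Not at hcon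
  have h0 : ∑ i, a k i = 0 := Finset.sum_eq_zero fun i hi => by
    have h1 := hcon i hi
    have h2 : 0 < w i ^ 2 := by
      have := hw i
      positivity
    have h3 := ha k i
    by_contra h4
    have h5 : 0 < a k i := lt_of_le_of_ne h3 (Ne.symm h4)
    have h6 := mul_pos h5 h2
    linarith
  rw [hs k] at h0
  linarith

theorem th_inj_sum {n : ℕ} (a : Fin n → Fin n → ℝ) (p : Fin n → ℝ) (ha : ∀ k i, 0 ≤ a k i)
    (hs : ∀ k, ∑ i, a k i = n) (hp1 : ∑ k, p k = 1)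
    (w : Fin n → ℝ) (hw : ∀ i, w i ≠ 0) : ∑ i, w i ^ 2 * gf a p w i = ∑ j, w j ^ 2 := by
  have h1 : ∀ i, w i ^ 2 * gf a p w i =
      (∑ j, w j ^ 2) * ∑ k, p k / zs a w k * (a k i * w i ^ 2) := by
    intro i
    unfold gf
    rw [mul_left_comm, Finset.mul_sum]
    congr 1
    refine Finset.sum_congr rfl fun k _ => ?_
    ring
  rw [Finset.sum_congr rfl fun i _ => h1 i, ← Finset.mul_sum, Finset.sum_comm]
  have h2 : ∀ k, ∑ i, p k / zs a w k * (a k i * w i ^ 2) = p k := by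
    intro k
    rw [← Finset.mul_sum]
    have h3 : ∑ i, a k i * w i ^ 2 = zs a w k := rfl
    rw [h3, div_mul_cancel₀ _ (th_inj_zs a ha hs w hw k).ne']
  rw [Finset.sum_congr rfl fun k _ => h2 k, hp1, mul_one]

theorem th_inj (n : ℕ) (a : Fin n → Fin n → ℝ) (p : Fin n → ℝ) (ha : ∀ k i, 0 ≤ a k i)
    (hs : ∀ k, ∑ i, a k i = n) (hp : ∀ k, 0 ≤ p k) (hp1 : ∑ k, p k = 1) (k₀ : Fin n)
    (hk₀ : 0 < p k₀) (hpos : ∀ i, 0 < a k₀ i) :
    Set.InjOn (Th a p) {w | ∀ i, w i ≠ 0} := by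
  intro w hw w' hw' heq
  have hw : ∀ i, w i ≠ 0 := hw
  have hw' : ∀ i, w' i ≠ 0 := hw'
  have hy : ∀ i, 0 < w i ^ 2 := fun i => by have := hw i; positivity
  have hy' : ∀ i, 0 < w' i ^ 2 := fun i => by have := hw' i; positivity
  have hz := th_inj_zs a ha hs w hw
  have hz' := th_inj_zs a ha hs w' hw'
  have hN : 0 < ∑ j, w j ^ 2 := Finset.sum_pos (fun j _ => hy j) ⟨k₀, Finset.mem_univ _⟩
  have hN' : 0 < ∑ j, w' j ^ 2 := Finset.sum_pos (fun j _ => hy' j) ⟨k₀, Finset.mem_univ _⟩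
  have hb : ∀ i, 0 < bv a p i := by
    intro i
    unfold bv
    exact Finset.sum_pos' (fun k _ => mul_nonneg (hp k) (ha k i))
      ⟨k₀, Finset.mem_univ _, mul_pos hk₀ (hpos i)⟩
  have hgg : ∀ v : Fin n → ℝ, (∀ k, 0 < zs a v k) → (0 < ∑ j, v j ^ 2) → ∀ i, 0 < gf a p v i := by
    intro v hv hv2 i
    unfold gf
    refine mul_pos hv2 (Finset.sum_pos' (fun k _ => div_nonneg (mul_nonneg (hp k) (ha k i))
      (hv k).le) ⟨k₀, Finset.mem_univ _, div_pos (mul_pos hk₀ (hpos i)) (hv k₀)⟩)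
  have hg := hgg w hz hN
  have hg' := hgg w' hz' hN'
  have heq1 : ∀ i, w i * √(gf a p w i / bv a p i) = w' i * √(gf a p w' i / bv a p i) :=
    fun i => congrFun heq i
  have hsq : ∀ i, w i ^ 2 * gf a p w i = w' i ^ 2 * gf a p w' i := by
    intro i
    have h1 := congrArg (fun x => x ^ 2) (heq1 i)
    simp only [mul_pow] at h1
    rw [Real.sq_sqrt (div_pos (hg i) (hb i)).le, Real.sq_sqrt (div_pos (hg' i) (hb i)).le,
      ← mul_div_assoc, ← mul_div_assoc, div_left_inj' (hb i).ne'] at h1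
    exact h1
  have hsum : ∑ j, w j ^ 2 = ∑ j, w' j ^ 2 := by
    rw [← th_inj_sum a p ha hs hp1 w hw, ← th_inj_sum a p ha hs hp1 w' hw']
    exact Finset.sum_congr rfl fun i _ => hsq i
  have hsq2 : ∀ i, w i ^ 2 * ∑ k, p k * a k i / zs a w k =
      w' i ^ 2 * ∑ k, p k * a k i / zs a w' k := by
    intro i
    have h1 := hsq i
    unfold gf at h1
    rw [← hsum, mul_left_comm, mul_left_comm (w' i ^ 2)] at h1
    exact mul_left_cancel₀ hN.ne' h1
  obtain ⟨i1, -, hi1⟩ := Finset.exists_max_image Finset.univ (fun i => w' i ^ 2 / w i ^ 2)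
    ⟨k₀, Finset.mem_univ _⟩
  obtain ⟨ρ, hρ⟩ : ∃ ρ, ρ = w' i1 ^ 2 / w i1 ^ 2 := ⟨_, rfl⟩
  have hρ0 : 0 < ρ := by rw [hρ]; exact div_pos (hy' i1) (hy i1)
  have hle : ∀ j, w' j ^ 2 ≤ ρ * w j ^ 2 := by
    intro j
    have h1 := hi1 j (Finset.mem_univ _)
    rw [← hρ, div_le_iff₀ (hy j)] at h1
    exact h1
  have heq2 : w' i1 ^ 2 = ρ * w i1 ^ 2 := by rw [hρ, div_mul_cancel₀ _ (hy i1).ne']
  have hSle : ∀ k, zs a w' k ≤ ρ * zs a w k := by
    intro k
    unfold zs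
    rw [Finset.mul_sum]
    refine Finset.sum_le_sum fun j _ => ?_
    calc a k j * w' j ^ 2 ≤ a k j * (ρ * w j ^ 2) := mul_le_mul_of_nonneg_left (hle j) (ha k j)
      _ = ρ * (a k j * w j ^ 2) := by ring
  have h1 : ∑ k, p k * a k i1 / zs a w k = ∑ k, ρ * (p k * a k i1 / zs a w' k) := by
    have h2 := hsq2 i1
    rw [heq2, ← Finset.mul_sum] at *
    have h3 : w i1 ^ 2 * ∑ k, p k * a k i1 / zs a w k =
        w i1 ^ 2 * (ρ * ∑ k, p k * a k i1 / zs a w' k) := by rw [h2]; ring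
    exact mul_left_cancel₀ (hy i1).ne' h3
  have hterm : ∀ k ∈ Finset.univ, p k * a k i1 / zs a w k ≤ ρ * (p k * a k i1 / zs a w' k) := by
    intro k _
    rw [← mul_div_assoc, div_le_div_iff₀ (hz k) (hz' k)]
    calc p k * a k i1 * zs a w' k ≤ p k * a k i1 * (ρ * zs a w k) :=
          mul_le_mul_of_nonneg_left (hSle k) (mul_nonneg (hp k) (ha k i1))
      _ = ρ * (p k * a k i1) * zs a w k := by ring
  have hk := (Finset.sum_eq_sum_iff_of_le hterm).1 h1 k₀ (Finset.mem_univ _)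
  have hS0 : zs a w' k₀ = ρ * zs a w k₀ := by
    rw [← mul_div_assoc, div_eq_div_iff (hz k₀).ne' (hz' k₀).ne'] at hk
    have h2 : 0 < p k₀ * a k₀ i1 := mul_pos hk₀ (hpos i1)
    have h3 : p k₀ * a k₀ i1 * zs a w' k₀ = p k₀ * a k₀ i1 * (ρ * zs a w k₀) := by
      rw [hk]; ring
    exact mul_left_cancel₀ h2.ne' h3
  have hall : ∀ j, w' j ^ 2 = ρ * w j ^ 2 := by
    intro j
    unfold zs at hS0
    rw [Finset.mul_sum] at hS0
    have h2 : ∀ j ∈ Finset.univ, a k₀ j * w' j ^ 2 ≤ ρ * (a k₀ j * w j ^ 2) := by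
      intro j _
      calc a k₀ j * w' j ^ 2 ≤ a k₀ j * (ρ * w j ^ 2) :=
            mul_le_mul_of_nonneg_left (hle j) (ha k₀ j)
        _ = ρ * (a k₀ j * w j ^ 2) := by ring
    have h3 := (Finset.sum_eq_sum_iff_of_le h2).1 hS0 j (Finset.mem_univ _)
    have h4 : a k₀ j * w' j ^ 2 = a k₀ j * (ρ * w j ^ 2) := by rw [h3]; ring
    exact mul_left_cancel₀ (hpos j).ne' h4
  have hρ1 : ρ = 1 := by
    have h2 : ∑ j, w' j ^ 2 = ρ * ∑ j, w j ^ 2 := by
      rw [Finset.mul_sum]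
      exact Finset.sum_congr rfl fun j _ => hall j
    rw [← hsum] at h2
    have h3 : (ρ - 1) * ∑ j, w j ^ 2 = 0 := by linarith
    rcases mul_eq_zero.1 h3 with h4 | h4
    · linarith
    · exact absurd h4 hN.ne'
  funext i
  have h2 := hall i
  rw [hρ1, one_mul] at h2
  rcases sq_eq_sq_iff_eq_or_eq_neg.1 h2 with h3 | h3
  · exact h3.symm
  · exfalso
    have h4 := heq1 i
    rw [h3, neg_mul] at h4
    have hs1 : 0 < √(gf a p w i / bv a p i) := Real.sqrt_pos.2 (div_pos (hg i) (hb i))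
    have hs2 : 0 < √(gf a p w' i / bv a p i) := Real.sqrt_pos.2 (div_pos (hg' i) (hb i))
    have h5 : w i * (√(gf a p w i / bv a p i) + √(gf a p w' i / bv a p i)) = 0 := by linarith
    rcases mul_eq_zero.1 h5 with h6 | h6
    · exact hw i h6
    · linarith

end Pool.Agent.H494.Kac
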