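import Pool.Agent.H494.Kac.Defs2

open MeasureTheory Filter Topology
open scoped ENNReal

namespace Pool.Agent.H494.Kac
theorem tr_l2_colm {n : ℕ} (k i : Fin n) :
    Measurable (fun M : Fin n → Fin n → ℝ => col M k i) := by
  unfold col
  fun_prop

theorem tr_l2_meas {n : ℕ} (k : Fin n) :
    Measurable (fun M : Fin n → Fin n → ℝ => trc M k) := by
  apply measurable_pi_lambda
  intro i
  unfold trc
  refine Measurable.ite ?_ ((tr_l2_colm k i).sub_const 1) measurable_const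
  have s1 : MeasurableSet {M : Fin n → Fin n → ℝ | |col M k i - 1| ≤ 1 / 30} :=
    measurableSet_le (((tr_l2_colm k i).sub_const 1).abs) measurable_const
  have s2 : MeasurableSet {M : Fin n → Fin n → ℝ |
      ∑ j, (col M k j - 1) ^ 2 ≤ (n : ℝ) ^ (2 / 5 : ℝ)} :=
    measurableSet_le (Finset.measurable_sum _
      (fun j _ => ((tr_l2_colm k j).sub_const 1).pow_const 2)) measurable_const
  exact s1.inter s2

theorem tr_l2_abs {n : ℕ} (M : Fin n → Fin n → ℝ) (k i : Fin n) :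
    |trc M k i| ≤ 1 / 30 ∧ |trc M k i| ≤ |col M k i - 1| := by
  unfold trc
  split_ifs with h
  · exact ⟨h.1, le_rfl⟩
  · simp

theorem tr_l2_sq {n : ℕ} (M : Fin n → Fin n → ℝ) (k : Fin n) :
    ∑ i, trc M k i ^ 2 ≤ (n : ℝ) ^ (2 / 5 : ℝ) := by
  by_cases hS : ∑ j, (col M k j - 1) ^ 2 ≤ (n : ℝ) ^ (2 / 5 : ℝ)
  · refine le_trans (Finset.sum_le_sum fun i _ => ?_) hS
    have h1 := (tr_l2_abs M k i).2
    rw [← sq_abs, ← sq_abs (col M k i - 1)]
    exact pow_le_pow_left₀ (abs_nonneg _) h1 2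
  · have h1 : ∀ i, trc M k i = 0 := by
      intro i
      unfold trc
      rw [if_neg (fun h => hS h.2)]
    simp only [h1]
    simp
    positivity

theorem tr_l2_sum {n : ℕ} (M : Fin n → Fin n → ℝ) (k : Fin n) (hM : 0 < ∑ i, M i k) :
    |∑ i, trc M k i| ≤ 30 * (n : ℝ) ^ (2 / 5 : ℝ) := by
  by_cases hS : ∑ j, (col M k j - 1) ^ 2 ≤ (n : ℝ) ^ (2 / 5 : ℝ)
  · have hsum : ∑ i, (col M k i - 1) = 0 := by
      rw [Finset.sum_sub_distrib]
      have h1 : ∑ i, col M k i = n := by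
        unfold col
        rw [← Finset.sum_div, ← Finset.mul_sum, mul_div_assoc, div_self hM.ne', mul_one]
      rw [h1]
      simp
    have h2 : ∑ i, trc M k i = - ∑ i, (col M k i - 1 - trc M k i) := by
      rw [Finset.sum_sub_distrib, hsum]
      ring
    rw [h2, abs_neg]
    calc |∑ i, (col M k i - 1 - trc M k i)| ≤ ∑ i, |col M k i - 1 - trc M k i| :=
          Finset.abs_sum_le_sum_abs _ _
      _ ≤ ∑ i, 30 * (col M k i - 1) ^ 2 := by
          apply Finset.sum_le_sum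
          intro i _
          by_cases h3 : |col M k i - 1| ≤ 1 / 30
          · have h4 : trc M k i = col M k i - 1 := by
              unfold trc
              rw [if_pos ⟨h3, hS⟩]
            rw [h4]
            simp
            positivity
          · have h4 : trc M k i = 0 := by
              unfold trc
              rw [if_neg (fun h => h3 h.1)]
            rw [h4, sub_zero, ← sq_abs (col M k i - 1)]
            push Not at h3
            nlinarith [abs_nonneg (col M k i - 1)]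
      _ = 30 * ∑ i, (col M k i - 1) ^ 2 := by rw [Finset.mul_sum]
      _ ≤ 30 * (n : ℝ) ^ (2 / 5 : ℝ) := by linarith
  · have h1 : ∀ i, trc M k i = 0 := by
      intro i
      unfold trc
      rw [if_neg (fun h => hS h.2)]
    simp only [h1]
    simp
    positivity

theorem tr_l2_col_perm {n : ℕ} (M : Fin n → Fin n → ℝ) (k : Fin n) (σ : Equiv.Perm (Fin n))
    (hσ : σ k = k) (i : Fin n) : col (fun i l => M (σ i) (σ l)) k i = col M k (σ i) := by
  change (n : ℝ) * M (σ i) (σ k) / ∑ j, M (σ j) (σ k) = n * M (σ i) k / ∑ j, M j k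
  rw [hσ, Equiv.sum_comp σ (fun j => M j k)]

theorem tr_l2_perm {n : ℕ} (M : Fin n → Fin n → ℝ) (k : Fin n) (σ : Equiv.Perm (Fin n))
    (hσ : σ k = k) (i : Fin n) : trc (fun i l => M (σ i) (σ l)) k i = trc M k (σ i) := by
  unfold trc
  simp only [tr_l2_col_perm M k σ hσ]
  rw [Equiv.sum_comp σ (fun j => (col M k j - 1) ^ 2)]

theorem tr_l2_pt (q θ x : ℝ) (hq : 2 ≤ q) (hθ : 0 < θ) (hx : 0 ≤ x) :
    x ≤ θ + θ ^ (1 - q) * x ^ q := by
  by_cases h : x ≤ θ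
  · have : 0 ≤ θ ^ (1 - q) * x ^ q := mul_nonneg (Real.rpow_nonneg hθ.le _) (Real.rpow_nonneg hx _)
    linarith
  · push Not at h
    have hx0 : 0 < x := hθ.trans h
    have h1 : x ^ (1 - q) ≤ θ ^ (1 - q) :=
      Real.rpow_le_rpow_of_nonpos hθ h.le (by linarith)
    have h2 : x = x ^ (1 - q) * x ^ q := by
      rw [← Real.rpow_add hx0]
      simp
    calc x = x ^ (1 - q) * x ^ q := h2
      _ ≤ θ ^ (1 - q) * x ^ q := mul_le_mul_of_nonneg_right h1 (Real.rpow_nonneg hx _)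
      _ ≤ θ + θ ^ (1 - q) * x ^ q := by linarith

theorem tr_l2 (m : ℕ) (hm : 1 ≤ m) (μ : Measure (Fin (m + 1) → Fin (m + 1) → ℝ))
    [IsProbabilityMeasure μ]
    (hgood : ∀ᵐ M ∂μ, (∀ i k, 0 ≤ M i k) ∧ ∀ k, 0 < ∑ i, M i k)
    (hperm : ∀ (σ : Equiv.Perm (Fin (m + 1))) (f : (Fin (m + 1) → Fin (m + 1) → ℝ) → ℝ≥0∞),
      Measurable f → ∫⁻ M, f (fun i k => M (σ i) (σ k)) ∂μ = ∫⁻ M, f M ∂μ)
    (hcol : ∀ (k : Fin (m + 1)) (Q : Measure (Fin (m + 1) → ℝ)), IsProbabilityMeasure Q →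
      (∀ᵐ η ∂Q, ∀ i, |η i| ≤ 1 / 30) → ∀ (A Y B : ℝ), 0 ≤ B →
      (∀ᵐ η ∂Q, |∑ i : Fin m, η (k.succAbove i)| ≤ A) → (∀ᵐ η ∂Q, ∑ i, η i ^ 2 ≤ Y) →
      (∀ σ : Equiv.Perm (Fin (m + 1)), σ k = k →
        ∀ f : (Fin (m + 1) → ℝ) → ℝ≥0∞, Measurable f → ∫⁻ η, f (η ∘ σ) ∂Q = ∫⁻ η, f η ∂Q) →
      (∫⁻ η, ENNReal.ofReal |η k| ∂Q ≤ ENNReal.ofReal B) →
      ∫⁻ η, ∫⁻ ξ, ENNReal.ofReal (∏ i, (1 - η i * ξ i) ^ (-(1 / 2) : ℝ)) ∂Q ∂Q ≤
      ENNReal.ofReal ((1 + B ^ 2) * Real.exp ((A ^ 2 + 400 * Y ^ 2) / m)))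
    (q : ℝ) (hq : 2 ≤ q) (hq3 : q ≤ 3) (θ : ℝ) (hθ : 0 < θ) (hθ1 : θ ≤ 1) (k : Fin (m + 1))
    (hU : ∫⁻ M, ENNReal.ofReal (∑ i, |col M k i - 1| ^ q) ∂μ ≤ ENNReal.ofReal (θ ^ 3)) :
    ∫⁻ M, ∫⁻ M', ENNReal.ofReal (∏ i, (1 - trc M k i * trc M' k i) ^ (-(1 / 2) : ℝ)) ∂μ ∂μ ≤
      ENNReal.ofReal ((1 + (2 * θ) ^ 2) *
        Real.exp (1361 * ((m : ℝ) + 1) ^ (4 / 5 : ℝ) / m)) := by
  have hmeas : Measurable (fun M : Fin (m + 1) → Fin (m + 1) → ℝ => trc M k) := tr_l2_meas k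
  have hn1 : (1 : ℝ) ≤ ((m : ℝ) + 1) ^ (2 / 5 : ℝ) := by
    apply Real.one_le_rpow _ (by norm_num)
    have : (0:ℝ) ≤ m := Nat.cast_nonneg _
    linarith
  have hcast : ((m + 1 : ℕ) : ℝ) = (m : ℝ) + 1 := by push_cast; ring
  have hQ : IsProbabilityMeasure (μ.map (fun M => trc M k)) :=
    Measure.isProbabilityMeasure_map hmeas.aemeasurable
  have h1 : ∀ᵐ η ∂(μ.map (fun M => trc M k)), ∀ i, |η i| ≤ 1 / 30 := by
    rw [ae_map_iff hmeas.aemeasurable]
    · exact Eventually.of_forall (fun M i => (tr_l2_abs M k i).1)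
    · have : {η : Fin (m + 1) → ℝ | ∀ i, |η i| ≤ 1 / 30} = ⋂ i, {η | |η i| ≤ 1 / 30} := by
        ext; simp
      rw [this]
      exact MeasurableSet.iInter (fun i => measurableSet_le (by fun_prop) measurable_const)
  have h2 : ∀ᵐ η ∂(μ.map (fun M => trc M k)),
      |∑ i : Fin m, η (k.succAbove i)| ≤ 31 * ((m : ℝ) + 1) ^ (2 / 5 : ℝ) := by
    rw [ae_map_iff hmeas.aemeasurable]
    · filter_upwards [hgood] with M hM
      have h3 := tr_l2_sum M k (hM.2 k)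
      rw [hcast] at h3
      rw [Fin.sum_univ_succAbove _ k] at h3
      have h4 := (tr_l2_abs M k k).1
      have h5 : ∑ i : Fin m, trc M k (k.succAbove i) =
          (trc M k k + ∑ i : Fin m, trc M k (k.succAbove i)) - trc M k k := by ring
      rw [h5]
      refine (abs_sub _ _).trans ?_
      linarith
    · exact measurableSet_le (by fun_prop) measurable_const
  have h3 : ∀ᵐ η ∂(μ.map (fun M => trc M k)),
      ∑ i, η i ^ 2 ≤ ((m : ℝ) + 1) ^ (2 / 5 : ℝ) := by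
    rw [ae_map_iff hmeas.aemeasurable]
    · refine Eventually.of_forall (fun M => ?_)
      have h4 := tr_l2_sq M k
      rwa [hcast] at h4
    · exact measurableSet_le (by fun_prop) measurable_const
  have h4 : ∀ σ : Equiv.Perm (Fin (m + 1)), σ k = k →
        ∀ f : (Fin (m + 1) → ℝ) → ℝ≥0∞, Measurable f →
        ∫⁻ η, f (η ∘ σ) ∂(μ.map (fun M => trc M k)) = ∫⁻ η, f η ∂(μ.map (fun M => trc M k)) := by
    intro σ hσ f hf
    have hc : Measurable (fun η : Fin (m + 1) → ℝ => η ∘ σ) :=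
      measurable_pi_lambda _ (fun i => measurable_pi_apply (σ i))
    have e1 : ∫⁻ η, f (η ∘ σ) ∂(μ.map (fun M => trc M k)) = ∫⁻ M, f (trc M k ∘ σ) ∂μ :=
      lintegral_map (hf.comp hc) hmeas
    rw [e1, lintegral_map hf hmeas]
    rw [← hperm σ (fun M => f (trc M k)) (hf.comp hmeas)]
    congr 1
    funext M
    congr 1
    funext i
    exact (tr_l2_perm M k σ hσ i).symm
  have h5 : ∫⁻ η, ENNReal.ofReal |η k| ∂(μ.map (fun M => trc M k)) ≤ ENNReal.ofReal (2 * θ) := by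
    rw [lintegral_map (by fun_prop) hmeas]
    have h6 : ∀ M : Fin (m + 1) → Fin (m + 1) → ℝ, ENNReal.ofReal |trc M k k| ≤
        ENNReal.ofReal θ + ENNReal.ofReal (θ ^ (1 - q)) *
          ENNReal.ofReal (∑ i, |col M k i - 1| ^ q) := by
      intro M
      rw [← ENNReal.ofReal_mul (Real.rpow_nonneg hθ.le _), ← ENNReal.ofReal_add hθ.le
        (mul_nonneg (Real.rpow_nonneg hθ.le _)
          (Finset.sum_nonneg fun i _ => Real.rpow_nonneg (abs_nonneg _) _))]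
      apply ENNReal.ofReal_le_ofReal
      have h7 := tr_l2_pt q θ |col M k k - 1| hq hθ (abs_nonneg _)
      have h8 : |col M k k - 1| ^ q ≤ ∑ i, |col M k i - 1| ^ q :=
        Finset.single_le_sum (f := fun i => |col M k i - 1| ^ q)
          (fun i _ => Real.rpow_nonneg (abs_nonneg _) _) (Finset.mem_univ k)
      have h9 := mul_le_mul_of_nonneg_left h8 (Real.rpow_nonneg hθ.le (1 - q))
      have h10 := (tr_l2_abs M k k).2
      linarith
    calc ∫⁻ M, ENNReal.ofReal |trc M k k| ∂μ ≤ ∫⁻ M, (ENNReal.ofReal θ +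
          ENNReal.ofReal (θ ^ (1 - q)) * ENNReal.ofReal (∑ i, |col M k i - 1| ^ q)) ∂μ :=
          lintegral_mono h6
      _ = ENNReal.ofReal θ + ENNReal.ofReal (θ ^ (1 - q)) *
          ∫⁻ M, ENNReal.ofReal (∑ i, |col M k i - 1| ^ q) ∂μ := by
          rw [lintegral_add_left measurable_const, lintegral_const, measure_univ, mul_one,
            lintegral_const_mul']
          exact ENNReal.ofReal_ne_top
      _ ≤ ENNReal.ofReal θ + ENNReal.ofReal (θ ^ (1 - q)) * ENNReal.ofReal (θ ^ 3) := by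
          gcongr
      _ = ENNReal.ofReal (θ + θ ^ (1 - q) * θ ^ 3) := by
          rw [← ENNReal.ofReal_mul (Real.rpow_nonneg hθ.le _), ← ENNReal.ofReal_add hθ.le
            (mul_nonneg (Real.rpow_nonneg hθ.le _) (by positivity))]
      _ ≤ ENNReal.ofReal (2 * θ) := by
          apply ENNReal.ofReal_le_ofReal
          have h7 : θ ^ (1 - q) * θ ^ 3 = θ ^ (4 - q) := by
            rw [← Real.rpow_natCast θ 3, ← Real.rpow_add hθ]
            congr 1
            push_cast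
            ring
          have h8 : θ ^ (4 - q) ≤ θ ^ (1 : ℝ) :=
            Real.rpow_le_rpow_of_exponent_ge hθ hθ1 (by linarith)
          rw [Real.rpow_one] at h8
          rw [h7]
          linarith
  have h6 := hcol k (μ.map (fun M => trc M k)) hQ h1 (31 * ((m : ℝ) + 1) ^ (2 / 5 : ℝ))
    (((m : ℝ) + 1) ^ (2 / 5 : ℝ)) (2 * θ) (by positivity) h2 h3 h4 h5
  have hG : Measurable (fun p : (Fin (m + 1) → ℝ) × (Fin (m + 1) → ℝ) =>
      ENNReal.ofReal (∏ i, (1 - p.1 i * p.2 i) ^ (-(1 / 2) : ℝ))) := by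
    apply Measurable.ennreal_ofReal
    apply Finset.measurable_prod
    intro i _
    apply Measurable.pow_const
    fun_prop
  have h7 : ∫⁻ η, ∫⁻ ξ, ENNReal.ofReal (∏ i, (1 - η i * ξ i) ^ (-(1 / 2) : ℝ))
        ∂(μ.map (fun M => trc M k)) ∂(μ.map (fun M => trc M k)) =
      ∫⁻ M, ∫⁻ M', ENNReal.ofReal (∏ i, (1 - trc M k i * trc M' k i) ^ (-(1 / 2) : ℝ)) ∂μ ∂μ := by
    have e1 : ∀ η : Fin (m + 1) → ℝ, ∫⁻ ξ, ENNReal.ofReal (∏ i, (1 - η i * ξ i) ^ (-(1 / 2) : ℝ))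
        ∂(μ.map (fun M => trc M k)) =
        ∫⁻ M', ENNReal.ofReal (∏ i, (1 - η i * trc M' k i) ^ (-(1 / 2) : ℝ)) ∂μ := by
      intro η
      have hGη : Measurable (fun ξ : Fin (m + 1) → ℝ =>
          ENNReal.ofReal (∏ i, (1 - η i * ξ i) ^ (-(1 / 2) : ℝ))) := by
        apply Measurable.ennreal_ofReal
        apply Finset.measurable_prod
        intro i _
        apply Measurable.pow_const
        fun_prop
      exact lintegral_map hGη hmeas
    have e2 : ∫⁻ η, ∫⁻ ξ, ENNReal.ofReal (∏ i, (1 - η i * ξ i) ^ (-(1 / 2) : ℝ))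
        ∂(μ.map (fun M => trc M k)) ∂(μ.map (fun M => trc M k)) =
        ∫⁻ M, ∫⁻ ξ, ENNReal.ofReal (∏ i, (1 - trc M k i * ξ i) ^ (-(1 / 2) : ℝ))
        ∂(μ.map (fun M => trc M k)) ∂μ := lintegral_map hG.lintegral_prod_right' hmeas
    rw [e2]
    exact lintegral_congr (fun M => e1 _)
  rw [h7] at h6
  refine h6.trans (le_of_eq ?_)
  congr 3
  have h8 : (31 * ((m : ℝ) + 1) ^ (2 / 5 : ℝ)) ^ 2 + 400 * (((m : ℝ) + 1) ^ (2 / 5 : ℝ)) ^ 2 =
      1361 * ((m : ℝ) + 1) ^ (4 / 5 : ℝ) := by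
    have h9 : (((m : ℝ) + 1) ^ (2 / 5 : ℝ)) ^ 2 = ((m : ℝ) + 1) ^ (4 / 5 : ℝ) := by
      rw [← Real.rpow_natCast, ← Real.rpow_mul (by positivity)]
      norm_num
    rw [mul_pow, h9]
    ring
  rw [h8]

end Pool.Agent.H494.Kac
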