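import Pool.Agent.H494.Kac.Defs2

open MeasureTheory Filter Topology
open scoped ENNReal

namespace Pool.Agent.H494.Kac
theorem gd_meas_25985 : Measurable (fun z : ℝ × ℝ => gd z.1 z.2) := by
  unfold gd
  fun_prop

theorem gamp_25985 (n : ℕ) : IsProbabilityMeasure (gam n) := by
  unfold gam
  infer_instance

/-- the Cauchy-Schwarz step -/
theorem cs_25985 {X : Type} [MeasurableSpace X] (γ : Measure X) [IsProbabilityMeasure γ]
    (f g : X → ℝ) (hf : Measurable f) (hf0 : ∀ v, 0 ≤ f v) (hf1 : ∀ v, f v ≤ 1)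
    (hg : Integrable g γ) (hg2 : Integrable (fun w => g w ^ 2) γ) (h1 : ∫ w, g w ∂γ = 1)
    (χ : ℝ) (h2 : ∫ w, g w ^ 2 ∂γ ≤ 1 + χ) :
    |∫ w, f w * g w ∂γ - ∫ w, f w ∂γ| ≤ √χ := by
  have hfi : Integrable f γ := by
    refine Integrable.of_bound hf.aestronglyMeasurable 1 (ae_of_all _ fun v => ?_)
    rw [Real.norm_of_nonneg (hf0 v)]
    exact hf1 v
  have hfg : Integrable (fun w => f w * g w) γ := by
    refine Integrable.mono' hg.norm (hf.aestronglyMeasurable.mul hg.aestronglyMeasurable)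
      (ae_of_all _ fun v => ?_)
    rw [norm_mul, Real.norm_of_nonneg (hf0 v)]
    exact mul_le_of_le_one_left (norm_nonneg _) (hf1 v)
  have hd : Integrable (fun w => g w - 1) γ := hg.sub (integrable_const 1)
  have hda : Integrable (fun w => |g w - 1|) γ := hd.abs
  have hd2 : Integrable (fun w => (g w - 1) ^ 2) γ := by
    have h3 : (fun w => (g w - 1) ^ 2) = fun w => g w ^ 2 - 2 * g w + 1 := by
      funext w
      ring
    rw [h3]
    exact (hg2.sub (hg.const_mul 2)).add (integrable_const 1)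
  have hI2 : ∫ w, (g w - 1) ^ 2 ∂γ ≤ χ := by
    have h3 : (fun w => (g w - 1) ^ 2) = fun w => (g w ^ 2 - 2 * g w) + 1 := by
      funext w
      ring
    have i1 : Integrable (fun w => g w ^ 2 - 2 * g w) γ := hg2.sub (hg.const_mul 2)
    have i2 : Integrable (fun w => 2 * g w) γ := hg.const_mul 2
    rw [h3, integral_add i1 (integrable_const 1),
      integral_sub hg2 i2, integral_const_mul, h1, integral_const]
    simp only [probReal_univ, smul_eq_mul]
    linarith
  have hA : ∀ A : ℝ, A = ∫ w, |g w - 1| ∂γ → A ^ 2 ≤ χ := by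
    intro A hA
    have h4 : 0 ≤ ∫ w, (|g w - 1| - A) ^ 2 ∂γ := integral_nonneg fun w => sq_nonneg _
    have h5 : (fun w => (|g w - 1| - A) ^ 2) =
        fun w => ((g w - 1) ^ 2 - (2 * A) * |g w - 1|) + A ^ 2 := by
      funext w
      rw [sub_sq, sq_abs]
      ring
    have i2 : Integrable (fun w => (2 * A) * |g w - 1|) γ := hda.const_mul _
    have i1 : Integrable (fun w => (g w - 1) ^ 2 - (2 * A) * |g w - 1|) γ := hd2.sub i2
    rw [h5, integral_add i1 (integrable_const _),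
      integral_sub hd2 i2, integral_const_mul, ← hA, integral_const] at h4
    simp only [probReal_univ, smul_eq_mul] at h4
    nlinarith
  have h6 : ∫ w, f w * g w ∂γ - ∫ w, f w ∂γ = ∫ w, f w * (g w - 1) ∂γ := by
    rw [← integral_sub hfg hfi]
    congr 1
    funext w
    ring
  have h7 : |∫ w, f w * (g w - 1) ∂γ| ≤ ∫ w, |g w - 1| ∂γ := by
    refine (abs_integral_le_integral_abs).trans ?_
    refine integral_mono_of_nonneg (ae_of_all _ fun w => abs_nonneg _) hda
      (ae_of_all _ fun w => ?_)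
    show |f w * (g w - 1)| ≤ |g w - 1|
    rw [abs_mul, abs_of_nonneg (hf0 w)]
    exact mul_le_of_le_one_left (abs_nonneg _) (hf1 w)
  rw [h6]
  refine h7.trans (Real.le_sqrt_of_sq_le (hA _ rfl))

theorem tv_chi (n : ℕ) {Ω : Type} [MeasurableSpace Ω] (μ : Measure Ω) [IsProbabilityMeasure μ]
    (η : Ω → Fin n → ℝ) (hη : Measurable η) (hb : ∀ ω i, |η ω i| ≤ 1 / 2)
    (h1 : ∀ η ξ : Fin n → ℝ, (∀ i, |η i| ≤ 1 / 2) → (∀ i, |ξ i| ≤ 1 / 2) →
      (∀ f : (Fin n → ℝ) → ℝ≥0∞, Measurable f →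
        ∫⁻ w, f (fun i => w i * √(1 + η i)) ∂(gam n) =
          ∫⁻ w, f w * ENNReal.ofReal (∏ i, gd (η i) (w i)) ∂(gam n)) ∧
      ∫⁻ w, ENNReal.ofReal (∏ i, gd (η i) (w i)) * ENNReal.ofReal (∏ i, gd (ξ i) (w i)) ∂(gam n) =
        ENNReal.ofReal (∏ i, (1 - η i * ξ i) ^ (-(1 / 2) : ℝ)))
    (f : (Fin n → ℝ) → ℝ) (hf : Measurable f) (hf0 : ∀ v, 0 ≤ f v) (hf1 : ∀ v, f v ≤ 1)
    (χ : ℝ) (hχ : 0 ≤ χ)
    (h : ∫⁻ ω, ∫⁻ ω', ENNReal.ofReal (∏ i, (1 - η ω i * η ω' i) ^ (-(1 / 2) : ℝ)) ∂μ ∂μ ≤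
      ENNReal.ofReal (1 + χ)) :
    |∫ ω, ∫ w, f (fun i => w i * √(1 + η ω i)) ∂(gam n) ∂μ - ∫ w, f w ∂(gam n)| ≤ √χ := by
  haveI := gamp_25985 n
  set γ := gam n with hγ
  obtain ⟨D, hD⟩ : ∃ D : Ω → (Fin n → ℝ) → ℝ≥0∞, ∀ ω w, D ω w =
      ENNReal.ofReal (∏ i, gd (η ω i) (w i)) := ⟨_, fun _ _ => rfl⟩
  have hDm : Measurable (Function.uncurry D) := by
    have he : Function.uncurry D = fun z : Ω × (Fin n → ℝ) =>
        ENNReal.ofReal (∏ i, gd (η z.1 i) (z.2 i)) := by
      funext z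
      exact hD z.1 z.2
    rw [he]
    apply ENNReal.measurable_ofReal.comp
    apply Finset.measurable_fun_prod
    intro i _
    have h3 : Measurable (fun z : Ω × (Fin n → ℝ) => ((η z.1 i, z.2 i) : ℝ × ℝ)) := by
      fun_prop
    exact gd_meas_25985.comp h3
  have hA : ∀ (ω : Ω) (f : (Fin n → ℝ) → ℝ≥0∞), Measurable f →
      ∫⁻ w, f (fun i => w i * √(1 + η ω i)) ∂γ = ∫⁻ w, f w * D ω w ∂γ := by
    intro ω f hf
    rw [(h1 (η ω) (η ω) (hb ω) (hb ω)).1 f hf]
    apply lintegral_congr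
    intro w
    rw [hD]
  have hB : ∀ (ω ω' : Ω), ∫⁻ w, D ω w * D ω' w ∂γ =
      ENNReal.ofReal (∏ i, (1 - η ω i * η ω' i) ^ (-(1 / 2) : ℝ)) := by
    intro ω ω'
    rw [← (h1 (η ω) (η ω') (hb ω) (hb ω')).2]
    apply lintegral_congr
    intro w
    rw [hD, hD]
  clear hD
  have hDs : Measurable (Function.uncurry fun (w : Fin n → ℝ) (ω : Ω) => D ω w) :=
    hDm.comp measurable_swap
  have hDω : ∀ ω, Measurable (D ω) := fun ω => hDm.comp measurable_prodMk_left
  have hDw : ∀ w, Measurable (fun ω => D ω w) := fun w => hDm.comp measurable_prodMk_right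
  obtain ⟨G, hG⟩ : ∃ G : (Fin n → ℝ) → ℝ≥0∞, ∀ w, G w = ∫⁻ ω, D ω w ∂μ := ⟨_, fun _ => rfl⟩
  have hGm : Measurable G := by
    have he : G = fun w => ∫⁻ ω, D ω w ∂μ := funext hG
    rw [he]
    exact hDm.lintegral_prod_left'
  have hone : ∀ ω, ∫⁻ w, D ω w ∂γ = 1 := by
    intro ω
    have h3 := hA ω (fun _ => 1) measurable_const
    rw [lintegral_const, measure_univ, mul_one] at h3
    rw [h3]
    simp only [one_mul]
  have hGone : ∫⁻ w, G w ∂γ = 1 := by
    have h3 := lintegral_lintegral_swap (μ := γ) (ν := μ) hDs.aemeasurable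
    have h4 : ∫⁻ w, G w ∂γ = ∫⁻ w, ∫⁻ ω, D ω w ∂μ ∂γ := lintegral_congr hG
    rw [h4, h3]
    simp only [hone, lintegral_const, measure_univ, mul_one]
  have hGfin : ∀ᵐ w ∂γ, G w < ∞ := ae_lt_top hGm (by rw [hGone]; exact ENNReal.one_ne_top)
  have hG2 : ∫⁻ w, G w * G w ∂γ ≤ ENNReal.ofReal (1 + χ) := by
    refine le_trans (le_of_eq ?_) h
    have h4 : ∀ w, G w * G w = ∫⁻ ω, D ω w * G w ∂μ := by
      intro w
      rw [lintegral_mul_const _ (hDw w), ← hG w]
    have h5 : ∫⁻ w, G w * G w ∂γ = ∫⁻ w, ∫⁻ ω, D ω w * G w ∂μ ∂γ :=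
      lintegral_congr h4
    have hm1 : Measurable (Function.uncurry fun (w : Fin n → ℝ) (ω : Ω) => D ω w * G w) :=
      hDs.mul (hGm.comp measurable_fst)
    rw [h5, lintegral_lintegral_swap hm1.aemeasurable]
    apply lintegral_congr
    intro ω
    have h6 : ∀ w, D ω w * G w = ∫⁻ ω', D ω w * D ω' w ∂μ := by
      intro w
      rw [lintegral_const_mul _ (hDw w), ← hG w]
    have h7 : ∫⁻ w, D ω w * G w ∂γ = ∫⁻ w, ∫⁻ ω', D ω w * D ω' w ∂μ ∂γ :=
      lintegral_congr h6
    have hm2 : Measurable (Function.uncurry fun (w : Fin n → ℝ) (ω' : Ω) => D ω w * D ω' w) :=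
      ((hDω ω).comp measurable_fst).mul hDs
    rw [h7, lintegral_lintegral_swap hm2.aemeasurable]
    apply lintegral_congr
    intro ω'
    exact hB ω ω'
  have hGG : Measurable (fun w => G w * G w) := hGm.mul hGm
  set g : (Fin n → ℝ) → ℝ := fun w => (G w).toReal with hg
  have hgm : Measurable g := hGm.ennreal_toReal
  have hgi : Integrable g γ :=
    integrable_toReal_of_lintegral_ne_top hGm.aemeasurable (by rw [hGone]; exact ENNReal.one_ne_top)
  have hg2e : (fun w => g w ^ 2) = fun w => (G w * G w).toReal := by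
    funext w
    rw [ENNReal.toReal_mul, sq]
  have hg2i : Integrable (fun w => g w ^ 2) γ := by
    rw [hg2e]
    exact integrable_toReal_of_lintegral_ne_top hGG.aemeasurable
      (ne_top_of_le_ne_top ENNReal.ofReal_ne_top hG2)
  have hgone : ∫ w, g w ∂γ = 1 := by
    rw [integral_toReal hGm.aemeasurable hGfin, hGone, ENNReal.toReal_one]
  have hg2 : ∫ w, g w ^ 2 ∂γ ≤ 1 + χ := by
    rw [hg2e, integral_toReal hGG.aemeasurable]
    · refine (ENNReal.toReal_mono ENNReal.ofReal_ne_top hG2).trans ?_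
      rw [ENNReal.toReal_ofReal (by linarith)]
    · filter_upwards [hGfin] with w hw
      exact ENNReal.mul_lt_top hw hw
  have hmain : ∫ ω, ∫ w, f (fun i => w i * √(1 + η ω i)) ∂γ ∂μ = ∫ w, f w * g w ∂γ := by
    have hfo : Measurable (fun w => ENNReal.ofReal (f w)) := hf.ennreal_ofReal
    have hH : ∀ ω, ∫ w, f (fun i => w i * √(1 + η ω i)) ∂γ =
        (∫⁻ w, ENNReal.ofReal (f w) * D ω w ∂γ).toReal := by
      intro ω
      have h8 : Measurable (fun w : Fin n → ℝ => f (fun i => w i * √(1 + η ω i))) := by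
        apply hf.comp
        fun_prop
      rw [integral_eq_lintegral_of_nonneg_ae (ae_of_all _ fun w => hf0 _)
        h8.aestronglyMeasurable]
      congr 1
      exact hA ω (fun v => ENNReal.ofReal (f v)) hfo
    have hm2 : Measurable (Function.uncurry fun (ω : Ω) (w : Fin n → ℝ) =>
        ENNReal.ofReal (f w) * D ω w) :=
      (hfo.comp measurable_snd).mul hDm
    have hle : ∀ ω, ∫⁻ w, ENNReal.ofReal (f w) * D ω w ∂γ ≤ 1 := by
      intro ω
      rw [← hone ω]
      apply lintegral_mono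
      intro w
      calc ENNReal.ofReal (f w) * D ω w ≤ 1 * D ω w := by
            gcongr
            rw [ENNReal.ofReal_le_one]
            exact hf1 w
        _ = D ω w := one_mul _
    have hm3 : Measurable (fun ω => ∫⁻ w, ENNReal.ofReal (f w) * D ω w ∂γ) :=
      hm2.lintegral_prod_right'
    rw [integral_congr_ae (ae_of_all _ hH), integral_toReal hm3.aemeasurable
      (ae_of_all _ fun ω => lt_of_le_of_lt (hle ω) ENNReal.one_lt_top),
      lintegral_lintegral_swap hm2.aemeasurable]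
    have h9 : ∀ w, ∫⁻ ω, ENNReal.ofReal (f w) * D ω w ∂μ = ENNReal.ofReal (f w) * G w := by
      intro w
      rw [lintegral_const_mul _ (hDw w), ← hG w]
    have hfG : Measurable (fun w => ENNReal.ofReal (f w) * G w) := hfo.mul hGm
    rw [lintegral_congr h9, ← integral_toReal hfG.aemeasurable]
    · apply integral_congr_ae
      apply ae_of_all
      intro w
      show (ENNReal.ofReal (f w) * G w).toReal = f w * g w
      rw [ENNReal.toReal_mul, ENNReal.toReal_ofReal (hf0 w)]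
    · filter_upwards [hGfin] with w hw
      exact ENNReal.mul_lt_top ENNReal.ofReal_lt_top hw
  rw [hmain]
  exact cs_25985 γ f g hf hf0 hf1 hgi hg2i hgone χ hg2

end Pool.Agent.H494.Kac

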