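import Pool.Agent.H494.Kac.Defs2

open MeasureTheory Filter Topology
open scoped ENNReal

namespace Pool.Agent.H494.Kac
theorem tv_shift_aux (u : ℝ) (h0 : 0 ≤ u) (h1 : u ≤ 1 / 2) :
    (1 - u) ^ (-(1 / 2) : ℝ) ≤ Real.exp u := by
  have h2 : 0 < 1 - u := by linarith
  rw [Real.rpow_neg h2.le, ← Real.inv_rpow h2.le]
  have h3 : (1 - u)⁻¹ ≤ Real.exp (2 * u) := by
    have h4 : (1 - u)⁻¹ ≤ 1 + 2 * u := by
      rw [inv_le_iff_one_le_mul₀ h2]; nlinarith
    have h5 := Real.add_one_le_exp (2 * u)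
    linarith
  have h6 : Real.exp u = (Real.exp (2 * u)) ^ (1 / 2 : ℝ) := by
    rw [← Real.exp_mul]; congr 1; ring
  rw [h6]
  exact Real.rpow_le_rpow (inv_nonneg.2 h2.le) h3 (by norm_num)

theorem tv_shift (n : ℕ) (b c : Fin n → ℝ) (hb : ∀ i, 0 ≤ b i) (hc : ∀ i, 1 / 2 ≤ c i)
    (f : (Fin n → ℝ) → ℝ) (hf : Measurable f) (hf0 : ∀ v, 0 ≤ f v) (hf1 : ∀ v, f v ≤ 1)
    (h : ∀ η : Fin n → ℝ, (∀ i, |η i| ≤ 1 / 2) → ∀ g : (Fin n → ℝ) → ℝ, Measurable g →
      (∀ v, 0 ≤ g v) → (∀ v, g v ≤ 1) → ∀ χ : ℝ, 0 ≤ χ →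
      ∏ i, (1 - η i * η i) ^ (-(1 / 2) : ℝ) ≤ 1 + χ →
      |∫ w, g (fun i => w i * √(1 + η i)) ∂(gam n) - ∫ w, g w ∂(gam n)| ≤ √χ) :
    |∫ w, f (fun i => w i * √(b i)) ∂(gam n) - ∫ w, f (fun i => w i * √(c i)) ∂(gam n)| ≤
      8 * √(∑ i, (b i - c i) ^ 2) := by
  have : IsProbabilityMeasure (gam n) := by unfold gam; infer_instance
  set s := ∑ i, (b i - c i) ^ 2 with hs
  have hs0 : 0 ≤ s := Finset.sum_nonneg (fun i _ => sq_nonneg _)
  rcases le_or_gt (1 / 8) (√s) with hbig | hsmall
  · -- trivial case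
    have hI : ∀ d : Fin n → ℝ, 0 ≤ ∫ w, f (fun i => w i * √(d i)) ∂(gam n) ∧
        ∫ w, f (fun i => w i * √(d i)) ∂(gam n) ≤ 1 := by
      intro d
      refine ⟨integral_nonneg (fun w => hf0 _), ?_⟩
      have := integral_mono_of_nonneg (μ := gam n) (f := fun w => f (fun i => w i * √(d i)))
        (g := fun _ => (1:ℝ)) (Filter.Eventually.of_forall (fun w => hf0 _)) (integrable_const _)
        (Filter.Eventually.of_forall (fun w => hf1 _))
      simpa using this
    have h1 := hI b
    have h2 := hI c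
    rw [abs_le]
    constructor <;> linarith [h1.1, h1.2, h2.1, h2.2]
  · have hs1 : s < 1 / 64 := by
      have := Real.sq_sqrt hs0
      have h3 := Real.sqrt_nonneg s
      nlinarith
    have hi : ∀ i, (b i - c i) ^ 2 ≤ s := fun i =>
      Finset.single_le_sum (f := fun i => (b i - c i) ^ 2) (fun i _ => sq_nonneg _) (Finset.mem_univ i)
    set η : Fin n → ℝ := fun i => (b i - c i) / c i with hη
    have hcpos : ∀ i, 0 < c i := fun i => by linarith [hc i]
    have hη2 : ∀ i, η i * η i ≤ 4 * (b i - c i) ^ 2 := fun i => by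
      simp only [hη]
      rw [div_mul_div_comm, div_le_iff₀ (mul_pos (hcpos i) (hcpos i))]
      have h4 : 1 / 4 ≤ c i * c i := by nlinarith [hc i]
      nlinarith [sq_nonneg (b i - c i)]
    have hη1 : ∀ i, |η i| ≤ 1 / 2 := fun i => by
      refine abs_le_of_sq_le_sq ?_ (by norm_num)
      nlinarith [hi i, hη2 i]
    have hmeas : Measurable (fun v : Fin n → ℝ => f (fun i => v i * √(c i))) := by
      apply hf.comp
      fun_prop
    have key := h η hη1 (fun v => f (fun i => v i * √(c i))) hmeas (fun v => hf0 _) (fun v => hf1 _)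
      (64 * s) (by positivity) (by
        have h5 : ∏ i, (1 - η i * η i) ^ (-(1 / 2) : ℝ) ≤ ∏ i, Real.exp (η i * η i) := by
          apply Finset.prod_le_prod
          · intro i _
            apply Real.rpow_nonneg
            nlinarith [hi i, hη2 i]
          · intro i _
            apply tv_shift_aux _ (mul_self_nonneg _)
            nlinarith [hi i, hη2 i]
        rw [← Real.exp_sum] at h5
        have h6 : ∑ i, η i * η i ≤ 4 * s := by
          rw [hs, Finset.mul_sum]
          exact Finset.sum_le_sum (fun i _ => hη2 i)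
        have h7 : 0 ≤ ∑ i, η i * η i := Finset.sum_nonneg (fun i _ => mul_self_nonneg _)
        have h8 := Real.abs_exp_sub_one_le (x := ∑ i, η i * η i) (by rw [abs_of_nonneg h7]; linarith)
        rw [abs_of_nonneg h7] at h8
        have h9 := (abs_le.1 h8).2
        linarith)
    have e1 : (fun w : Fin n → ℝ => f (fun i => (fun i => w i * √(1 + η i)) i * √(c i))) =
        fun w => f (fun i => w i * √(b i)) := by
      funext w
      congr 1
      funext i
      have h10 : √(1 + η i) * √(c i) = √(b i) := by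
        rw [← Real.sqrt_mul']
        · congr 1
          simp only [hη]
          have := (hcpos i).ne'
          field_simp
          ring
        · exact (hcpos i).le
      change w i * √(1 + η i) * √(c i) = w i * √(b i)
      rw [mul_assoc, h10]
    have e2 : √(64 * s) = 8 * √s := by
      rw [Real.sqrt_mul (by norm_num)]
      congr 1
      rw [show (64:ℝ) = 8 ^ 2 by norm_num]
      exact Real.sqrt_sq (by norm_num)
    rw [e2] at key
    have e3 : ∫ w, (fun v : Fin n → ℝ => f (fun i => v i * √(c i))) (fun i => w i * √(1 + η i)) ∂(gam n) =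
        ∫ w, f (fun i => w i * √(b i)) ∂(gam n) := by
      change ∫ w, (fun w : Fin n → ℝ => f (fun i => (fun i => w i * √(1 + η i)) i * √(c i))) w ∂(gam n) = _
      rw [e1]
    rw [e3] at key
    exact key


end Pool.Agent.H494.Kac
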