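import Pool.Agent.H494.Kac.Defs2

open MeasureTheory Filter Topology
open scoped ENNReal

namespace Pool.Agent.H494.Kac
theorem unif_gam (n : ℕ) (hn : 1 ≤ n) (π : Measure (E n)) (hπ : IsUnif n π)
    (huniq : ∀ π π' : Measure (E n), IsUnif n π → IsUnif n π' → π = π')
    (hex : IsUnif n ((ProbabilityTheory.stdGaussian (E n)).map (fun x => ‖x‖⁻¹ • x)))
    (S : Set (E n)) (hS : MeasurableSet S) :
    π.real S = ∫ w, S.indicator (fun _ => (1 : ℝ))
      (‖(WithLp.toLp 2 w : E n)‖⁻¹ • (WithLp.toLp 2 w : E n)) ∂(gam n) := by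
  have h1 := huniq _ _ hπ hex
  have hN : Measurable (fun x : E n => ‖x‖⁻¹ • x) := measurable_norm.inv.smul measurable_id
  have hL : Measurable (fun w : Fin n → ℝ => (WithLp.toLp 2 w : E n)) :=
    WithLp.measurable_toLp 2 _
  have h2 : (gam n).map (fun w : Fin n → ℝ => (WithLp.toLp 2 w : E n)) =
      ProbabilityTheory.stdGaussian (E n) := ProbabilityTheory.map_pi_eq_stdGaussian
  rw [h1, ← h2, Measure.map_map hN hL]
  have hg : Measurable ((fun x : E n => ‖x‖⁻¹ • x) ∘
      (fun w : Fin n → ℝ => (WithLp.toLp 2 w : E n))) := hN.comp hL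
  rw [map_measureReal_apply hg hS, ← integral_indicator_one (hg hS)]
  rfl

end Pool.Agent.H494.Kac
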