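import Pool.Agent.H494.Kac.Defs2

open MeasureTheory Filter Topology
open scoped ENNReal

namespace Pool.Agent.H494.Kac
theorem unif_swap (g : ℝ → ℝ≥0∞) (hg : Measurable g) :
    ∫⁻ φ, g (1 - (Real.cos φ) ^ 2) ∂unif = ∫⁻ φ, g ((Real.cos φ) ^ 2) ∂unif := by
  unfold unif
  rw [lintegral_smul_measure, lintegral_smul_measure]
  congr 1
  have h2 : (0:ℝ) < 2 * Real.pi := by positivity
  set k : ℝ → ℝ≥0∞ := fun φ => g ((Real.cos φ) ^ 2) with hk
  have hkm : Measurable k := hg.comp (by fun_prop)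
  have e1 : ∀ φ : ℝ, g (1 - (Real.cos φ) ^ 2) = k (φ - Real.pi / 2) := by
    intro φ
    simp only [hk]
    rw [Real.cos_sub_pi_div_two, ← Real.sin_sq_add_cos_sq φ]
    congr 1
    ring
  simp_rw [e1]
  have hper : ∀ (c : AddSubgroup.zmultiples (2 * Real.pi)) (x : ℝ), k (c +ᵥ x) = k x := by
    intro c x
    obtain ⟨c, hc⟩ := c
    obtain ⟨z, hz⟩ := AddSubgroup.mem_zmultiples_iff.mp hc
    have : ((⟨c, hc⟩ : AddSubgroup.zmultiples (2 * Real.pi)) +ᵥ x) = x + z * (2 * Real.pi) := by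
      change c + x = _
      rw [← hz, zsmul_eq_mul]; ring
    rw [this]
    simp only [hk, Real.cos_add_int_mul_two_pi]
  rw [restrict_Ico_eq_restrict_Ioc]
  have hpre : (fun x : ℝ => x - Real.pi / 2) ⁻¹' (Set.Ioc (-(Real.pi / 2)) (-(Real.pi / 2) + 2 * Real.pi)) =
      Set.Ioc 0 (2 * Real.pi) := by
    ext x
    simp only [Set.mem_preimage, Set.mem_Ioc]
    constructor
    · rintro ⟨a, b⟩; constructor <;> linarith
    · rintro ⟨a, b⟩; constructor <;> linarith
  have hmp := measurePreserving_sub_right (volume : Measure ℝ) (Real.pi / 2)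
  have h3 := hmp.setLIntegral_comp_preimage
    (measurableSet_Ioc (a := -(Real.pi / 2)) (b := -(Real.pi / 2) + 2 * Real.pi)) hkm
  rw [hpre] at h3
  rw [h3]
  have h4 := (isAddFundamentalDomain_Ioc h2 (-(Real.pi / 2)) volume).setLIntegral_eq
    (isAddFundamentalDomain_Ioc h2 0 volume) k hper
  rw [h4, zero_add]

end Pool.Agent.H494.Kac
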