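import Pool.Agent.H494.Kac.Defs2

open MeasureTheory Filter Topology
open scoped ENNReal

namespace Pool.Agent.H494.Kac
open scoped RealInnerProductSpace in
theorem cf_rot_aux {n : ℕ} {π : Measure (E n)} (h : IsUnif n π) {ξ ξ' : E n} (hξ : ‖ξ‖ = ‖ξ'‖) :
    charFun π ξ = charFun π ξ' := by
  let g : E n ≃ₗᵢ[ℝ] E n := (ℝ ∙ (ξ' - ξ))ᗮ.reflection
  have hg : g ξ' = ξ := Submodule.reflection_sub hξ.symm
  calc charFun π ξ = charFun (π.map g) ξ := by rw [h.inv g]
    _ = ∫ x, Complex.exp ((⟪x, ξ⟫ : ℝ) * Complex.I) ∂(π.map g) := charFun_apply _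
    _ = ∫ x, Complex.exp ((⟪g x, ξ⟫ : ℝ) * Complex.I) ∂π := by
        apply integral_map
        · exact g.continuous.measurable.aemeasurable
        · apply Continuous.aestronglyMeasurable
          fun_prop
    _ = ∫ x, Complex.exp ((⟪x, ξ'⟫ : ℝ) * Complex.I) ∂π := by
        congr 1
        funext x
        rw [← hg, g.inner_map_map]
    _ = charFun π ξ' := (charFun_apply _).symm

open scoped RealInnerProductSpace in
theorem unif_uniq (n : ℕ) (π π' : Measure (E n)) (h : IsUnif n π) (h' : IsUnif n π') :
    π = π' := by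
  haveI := h.prob
  haveI := h'.prob
  apply Measure.ext_of_charFun
  funext ξ
  have h1 : charFun π ξ = ∫ u, charFun π (‖ξ‖ • u) ∂π' := by
    have e : ∫ u, charFun π (‖ξ‖ • u) ∂π' = ∫ _u, charFun π ξ ∂π' := by
      apply integral_congr_ae
      filter_upwards [h'.supp] with u hu
      apply cf_rot_aux h
      rw [norm_smul, hu, mul_one, norm_norm]
    rw [e, integral_const]
    simp
  have h2 : charFun π' ξ = ∫ v, charFun π' (‖ξ‖ • v) ∂π := by
    have e : ∫ v, charFun π' (‖ξ‖ • v) ∂π = ∫ _v, charFun π' ξ ∂π := by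
      apply integral_congr_ae
      filter_upwards [h.supp] with u hu
      apply cf_rot_aux h'
      rw [norm_smul, hu, mul_one, norm_norm]
    rw [e, integral_const]
    simp
  rw [h1, h2]
  simp only [charFun_apply]
  rw [integral_integral_swap]
  · congr 1
    funext v
    congr 1
    funext u
    rw [inner_smul_right, inner_smul_right, real_inner_comm]
  · apply Integrable.of_bound (C := 1)
    · apply Continuous.aestronglyMeasurable
      unfold Function.uncurry
      fun_prop
    · refine ae_of_all _ fun p => ?_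
      simp only [Function.uncurry]
      rw [Complex.norm_exp_ofReal_mul_I]

end Pool.Agent.H494.Kac
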