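import Pool.Agent.H494.Kac.Defs2

open MeasureTheory Filter Topology
open scoped ENNReal

namespace Pool.Agent.H494.Kac
theorem uq_step (n : ℕ) (hn : 2 ≤ n) (q : ℝ) (hq : 2 ≤ q) (hq3 : q ≤ 3)
    (hu : IsProbabilityMeasure unif) (hmq : mom q ≤ 3 / 8)
    (hsw : ∀ g : ℝ → ℝ, ∫ θ, g (1 - (Real.cos θ) ^ 2) ∂unif = ∫ θ, g ((Real.cos θ) ^ 2) ∂unif)
    (hpair : ∀ f : Fin n → ℝ, ∑ p ∈ prs n, (f p.1 + f p.2) = ((n : ℝ) - 1) * ∑ k, f k ∧
      ((prs n).card : ℝ) = n * (n - 1) / 2 ∧ ∀ p ∈ prs n, p.1 ≠ p.2)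
    (A : Fin n → ℝ)
    (hsum : ∑ p ∈ prs n, |A p.1 + A p.2| ^ q ≤ ((n : ℝ) - 1) * ∑ k, |A k| ^ q +
      9 / 2 * (n : ℝ) ^ (2 - q / 2) * (∑ k, A k ^ 2) ^ (q / 2)) :
    Qop n (fun B => ENNReal.ofReal (∑ k, |B k| ^ q)) A ≤
      ENNReal.ofReal ((1 - 2 * (1 - 2 * mom q) / n) * ∑ k, |A k| ^ q +
        20 / n * (n : ℝ) ^ (1 - q / 2) * (∑ k, A k ^ 2) ^ (q / 2)) := by
  classical
  have hq0 : 0 < q := by linarith
  have hn0 : (0:ℝ) < n := by positivity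
  have hn1 : (2:ℝ) ≤ n := by exact_mod_cast hn
  obtain ⟨h1, hcard, hne⟩ := hpair (fun k => |A k| ^ q)
  have hcs0 : ∀ θ : ℝ, 0 ≤ Real.cos θ ^ 2 := fun θ => sq_nonneg _
  have hcs1 : ∀ θ : ℝ, Real.cos θ ^ 2 ≤ 1 := fun θ => Real.cos_sq_le_one θ
  have hm0 : 0 ≤ mom q := integral_nonneg (fun θ => Real.rpow_nonneg (hcs0 θ) _)
  -- integrability
  have hint1 : Integrable (fun θ : ℝ => ((Real.cos θ) ^ 2) ^ q) unif := by
    refine Integrable.of_bound (C := 1) ?_ ?_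
    · exact (Continuous.rpow_const (by fun_prop) (fun _ => Or.inr hq0.le)).aestronglyMeasurable
    · refine Filter.Eventually.of_forall fun θ => ?_
      rw [Real.norm_of_nonneg (Real.rpow_nonneg (hcs0 θ) _)]
      exact Real.rpow_le_one (hcs0 θ) (hcs1 θ) hq0.le
  have hint2 : Integrable (fun θ : ℝ => (1 - (Real.cos θ) ^ 2) ^ q) unif := by
    refine Integrable.of_bound (C := 1) ?_ ?_
    · exact (Continuous.rpow_const (by fun_prop) (fun _ => Or.inr hq0.le)).aestronglyMeasurable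
    · refine Filter.Eventually.of_forall fun θ => ?_
      have h0 : 0 ≤ 1 - Real.cos θ ^ 2 := by linarith [hcs1 θ]
      rw [Real.norm_of_nonneg (Real.rpow_nonneg h0 _)]
      exact Real.rpow_le_one h0 (by linarith [hcs0 θ]) hq0.le
  have hmom1 : ∫ θ, ((Real.cos θ) ^ 2) ^ q ∂unif = mom q := rfl
  have hmom2 : ∫ θ, (1 - (Real.cos θ) ^ 2) ^ q ∂unif = mom q := hsw (fun x => x ^ q)
  -- the pointwise identity
  have hpt : ∀ p ∈ prs n, ∀ θ : ℝ, ∑ k, |T p.1 p.2 ((Real.cos θ) ^ 2) A k| ^ q =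
      (∑ k, |A k| ^ q - (|A p.1| ^ q + |A p.2| ^ q)) + |A p.1 + A p.2| ^ q *
        (((Real.cos θ) ^ 2) ^ q + (1 - (Real.cos θ) ^ 2) ^ q) := by
    intro p hp θ
    have hij := hne p hp
    have h0 : 0 ≤ 1 - Real.cos θ ^ 2 := by linarith [hcs1 θ]
    have e1 : ∀ f : Fin n → ℝ, ∑ k, f k = f p.1 + f p.2 + ∑ k ∈ (Finset.univ.erase p.1).erase p.2, f k := by
      intro f
      rw [← Finset.add_sum_erase Finset.univ f (Finset.mem_univ p.1),
        ← Finset.add_sum_erase (Finset.univ.erase p.1) f (a := p.2) (by simp [Ne.symm hij])]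
      ring
    rw [e1 (fun k => |T p.1 p.2 ((Real.cos θ) ^ 2) A k| ^ q), e1 (fun k => |A k| ^ q)]
    have e2 : ∑ k ∈ (Finset.univ.erase p.1).erase p.2, |T p.1 p.2 ((Real.cos θ) ^ 2) A k| ^ q =
        ∑ k ∈ (Finset.univ.erase p.1).erase p.2, |A k| ^ q := by
      refine Finset.sum_congr rfl fun k hk => ?_
      simp only [Finset.mem_erase, Finset.mem_univ, and_true] at hk
      simp only [T, if_neg hk.2, if_neg hk.1]
    rw [e2]
    have e3 : T p.1 p.2 ((Real.cos θ) ^ 2) A p.1 = (A p.1 + A p.2) * (Real.cos θ) ^ 2 := by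
      simp [T]
    have e4 : T p.1 p.2 ((Real.cos θ) ^ 2) A p.2 = (A p.1 + A p.2) * (1 - (Real.cos θ) ^ 2) := by
      simp only [T, if_neg (Ne.symm hij), if_true]
    rw [e3, e4, abs_mul, abs_mul, abs_of_nonneg (hcs0 θ), abs_of_nonneg h0,
      Real.mul_rpow (abs_nonneg _) (hcs0 θ), Real.mul_rpow (abs_nonneg _) h0]
    ring
  have hI : ∀ p ∈ prs n, ∫⁻ θ, ENNReal.ofReal (∑ k, |T p.1 p.2 ((Real.cos θ) ^ 2) A k| ^ q) ∂unif =
      ENNReal.ofReal ((∑ k, |A k| ^ q - (|A p.1| ^ q + |A p.2| ^ q)) +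
        |A p.1 + A p.2| ^ q * (2 * mom q)) := by
    intro p hp
    have hnn : ∀ θ : ℝ, 0 ≤ ∑ k, |T p.1 p.2 ((Real.cos θ) ^ 2) A k| ^ q := fun θ =>
      Finset.sum_nonneg fun k _ => Real.rpow_nonneg (abs_nonneg _) _
    have hcg : (fun θ : ℝ => ∑ k, |T p.1 p.2 ((Real.cos θ) ^ 2) A k| ^ q) = fun θ =>
      (∑ k, |A k| ^ q - (|A p.1| ^ q + |A p.2| ^ q)) + |A p.1 + A p.2| ^ q *
        (((Real.cos θ) ^ 2) ^ q + (1 - (Real.cos θ) ^ 2) ^ q) := by
      funext θ; exact hpt p hp θ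
    have hi3 : Integrable (fun θ : ℝ => |A p.1 + A p.2| ^ q *
        (((Real.cos θ) ^ 2) ^ q + (1 - (Real.cos θ) ^ 2) ^ q)) unif :=
      (hint1.add hint2).const_mul _
    have hi4 : Integrable (fun θ : ℝ => ∑ k, |T p.1 p.2 ((Real.cos θ) ^ 2) A k| ^ q) unif := by
      rw [hcg]; exact (integrable_const _).add hi3
    rw [← ofReal_integral_eq_lintegral_ofReal hi4 (Filter.Eventually.of_forall hnn)]
    congr 1
    rw [hcg, integral_add (integrable_const _) hi3, integral_const_mul, integral_add hint1 hint2,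
      hmom1, hmom2, integral_const]
    simp
    ring_nf
    simp
  unfold Qop
  rw [Finset.sum_congr rfl hI]
  have hcpos : 0 < ((prs n).card : ℝ) := by
    rw [hcard]; 
    have : 0 < (n:ℝ) * (n - 1) := mul_pos hn0 (by linarith)
    linarith
  have hnn2 : ∀ p ∈ prs n, 0 ≤ (∑ k, |A k| ^ q - (|A p.1| ^ q + |A p.2| ^ q)) +
        |A p.1 + A p.2| ^ q * (2 * mom q) := by
    intro p hp
    have hij := hne p hp
    have : |A p.1| ^ q + |A p.2| ^ q ≤ ∑ k, |A k| ^ q := by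
      rw [← Finset.sum_pair hij (f := fun k => |A k| ^ q)]
      exact Finset.sum_le_sum_of_subset_of_nonneg (Finset.subset_univ _)
        (fun k _ _ => Real.rpow_nonneg (abs_nonneg _) _)
    have h3 : 0 ≤ |A p.1 + A p.2| ^ q * (2 * mom q) :=
      mul_nonneg (Real.rpow_nonneg (abs_nonneg _) _) (by linarith)
    linarith
  rw [← ENNReal.ofReal_sum_of_nonneg hnn2]
  have hcE : (((prs n).card : ℝ≥0∞))⁻¹ = ENNReal.ofReal (((prs n).card : ℝ)⁻¹) := by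
    rw [ENNReal.ofReal_inv_of_pos hcpos, ENNReal.ofReal_natCast]
  rw [hcE, ← ENNReal.ofReal_mul (by positivity)]
  apply ENNReal.ofReal_le_ofReal
  rw [Finset.sum_add_distrib, Finset.sum_sub_distrib, ← Finset.sum_mul, Finset.sum_const,
    nsmul_eq_mul, h1]
  set U := ∑ k, |A k| ^ q with hU
  set Y := (∑ k, A k ^ 2) ^ (q / 2) with hY
  have hY0 : 0 ≤ Y := Real.rpow_nonneg (Finset.sum_nonneg fun k _ => sq_nonneg _) _
  set P := (n : ℝ) ^ (1 - q / 2) with hP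
  have hP0 : 0 < P := Real.rpow_pos_of_pos hn0 _
  have hP2 : (n : ℝ) ^ (2 - q / 2) = n * P := by
    rw [hP, show (2 - q / 2) = 1 + (1 - q / 2) by ring, Real.rpow_add hn0, Real.rpow_one]
  rw [hP2] at hsum
  have hb : (∑ p ∈ prs n, |A p.1 + A p.2| ^ q) * (2 * mom q) ≤
      2 * mom q * (((n : ℝ) - 1) * U) + (3/4) * (9 / 2 * (n * P) * Y) := by
    have a1 : (∑ p ∈ prs n, |A p.1 + A p.2| ^ q) * (2 * mom q) ≤
      (((n : ℝ) - 1) * U + 9 / 2 * (n * P) * Y) * (2 * mom q) :=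
      mul_le_mul_of_nonneg_right hsum (by linarith)
    have a2 : (9 / 2 * (n * P) * Y) * (2 * mom q) ≤ (9 / 2 * (n * P) * Y) * (3/4) :=
      mul_le_mul_of_nonneg_left (by linarith) (by positivity)
    linarith
  have hcinv : ((prs n).card : ℝ)⁻¹ = 2 / (n * (n - 1)) := by
    rw [hcard, inv_div]
  have hn1' : (n:ℝ) - 1 ≠ 0 := by linarith
  have hn0' : (n:ℝ) ≠ 0 := hn0.ne'
  calc ((prs n).card : ℝ)⁻¹ * (((prs n).card : ℝ) * U - ((n:ℝ) - 1) * U +
        (∑ p ∈ prs n, |A p.1 + A p.2| ^ q) * (2 * mom q))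
      ≤ ((prs n).card : ℝ)⁻¹ * (((prs n).card : ℝ) * U - ((n:ℝ) - 1) * U +
        (2 * mom q * (((n : ℝ) - 1) * U) + (3/4) * (9 / 2 * (n * P) * Y))) :=
        mul_le_mul_of_nonneg_left (by linarith) (by positivity)
    _ = (1 - 2 * (1 - 2 * mom q) / n) * U + (27/4) / (n - 1) * (P * Y) := by
        rw [hcinv, hcard]
        field_simp
        ring
    _ ≤ (1 - 2 * (1 - 2 * mom q) / n) * U + 20 / n * P * Y := by
        have : (27/4) / ((n:ℝ) - 1) ≤ 20 / n := by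
          rw [div_le_div_iff₀ (by linarith) hn0]
          linarith
        have h5 : (27/4) / ((n:ℝ) - 1) * (P * Y) ≤ 20 / n * (P * Y) :=
          mul_le_mul_of_nonneg_right this (by positivity)
        linarith

end Pool.Agent.H494.Kac
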