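import Pool.Agent.H494.Kac.Defs2

open MeasureTheory Filter Topology
open scoped ENNReal

namespace Pool.Agent.H494.Kac
theorem uq_split (n : ℕ) (H : Fin n → Fin n → ℝ) :
    ∑ p ∈ prs n, (H p.1 p.2 + H p.2 p.1) = ∑ i, ∑ j, H i j - ∑ i, H i i := by
  have h1 : ∑ i, ∑ j, H i j = ∑ p : Fin n × Fin n, H p.1 p.2 := by
    rw [Fintype.sum_prod_type]
  have h2 : ∑ p : Fin n × Fin n, H p.1 p.2 =
      ∑ p : Fin n × Fin n, (if p.1 < p.2 then H p.1 p.2 else 0) +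
      ∑ p : Fin n × Fin n, (if p.2 < p.1 then H p.1 p.2 else 0) +
      ∑ p : Fin n × Fin n, (if p.1 = p.2 then H p.1 p.2 else 0) := by
    rw [← Finset.sum_add_distrib, ← Finset.sum_add_distrib]
    apply Finset.sum_congr rfl
    intro p _
    rcases lt_trichotomy p.1 p.2 with h | h | h
    · simp [h, h.ne, h.not_gt]
    · simp [h]
    · simp [h, h.ne', h.not_gt]
  have h3 : ∑ p : Fin n × Fin n, (if p.2 < p.1 then H p.1 p.2 else 0) =
      ∑ p : Fin n × Fin n, (if p.1 < p.2 then H p.2 p.1 else 0) :=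
    ((Equiv.prodComm (Fin n) (Fin n)).sum_comp
      (fun p : Fin n × Fin n => if p.1 < p.2 then H p.2 p.1 else 0))
  have h4 : ∑ p : Fin n × Fin n, (if p.1 = p.2 then H p.1 p.2 else 0) = ∑ i, H i i := by
    rw [Fintype.sum_prod_type]
    apply Finset.sum_congr rfl
    intro i _
    rw [Finset.sum_eq_single i]
    · simp
    · intro j _ hj
      simp [hj.symm]
    · intro h
      exact absurd (Finset.mem_univ i) h
  rw [h1, h2, h3, h4]
  unfold prs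
  rw [Finset.sum_filter, add_sub_cancel_right, ← Finset.sum_add_distrib]
  apply Finset.sum_congr rfl
  intro p _
  split_ifs
  · rfl
  · rw [add_zero]

theorem uq_pow (n : ℕ) (q : ℝ) (hq : 2 ≤ q) (hq3 : q ≤ 3) (A : Fin n → ℝ) :
    (∑ k, |A k| ^ (q / 2)) ^ 2 ≤ (n : ℝ) ^ (2 - q / 2) * (∑ k, A k ^ 2) ^ (q / 2) := by
  have hq0 : 0 < q := by linarith
  have h1 := Real.rpow_sum_le_const_mul_sum_rpow (Finset.univ : Finset (Fin n))
    (fun k => |A k| ^ (q / 2)) (p := 4 / q) (by rw [le_div_iff₀ hq0]; linarith)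
  have habs : ∀ k, |(|A k| ^ (q / 2))| = |A k| ^ (q / 2) := fun k =>
    abs_of_nonneg (Real.rpow_nonneg (abs_nonneg _) _)
  have hA : ∀ k, (|A k| ^ (q / 2)) ^ (4 / q) = A k ^ 2 := by
    intro k
    rw [← Real.rpow_mul (abs_nonneg _)]
    have : q / 2 * (4 / q) = 2 := by
      field_simp
      norm_num
    rw [this, Real.rpow_two, sq_abs]
  simp only [habs, hA, Finset.card_univ, Fintype.card_fin] at h1
  have hu : 0 ≤ ∑ k, |A k| ^ (q / 2) :=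
    Finset.sum_nonneg (fun k _ => Real.rpow_nonneg (abs_nonneg _) _)
  have hS : 0 ≤ ∑ k, A k ^ 2 := Finset.sum_nonneg (fun k _ => sq_nonneg _)
  have h2 := Real.rpow_le_rpow (Real.rpow_nonneg hu _) h1 (by linarith : 0 ≤ q / 2)
  rw [← Real.rpow_mul hu, Real.mul_rpow (Real.rpow_nonneg (Nat.cast_nonneg n) _) hS,
    ← Real.rpow_mul (Nat.cast_nonneg n)] at h2
  have e1 : 4 / q * (q / 2) = 2 := by
    field_simp
    norm_num
  have e2 : (4 / q - 1) * (q / 2) = 2 - q / 2 := by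
    rw [sub_mul, e1]
    ring
  rw [e1, e2, Real.rpow_two] at h2
  exact h2

theorem uq_sum (n : ℕ) (hn : 2 ≤ n) (q : ℝ) (hq : 2 ≤ q) (hq3 : q ≤ 3)
    (hpair : ∀ f : Fin n → ℝ, ∑ p ∈ prs n, (f p.1 + f p.2) = ((n : ℝ) - 1) * ∑ k, f k ∧
      ((prs n).card : ℝ) = n * (n - 1) / 2 ∧ ∀ p ∈ prs n, p.1 ≠ p.2)
    (hineq : ∀ a b : ℝ, |a + b| ^ q ≤ |a| ^ q + |b| ^ q +
      q * (|a| ^ (q - 2) * a * b + |b| ^ (q - 2) * a * b) + 9 * (|a| ^ (q / 2) * |b| ^ (q / 2)))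
    (A : Fin n → ℝ) (hA : ∑ k, A k = 0) :
    ∑ p ∈ prs n, |A p.1 + A p.2| ^ q ≤ ((n : ℝ) - 1) * ∑ k, |A k| ^ q +
      9 / 2 * (n : ℝ) ^ (2 - q / 2) * (∑ k, A k ^ 2) ^ (q / 2) := by
  have h1 : ∑ p ∈ prs n, |A p.1 + A p.2| ^ q ≤ ∑ p ∈ prs n, ((|A p.1| ^ q + |A p.2| ^ q) +
      q * (|A p.1| ^ (q - 2) * A p.1 * A p.2 + |A p.2| ^ (q - 2) * A p.2 * A p.1) +
      9 * (|A p.1| ^ (q / 2) * |A p.2| ^ (q / 2))) := by
    apply Finset.sum_le_sum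
    intro p _
    have h := hineq (A p.1) (A p.2)
    have e : |A p.2| ^ (q - 2) * A p.1 * A p.2 = |A p.2| ^ (q - 2) * A p.2 * A p.1 := by ring
    rw [e] at h
    exact h
  rw [Finset.sum_add_distrib, Finset.sum_add_distrib, ← Finset.mul_sum, ← Finset.mul_sum,
    (hpair (fun k => |A k| ^ q)).1] at h1
  have h2 := uq_split n (fun i j => |A i| ^ (q - 2) * A i * A j)
  have h3 : ∑ i, ∑ j, |A i| ^ (q - 2) * A i * A j = 0 := by
    apply Finset.sum_eq_zero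
    intro i _
    rw [← Finset.mul_sum, hA, mul_zero]
  have h4 : 0 ≤ ∑ i, |A i| ^ (q - 2) * A i * A i := by
    apply Finset.sum_nonneg
    intro i _
    rw [mul_assoc]
    exact mul_nonneg (Real.rpow_nonneg (abs_nonneg _) _) (mul_self_nonneg _)
  have h5 : ∑ p ∈ prs n, (|A p.1| ^ (q - 2) * A p.1 * A p.2 +
      |A p.2| ^ (q - 2) * A p.2 * A p.1) ≤ 0 := by
    rw [h2, h3]
    linarith
  have h6 := uq_split n (fun i j => |A i| ^ (q / 2) * |A j| ^ (q / 2))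
  have h7 : ∑ i, ∑ j, |A i| ^ (q / 2) * |A j| ^ (q / 2) = (∑ k, |A k| ^ (q / 2)) ^ 2 := by
    rw [sq, Finset.sum_mul_sum]
  have h8 : 0 ≤ ∑ i, |A i| ^ (q / 2) * |A i| ^ (q / 2) :=
    Finset.sum_nonneg (fun i _ => mul_self_nonneg _)
  have h9 : ∑ p ∈ prs n, (|A p.1| ^ (q / 2) * |A p.2| ^ (q / 2) +
      |A p.2| ^ (q / 2) * |A p.1| ^ (q / 2)) =
      2 * ∑ p ∈ prs n, |A p.1| ^ (q / 2) * |A p.2| ^ (q / 2) := by
    rw [Finset.mul_sum]
    apply Finset.sum_congr rfl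
    intro p _
    ring
  have h10 := uq_pow n q hq hq3 A
  rw [h9, h7] at h6
  have h11 : q * ∑ p ∈ prs n, (|A p.1| ^ (q - 2) * A p.1 * A p.2 +
      |A p.2| ^ (q - 2) * A p.2 * A p.1) ≤ 0 :=
    mul_nonpos_of_nonneg_of_nonpos (by linarith) h5
  have h12 : 9 / 2 * (n : ℝ) ^ (2 - q / 2) * (∑ k, A k ^ 2) ^ (q / 2) =
      9 / 2 * ((n : ℝ) ^ (2 - q / 2) * (∑ k, A k ^ 2) ^ (q / 2)) := by ring
  rw [h12]
  linarith

end Pool.Agent.H494.Kac
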