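import Pool.Agent.H494.Kac.Defs2

open MeasureTheory Filter Topology
open scoped ENNReal

namespace Pool.Agent.H494.Kac
theorem y32_step_sq {a b : ℝ} (hb : 0 ≤ b) (h : a ^ 2 ≤ b ^ 2) : a ≤ b := by
  by_contra hcon
  push Not at hcon
  nlinarith

theorem y32_step_root (Y D s : ℝ) (hY : 0 ≤ Y) (hD1 : -s ≤ D) (hD2 : D ≤ s) (hs : s ≤ Y) :
    (Y + D) * √(Y + D) ≤ Y * √Y + 3 / 2 * √Y * D + s * √s := by
  have hs0 : 0 ≤ s := by linarith
  have hYD : 0 ≤ Y + D := by linarith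
  obtain ⟨p, hp⟩ : ∃ p, p = √Y := ⟨_, rfl⟩
  obtain ⟨q, hq⟩ : ∃ q, q = √(Y + D) := ⟨_, rfl⟩
  obtain ⟨d, hd⟩ : ∃ d, d = √s := ⟨_, rfl⟩
  have hp0 : 0 ≤ p := by rw [hp]; positivity
  have hq0 : 0 ≤ q := by rw [hq]; positivity
  have hd0 : 0 ≤ d := by rw [hd]; positivity
  have hp2 : p * p = Y := by rw [hp]; exact Real.mul_self_sqrt hY
  have hq2 : q * q = Y + D := by rw [hq]; exact Real.mul_self_sqrt hYD
  have hd2 : d * d = s := by rw [hd]; exact Real.mul_self_sqrt hs0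
  rw [← hp, ← hq, ← hd, ← hp2, ← hd2]
  have hD : D = q * q - p * p := by rw [hq2, hp2]; ring
  rw [hD]
  -- `(q-p)^2 (q+p/2) ≤ d^3`
  have h1 : |q - p| * (q + p) ≤ d * d := by
    have h2 : |q - p| * (q + p) = |D| := by
      rw [hD, show q * q - p * p = (q - p) * (q + p) by ring, abs_mul, abs_of_nonneg (by linarith : 0 ≤ q + p)]
    rw [h2, hd2]
    exact abs_le.2 ⟨hD1, hD2⟩
  have hx0 : 0 ≤ |q - p| := abs_nonneg _
  have hxle : |q - p| ≤ q + p := abs_le.2 ⟨by linarith, by linarith⟩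
  have hxx : |q - p| * |q - p| = (q - p) * (q - p) := abs_mul_abs_self _
  obtain ⟨x, hx⟩ : ∃ x, x = |q - p| := ⟨_, rfl⟩
  rw [← hx] at h1 hx0 hxle hxx
  have hm : x * x * (q + p / 2) ≤ d * d * d := by
    refine y32_step_sq (by positivity) ?_
    have h3 : x * (q + p) * (x * (q + p)) * (x * (q + p)) ≤ d * d * (d * d) * (d * d) := by
      have h4 : 0 ≤ x * (q + p) := by positivity
      gcongr
    calc (x * x * (q + p / 2)) ^ 2 = x * x * x * (x * ((q + p / 2) * (q + p / 2))) := by ring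
      _ ≤ x * x * x * ((q + p) * ((q + p) * (q + p))) := by
          gcongr <;> linarith
      _ = x * (q + p) * (x * (q + p)) * (x * (q + p)) := by ring
      _ ≤ d * d * (d * d) * (d * d) := h3
      _ = (d * d * d) ^ 2 := by ring
  have h5 : (p * p + (q * q - p * p)) * q - (p * p * p + 3 / 2 * p * (q * q - p * p)) =
      x * x * (q + p / 2) := by
    rw [hxx]; ring
  linarith

theorem y32_step_rpow (x : ℝ) (hx : 0 ≤ x) : x ^ (3 / 2 : ℝ) = x * √x := by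
  rw [show (3 / 2 : ℝ) = 1 + 1 / 2 by norm_num, Real.rpow_add_of_nonneg hx (by norm_num) (by norm_num),
    Real.rpow_one, Real.sqrt_eq_rpow]

theorem y32_step_cube (a b : ℝ) : (a ^ 2 + b ^ 2) * √(a ^ 2 + b ^ 2) ≤ 4 * (|a| ^ 3 + |b| ^ 3) := by
  obtain ⟨x, hx⟩ : ∃ x, x = |a| := ⟨_, rfl⟩
  obtain ⟨y, hy⟩ : ∃ y, y = |b| := ⟨_, rfl⟩
  have hx0 : 0 ≤ x := by rw [hx]; positivity
  have hy0 : 0 ≤ y := by rw [hy]; positivity
  have hxa : a ^ 2 = x ^ 2 := by rw [hx, sq_abs]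
  have hyb : b ^ 2 = y ^ 2 := by rw [hy, sq_abs]
  rw [hxa, hyb, ← hx, ← hy]
  have h1 : √(x ^ 2 + y ^ 2) ≤ x + y := by
    rw [Real.sqrt_le_left (by positivity)]
    nlinarith [mul_nonneg hx0 hy0]
  calc (x ^ 2 + y ^ 2) * √(x ^ 2 + y ^ 2) ≤ (x ^ 2 + y ^ 2) * (x + y) := by gcongr
    _ ≤ 4 * (x ^ 3 + y ^ 3) := by
      nlinarith [mul_nonneg (add_nonneg hx0 hy0) (sq_nonneg (x - y)), mul_nonneg hx0 hy0,
        pow_nonneg hx0 3, pow_nonneg hy0 3]

theorem y32_step_pairs (n : ℕ) (A : Fin n → ℝ) (hA : ∑ k, A k = 0) :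
    ∑ p ∈ prs n, A p.1 * A p.2 = -(∑ k, A k ^ 2) / 2 := by
  have h0 : (∑ k, A k) * (∑ k, A k) = ∑ p : Fin n × Fin n, A p.1 * A p.2 := by
    rw [Finset.sum_mul_sum, ← Finset.sum_product']
    rfl
  rw [hA, mul_zero] at h0
  have h1 := Finset.sum_filter_add_sum_filter_not (Finset.univ : Finset (Fin n × Fin n))
    (fun p => p.1 < p.2) (fun p => A p.1 * A p.2)
  have h2 := Finset.sum_filter_add_sum_filter_not
    ((Finset.univ : Finset (Fin n × Fin n)).filter (fun p => ¬ p.1 < p.2))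
    (fun p => p.1 = p.2) (fun p => A p.1 * A p.2)
  have h3 : ∑ p ∈ ((Finset.univ : Finset (Fin n × Fin n)).filter (fun p => ¬ p.1 < p.2)).filter
      (fun p => p.1 = p.2), A p.1 * A p.2 = ∑ k, A k ^ 2 := by
    symm
    refine Finset.sum_bij (fun k _ => (k, k)) ?_ ?_ ?_ ?_
    · intro k _
      simp
    · intro a _ b _ h
      exact (Prod.mk.inj h).1
    · rintro ⟨a, b⟩ h
      simp only [Finset.mem_filter, Finset.mem_univ, true_and] at h
      exact ⟨a, Finset.mem_univ _, by rw [← h.2]⟩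
    · intro k _
      ring
  have h4 : ∑ p ∈ ((Finset.univ : Finset (Fin n × Fin n)).filter (fun p => ¬ p.1 < p.2)).filter
      (fun p => ¬ p.1 = p.2), A p.1 * A p.2 = ∑ p ∈ prs n, A p.1 * A p.2 := by
    symm
    refine Finset.sum_bij (fun p _ => (p.2, p.1)) ?_ ?_ ?_ ?_
    · rintro ⟨a, b⟩ h
      simp only [prs, Finset.mem_filter, Finset.mem_univ, true_and] at h ⊢
      exact ⟨not_lt.2 h.le, h.ne'⟩
    · rintro ⟨a, b⟩ _ ⟨c, d⟩ _ h
      simp only [Prod.mk.injEq] at h ⊢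
      exact ⟨h.2, h.1⟩
    · rintro ⟨a, b⟩ h
      simp only [Finset.mem_filter, Finset.mem_univ, true_and] at h
      refine ⟨(b, a), ?_, rfl⟩
      simp only [prs, Finset.mem_filter, Finset.mem_univ, true_and]
      exact lt_of_le_of_ne (not_lt.1 h.1) (fun h' => h.2 h'.symm)
    · rintro ⟨a, b⟩ _
      exact mul_comm _ _
  have h5 : ∑ p ∈ (Finset.univ : Finset (Fin n × Fin n)).filter (fun p => p.1 < p.2),
      A p.1 * A p.2 = ∑ p ∈ prs n, A p.1 * A p.2 := rfl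
  rw [h5, ← h2, h3, h4, ← h0] at h1
  linarith

theorem y32_step_T (n : ℕ) (A : Fin n → ℝ) (i j : Fin n) (hij : i ≠ j) (b : ℝ) :
    ∑ k, (T i j b A k) ^ 2 = (∑ k, A k ^ 2) +
      (-(A i ^ 2 + A j ^ 2) + (A i + A j) ^ 2 * (b ^ 2 + (1 - b) ^ 2)) := by
  have hj : j ∈ (Finset.univ : Finset (Fin n)).erase i := Finset.mem_erase.2 ⟨hij.symm, Finset.mem_univ _⟩
  rw [← Finset.add_sum_erase Finset.univ _ (Finset.mem_univ i), ← Finset.add_sum_erase _ _ hj,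
    ← Finset.add_sum_erase Finset.univ (fun k => A k ^ 2) (Finset.mem_univ i),
    ← Finset.add_sum_erase _ (fun k => A k ^ 2) hj]
  have h1 : ∑ k ∈ (Finset.univ.erase i).erase j, (T i j b A k) ^ 2 =
      ∑ k ∈ (Finset.univ.erase i).erase j, A k ^ 2 := by
    refine Finset.sum_congr rfl fun k hk => ?_
    rw [Finset.mem_erase, Finset.mem_erase] at hk
    unfold T
    rw [if_neg hk.2.1, if_neg hk.1]
  rw [h1]
  have h2 : T i j b A i = (A i + A j) * b := by unfold T; rw [if_pos rfl]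
  have h3 : T i j b A j = (A i + A j) * (1 - b) := by
    unfold T; rw [if_neg hij.symm, if_pos rfl]
  rw [h2, h3]
  ring

theorem y32_step (n : ℕ) (hn : 2 ≤ n) (hu : IsProbabilityMeasure unif) (h2 : mom 2 = 3 / 8)
    (hsw : ∀ g : ℝ → ℝ, ∫ θ, g (1 - (Real.cos θ) ^ 2) ∂unif = ∫ θ, g ((Real.cos θ) ^ 2) ∂unif)
    (hpair : ∀ f : Fin n → ℝ, ∑ p ∈ prs n, (f p.1 + f p.2) = ((n : ℝ) - 1) * ∑ k, f k ∧
      ((prs n).card : ℝ) = n * (n - 1) / 2 ∧ ∀ p ∈ prs n, p.1 ≠ p.2)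
    (A : Fin n → ℝ) (hA : ∑ k, A k = 0) :
    Qop n (fun B => ENNReal.ofReal ((∑ k, B k ^ 2) ^ (3 / 2 : ℝ))) A ≤
      ENNReal.ofReal ((1 - 3 / (4 * n)) * (∑ k, A k ^ 2) ^ (3 / 2 : ℝ) +
        20 / n * ∑ k, |A k| ^ (3 : ℝ)) := by
  have hn' : (2 : ℝ) ≤ n := by exact_mod_cast hn
  obtain ⟨Y, hY⟩ : ∃ Y, Y = ∑ k, A k ^ 2 := ⟨_, rfl⟩
  have hY0 : 0 ≤ Y := by rw [hY]; positivity
  obtain ⟨c, hc⟩ : ∃ c : ℝ → ℝ, c = fun θ => ((Real.cos θ) ^ 2) ^ 2 + (1 - (Real.cos θ) ^ 2) ^ 2 :=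
    ⟨_, rfl⟩
  have hc0 : ∀ θ, 0 ≤ c θ := fun θ => by rw [hc]; positivity
  have hc1 : ∀ θ, c θ ≤ 1 := fun θ => by
    rw [hc]
    have h3 : (Real.cos θ) ^ 2 ≤ 1 := Real.cos_sq_le_one θ
    have h4 : 0 ≤ (Real.cos θ) ^ 2 := sq_nonneg _
    dsimp only
    nlinarith
  have hci1 : Integrable (fun θ => ((Real.cos θ) ^ 2) ^ 2) unif := by
    refine Integrable.of_bound (by fun_prop) 1 (Eventually.of_forall fun θ => ?_)
    have h3 : (Real.cos θ) ^ 2 ≤ 1 := Real.cos_sq_le_one θ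
    have h4 : 0 ≤ (Real.cos θ) ^ 2 := sq_nonneg _
    rw [Real.norm_eq_abs, abs_of_nonneg (by positivity)]
    nlinarith
  have hci2 : Integrable (fun θ => (1 - (Real.cos θ) ^ 2) ^ 2) unif := by
    refine Integrable.of_bound (by fun_prop) 1 (Eventually.of_forall fun θ => ?_)
    have h3 : (Real.cos θ) ^ 2 ≤ 1 := Real.cos_sq_le_one θ
    have h4 : 0 ≤ (Real.cos θ) ^ 2 := sq_nonneg _
    rw [Real.norm_eq_abs, abs_of_nonneg (by positivity)]
    nlinarith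
  have hcint : Integrable c unif := by rw [hc]; exact hci1.add hci2
  have hcval : ∫ θ, c θ ∂unif = 3 / 4 := by
    rw [hc, integral_add hci1 hci2]
    have h3 : ∫ θ, ((Real.cos θ) ^ 2) ^ 2 ∂unif = 3 / 8 := by
      rw [← h2]
      unfold mom
      refine integral_congr_ae (Eventually.of_forall fun θ => ?_)
      dsimp only
      rw [Real.rpow_ofNat]
    rw [hsw (fun x => x ^ 2), h3]
    norm_num
  -- the bound for one pair
  obtain ⟨s, hs⟩ : ∃ s : Fin n × Fin n → ℝ, s = fun p => A p.1 ^ 2 + A p.2 ^ 2 := ⟨_, rfl⟩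
  obtain ⟨X, hX⟩ : ∃ X : Fin n × Fin n → ℝ, X = fun p => Y * √Y + 3 / 2 * √Y * (-(s p) +
    (A p.1 + A p.2) ^ 2 * (3 / 4)) + s p * √(s p) := ⟨_, rfl⟩
  have hsY : ∀ p ∈ prs n, s p ≤ Y := by
    intro p hp
    have hne := (hpair A).2.2 p hp
    rw [hs, hY]
    dsimp only
    rw [← Finset.sum_pair (f := fun k => A k ^ 2) hne]
    exact Finset.sum_le_sum_of_subset_of_nonneg (Finset.subset_univ _) (fun k _ _ => sq_nonneg _)
  have hs0 : ∀ p, 0 ≤ s p := fun p => by rw [hs]; positivity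
  have hpt : ∀ p ∈ prs n, ∀ θ, (∑ k, (T p.1 p.2 ((Real.cos θ) ^ 2) A k) ^ 2) ^ (3 / 2 : ℝ) ≤
      Y * √Y + 3 / 2 * √Y * (-(s p) + (A p.1 + A p.2) ^ 2 * c θ) + s p * √(s p) := by
    intro p hp θ
    rw [y32_step_T n A p.1 p.2 ((hpair A).2.2 p hp), ← hY]
    have e1 : -(A p.1 ^ 2 + A p.2 ^ 2) + (A p.1 + A p.2) ^ 2 * (((Real.cos θ) ^ 2) ^ 2 +
      (1 - (Real.cos θ) ^ 2) ^ 2) = -(s p) + (A p.1 + A p.2) ^ 2 * c θ := by rw [hs, hc]
    rw [e1]
    have hD1 : -(s p) ≤ -(s p) + (A p.1 + A p.2) ^ 2 * c θ := by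
      have := mul_nonneg (sq_nonneg (A p.1 + A p.2)) (hc0 θ)
      linarith
    have hD2 : -(s p) + (A p.1 + A p.2) ^ 2 * c θ ≤ s p := by
      have h3 := mul_le_mul_of_nonneg_left (hc1 θ) (sq_nonneg (A p.1 + A p.2))
      have h4 : (A p.1 + A p.2) ^ 2 ≤ 2 * s p := by
        rw [hs]
        dsimp only
        nlinarith [sq_nonneg (A p.1 - A p.2)]
      linarith
    rw [y32_step_rpow _ (by have := hsY p hp; linarith)]
    exact y32_step_root Y _ (s p) hY0 hD1 hD2 (hsY p hp)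
  have hlin : ∀ p ∈ prs n, ∫⁻ θ, ENNReal.ofReal ((∑ k, (T p.1 p.2 ((Real.cos θ) ^ 2) A k) ^ 2) ^
      (3 / 2 : ℝ)) ∂unif ≤ ENNReal.ofReal (X p) := by
    intro p hp
    have h3 : Integrable (fun θ => Y * √Y + 3 / 2 * √Y * (-(s p) + (A p.1 + A p.2) ^ 2 * c θ) +
        s p * √(s p)) unif :=
      ((integrable_const _).add (((integrable_const _).add (hcint.const_mul _)).const_mul _)).add
        (integrable_const _)
    have h4 : ∫ θ, (Y * √Y + 3 / 2 * √Y * (-(s p) + (A p.1 + A p.2) ^ 2 * c θ) +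
        s p * √(s p)) ∂unif = X p := by
      have h5 : (fun θ => Y * √Y + 3 / 2 * √Y * (-(s p) + (A p.1 + A p.2) ^ 2 * c θ) +
        s p * √(s p)) = fun θ => (Y * √Y + 3 / 2 * √Y * (-(s p)) + s p * √(s p)) +
          (3 / 2 * √Y * (A p.1 + A p.2) ^ 2) * c θ := by
        funext θ; ring
      rw [h5, integral_add (integrable_const _) (hcint.const_mul _), integral_const_mul, hcval,
        integral_const, probReal_univ, hX]
      simp only [smul_eq_mul]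
      ring
    calc _ ≤ ∫⁻ θ, ENNReal.ofReal (Y * √Y + 3 / 2 * √Y * (-(s p) + (A p.1 + A p.2) ^ 2 * c θ) +
        s p * √(s p)) ∂unif := lintegral_mono (fun θ => ENNReal.ofReal_le_ofReal (hpt p hp θ))
      _ = ENNReal.ofReal (X p) := by
        rw [← ofReal_integral_eq_lintegral_ofReal h3, h4]
        refine Eventually.of_forall fun θ => ?_
        exact le_trans (by positivity) (hpt p hp θ)
  have hX0 : ∀ p ∈ prs n, 0 ≤ X p := by
    intro p hp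
    have h3 : Integrable (fun θ => Y * √Y + 3 / 2 * √Y * (-(s p) + (A p.1 + A p.2) ^ 2 * c θ) +
        s p * √(s p)) unif :=
      ((integrable_const _).add (((integrable_const _).add (hcint.const_mul _)).const_mul _)).add
        (integrable_const _)
    have h4 : ∫ θ, (Y * √Y + 3 / 2 * √Y * (-(s p) + (A p.1 + A p.2) ^ 2 * c θ) +
        s p * √(s p)) ∂unif = X p := by
      have h5 : (fun θ => Y * √Y + 3 / 2 * √Y * (-(s p) + (A p.1 + A p.2) ^ 2 * c θ) +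
        s p * √(s p)) = fun θ => (Y * √Y + 3 / 2 * √Y * (-(s p)) + s p * √(s p)) +
          (3 / 2 * √Y * (A p.1 + A p.2) ^ 2) * c θ := by
        funext θ; ring
      rw [h5, integral_add (integrable_const _) (hcint.const_mul _), integral_const_mul, hcval,
        integral_const, probReal_univ, hX]
      simp only [smul_eq_mul]
      ring
    rw [← h4]
    exact integral_nonneg (fun θ => le_trans (by positivity) (hpt p hp θ))
  obtain ⟨N, hN⟩ : ∃ N : ℝ, N = ((prs n).card : ℝ) := ⟨_, rfl⟩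
  have hNv : N = n * (n - 1) / 2 := by rw [hN]; exact (hpair A).2.1
  have hN0 : 0 < N := by rw [hNv]; nlinarith
  have hcardinv : ((prs n).card : ℝ≥0∞)⁻¹ = ENNReal.ofReal (N⁻¹) := by
    rw [ENNReal.ofReal_inv_of_pos hN0, hN, ENNReal.ofReal_natCast]
  have hsum : Qop n (fun B => ENNReal.ofReal ((∑ k, B k ^ 2) ^ (3 / 2 : ℝ))) A ≤
      ENNReal.ofReal (N⁻¹ * ∑ p ∈ prs n, X p) := by
    unfold Qop
    rw [hcardinv, ENNReal.ofReal_mul (by positivity), ENNReal.ofReal_sum_of_nonneg hX0]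
    gcongr with p hp
    exact hlin p hp
  refine hsum.trans (ENNReal.ofReal_le_ofReal ?_)
  rw [← hY, y32_step_rpow Y hY0]
  -- the sum of `X`
  have hcube : ∀ p ∈ prs n, X p ≤ Y * √Y + (3 / 2 * √Y) * (-(1 / 4) * (A p.1 ^ 2 + A p.2 ^ 2) +
      3 / 2 * (A p.1 * A p.2)) + 4 * (|A p.1| ^ 3 + |A p.2| ^ 3) := by
    intro p _
    have h3 := y32_step_cube (A p.1) (A p.2)
    rw [hX, hs]
    dsimp only
    have h4 : 3 / 2 * √Y * (-(A p.1 ^ 2 + A p.2 ^ 2) + (A p.1 + A p.2) ^ 2 * (3 / 4)) =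
      (3 / 2 * √Y) * (-(1 / 4) * (A p.1 ^ 2 + A p.2 ^ 2) + 3 / 2 * (A p.1 * A p.2)) := by ring
    rw [h4]
    linarith
  have hS : ∑ p ∈ prs n, X p ≤ N * (Y * √Y) + (3 / 2 * √Y) * (-(1 / 4) * ((n - 1) * Y) +
      3 / 2 * (-Y / 2)) + 4 * ((n - 1) * ∑ k, |A k| ^ 3) := by
    refine (Finset.sum_le_sum hcube).trans (le_of_eq ?_)
    rw [Finset.sum_add_distrib, Finset.sum_add_distrib, Finset.sum_const, nsmul_eq_mul, ← hN,
      ← Finset.mul_sum, Finset.sum_add_distrib, ← Finset.mul_sum, ← Finset.mul_sum,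
      ← Finset.mul_sum, (hpair (fun k => A k ^ 2)).1, (hpair (fun k => |A k| ^ 3)).1,
      y32_step_pairs n A hA, ← hY]
  have h3r : ∀ k, |A k| ^ (3 : ℝ) = |A k| ^ 3 := fun k => by rw [Real.rpow_ofNat]
  simp only [h3r]
  obtain ⟨Z, hZ⟩ : ∃ Z, Z = ∑ k, |A k| ^ 3 := ⟨_, rfl⟩
  have hZ0 : 0 ≤ Z := by rw [hZ]; positivity
  rw [← hZ] at hS ⊢
  have hnn : (n : ℝ) ≠ 0 := by linarith
  have hn1 : (n : ℝ) - 1 ≠ 0 := by linarith
  have hW : 0 ≤ Y * √Y := by positivity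
  calc N⁻¹ * ∑ p ∈ prs n, X p ≤ N⁻¹ * (N * (Y * √Y) + (3 / 2 * √Y) * (-(1 / 4) * ((n - 1) * Y) +
      3 / 2 * (-Y / 2)) + 4 * ((n - 1) * Z)) := by gcongr
    _ = (1 - 3 / (4 * n) - 9 / (4 * (n * (n - 1)))) * (Y * √Y) + 8 / n * Z := by
      rw [hNv]
      field_simp
      ring
    _ ≤ (1 - 3 / (4 * n)) * (Y * √Y) + 20 / n * Z := by
      have e1 : 0 ≤ 9 / (4 * ((n : ℝ) * (n - 1))) := by
        apply div_nonneg (by norm_num)
        have : (0 : ℝ) ≤ n - 1 := by linarith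
        positivity
      have e2 : 8 / (n : ℝ) * Z ≤ 20 / n * Z := by gcongr; norm_num
      nlinarith [mul_nonneg e1 hW]

end Pool.Agent.H494.Kac
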