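import Pool.Agent.H494.Kac.Defs2

open MeasureTheory Filter Topology
open scoped ENNReal

namespace Pool.Agent.H494.Kac

theorem ys_T {n : ℕ} {i j : Fin n} (hij : i ≠ j) (b : ℝ) (A : Fin n → ℝ) :
    ∑ k, (T i j b A k) ^ 2 = ∑ k, A k ^ 2 - A i ^ 2 - A j ^ 2 +
      (A i + A j) ^ 2 * (b ^ 2 + (1 - b) ^ 2) := by
  have h : ∑ k, ((T i j b A k) ^ 2 - A k ^ 2) =
      ((T i j b A i) ^ 2 - A i ^ 2) + ((T i j b A j) ^ 2 - A j ^ 2) := by
    refine Fintype.sum_eq_add i j hij fun k hk => ?_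
    unfold T
    rw [if_neg hk.1, if_neg hk.2, sub_self]
  have hi : T i j b A i = (A i + A j) * b := by unfold T; rw [if_pos rfl]
  have hj : T i j b A j = (A i + A j) * (1 - b) := by
    unfold T; rw [if_neg hij.symm, if_pos rfl]
  rw [Finset.sum_sub_distrib, hi, hj] at h
  linear_combination h

theorem ys_pairs {n : ℕ} (A : Fin n → ℝ) :
    2 * ∑ p ∈ prs n, A p.1 * A p.2 = (∑ k, A k) ^ 2 - ∑ k, A k ^ 2 := by
  have h1 : ∑ p ∈ prs n, A p.1 * A p.2 = ∑ i, ∑ j, if i < j then A i * A j else 0 := by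
    unfold prs
    rw [Finset.sum_filter, Fintype.sum_prod_type]
  have h2 : ∑ i, ∑ j, (if j < i then A i * A j else 0) =
      ∑ i, ∑ j, if i < j then A i * A j else 0 := by
    rw [Finset.sum_comm]
    refine Finset.sum_congr rfl fun i _ => Finset.sum_congr rfl fun j _ => ?_
    rw [mul_comm]
  have h3 : ∑ i, ∑ j, (if i = j then A i * A j else 0) = ∑ k, A k ^ 2 := by
    refine Finset.sum_congr rfl fun i _ => ?_
    rw [Finset.sum_ite_eq Finset.univ i, if_pos (Finset.mem_univ _), sq]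
  have h4 : (∑ k, A k) ^ 2 = ∑ i, ∑ j, ((if i < j then A i * A j else 0) +
      (if j < i then A i * A j else 0) + (if i = j then A i * A j else 0)) := by
    rw [sq, Finset.sum_mul_sum]
    refine Finset.sum_congr rfl fun i _ => Finset.sum_congr rfl fun j _ => ?_
    rcases lt_trichotomy i j with h | h | h
    · rw [if_pos h, if_neg (not_lt.2 h.le), if_neg h.ne]; ring
    · subst h
      simp
    · rw [if_neg (not_lt.2 h.le), if_pos h, if_neg h.ne']; ring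
  simp only [Finset.sum_add_distrib] at h4
  rw [h4, h1, h2, h3]
  ring

theorem y_step (n : ℕ) (hn : 2 ≤ n) (hu : IsProbabilityMeasure unif) (h2 : mom 2 = 3 / 8)
    (hsw : ∀ g : ℝ → ℝ, ∫ θ, g (1 - (Real.cos θ) ^ 2) ∂unif = ∫ θ, g ((Real.cos θ) ^ 2) ∂unif)
    (hpair : ∀ f : Fin n → ℝ, ∑ p ∈ prs n, (f p.1 + f p.2) = ((n : ℝ) - 1) * ∑ k, f k ∧
      ((prs n).card : ℝ) = n * (n - 1) / 2 ∧ ∀ p ∈ prs n, p.1 ≠ p.2)
    (A : Fin n → ℝ) (hA : ∑ k, A k = 0) :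
    Qop n (fun B => ENNReal.ofReal (∑ k, B k ^ 2)) A ≤
      ENNReal.ofReal ((1 - 1 / (2 * n)) * ∑ k, A k ^ 2) := by
  have hn' : (2:ℝ) ≤ n := by exact_mod_cast hn
  obtain ⟨_, hcard, hne⟩ := hpair A
  have hsqs := (hpair (fun k => A k ^ 2)).1
  -- integrals
  have hb : ∀ θ : ℝ, 0 ≤ (Real.cos θ) ^ 2 ∧ (Real.cos θ) ^ 2 ≤ 1 := fun θ =>
    ⟨sq_nonneg _, Real.cos_sq_le_one θ⟩
  have i1 : Integrable (fun θ : ℝ => ((Real.cos θ) ^ 2) ^ 2) unif := by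
    refine Integrable.of_bound (Continuous.aestronglyMeasurable (by fun_prop)) 1
      (Filter.Eventually.of_forall fun θ => ?_)
    rw [Real.norm_of_nonneg (by positivity)]
    exact pow_le_one₀ (hb θ).1 (hb θ).2
  have i2 : Integrable (fun θ : ℝ => (1 - (Real.cos θ) ^ 2) ^ 2) unif := by
    refine Integrable.of_bound (Continuous.aestronglyMeasurable (by fun_prop)) 1
      (Filter.Eventually.of_forall fun θ => ?_)
    rw [Real.norm_of_nonneg (by positivity)]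
    exact pow_le_one₀ (by linarith [(hb θ).2]) (by linarith [(hb θ).1])
  have e1 : ∫ θ, ((Real.cos θ) ^ 2) ^ 2 ∂unif = 3 / 8 := by
    rw [← h2]
    unfold mom
    refine integral_congr_ae (Filter.Eventually.of_forall fun θ => ?_)
    show ((Real.cos θ) ^ 2) ^ 2 = ((Real.cos θ) ^ 2) ^ (2 : ℝ)
    rw [Real.rpow_two]
  have e2 : ∫ θ, (1 - (Real.cos θ) ^ 2) ^ 2 ∂unif = 3 / 8 := by
    rw [← e1]
    exact hsw (fun x => x ^ 2)
  set Y := ∑ k, A k ^ 2 with hY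
  have hYn : 0 ≤ Y := Finset.sum_nonneg fun k _ => sq_nonneg _
  have hterm : ∀ p ∈ prs n, 0 ≤ Y - A p.1 ^ 2 - A p.2 ^ 2 + (A p.1 + A p.2) ^ 2 * (3 / 4) ∧
      ∫⁻ θ, ENNReal.ofReal (∑ k, (T p.1 p.2 ((Real.cos θ) ^ 2) A k) ^ 2) ∂unif =
      ENNReal.ofReal (Y - A p.1 ^ 2 - A p.2 ^ 2 + (A p.1 + A p.2) ^ 2 * (3 / 4)) := by
    intro p hp
    have hpne := hne p hp
    have e3 : ∀ θ : ℝ, ∑ k, (T p.1 p.2 ((Real.cos θ) ^ 2) A k) ^ 2 =
        (Y - A p.1 ^ 2 - A p.2 ^ 2) + (A p.1 + A p.2) ^ 2 *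
          (((Real.cos θ) ^ 2) ^ 2 + (1 - (Real.cos θ) ^ 2) ^ 2) := fun θ => ys_T hpne _ A
    have i3 : Integrable (fun θ : ℝ => (Y - A p.1 ^ 2 - A p.2 ^ 2) + (A p.1 + A p.2) ^ 2 *
          (((Real.cos θ) ^ 2) ^ 2 + (1 - (Real.cos θ) ^ 2) ^ 2)) unif :=
      (integrable_const _).add ((i1.add i2).const_mul _)
    have e4 : ∫ θ, ((Y - A p.1 ^ 2 - A p.2 ^ 2) + (A p.1 + A p.2) ^ 2 *
          (((Real.cos θ) ^ 2) ^ 2 + (1 - (Real.cos θ) ^ 2) ^ 2)) ∂unif =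
        Y - A p.1 ^ 2 - A p.2 ^ 2 + (A p.1 + A p.2) ^ 2 * (3 / 4) := by
      have i12 : Integrable (fun θ : ℝ => ((Real.cos θ) ^ 2) ^ 2 + (1 - (Real.cos θ) ^ 2) ^ 2) unif :=
        i1.add i2
      rw [integral_add (integrable_const _) (i12.const_mul _), integral_const_mul,
        integral_add i1 i2, e1, e2, integral_const, probReal_univ, one_smul]
      ring
    have hnn : ∀ θ : ℝ, 0 ≤ (Y - A p.1 ^ 2 - A p.2 ^ 2) + (A p.1 + A p.2) ^ 2 *
          (((Real.cos θ) ^ 2) ^ 2 + (1 - (Real.cos θ) ^ 2) ^ 2) := by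
      intro θ
      rw [← e3]
      exact Finset.sum_nonneg fun k _ => sq_nonneg _
    refine ⟨?_, ?_⟩
    · rw [← e4]
      exact integral_nonneg hnn
    · simp only [e3]
      rw [← ofReal_integral_eq_lintegral_ofReal i3 (Filter.Eventually.of_forall hnn), e4]
  unfold Qop
  have hsum : ∑ p ∈ prs n, ∫⁻ θ, ENNReal.ofReal (∑ k, (T p.1 p.2 ((Real.cos θ) ^ 2) A k) ^ 2) ∂unif =
      ENNReal.ofReal (∑ p ∈ prs n,
        (Y - A p.1 ^ 2 - A p.2 ^ 2 + (A p.1 + A p.2) ^ 2 * (3 / 4))) := by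
    rw [ENNReal.ofReal_sum_of_nonneg (fun p hp => (hterm p hp).1)]
    exact Finset.sum_congr rfl fun p hp => (hterm p hp).2
  have hcpos : (0:ℝ) < (prs n).card := by
    rw [hcard]
    have : (0:ℝ) < n * (n - 1) := by nlinarith
    linarith
  rw [hsum]
  have hinv : ((prs n).card : ℝ≥0∞)⁻¹ = ENNReal.ofReal (((prs n).card : ℝ)⁻¹) := by
    rw [ENNReal.ofReal_inv_of_pos hcpos, ENNReal.ofReal_natCast]
  rw [hinv, ← ENNReal.ofReal_mul (by positivity)]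
  refine ENNReal.ofReal_le_ofReal ?_
  have hS : ∑ p ∈ prs n, (Y - A p.1 ^ 2 - A p.2 ^ 2 + (A p.1 + A p.2) ^ 2 * (3 / 4)) =
      ((prs n).card : ℝ) * Y - (1 / 4) * (((n:ℝ) - 1) * Y) - (3 / 4) * Y := by
    have h5 : ∀ p ∈ prs n, Y - A p.1 ^ 2 - A p.2 ^ 2 + (A p.1 + A p.2) ^ 2 * (3 / 4) =
        Y - (1 / 4) * (A p.1 ^ 2 + A p.2 ^ 2) + (3 / 2) * (A p.1 * A p.2) := fun p _ => by ring
    rw [Finset.sum_congr rfl h5, Finset.sum_add_distrib, Finset.sum_sub_distrib,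
      Finset.sum_const, nsmul_eq_mul, ← Finset.mul_sum, ← Finset.mul_sum, hsqs]
    have h6 := ys_pairs A
    rw [hA] at h6
    linear_combination (3 / 4) * h6
  rw [hS, inv_mul_le_iff₀ hcpos, hcard]
  have h7 : (n:ℝ) * (n - 1) / 2 * ((1 - 1 / (2 * n)) * Y) =
      (n:ℝ) * (n - 1) / 2 * Y - (n - 1) / 4 * Y := by
    have : (n:ℝ) ≠ 0 := by linarith
    field_simp
    ring
  rw [h7]
  nlinarith

end Pool.Agent.H494.Kac
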