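import Mathlib

open MeasureTheory Filter Topology
open scoped ENNReal

namespace Pool.Agent.H494.Kac

/-- `ℝⁿ` -/
abbrev E (n : ℕ) := EuclideanSpace ℝ (Fin n)

/-- the rotation by the angle `θ` in the `(i, j)` coordinate plane -/
noncomputable def rot {n : ℕ} (i j : Fin n) (θ : ℝ) (v : E n) : E n :=
  WithLp.toLp 2 (fun k => if k = i then v i * Real.cos θ - v j * Real.sin θ
    else if k = j then v i * Real.sin θ + v j * Real.cos θ else v k)

/-- the pairs `i < j` of coordinates -/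
def prs (n : ℕ) : Finset (Fin n × Fin n) := Finset.univ.filter (fun p => p.1 < p.2)

/-- the uniform probability measure on `[0, 2π)` -/
noncomputable def unif : Measure ℝ :=
  (ENNReal.ofReal (2 * Real.pi))⁻¹ • volume.restrict (Set.Ico 0 (2 * Real.pi))

/-- the law of one step of Kac's walk from `v`: a uniform pair `i < j` and a uniform angle -/
noncomputable def stepLaw (n : ℕ) (v : E n) : Measure (E n) :=
  ((prs n).card : ℝ≥0∞)⁻¹ • ∑ p ∈ prs n, unif.map (fun θ => rot p.1 p.2 θ v)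

/-- the law of Kac's walk after `t` steps from `x` -/
noncomputable def law (n : ℕ) (x : E n) : ℕ → Measure (E n)
  | 0 => Measure.dirac x
  | t + 1 => (law n x t).bind (stepLaw n)

/-- `π` is the uniform measure on the unit sphere: the probability measure carried by the sphere
which is invariant under all linear isometries -/
structure IsUnif (n : ℕ) (π : Measure (E n)) : Prop where
  prob : IsProbabilityMeasure π
  supp : ∀ᵐ v ∂π, ‖v‖ = 1
  inv : ∀ g : E n ≃ₗᵢ[ℝ] E n, π.map g = π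

/-- `E[B^p]` for `B = cos² θ`, `θ` uniform -/
noncomputable def mom (p : ℝ) : ℝ := ∫ θ, ((Real.cos θ) ^ 2) ^ p ∂unif

/-- the constant `c* = sup_{p > 0} (1 - 2 E[B^p]) / p` -/
noncomputable def cstar : ℝ := ⨆ p : {p : ℝ // 0 < p}, (1 - 2 * mom p) / p

/-- `E[B^p log (1/B)]` -/
noncomputable def lm (p : ℝ) : ℝ :=
  ∫ θ, -(((Real.cos θ) ^ 2) ^ p * Real.log ((Real.cos θ) ^ 2)) ∂unif

/-- `E[B^p (log B)^2]` -/
noncomputable def lm2 (p : ℝ) : ℝ :=
  ∫ θ, ((Real.cos θ) ^ 2) ^ p * (Real.log ((Real.cos θ) ^ 2)) ^ 2 ∂unif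

/-- collision of the masses at `i` and `j` -/
def T {n : ℕ} (i j : Fin n) (b : ℝ) (A : Fin n → ℝ) : Fin n → ℝ := fun k =>
  if k = i then (A i + A j) * b else if k = j then (A i + A j) * (1 - b) else A k

/-- one step of the chain of the masses `v_k ^ 2` -/
noncomputable def Qop (n : ℕ) (g : (Fin n → ℝ) → ℝ≥0∞) (A : Fin n → ℝ) : ℝ≥0∞ :=
  ((prs n).card : ℝ≥0∞)⁻¹ * ∑ p ∈ prs n, ∫⁻ θ, g (T p.1 p.2 ((Real.cos θ) ^ 2) A) ∂unif

end Pool.Agent.H494.Kac
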