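import Pool.Agent.H494.Kac.Defs

open MeasureTheory Filter Topology
open scoped ENNReal

namespace Pool.Agent.H494.Kac

/-- the standard Gaussian measure on `ℝⁿ` -/
noncomputable def gam (n : ℕ) : Measure (Fin n → ℝ) :=
  Measure.pi (fun _ => ProbabilityTheory.gaussianReal 0 1)

/-- `(w i, w j)` replaced by `r (cos θ, sin θ)`, `r = √(w i ^ 2 + w j ^ 2)` -/
noncomputable def pol {n : ℕ} (i j : Fin n) (θ : ℝ) (w : Fin n → ℝ) : Fin n → ℝ := fun k =>
  if k = i then √(w i ^ 2 + w j ^ 2) * Real.cos θ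
  else if k = j then √(w i ^ 2 + w j ^ 2) * Real.sin θ else w k

/-- the rows `i` and `j` of `M` replaced by their average with the weights `b`, `1 - b` -/
def mixR {n : ℕ} (i j : Fin n) (b : ℝ) (M : Fin n → Fin n → ℝ) : Fin n → Fin n → ℝ := fun k l =>
  if k = i ∨ k = j then b * M i l + (1 - b) * M j l else M k l

/-- one step of the averaging chain -/
noncomputable def avgStep (n : ℕ) (M : Fin n → Fin n → ℝ) : Measure (Fin n → Fin n → ℝ) :=
  ((prs n).card : ℝ≥0∞)⁻¹ • ∑ p ∈ prs n,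
    unif.map (fun φ => mixR p.1 p.2 ((Real.cos φ) ^ 2) M)

/-- the identity matrix -/
def idm (n : ℕ) : Fin n → Fin n → ℝ := fun i k => if i = k then 1 else 0

/-- the law of the averaging chain after `t` steps -/
noncomputable def avgLaw (n : ℕ) : ℕ → Measure (Fin n → Fin n → ℝ)
  | 0 => Measure.dirac (idm n)
  | t + 1 => (avgLaw n t).bind (avgStep n)

/-- `∑ j, w j ^ 2 * M j k` -/
noncomputable def cs {n : ℕ} (M : Fin n → Fin n → ℝ) (w : Fin n → ℝ) (k : Fin n) : ℝ :=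
  ∑ j, w j ^ 2 * M j k

/-- the state of the walk in terms of the averaging chain `M` and a Gaussian vector `w` -/
noncomputable def Psi {n : ℕ} (x : Fin n → ℝ) (M : Fin n → Fin n → ℝ) (w : Fin n → ℝ) :
    Fin n → ℝ := fun i => w i * √(∑ k, x k ^ 2 * M i k / cs M w k)

/-- masses of the walk from `e_k` minus masses of the stationary walk -/
noncomputable def Dv {n : ℕ} (k : Fin n) (M : Fin n → Fin n → ℝ) (w : Fin n → ℝ) : Fin n → ℝ :=
  fun i => w i ^ 2 * M i k / cs M w k - w i ^ 2 / ∑ j, w j ^ 2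

/-- the column `k` of `M`, normalised to have sum `n` -/
noncomputable def col {n : ℕ} (M : Fin n → Fin n → ℝ) (k i : Fin n) : ℝ :=
  n * M i k / ∑ j, M j k

/-- flip of the sign of coordinate `k` -/
noncomputable def flp {n : ℕ} (k : Fin n) (x : E n) : E n :=
  WithLp.toLp 2 (fun l => if l = k then -x l else x l)

/-- density of `N(0, 1 + x)` with respect to `N(0, 1)` -/
noncomputable def gd (x v : ℝ) : ℝ := (1 + x) ^ (-(1 / 2) : ℝ) * Real.exp (v ^ 2 * x / (2 * (1 + x)))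

/-- `∑ j, a k j * w j ^ 2` -/
noncomputable def zs {n : ℕ} (a : Fin n → Fin n → ℝ) (w : Fin n → ℝ) (k : Fin n) : ℝ :=
  ∑ j, a k j * w j ^ 2

/-- the multiplier of the mass `i` -/
noncomputable def gf {n : ℕ} (a : Fin n → Fin n → ℝ) (p w : Fin n → ℝ) (i : Fin n) : ℝ :=
  (∑ j, w j ^ 2) * ∑ k, p k * a k i / zs a w k

/-- `∑ k, p k * a k i` -/
noncomputable def bv {n : ℕ} (a : Fin n → Fin n → ℝ) (p : Fin n → ℝ) (i : Fin n) : ℝ :=
  ∑ k, p k * a k i

/-- the map `w ↦ w √(g(w) / b)` -/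
noncomputable def Th {n : ℕ} (a : Fin n → Fin n → ℝ) (p w : Fin n → ℝ) : Fin n → ℝ :=
  fun i => w i * √(gf a p w i / bv a p i)

/-- the Markov kernel in the derivative of `Th` -/
noncomputable def Kf {n : ℕ} (a : Fin n → Fin n → ℝ) (p w : Fin n → ℝ) :
    Matrix (Fin n) (Fin n) ℝ := Matrix.of fun i j =>
  ∑ k, (p k * a k i / zs a w k) / (∑ l, p l * a l i / zs a w l) * (a k j * w j ^ 2 / zs a w k)

/-- the matrix `1 - K + 1 qᵀ`, `q = w ^ 2 / |w| ^ 2` -/
noncomputable def Jf {n : ℕ} (a : Fin n → Fin n → ℝ) (p w : Fin n → ℝ) :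
    Matrix (Fin n) (Fin n) ℝ := 1 - Kf a p w + Matrix.of (fun _ j => w j ^ 2 / ∑ l, w l ^ 2)

/-- the derivative of `Th` -/
noncomputable def JT {n : ℕ} (a : Fin n → Fin n → ℝ) (p w : Fin n → ℝ) :
    Matrix (Fin n) (Fin n) ℝ := Matrix.of fun i j =>
  √(gf a p w i / bv a p i) * (w i / w j) * Jf a p w i j

/-- truncated fluctuations of the column `k` -/
noncomputable def trc {n : ℕ} (M : Fin n → Fin n → ℝ) (k i : Fin n) : ℝ :=
  if |col M k i - 1| ≤ 1 / 30 ∧ ∑ j, (col M k j - 1) ^ 2 ≤ (n : ℝ) ^ (2 / 5 : ℝ) then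
    col M k i - 1 else 0

end Pool.Agent.H494.Kac
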