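import Pool.Agent.H494.Kac.Defs

open MeasureTheory Filter Topology
open scoped ENNReal

namespace Pool.Agent.H494.Kac
theorem asym_tend (s : ℝ) (hs : 0 < s) :
    Tendsto (fun n : ℕ => (n : ℝ) ^ (-s)) atTop (𝓝 0) :=
  (tendsto_rpow_neg_atTop hs).comp tendsto_natCast_atTop_atTop

theorem asym_pi : 0 ≤ 4 / Real.pi - 1 ∧ 4 / Real.pi - 1 ≤ 3 / 10 := by
  have h1 := Real.pi_gt_d2
  have h2 := Real.pi_le_four
  have hp := Real.pi_pos
  constructor
  · rw [sub_nonneg, le_div_iff₀ hp]; linarith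
  · rw [sub_le_iff_le_add, div_le_iff₀ hp]; linarith

/-- the second error term -/
theorem asym_term (δ : ℝ) (hδ : 0 < δ) (n : ℕ) (hn : 2 ≤ n) (t : ℝ)
    (ht : t ≤ δ / 8 * n * Real.log n / 2 + 1) :
    (√((n : ℝ) ^ (δ / 8)))⁻¹ * Real.exp (t * (2 / n * (4 / Real.pi - 1))) ≤
      Real.exp 1 * (n : ℝ) ^ (-(δ / 40)) := by
  have hn2 : (2 : ℝ) ≤ n := by exact_mod_cast hn
  have hn0 : (0 : ℝ) < n := by linarith
  obtain ⟨p1, p2⟩ := asym_pi
  have hlog : 0 ≤ Real.log n := Real.log_nonneg (by linarith)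
  have h1 : (√((n : ℝ) ^ (δ / 8)))⁻¹ = (n : ℝ) ^ (-(δ / 16)) := by
    rw [Real.sqrt_eq_rpow, ← Real.rpow_mul hn0.le, ← Real.rpow_neg hn0.le]
    congr 1; ring
  have h2 : t * (2 / n * (4 / Real.pi - 1)) ≤ 1 + (3 * δ / 80) * Real.log n := by
    have hc : 0 ≤ 2 / (n : ℝ) * (4 / Real.pi - 1) := mul_nonneg (by positivity) p1
    have hc2 : 2 / (n : ℝ) * (4 / Real.pi - 1) ≤ 2 / (n : ℝ) * (3 / 10) :=
      mul_le_mul_of_nonneg_left p2 (by positivity)
    calc t * (2 / n * (4 / Real.pi - 1))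
        ≤ (δ / 8 * n * Real.log n / 2 + 1) * (2 / n * (4 / Real.pi - 1)) :=
          mul_le_mul_of_nonneg_right ht hc
      _ ≤ (δ / 8 * n * Real.log n / 2 + 1) * (2 / n * (3 / 10)) :=
          mul_le_mul_of_nonneg_left hc2 (by positivity)
      _ = (3 * δ / 80) * Real.log n + 2 / n * (3 / 10) := by
          field_simp
          ring
      _ ≤ 1 + (3 * δ / 80) * Real.log n := by
          have : 2 / (n : ℝ) ≤ 1 := by rw [div_le_one hn0]; exact hn2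
          linarith
  rw [h1]
  calc (n : ℝ) ^ (-(δ / 16)) * Real.exp (t * (2 / n * (4 / Real.pi - 1)))
      ≤ (n : ℝ) ^ (-(δ / 16)) * Real.exp (1 + (3 * δ / 80) * Real.log n) :=
        mul_le_mul_of_nonneg_left (Real.exp_le_exp.mpr h2) (Real.rpow_nonneg hn0.le _)
    _ = Real.exp 1 * (n : ℝ) ^ (-(δ / 40)) := by
        rw [Real.exp_add, Real.rpow_def_of_pos hn0, Real.rpow_def_of_pos hn0]
        rw [mul_comm (Real.exp (Real.log n * -(δ / 16))), mul_assoc, ← Real.exp_add]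
        congr 2
        ring

theorem asym (δ c v Y L l0 l1 h0 b ε : ℝ) (hδ : 0 < δ) (hδ1 : δ < 1) (hc : 0 < c)
    (hv : v = c * (1 + δ / 2)) (hY : 1 ≤ Y) (hl0 : 0 < l0) (hl1 : 0 < l1) (hh0 : 0 < h0)
    (hb : 0 < b) (hε : 0 < ε) :
    ∀ᶠ n : ℕ in atTop, 2 ≤ n ∧ 2 * v / n ≤ h0 ∧ L * (2 * v / n) * (1 + l0) ≤ l1 ∧
      2 / n * (1 + l0) ≤ 1 ∧ 2 * (n : ℝ) ^ (1 - δ / 4) / (n - 1) ≤ l0 / 2 ∧
      (∀ t : ℝ, t ≤ (1 - δ) * (n * Real.log n) / (2 * c) →
        Y * (n : ℝ) ^ (δ / 8) * Real.exp (2 * v / n * t) ≤ (n : ℝ) ^ (1 - δ / 4)) ∧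
      (∀ t : ℝ, δ / 8 * n * Real.log n / 2 ≤ t → t ≤ δ / 8 * n * Real.log n / 2 + 1 →
        b * (Real.exp (-(t / (2 * n))) + 3 / (n - 1)) +
          2 * (√((n : ℝ) ^ (δ / 8)))⁻¹ * Real.exp (t * (2 / n * (4 / Real.pi - 1))) ≤ ε) ∧
      (∀ t : ℝ, t ≤ δ / 8 * n * Real.log n / 2 + 1 →
        (√((n : ℝ) ^ (δ / 8)))⁻¹ * Real.exp (t * (2 / n * (4 / Real.pi - 1))) ≤ ε) ∧
      (n : ℝ) ^ (-1 + δ / 4) ≤ ((n : ℝ) ^ (δ / 8))⁻¹ := by
  have T0 := tendsto_natCast_atTop_atTop (R := ℝ)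
  have hv0 : 0 < v := by rw [hv]; positivity
  have e1 : ∀ᶠ n : ℕ in atTop, 2 ≤ n := eventually_ge_atTop 2
  have e2 : ∀ᶠ n : ℕ in atTop, 2 * v / n ≤ h0 :=
    (tendsto_const_div_atTop_nhds_zero_nat (2 * v)).eventually_le_const hh0
  have e3 : ∀ᶠ n : ℕ in atTop, L * (2 * v / n) * (1 + l0) ≤ l1 := by
    have := ((tendsto_const_div_atTop_nhds_zero_nat (2 * v)).const_mul L).mul_const (1 + l0)
    rw [mul_zero, zero_mul] at this
    exact this.eventually_le_const hl1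
  have e4 : ∀ᶠ n : ℕ in atTop, 2 / (n : ℝ) * (1 + l0) ≤ 1 := by
    have := (tendsto_const_div_atTop_nhds_zero_nat (2 : ℝ)).mul_const (1 + l0)
    rw [zero_mul] at this
    exact this.eventually_le_const one_pos
  have e5 : ∀ᶠ n : ℕ in atTop, 4 * (n : ℝ) ^ (-(δ / 4)) ≤ l0 / 2 := by
    have := (asym_tend (δ / 4) (by positivity)).const_mul 4
    rw [mul_zero] at this
    exact this.eventually_le_const (by positivity)
  have e6 : ∀ᶠ n : ℕ in atTop, Y ≤ (n : ℝ) ^ (δ / 8) :=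
    ((tendsto_rpow_atTop (show 0 < δ / 8 by positivity)).comp T0).eventually_ge_atTop Y
  have e7 : ∀ᶠ n : ℕ in atTop, b * ((n : ℝ) ^ (-(δ / 32)) + 6 / n) +
      2 * (Real.exp 1 * (n : ℝ) ^ (-(δ / 40))) ≤ ε := by
    have h1 := (((asym_tend (δ / 32) (by positivity)).add
      (tendsto_const_div_atTop_nhds_zero_nat (6 : ℝ))).const_mul b).add
      (((asym_tend (δ / 40) (by positivity)).const_mul (Real.exp 1)).const_mul 2)
    simp only [add_zero, mul_zero] at h1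
    exact h1.eventually_le_const hε
  have e8 : ∀ᶠ n : ℕ in atTop, Real.exp 1 * (n : ℝ) ^ (-(δ / 40)) ≤ ε := by
    have := (asym_tend (δ / 40) (by positivity)).const_mul (Real.exp 1)
    rw [mul_zero] at this
    exact this.eventually_le_const hε
  filter_upwards [e1, e2, e3, e4, e5, e6, e7, e8] with n k1 k2 k3 k4 k5 k6 k7 k8
  have hn2 : (2 : ℝ) ≤ n := by exact_mod_cast k1
  have hn0 : (0 : ℝ) < n := by linarith
  have hn1 : (1 : ℝ) ≤ n := by linarith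
  have hlog : 0 ≤ Real.log n := Real.log_nonneg hn1
  refine ⟨k1, k2, k3, k4, ?_, ?_, ?_, ?_, ?_⟩
  · refine le_trans ?_ k5
    have h1 : (n : ℝ) ^ (1 - δ / 4) = n * (n : ℝ) ^ (-(δ / 4)) := by
      rw [sub_eq_add_neg, Real.rpow_add hn0, Real.rpow_one]
    rw [h1, div_le_iff₀ (by linarith)]
    have h2 : 0 ≤ (n : ℝ) ^ (-(δ / 4)) := Real.rpow_nonneg hn0.le _
    nlinarith
  · intro t ht
    have h1 : 2 * v / n * t ≤ (1 - δ / 2) * Real.log n := by
      have h2 : 2 * v / n * t ≤ 2 * v / n * ((1 - δ) * (n * Real.log n) / (2 * c)) :=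
        mul_le_mul_of_nonneg_left ht (by positivity)
      have h3 : 2 * v / n * ((1 - δ) * (n * Real.log n) / (2 * c)) =
          ((1 + δ / 2) * (1 - δ)) * Real.log n := by
        rw [hv]; field_simp
      rw [h3] at h2
      refine h2.trans (mul_le_mul_of_nonneg_right ?_ hlog)
      nlinarith
    have h4 : Real.exp (2 * v / n * t) ≤ (n : ℝ) ^ (1 - δ / 2) := by
      rw [Real.rpow_def_of_pos hn0]
      apply Real.exp_le_exp.mpr
      linarith
    have h5 : 0 ≤ (n : ℝ) ^ (δ / 8) := Real.rpow_nonneg hn0.le _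
    calc Y * (n : ℝ) ^ (δ / 8) * Real.exp (2 * v / n * t)
        ≤ (n : ℝ) ^ (δ / 8) * (n : ℝ) ^ (δ / 8) * (n : ℝ) ^ (1 - δ / 2) := by
          apply mul_le_mul _ h4 (Real.exp_pos _).le (by positivity)
          exact mul_le_mul_of_nonneg_right k6 h5
      _ = (n : ℝ) ^ (1 - δ / 4) := by
          rw [← Real.rpow_add hn0, ← Real.rpow_add hn0]
          congr 1; ring
  · intro t ht1 ht2
    refine le_trans ?_ k7
    have h1 := asym_term δ hδ n k1 t ht2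
    have h2 : Real.exp (-(t / (2 * n))) ≤ (n : ℝ) ^ (-(δ / 32)) := by
      rw [Real.rpow_def_of_pos hn0]
      apply Real.exp_le_exp.mpr
      have h3 : δ / 32 * Real.log n ≤ t / (2 * n) := by
        rw [le_div_iff₀ (by positivity)]
        nlinarith
      linarith
    have h3 : 3 / ((n : ℝ) - 1) ≤ 6 / n := by
      rw [div_le_div_iff₀ (by linarith) hn0]
      linarith
    have h4 : b * (Real.exp (-(t / (2 * n))) + 3 / (n - 1)) ≤ b * ((n : ℝ) ^ (-(δ / 32)) + 6 / n) :=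
      mul_le_mul_of_nonneg_left (add_le_add h2 h3) hb.le
    have h5 : 2 * (√((n : ℝ) ^ (δ / 8)))⁻¹ * Real.exp (t * (2 / n * (4 / Real.pi - 1))) ≤
        2 * (Real.exp 1 * (n : ℝ) ^ (-(δ / 40))) := by
      rw [mul_assoc]
      exact mul_le_mul_of_nonneg_left h1 (by norm_num)
    exact add_le_add h4 h5
  · intro t ht
    exact (asym_term δ hδ n k1 t ht).trans k8
  · rw [← Real.rpow_neg hn0.le]
    apply Real.rpow_le_rpow_of_exponent_le hn1
    linarith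

end Pool.Agent.H494.Kac
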