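import Pool.Agent.H494.Kac.Defs

open MeasureTheory Filter Topology
open scoped ENNReal

namespace Pool.Agent.H494.Kac
theorem cstar_le (hc : ConvexOn ℝ (Set.Ioi 0) mom) (h1 : mom (3 / 2) = 4 / (3 * Real.pi))
    (h2 : mom 2 = 3 / 8) (h3 : mom (5 / 2) = 16 / (15 * Real.pi)) (h4 : mom 3 = 5 / 16) :
    (∀ p : ℝ, 0 < p → (1 - 2 * mom p) / p ≤ 1315 / 10000) ∧ cstar ≤ 1315 / 10000 ∧
      1 / 8 ≤ cstar := by
  have hpi1 : 3.141592 < Real.pi := Real.pi_gt_d6
  have hpi2 : Real.pi < 3.141593 := Real.pi_lt_d6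
  have hpi0 : 0 < Real.pi := Real.pi_pos
  have three : ∀ x y z : ℝ, 0 < x → x ≤ y → y ≤ z → x < z →
      (z - x) * mom y ≤ (z - y) * mom x + (y - x) * mom z := by
    intro x y z hx hxy hyz hxz
    have hzx : 0 < z - x := sub_pos.2 hxz
    have h := hc.2 (show x ∈ Set.Ioi (0:ℝ) from hx) (show z ∈ Set.Ioi (0:ℝ) from hx.trans hxz)
      (show 0 ≤ (z - y) / (z - x) from div_nonneg (sub_nonneg.2 hyz) hzx.le)
      (show 0 ≤ (y - x) / (z - x) from div_nonneg (sub_nonneg.2 hxy) hzx.le)
      (by field_simp; ring)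
    have he : ((z - y) / (z - x)) • x + ((y - x) / (z - x)) • z = y := by
      simp only [smul_eq_mul]
      field_simp
      ring
    rw [he] at h
    simp only [smul_eq_mul] at h
    have h2 := mul_le_mul_of_nonneg_left h hzx.le
    calc (z - x) * mom y ≤ (z - x) * ((z - y) / (z - x) * mom x + (y - x) / (z - x) * mom z) := h2
      _ = (z - y) * mom x + (y - x) * mom z := by
        field_simp
  have hm1 : mom (3 / 2) ≤ 0.42442 := by
    rw [h1, div_le_iff₀ (by positivity)]
    nlinarith
  have hm3u : mom (5 / 2) ≤ 0.339532 := by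
    rw [h3, div_le_iff₀ (by positivity)]
    nlinarith
  have hm3l : 0.33953 ≤ mom (5 / 2) := by
    rw [h3, le_div_iff₀ (by positivity)]
    nlinarith
  have hmain : ∀ p : ℝ, 0 < p → 1 - 2 * mom p ≤ 1315 / 10000 * p := by
    intro p hp
    rcases le_total p 2 with hp2 | hp2
    · have h := three p 2 (5 / 2) hp hp2 (by norm_num) (by linarith)
      rw [h2] at h
      have h5 := mul_le_mul_of_nonneg_left hm3u (sub_nonneg.2 hp2)
      linarith
    · rcases le_total p 2.19 with hp3 | hp3
      · have h := three (3 / 2) 2 p (by norm_num) (by norm_num) hp2 (by linarith)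
        rw [h2] at h
        have h5 := mul_le_mul_of_nonneg_left hm1 (sub_nonneg.2 hp2)
        linarith
      · rcases le_total p (5 / 2) with hp4 | hp4
        · have h := three p (5 / 2) 3 hp hp4 (by norm_num) (by linarith)
          rw [h4] at h
          have h5 := mul_le_mul_of_nonneg_left hm3l (show (0:ℝ) ≤ 3 - p by linarith)
          linarith
        · rcases le_total p 3 with hp5 | hp5
          · have h := three 2 (5 / 2) p (by norm_num) (by norm_num) hp4 (by linarith)
            rw [h2] at h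
            have h5 := mul_le_mul_of_nonneg_left hm3l (show (0:ℝ) ≤ p - 2 by linarith)
            linarith
          · have h := three (5 / 2) 3 p (by norm_num) (by norm_num) hp5 (by linarith)
            rw [h4] at h
            have h5 := mul_le_mul_of_nonneg_left hm3u (show (0:ℝ) ≤ p - 3 by linarith)
            linarith
  have hall : ∀ p : ℝ, 0 < p → (1 - 2 * mom p) / p ≤ 1315 / 10000 := by
    intro p hp
    rw [div_le_iff₀ hp]
    exact hmain p hp
  haveI : Nonempty {p : ℝ // 0 < p} := ⟨⟨1, one_pos⟩⟩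
  refine ⟨hall, ?_, ?_⟩
  · exact ciSup_le fun p => hall p.1 p.2
  · have hb : BddAbove (Set.range fun p : {p : ℝ // 0 < p} => (1 - 2 * mom p) / (p : ℝ)) :=
      ⟨1315 / 10000, by rintro _ ⟨p, rfl⟩; exact hall p.1 p.2⟩
    have h5 := le_ciSup hb ⟨2, two_pos⟩
    have h6 : (1 : ℝ) / 8 = (1 - 2 * mom ((⟨2, two_pos⟩ : {p : ℝ // 0 < p}) : ℝ)) /
        ((⟨2, two_pos⟩ : {p : ℝ // 0 < p}) : ℝ) := by
      simp only [h2]
      norm_num
    rw [h6]
    exact h5
end Pool.Agent.H494.Kac
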