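import Pool.Agent.H494.Kac.Defs

open MeasureTheory Filter Topology
open scoped ENNReal

namespace Pool.Agent.H494.Kac
theorem exists_p (hd : ∀ p : ℝ, 0 < p → HasDerivAt mom (-lm p) p ∧ HasDerivAt lm (-lm2 p) p ∧
      0 < lm p ∧ 0 < lm2 p) (h1 : mom 1 = 1 / 2) (h3 : mom 3 = 5 / 16) (h4 : mom 4 = 35 / 128)
    (hb : ∀ p : ℝ, 0 < p → (1 - 2 * mom p) / p ≤ 1315 / 10000) (v : ℝ) (hv : cstar < v) :
    ∃ p : ℝ, 0 < p ∧ 2 * lm p < v ∧ 1 - 2 * mom p < 2 * p * lm p := by
  set κ : ℝ → ℝ := fun p => 2 * p * lm p - (1 - 2 * mom p) with hκ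
  have hκd : ∀ p : ℝ, 0 < p → HasDerivAt κ (-(2 * p * lm2 p)) p := by
    intro p hp
    obtain ⟨hm, hl, -, -⟩ := hd p hp
    have e1 : HasDerivAt (fun q : ℝ => 2 * q * lm q) (2 * 1 * lm p + 2 * p * (-lm2 p)) p :=
      ((hasDerivAt_id p).const_mul 2).mul hl
    have e2 : HasDerivAt (fun q : ℝ => 1 - 2 * mom q) (0 - 2 * (-lm p)) p :=
      (hasDerivAt_const p 1).sub (hm.const_mul 2)
    have e3 := e1.sub e2
    refine e3.congr_deriv ?_
    ring
  have hanti : ∀ a b : ℝ, 0 < a → a < b → κ b < κ a := by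
    intro a b ha hab
    obtain ⟨c, hc, hc'⟩ := exists_hasDerivAt_eq_slope κ (fun p => -(2 * p * lm2 p)) hab
      (fun x hx => (hκd x (lt_of_lt_of_le ha hx.1)).continuousAt.continuousWithinAt)
      (fun x hx => hκd x (lt_trans ha hx.1))
    have hc0 : 0 < c := lt_trans ha hc.1
    have h2 := (hd c hc0).2.2.2
    have h3' : 0 < 2 * c * lm2 c := by positivity
    have h5 : 0 < b - a := sub_pos.2 hab
    have h6 : (κ b - κ a) = -(2 * c * lm2 c) * (b - a) := by
      have := hc'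
      field_simp at this
      linarith
    have h7 : 0 < (2 * c * lm2 c) * (b - a) := by positivity
    linarith [h6, h7]
  have hl4 : lm 4 ≤ 5 / 128 := by
    obtain ⟨c, hc, hc'⟩ := exists_hasDerivAt_eq_slope mom (fun p => -lm p)
      (show (3 : ℝ) < 4 by norm_num)
      (fun x hx => (hd x (by linarith [hx.1])).1.continuousAt.continuousWithinAt)
      (fun x hx => (hd x (by linarith [hx.1])).1)
    have hc0 : 0 < c := by linarith [hc.1]
    obtain ⟨d, hd1, hd2⟩ := exists_hasDerivAt_eq_slope lm (fun p => -lm2 p) hc.2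
      (fun x hx => (hd x (by linarith [hx.1])).2.1.continuousAt.continuousWithinAt)
      (fun x hx => (hd x (by linarith [hx.1])).2.1)
    have hd0 : 0 < lm2 d := (hd d (by linarith [hd1.1])).2.2.2
    have h5 : 0 < 4 - c := by linarith [hc.2]
    have h6 : lm 4 - lm c = -lm2 d * (4 - c) := by
      have := hd2
      field_simp at this
      linarith
    have h7 : 0 < lm2 d * (4 - c) := mul_pos hd0 h5
    have h8 : lm c = 5 / 128 := by
      have := hc'
      rw [h3, h4] at this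
      norm_num at this
      linarith
    linarith
  have hk1 : 0 < κ 1 := by
    have := (hd 1 one_pos).2.2.1
    simp only [hκ, h1]
    linarith
  have hk4 : κ 4 < 0 := by
    simp only [hκ, h4]
    linarith
  have hcont : ContinuousOn κ (Set.Icc 1 4) := fun x hx =>
    (hκd x (by linarith [hx.1])).continuousAt.continuousWithinAt
  obtain ⟨p0, hp0, hp0'⟩ := intermediate_value_Icc' (show (1 : ℝ) ≤ 4 by norm_num) hcont
    (show (0 : ℝ) ∈ Set.Icc (κ 4) (κ 1) from ⟨hk4.le, hk1.le⟩)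
  have hp01 : 1 < p0 := by
    rcases eq_or_lt_of_le hp0.1 with h | h
    · rw [← h] at hp0'; linarith
    · exact h
  have hpos : 0 < p0 := by linarith
  have hlv : 2 * lm p0 < v := by
    have hbdd : BddAbove (Set.range fun p : {p : ℝ // 0 < p} => (1 - 2 * mom p) / (p : ℝ)) := by
      refine ⟨1315 / 10000, ?_⟩
      rintro _ ⟨p, rfl⟩
      exact hb p p.2
    have h5 : (1 - 2 * mom p0) / p0 ≤ cstar := le_ciSup hbdd ⟨p0, hpos⟩
    have h6 : 2 * lm p0 = (1 - 2 * mom p0) / p0 := by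
      rw [eq_div_iff hpos.ne']
      have : 2 * p0 * lm p0 - (1 - 2 * mom p0) = 0 := hp0'
      linarith
    linarith
  have hc : ContinuousAt (fun p => 2 * lm p) p0 :=
    ((hd p0 hpos).2.1.continuousAt).const_mul 2 |>.congr (Filter.Eventually.of_forall fun _ => rfl)
  have hev : ∀ᶠ p in 𝓝 p0, 2 * lm p < v := hc.eventually_lt continuousAt_const hlv
  have hev' : ∀ᶠ p in 𝓝[<] p0, 2 * lm p < v := hev.filter_mono nhdsWithin_le_nhds
  have hev2 : ∀ᶠ p in 𝓝[<] p0, p ∈ Set.Ioo 1 p0 := Ioo_mem_nhdsLT hp01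
  obtain ⟨p, hp, hp2⟩ := (hev'.and hev2).exists
  have hpp : 0 < p := by linarith [hp2.1]
  refine ⟨p, hpp, hp, ?_⟩
  have h9 := hanti p p0 hpp hp2.2
  rw [hp0'] at h9
  have : 0 < 2 * p * lm p - (1 - 2 * mom p) := h9
  linarith

end Pool.Agent.H494.Kac
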