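import Pool.Agent.H494.Kac.Defs

open MeasureTheory Filter Topology
open scoped ENNReal

namespace Pool.Agent.H494.Kac
theorem law_iter (n : ℕ) (x : E n) (hm : Measurable (stepLaw n))
    (hs : ∀ t, ∀ᵐ v ∂(law n x t), ‖v‖ = 1)
    (h : ∀ (v : E n) (g : (Fin n → ℝ) → ℝ≥0∞), Measurable g →
      ∫⁻ w, g (fun k => w k ^ 2) ∂(stepLaw n v) = Qop n g (fun k => v k ^ 2))
    (G : ℕ → (Fin n → ℝ) → ℝ≥0∞) (hG : ∀ s, Measurable (G s)) (t₀ t : ℕ) (ht : t₀ ≤ t)
    (hQ : ∀ s, t₀ ≤ s → s < t → ∀ A : Fin n → ℝ, (∀ k, 0 ≤ A k) → ∑ k, A k = 1 →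
      Qop n (G (s + 1)) A ≤ G s A) :
    ∫⁻ v, G t (fun k => v k ^ 2) ∂(law n x t) ≤ ∫⁻ v, G t₀ (fun k => v k ^ 2) ∂(law n x t₀) := by
  induction t, ht using Nat.le_induction with
  | base => exact le_refl _
  | succ t ht ih =>
    have ih' := ih (fun s h1 h2 => hQ s h1 (Nat.lt_succ_of_lt h2))
    refine le_trans ?_ ih'
    have hsq : Measurable (fun v : E n => (fun k => v k ^ 2 : Fin n → ℝ)) := by
      apply measurable_pi_lambda
      intro k
      have hc : Continuous (fun v : E n => v k ^ 2) := by fun_prop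
      exact hc.measurable
    have hmeas : Measurable (fun v : E n => G (t + 1) (fun k => v k ^ 2)) :=
      (hG (t + 1)).comp hsq
    have e1 : ∫⁻ v, G (t + 1) (fun k => v k ^ 2) ∂(law n x (t + 1))
        = ∫⁻ v, ∫⁻ w, G (t + 1) (fun k => w k ^ 2) ∂(stepLaw n v) ∂(law n x t) := by
      show ∫⁻ v, G (t + 1) (fun k => v k ^ 2) ∂((law n x t).bind (stepLaw n)) = _
      exact Measure.lintegral_bind hm.aemeasurable hmeas.aemeasurable
    rw [e1]
    apply lintegral_mono_ae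
    filter_upwards [hs t] with v hv
    rw [h v (G (t + 1)) (hG (t + 1))]
    apply hQ t ht (Nat.lt_succ_self t)
    · intro k
      positivity
    · have h1 := EuclideanSpace.norm_sq_eq v
      rw [hv] at h1
      simp only [Real.norm_eq_abs, sq_abs] at h1
      linarith


end Pool.Agent.H494.Kac
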