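import Pool.Agent.H494.Kac.Defs

open MeasureTheory Filter Topology
open scoped ENNReal

namespace Pool.Agent.H494.Kac

theorem law_prob (n : ℕ) (x : E n) (hm : Measurable (stepLaw n))
    (hp : ∀ v, IsProbabilityMeasure (stepLaw n v)) (t : ℕ) : IsProbabilityMeasure (law n x t) := by
  induction t with
  | zero =>
    rw [law]
    infer_instance
  | succ t ih =>
    rw [law]
    exact MeasureTheory.isProbabilityMeasure_bind hm.aemeasurable
      (Filter.Eventually.of_forall hp)

end Pool.Agent.H494.Kac
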