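import Pool.Agent.H494.Kac.Defs

open MeasureTheory Filter Topology
open scoped ENNReal

namespace Pool.Agent.H494.Kac
theorem law_sphere_norm {n : ℕ} (i j : Fin n) (hij : i ≠ j) (θ : ℝ) (v : E n) :
    ‖rot i j θ v‖ = ‖v‖ := by
  have h1 : ‖rot i j θ v‖ ^ 2 = ‖v‖ ^ 2 := by
    rw [EuclideanSpace.norm_sq_eq, EuclideanSpace.norm_sq_eq]
    have hj : j ∈ Finset.univ.erase i := Finset.mem_erase.2 ⟨hij.symm, Finset.mem_univ _⟩
    rw [← Finset.add_sum_erase _ _ (Finset.mem_univ i), ← Finset.add_sum_erase _ _ hj,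
      ← Finset.add_sum_erase (Finset.univ) (fun k => ‖v k‖ ^ 2) (Finset.mem_univ i),
      ← Finset.add_sum_erase _ (fun k => ‖v k‖ ^ 2) hj]
    have e1 : (rot i j θ v) i = v i * Real.cos θ - v j * Real.sin θ := by simp [rot]
    have e2 : (rot i j θ v) j = v i * Real.sin θ + v j * Real.cos θ := by
      simp [rot, hij.symm]
    have e3 : ∑ k ∈ (Finset.univ.erase i).erase j, ‖(rot i j θ v) k‖ ^ 2 =
        ∑ k ∈ (Finset.univ.erase i).erase j, ‖v k‖ ^ 2 := by
      apply Finset.sum_congr rfl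
      intro k hk
      rw [Finset.mem_erase, Finset.mem_erase] at hk
      have : (rot i j θ v) k = v k := by simp [rot, hk.1, hk.2.1]
      rw [this]
    rw [e1, e2, e3]
    simp only [Real.norm_eq_abs, sq_abs]
    have := Real.sin_sq_add_cos_sq θ
    have e4 : (v i * Real.cos θ - v j * Real.sin θ) ^ 2 +
        (v i * Real.sin θ + v j * Real.cos θ) ^ 2 =
        (v i ^ 2 + v j ^ 2) * (Real.sin θ ^ 2 + Real.cos θ ^ 2) := by ring
    rw [← add_assoc, ← add_assoc, e4, this, mul_one]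
  have h2 := congrArg Real.sqrt h1
  rwa [Real.sqrt_sq (norm_nonneg _), Real.sqrt_sq (norm_nonneg _)] at h2

theorem law_sphere (n : ℕ) (x : E n) (hx : ‖x‖ = 1) (hm : Measurable (stepLaw n))
    (h : ∀ (v : E n) (f : E n → ℝ≥0∞), Measurable f → ∫⁻ w, f w ∂(stepLaw n v) =
      ((prs n).card : ℝ≥0∞)⁻¹ * ∑ p ∈ prs n, ∫⁻ θ, f (rot p.1 p.2 θ v) ∂unif) (t : ℕ) :
    ∀ᵐ v ∂(law n x t), ‖v‖ = 1 := by
  have hS : MeasurableSet {v : E n | ¬ ‖v‖ = 1} :=
    (measurableSet_eq_fun continuous_norm.measurable measurable_const).compl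
  rw [ae_iff]
  induction t with
  | zero =>
    show Measure.dirac x {v : E n | ¬ ‖v‖ = 1} = 0
    rw [Measure.dirac_apply' x hS]
    simp [hx]
  | succ t ih =>
    show ((law n x t).bind (stepLaw n)) {v : E n | ¬ ‖v‖ = 1} = 0
    rw [Measure.bind_apply hS hm.aemeasurable]
    have hae : ∀ᵐ v ∂(law n x t), ‖v‖ = 1 := ae_iff.2 ih
    have hz : ∀ᵐ v ∂(law n x t), stepLaw n v {v : E n | ¬ ‖v‖ = 1} = 0 := by
      filter_upwards [hae] with v hv
      have h1 := h v (Set.indicator {v : E n | ¬ ‖v‖ = 1} 1) (measurable_one.indicator hS)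
      rw [lintegral_indicator_one hS] at h1
      rw [h1]
      have h2 : ∑ p ∈ prs n, ∫⁻ θ, (Set.indicator {v : E n | ¬ ‖v‖ = 1} (1 : E n → ℝ≥0∞))
          (rot p.1 p.2 θ v) ∂unif = 0 := by
        apply Finset.sum_eq_zero
        intro p hp
        have hp' : p.1 ≠ p.2 := ne_of_lt (Finset.mem_filter.1 hp).2
        have h3 : ∀ θ, (Set.indicator {v : E n | ¬ ‖v‖ = 1} (1 : E n → ℝ≥0∞))
          (rot p.1 p.2 θ v) = 0 := by
          intro θ
          apply Set.indicator_of_notMem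
          simp [law_sphere_norm p.1 p.2 hp' θ v, hv]
        simp [h3]
      rw [h2, mul_zero]
    rw [lintegral_congr_ae hz]
    simp

end Pool.Agent.H494.Kac
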