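import Pool.Agent.H494.Kac.Defs

open MeasureTheory Filter Topology
open scoped ENNReal

namespace Pool.Agent.H494.Kac
theorem lis_cont {n : ℕ} (i j : Fin n) (v : E n) : Continuous (fun θ => rot i j θ v) := by
  unfold rot
  apply (PiLp.continuous_toLp 2 (fun _ : Fin n => ℝ)).comp
  apply continuous_pi
  intro k
  split_ifs <;> fun_prop

theorem lintegral_stepLaw (n : ℕ) (v : E n) (f : E n → ℝ≥0∞) (hf : Measurable f) :
    ∫⁻ w, f w ∂(stepLaw n v) =
      ((prs n).card : ℝ≥0∞)⁻¹ * ∑ p ∈ prs n, ∫⁻ θ, f (rot p.1 p.2 θ v) ∂unif := by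
  unfold stepLaw
  rw [lintegral_smul_measure, lintegral_finsetSum_measure, smul_eq_mul]
  congr 1
  apply Finset.sum_congr rfl
  intro p _
  rw [lintegral_map hf (lis_cont p.1 p.2 v).measurable]

end Pool.Agent.H494.Kac
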