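import Pool.Agent.H494.Kac.Defs

open MeasureTheory Filter Topology
open scoped ENNReal

namespace Pool.Agent.H494.Kac
theorem mc_fin : IsFiniteMeasure unif := by
  unfold unif
  refine Measure.smul_finite _ ?_
  rw [ENNReal.inv_ne_top]
  simp [Real.pi_pos]

theorem mc_int (p : ℝ) (hp : 0 < p) : Integrable (fun θ : ℝ => ((Real.cos θ) ^ 2) ^ p) unif := by
  haveI := mc_fin
  have hc : Continuous (fun θ : ℝ => ((Real.cos θ) ^ 2) ^ p) :=
    (Real.continuous_cos.pow 2).rpow_const (fun _ => Or.inr hp.le)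
  refine Integrable.of_bound hc.aestronglyMeasurable 1 (Eventually.of_forall fun θ => ?_)
  have h0 : 0 ≤ (Real.cos θ) ^ 2 := sq_nonneg _
  have h1 : (Real.cos θ) ^ 2 ≤ 1 := Real.cos_sq_le_one θ
  rw [Real.norm_of_nonneg (Real.rpow_nonneg h0 p)]
  exact Real.rpow_le_one h0 h1 hp.le

theorem mom_convex : ConvexOn ℝ (Set.Ioi 0) mom := by
  refine ⟨convex_Ioi 0, ?_⟩
  intro p hp q hq a b ha hb hab
  have hp' : 0 < p := hp
  have hq' : 0 < q := hq
  have hpq : 0 < a • p + b • q := (convex_Ioi (0 : ℝ)) hp hq ha hb hab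
  have h1 : a • mom p + b • mom q =
      ∫ θ, (a * ((Real.cos θ) ^ 2) ^ p + b * ((Real.cos θ) ^ 2) ^ q) ∂unif := by
    rw [integral_add ((mc_int p hp').const_mul a) ((mc_int q hq').const_mul b),
      integral_const_mul, integral_const_mul]
    rfl
  rw [h1]
  unfold mom
  refine integral_mono (mc_int _ hpq)
    (((mc_int p hp').const_mul a).add ((mc_int q hq').const_mul b)) fun θ => ?_
  have h0 : 0 ≤ (Real.cos θ) ^ 2 := sq_nonneg _
  show ((Real.cos θ) ^ 2) ^ (a • p + b • q) ≤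
    a * ((Real.cos θ) ^ 2) ^ p + b * ((Real.cos θ) ^ 2) ^ q
  rcases h0.eq_or_lt with h | h
  · rw [← h, Real.zero_rpow hpq.ne', Real.zero_rpow hp'.ne', Real.zero_rpow hq'.ne']
    simp
  · exact (convexOn_rpow_left h).2 (Set.mem_univ p) (Set.mem_univ q) ha hb hab


end Pool.Agent.H494.Kac
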