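import Pool.Agent.H494.Kac.Defs

open MeasureTheory Filter Topology
open scoped ENNReal

namespace Pool.Agent.H494.Kac
theorem md_bound (k : ℕ) (p s b : ℝ) (hp : 0 < p) (hs : p / 2 ≤ s) (h0 : 0 ≤ b) (h1 : b ≤ 1) :
    ‖b ^ s * Real.log b ^ k‖ ≤ (1 + 2 * k / p) ^ k := by
  have hB : 0 ≤ 2 * (k : ℝ) / p := by positivity
  rcases eq_or_lt_of_le h0 with hb | hb
  · rw [← hb, Real.zero_rpow (by linarith), zero_mul, norm_zero]
    positivity
  · rcases Nat.eq_zero_or_pos k with hk | hk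
    · subst hk
      rw [pow_zero, pow_zero, mul_one, Real.norm_eq_abs, abs_of_nonneg (Real.rpow_nonneg h0 _)]
      exact Real.rpow_le_one h0 h1 (by linarith)
    · have hk0 : (0 : ℝ) < k := by exact_mod_cast hk
      have hq : 0 < p / (2 * k) := by positivity
      have h2 := Real.abs_log_mul_self_rpow_lt b (p / (2 * k)) hb h1 hq
      have h3 : b ^ s ≤ (b ^ (p / (2 * k))) ^ k := by
        rw [← Real.rpow_natCast, ← Real.rpow_mul h0]
        refine Real.rpow_le_rpow_of_exponent_ge hb h1 ?_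
        have : p / (2 * (k : ℝ)) * k = p / 2 := by field_simp
        rw [this]; exact hs
      rw [norm_mul, Real.norm_eq_abs, Real.norm_eq_abs, abs_of_nonneg (Real.rpow_nonneg h0 _)]
      calc b ^ s * |Real.log b ^ k| ≤ (b ^ (p / (2 * k))) ^ k * |Real.log b ^ k| :=
            mul_le_mul_of_nonneg_right h3 (abs_nonneg _)
        _ = |Real.log b * b ^ (p / (2 * (k : ℝ)))| ^ k := by
            rw [abs_mul, abs_of_nonneg (Real.rpow_nonneg h0 (p / (2 * (k : ℝ)))), abs_pow, mul_pow]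
            ring
        _ ≤ (1 / (p / (2 * (k : ℝ)))) ^ k := pow_le_pow_left₀ (abs_nonneg _) h2.le _
        _ = (2 * k / p) ^ k := by
            congr 1
            field_simp
        _ ≤ (1 + 2 * k / p) ^ k := pow_le_pow_left₀ hB (by linarith) _

theorem md_unif : IsFiniteMeasure unif := by
  constructor
  unfold unif
  rw [Measure.smul_apply, Measure.restrict_apply_univ, Real.volume_Ico, smul_eq_mul, sub_zero]
  have h : (0 : ℝ) < 2 * Real.pi := by positivity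
  exact ENNReal.mul_lt_top (ENNReal.inv_lt_top.2 (ENNReal.ofReal_pos.2 h)) ENNReal.ofReal_lt_top

theorem md_cos (θ : ℝ) : 0 ≤ (Real.cos θ) ^ 2 ∧ (Real.cos θ) ^ 2 ≤ 1 :=
  ⟨sq_nonneg _, Real.cos_sq_le_one θ⟩

theorem md_meas (k : ℕ) (s : ℝ) : Measurable (fun θ : ℝ =>
    ((Real.cos θ) ^ 2) ^ s * (Real.log ((Real.cos θ) ^ 2)) ^ k) := by
  have h1 : Measurable (fun θ : ℝ => (Real.cos θ) ^ 2) := Real.measurable_cos.pow_const 2
  exact (h1.pow_const s).mul ((Real.measurable_log.comp h1).pow_const k)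

theorem md_int (k : ℕ) (s : ℝ) (hs : 0 < s) : Integrable (fun θ : ℝ =>
    ((Real.cos θ) ^ 2) ^ s * (Real.log ((Real.cos θ) ^ 2)) ^ k) unif := by
  haveI := md_unif
  refine Integrable.of_bound (md_meas k s).aestronglyMeasurable ((1 + 2 * k / s) ^ k) ?_
  exact Filter.Eventually.of_forall fun θ =>
    md_bound k s s _ hs (by linarith) (md_cos θ).1 (md_cos θ).2

theorem md_der1 (k : ℕ) (b x : ℝ) (h0 : 0 ≤ b) (hx : 0 < x) :
    HasDerivAt (fun s : ℝ => b ^ s * Real.log b ^ k) (b ^ x * Real.log b ^ (k + 1)) x := by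
  rcases eq_or_lt_of_le h0 with hb | hb
  · subst hb
    rw [Real.zero_rpow hx.ne', zero_mul]
    refine (hasDerivAt_const x (0 : ℝ)).congr_of_eventuallyEq ?_
    filter_upwards [lt_mem_nhds hx] with s hs
    rw [Real.zero_rpow hs.ne', zero_mul]
  · refine ((Real.hasStrictDerivAt_const_rpow hb x).hasDerivAt.mul_const (Real.log b ^ k)).congr_deriv ?_
    rw [pow_succ]; ring

theorem md_gen (k : ℕ) (p : ℝ) (hp : 0 < p) :
    HasDerivAt (fun s : ℝ => ∫ θ, ((Real.cos θ) ^ 2) ^ s * (Real.log ((Real.cos θ) ^ 2)) ^ k ∂unif)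
      (∫ θ, ((Real.cos θ) ^ 2) ^ p * (Real.log ((Real.cos θ) ^ 2)) ^ (k + 1) ∂unif) p := by
  haveI := md_unif
  refine (hasDerivAt_integral_of_dominated_loc_of_deriv_le
    (F := fun s θ => ((Real.cos θ) ^ 2) ^ s * (Real.log ((Real.cos θ) ^ 2)) ^ k)
    (F' := fun s θ => ((Real.cos θ) ^ 2) ^ s * (Real.log ((Real.cos θ) ^ 2)) ^ (k + 1))
    (bound := fun _ => (1 + 2 * ((k + 1 : ℕ) : ℝ) / p) ^ (k + 1))
    (s := Set.Ioi (p / 2)) (Ioi_mem_nhds (by linarith)) ?_ ?_ ?_ ?_ ?_ ?_).2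
  · exact Filter.Eventually.of_forall fun s => (md_meas k s).aestronglyMeasurable
  · exact md_int k p hp
  · exact (md_meas (k + 1) p).aestronglyMeasurable
  · exact Filter.Eventually.of_forall fun θ s hs =>
      md_bound (k + 1) p s _ hp (le_of_lt hs) (md_cos θ).1 (md_cos θ).2
  · exact integrable_const _
  · refine Filter.Eventually.of_forall fun θ s hs => ?_
    have hs' : p / 2 < s := hs
    exact md_der1 k _ s (md_cos θ).1 (by linarith)

theorem md_pos (f : ℝ → ℝ) (h0 : ∀ θ, 0 ≤ f θ) (hf : Integrable f unif)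
    (h1 : ∀ θ ∈ Set.Ioo 0 (Real.pi / 2), f θ ≠ 0) : 0 < ∫ θ, f θ ∂unif := by
  rw [integral_pos_iff_support_of_nonneg h0 hf]
  have hpi := Real.pi_pos
  have hsub : Set.Ioo 0 (Real.pi / 2) ⊆ Function.support f := fun θ hθ => h1 θ hθ
  refine lt_of_lt_of_le ?_ (measure_mono hsub)
  unfold unif
  rw [Measure.smul_apply, Measure.restrict_apply measurableSet_Ioo, smul_eq_mul]
  have h2 : Set.Ioo 0 (Real.pi / 2) ∩ Set.Ico 0 (2 * Real.pi) = Set.Ioo 0 (Real.pi / 2) := by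
    apply Set.inter_eq_left.2
    intro θ hθ
    exact ⟨hθ.1.le, by linarith [hθ.2]⟩
  rw [h2, Real.volume_Ioo]
  refine ENNReal.mul_pos (ENNReal.inv_ne_zero.2 ENNReal.ofReal_ne_top) ?_
  exact (ENNReal.ofReal_pos.2 (by linarith)).ne'

theorem md_logneg (θ : ℝ) (hθ : θ ∈ Set.Ioo 0 (Real.pi / 2)) :
    0 < (Real.cos θ) ^ 2 ∧ Real.log ((Real.cos θ) ^ 2) < 0 := by
  have hpi := Real.pi_pos
  have hc : 0 < Real.cos θ := Real.cos_pos_of_mem_Ioo ⟨by linarith [hθ.1], hθ.2⟩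
  have hc1 : Real.cos θ < 1 := by
    have h := Real.cos_lt_cos_of_nonneg_of_le_pi_div_two le_rfl hθ.2.le hθ.1
    rwa [Real.cos_zero] at h
  have h2 : (Real.cos θ) ^ 2 < 1 := by nlinarith
  exact ⟨by positivity, Real.log_neg (by positivity) h2⟩

theorem mom_deriv (p : ℝ) (hp : 0 < p) :
    HasDerivAt mom (-lm p) p ∧ HasDerivAt lm (-lm2 p) p ∧ 0 < lm p ∧ 0 < lm2 p := by
  have hmom : mom = fun s : ℝ => ∫ θ, ((Real.cos θ) ^ 2) ^ s * (Real.log ((Real.cos θ) ^ 2)) ^ 0 ∂unif := by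
    funext s
    unfold mom
    refine integral_congr_ae (Filter.Eventually.of_forall fun θ => ?_)
    beta_reduce
    rw [pow_zero, mul_one]
  have hlm : lm = fun s : ℝ => -∫ θ, ((Real.cos θ) ^ 2) ^ s * (Real.log ((Real.cos θ) ^ 2)) ^ 1 ∂unif := by
    funext s
    unfold lm
    rw [integral_neg]
    congr 1
    refine integral_congr_ae (Filter.Eventually.of_forall fun θ => ?_)
    beta_reduce
    rw [pow_one]
  refine ⟨?_, ?_, ?_, ?_⟩
  · have h1 := md_gen 0 p hp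
    rw [← hmom] at h1
    refine h1.congr_deriv ?_
    rw [hlm]
    beta_reduce
    rw [neg_neg]
  · have h1 := (md_gen 1 p hp).neg
    rw [hlm]
    exact h1
  · unfold lm
    refine md_pos _ ?_ ?_ ?_
    · intro θ
      have h1 := md_cos θ
      have h2 : Real.log ((Real.cos θ) ^ 2) ≤ 0 := Real.log_nonpos h1.1 h1.2
      have h3 : 0 ≤ ((Real.cos θ) ^ 2) ^ p := Real.rpow_nonneg h1.1 _
      nlinarith
    · have h1 := (md_int 1 p hp).neg
      refine h1.congr (Filter.Eventually.of_forall fun θ => ?_)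
      show -(((Real.cos θ) ^ 2) ^ p * Real.log ((Real.cos θ) ^ 2) ^ 1) = _
      rw [pow_one]
    · intro θ hθ
      obtain ⟨h1, h2⟩ := md_logneg θ hθ
      have h3 : 0 < ((Real.cos θ) ^ 2) ^ p := Real.rpow_pos_of_pos h1 _
      have : 0 < -(((Real.cos θ) ^ 2) ^ p * Real.log ((Real.cos θ) ^ 2)) := by nlinarith
      exact this.ne'
  · unfold lm2
    refine md_pos _ ?_ (md_int 2 p hp) ?_
    · intro θ
      have h3 : 0 ≤ ((Real.cos θ) ^ 2) ^ p := Real.rpow_nonneg (md_cos θ).1 _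
      positivity
    · intro θ hθ
      obtain ⟨h1, h2⟩ := md_logneg θ hθ
      have h3 : 0 < ((Real.cos θ) ^ 2) ^ p := Real.rpow_pos_of_pos h1 _
      exact mul_ne_zero h3.ne' (pow_ne_zero _ h2.ne)

end Pool.Agent.H494.Kac
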