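import Pool.Agent.H494.Kac.Defs

open MeasureTheory Filter Topology
open scoped ENNReal

namespace Pool.Agent.H494.Kac
theorem h154_rpow (x : ℝ) (m : ℕ) (p : ℝ) (hp : 2 * p = m) : (x ^ 2) ^ p = |x| ^ m := by
  rw [← sq_abs, ← Real.rpow_natCast |x| 2, ← Real.rpow_mul (abs_nonneg x)]
  push_cast
  rw [hp, Real.rpow_natCast]

theorem h154_mom (m : ℕ) (p : ℝ) (hp : 2 * p = m) :
    mom p = (2 * Real.pi)⁻¹ * ∫ θ in (0 : ℝ)..(2 * Real.pi), |Real.cos θ| ^ m := by
  have h0 : (0 : ℝ) < 2 * Real.pi := by positivity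
  unfold mom unif
  rw [integral_smul_measure, ENNReal.toReal_inv, ENNReal.toReal_ofReal h0.le, smul_eq_mul,
    intervalIntegral.integral_of_le h0.le, integral_Ico_eq_integral_Ioc]
  congr 1
  refine integral_congr_ae (Eventually.of_forall fun θ => ?_)
  exact h154_rpow _ _ _ hp

theorem h154_J (n : ℕ) : ∫ x in (0 : ℝ)..(2 * Real.pi), Real.cos x ^ (n + 2) =
    ((n : ℝ) + 1) / ((n : ℝ) + 2) * ∫ x in (0 : ℝ)..(2 * Real.pi), Real.cos x ^ n := by
  rw [integral_cos_pow]
  simp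

theorem h154_c3 : Real.cos (3 * Real.pi / 2) = 0 := by
  rw [show 3 * Real.pi / 2 = Real.pi / 2 + Real.pi by ring, Real.cos_add_pi, Real.cos_pi_div_two]
  simp

theorem h154_s3 : Real.sin (3 * Real.pi / 2) = -1 := by
  rw [show 3 * Real.pi / 2 = Real.pi / 2 + Real.pi by ring, Real.sin_add_pi, Real.sin_pi_div_two]

theorem h154_odd (n : ℕ) (hn : Odd n) (I : ℝ → ℝ → ℝ)
    (hI : ∀ a b : ℝ, ∫ x in a..b, Real.cos x ^ n = I a b) :
    ∫ θ in (0 : ℝ)..(2 * Real.pi), |Real.cos θ| ^ n =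
      I 0 (Real.pi / 2) - I (Real.pi / 2) (3 * Real.pi / 2) + I (3 * Real.pi / 2) (2 * Real.pi) := by
  have hpi := Real.pi_pos
  have hc : Continuous (fun θ : ℝ => |Real.cos θ| ^ n) := by fun_prop
  have hi : ∀ a b : ℝ, IntervalIntegrable (fun θ : ℝ => |Real.cos θ| ^ n) volume a b :=
    fun a b => hc.intervalIntegrable a b
  rw [← intervalIntegral.integral_add_adjacent_intervals (hi 0 (3 * Real.pi / 2)) (hi _ _),
    ← intervalIntegral.integral_add_adjacent_intervals (hi 0 (Real.pi / 2)) (hi _ _)]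
  have e1 : ∫ θ in (0 : ℝ)..(Real.pi / 2), |Real.cos θ| ^ n = I 0 (Real.pi / 2) := by
    rw [← hI]
    refine intervalIntegral.integral_congr ?_
    intro θ hθ
    rw [Set.uIcc_of_le (by linarith)] at hθ
    have : 0 ≤ Real.cos θ := Real.cos_nonneg_of_mem_Icc ⟨by linarith [hθ.1], hθ.2⟩
    simp only
    rw [abs_of_nonneg this]
  have e2 : ∫ θ in (Real.pi / 2)..(3 * Real.pi / 2), |Real.cos θ| ^ n =
      - I (Real.pi / 2) (3 * Real.pi / 2) := by
    rw [← hI, ← intervalIntegral.integral_neg]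
    refine intervalIntegral.integral_congr ?_
    intro θ hθ
    rw [Set.uIcc_of_le (by linarith)] at hθ
    have : Real.cos θ ≤ 0 := Real.cos_nonpos_of_pi_div_two_le_of_le hθ.1 (by linarith [hθ.2])
    simp only
    rw [abs_of_nonpos this, hn.neg_pow]
  have e3 : ∫ θ in (3 * Real.pi / 2)..(2 * Real.pi), |Real.cos θ| ^ n =
      I (3 * Real.pi / 2) (2 * Real.pi) := by
    rw [← hI]
    refine intervalIntegral.integral_congr ?_
    intro θ hθ
    rw [Set.uIcc_of_le (by linarith)] at hθ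
    have : 0 ≤ Real.cos θ := by
      rw [← Real.cos_sub_two_pi]
      exact Real.cos_nonneg_of_mem_Icc ⟨by linarith [hθ.1], by linarith [hθ.2]⟩
    simp only
    rw [abs_of_nonneg this]
  rw [e1, e2, e3]
  ring

theorem mom_vals : mom 1 = 1 / 2 ∧ mom (3 / 2) = 4 / (3 * Real.pi) ∧ mom 2 = 3 / 8 ∧
    mom (5 / 2) = 16 / (15 * Real.pi) ∧ mom 3 = 5 / 16 ∧ mom 4 = 35 / 128 := by
  have hpi := Real.pi_pos
  have hne := hpi.ne'
  have j0 : ∫ x in (0 : ℝ)..(2 * Real.pi), Real.cos x ^ 0 = 2 * Real.pi := by simp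
  have j2 : ∫ x in (0 : ℝ)..(2 * Real.pi), Real.cos x ^ 2 = Real.pi := by
    have h := h154_J 0
    rw [j0] at h
    calc _ = _ := h
      _ = Real.pi := by push_cast; ring
  have j4 : ∫ x in (0 : ℝ)..(2 * Real.pi), Real.cos x ^ 4 = 3 / 4 * Real.pi := by
    have h := h154_J 2
    rw [j2] at h
    calc _ = _ := h
      _ = 3 / 4 * Real.pi := by push_cast; ring
  have j6 : ∫ x in (0 : ℝ)..(2 * Real.pi), Real.cos x ^ 6 = 5 / 8 * Real.pi := by
    have h := h154_J 4
    rw [j4] at h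
    calc _ = _ := h
      _ = 5 / 8 * Real.pi := by push_cast; ring
  have j8 : ∫ x in (0 : ℝ)..(2 * Real.pi), Real.cos x ^ 8 = 35 / 64 * Real.pi := by
    have h := h154_J 6
    rw [j6] at h
    calc _ = _ := h
      _ = 35 / 64 * Real.pi := by push_cast; ring
  have i3 : ∀ a b : ℝ, ∫ x in a..b, Real.cos x ^ 3 =
      Real.sin b - Real.sin a - (Real.sin b ^ 3 - Real.sin a ^ 3) / 3 := by
    intro a b
    simp
  have i5 : ∀ a b : ℝ, ∫ x in a..b, Real.cos x ^ 5 =
      (Real.cos b ^ 4 * Real.sin b - Real.cos a ^ 4 * Real.sin a) / 5 +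
        4 / 5 * (Real.sin b - Real.sin a - (Real.sin b ^ 3 - Real.sin a ^ 3) / 3) := by
    intro a b
    have := integral_cos_pow (a := a) (b := b) (n := 3)
    norm_num at this
    rw [this]
  refine ⟨?_, ?_, ?_, ?_, ?_, ?_⟩
  · rw [h154_mom 2 1 (by norm_num)]
    simp only [sq_abs]
    rw [j2]; field_simp
  · rw [h154_mom 3 (3 / 2) (by norm_num), h154_odd 3 (by decide) _ i3]
    simp only [Real.cos_pi_div_two, Real.sin_pi_div_two, h154_c3, h154_s3, Real.cos_zero,
      Real.sin_zero, Real.cos_two_pi, Real.sin_two_pi]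
    field_simp; norm_num
  · rw [h154_mom 4 2 (by norm_num)]
    simp only [(by decide : Even 4).pow_abs]
    rw [j4]; field_simp; norm_num
  · rw [h154_mom 5 (5 / 2) (by norm_num), h154_odd 5 (by decide) _ i5]
    simp only [Real.cos_pi_div_two, Real.sin_pi_div_two, h154_c3, h154_s3, Real.cos_zero,
      Real.sin_zero, Real.cos_two_pi, Real.sin_two_pi]
    field_simp; norm_num
  · rw [h154_mom 6 3 (by norm_num)]
    simp only [(by decide : Even 6).pow_abs]
    rw [j6]; field_simp; norm_num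
  · rw [h154_mom 8 4 (by norm_num)]
    simp only [(by decide : Even 8).pow_abs]
    rw [j8]; field_simp; norm_num

end Pool.Agent.H494.Kac
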