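import Pool.Agent.H494.Kac.Defs

open MeasureTheory Filter Topology
open scoped ENNReal

namespace Pool.Agent.H494.Kac
theorem pair_min (n : ℕ) (f A : Fin n → ℝ) (N : ℝ) (hf : ∀ k, 0 ≤ f k) (hA : ∀ k, 0 ≤ A k)
    (hs : ∑ k, A k = 1) (hN : 0 < N) (hfA : ∀ k, A k * N ≤ 1 → f k = 0) :
    ∑ p ∈ prs n, min (f p.1) (f p.2) ≤ N * ∑ k, f k := by
  calc ∑ p ∈ prs n, min (f p.1) (f p.2) ≤ ∑ p ∈ prs n, f p.1 * (A p.2 * N) := by
        refine Finset.sum_le_sum (fun p _ => ?_)
        by_cases h : A p.2 * N ≤ 1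
        · rw [hfA _ h]
          exact le_trans (min_le_right _ _) (mul_nonneg (hf _) (mul_nonneg (hA _) hN.le))
        · have h1 : 1 ≤ A p.2 * N := (not_le.1 h).le
          calc min (f p.1) (f p.2) ≤ f p.1 := min_le_left _ _
            _ ≤ f p.1 * (A p.2 * N) := le_mul_of_one_le_right (hf _) h1
    _ ≤ ∑ p : Fin n × Fin n, f p.1 * (A p.2 * N) :=
        Finset.sum_le_sum_of_subset_of_nonneg (Finset.subset_univ _)
          (fun p _ _ => mul_nonneg (hf _) (mul_nonneg (hA _) hN.le))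
    _ = N * ∑ k, f k := by
        rw [Fintype.sum_prod_type]
        have : ∀ i : Fin n, ∑ j : Fin n, f (i, j).1 * (A (i, j).2 * N) = f i * N := by
          intro i
          simp only
          rw [← Finset.mul_sum, ← Finset.sum_mul, hs, one_mul]
        rw [Finset.sum_congr rfl (fun i _ => this i), ← Finset.sum_mul, mul_comm]


end Pool.Agent.H494.Kac
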