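import Pool.Agent.H494.Kac.Defs

open MeasureTheory Filter Topology
open scoped ENNReal

namespace Pool.Agent.H494.Kac
theorem pair_sum_aux (n : ℕ) (f : Fin n → ℝ) :
    ∑ p ∈ prs n, (f p.1 + f p.2) = ((n : ℝ) - 1) * ∑ k, f k := by
  classical
  have h1 : ∑ p ∈ prs n, (f p.1 + f p.2) = ∑ p ∈ (Finset.univ : Finset (Fin n × Fin n)).filter
      (fun p => p.1 ≠ p.2), f p.1 := by
    have hsw : ∑ p ∈ prs n, f p.2 = ∑ p ∈ (Finset.univ : Finset (Fin n × Fin n)).filter
        (fun p => p.2 < p.1), f p.1 := by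
      refine Finset.sum_bij' (fun p _ => (p.2, p.1)) (fun p _ => (p.2, p.1)) ?_ ?_ ?_ ?_ ?_
      · intro p hp
        simp only [prs, Finset.mem_filter, Finset.mem_univ, true_and] at hp ⊢
        exact hp
      · intro p hp
        simp only [prs, Finset.mem_filter, Finset.mem_univ, true_and] at hp ⊢
        exact hp
      · intro p _; rfl
      · intro p _; rfl
      · intro p _; rfl
    rw [Finset.sum_add_distrib, hsw]
    unfold prs
    rw [← Finset.sum_union]
    · refine Finset.sum_congr ?_ (fun _ _ => rfl)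
      ext p
      simp only [Finset.mem_union, Finset.mem_filter, Finset.mem_univ, true_and]
      exact (lt_or_lt_iff_ne)
    · rw [Finset.disjoint_left]
      intro p hp1 hp2
      simp only [Finset.mem_filter, Finset.mem_univ, true_and] at hp1 hp2
      exact absurd hp1 (not_lt.2 hp2.le)
  rw [h1, Finset.sum_filter, ← Finset.univ_product_univ, Finset.sum_product, Finset.mul_sum]
  refine Finset.sum_congr rfl (fun a _ => ?_)
  simp only
  rw [← Finset.sum_filter, Finset.sum_const, nsmul_eq_mul]
  congr 1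
  have h2 : (Finset.univ.filter (fun b : Fin n => a ≠ b)).card = n - 1 := by
    rw [Finset.filter_ne, Finset.card_erase_of_mem (Finset.mem_univ a), Finset.card_univ,
      Fintype.card_fin]
  rw [h2]
  have : 1 ≤ n := by have := a.2; omega
  push_cast [Nat.cast_sub this]
  ring

theorem pair_sum (n : ℕ) (f : Fin n → ℝ) :
    ∑ p ∈ prs n, (f p.1 + f p.2) = ((n : ℝ) - 1) * ∑ k, f k ∧
    ((prs n).card : ℝ) = n * (n - 1) / 2 ∧ ∀ p ∈ prs n, p.1 ≠ p.2 := by
  refine ⟨pair_sum_aux n f, ?_, ?_⟩
  · have h := pair_sum_aux n (fun _ => 1)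
    simp only [Finset.sum_const, Finset.card_univ, Fintype.card_fin, nsmul_eq_mul, mul_one] at h
    linarith
  · intro p hp
    simp only [prs, Finset.mem_filter, Finset.mem_univ, true_and] at hp
    exact hp.ne

end Pool.Agent.H494.Kac
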