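import Pool.Agent.H494.Kac.Defs

open MeasureTheory Filter Topology
open scoped ENNReal

namespace Pool.Agent.H494.Kac
theorem unif_prob : IsProbabilityMeasure unif := by
  constructor
  unfold unif
  rw [Measure.smul_apply, Measure.restrict_apply_univ, Real.volume_Ico, sub_zero, smul_eq_mul]
  refine ENNReal.inv_mul_cancel ?_ ENNReal.ofReal_ne_top
  rw [Ne, ENNReal.ofReal_eq_zero, not_le]
  exact Real.two_pi_pos

theorem unif_int (F : ℝ → ℝ) : ∫ θ, F θ ∂unif =
    ((ENNReal.ofReal (2 * Real.pi))⁻¹).toReal • ∫ θ in (0 : ℝ)..(2 * Real.pi), F θ := by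
  unfold unif
  rw [integral_smul_measure, integral_Ico_eq_integral_Ioc,
    intervalIntegral.integral_of_le Real.two_pi_pos.le]

theorem unif_basic : IsProbabilityMeasure unif ∧
    (∀ g : ℝ → ℝ, ∫ θ, g (1 - (Real.cos θ) ^ 2) ∂unif = ∫ θ, g ((Real.cos θ) ^ 2) ∂unif) ∧
    (∀ g : ℝ → ℝ, Measurable g → (∃ K, ∀ b, |g b| ≤ K) →
      Integrable (fun θ => g ((Real.cos θ) ^ 2)) unif) := by
  refine ⟨unif_prob, ?_, ?_⟩
  · intro g
    rw [unif_int, unif_int]
    congr 1
    have h1 : (fun θ => g (1 - (Real.cos θ) ^ 2)) =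
        fun θ => (fun y => g ((Real.cos y) ^ 2)) (θ - Real.pi / 2) := by
      funext θ
      simp only [Real.cos_sub_pi_div_two]
      rw [Real.sin_sq]
    rw [h1, intervalIntegral.integral_comp_sub_right (fun y => g ((Real.cos y) ^ 2)) (Real.pi / 2)]
    have hper : Function.Periodic (fun y => g ((Real.cos y) ^ 2)) (2 * Real.pi) := by
      intro y
      simp only [Real.cos_add_two_pi]
    have h2 := hper.intervalIntegral_add_eq (0 - Real.pi / 2) 0
    rw [zero_add] at h2
    rw [← h2]
    congr 1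
    ring
  · rintro g hg ⟨K, hK⟩
    haveI := unif_prob
    refine Integrable.of_bound (hg.comp (by fun_prop)).aestronglyMeasurable K ?_
    exact Filter.Eventually.of_forall fun θ => by rw [Real.norm_eq_abs]; exact hK _

end Pool.Agent.H494.Kac
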