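import Pool.Agent.H494.Kac.S_os_point
import Pool.Agent.H494.Kac.S_pair_sum
import Pool.Agent.H494.Kac.S_pair_min
import Pool.Agent.H494.Kac.S_unif_basic

open MeasureTheory Filter Topology
open scoped ENNReal

namespace Pool.Agent.H494.Kac

theorem one_step (n : ℕ) (hn : 2 ≤ n) (Ψ : ℝ → ℝ) (C L l0 l1 v a h Λ ε1 : ℝ) (hmono : Monotone Ψ)
    (h0 : ∀ y, y ≤ 1 → Ψ y = 0) (hC : ∀ y, Ψ y ≤ C)
    (hlip : ∀ y h, 0 ≤ h → Ψ (y * Real.exp h) ≤ Ψ y + L * h) (hv : 0 < v) (hh : h = 2 * v / n)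
    (hP : ∀ y, 1 ≤ y → l0 * Ψ y + l1 ≤
        v / h * (Ψ (y * Real.exp h) - Ψ y) + 2 * ∫ θ, Ψ (y * (Real.cos θ) ^ 2) ∂unif - Ψ y)
    (ha : 0 < a) (haC : 2 * a * C ≤ 1) (hΛ : 0 < Λ) (hl0 : 0 ≤ l0)
    (hε : ε1 = 2 * (Λ * Real.exp h) / (n - 1) + 2 * C * a) (h1 : ε1 ≤ l0)
    (h2 : L * h * (1 + ε1) ≤ l1) (h3 : 2 / n * (1 + ε1) ≤ 1)
    (A : Fin n → ℝ) (hA : ∀ k, 0 ≤ A k) (hs : ∑ k, A k = 1) :
    Qop n (fun A' => ENNReal.ofReal (Real.exp (-a * ∑ k, Ψ (A' k * (Λ * Real.exp h))))) A ≤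
      ENNReal.ofReal (Real.exp (-a * ∑ k, Ψ (A k * Λ))) := by
  obtain ⟨hprob, hsym, hintg⟩ := unif_basic
  haveI := hprob
  have hn0 : (0 : ℝ) < n := by positivity
  have hn2 : (2 : ℝ) ≤ n := by exact_mod_cast hn
  have hn1 : (0 : ℝ) < (n : ℝ) - 1 := by linarith
  have hhpos : 0 < h := by rw [hh]; positivity
  have hΨ0 : ∀ y, 0 ≤ Ψ y := by
    intro y
    rcases le_total y 1 with hy | hy
    · rw [h0 y hy]
    · calc (0 : ℝ) = Ψ 1 := (h0 1 le_rfl).symm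
        _ ≤ Ψ y := hmono hy
  have hΨb : ∀ y, |Ψ y| ≤ C := fun y => by rw [abs_of_nonneg (hΨ0 y)]; exact hC y
  have hC0 : 0 ≤ C := le_trans (hΨ0 0) (hC 0)
  have hΨm : Measurable Ψ := hmono.measurable
  set N : ℝ := Λ * Real.exp h with hN
  have hNpos : 0 < N := by positivity
  set P : Fin n → ℝ := fun k => Ψ (A k * N) with hPdef
  set K : Fin n → ℝ := fun k => 2 * ∫ θ, Ψ (A k * Λ * (Real.cos θ) ^ 2) ∂unif with hK
  set E0 : ℝ := Real.exp (-a * ∑ k, P k) with hE0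
  have hE0pos : 0 < E0 := Real.exp_pos _
  set X : Fin n × Fin n → ℝ := fun p => 1 - a * ((K p.1 - P p.1) + (K p.2 - P p.2)) +
    2 * a * min (P p.1) (P p.2) + 2 * C * a ^ 2 * (P p.1 + P p.2) with hX
  have hint1 : ∀ y : ℝ, Integrable (fun θ => Ψ (y * (Real.cos θ) ^ 2)) unif := by
    intro y
    exact hintg (fun b => Ψ (y * b)) (hΨm.comp (measurable_const.mul measurable_id)) ⟨C, fun b => hΨb _⟩
  have hint2 : ∀ y : ℝ, Integrable (fun θ => Ψ (y * (1 - (Real.cos θ) ^ 2))) unif := by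
    intro y
    exact hintg (fun b => Ψ (y * (1 - b))) (hΨm.comp (measurable_const.mul (measurable_const.sub measurable_id))) ⟨C, fun b => hΨb _⟩
  have hsym' : ∀ y : ℝ, ∫ θ, Ψ (y * (1 - (Real.cos θ) ^ 2)) ∂unif = ∫ θ, Ψ (y * (Real.cos θ) ^ 2) ∂unif := by
    intro y
    exact hsym (fun b => Ψ (y * b))
  -- each pair
  have hpair : ∀ p ∈ prs n, (∫⁻ θ, ENNReal.ofReal (Real.exp (-a * ∑ k, Ψ (T p.1 p.2 ((Real.cos θ) ^ 2) A k * N))) ∂unif
      ≤ ENNReal.ofReal (E0 * X p)) ∧ 0 ≤ E0 * X p := by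
    intro p hp
    have hne : p.1 ≠ p.2 := (pair_sum n P).2.2 p hp
    set D : ℝ → ℝ := fun θ => E0 * (1 - a * ((Ψ (A p.1 * Λ * (Real.cos θ) ^ 2) + Ψ (A p.1 * Λ * (1 - (Real.cos θ) ^ 2)) - P p.1) +
            (Ψ (A p.2 * Λ * (Real.cos θ) ^ 2) + Ψ (A p.2 * Λ * (1 - (Real.cos θ) ^ 2)) - P p.2)) +
          2 * a * min (P p.1) (P p.2) + 2 * C * a ^ 2 * (P p.1 + P p.2)) with hD
    have hpt : ∀ θ, Real.exp (-a * ∑ k, Ψ (T p.1 p.2 ((Real.cos θ) ^ 2) A k * N)) ≤ D θ := by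
      intro θ
      have := os_point n Ψ C a h Λ hmono h0 hC hhpos.le ha haC hΛ A hA p.1 p.2 hne ((Real.cos θ) ^ 2)
        (sq_nonneg _) (Real.cos_sq_le_one θ)
      simpa [hD, hE0, hPdef, hN] using this
    have i1 := hint1 (A p.1 * Λ)
    have i2 := hint2 (A p.1 * Λ)
    have i3 := hint1 (A p.2 * Λ)
    have i4 := hint2 (A p.2 * Λ)
    have hDint : Integrable D unif := by
      have e1 := ((i1.add i2).sub (integrable_const (P p.1)))
      have e2 := ((i3.add i4).sub (integrable_const (P p.2)))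
      have e3 := (((integrable_const (1:ℝ)).sub ((e1.add e2).const_mul a)).add (integrable_const (2 * a * min (P p.1) (P p.2)))).add
        (integrable_const (2 * C * a ^ 2 * (P p.1 + P p.2)))
      exact (e3.const_mul E0)
    have hDval : ∫ θ, D θ ∂unif = E0 * X p := by
      have h4 : Integrable (fun θ => Ψ (A p.1 * Λ * (Real.cos θ) ^ 2) + Ψ (A p.1 * Λ * (1 - (Real.cos θ) ^ 2)) +
          (Ψ (A p.2 * Λ * (Real.cos θ) ^ 2) + Ψ (A p.2 * Λ * (1 - (Real.cos θ) ^ 2)))) unif :=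
        (i1.add i2).add (i3.add i4)
      have h5 : ∫ θ, (Ψ (A p.1 * Λ * (Real.cos θ) ^ 2) + Ψ (A p.1 * Λ * (1 - (Real.cos θ) ^ 2)) +
          (Ψ (A p.2 * Λ * (Real.cos θ) ^ 2) + Ψ (A p.2 * Λ * (1 - (Real.cos θ) ^ 2)))) ∂unif = K p.1 + K p.2 := by
        have j1 : Integrable (fun θ => Ψ (A p.1 * Λ * (Real.cos θ) ^ 2) + Ψ (A p.1 * Λ * (1 - (Real.cos θ) ^ 2))) unif := i1.add i2
        have j2 : Integrable (fun θ => Ψ (A p.2 * Λ * (Real.cos θ) ^ 2) + Ψ (A p.2 * Λ * (1 - (Real.cos θ) ^ 2))) unif := i3.add i4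
        rw [integral_add j1 j2, integral_add i1 i2, integral_add i3 i4, hsym', hsym']
        simp only [hK]
        ring
      have h6 : D = fun θ => E0 * (1 + a * P p.1 + a * P p.2 + 2 * a * min (P p.1) (P p.2) + 2 * C * a ^ 2 * (P p.1 + P p.2)) +
          (-(E0 * a)) * (Ψ (A p.1 * Λ * (Real.cos θ) ^ 2) + Ψ (A p.1 * Λ * (1 - (Real.cos θ) ^ 2)) +
          (Ψ (A p.2 * Λ * (Real.cos θ) ^ 2) + Ψ (A p.2 * Λ * (1 - (Real.cos θ) ^ 2)))) := by
        funext θ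
        simp only [hD]
        ring
      rw [h6, integral_add (integrable_const _) (h4.const_mul _), integral_const_mul (-(E0 * a)), h5]
      simp only [integral_const, probReal_univ, smul_eq_mul, one_mul, hX]
      ring
    have hnn : 0 ≤ᵐ[unif] D := by
      refine Eventually.of_forall fun θ => ?_
      exact le_trans (Real.exp_pos _).le (hpt θ)
    refine ⟨?_, ?_⟩
    · rw [← hDval, ofReal_integral_eq_lintegral_ofReal hDint hnn]
      exact lintegral_mono fun θ => ENNReal.ofReal_le_ofReal (hpt θ)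
    · rw [← hDval]
      exact integral_nonneg_of_ae hnn
  have hcard : ((prs n).card : ℝ) = n * (n - 1) / 2 := (pair_sum n P).2.1
  have hcardpos : (0 : ℝ) < (prs n).card := by rw [hcard]; positivity
  have hsum : ∑ p ∈ prs n, E0 * X p ≤ E0 * ((prs n).card * (1 - a * (2 / n) * (∑ k, (K k - P k - ε1 * P k)))) := by
    rw [← Finset.mul_sum]
    apply mul_le_mul_of_nonneg_left _ hE0pos.le
    have s1 : ∑ p ∈ prs n, X p = (prs n).card - a * (((n : ℝ) - 1) * ∑ k, (K k - P k)) +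
        2 * a * (∑ p ∈ prs n, min (P p.1) (P p.2)) + 2 * C * a ^ 2 * (((n : ℝ) - 1) * ∑ k, P k) := by
      rw [← (pair_sum n (fun k => K k - P k)).1, ← (pair_sum n P).1]
      simp only [hX, Finset.sum_add_distrib, Finset.sum_sub_distrib, ← Finset.mul_sum, Finset.sum_const, nsmul_eq_mul, mul_one]
    have s2 : ∑ p ∈ prs n, min (P p.1) (P p.2) ≤ N * ∑ k, P k := by
      apply pair_min n P A N (fun k => hΨ0 _) hA hs hNpos
      intro k hk
      exact h0 _ hk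
    have s3 : ∑ k, (K k - P k - ε1 * P k) = ∑ k, (K k - P k) - ε1 * ∑ k, P k := by
      rw [Finset.sum_sub_distrib, Finset.mul_sum]
    rw [s1, s3, hcard, hε]
    have hPs : 0 ≤ ∑ k, P k := Finset.sum_nonneg fun k _ => hΨ0 _
    have key : 2 * a * (∑ p ∈ prs n, min (P p.1) (P p.2)) ≤ 2 * a * (N * ∑ k, P k) :=
      mul_le_mul_of_nonneg_left s2 (by positivity)
    have e1 : (n : ℝ) * (n - 1) / 2 * (1 - a * (2 / n) * (∑ k, (K k - P k) - (2 * N / (n - 1) + 2 * C * a) * ∑ k, P k))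
      = n * (n - 1) / 2 - a * (((n : ℝ) - 1) * ∑ k, (K k - P k)) + 2 * a * (N * ∑ k, P k) + 2 * C * a ^ 2 * (((n : ℝ) - 1) * ∑ k, P k) := by
      field_simp
      ring
    rw [e1]
    linarith
  have hterm : ∀ k, Ψ (A k * Λ) ≤ P k + 2 / n * (K k - P k - ε1 * P k) := by
    intro k
    have hK0 : 0 ≤ K k := by
      simp only [hK]
      exact mul_nonneg (by norm_num) (integral_nonneg fun θ => hΨ0 _)
    have hPe : P k = Ψ (A k * Λ * Real.exp h) := by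
      simp only [hPdef, hN]; congr 1; ring
    have hP0 : 0 ≤ P k := hΨ0 _
    have hε0 : 0 ≤ ε1 := by rw [hε]; positivity
    rcases le_total 1 (A k * Λ) with hy | hy
    · have e1 := hP (A k * Λ) hy
      have e2 : v / h = n / 2 := by rw [hh]; field_simp
      rw [e2, ← hPe] at e1
      have e3 : l0 * Ψ (A k * Λ) + l1 ≤ n / 2 * (P k - Ψ (A k * Λ)) + K k - Ψ (A k * Λ) := by
        simpa [hK] using e1
      have e4 : P k ≤ Ψ (A k * Λ) + L * h := by rw [hPe]; exact hlip _ _ hhpos.le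
      have e5 : 2 / (n:ℝ) * (l0 * Ψ (A k * Λ) + l1) ≤ (P k - Ψ (A k * Λ)) + 2 / n * (K k - Ψ (A k * Λ)) := by
        have := mul_le_mul_of_nonneg_left e3 (show (0:ℝ) ≤ 2 / n by positivity)
        have e6 : 2 / (n:ℝ) * (n / 2 * (P k - Ψ (A k * Λ)) + K k - Ψ (A k * Λ)) = (P k - Ψ (A k * Λ)) + 2 / n * (K k - Ψ (A k * Λ)) := by
          field_simp
          ring
        linarith
      have e7 : 0 ≤ 2 / (n:ℝ) * ((l0 * Ψ (A k * Λ) + l1) - (P k - Ψ (A k * Λ)) - ε1 * P k) := by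
        apply mul_nonneg (by positivity)
        have q1 : ε1 * P k ≤ ε1 * (Ψ (A k * Λ) + L * h) := mul_le_mul_of_nonneg_left e4 hε0
        have q2 : ε1 * Ψ (A k * Λ) ≤ l0 * Ψ (A k * Λ) := mul_le_mul_of_nonneg_right h1 (hΨ0 _)
        nlinarith
      have e8 : P k + 2 / n * (K k - P k - ε1 * P k) - Ψ (A k * Λ) =
        ((P k - Ψ (A k * Λ)) + 2 / n * (K k - Ψ (A k * Λ)) - 2 / (n:ℝ) * (l0 * Ψ (A k * Λ) + l1)) +
         2 / (n:ℝ) * ((l0 * Ψ (A k * Λ) + l1) - (P k - Ψ (A k * Λ)) - ε1 * P k) := by ring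
      linarith
    · rw [h0 _ hy]
      have e1 : P k + 2 / n * (K k - P k - ε1 * P k) = (1 - 2 / n * (1 + ε1)) * P k + 2 / n * K k := by ring
      rw [e1]
      have : 0 ≤ 1 - 2 / n * (1 + ε1) := by linarith
      positivity
  have hfin : ((prs n).card : ℝ)⁻¹ * ∑ p ∈ prs n, E0 * X p ≤ Real.exp (-a * ∑ k, Ψ (A k * Λ)) := by
    calc ((prs n).card : ℝ)⁻¹ * ∑ p ∈ prs n, E0 * X p
        ≤ ((prs n).card : ℝ)⁻¹ * (E0 * ((prs n).card * (1 - a * (2 / n) * (∑ k, (K k - P k - ε1 * P k))))) :=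
          mul_le_mul_of_nonneg_left hsum (by positivity)
      _ = E0 * (1 - a * (2 / n) * (∑ k, (K k - P k - ε1 * P k))) := by
          generalize (∑ k, (K k - P k - ε1 * P k)) = S
          field_simp
      _ ≤ E0 * Real.exp (-(a * (2 / n) * (∑ k, (K k - P k - ε1 * P k)))) := by
          apply mul_le_mul_of_nonneg_left _ hE0pos.le
          have := Real.add_one_le_exp (-(a * (2 / n) * (∑ k, (K k - P k - ε1 * P k))))
          linarith
      _ ≤ Real.exp (-a * ∑ k, Ψ (A k * Λ)) := by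
          rw [hE0, ← Real.exp_add]
          apply Real.exp_le_exp.mpr
          have hs2 : ∑ k, Ψ (A k * Λ) ≤ ∑ k, (P k + 2 / n * (K k - P k - ε1 * P k)) := Finset.sum_le_sum fun k _ => hterm k
          rw [Finset.sum_add_distrib, ← Finset.mul_sum] at hs2
          have := mul_le_mul_of_nonneg_left hs2 ha.le
          nlinarith
  unfold Qop
  calc ((prs n).card : ℝ≥0∞)⁻¹ * ∑ p ∈ prs n, ∫⁻ θ, ENNReal.ofReal (Real.exp (-a * ∑ k, Ψ (T p.1 p.2 ((Real.cos θ) ^ 2) A k * N))) ∂unif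
      ≤ ((prs n).card : ℝ≥0∞)⁻¹ * ∑ p ∈ prs n, ENNReal.ofReal (E0 * X p) := by
        gcongr with p hp
        exact (hpair p hp).1
    _ = ENNReal.ofReal (((prs n).card : ℝ)⁻¹ * ∑ p ∈ prs n, E0 * X p) := by
        rw [ENNReal.ofReal_mul (by positivity), ENNReal.ofReal_sum_of_nonneg (fun p hp => (hpair p hp).2),
          ENNReal.ofReal_inv_of_pos hcardpos, ENNReal.ofReal_natCast]
    _ ≤ ENNReal.ofReal (Real.exp (-a * ∑ k, Ψ (A k * Λ))) := ENNReal.ofReal_le_ofReal hfin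

end Pool.Agent.H494.Kac
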