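import Pool.Agent.H494.Kac.Defs

open MeasureTheory Filter Topology
open scoped ENNReal

namespace Pool.Agent.H494.Kac
theorem polar_shift (G : ℝ → ℝ≥0∞) (hG : ∀ θ, G (θ + 2 * Real.pi) = G θ) (φ : ℝ) :
    ∫⁻ θ, G (θ + φ) ∂unif = ∫⁻ θ, G θ ∂unif := by
  have hT : 0 < 2 * Real.pi := by positivity
  have hper : ∀ (m : AddSubgroup.zmultiples (2 * Real.pi)) (x : ℝ), G (m +ᵥ x) = G x := by
    rintro ⟨_, m, rfl⟩ x
    have h1 : Function.Periodic G (2 * Real.pi) := hG
    show G (m • (2 * Real.pi) + x) = G x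
    rw [add_comm, zsmul_eq_mul]
    exact h1.int_mul m x
  unfold unif
  rw [lintegral_smul_measure, lintegral_smul_measure]
  congr 1
  rw [Measure.restrict_congr_set (Ico_ae_eq_Ioc (a := (0 : ℝ)) (b := 2 * Real.pi))]
  have h1 : ∫⁻ θ in Set.Ioc 0 (2 * Real.pi), G (θ + φ) =
      ∫⁻ θ in Set.Ioc φ (φ + 2 * Real.pi), G θ := by
    have h2 := (measurePreserving_add_right volume φ).setLIntegral_comp_preimage_emb
      (measurableEmbedding_addRight φ) G (Set.Ioc φ (φ + 2 * Real.pi))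
    rw [← h2]
    congr 2
    rw [Set.preimage_add_const_Ioc, sub_self, add_sub_cancel_left]
  rw [h1]
  have h3 := (isAddFundamentalDomain_Ioc hT φ volume).setLIntegral_eq
    (isAddFundamentalDomain_Ioc hT 0 volume) G hper
  rw [h3, zero_add]

theorem polar (n : ℕ) (i j : Fin n) (hij : i ≠ j) (v : E n) (g : (Fin n → ℝ) → ℝ≥0∞)
    (hg : Measurable g) :
    ∫⁻ θ, g (fun k => (rot i j θ v) k ^ 2) ∂unif =
      ∫⁻ θ, g (T i j ((Real.cos θ) ^ 2) (fun k => v k ^ 2)) ∂unif := by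
  obtain ⟨r, φ, hi, hj⟩ : ∃ r φ : ℝ, v i = r * Real.cos φ ∧ v j = r * Real.sin φ := by
    refine ⟨‖(⟨v i, v j⟩ : ℂ)‖, Complex.arg ⟨v i, v j⟩, ?_, ?_⟩
    · rw [Complex.norm_mul_cos_arg]
    · rw [Complex.norm_mul_sin_arg]
  have h1 : ∀ θ, (fun k => (rot i j θ v) k ^ 2) =
      T i j ((Real.cos (θ + φ)) ^ 2) (fun k => v k ^ 2) := by
    intro θ
    funext k
    unfold rot T
    show (if k = i then v i * Real.cos θ - v j * Real.sin θ
      else if k = j then v i * Real.sin θ + v j * Real.cos θ else v k) ^ 2 = _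
    have hr : v i ^ 2 + v j ^ 2 = r ^ 2 := by
      rw [hi, hj]
      have := Real.sin_sq_add_cos_sq φ
      linear_combination r ^ 2 * this
    by_cases hk : k = i
    · rw [if_pos hk, if_pos hk, hr, Real.cos_add, hi, hj]
      ring
    · rw [if_neg hk, if_neg hk]
      by_cases hk' : k = j
      · rw [if_pos hk', if_pos hk', hr]
        have h2 : 1 - Real.cos (θ + φ) ^ 2 = Real.sin (θ + φ) ^ 2 := by
          rw [Real.sin_sq]
        rw [h2, Real.sin_add, hi, hj]
        ring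
      · rw [if_neg hk', if_neg hk']
  simp only [h1]
  exact polar_shift (fun θ => g (T i j ((Real.cos θ) ^ 2) (fun k => v k ^ 2)))
    (fun θ => by simp only [Real.cos_add_two_pi]) φ

end Pool.Agent.H494.Kac
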