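import Pool.Agent.H494.Kac.Defs

open MeasureTheory Filter Topology
open scoped ENNReal

namespace Pool.Agent.H494.Kac
theorem psi_alg (p v m0 m1 m2 : ℝ) (hp : 0 < p) (hm2 : 0 ≤ m2) (h1 : 2 * m1 < v)
    (h2 : 1 - 2 * m0 < 2 * p * m1) :
    ∃ R M l0 l1 : ℝ, 0 < M ∧ M < R ∧ 0 < l0 ∧ 0 < l1 ∧ p * (M * (R - M)) + (R - 2 * M) = 0 ∧
      (∀ x, 0 ≤ x → x ≤ M → 0 ≤ p * (x * (R - x)) + (R - 2 * x)) ∧
      ∀ x, 0 ≤ x → x ≤ M → l0 * (x * (R - x)) + l1 ≤
        (v * p - 1 + 2 * m0) * (x * (R - x)) + (v - 2 * m1) * (R - 2 * x) - 2 * m2 := by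
  have hb : 0 < v - 2 * m1 := by linarith
  have hk : 0 < 2 * p * m1 - (1 - 2 * m0) := by linarith
  set b := v - 2 * m1 with hbdef
  set κ := 2 * p * m1 - (1 - 2 * m0) with hkdef
  set c := 2 * m2 + 1 with hc
  have hcpos : 0 < c := by positivity
  obtain ⟨M, hM1, hM2, hM3⟩ : ∃ M : ℝ, 1 ≤ M ∧ c ≤ b * M ∧ c * (1 + p) ≤ κ / 2 * M := by
    refine ⟨max 1 (max (c / b) (c * (1 + p) * 2 / κ)), le_max_left _ _, ?_, ?_⟩
    · have : c / b ≤ max 1 (max (c / b) (c * (1 + p) * 2 / κ)) :=
        (le_max_left _ _).trans (le_max_right _ _)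
      calc c = b * (c / b) := by field_simp
        _ ≤ _ := mul_le_mul_of_nonneg_left this hb.le
    · have : c * (1 + p) * 2 / κ ≤ max 1 (max (c / b) (c * (1 + p) * 2 / κ)) :=
        (le_max_right _ _).trans (le_max_right _ _)
      calc c * (1 + p) = κ / 2 * (c * (1 + p) * 2 / κ) := by field_simp
        _ ≤ _ := mul_le_mul_of_nonneg_left this (by positivity)
  have hM0 : 0 < M := by linarith
  have hpM : 0 < 1 + p * M := by positivity
  set y := M / (1 + p * M) with hy
  have hy0 : 0 < y := by positivity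
  have hyM : y * (1 + p * M) = M := by rw [hy]; field_simp
  have hroot : y - M + p * (M * y) = 0 := by linarith [hyM]
  refine ⟨M + y, M, κ / 2, 1, hM0, by linarith, by positivity, one_pos, ?_, ?_, ?_⟩
  · have : p * (M * (M + y - M)) + (M + y - 2 * M) = y - M + p * (M * y) := by ring
    rw [this, hroot]
  · intro x hx0 hxM
    have h3 : M * (p * (x * (M + y - x)) + (M + y - 2 * x)) =
        (M - x) * (M + y) + x * (y - M + p * (M * y)) + p * x * (M - x) * M := by ring
    have h4 : 0 ≤ M * (p * (x * (M + y - x)) + (M + y - 2 * x)) := by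
      rw [h3, hroot]
      have : 0 ≤ M - x := by linarith
      positivity
    exact nonneg_of_mul_nonneg_right h4 hM0
  · intro x hx0 hxM
    have hlam : v * p - 1 + 2 * m0 - κ / 2 = κ / 2 + p * b := by
      rw [hkdef, hbdef]; ring
    have ha : 0 ≤ κ / 2 + p * b := by positivity
    have hx' : 0 ≤ M - x := by linarith
    have q0 : 0 ≤ b * (M + y) - c := by nlinarith [mul_pos hb hy0]
    have hMy : M ≤ (1 + p) * (M * y) := by
      have h5 : 1 + p * M ≤ (1 + p) * M := by nlinarith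
      have h6 : y * (1 + p * M) ≤ y * ((1 + p) * M) := mul_le_mul_of_nonneg_left h5 hy0.le
      nlinarith
    have q1 : 0 ≤ (κ / 2 + p * b) * (M * y) + b * (y - M) - c := by
      have h7 : (κ / 2 + p * b) * (M * y) + b * (y - M) - c
          = κ / 2 * (M * y) - c + b * (y - M + p * (M * y)) := by ring
      rw [h7, hroot]
      have h8 : κ / 2 * M ≤ κ / 2 * ((1 + p) * (M * y)) :=
        mul_le_mul_of_nonneg_left hMy (by positivity)
      have h9 : c * (1 + p) ≤ (κ / 2 * (M * y)) * (1 + p) := by nlinarith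
      have h10 : c ≤ κ / 2 * (M * y) := le_of_mul_le_mul_right h9 (by positivity)
      linarith
    have h3 : M * ((κ / 2 + p * b) * (x * (M + y - x)) + b * (M + y - 2 * x) - c) =
        (M - x) * (b * (M + y) - c) + x * ((κ / 2 + p * b) * (M * y) + b * (y - M) - c)
          + (κ / 2 + p * b) * x * (M - x) * M := by ring
    have h4 : 0 ≤ M * ((κ / 2 + p * b) * (x * (M + y - x)) + b * (M + y - 2 * x) - c) := by
      rw [h3]
      have e1 := mul_nonneg hx' q0
      have e2 := mul_nonneg hx0 q1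
      have e3 : 0 ≤ (κ / 2 + p * b) * x * (M - x) * M := by positivity
      linarith
    have h5 := nonneg_of_mul_nonneg_right h4 hM0
    have h6 : (v * p - 1 + 2 * m0) * (x * (M + y - x)) =
        (κ / 2 + (κ / 2 + p * b)) * (x * (M + y - x)) := by rw [← hlam]; ring
    rw [h6]
    have hc' : c = 2 * m2 + 1 := hc
    nlinarith

end Pool.Agent.H494.Kac
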