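import Pool.Agent.H494.Kac.Defs

open MeasureTheory Filter Topology
open scoped ENNReal

namespace Pool.Agent.H494.Kac
theorem psi_int_fin : IsFiniteMeasure unif := by
  constructor
  unfold unif
  rw [Measure.smul_apply, Measure.restrict_apply_univ, Real.volume_Ico, smul_eq_mul]
  refine ENNReal.mul_lt_top ?_ ENNReal.ofReal_lt_top
  rw [ENNReal.inv_lt_top, ENNReal.ofReal_pos]
  positivity

theorem psi_int_ae : ∀ᵐ θ ∂unif, Real.cos θ ≠ 0 := by
  have h1 : ∀ᵐ θ ∂(volume : Measure ℝ), Real.cos θ ≠ 0 := by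
    have h2 : {θ : ℝ | Real.cos θ = 0}.Countable := by
      have h3 : {θ : ℝ | Real.cos θ = 0} ⊆
          Set.range (fun k : ℤ => (2 * (k:ℝ) + 1) * Real.pi / 2) := by
        intro θ hθ
        obtain ⟨k, hk⟩ := Real.cos_eq_zero_iff.1 hθ
        exact ⟨k, hk.symm⟩
      exact (Set.countable_range _).mono h3
    have h4 := h2.measure_zero (volume : Measure ℝ)
    rw [ae_iff]
    simpa using h4
  unfold unif
  exact Measure.ae_smul_measure (ae_restrict_of_ae h1) _

theorem psi_int_bd (f : ℝ → ℝ) (hf : Measurable f) (C : ℝ)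
    (h : ∀ θ, Real.cos θ ≠ 0 → |f θ| ≤ C) : Integrable f unif := by
  haveI := psi_int_fin
  refine Integrable.of_bound hf.aestronglyMeasurable C ?_
  filter_upwards [psi_int_ae] with θ hθ
  rw [Real.norm_eq_abs]
  exact h θ hθ

theorem psi_int (p : ℝ) (hp : 0 < p) (R x : ℝ) :
    Integrable (fun θ => Real.exp (p * (x + Real.log ((Real.cos θ) ^ 2))) *
      ((x + Real.log ((Real.cos θ) ^ 2)) * (R - (x + Real.log ((Real.cos θ) ^ 2))))) unif ∧
    ∫ θ, Real.exp (p * (x + Real.log ((Real.cos θ) ^ 2))) *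
      ((x + Real.log ((Real.cos θ) ^ 2)) * (R - (x + Real.log ((Real.cos θ) ^ 2)))) ∂unif =
      Real.exp (p * x) * (mom p * (x * (R - x)) - lm p * (R - 2 * x) - lm2 p) := by
  have hb : ∀ θ, Real.cos θ ≠ 0 → 0 < Real.cos θ ^ 2 := fun θ h => by positivity
  have hb1 : ∀ θ, Real.cos θ ^ 2 ≤ 1 := Real.cos_sq_le_one
  have i0 : Integrable (fun θ => ((Real.cos θ) ^ 2) ^ p) unif := by
    refine psi_int_bd _ (by fun_prop) 1 ?_
    intro θ hθ
    rw [abs_of_nonneg (by positivity)]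
    exact Real.rpow_le_one (sq_nonneg _) (hb1 θ) hp.le
  have i1 : Integrable (fun θ => ((Real.cos θ) ^ 2) ^ p * Real.log ((Real.cos θ) ^ 2)) unif := by
    refine psi_int_bd _ (by fun_prop) (1 / p) ?_
    intro θ hθ
    rw [mul_comm]
    exact (Real.abs_log_mul_self_rpow_lt _ p (hb θ hθ) (hb1 θ) hp).le
  have i2 : Integrable
      (fun θ => ((Real.cos θ) ^ 2) ^ p * (Real.log ((Real.cos θ) ^ 2)) ^ 2) unif := by
    refine psi_int_bd _ (by fun_prop) ((1 / (p/2))^2) ?_
    intro θ hθ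
    have h1 := Real.abs_log_mul_self_rpow_lt _ (p/2) (hb θ hθ) (hb1 θ) (by linarith)
    have h2 : ((Real.cos θ) ^ 2) ^ p * (Real.log ((Real.cos θ) ^ 2)) ^ 2 =
        (Real.log (Real.cos θ ^ 2) * (Real.cos θ ^ 2) ^ (p/2)) ^ 2 := by
      have h3 : ((Real.cos θ ^ 2) ^ (p/2)) ^ 2 = (Real.cos θ ^ 2) ^ p := by
        rw [← Real.rpow_natCast ((Real.cos θ ^ 2) ^ (p/2)) 2, ← Real.rpow_mul (sq_nonneg _)]
        congr 1
        push_cast
        ring
      rw [mul_pow, h3]
      ring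
    rw [h2, abs_pow]
    exact pow_le_pow_left₀ (abs_nonneg _) h1.le 2
  have hae : (fun θ => Real.exp (p * (x + Real.log ((Real.cos θ) ^ 2))) *
      ((x + Real.log ((Real.cos θ) ^ 2)) * (R - (x + Real.log ((Real.cos θ) ^ 2))))) =ᵐ[unif]
      (fun θ => Real.exp (p * x) * (x * (R - x)) * ((Real.cos θ) ^ 2) ^ p +
        Real.exp (p * x) * (R - 2 * x) *
          (((Real.cos θ) ^ 2) ^ p * Real.log ((Real.cos θ) ^ 2)) -
        Real.exp (p * x) * (((Real.cos θ) ^ 2) ^ p * (Real.log ((Real.cos θ) ^ 2)) ^ 2)) := by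
    filter_upwards [psi_int_ae] with θ hθ
    have h1 : Real.exp (p * (x + Real.log ((Real.cos θ) ^ 2))) =
        Real.exp (p * x) * ((Real.cos θ) ^ 2) ^ p := by
      rw [Real.rpow_def_of_pos (hb θ hθ), ← Real.exp_add]
      congr 1
      ring
    rw [h1]
    ring
  have j := ((i0.const_mul (Real.exp (p * x) * (x * (R - x)))).add
    (i1.const_mul (Real.exp (p * x) * (R - 2 * x)))).sub (i2.const_mul (Real.exp (p * x)))
  refine ⟨(integrable_congr hae).2 j, ?_⟩
  have k0 := i0.const_mul (Real.exp (p * x) * (x * (R - x)))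
  have k1 := i1.const_mul (Real.exp (p * x) * (R - 2 * x))
  have k2 := i2.const_mul (Real.exp (p * x))
  have k01 : Integrable (fun θ => Real.exp (p * x) * (x * (R - x)) * ((Real.cos θ) ^ 2) ^ p +
        Real.exp (p * x) * (R - 2 * x) *
          (((Real.cos θ) ^ 2) ^ p * Real.log ((Real.cos θ) ^ 2))) unif := k0.add k1
  rw [integral_congr_ae hae, integral_sub k01 k2, integral_add k0 k1, integral_const_mul,
    integral_const_mul, integral_const_mul]
  have e1 : lm p = -∫ θ, ((Real.cos θ) ^ 2) ^ p * Real.log ((Real.cos θ) ^ 2) ∂unif := by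
    unfold lm
    rw [integral_neg]
  rw [e1]
  unfold mom lm2
  ring

end Pool.Agent.H494.Kac
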