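import Pool.Agent.H494.Kac.Defs

open MeasureTheory Filter Topology
open scoped ENNReal

namespace Pool.Agent.H494.Kac
theorem psi_main_fin : IsFiniteMeasure unif := by
  unfold unif
  refine ⟨?_⟩
  rw [Measure.smul_apply, smul_eq_mul]
  refine ENNReal.mul_lt_top ?_ (measure_lt_top _ _)
  rw [ENNReal.inv_lt_top]
  exact ENNReal.ofReal_pos.2 Real.two_pi_pos

theorem psi_main_ae : ∀ᵐ θ ∂unif, Real.cos θ ≠ 0 := by
  have h1 : (Set.range fun k : ℤ => (2 * (k : ℝ) + 1) * Real.pi / 2).Countable :=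
    Set.countable_range _
  have h2 : ∀ᵐ θ : ℝ ∂volume, Real.cos θ ≠ 0 := by
    filter_upwards [h1.ae_notMem volume] with θ hθ h0
    obtain ⟨k, hk⟩ := Real.cos_eq_zero_iff.1 h0
    exact hθ ⟨k, hk.symm⟩
  unfold unif
  exact Measure.ae_smul_measure (ae_restrict_of_ae h2) _

/-- clamping -/
noncomputable def psicl (M x : ℝ) : ℝ := max 0 (min x M)

theorem psicl_mem {M : ℝ} (hM : 0 < M) (x : ℝ) : psicl M x ∈ Set.Icc 0 M :=
  ⟨le_max_left _ _, max_le hM.le (min_le_right _ _)⟩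

theorem psicl_mono {M : ℝ} : Monotone (psicl M) := fun _ _ h =>
  max_le_max le_rfl (min_le_min h le_rfl)

theorem psicl_add {M x h : ℝ} (hh : 0 ≤ h) : psicl M (x + h) ≤ psicl M x + h := by
  unfold psicl
  rcases le_total x M with h1 | h1
  · rw [min_eq_left h1]
    have := le_max_left 0 x
    have := le_max_right 0 x
    exact max_le (by linarith) ((min_le_left _ _).trans (by linarith))
  · rw [min_eq_right h1]
    have := le_max_left 0 M
    have := le_max_right 0 M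
    exact max_le (by linarith) ((min_le_right _ _).trans (by linarith))

theorem psicl_of_mem {M x : ℝ} (h : x ∈ Set.Icc 0 M) : psicl M x = x := by
  unfold psicl
  rw [min_eq_left h.2, max_eq_right h.1]

theorem psicl_neg {M x : ℝ} (hM : 0 < M) (h : x ≤ 0) : psicl M x = 0 := by
  unfold psicl
  rw [min_eq_left (h.trans hM.le), max_eq_left h]

theorem psicl_ge {M x : ℝ} (hM : 0 < M) (h : M ≤ x) : psicl M x = M := by
  unfold psicl
  rw [min_eq_right h, max_eq_right hM.le]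

theorem psi_main (p v m0 m1 m2 R M l0 l1 : ℝ) (hp : 0 < p) (hv : 0 < v) (hM : 0 < M) (hMR : M < R)
    (hl0 : 0 < l0) (hl1 : 0 < l1) (hMeq : p * (M * (R - M)) + (R - 2 * M) = 0)
    (hder : ∀ x, 0 ≤ x → x ≤ M → 0 ≤ p * (x * (R - x)) + (R - 2 * x))
    (hbr : ∀ x, 0 ≤ x → x ≤ M → l0 * (x * (R - x)) + l1 ≤
        (v * p - 1 + 2 * m0) * (x * (R - x)) + (v - 2 * m1) * (R - 2 * x) - 2 * m2)
    (hint : ∀ x, Integrable (fun θ => Real.exp (p * (x + Real.log ((Real.cos θ) ^ 2))) *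
      ((x + Real.log ((Real.cos θ) ^ 2)) * (R - (x + Real.log ((Real.cos θ) ^ 2))))) unif ∧
      ∫ θ, Real.exp (p * (x + Real.log ((Real.cos θ) ^ 2))) *
      ((x + Real.log ((Real.cos θ) ^ 2)) * (R - (x + Real.log ((Real.cos θ) ^ 2)))) ∂unif =
      Real.exp (p * x) * (m0 * (x * (R - x)) - m1 * (R - 2 * x) - m2)) :
    ∃ (Ψ : ℝ → ℝ) (C Y L l0' l1' h0 : ℝ), 0 < C ∧ 1 ≤ Y ∧ 0 < l0' ∧ 0 < l1' ∧ 0 < h0 ∧
      Monotone Ψ ∧ (∀ y, y ≤ 1 → Ψ y = 0) ∧ (∀ y, Y ≤ y → Ψ y = C) ∧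
      (∀ y h, 0 ≤ h → Ψ (y * Real.exp h) ≤ Ψ y + L * h) ∧
      ∀ y h, 1 ≤ y → 0 < h → h ≤ h0 → l0' * Ψ y + l1' ≤
        v / h * (Ψ (y * Real.exp h) - Ψ y) + 2 * ∫ θ, Ψ (y * (Real.cos θ) ^ 2) ∂unif - Ψ y := by
  have hfin := psi_main_fin
  obtain ⟨f, hf⟩ : ∃ f : ℝ → ℝ, ∀ x, f x = Real.exp (p * x) * (x * (R - x)) := ⟨_, fun _ => rfl⟩
  obtain ⟨f1, hf1⟩ : ∃ f1 : ℝ → ℝ, ∀ x, f1 x =
    Real.exp (p * x) * (p * (x * (R - x)) + (R - 2 * x)) := ⟨_, fun _ => rfl⟩
  obtain ⟨f2, hf2⟩ : ∃ f2 : ℝ → ℝ, ∀ x, f2 x =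
    Real.exp (p * x) * (p ^ 2 * (x * (R - x)) + 2 * p * (R - 2 * x) - 2) := ⟨_, fun _ => rfl⟩
  have hff : f = fun x => Real.exp (p * x) * (x * (R - x)) := funext hf
  have hff1 : f1 = fun x => Real.exp (p * x) * (p * (x * (R - x)) + (R - 2 * x)) := funext hf1
  have hff2 : f2 = fun x => Real.exp (p * x) * (p ^ 2 * (x * (R - x)) + 2 * p * (R - 2 * x) - 2) :=
    funext hf2
  have hexp : ∀ x, HasDerivAt (fun x => Real.exp (p * x)) (Real.exp (p * x) * p) x := fun x => by
    have h := ((hasDerivAt_id x).const_mul p).exp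
    simpa using h
  have hq : ∀ x, HasDerivAt (fun x => x * (R - x)) (R - 2 * x) x := fun x => by
    have h := (hasDerivAt_id x).mul ((hasDerivAt_const x R).sub (hasDerivAt_id x))
    have e : (1 * (R - x) + x * (0 - 1)) = R - 2 * x := by ring
    rw [← e]
    exact h
  have hq2 : ∀ x, HasDerivAt (fun x => R - 2 * x) (-2) x := fun x => by
    have h := (hasDerivAt_const x R).sub ((hasDerivAt_id x).const_mul 2)
    have e : (0 - 2 * 1 : ℝ) = -2 := by norm_num
    rw [← e]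
    exact h
  have hd1 : ∀ x, HasDerivAt f (f1 x) x := fun x => by
    have h := (hexp x).mul (hq x)
    rw [hff, hf1]
    have e : Real.exp (p * x) * p * (x * (R - x)) + Real.exp (p * x) * (R - 2 * x) =
      Real.exp (p * x) * (p * (x * (R - x)) + (R - 2 * x)) := by ring
    rw [← e]
    exact h
  have hd2 : ∀ x, HasDerivAt f1 (f2 x) x := fun x => by
    have h := (hexp x).mul (((hq x).const_mul p).add (hq2 x))
    rw [hff1, hf2]
    have e : Real.exp (p * x) * p * (p * (x * (R - x)) + (R - 2 * x)) +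
      Real.exp (p * x) * (p * (R - 2 * x) + -2) =
      Real.exp (p * x) * (p ^ 2 * (x * (R - x)) + 2 * p * (R - 2 * x) - 2) := by ring
    rw [← e]
    exact h
  have hcf : Continuous f := continuous_iff_continuousAt.2 fun x => (hd1 x).continuousAt
  have hcf1 : Continuous f1 := continuous_iff_continuousAt.2 fun x => (hd2 x).continuousAt
  have hcf2 : Continuous f2 := by rw [hff2]; fun_prop
  obtain ⟨L, hL⟩ := isCompact_Icc.exists_bound_of_continuousOn (s := Set.Icc (0:ℝ) M)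
    hcf1.continuousOn
  obtain ⟨B, hB⟩ := isCompact_Icc.exists_bound_of_continuousOn (s := Set.Icc (0:ℝ) M)
    hcf2.continuousOn
  have h0mem : (0:ℝ) ∈ Set.Icc 0 M := ⟨le_rfl, hM.le⟩
  have hMmem : M ∈ Set.Icc 0 M := ⟨hM.le, le_rfl⟩
  have hL0 : 0 ≤ L := (norm_nonneg _).trans (hL 0 h0mem)
  have hB0 : 0 ≤ B := (norm_nonneg _).trans (hB 0 h0mem)
  have hf1nn : ∀ x ∈ Set.Icc 0 M, 0 ≤ f1 x := fun x hx => by
    rw [hf1]
    exact mul_nonneg (Real.exp_pos _).le (hder x hx.1 hx.2)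
  have hf1M : f1 M = 0 := by rw [hf1, hMeq, mul_zero]
  have hmono : MonotoneOn f (Set.Icc 0 M) := by
    refine monotoneOn_of_deriv_nonneg (convex_Icc 0 M) hcf.continuousOn
      (fun x _ => (hd1 x).differentiableAt.differentiableWithinAt) fun x hx => ?_
    rw [(hd1 x).deriv]
    exact hf1nn x (interior_subset hx)
  have hf0 : f 0 = 0 := by rw [hf]; ring
  have hlip : ∀ x ∈ Set.Icc 0 M, ∀ y ∈ Set.Icc 0 M, |f y - f x| ≤ L * |y - x| := fun x hx y hy =>
    Convex.norm_image_sub_le_of_norm_hasDerivWithin_le (f' := f1)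
      (fun z _ => (hd1 z).hasDerivWithinAt) hL (convex_Icc 0 M) hx hy
  have hlip1 : ∀ x ∈ Set.Icc 0 M, ∀ y ∈ Set.Icc 0 M, |f1 y - f1 x| ≤ B * |y - x| :=
    fun x hx y hy =>
    Convex.norm_image_sub_le_of_norm_hasDerivWithin_le (f' := f2)
      (fun z _ => (hd2 z).hasDerivWithinAt) hB (convex_Icc 0 M) hx hy
  -- psi
  obtain ⟨ψ, hψ⟩ : ∃ ψ : ℝ → ℝ, ∀ x, ψ x = f (psicl M x) := ⟨_, fun _ => rfl⟩
  have hψmono : Monotone ψ := fun x y h => by
    rw [hψ, hψ]
    exact hmono (psicl_mem hM x) (psicl_mem hM y) (psicl_mono h)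
  have hψge : ∀ x, x ≤ M → f x ≤ ψ x := fun x hx => by
    rw [hψ]
    rcases le_total 0 x with h | h
    · rw [psicl_of_mem ⟨h, hx⟩]
    · rw [psicl_neg hM h, hf0, hf]
      have h1 : x * (R - x) ≤ 0 := mul_nonpos_of_nonpos_of_nonneg h (by linarith)
      exact mul_nonpos_of_nonneg_of_nonpos (Real.exp_pos _).le h1
  have hψlip : ∀ x h, 0 ≤ h → ψ (x + h) ≤ ψ x + L * h := fun x h hh => by
    rw [hψ, hψ]
    have h1 := hlip _ (psicl_mem hM x) _ (psicl_mem hM (x + h))
    have h2 : psicl M x ≤ psicl M (x + h) := psicl_mono (by linarith)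
    have h3 : psicl M (x + h) ≤ psicl M x + h := psicl_add hh
    rw [abs_of_nonneg (sub_nonneg.2 h2)] at h1
    have h4 := (le_abs_self _).trans h1
    have h5 : L * (psicl M (x + h) - psicl M x) ≤ L * h :=
      mul_le_mul_of_nonneg_left (by linarith) hL0
    linarith
  have hψsec : ∀ x ∈ Set.Icc 0 M, ∀ h, 0 < h → h * f1 x - B * h ^ 2 ≤ ψ (x + h) - ψ x := by
    intro x hx h hh
    rw [hψ x, psicl_of_mem hx]
    rcases le_total (x + h) M with h1 | h1
    · rw [hψ, psicl_of_mem ⟨by linarith [hx.1], h1⟩]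
      obtain ⟨ξ, hξ, hξe⟩ := exists_hasDerivAt_eq_slope f f1 (show x < x + h by linarith)
        hcf.continuousOn (fun z _ => hd1 z)
      have hξm : ξ ∈ Set.Icc 0 M := ⟨by linarith [hx.1, hξ.1], by linarith [hξ.2]⟩
      have h2 := hlip1 x hx ξ hξm
      rw [abs_of_pos (by linarith [hξ.1] : 0 < ξ - x)] at h2
      have h3 := (abs_le.1 h2).1
      have h4 : B * (ξ - x) ≤ B * h := mul_le_mul_of_nonneg_left (by linarith [hξ.2]) hB0
      have h5 : f (x + h) - f x = f1 ξ * h := by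
        rw [hξe]
        have : x + h - x = h := by ring
        rw [this]
        field_simp
      rw [h5]
      nlinarith
    · rw [hψ, psicl_ge hM h1]
      have h2 := hlip1 x hx M hMmem
      rw [hf1M, abs_of_nonneg (by linarith [hx.2] : 0 ≤ M - x)] at h2
      have h3 := (abs_le.1 h2).1
      have h4 : B * (M - x) ≤ B * h := mul_le_mul_of_nonneg_left (by linarith) hB0
      have h5 := hmono hx hMmem hx.2
      nlinarith
  have hψM : ∀ x, ψ x ≤ f M := fun x => by
    rw [hψ]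
    exact hmono (psicl_mem hM x) hMmem (psicl_mem hM x).2
  have hψ0 : ∀ x, 0 ≤ ψ x := fun x => by
    rw [hψ, ← hf0]
    exact hmono h0mem (psicl_mem hM x) (psicl_mem hM x).1
  -- Psi
  obtain ⟨Ψ, hΨ⟩ : ∃ Ψ : ℝ → ℝ, ∀ y, Ψ y = ψ (Real.log (max y 1)) := ⟨_, fun _ => rfl⟩
  have hΨmono : Monotone Ψ := fun x y h => by
    rw [hΨ, hΨ]
    exact hψmono (Real.log_le_log (lt_of_lt_of_le one_pos (le_max_right _ _))
      (max_le_max h le_rfl))
  have hΨlog : ∀ y, 0 < y → Ψ y = ψ (Real.log y) := fun y hy => by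
    rw [hΨ]
    rcases le_total y 1 with h | h
    · rw [max_eq_right h, Real.log_one, hψ, hψ, psicl_neg hM le_rfl,
        psicl_neg hM (Real.log_nonpos hy.le h)]
    · rw [max_eq_left h]
  have hCpos : 0 < f M := by
    rw [hf]
    exact mul_pos (Real.exp_pos _) (mul_pos hM (by linarith))
  have hΨint : ∀ y, Integrable (fun θ => Ψ (y * (Real.cos θ) ^ 2)) unif := fun y => by
    refine Integrable.of_bound (C := f M) ?_ (Filter.Eventually.of_forall fun θ => ?_)
    · refine (hΨmono.measurable.comp ?_).aestronglyMeasurable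
      fun_prop
    · rw [Real.norm_eq_abs, hΨ, abs_of_nonneg (hψ0 _)]
      exact hψM _
  -- integral bound
  have hI : ∀ x ∈ Set.Icc 0 M, ∀ y, Real.exp x ≤ y →
      Real.exp (p * x) * (m0 * (x * (R - x)) - m1 * (R - 2 * x) - m2) ≤
      ∫ θ, Ψ (y * (Real.cos θ) ^ 2) ∂unif := by
    intro x hx y hy
    rw [← (hint x).2]
    refine integral_mono_ae (hint x).1 (hΨint y) ?_
    filter_upwards [psi_main_ae] with θ hθ
    have hc : 0 < (Real.cos θ) ^ 2 := by positivity
    have h1 : Real.log (Real.exp x * (Real.cos θ) ^ 2) = x + Real.log ((Real.cos θ) ^ 2) := by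
      rw [Real.log_mul (Real.exp_pos _).ne' hc.ne', Real.log_exp]
    have h2 : Ψ (Real.exp x * (Real.cos θ) ^ 2) ≤ Ψ (y * (Real.cos θ) ^ 2) :=
      hΨmono (mul_le_mul_of_nonneg_right hy hc.le)
    refine le_trans ?_ h2
    rw [hΨlog _ (by positivity), h1]
    have h3 : Real.log ((Real.cos θ) ^ 2) ≤ 0 := by
      refine Real.log_nonpos hc.le ?_
      exact Real.cos_sq_le_one θ
    have h4 := hψge (x + Real.log ((Real.cos θ) ^ 2)) (by linarith [hx.2])
    rw [hf] at h4
    exact h4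
  have hmain : ∀ x ∈ Set.Icc 0 M, l0 * f x + l1 ≤ v * f1 x +
      2 * (Real.exp (p * x) * (m0 * (x * (R - x)) - m1 * (R - 2 * x) - m2)) - f x := by
    intro x hx
    have h1 := hbr x hx.1 hx.2
    have h2 : 1 ≤ Real.exp (p * x) := Real.one_le_exp (mul_nonneg hp.le hx.1)
    have h3 := mul_le_mul_of_nonneg_left h1 (Real.exp_pos (p * x)).le
    rw [hf, hf1]
    have h4 : l1 ≤ Real.exp (p * x) * l1 := le_mul_of_one_le_left hl1.le h2
    nlinarith
  refine ⟨Ψ, f M, Real.exp M, L, l0, l1 / 2, l1 / (2 * v * (B + 1)), hCpos,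
    Real.one_le_exp hM.le, hl0, by positivity, by positivity, hΨmono, ?_, ?_, ?_, ?_⟩
  · intro y hy
    rw [hΨ, max_eq_right hy, Real.log_one, hψ, psicl_neg hM le_rfl, hf0]
  · intro y hy
    have hy0 : 0 < y := lt_of_lt_of_le (Real.exp_pos _) hy
    rw [hΨlog y hy0, hψ, psicl_ge hM ((Real.le_log_iff_exp_le hy0).2 hy)]
  · intro y h hh
    rw [hΨ, hΨ]
    refine le_trans (hψmono ?_) (hψlip (Real.log (max y 1)) h hh)
    have h1 : max (y * Real.exp h) 1 ≤ max y 1 * Real.exp h := by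
      have h2 : 1 ≤ Real.exp h := Real.one_le_exp hh
      refine max_le (mul_le_mul_of_nonneg_right (le_max_left _ _) (Real.exp_pos _).le) ?_
      have h3 : 1 ≤ max y 1 := le_max_right _ _
      nlinarith
    have h4 : (0:ℝ) < max y 1 := lt_of_lt_of_le one_pos (le_max_right _ _)
    have h5 := Real.log_le_log (lt_of_lt_of_le one_pos (le_max_right _ _)) h1
    rwa [Real.log_mul h4.ne' (Real.exp_pos _).ne', Real.log_exp] at h5
  · intro y h hy hh hh0
    have hy0 : 0 < y := by linarith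
    have hx0 : 0 ≤ Real.log y := Real.log_nonneg hy
    have hlog : Real.log (y * Real.exp h) = Real.log y + h := by
      rw [Real.log_mul hy0.ne' (Real.exp_pos _).ne', Real.log_exp]
    rw [hΨlog y hy0, hΨlog _ (by positivity), hlog]
    rcases le_total (Real.log y) M with hc | hc
    · have hxm : Real.log y ∈ Set.Icc 0 M := ⟨hx0, hc⟩
      have h1 := hψsec _ hxm h hh
      have h2 := hI _ hxm y (by rw [Real.exp_log hy0])
      have h3 := hmain _ hxm
      have h4 : ψ (Real.log y) = f (Real.log y) := by rw [hψ, psicl_of_mem hxm]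
      have h5 : v * f1 (Real.log y) - v * B * h ≤
          v / h * (ψ (Real.log y + h) - ψ (Real.log y)) := by
        have h6 := mul_le_mul_of_nonneg_left h1 (div_pos hv hh).le
        refine le_trans (le_of_eq ?_) h6
        field_simp
      have h7 : v * B * h ≤ l1 / 2 := by
        have h8 : v * (B + 1) * h ≤ v * (B + 1) * (l1 / (2 * v * (B + 1))) :=
          mul_le_mul_of_nonneg_left hh0 (by positivity)
        have h9 : v * (B + 1) * (l1 / (2 * v * (B + 1))) = l1 / 2 := by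
          field_simp
        have h10 : v * B * h ≤ v * (B + 1) * h := by nlinarith [mul_pos hv hh]
        linarith
      rw [h4] at h5 ⊢
      linarith
    · have h1 : ψ (Real.log y) = f M := by rw [hψ, psicl_ge hM hc]
      have h2 : ψ (Real.log y + h) = f M := by rw [hψ, psicl_ge hM (by linarith)]
      have h3 := hI M hMmem y ((Real.le_log_iff_exp_le hy0).1 hc)
      have h4 := hmain M hMmem
      rw [hf1M] at h4
      rw [h1, h2]
      linarith

end Pool.Agent.H494.Kac
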