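import Pool.Agent.H494.Kac.Defs

open MeasureTheory Filter Topology
open scoped ENNReal

namespace Pool.Agent.H494.Kac
theorem qop_affine (n : ℕ) (hn : 2 ≤ n) (u w : ℝ) (hu : 0 ≤ u) (g : (Fin n → ℝ) → ℝ)
    (hg : Measurable g) (hprob : IsProbabilityMeasure unif) (A : Fin n → ℝ) :
    Qop n (fun A => ENNReal.ofReal (u * g A + w)) A ≤
      ENNReal.ofReal u * Qop n (fun A => ENNReal.ofReal (g A)) A + ENNReal.ofReal w := by
  have hcard : ((prs n).card : ℝ≥0∞) ≠ 0 := by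
    have h : (prs n).card ≠ 0 := by
      apply Finset.card_ne_zero_of_mem (a := ((⟨0, by omega⟩ : Fin n), (⟨1, by omega⟩ : Fin n)))
      simp [prs]
    exact_mod_cast h
  have hcard' : ((prs n).card : ℝ≥0∞) ≠ ⊤ := ENNReal.natCast_ne_top _
  have hterm : ∀ p ∈ prs n,
      ∫⁻ θ, ENNReal.ofReal (u * g (T p.1 p.2 ((Real.cos θ) ^ 2) A) + w) ∂unif ≤
      ENNReal.ofReal u * ∫⁻ θ, ENNReal.ofReal (g (T p.1 p.2 ((Real.cos θ) ^ 2) A)) ∂unif
        + ENNReal.ofReal w := by
    intro p _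
    calc ∫⁻ θ, ENNReal.ofReal (u * g (T p.1 p.2 ((Real.cos θ) ^ 2) A) + w) ∂unif
        ≤ ∫⁻ θ, (ENNReal.ofReal u * ENNReal.ofReal (g (T p.1 p.2 ((Real.cos θ) ^ 2) A))
            + ENNReal.ofReal w) ∂unif := by
          apply lintegral_mono
          intro θ
          show ENNReal.ofReal (u * g (T p.1 p.2 ((Real.cos θ) ^ 2) A) + w) ≤
            ENNReal.ofReal u * ENNReal.ofReal (g (T p.1 p.2 ((Real.cos θ) ^ 2) A))
              + ENNReal.ofReal w
          rw [← ENNReal.ofReal_mul hu]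
          exact ENNReal.ofReal_add_le
      _ = _ := by
          rw [lintegral_add_right _ measurable_const, lintegral_const_mul' _ _ ENNReal.ofReal_ne_top,
            lintegral_const, measure_univ, mul_one]
  unfold Qop
  calc ((prs n).card : ℝ≥0∞)⁻¹ * ∑ p ∈ prs n,
        ∫⁻ θ, ENNReal.ofReal (u * g (T p.1 p.2 ((Real.cos θ) ^ 2) A) + w) ∂unif
      ≤ ((prs n).card : ℝ≥0∞)⁻¹ * ∑ p ∈ prs n,
        (ENNReal.ofReal u * ∫⁻ θ, ENNReal.ofReal (g (T p.1 p.2 ((Real.cos θ) ^ 2) A)) ∂unif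
          + ENNReal.ofReal w) := by
        gcongr with p hp
        exact hterm p hp
    _ = _ := by
        rw [Finset.sum_add_distrib, ← Finset.mul_sum, Finset.sum_const, nsmul_eq_mul, mul_add,
          ← mul_assoc ((prs n).card : ℝ≥0∞)⁻¹ _ (ENNReal.ofReal w),
          ENNReal.inv_mul_cancel hcard hcard', one_mul]
        congr 1
        ring


end Pool.Agent.H494.Kac
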