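import Pool.Agent.H494.Kac.Defs

open MeasureTheory Filter Topology
open scoped ENNReal

namespace Pool.Agent.H494.Kac
theorem sq_iter (n : ℕ) (hn : 2 ≤ n) (i₀ : Fin n)
    (haff : ∀ (u w : ℝ), 0 ≤ u → ∀ g : (Fin n → ℝ) → ℝ, Measurable g → ∀ A : Fin n → ℝ,
      Qop n (fun A => ENNReal.ofReal (u * g A + w)) A ≤
      ENNReal.ofReal u * Qop n (fun A => ENNReal.ofReal (g A)) A + ENNReal.ofReal w)
    (hstep : ∀ A : Fin n → ℝ, (∀ k, 0 ≤ A k) → ∑ k, A k = 1 →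
      Qop n (fun A => ENNReal.ofReal (∑ k, (A k) ^ 2)) A ≤
      ENNReal.ofReal ((1 - 1 / (2 * n)) * ∑ k, (A k) ^ 2 + 3 / (2 * (n * (n - 1)))))
    (hiter : ∀ (G : ℕ → (Fin n → ℝ) → ℝ≥0∞), (∀ s, Measurable (G s)) → ∀ (t₀ t : ℕ), t₀ ≤ t →
      (∀ s, t₀ ≤ s → s < t → ∀ A : Fin n → ℝ, (∀ k, 0 ≤ A k) → ∑ k, A k = 1 →
        Qop n (G (s + 1)) A ≤ G s A) →
      ∫⁻ v, G t (fun k => v k ^ 2) ∂(law n (EuclideanSpace.single i₀ (1 : ℝ)) t) ≤
        ∫⁻ v, G t₀ (fun k => v k ^ 2) ∂(law n (EuclideanSpace.single i₀ (1 : ℝ)) t₀)) (t : ℕ) :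
    ∫⁻ v, ENNReal.ofReal (∑ k, (v k ^ 2) ^ 2) ∂(law n (EuclideanSpace.single i₀ (1 : ℝ)) t) ≤
      ENNReal.ofReal (Real.exp (-(t / (2 * n))) + 3 / (n - 1)) := by
  have hn2 : (2 : ℝ) ≤ n := by exact_mod_cast hn
  have hn0 : (0 : ℝ) < n := by linarith
  have hn1 : (0 : ℝ) < (n : ℝ) - 1 := by linarith
  set ρ : ℝ := 1 - 1 / (2 * n) with hρ
  set β : ℝ := 3 / ((n : ℝ) - 1) with hβ
  have hρ0 : 0 ≤ ρ := by
    rw [hρ]
    have : 1 / (2 * (n : ℝ)) ≤ 1 := by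
      rw [div_le_one (by positivity)]; linarith
    linarith
  have hρ1 : ρ ≤ 1 := by
    rw [hρ]
    have : 0 ≤ 1 / (2 * (n : ℝ)) := by positivity
    linarith
  have hβ0 : 0 ≤ β := by positivity
  have hpow0 : ∀ m : ℕ, 0 ≤ ρ ^ m := fun m => pow_nonneg hρ0 m
  have hpow1 : ∀ m : ℕ, ρ ^ m ≤ 1 := fun m => pow_le_one₀ hρ0 hρ1
  have h := hiter (fun s A => ENNReal.ofReal (ρ ^ (t - s) * (∑ k, (A k) ^ 2) + β * (1 - ρ ^ (t - s))))
    (fun s => by
      apply ENNReal.measurable_ofReal.comp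
      fun_prop) 0 t (Nat.zero_le t) (by
    intro s _ hst A hA hA1
    obtain ⟨m, hm⟩ : ∃ m, t - s = m + 1 := ⟨t - s - 1, by omega⟩
    have hm' : t - (s + 1) = m := by omega
    simp only [hm, hm']
    have e1 := haff (ρ ^ m) (β * (1 - ρ ^ m)) (hpow0 m) (fun A => ∑ k, (A k) ^ 2) (by fun_prop) A
    refine e1.trans ?_
    have e2 := hstep A hA hA1
    calc ENNReal.ofReal (ρ ^ m) * Qop n (fun A => ENNReal.ofReal (∑ k, (A k) ^ 2)) A
          + ENNReal.ofReal (β * (1 - ρ ^ m))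
        ≤ ENNReal.ofReal (ρ ^ m) * ENNReal.ofReal (ρ * ∑ k, (A k) ^ 2 + 3 / (2 * (n * (n - 1))))
          + ENNReal.ofReal (β * (1 - ρ ^ m)) := by gcongr
      _ = ENNReal.ofReal (ρ ^ m * (ρ * ∑ k, (A k) ^ 2 + 3 / (2 * (n * (n - 1))))
          + β * (1 - ρ ^ m)) := by
            have hS : 0 ≤ ∑ k, (A k) ^ 2 := Finset.sum_nonneg fun k _ => sq_nonneg _
            rw [← ENNReal.ofReal_mul (hpow0 m), ← ENNReal.ofReal_add]
            · have : 0 ≤ ρ * ∑ k, (A k) ^ 2 + 3 / (2 * ((n : ℝ) * (n - 1))) := by positivity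
              exact mul_nonneg (hpow0 m) this
            · exact mul_nonneg hβ0 (by linarith [hpow1 m])
      _ ≤ ENNReal.ofReal (ρ ^ (m + 1) * ∑ k, (A k) ^ 2 + β * (1 - ρ ^ (m + 1))) := by
            apply ENNReal.ofReal_le_ofReal
            apply le_of_eq
            have e3 : 3 / (2 * ((n : ℝ) * (n - 1))) = β * (1 - ρ) := by
              rw [hβ, hρ]; field_simp; ring
            rw [e3, pow_succ]; ring)
  simp only [Nat.sub_self, pow_zero, one_mul, sub_self, mul_zero, add_zero, Nat.sub_zero] at h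
  refine h.trans ?_
  rw [show law n (EuclideanSpace.single i₀ (1 : ℝ)) 0 = Measure.dirac (EuclideanSpace.single i₀ (1 : ℝ))
    from rfl, lintegral_dirac]
  apply ENNReal.ofReal_le_ofReal
  have e4 : ∑ k, (((EuclideanSpace.single i₀ (1 : ℝ) : E n) k ^ 2) ^ 2) = 1 := by
    rw [Finset.sum_eq_single i₀]
    · simp
    · intro k _ hk
      simp [hk]
    · intro h; exact absurd (Finset.mem_univ _) h
  rw [e4, mul_one]
  have e5 : ρ ^ t ≤ Real.exp (-(t / (2 * n))) := by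
    have e6 : ρ ≤ Real.exp (-(1 / (2 * n))) := by
      have := Real.add_one_le_exp (-(1 / (2 * (n : ℝ))))
      rw [hρ]; linarith
    calc ρ ^ t ≤ (Real.exp (-(1 / (2 * n)))) ^ t := pow_le_pow_left₀ hρ0 e6 t
      _ = Real.exp (-(t / (2 * n))) := by
        rw [← Real.exp_nat_mul]; congr 1; ring
  have e7 : β * (1 - ρ ^ t) ≤ β := by
    have := mul_nonneg hβ0 (hpow0 t)
    linarith
  linarith

end Pool.Agent.H494.Kac
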