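import Pool.Agent.H494.Kac.Defs

open MeasureTheory Filter Topology
open scoped ENNReal

namespace Pool.Agent.H494.Kac
theorem sqrt_iter (n : ℕ) (hn : 2 ≤ n) (i₀ : Fin n)
    (haff : ∀ (u w : ℝ), 0 ≤ u → ∀ g : (Fin n → ℝ) → ℝ, Measurable g → ∀ A : Fin n → ℝ,
      Qop n (fun A => ENNReal.ofReal (u * g A + w)) A ≤
      ENNReal.ofReal u * Qop n (fun A => ENNReal.ofReal (g A)) A + ENNReal.ofReal w)
    (hstep : ∀ A : Fin n → ℝ, (∀ k, 0 ≤ A k) → Qop n (fun A => ENNReal.ofReal (∑ k, √(A k))) A ≤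
      ENNReal.ofReal ((1 + 2 / n * (4 / Real.pi - 1)) * ∑ k, √(A k)))
    (hiter : ∀ (G : ℕ → (Fin n → ℝ) → ℝ≥0∞), (∀ s, Measurable (G s)) → ∀ (t₀ t : ℕ), t₀ ≤ t →
      (∀ s, t₀ ≤ s → s < t → ∀ A : Fin n → ℝ, (∀ k, 0 ≤ A k) → ∑ k, A k = 1 →
        Qop n (G (s + 1)) A ≤ G s A) →
      ∫⁻ v, G t (fun k => v k ^ 2) ∂(law n (EuclideanSpace.single i₀ (1 : ℝ)) t) ≤
        ∫⁻ v, G t₀ (fun k => v k ^ 2) ∂(law n (EuclideanSpace.single i₀ (1 : ℝ)) t₀)) (t : ℕ) :
    ∫⁻ v, ENNReal.ofReal (∑ k, √(v k ^ 2)) ∂(law n (EuclideanSpace.single i₀ (1 : ℝ)) t) ≤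
      ENNReal.ofReal (Real.exp (t * (2 / n * (4 / Real.pi - 1)))) := by
  set r : ℝ := 2 / n * (4 / Real.pi - 1) with hr
  have hr0 : 0 ≤ r := by
    have hpi : (1 : ℝ) ≤ 4 / Real.pi := by
      rw [le_div_iff₀ Real.pi_pos]
      linarith [Real.pi_le_four]
    have : (0 : ℝ) ≤ 2 / n := by positivity
    exact mul_nonneg this (by linarith)
  have hSm : Measurable (fun A : Fin n → ℝ => ∑ k, √(A k)) := by
    refine Finset.measurable_sum _ (fun k _ => ?_)
    exact Real.continuous_sqrt.measurable.comp (measurable_pi_apply k)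
  have key := hiter (fun s A => ENNReal.ofReal ((1 + r) ^ (t - s) * ∑ k, √(A k)))
    (fun s => (hSm.const_mul _).ennreal_ofReal) 0 t (Nat.zero_le t)
    (fun s _ hst A hA hsum => by
      have hu : (0 : ℝ) ≤ (1 + r) ^ (t - (s + 1)) := by positivity
      have h1 := haff ((1 + r) ^ (t - (s + 1))) 0 hu (fun A => ∑ k, √(A k)) hSm A
      have h2 := hstep A hA
      have hts : t - s = (t - (s + 1)) + 1 := by omega
      calc Qop n (fun A => ENNReal.ofReal ((1 + r) ^ (t - (s + 1)) * ∑ k, √(A k))) A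
          = Qop n (fun A => ENNReal.ofReal ((1 + r) ^ (t - (s + 1)) * (fun A : Fin n → ℝ => ∑ k, √(A k)) A + 0)) A := by
            simp only [add_zero]
        _ ≤ _ := h1
        _ = ENNReal.ofReal ((1 + r) ^ (t - (s + 1))) * Qop n (fun A => ENNReal.ofReal (∑ k, √(A k))) A := by
            rw [ENNReal.ofReal_zero, add_zero]
        _ ≤ ENNReal.ofReal ((1 + r) ^ (t - (s + 1))) * ENNReal.ofReal ((1 + r) * ∑ k, √(A k)) := by
            gcongr
        _ = ENNReal.ofReal ((1 + r) ^ (t - s) * ∑ k, √(A k)) := by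
            rw [← ENNReal.ofReal_mul hu, hts, pow_succ]
            congr 1
            ring)
  simp only [Nat.sub_self, pow_zero, one_mul, Nat.sub_zero] at key
  refine key.trans ?_
  have hlaw : law n (EuclideanSpace.single i₀ (1 : ℝ)) 0 = Measure.dirac (EuclideanSpace.single i₀ (1 : ℝ)) := rfl
  rw [hlaw, lintegral_dirac]
  apply ENNReal.ofReal_le_ofReal
  have hsum1 : ∑ k, √((EuclideanSpace.single i₀ (1 : ℝ)) k ^ 2) = 1 := by
    rw [Finset.sum_eq_single i₀]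
    · simp
    · intro b _ hb
      simp [hb]
    · intro h; exact absurd (Finset.mem_univ _) h
  rw [hsum1, mul_one]
  calc (1 + r) ^ t ≤ (Real.exp r) ^ t := by
        gcongr
        rw [add_comm]; exact Real.add_one_le_exp r
    _ = Real.exp (t * r) := by rw [← Real.exp_nat_mul]


end Pool.Agent.H494.Kac
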