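import Pool.Agent.H494.Kac.Defs

open MeasureTheory Filter Topology
open scoped ENNReal

namespace Pool.Agent.H494.Kac
theorem sq_unif_prob : IsProbabilityMeasure unif := by
  constructor
  unfold unif
  rw [Measure.smul_apply, Measure.restrict_apply MeasurableSet.univ, Set.univ_inter,
    Real.volume_Ico, sub_zero, smul_eq_mul]
  refine ENNReal.inv_mul_cancel ?_ ENNReal.ofReal_ne_top
  have := Real.pi_pos
  rw [Ne, ENNReal.ofReal_eq_zero]
  linarith

theorem sq_unif_int (f : ℝ → ℝ) :
    ∫ θ, f θ ∂unif = (2 * Real.pi)⁻¹ * ∫ θ in (0 : ℝ)..(2 * Real.pi), f θ := by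
  have hp := Real.pi_pos
  unfold unif
  have hset : (Set.Ico 0 (2 * Real.pi) : Set ℝ) =ᵐ[volume] Set.Ioc 0 (2 * Real.pi) :=
    Ico_ae_eq_Ioc
  rw [integral_smul_measure, intervalIntegral.integral_of_le (by positivity),
    setIntegral_congr_set hset, smul_eq_mul, ENNReal.toReal_inv,
    ENNReal.toReal_ofReal (by positivity)]


theorem sq_int_cos : ∫ θ in (0 : ℝ)..(2 * Real.pi), |Real.cos θ| = 4 := by
  have hp := Real.pi_pos
  have hi : ∀ a b : ℝ, IntervalIntegrable (fun θ => |Real.cos θ|) volume a b := fun a b =>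
    (Real.continuous_cos.abs).intervalIntegrable a b
  have h1 : ∫ θ in (0 : ℝ)..(Real.pi / 2), |Real.cos θ| = 1 := by
    rw [intervalIntegral.integral_congr (g := Real.cos), integral_cos]
    · simp
    · intro x hx
      rw [Set.uIcc_of_le (by positivity)] at hx
      exact abs_of_nonneg (Real.cos_nonneg_of_mem_Icc ⟨by linarith [hx.1], hx.2⟩)
  have h2 : ∫ θ in (Real.pi / 2)..(3 * Real.pi / 2), |Real.cos θ| = 2 := by
    rw [intervalIntegral.integral_congr (g := fun x => -Real.cos x), intervalIntegral.integral_neg,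
      integral_cos]
    · have : Real.sin (3 * Real.pi / 2) = -1 := by
        have : 3 * Real.pi / 2 = Real.pi / 2 + Real.pi := by ring
        rw [this, Real.sin_add_pi, Real.sin_pi_div_two]
      rw [this, Real.sin_pi_div_two]
      norm_num
    · intro x hx
      rw [Set.uIcc_of_le (by linarith)] at hx
      exact abs_of_nonpos (Real.cos_nonpos_of_pi_div_two_le_of_le hx.1 (by linarith [hx.2]))
  have h3 : ∫ θ in (3 * Real.pi / 2)..(2 * Real.pi), |Real.cos θ| = 1 := by
    rw [intervalIntegral.integral_congr (g := Real.cos), integral_cos]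
    · have : Real.sin (3 * Real.pi / 2) = -1 := by
        have : 3 * Real.pi / 2 = Real.pi / 2 + Real.pi := by ring
        rw [this, Real.sin_add_pi, Real.sin_pi_div_two]
      rw [this]
      simp
    · intro x hx
      rw [Set.uIcc_of_le (by linarith)] at hx
      refine abs_of_nonneg ?_
      have : Real.cos x = Real.cos (x - 2 * Real.pi) := (Real.cos_sub_two_pi x).symm
      rw [this]
      exact Real.cos_nonneg_of_mem_Icc ⟨by linarith [hx.1], by linarith [hx.2]⟩
  rw [← intervalIntegral.integral_add_adjacent_intervals (hi 0 (Real.pi / 2)) (hi _ _),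
    ← intervalIntegral.integral_add_adjacent_intervals (hi (Real.pi / 2) (3 * Real.pi / 2))
      (hi _ _), h1, h2, h3]
  norm_num

theorem sq_int_sin : ∫ θ in (0 : ℝ)..(2 * Real.pi), |Real.sin θ| = 4 := by
  have hp := Real.pi_pos
  have hi : ∀ a b : ℝ, IntervalIntegrable (fun θ => |Real.sin θ|) volume a b := fun a b =>
    (Real.continuous_sin.abs).intervalIntegrable a b
  have h1 : ∫ θ in (0 : ℝ)..Real.pi, |Real.sin θ| = 2 := by
    rw [intervalIntegral.integral_congr (g := Real.sin), integral_sin]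
    · simp; norm_num
    · intro x hx
      rw [Set.uIcc_of_le (by positivity)] at hx
      exact abs_of_nonneg (Real.sin_nonneg_of_mem_Icc hx)
  have h2 : ∫ θ in Real.pi..(2 * Real.pi), |Real.sin θ| = 2 := by
    rw [intervalIntegral.integral_congr (g := fun x => -Real.sin x), intervalIntegral.integral_neg,
      integral_sin]
    · simp; norm_num
    · intro x hx
      rw [Set.uIcc_of_le (by linarith)] at hx
      refine abs_of_nonpos ?_
      have : Real.sin x = - Real.sin (x - Real.pi) := by rw [Real.sin_sub_pi, neg_neg]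
      rw [this, neg_nonpos]
      exact Real.sin_nonneg_of_mem_Icc ⟨by linarith [hx.1], by linarith [hx.2]⟩
  rw [← intervalIntegral.integral_add_adjacent_intervals (hi 0 Real.pi) (hi _ _), h1, h2]
  norm_num

theorem sq_sum_prs (n : ℕ) (a : Fin n → ℝ) :
    ∑ p ∈ prs n, (a p.1 + a p.2) = ((n : ℝ) - 1) * ∑ k, a k := by
  unfold prs
  rw [Finset.sum_filter, Fintype.sum_prod_type]
  have h1 : ∀ i j : Fin n, (if i < j then a i + a j else 0) =
      (if i < j then a i else 0) + (if i < j then a j else 0) := by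
    intro i j
    split_ifs <;> simp
  simp only [h1, Finset.sum_add_distrib]
  rw [Finset.sum_comm (f := fun i j : Fin n => if i < j then a j else 0),
    ← Finset.sum_add_distrib, Finset.mul_sum]
  refine Finset.sum_congr rfl fun i _ => ?_
  rw [← Finset.sum_add_distrib]
  have h2 : ∀ j : Fin n, (if i < j then a i else 0) + (if j < i then a i else 0) =
      a i - (if j = i then a i else 0) := by
    intro j
    rcases lt_trichotomy i j with h | h | h
    · simp [h, h.ne', not_lt.2 h.le]
    · simp [h]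
    · simp [h, h.ne, not_lt.2 h.le]
  simp only [h2, Finset.sum_sub_distrib]
  simp
  ring

theorem sq_pair (n : ℕ) (A : Fin n → ℝ) (hA : ∀ k, 0 ≤ A k) (i j : Fin n) (hij : i < j) :
    ∫⁻ θ, ENNReal.ofReal (∑ k, √(T i j ((Real.cos θ) ^ 2) A k)) ∂unif ≤
      ENNReal.ofReal (∑ k, √(A k) + (√(A i) + √(A j)) * (4 / Real.pi - 1)) := by
  have := sq_unif_prob
  have hsum : ∀ θ : ℝ, ∑ k, √(T i j ((Real.cos θ) ^ 2) A k) =
      (∑ k, √(A k) - √(A i) - √(A j)) + √(A i + A j) * (|Real.cos θ| + |Real.sin θ|) := by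
    intro θ
    have h1 : ∑ k, (√(T i j ((Real.cos θ) ^ 2) A k) - √(A k)) =
        (√(T i j ((Real.cos θ) ^ 2) A i) - √(A i)) + (√(T i j ((Real.cos θ) ^ 2) A j) - √(A j)) := by
      refine Fintype.sum_eq_add i j hij.ne fun x hx => ?_
      simp [T, hx.1, hx.2]
    rw [Finset.sum_sub_distrib] at h1
    have h2 : √(T i j ((Real.cos θ) ^ 2) A i) = √(A i + A j) * |Real.cos θ| := by
      have : T i j ((Real.cos θ) ^ 2) A i = (A i + A j) * (Real.cos θ) ^ 2 := by simp [T]
      rw [this, Real.sqrt_mul (add_nonneg (hA i) (hA j)), Real.sqrt_sq_eq_abs]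
    have h3 : √(T i j ((Real.cos θ) ^ 2) A j) = √(A i + A j) * |Real.sin θ| := by
      have : T i j ((Real.cos θ) ^ 2) A j = (A i + A j) * (Real.sin θ) ^ 2 := by
        rw [Real.sin_sq]
        simp [T, hij.ne']
      rw [this, Real.sqrt_mul (add_nonneg (hA i) (hA j)), Real.sqrt_sq_eq_abs]
    rw [h2, h3] at h1
    linarith
  simp only [hsum]
  have hS : 0 ≤ ∑ k, √(A k) - √(A i) - √(A j) := by
    have h1 : ∑ k ∈ ({i, j} : Finset (Fin n)), √(A k) ≤ ∑ k, √(A k) :=
      Finset.sum_le_sum_of_subset_of_nonneg (Finset.subset_univ _) fun k _ _ => Real.sqrt_nonneg _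
    rw [Finset.sum_pair hij.ne] at h1
    linarith
  set c := ∑ k, √(A k) - √(A i) - √(A j) with hc
  have hcont : Continuous fun θ : ℝ => c + √(A i + A j) * (|Real.cos θ| + |Real.sin θ|) := by
    fun_prop
  have hcc : Integrable (fun θ : ℝ => |Real.cos θ|) unif := by
    refine Integrable.of_bound (Real.continuous_cos.abs.aestronglyMeasurable) 1
      (ae_of_all _ fun θ => ?_)
    rw [Real.norm_eq_abs, abs_abs]
    exact Real.abs_cos_le_one θ
  have hss : Integrable (fun θ : ℝ => |Real.sin θ|) unif := by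
    refine Integrable.of_bound (Real.continuous_sin.abs.aestronglyMeasurable) 1
      (ae_of_all _ fun θ => ?_)
    rw [Real.norm_eq_abs, abs_abs]
    exact Real.abs_sin_le_one θ
  have hcs : Integrable (fun θ : ℝ => √(A i + A j) * (|Real.cos θ| + |Real.sin θ|)) unif :=
    (hcc.add hss).const_mul _
  have hint : Integrable (fun θ : ℝ => c + √(A i + A j) * (|Real.cos θ| + |Real.sin θ|)) unif :=
    (integrable_const c).add hcs
  rw [← ofReal_integral_eq_lintegral_ofReal hint
    (ae_of_all _ fun θ => add_nonneg hS (mul_nonneg (Real.sqrt_nonneg _)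
      (add_nonneg (abs_nonneg _) (abs_nonneg _))))]
  refine ENNReal.ofReal_le_ofReal ?_
  rw [integral_add (integrable_const c) hcs, integral_const_mul]
  have h5 : ∫ θ, (|Real.cos θ| + |Real.sin θ|) ∂unif = 4 / Real.pi := by
    rw [integral_add hcc hss, sq_unif_int, sq_unif_int, sq_int_cos, sq_int_sin]
    have hp := Real.pi_ne_zero
    field_simp
    norm_num
  rw [h5]
  simp only [integral_const, probReal_univ, one_smul]
  have h6 : √(A i + A j) ≤ √(A i) + √(A j) := by
    rw [Real.sqrt_le_left (by positivity)]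
    have e1 := Real.sq_sqrt (hA i)
    have e2 := Real.sq_sqrt (hA j)
    have e3 := mul_nonneg (Real.sqrt_nonneg (A i)) (Real.sqrt_nonneg (A j))
    nlinarith
  have h7 : 0 < 4 / Real.pi := by have := Real.pi_pos; positivity
  have h8 := mul_le_mul_of_nonneg_right h6 h7.le
  rw [hc]
  linarith

theorem sqrt_step (n : ℕ) (hn : 2 ≤ n) (A : Fin n → ℝ) (hA : ∀ k, 0 ≤ A k) :
    Qop n (fun A => ENNReal.ofReal (∑ k, √(A k))) A ≤
      ENNReal.ofReal ((1 + 2 / n * (4 / Real.pi - 1)) * ∑ k, √(A k)) := by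
  unfold Qop
  have hcard : 2 * ((prs n).card : ℝ) = ((n : ℝ) - 1) * n := by
    have := sq_sum_prs n (fun _ => 1)
    simp only [Finset.sum_const, Finset.card_univ, Fintype.card_fin, nsmul_eq_mul] at this
    linarith
  have hn' : (2 : ℝ) ≤ n := by exact_mod_cast hn
  have hcpos : 0 < ((prs n).card : ℝ) := by nlinarith
  have hp1 : 0 ≤ 4 / Real.pi - 1 := by
    have := Real.pi_le_four
    have := Real.pi_pos
    rw [sub_nonneg, le_div_iff₀ (by positivity)]
    linarith
  have h1 : ∑ p ∈ prs n, ∫⁻ θ, ENNReal.ofReal (∑ k, √(T p.1 p.2 ((Real.cos θ) ^ 2) A k)) ∂unif ≤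
      ENNReal.ofReal (∑ p ∈ prs n,
        (∑ k, √(A k) + (√(A p.1) + √(A p.2)) * (4 / Real.pi - 1))) := by
    rw [ENNReal.ofReal_sum_of_nonneg]
    · refine Finset.sum_le_sum fun p hp => ?_
      exact sq_pair n A hA p.1 p.2 (by simpa [prs] using hp)
    · intro p _
      positivity
  have h2 : ∑ p ∈ prs n, (∑ k, √(A k) + (√(A p.1) + √(A p.2)) * (4 / Real.pi - 1)) =
      (prs n).card * ((1 + 2 / n * (4 / Real.pi - 1)) * ∑ k, √(A k)) := by
    rw [Finset.sum_add_distrib, Finset.sum_const, nsmul_eq_mul, ← Finset.sum_mul,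
      sq_sum_prs n (fun k => √(A k))]
    have hc2 : ((prs n).card : ℝ) = ((n : ℝ) - 1) * n / 2 := by linarith
    rw [hc2]
    have : (n : ℝ) ≠ 0 := by positivity
    field_simp
  rw [h2, ENNReal.ofReal_mul (by positivity), ENNReal.ofReal_natCast] at h1
  calc ((prs n).card : ℝ≥0∞)⁻¹ * _ ≤ ((prs n).card : ℝ≥0∞)⁻¹ * (((prs n).card : ℝ≥0∞) *
        ENNReal.ofReal ((1 + 2 / n * (4 / Real.pi - 1)) * ∑ k, √(A k))) := by gcongr
    _ = ENNReal.ofReal ((1 + 2 / n * (4 / Real.pi - 1)) * ∑ k, √(A k)) := by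
        rw [← mul_assoc, ENNReal.inv_mul_cancel, one_mul]
        · have : (prs n).card ≠ 0 := by
            intro h
            rw [h] at hcpos
            simp at hcpos
          exact_mod_cast this
        · exact ENNReal.natCast_ne_top _

end Pool.Agent.H494.Kac
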