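import Pool.Agent.H494.Kac.Defs

open MeasureTheory Filter Topology
open scoped ENNReal

namespace Pool.Agent.H494.Kac
theorem step_prob_aux_unif : IsProbabilityMeasure unif := by
  constructor
  unfold unif
  have h : 0 < 2 * Real.pi := by positivity
  rw [Measure.smul_apply, Measure.restrict_apply MeasurableSet.univ, Set.univ_inter,
    Real.volume_Ico, sub_zero, smul_eq_mul]
  exact ENNReal.inv_mul_cancel (by simpa using h) ENNReal.ofReal_ne_top

theorem step_prob_aux_cont {n : ℕ} (i j : Fin n) (v : E n) :
    Continuous (fun θ => rot i j θ v) := by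
  unfold rot
  apply (PiLp.continuous_toLp 2 _).comp
  apply continuous_pi
  intro k
  by_cases h1 : k = i
  · simp only [h1, if_true]
    fun_prop
  · by_cases h2 : k = j
    · simp only [h2, if_true]
      by_cases h3 : j = i
      · simp only [h3, if_true]; fun_prop
      · simp only [h3, if_false]; fun_prop
    · simp only [h1, h2, if_false]
      fun_prop

theorem step_prob (n : ℕ) (hn : 2 ≤ n) (v : E n) : IsProbabilityMeasure (stepLaw n v) := by
  haveI := step_prob_aux_unif
  constructor
  unfold stepLaw
  rw [Measure.smul_apply, Measure.finsetSum_apply, smul_eq_mul]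
  have h1 : ∀ p ∈ prs n, (unif.map (fun θ => rot p.1 p.2 θ v)) Set.univ = 1 := by
    intro p _
    haveI := Measure.isProbabilityMeasure_map (μ := unif)
      (step_prob_aux_cont p.1 p.2 v).measurable.aemeasurable
    exact measure_univ
  rw [Finset.sum_congr rfl h1, Finset.sum_const, nsmul_eq_mul, mul_one]
  apply ENNReal.inv_mul_cancel
  · have : (prs n).Nonempty := by
      refine ⟨(⟨0, by omega⟩, ⟨1, by omega⟩), ?_⟩
      simp [prs]
    have := Finset.card_pos.2 this
    exact_mod_cast this.ne'
  · exact ENNReal.natCast_ne_top _

end Pool.Agent.H494.Kac
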