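import Pool.Agent.H494.Kac.Defs

open MeasureTheory Filter Topology
open scoped ENNReal

namespace Pool.Agent.H494.Kac
theorem unif_exists (n : ℕ) (hn : 1 ≤ n) :
    IsUnif n ((ProbabilityTheory.stdGaussian (E n)).map (fun x => ‖x‖⁻¹ • x)) := by
  have hm : Measurable (fun x : E n => ‖x‖⁻¹ • x) :=
    (measurable_norm.inv).smul measurable_id
  refine ⟨Measure.isProbabilityMeasure_map hm.aemeasurable, ?_, ?_⟩
  · have hms : MeasurableSet {v : E n | ‖v‖ = 1} :=
      measurableSet_eq_fun measurable_norm measurable_const
    rw [ae_map_iff hm.aemeasurable hms]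
    have h0 : ProbabilityTheory.stdGaussian (E n) {0} = 0 := by
      rw [← ProbabilityTheory.map_pi_eq_stdGaussian,
        Measure.map_apply (by fun_prop) (measurableSet_singleton _)]
      have hsub : (WithLp.toLp 2 : (Fin n → ℝ) → E n) ⁻¹' {0} ⊆
          Function.eval (⟨0, hn⟩ : Fin n) ⁻¹' {0} := by
        intro x hx
        have hx' : (WithLp.toLp 2 x : E n) = 0 := hx
        have := congrArg (fun v : E n => v ⟨0, hn⟩) hx'
        simpa using this
      refine measure_mono_null hsub ?_
      rw [← Measure.map_apply (measurable_pi_apply _) (measurableSet_singleton _)]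
      have := (measurePreserving_eval (fun _ : Fin n => ProbabilityTheory.gaussianReal 0 1)
        (⟨0, hn⟩ : Fin n)).map_eq
      rw [this]
      have := ProbabilityTheory.nullSingletonClass_gaussianReal (μ := 0) (v := 1) one_ne_zero
      exact measure_singleton _
    have h1 : ∀ᵐ x ∂(ProbabilityTheory.stdGaussian (E n)), x ≠ 0 := by
      rw [ae_iff]; simpa using h0
    filter_upwards [h1] with x hx
    rw [norm_smul, norm_inv, norm_norm]
    exact inv_mul_cancel₀ (norm_ne_zero_iff.mpr hx)
  · intro g
    rw [Measure.map_map g.continuous.measurable hm]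
    have hc : (⇑g ∘ fun x : E n => ‖x‖⁻¹ • x) = (fun x : E n => ‖x‖⁻¹ • x) ∘ g := by
      funext x
      simp [map_smul]
    rw [hc, ← Measure.map_map hm g.continuous.measurable, ProbabilityTheory.stdGaussian_map]

end Pool.Agent.H494.Kac
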