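import Pool.Agent.H494.Kac.Defs

open MeasureTheory Filter Topology
open scoped ENNReal

namespace Pool.Agent.H494.Kac
theorem unif_mom_int (f : ℝ → ℝ) :
    ∫ θ, f θ ∂unif = (2 * Real.pi)⁻¹ * ∫ θ in (0 : ℝ)..(2 * Real.pi), f θ := by
  unfold unif
  rw [integral_smul_measure, integral_Ico_eq_integral_Ioc,
    intervalIntegral.integral_of_le (by positivity), ENNReal.toReal_inv,
    ENNReal.toReal_ofReal (by positivity), smul_eq_mul]

theorem unif_mom_cos (q : ℕ) :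
    ∫ θ, ((Real.cos θ) ^ 2) ^ (q + 1) ∂unif =
      (2 * q + 1) * ∫ θ, ((Real.cos θ) ^ 2) ^ q * (Real.sin θ) ^ 2 ∂unif := by
  rw [unif_mom_int, unif_mom_int]
  have h := integral_cos_pow (a := 0) (b := 2 * Real.pi) (2 * q)
  have e1 : ∫ θ in (0 : ℝ)..(2 * Real.pi), ((Real.cos θ) ^ 2) ^ (q + 1) =
      ∫ θ in (0 : ℝ)..(2 * Real.pi), (Real.cos θ) ^ (2 * q + 2) := by
    congr 1
    funext θ
    rw [← pow_mul]
    congr 1
  have e2 : ∫ θ in (0 : ℝ)..(2 * Real.pi), ((Real.cos θ) ^ 2) ^ q * (Real.sin θ) ^ 2 =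
      (∫ θ in (0 : ℝ)..(2 * Real.pi), (Real.cos θ) ^ (2 * q)) -
      ∫ θ in (0 : ℝ)..(2 * Real.pi), (Real.cos θ) ^ (2 * q + 2) := by
    rw [← intervalIntegral.integral_sub]
    · congr 1
      funext θ
      rw [Real.sin_sq, ← pow_mul]
      ring
    · exact (Real.continuous_cos.pow _).intervalIntegrable _ _
    · exact (Real.continuous_cos.pow _).intervalIntegrable _ _
  rw [e1, e2]
  simp only [Real.sin_two_pi, Real.sin_zero, mul_zero, sub_zero, zero_div, zero_add] at h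
  have hq : (2 * (q : ℝ) + 2) ≠ 0 := by positivity
  push_cast at h
  have h' : (∫ θ in (0 : ℝ)..(2 * Real.pi), (Real.cos θ) ^ (2 * q + 2)) * (2 * (q : ℝ) + 2) =
      (2 * q + 1) * ∫ θ in (0 : ℝ)..(2 * Real.pi), (Real.cos θ) ^ (2 * q) := by
    rw [h]
    field_simp
  linear_combination (2 * Real.pi)⁻¹ * h'

theorem unif_mom (n : ℕ) (π : Measure (E n)) (hπ : IsUnif n π)
    (hrot : ∀ (i j : Fin n), i ≠ j → ∀ g : ℝ → ℝ → ℝ, Continuous (fun p : ℝ × ℝ => g p.1 p.2) →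
      ∫ v, g (v i ^ 2) (v j ^ 2) ∂π =
      ∫ v, ∫ θ, g ((v i ^ 2 + v j ^ 2) * (Real.cos θ) ^ 2) ((v i ^ 2 + v j ^ 2) * (Real.sin θ) ^ 2)
        ∂unif ∂π) (i : Fin n) (q : ℕ) :
    (∫ v, (v i ^ 2) ^ (q + 1) ∂π) * (n + 2 * q) = (2 * q + 1) * ∫ v, (v i ^ 2) ^ q ∂π := by
  classical
  haveI := hπ.prob
  have hcont : ∀ k : Fin n, Continuous (fun v : E n => v k ^ 2) := fun k => by fun_prop
  have hsum : ∀ᵐ v ∂π, ∑ k : Fin n, v k ^ 2 = 1 := by
    filter_upwards [hπ.supp] with v hv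
    have h1 := EuclideanSpace.norm_sq_eq v
    rw [hv] at h1
    simp only [Real.norm_eq_abs, sq_abs] at h1
    linarith
  have hle : ∀ k : Fin n, ∀ᵐ v ∂π, v k ^ 2 ≤ 1 := by
    intro k
    filter_upwards [hsum] with v hv
    rw [← hv]
    exact Finset.single_le_sum (f := fun k => v k ^ 2) (fun _ _ => sq_nonneg _) (Finset.mem_univ k)
  -- integrability
  have hint : ∀ (a : ℕ) (j : Fin n), Integrable (fun v : E n => (v i ^ 2) ^ a * v j ^ 2) π := by
    intro a j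
    refine Integrable.of_bound (C := 1) ?_ ?_
    · exact (((hcont i).pow a).mul (hcont j)).aestronglyMeasurable
    · filter_upwards [hle i, hle j] with v h1 h2
      rw [Real.norm_of_nonneg (by positivity)]
      exact mul_le_one₀ (pow_le_one₀ (sq_nonneg _) h1) (sq_nonneg _) h2
  have key : ∀ j : Fin n, i ≠ j →
      ∫ v, (v i ^ 2) ^ (q + 1) ∂π = (2 * q + 1) * ∫ v, (v i ^ 2) ^ q * v j ^ 2 ∂π := by
    intro j hij
    have h1 := hrot i j hij (fun a _ => a ^ (q + 1)) (by fun_prop)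
    have h2 := hrot i j hij (fun a b => a ^ q * b) (by fun_prop)
    simp only at h1 h2
    rw [h1, h2]
    have e1 : ∀ v : E n, ∫ θ, ((v i ^ 2 + v j ^ 2) * (Real.cos θ) ^ 2) ^ (q + 1) ∂unif =
        (v i ^ 2 + v j ^ 2) ^ (q + 1) * ∫ θ, ((Real.cos θ) ^ 2) ^ (q + 1) ∂unif := by
      intro v
      rw [← integral_const_mul]
      congr 1
      funext θ
      rw [mul_pow]
    have e2 : ∀ v : E n, ∫ θ, ((v i ^ 2 + v j ^ 2) * (Real.cos θ) ^ 2) ^ q *
        ((v i ^ 2 + v j ^ 2) * (Real.sin θ) ^ 2) ∂unif =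
        (v i ^ 2 + v j ^ 2) ^ (q + 1) * ∫ θ, ((Real.cos θ) ^ 2) ^ q * (Real.sin θ) ^ 2 ∂unif := by
      intro v
      rw [← integral_const_mul]
      congr 1
      funext θ
      rw [mul_pow]
      ring
    simp only [e1, e2]
    rw [integral_mul_const, integral_mul_const, unif_mom_cos]
    ring
  have hS : ∑ j ∈ Finset.univ.erase i, ∫ v, (v i ^ 2) ^ q * v j ^ 2 ∂π =
      ∫ v, (v i ^ 2) ^ q ∂π - ∫ v, (v i ^ 2) ^ (q + 1) ∂π := by
    rw [← integral_finsetSum _ (fun j _ => hint q j)]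
    have h3 : ∫ v, (v i ^ 2) ^ q ∂π =
        ∫ v, (∑ j ∈ Finset.univ.erase i, (v i ^ 2) ^ q * v j ^ 2) + (v i ^ 2) ^ (q + 1) ∂π := by
      apply integral_congr_ae
      filter_upwards [hsum] with v hv
      rw [← Finset.mul_sum, pow_succ (v i ^ 2) q, ← mul_add,
        Finset.sum_erase_add _ _ (Finset.mem_univ i), hv, mul_one]
    have h4 : Integrable (fun v : E n => (v i ^ 2) ^ (q + 1)) π := by
      have := hint q i
      simp only [← pow_succ (_ ^ 2) q] at this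
      exact this
    rw [h3, integral_add (integrable_finsetSum _ (fun j _ => hint q j)) h4]
    ring
  have hS2 : ∑ j ∈ Finset.univ.erase i, (2 * (q : ℝ) + 1) * ∫ v, (v i ^ 2) ^ q * v j ^ 2 ∂π =
      ((n : ℝ) - 1) * ∫ v, (v i ^ 2) ^ (q + 1) ∂π := by
    rw [Finset.sum_congr rfl (fun j hj => (key j (Finset.ne_of_mem_erase hj).symm).symm)]
    rw [Finset.sum_const, Finset.card_erase_of_mem (Finset.mem_univ i), Finset.card_univ,
      Fintype.card_fin, nsmul_eq_mul]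
    have hn : 1 ≤ n := by
      have := i.2
      omega
    push_cast [Nat.cast_sub hn]
    ring
  rw [← Finset.mul_sum, hS] at hS2
  linear_combination -hS2

end Pool.Agent.H494.Kac
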