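import Pool.Agent.H494.Kac.Defs

open MeasureTheory Filter Topology
open scoped ENNReal

namespace Pool.Agent.H494.Kac
theorem ur_unif_prob : IsProbabilityMeasure unif := by
  constructor
  unfold unif
  have h2 : (0 : ℝ) < 2 * Real.pi := by positivity
  rw [Measure.smul_apply, Measure.restrict_apply MeasurableSet.univ, Set.univ_inter,
    Real.volume_Ico, sub_zero, smul_eq_mul]
  exact ENNReal.inv_mul_cancel (by simpa using h2) ENNReal.ofReal_ne_top

theorem ur_int_unif (H : ℝ → ℝ) : ∫ θ, H θ ∂unif =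
    (2 * Real.pi)⁻¹ * ∫ θ in (0 : ℝ)..(0 + 2 * Real.pi), H θ := by
  unfold unif
  have h2 : (0 : ℝ) < 2 * Real.pi := by positivity
  rw [integral_smul_measure, ENNReal.toReal_inv, ENNReal.toReal_ofReal h2.le, smul_eq_mul,
    zero_add, intervalIntegral.integral_of_le h2.le, integral_Ico_eq_integral_Ioc]

theorem ur_shift (H : ℝ → ℝ) (hH : Function.Periodic H (2 * Real.pi)) (φ : ℝ) :
    ∫ θ, H (θ + φ) ∂unif = ∫ θ, H θ ∂unif := by
  rw [ur_int_unif, ur_int_unif]
  congr 1
  rw [intervalIntegral.integral_comp_add_right (fun x => H x) φ]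
  rw [show (0 : ℝ) + 2 * Real.pi + φ = (0 + φ) + 2 * Real.pi by ring]
  exact hH.intervalIntegral_add_eq _ _

theorem ur_rot_norm {n : ℕ} (i j : Fin n) (hij : i ≠ j) (θ : ℝ) (v : E n) :
    ‖rot i j θ v‖ = ‖v‖ := by
  have h1 : ‖rot i j θ v‖ ^ 2 = ‖v‖ ^ 2 := by
    rw [EuclideanSpace.real_norm_sq_eq, EuclideanSpace.real_norm_sq_eq]
    rw [← sub_eq_zero, ← Finset.sum_sub_distrib]
    have h2 : ∑ k ∈ ({i, j} : Finset (Fin n)), ((rot i j θ v) k ^ 2 - v k ^ 2) =
        ∑ k, ((rot i j θ v) k ^ 2 - v k ^ 2) := by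
      apply Finset.sum_subset (Finset.subset_univ _)
      intro k _ hk
      simp only [Finset.mem_insert, Finset.mem_singleton, not_or] at hk
      have : (rot i j θ v) k = v k := by
        simp [rot, hk.1, hk.2]
      rw [this]
      ring
    rw [← h2, Finset.sum_pair hij]
    have e1 : (rot i j θ v) i = v i * Real.cos θ - v j * Real.sin θ := by
      simp [rot]
    have e2 : (rot i j θ v) j = v i * Real.sin θ + v j * Real.cos θ := by
      simp [rot, hij.symm]
    rw [e1, e2]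
    have := Real.sin_sq_add_cos_sq θ
    linear_combination (v i ^ 2 + v j ^ 2) * this
  have h3 := abs_eq_abs.mpr (Or.inl rfl : ‖v‖ = ‖v‖ ∨ _)
  exact (pow_left_inj₀ (norm_nonneg _) (norm_nonneg _) two_ne_zero).mp h1

noncomputable def ur_lin {n : ℕ} (i j : Fin n) (hij : i ≠ j) (θ : ℝ) : E n →ₗᵢ[ℝ] E n where
  toFun := rot i j θ
  map_add' := by
    intro v w
    ext k
    simp only [rot, PiLp.add_apply, PiLp.toLp_apply]
    split_ifs <;> ring
  map_smul' := by
    intro c v
    ext k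
    simp only [rot, PiLp.smul_apply, PiLp.toLp_apply, RingHom.id_apply, smul_eq_mul]
    split_ifs <;> ring
  norm_map' := ur_rot_norm i j hij θ

noncomputable def ur_equiv {n : ℕ} (i j : Fin n) (hij : i ≠ j) (θ : ℝ) : E n ≃ₗᵢ[ℝ] E n :=
  (ur_lin i j hij θ).toLinearIsometryEquiv rfl

theorem ur_equiv_apply {n : ℕ} (i j : Fin n) (hij : i ≠ j) (θ : ℝ) (v : E n) :
    ur_equiv i j hij θ v = rot i j θ v := rfl

theorem ur_cont {n : ℕ} (i j : Fin n) :
    Continuous (fun p : ℝ × E n => rot i j p.1 p.2) := by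
  unfold rot
  refine (PiLp.continuous_toLp 2 _).comp ?_
  apply continuous_pi
  intro k
  split_ifs
  · fun_prop
  · fun_prop
  · fun_prop

theorem unif_rot (n : ℕ) (π : Measure (E n)) (hπ : IsUnif n π) (i j : Fin n) (hij : i ≠ j)
    (g : ℝ → ℝ → ℝ) (hg : Continuous (fun p : ℝ × ℝ => g p.1 p.2)) :
    ∫ v, g (v i ^ 2) (v j ^ 2) ∂π =
      ∫ v, ∫ θ, g ((v i ^ 2 + v j ^ 2) * (Real.cos θ) ^ 2) ((v i ^ 2 + v j ^ 2) * (Real.sin θ) ^ 2)
        ∂unif ∂π := by
  haveI := hπ.prob
  haveI := ur_unif_prob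
  set G : E n → ℝ := fun v => g (v i ^ 2) (v j ^ 2) with hG
  have hGc : Continuous G := by
    have : Continuous (fun v : E n => ((v i ^ 2, v j ^ 2) : ℝ × ℝ)) := by fun_prop
    exact hg.comp this
  -- step 1
  have step1 : ∀ θ : ℝ, ∫ v, G (rot i j θ v) ∂π = ∫ v, G v ∂π := by
    intro θ
    conv_rhs => rw [← hπ.inv (ur_equiv i j hij θ)]
    rw [integral_map]
    · rfl
    · exact (ur_equiv i j hij θ).continuous.measurable.aemeasurable
    · exact hGc.aestronglyMeasurable
  -- boundedness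
  obtain ⟨C, hC⟩ : ∃ C, ∀ v : E n, ‖v‖ = 1 → ‖G v‖ ≤ C := by
    obtain ⟨C, hC⟩ := (isCompact_sphere (0 : E n) 1).exists_bound_of_continuousOn hGc.continuousOn
    exact ⟨C, fun v hv => hC v (by simpa using hv)⟩
  have hint : Integrable (Function.uncurry fun (θ : ℝ) (v : E n) => G (rot i j θ v))
      (unif.prod π) := by
    apply Integrable.of_bound (C := C)
    · exact (hGc.comp (ur_cont i j)).aestronglyMeasurable
    · have := (Measure.quasiMeasurePreserving_snd (μ := unif) (ν := π)).ae hπ.supp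
      filter_upwards [this] with p hp
      apply hC
      rw [ur_rot_norm i j hij]
      exact hp
  have step2 : ∫ v, G v ∂π = ∫ v, ∫ θ, G (rot i j θ v) ∂unif ∂π := by
    rw [← integral_integral_swap hint]
    simp only [step1]
    simp
  rw [step2]
  apply integral_congr_ae
  filter_upwards with v
  -- step 3
  have hr := Complex.norm_mul_cos_arg (⟨v i, v j⟩ : ℂ)
  have hs := Complex.norm_mul_sin_arg (⟨v i, v j⟩ : ℂ)
  set r := ‖(⟨v i, v j⟩ : ℂ)‖ with hrdef
  set φ := Complex.arg (⟨v i, v j⟩ : ℂ) with hφ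
  simp only at hr hs
  have hsq : v i ^ 2 + v j ^ 2 = r ^ 2 := by
    rw [← hr, ← hs]
    have := Real.sin_sq_add_cos_sq φ
    linear_combination r ^ 2 * this
  have key := ur_shift (fun θ => g (r ^ 2 * (Real.cos θ) ^ 2) (r ^ 2 * (Real.sin θ) ^ 2)) (by
    intro θ
    simp only [Real.cos_add_two_pi, Real.sin_add_two_pi]) φ
  rw [hsq]
  rw [← key]
  apply integral_congr_ae
  filter_upwards with θ
  have e1 : (rot i j θ v) i = r * Real.cos (θ + φ) := by
    have : (rot i j θ v) i = v i * Real.cos θ - v j * Real.sin θ := by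
      simp [rot]
    rw [this, ← hr, ← hs, Real.cos_add]
    ring
  have e2 : (rot i j θ v) j = r * Real.sin (θ + φ) := by
    have : (rot i j θ v) j = v i * Real.sin θ + v j * Real.cos θ := by
      simp [rot, hij.symm]
    rw [this, ← hr, ← hs, Real.sin_add]
    ring
  simp only [hG]
  rw [e1, e2, mul_pow, mul_pow]

end Pool.Agent.H494.Kac
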