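import Pool.Agent.H494.Kac.Defs

open MeasureTheory Filter Topology
open scoped ENNReal

namespace Pool.Agent.H494.Kac
theorem utail_mom
    (hmom : ∀ (n : ℕ) (π : Measure (E n)), IsUnif n π → ∀ (i : Fin n) (q : ℕ),
      (∫ v, (v i ^ 2) ^ (q + 1) ∂π) * (n + 2 * q) = (2 * q + 1) * ∫ v, (v i ^ 2) ^ q ∂π)
    (n : ℕ) (hn : 0 < n) (π : Measure (E n)) (hπ : IsUnif n π) (i : Fin n) (q : ℕ) :
    (∫ v, (v i ^ 2) ^ q ∂π) * (n : ℝ) ^ q ≤ ∏ j ∈ Finset.range q, (2 * (j : ℝ) + 1) := by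
  haveI := hπ.prob
  induction q with
  | zero => simp
  | succ q ih =>
    have h := hmom n π hπ i q
    have hM0 : 0 ≤ ∫ v, (v i ^ 2) ^ (q + 1) ∂π := integral_nonneg (fun v => by positivity)
    have hn' : (0 : ℝ) < n := by exact_mod_cast hn
    have h1 : (∫ v, (v i ^ 2) ^ (q + 1) ∂π) * n ≤ (2 * q + 1) * ∫ v, (v i ^ 2) ^ q ∂π := by
      have : 0 ≤ (∫ v, (v i ^ 2) ^ (q + 1) ∂π) * (2 * q) := by positivity
      linarith [h, mul_add (∫ v, (v i ^ 2) ^ (q + 1) ∂π) (n : ℝ) (2 * q)]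
    rw [Finset.prod_range_succ]
    calc (∫ v, (v i ^ 2) ^ (q + 1) ∂π) * (n : ℝ) ^ (q + 1)
        = ((∫ v, (v i ^ 2) ^ (q + 1) ∂π) * n) * (n : ℝ) ^ q := by ring
      _ ≤ ((2 * q + 1) * ∫ v, (v i ^ 2) ^ q ∂π) * (n : ℝ) ^ q := by gcongr
      _ = (2 * q + 1) * ((∫ v, (v i ^ 2) ^ q ∂π) * (n : ℝ) ^ q) := by ring
      _ ≤ (2 * q + 1) * ∏ j ∈ Finset.range q, (2 * (j : ℝ) + 1) := by gcongr
      _ = _ := by ring

theorem utail_coord {n : ℕ} (v : E n) (k : Fin n) (hv : ‖v‖ = 1) : v k ^ 2 ≤ 1 := by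
  have h1 : ‖v k‖ ≤ ‖v‖ := PiLp.norm_apply_le v k
  rw [hv, Real.norm_eq_abs] at h1
  rw [← sq_abs]
  nlinarith [abs_nonneg (v k)]

theorem utail_one
    (hmom : ∀ (n : ℕ) (π : Measure (E n)), IsUnif n π → ∀ (i : Fin n) (q : ℕ),
      (∫ v, (v i ^ 2) ^ (q + 1) ∂π) * (n + 2 * q) = (2 * q + 1) * ∫ v, (v i ^ 2) ^ q ∂π)
    (η : ℝ) (q : ℕ) (hq : 2 ≤ q * η)
    (n : ℕ) (hn : 0 < n) (π : Measure (E n)) (hπ : IsUnif n π) (k : Fin n) :
    π {v | (n : ℝ) ^ (-1 + η) ≤ v k ^ 2} ≤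
      ENNReal.ofReal ((∏ j ∈ Finset.range q, (2 * (j : ℝ) + 1)) / (n : ℝ) ^ 2) := by
  haveI := hπ.prob
  have hn' : (0 : ℝ) < n := by exact_mod_cast hn
  have hn1 : (1 : ℝ) ≤ n := by exact_mod_cast hn
  have hcont : Continuous fun v : E n => (v k ^ 2) ^ q :=
    ((PiLp.continuous_apply 2 _ k).pow 2).pow q
  have hint : Integrable (fun v : E n => (v k ^ 2) ^ q) π := by
    refine Integrable.of_bound hcont.aestronglyMeasurable 1 ?_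
    filter_upwards [hπ.supp] with v hv
    rw [Real.norm_of_nonneg (by positivity)]
    exact pow_le_one₀ (sq_nonneg _) (utail_coord v k hv)
  have hmk := mul_meas_ge_le_integral_of_nonneg (μ := π)
    (Filter.Eventually.of_forall fun v : E n => by
      show (0 : ℝ) ≤ (v k ^ 2) ^ q
      positivity) hint (((n : ℝ) ^ (-1 + η)) ^ q)
  have hsub : {v : E n | (n : ℝ) ^ (-1 + η) ≤ v k ^ 2} ⊆
      {v : E n | ((n : ℝ) ^ (-1 + η)) ^ q ≤ (v k ^ 2) ^ q} := fun v hv =>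
    pow_le_pow_left₀ (Real.rpow_nonneg hn'.le _) hv q
  have hMq := utail_mom hmom n hn π hπ k q
  set P := ∏ j ∈ Finset.range q, (2 * (j : ℝ) + 1) with hP
  have hP0 : 0 ≤ P := Finset.prod_nonneg fun j _ => by positivity
  have hX : 0 < ((n : ℝ) ^ (-1 + η)) ^ q := pow_pos (Real.rpow_pos_of_pos hn' _) q
  have hXn : (n : ℝ) ^ 2 ≤ ((n : ℝ) ^ (-1 + η)) ^ q * (n : ℝ) ^ q := by
    rw [← mul_pow]
    have e1 : (n : ℝ) ^ (-1 + η) * n = (n : ℝ) ^ η := by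
      rw [Real.rpow_add hn', Real.rpow_neg_one]
      field_simp
    rw [e1, ← Real.rpow_natCast ((n : ℝ) ^ η) q, ← Real.rpow_mul hn'.le,
      ← Real.rpow_natCast (n : ℝ) 2]
    refine Real.rpow_le_rpow_of_exponent_le hn1 ?_
    push_cast
    linarith [mul_comm (q : ℝ) η]
  refine (measure_mono hsub).trans ?_
  rw [ENNReal.le_ofReal_iff_toReal_le (measure_ne_top _ _) (by positivity)]
  change π.real _ ≤ _
  rw [le_div_iff₀ (by positivity)]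
  set m := π.real {v : E n | ((n : ℝ) ^ (-1 + η)) ^ q ≤ (v k ^ 2) ^ q} with hm
  have hm0 : 0 ≤ m := measureReal_nonneg
  calc m * (n : ℝ) ^ 2 ≤ m * (((n : ℝ) ^ (-1 + η)) ^ q * (n : ℝ) ^ q) := by gcongr
    _ = (((n : ℝ) ^ (-1 + η)) ^ q * m) * (n : ℝ) ^ q := by ring
    _ ≤ (∫ v, (v k ^ 2) ^ q ∂π) * (n : ℝ) ^ q := by gcongr
    _ ≤ P := hMq


theorem unif_tail
    (hmom : ∀ (n : ℕ) (π : Measure (E n)), IsUnif n π → ∀ (i : Fin n) (q : ℕ),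
      (∫ v, (v i ^ 2) ^ (q + 1) ∂π) * (n + 2 * q) = (2 * q + 1) * ∫ v, (v i ^ 2) ^ q ∂π)
    (η ε : ℝ) (hη : 0 < η) (hε : 0 < ε) :
    ∀ᶠ n : ℕ in atTop, ∀ π : Measure (E n), IsUnif n π →
      π {v | ∃ k, (n : ℝ) ^ (-1 + η) ≤ v k ^ 2} ≤ ENNReal.ofReal ε := by
  obtain ⟨q, hq⟩ := exists_nat_ge (2 / η)
  have hq2 : 2 ≤ q * η := by
    rw [div_le_iff₀ hη] at hq
    exact hq
  have hP0 : 0 ≤ ∏ j ∈ Finset.range q, (2 * (j : ℝ) + 1) :=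
    Finset.prod_nonneg fun j _ => by positivity
  obtain ⟨N, hN⟩ := exists_nat_ge ((∏ j ∈ Finset.range q, (2 * (j : ℝ) + 1)) / ε)
  filter_upwards [eventually_ge_atTop (max 1 N)] with n hn π hπ
  have hn1 : 0 < n := lt_of_lt_of_le one_pos ((le_max_left 1 N).trans hn)
  have hn' : (0 : ℝ) < n := by exact_mod_cast hn1
  have hNn : (N : ℝ) ≤ n := by exact_mod_cast (le_max_right 1 N).trans hn
  have hset : {v : E n | ∃ k, (n : ℝ) ^ (-1 + η) ≤ v k ^ 2} =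
      ⋃ k : Fin n, {v : E n | (n : ℝ) ^ (-1 + η) ≤ v k ^ 2} := by
    ext v; simp
  rw [hset]
  refine (measure_iUnion_fintype_le π _).trans ?_
  refine (Finset.sum_le_sum fun k _ => utail_one hmom η q hq2 n hn1 π hπ k).trans ?_
  rw [Finset.sum_const, Finset.card_univ, Fintype.card_fin, nsmul_eq_mul,
    ← ENNReal.ofReal_natCast, ← ENNReal.ofReal_mul hn'.le]
  refine ENNReal.ofReal_le_ofReal ?_
  rw [div_le_iff₀ hε] at hN
  have h1 : (n : ℝ) * ((∏ j ∈ Finset.range q, (2 * (j : ℝ) + 1)) / (n : ℝ) ^ 2) =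
      (∏ j ∈ Finset.range q, (2 * (j : ℝ) + 1)) / n := by field_simp
  rw [h1, div_le_iff₀ hn']
  calc _ ≤ (N : ℝ) * ε := hN
    _ ≤ n * ε := by gcongr
    _ = ε * n := mul_comm _ _

end Pool.Agent.H494.Kac
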