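import Pool.Agent.H494.Kac.S_measurable_stepLaw
import Pool.Agent.H494.Kac.S_lintegral_stepLaw
import Pool.Agent.H494.Kac.S_polar
import Pool.Agent.H494.Kac.S_step_prob
import Pool.Agent.H494.Kac.S_law_prob
import Pool.Agent.H494.Kac.S_law_sphere
import Pool.Agent.H494.Kac.S_law_iter
import Pool.Agent.H494.Kac.S_psi_alg
import Pool.Agent.H494.Kac.S_psi_int
import Pool.Agent.H494.Kac.S_psi_main
import Pool.Agent.H494.Kac.S_sqrt_step
import Pool.Agent.H494.Kac.S_sq_step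
import Pool.Agent.H494.Kac.S_unif_rot
import Pool.Agent.H494.Kac.S_unif_mom
import Pool.Agent.H494.Kac.S_unif_tail
import Pool.Agent.H494.Kac.S_mom_deriv
import Pool.Agent.H494.Kac.S_mom_vals
import Pool.Agent.H494.Kac.S_mom_convex
import Pool.Agent.H494.Kac.S_cstar_le
import Pool.Agent.H494.Kac.S_exists_p
import Pool.Agent.H494.Kac.S_one_step
import Pool.Agent.H494.Kac.S_qop_affine
import Pool.Agent.H494.Kac.S_sqrt_iter
import Pool.Agent.H494.Kac.S_sq_iter
import Pool.Agent.H494.Kac.S_start_point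
import Pool.Agent.H494.Kac.S_unif_exists
import Pool.Agent.H494.Kac.S_asym

open MeasureTheory Filter Topology
open scoped ENNReal

namespace Pool.Agent.H494.Kac

theorem stepLaw_sq (n : ℕ) (v : E n) (g : (Fin n → ℝ) → ℝ≥0∞) (hg : Measurable g) :
    ∫⁻ w, g (fun k => w k ^ 2) ∂(stepLaw n v) = Qop n g (fun k => v k ^ 2) := by
  have hm : Measurable (fun w : E n => fun k => w k ^ 2) := by
    apply measurable_pi_lambda
    intro k
    exact (by fun_prop : Measurable (fun w : E n => w k ^ 2))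
  rw [lintegral_stepLaw n v (fun w => g (fun k => w k ^ 2)) (hg.comp hm)]
  unfold Qop
  congr 1
  apply Finset.sum_congr rfl
  intro p hp
  exact polar n p.1 p.2 ((pair_sum n (fun _ => 0)).2.2 p hp) v g hg

theorem cstar_facts : (∀ p : ℝ, 0 < p → (1 - 2 * mom p) / p ≤ 1315 / 10000) ∧
    cstar ≤ 1315 / 10000 ∧ 1 / 8 ≤ cstar := by
  obtain ⟨_, h1, h2, h3, h4, _⟩ := mom_vals
  exact cstar_le mom_convex h1 h2 h3 h4

theorem uniform_tail (η ε : ℝ) (hη : 0 < η) (hε : 0 < ε) :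
    ∀ᶠ n : ℕ in atTop, ∀ π : Measure (E n), IsUnif n π →
      π {v | ∃ k, (n : ℝ) ^ (-1 + η) ≤ v k ^ 2} ≤ ENNReal.ofReal ε := by
  apply unif_tail _ η ε hη hε
  intro n π hπ i q
  exact unif_mom n π hπ (fun i j hij g hg => unif_rot n π hπ i j hij g hg) i q

theorem psi_exists (v : ℝ) (hv : cstar < v) :
    ∃ (Ψ : ℝ → ℝ) (C Y L l0' l1' h0 : ℝ), 0 < C ∧ 1 ≤ Y ∧ 0 < l0' ∧ 0 < l1' ∧ 0 < h0 ∧
      Monotone Ψ ∧ (∀ y, y ≤ 1 → Ψ y = 0) ∧ (∀ y, Y ≤ y → Ψ y = C) ∧
      (∀ y h, 0 ≤ h → Ψ (y * Real.exp h) ≤ Ψ y + L * h) ∧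
      ∀ y h, 1 ≤ y → 0 < h → h ≤ h0 → l0' * Ψ y + l1' ≤
        v / h * (Ψ (y * Real.exp h) - Ψ y) + 2 * ∫ θ, Ψ (y * (Real.cos θ) ^ 2) ∂unif - Ψ y := by
  obtain ⟨hb, _, h8⟩ := cstar_facts
  obtain ⟨m1, _, _, _, m3, m4⟩ := mom_vals
  obtain ⟨p, hp, hp1, hp2⟩ := exists_p mom_deriv m1 m3 m4 hb v hv
  have hlm2 : 0 ≤ lm2 p := (mom_deriv p hp).2.2.2.le
  obtain ⟨R, M, l0, l1, hM, hMR, hl0, hl1, hMe, hder, hbr⟩ :=
    psi_alg p v (mom p) (lm p) (lm2 p) hp hlm2 hp1 hp2
  exact psi_main p v (mom p) (lm p) (lm2 p) R M l0 l1 hp (by linarith) hM hMR hl0 hl1 hMe hder hbr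
    (fun x => psi_int p hp R x)

/-- The main estimate. -/
theorem main (ε δ : ℝ) (hε : 0 < ε) (hδ : 0 < δ) (hδ1 : δ < 1) :
    ∀ᶠ n : ℕ in atTop, ∀ i₀ : Fin n, ∀ t : ℕ,
      (t : ℝ) ≤ (1 - δ) * (n * Real.log n) / (2 * cstar) →
      law n (EuclideanSpace.single i₀ (1 : ℝ)) t {v | ∃ k, (n : ℝ) ^ (-1 + δ / 4) ≤ v k ^ 2}ᶜ ≤
        ENNReal.ofReal ε := by
  obtain ⟨_, _, h8⟩ := cstar_facts
  have hc : 0 < cstar := by linarith
  set v : ℝ := cstar * (1 + δ / 2) with hv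
  have hcv : cstar < v := by rw [hv]; nlinarith
  have hvpos : 0 < v := hc.trans hcv
  obtain ⟨Ψ, C, Y, L, l0, l1, h0, hC, hY1, hl0, hl1, hh0, hmono, hz, hYC, hlip, hP⟩ := psi_exists v hcv
  have hΨC : ∀ y, Ψ y ≤ C := fun y => by
    rw [← hYC (max y Y) (le_max_right _ _)]
    exact hmono (le_max_left _ _)
  have hΨ0 : ∀ y, 0 ≤ Ψ y := by
    intro y
    rcases le_total y 1 with hy | hy
    · rw [hz y hy]
    · calc (0 : ℝ) = Ψ 1 := (hz 1 le_rfl).symm
        _ ≤ Ψ y := hmono hy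
  -- the parameter a
  obtain ⟨a, ha, ha1, ha2⟩ : ∃ a : ℝ, 0 < a ∧ 2 * a * C ≤ 1 ∧ 2 * C * a ≤ l0 / 2 := by
    refine ⟨min (1 / (2 * C)) (l0 / (4 * C)), by positivity, ?_, ?_⟩
    · have := min_le_left (1 / (2 * C)) (l0 / (4 * C))
      calc 2 * min (1 / (2 * C)) (l0 / (4 * C)) * C ≤ 2 * (1 / (2 * C)) * C := by gcongr
        _ = 1 := by field_simp
    · have := min_le_right (1 / (2 * C)) (l0 / (4 * C))
      calc 2 * C * min (1 / (2 * C)) (l0 / (4 * C)) ≤ 2 * C * (l0 / (4 * C)) := by gcongr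
        _ = l0 / 2 := by field_simp; ring
  obtain ⟨K, hK, hK1⟩ : ∃ K : ℝ, 0 < K ∧ Real.exp (-a * C * K) ≤ ε / 2 := by
    have : Tendsto (fun K : ℝ => Real.exp (-a * C * K)) atTop (𝓝 0) := by
      apply Real.tendsto_exp_atBot.comp
      apply Tendsto.const_mul_atTop_of_neg (by nlinarith [mul_pos ha hC]) tendsto_id
    obtain ⟨K, hK⟩ := ((this.eventually_le_const (by positivity : (0:ℝ) < ε / 2)).and (eventually_gt_atTop 0)).exists
    exact ⟨K, hK.2, hK.1⟩
  have hasym := asym δ cstar v Y (|L|) l0 l1 h0 (4 * K) (min (ε / 2) ε) hδ hδ1 hc hv hY1 hl0 hl1 hh0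
    (by positivity) (by positivity)
  filter_upwards [hasym] with n hn i₀ t ht
  obtain ⟨hn2, hnh, hnL, hn3, hnΛ, hnT, hnS, hnR, hnE⟩ := hn
  have hn2' : (2 : ℝ) ≤ n := by exact_mod_cast hn2
  have hn0 : (0 : ℝ) < n := by linarith
  have hn1 : (0 : ℝ) < (n : ℝ) - 1 := by linarith
  obtain ⟨hup, _, _⟩ := unif_basic
  haveI := hup
  set x : E n := EuclideanSpace.single i₀ (1 : ℝ) with hx
  have hxn : ‖x‖ = 1 := by rw [hx]; simp
  have hmeas := measurable_stepLaw n
  have hsprob := step_prob n hn2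
  have hlint := lintegral_stepLaw n
  have hsph := law_sphere n x hxn hmeas hlint
  haveI hlp := law_prob n x hmeas hsprob
  have hiter := law_iter n x hmeas hsph (stepLaw_sq n)
  have haff : ∀ (u w : ℝ), 0 ≤ u → ∀ g : (Fin n → ℝ) → ℝ, Measurable g → ∀ A : Fin n → ℝ,
      Qop n (fun A => ENNReal.ofReal (u * g A + w)) A ≤
      ENNReal.ofReal u * Qop n (fun A => ENNReal.ofReal (g A)) A + ENNReal.ofReal w :=
    fun u w hu g hg A => qop_affine n hn2 u w hu g hg hup A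
  have hsqrt := sqrt_iter n hn2 i₀ haff (sqrt_step n hn2) hiter
  have hsq := sq_iter n hn2 i₀ haff (sq_step n hn2) hiter
  have hsimp : ∀ s, ∀ᵐ w ∂(law n x s), ∑ k, w k ^ 2 = 1 := by
    intro s
    filter_upwards [hsph s] with w hw
    rw [← EuclideanSpace.real_norm_sq_eq, hw]; norm_num
  have hsqm : Measurable (fun w : E n => ENNReal.ofReal (∑ k, √(w k ^ 2))) := by
    apply Measurable.ennreal_ofReal
    apply Finset.measurable_sum
    intro k _
    exact (by fun_prop : Measurable (fun w : E n => √(w k ^ 2)))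
  set z : ℝ := (n : ℝ) ^ (δ / 8) with hz'
  have hzpos : 0 < z := by positivity
  set S : Set (E n) := {w | ∃ k, (n : ℝ) ^ (-1 + δ / 4) ≤ w k ^ 2} with hS
  have hScl : MeasurableSet Sᶜ := by
    rw [hS]
    apply MeasurableSet.compl
    rw [Set.setOf_exists]
    apply MeasurableSet.iUnion
    intro k
    exact measurableSet_le measurable_const (by fun_prop)
  set t0r : ℝ := δ / 8 * n * Real.log n / 2 with ht0r
  have ht0rnn : 0 ≤ t0r := by
    have : 0 ≤ Real.log n := Real.log_nonneg (by linarith)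
    positivity
  set t0 : ℕ := ⌈t0r⌉₊ with ht0
  have ht0a : t0r ≤ t0 := Nat.le_ceil _
  have ht0b : (t0 : ℝ) ≤ t0r + 1 := (Nat.ceil_lt_add_one ht0rnn).le
  rcases le_total t t0 with htt | htt
  · -- short times
    have hb : ∀ᵐ w ∂(law n x t), Sᶜ.indicator (1 : E n → ℝ≥0∞) w ≤
        ENNReal.ofReal (√z)⁻¹ * ENNReal.ofReal (∑ k, √(w k ^ 2)) := by
      filter_upwards [hsimp t] with w hw
      by_cases hwS : w ∈ Sᶜ
      · rw [Set.indicator_of_mem hwS, ← ENNReal.ofReal_mul (by positivity), Pi.one_apply, ← ENNReal.ofReal_one]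
        apply ENNReal.ofReal_le_ofReal
        have h1 : ∀ k, w k ^ 2 ≤ (√z)⁻¹ * √(w k ^ 2) := by
          intro k
          have h2 : w k ^ 2 ≤ z⁻¹ := by
            have : ¬ ((n : ℝ) ^ (-1 + δ / 4) ≤ w k ^ 2) := fun h => hwS ⟨k, h⟩
            have h3 : (n : ℝ) ^ (-1 + δ / 4) ≤ z⁻¹ := hnE
            linarith
          have h4 : √(w k ^ 2) ≤ (√z)⁻¹ := by
            rw [← Real.sqrt_inv]; exact Real.sqrt_le_sqrt h2
          calc w k ^ 2 = √(w k ^ 2) * √(w k ^ 2) := (Real.mul_self_sqrt (sq_nonneg _)).symm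
            _ ≤ (√z)⁻¹ * √(w k ^ 2) := by gcongr
        calc (1 : ℝ) = ∑ k, w k ^ 2 := hw.symm
          _ ≤ ∑ k, (√z)⁻¹ * √(w k ^ 2) := Finset.sum_le_sum fun k _ => h1 k
          _ = (√z)⁻¹ * ∑ k, √(w k ^ 2) := by rw [Finset.mul_sum]
      · rw [Set.indicator_of_notMem hwS]; exact zero_le
    calc law n x t Sᶜ = ∫⁻ w, Sᶜ.indicator (1 : E n → ℝ≥0∞) w ∂(law n x t) := by
          rw [lintegral_indicator_one hScl]
      _ ≤ ∫⁻ w, ENNReal.ofReal (√z)⁻¹ * ENNReal.ofReal (∑ k, √(w k ^ 2)) ∂(law n x t) := lintegral_mono_ae hb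
      _ = ENNReal.ofReal (√z)⁻¹ * ∫⁻ w, ENNReal.ofReal (∑ k, √(w k ^ 2)) ∂(law n x t) := by
          rw [lintegral_const_mul _ hsqm]
      _ ≤ ENNReal.ofReal (√z)⁻¹ * ENNReal.ofReal (Real.exp (t * (2 / n * (4 / Real.pi - 1)))) := by
          gcongr; exact hsqrt t
      _ = ENNReal.ofReal ((√z)⁻¹ * Real.exp (t * (2 / n * (4 / Real.pi - 1)))) := by
          rw [← ENNReal.ofReal_mul (by positivity)]
      _ ≤ ENNReal.ofReal ε := by
          apply ENNReal.ofReal_le_ofReal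
          refine le_trans (hnR t ?_) (min_le_right _ _)
          have : (t : ℝ) ≤ t0 := by exact_mod_cast htt
          linarith
  · -- long times
    set h : ℝ := 2 * v / n with hh
    have hhpos : 0 < h := by positivity
    set Λ : ℕ → ℝ := fun s => Y * z * Real.exp (h * ((s : ℝ) - t0)) with hΛ
    have hΛpos : ∀ s, 0 < Λ s := fun s => by simp only [hΛ]; positivity
    have hΛsucc : ∀ s, Λ (s + 1) = Λ s * Real.exp h := by
      intro s
      simp only [hΛ]
      have e : h * (((s + 1 : ℕ) : ℝ) - t0) = h * ((s : ℝ) - t0) + h := by push_cast; ring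
      rw [e, Real.exp_add]
      ring
    have hΛle : ∀ s : ℕ, s ≤ t → Λ s ≤ (n : ℝ) ^ (1 - δ / 4) := by
      intro s hs
      have h1 : ((s : ℝ) - t0) ≤ (1 - δ) * (n * Real.log n) / (2 * cstar) := by
        have : (s : ℝ) ≤ t := by exact_mod_cast hs
        have h2 : (0:ℝ) ≤ t0 := by positivity
        linarith
      exact hnT _ h1
    set G : ℕ → (Fin n → ℝ) → ℝ≥0∞ := fun s A => ENNReal.ofReal (Real.exp (-a * ∑ k, Ψ (A k * Λ s))) with hG
    have hGm : ∀ s, Measurable (G s) := by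
      intro s
      apply Measurable.ennreal_ofReal
      apply Real.measurable_exp.comp
      apply Measurable.const_mul
      apply Finset.measurable_sum
      intro k _
      exact hmono.measurable.comp ((measurable_pi_apply k).mul measurable_const)
    have hstep : ∀ s, t0 ≤ s → s < t → ∀ A : Fin n → ℝ, (∀ k, 0 ≤ A k) → ∑ k, A k = 1 →
        Qop n (G (s + 1)) A ≤ G s A := by
      intro s hs1 hs2 A hA hAs
      have hε1 : 2 * (Λ s * Real.exp h) / (n - 1) + 2 * C * a ≤ l0 := by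
        have e1 : Λ s * Real.exp h ≤ (n : ℝ) ^ (1 - δ / 4) := by
          rw [← hΛsucc]; exact hΛle _ hs2
        have e2 : 2 * (Λ s * Real.exp h) / ((n:ℝ) - 1) ≤ 2 * (n : ℝ) ^ (1 - δ / 4) / (n - 1) := by gcongr
        linarith
      have hε1nn : 0 ≤ 2 * (Λ s * Real.exp h) / ((n:ℝ) - 1) + 2 * C * a := by
        have := hΛpos s
        positivity
      have := one_step n hn2 Ψ C L l0 l1 v a h (Λ s) (2 * (Λ s * Real.exp h) / (n - 1) + 2 * C * a) hmono hz hΨC hlip
        hvpos rfl (fun y hy => hP y h hy hhpos hnh) ha ha1 (hΛpos s) hl0.le rfl hε1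
        (by
          calc L * h * (1 + (2 * (Λ s * Real.exp h) / ((n:ℝ) - 1) + 2 * C * a))
              ≤ |L| * h * (1 + (2 * (Λ s * Real.exp h) / ((n:ℝ) - 1) + 2 * C * a)) := by
                gcongr; exact le_abs_self L
            _ ≤ |L| * h * (1 + l0) := by gcongr
            _ ≤ l1 := hnL)
        (by
          calc 2 / (n:ℝ) * (1 + (2 * (Λ s * Real.exp h) / ((n:ℝ) - 1) + 2 * C * a)) ≤ 2 / n * (1 + l0) := by gcongr
            _ ≤ 1 := hn3) A hA hAs
      simpa only [hG, hΛsucc] using this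
    have hmain := hiter G hGm t0 t htt hstep
    -- bound at time t0
    have hΛ0 : Λ t0 = Y * z := by simp [hΛ]
    have hstart : ∫⁻ w, G t0 (fun k => w k ^ 2) ∂(law n x t0) ≤ ENNReal.ofReal ε := by
      have hpt : ∀ᵐ w ∂(law n x t0), G t0 (fun k => w k ^ 2) ≤
          ENNReal.ofReal (ε / 2) + (ENNReal.ofReal (4 * K) * ENNReal.ofReal (∑ k, (w k ^ 2) ^ 2) +
            ENNReal.ofReal (2 * (√z)⁻¹) * ENNReal.ofReal (∑ k, √(w k ^ 2))) := by
        filter_upwards [hsimp t0] with w hw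
        have h1 := start_point n Ψ C Y a z K hmono hz hYC hC hY1 ha hK hzpos (fun k => w k ^ 2)
          (fun k => sq_nonneg _) hw
        rw [← ENNReal.ofReal_mul (by positivity), ← ENNReal.ofReal_mul (by positivity),
          ← ENNReal.ofReal_add (by positivity) (by positivity), ← ENNReal.ofReal_add (by positivity) (by positivity)]
        simp only [hG, hΛ0]
        apply ENNReal.ofReal_le_ofReal
        linarith
      have hm4 : Measurable (fun w : E n => ENNReal.ofReal (∑ k, (w k ^ 2) ^ 2)) := by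
        apply Measurable.ennreal_ofReal
        apply Finset.measurable_sum
        intro k _
        exact (by fun_prop : Measurable (fun w : E n => (w k ^ 2) ^ 2))
      calc ∫⁻ w, G t0 (fun k => w k ^ 2) ∂(law n x t0)
          ≤ ∫⁻ w, (ENNReal.ofReal (ε / 2) + (ENNReal.ofReal (4 * K) * ENNReal.ofReal (∑ k, (w k ^ 2) ^ 2) +
            ENNReal.ofReal (2 * (√z)⁻¹) * ENNReal.ofReal (∑ k, √(w k ^ 2)))) ∂(law n x t0) := lintegral_mono_ae hpt
        _ = ENNReal.ofReal (ε / 2) + (ENNReal.ofReal (4 * K) * ∫⁻ w, ENNReal.ofReal (∑ k, (w k ^ 2) ^ 2) ∂(law n x t0) +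
            ENNReal.ofReal (2 * (√z)⁻¹) * ∫⁻ w, ENNReal.ofReal (∑ k, √(w k ^ 2)) ∂(law n x t0)) := by
            haveI := hlp t0
            rw [lintegral_add_left measurable_const, lintegral_add_left (hm4.const_mul _),
              lintegral_const_mul _ hm4, lintegral_const_mul _ hsqm, lintegral_const, measure_univ, mul_one]
        _ ≤ ENNReal.ofReal (ε / 2) + (ENNReal.ofReal (4 * K) * ENNReal.ofReal (Real.exp (-(t0 / (2 * n))) + 3 / (n - 1)) +
            ENNReal.ofReal (2 * (√z)⁻¹) * ENNReal.ofReal (Real.exp (t0 * (2 / n * (4 / Real.pi - 1))))) := by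
            gcongr
            · exact hsq t0
            · exact hsqrt t0
        _ = ENNReal.ofReal (ε / 2 + (4 * K * (Real.exp (-(t0 / (2 * n))) + 3 / (n - 1)) +
            2 * (√z)⁻¹ * Real.exp (t0 * (2 / n * (4 / Real.pi - 1))))) := by
            rw [← ENNReal.ofReal_mul (by positivity), ← ENNReal.ofReal_mul (by positivity),
              ← ENNReal.ofReal_add (by positivity) (by positivity), ← ENNReal.ofReal_add (by positivity) (by positivity)]
        _ ≤ ENNReal.ofReal ε := by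
            apply ENNReal.ofReal_le_ofReal
            have := le_trans (hnS t0 ht0a ht0b) (min_le_left _ _)
            linarith
    have hb : ∀ w, Sᶜ.indicator (1 : E n → ℝ≥0∞) w ≤ G t (fun k => w k ^ 2) := by
      intro w
      by_cases hwS : w ∈ Sᶜ
      · rw [Set.indicator_of_mem hwS, Pi.one_apply]
        have h1 : ∀ k, Ψ (w k ^ 2 * Λ t) = 0 := by
          intro k
          apply hz
          have h2 : ¬ ((n : ℝ) ^ (-1 + δ / 4) ≤ w k ^ 2) := fun h => hwS ⟨k, h⟩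
          have h3 : w k ^ 2 ≤ (n : ℝ) ^ (-1 + δ / 4) := (not_le.mp h2).le
          calc w k ^ 2 * Λ t ≤ (n : ℝ) ^ (-1 + δ / 4) * (n : ℝ) ^ (1 - δ / 4) := by
                have := (hΛpos t).le
                exact mul_le_mul h3 (hΛle t le_rfl) this (by positivity)
            _ = 1 := by rw [← Real.rpow_add hn0]; norm_num
        simp only [hG, h1]
        simp
      · rw [Set.indicator_of_notMem hwS]; exact zero_le
    calc law n x t Sᶜ = ∫⁻ w, Sᶜ.indicator (1 : E n → ℝ≥0∞) w ∂(law n x t) := by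
          rw [lintegral_indicator_one hScl]
      _ ≤ ∫⁻ w, G t (fun k => w k ^ 2) ∂(law n x t) := lintegral_mono hb
      _ ≤ ∫⁻ w, G t0 (fun k => w k ^ 2) ∂(law n x t0) := hmain
      _ ≤ ENNReal.ofReal ε := hstart

end Pool.Agent.H494.Kac
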