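import Pool.Agent.H494.Kac.Main
import Pool.Agent.H494.Kac.S_unif_basic
import Pool.Agent.H494.Kac.S_pair_sum
import Pool.Agent.H494.Kac.C_gauss_polar2
import Pool.Agent.H494.Kac.C_gauss_polar
import Pool.Agent.H494.Kac.C_rot_pol
import Pool.Agent.H494.Kac.C_pol_alg
import Pool.Agent.H494.Kac.C_avg_meas
import Pool.Agent.H494.Kac.C_avg_prob
import Pool.Agent.H494.Kac.C_avg_good
import Pool.Agent.H494.Kac.C_avg_perm
import Pool.Agent.H494.Kac.C_unif_swap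
import Pool.Agent.H494.Kac.C_rep_step
import Pool.Agent.H494.Kac.C_rep_main
import Pool.Agent.H494.Kac.C_dv_main
import Pool.Agent.H494.Kac.C_law_succ
import Pool.Agent.H494.Kac.C_flip_bound
import Pool.Agent.H494.Kac.C_sign_coupling
import Pool.Agent.H494.Kac.C_y_step
import Pool.Agent.H494.Kac.C_pow_ineq
import Pool.Agent.H494.Kac.C_uq_sum
import Pool.Agent.H494.Kac.C_uq_step
import Pool.Agent.H494.Kac.C_y32_step
import Pool.Agent.H494.Kac.C_moment_seq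
import Pool.Agent.H494.Kac.C_seq_v
import Pool.Agent.H494.Kac.C_seq_all
import Pool.Agent.H494.Kac.C_mom_rec
import Pool.Agent.H494.Kac.C_mom94
import Pool.Agent.H494.Kac.C_exists_q
import Pool.Agent.H494.Kac.C_reverse
import Pool.Agent.H494.Kac.C_reverse32
import Pool.Agent.H494.Kac.C_gdens
import Pool.Agent.H494.Kac.C_gker
import Pool.Agent.H494.Kac.C_gdens_n
import Pool.Agent.H494.Kac.C_tv_chi
import Pool.Agent.H494.Kac.C_perm_pt
import Pool.Agent.H494.Kac.C_bi_bound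
import Pool.Agent.H494.Kac.C_col_l2
import Pool.Agent.H494.Kac.C_conv_pt
import Pool.Agent.H494.Kac.C_conv_l2
import Pool.Agent.H494.Kac.C_tv_shift
import Pool.Agent.H494.Kac.C_cv_bound
import Pool.Agent.H494.Kac.C_th_inj
import Pool.Agent.H494.Kac.C_th_deriv
import Pool.Agent.H494.Kac.C_det_mark
import Pool.Agent.H494.Kac.C_det_JT
import Pool.Agent.H494.Kac.C_det_bound
import Pool.Agent.H494.Kac.C_step1_pt
import Pool.Agent.H494.Kac.C_step1_int
import Pool.Agent.H494.Kac.C_step1_fin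
import Pool.Agent.H494.Kac.C_unif_uniq
import Pool.Agent.H494.Kac.C_unif_gam
import Pool.Agent.H494.Kac.C_law_rep
import Pool.Agent.H494.Kac.C_step1_avg
import Pool.Agent.H494.Kac.C_shift_avg
import Pool.Agent.H494.Kac.C_tr_l2
import Pool.Agent.H494.Kac.C_col_bounds
import Pool.Agent.H494.Kac.C_Phi_bd
import Pool.Agent.H494.Kac.C_final_asym

open MeasureTheory Filter Topology
open scoped ENNReal

namespace Pool.Agent.H494.Kac

theorem f_prob (n : ℕ) (hn : 2 ≤ n) (t : ℕ) : IsProbabilityMeasure (avgLaw n t) :=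
  avg_prob n hn unif_prob (avg_meas n).1 t

theorem f_good (n t : ℕ) :
    ∀ᵐ M ∂(avgLaw n t), (∀ i k, 0 ≤ M i k) ∧ ∀ k, 0 < ∑ i, M i k :=
  avg_good n (avg_meas n).1 (avg_meas n).2 t

theorem f_nonneg (n t : ℕ) : ∀ᵐ M ∂(avgLaw n t), ∀ i k, 0 ≤ M i k := by
  filter_upwards [f_good n t] with M h using h.1

theorem f_pol (n : ℕ) (i j : Fin n) (hij : i ≠ j) (G : ℝ → (Fin n → ℝ) → ℝ≥0∞)
    (hG : Measurable (fun q : ℝ × (Fin n → ℝ) => G q.1 q.2)) :
    ∫⁻ w, ∫⁻ θ, G (w i ^ 2 / (w i ^ 2 + w j ^ 2)) (pol i j θ w) ∂unif ∂(gam n) =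
      ∫⁻ φ, ∫⁻ w, G ((Real.cos φ) ^ 2) w ∂(gam n) ∂unif :=
  gauss_polar n i j hij (fun H hH => gauss_polar2 H hH) G hG

theorem f_rep (n : ℕ) (x : Fin n → ℝ) (t : ℕ) (f : E n → ℝ≥0∞) (hf : Measurable f) :
    ∫⁻ w, ∫⁻ y, f y ∂(law n (WithLp.toLp 2 (Psi x (idm n) w)) t) ∂(gam n) =
      ∫⁻ M, ∫⁻ w, f (WithLp.toLp 2 (Psi x M w)) ∂(gam n) ∂(avgLaw n t) := by
  refine rep_main n x (avg_meas n).1 (measurable_stepLaw n) (avg_meas n).2
    (fun v f hf => lintegral_stepLaw n v f hf) (f_nonneg n) ?_ t f hf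
  intro M hM i j hij f hf
  exact rep_step n x M hM i j hij f hf (fun G hG => f_pol n i j hij G hG)
    (fun v => rot_pol n i j hij v f hf) (fun w hw θ => (pol_alg n x M hM i j hij w hw θ).2.2.1)

theorem f_dv (n : ℕ) (k : Fin n) (t : ℕ) (g : (Fin n → ℝ) → ℝ≥0∞) (hg : Measurable g) :
    ∫⁻ M, ∫⁻ w, g (Dv k M w) ∂(gam n) ∂(avgLaw n (t + 1)) =
      ∫⁻ M, ∫⁻ w, Qop n g (Dv k M w) ∂(gam n) ∂(avgLaw n t) := by
  refine dv_main n k (avg_meas n).1 (avg_meas n).2 (fun i j hij G hG => f_pol n i j hij G hG)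
    (f_nonneg n) ?_ t g hg
  intro M hM i j hij w hw θ
  exact (pol_alg n (fun _ => 0) M hM i j hij w hw θ).2.2.2 k

theorem f_law_prob (n : ℕ) (hn : 2 ≤ n) (t : ℕ) (x : E n) : IsProbabilityMeasure (law n x t) :=
  law_prob n x (measurable_stepLaw n) (step_prob n hn) t

theorem f_sign (n : ℕ) (hn : 2 ≤ n) (t : ℕ) (x y : E n) (hxy : ∀ k, x k ^ 2 = y k ^ 2)
    (f : E n → ℝ≥0∞) (hf : Measurable f) (hf1 : ∀ v, f v ≤ 1) :
    ∫⁻ v, f v ∂(law n x t) ≤ ∫⁻ v, f v ∂(law n y t) + n * ENNReal.ofReal ((1 - 2 / n) ^ t) := by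
  refine sign_coupling n t ?_ x y hxy f hf hf1
  intro k x f hf hf1
  have hs := law_succ n (measurable_stepLaw n)
  exact flip_bound n hn k (measurable_stepLaw n) hs.1 hs.2
    (fun v f hf => lintegral_stepLaw n v f hf) (fun i j hij v f hf => rot_pol n i j hij v f hf)
    (pair_sum n (fun _ => 0)).2.1 unif_prob t x f hf hf1 (fun t y => f_law_prob n hn t y)

theorem f_Phi (q : ℝ) (hq : 2 ≤ q) (hq3 : q ≤ 3) :
    q / 8 ≤ 1 - 2 * mom q ∧ 1 - 2 * mom q ≤ 1 / 2 ∧ mom q ≤ 3 / 8 ∧ 0 ≤ mom q :=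
  Phi_bd mom_convex mom_vals.2.2.1 mom_vals.2.2.2.2.1 q hq hq3

theorem f_col (δ ε : ℝ) (hδ : 0 < δ) (hδ1 : δ ≤ 1) (hε : 0 < ε) :
    ∃ q : ℝ, 2 ≤ q ∧ q ≤ 3 ∧ ∀ᶠ n : ℕ in atTop, ∀ t : ℕ,
      (1 + δ) * (n * Real.log n) / (2 * cstar) ≤ t →
      t ≤ (1 + δ) * (n * Real.log n) / (2 * cstar) + 1 → ∀ k : Fin n,
      ∫⁻ M, ENNReal.ofReal (∑ i, (col M k i - 1) ^ 2) ∂(avgLaw n t) ≤
        ENNReal.ofReal ((n : ℝ) ^ (1 / 5 : ℝ)) ∧
      ∫⁻ M, ENNReal.ofReal ((∑ i, (col M k i - 1) ^ 2) ^ (3 / 2 : ℝ)) ∂(avgLaw n t) ≤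
        ENNReal.ofReal ((n : ℝ) ^ (18 / 100 : ℝ)) ∧
      ∫⁻ M, ENNReal.ofReal (∑ i, |col M k i - 1| ^ q) ∂(avgLaw n t) ≤ ENNReal.ofReal ε := by
  obtain ⟨h1, h15, h2, h25, h3, h4⟩ := mom_vals
  obtain ⟨hb, hc2, hc1⟩ := cstar_facts
  refine col_bounds ?_ ?_ ?_ f_good ?_ hc1 hc2 ?_ δ ε hδ hδ1 hε
  · intro δ c q Φ K ε a1 a2 a3 a4 a5 a6 a7 a8 a9 a10 a11
    exact seq_all δ c q Φ K ε a1 a2 a3 a4 a5 a6 a7 a8 a9 a10 a11 (fun e he he1 => seq_v e he he1)
  · intro n hn k q hq hq3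
    have hP := f_Phi q hq hq3
    refine moment_seq n hn k q hq hq3 hP.2.2.2 hP.2.2.1 h3 (f_prob n hn) (f_good n)
      (fun t g hg => f_dv n k t g hg) ?_ ?_ ?_
    · intro A hA
      exact y_step n hn unif_prob h2 unif_basic.2.1 (fun f => pair_sum n f) A hA
    · intro A hA
      exact y32_step n hn unif_prob h2 unif_basic.2.1 (fun f => pair_sum n f) A hA
    · intro r hr A hA
      have hr' : 2 ≤ r ∧ r ≤ 3 := by
        rcases hr with rfl | rfl
        · exact ⟨hq, hq3⟩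
        · constructor <;> norm_num
      have hPr := f_Phi r hr'.1 hr'.2
      exact uq_step n hn r hr'.1 hr'.2 unif_prob hPr.2.2.1 unif_basic.2.1
        (fun f => pair_sum n f) A (uq_sum n hn r hr'.1 hr'.2 (fun f => pair_sum n f)
          (fun a b => pow_ineq r hr'.1 hr'.2 a b) A hA)
  · intro n hn a ha hs
    have hr := fun (q : ℝ) (hq : 1 ≤ q) (hq3 : q ≤ 3) => reverse n hn a ha hs q hq hq3
    exact ⟨hr, reverse32 n hn a (hr 2 (by norm_num) (by norm_num))⟩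
  · intro v hv
    exact exists_q mom_convex (mom94 mom_rec h25 h4) h25 h3 v hv
  · intro q hq hq3
    have := f_Phi q hq hq3
    exact ⟨this.1, this.2.1⟩

theorem f_dens (n : ℕ) (η ξ : Fin n → ℝ) (hη : ∀ i, |η i| ≤ 1 / 2) (hξ : ∀ i, |ξ i| ≤ 1 / 2) :
    (∀ f : (Fin n → ℝ) → ℝ≥0∞, Measurable f →
      ∫⁻ w, f (fun i => w i * √(1 + η i)) ∂(gam n) =
        ∫⁻ w, f w * ENNReal.ofReal (∏ i, gd (η i) (w i)) ∂(gam n)) ∧
    ∫⁻ w, ENNReal.ofReal (∏ i, gd (η i) (w i)) * ENNReal.ofReal (∏ i, gd (ξ i) (w i)) ∂(gam n) =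
      ENNReal.ofReal (∏ i, (1 - η i * ξ i) ^ (-(1 / 2) : ℝ)) :=
  gdens_n n (fun x hx f hf => gdens x hx f hf) (fun x y hx hy => gker x y hx hy) η ξ hη hξ

theorem f_shift (n : ℕ) (b c : Fin n → ℝ) (hb : ∀ i, 0 ≤ b i) (hc : ∀ i, 1 / 2 ≤ c i)
    (f : (Fin n → ℝ) → ℝ) (hf : Measurable f) (hf0 : ∀ v, 0 ≤ f v) (hf1 : ∀ v, f v ≤ 1) :
    |∫ w, f (fun i => w i * √(b i)) ∂(gam n) - ∫ w, f (fun i => w i * √(c i)) ∂(gam n)| ≤
      8 * √(∑ i, (b i - c i) ^ 2) := by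
  refine tv_shift n b c hb hc f hf hf0 hf1 ?_
  intro η hη g hg hg0 hg1 χ hχ hle
  have := tv_chi n (Measure.dirac (() : Unit)) (fun _ => η) measurable_const (fun _ => hη)
    (fun η ξ hη hξ => f_dens n η ξ hη hξ) g hg hg0 hg1 χ hχ (by
      simp only [lintegral_dirac]
      exact ENNReal.ofReal_le_ofReal hle)
  simpa using this

theorem f_step1 (n : ℕ) (hn : 2 ≤ n) (a : Fin n → Fin n → ℝ) (p : Fin n → ℝ)
    (ha : ∀ k i, 0 ≤ a k i) (hs : ∀ k, ∑ i, a k i = n) (hp : ∀ k, 0 ≤ p k) (hp1 : ∑ k, p k = 1)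
    (hb : ∀ i, 3 / 4 ≤ bv a p i) (k₀ : Fin n) (hk₀ : 0 < p k₀) (hpos : ∀ i, 0 < a k₀ i)
    (f : (Fin n → ℝ) → ℝ) (hf : Measurable f) (hf0 : ∀ v, 0 ≤ f v) (hf1 : ∀ v, f v ≤ 1) :
    |∫ w, f (fun i => w i * √(gf a p w i)) ∂(gam n) -
      ∫ w, f (fun i => w i * √(bv a p i)) ∂(gam n)| ≤
      200 * (1 / (n : ℝ) + ∑ k, (∑ j, (a k j - 1) ^ 2) / (n : ℝ) ^ 2 +
        ∑ k, p k * ((∑ j, (a k j - 1) ^ 2) / (n : ℝ) +
        √((∑ j, (a k j - 1) ^ 2) * ((n : ℝ) + ∑ j, (a k j - 1) ^ 2)) / (n : ℝ))) := by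
  obtain ⟨hI, hB⟩ := step1_int n hn a p ha hs hp hp1 hb
  refine step1_fin n hn a p ha hs hp hp1 hb _ hI _ hB ?_ ?_ ?_ ?_ ?_ ?_ f hf hf0 hf1
  · intro w hw
    exact step1_pt n hn a p ha hs hp hp1 hb w hw (fun hg => det_bound n (by omega) a p ha hs hp hp1
      w hw hg (fun K μ q h1 h2 h3 h4 h5 h6 => det_mark n K μ q (by omega) h1 h2 h3 h4 h5 h6))
  · intro w
    refine add_nonneg (by positivity) (Finset.sum_nonneg fun k _ => mul_nonneg (hp k) ?_)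
    positivity
  · intro w hw
    exact det_JT n a p w hw
  · intro w hw
    exact th_deriv n a p ha hs hp hp1 (fun i => by have := hb i; linarith) w hw
  · exact th_inj n a p ha hs hp hp1 k₀ hk₀ hpos
  · intro T₁ T' s h1 h2 h3 h4 h5 f hf hf0 hf1
    exact cv_bound n T₁ T' s h1 h2 h3 h4 h5 f hf hf0 hf1

theorem mix_upper (ε δ : ℝ) (hε : 0 < ε) (hδ : 0 < δ) (hδ1 : δ ≤ 1) :
    ∀ᶠ n : ℕ in atTop, ∀ t : ℕ, (1 + δ) * (n * Real.log n) / (2 * cstar) ≤ t →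
      t ≤ (1 + δ) * (n * Real.log n) / (2 * cstar) + 1 →
      ∀ π : Measure (E n), IsUnif n π → ∀ x : E n, ‖x‖ = 1 → ∀ S : Set (E n), MeasurableSet S →
        |(law n x t).real S - π.real S| ≤ ε := by
  obtain ⟨θ, hθ0, hθ1, hθn⟩ := final_asym ε hε
  obtain ⟨q, hq2, hq3, hcol⟩ := f_col δ (θ ^ 3) hδ hδ1 (by positivity)
  obtain ⟨_, hc2, hc1⟩ := cstar_facts
  have hc : 0 < cstar := by linarith
  filter_upwards [hθn, hcol] with n ⟨hn2, hn⟩ hcn t ht1 ht2 π hπ x hx S hS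
  obtain ⟨m, rfl⟩ : ∃ m, n = m + 1 := ⟨n - 1, by omega⟩
  have hm : 1 ≤ m := by omega
  haveI := f_prob (m + 1) hn2 t
  have hcn' := hcn t ht1 ht2
  -- the time
  have ht3 : 3 * (((m + 1 : ℕ) : ℝ) * Real.log ((m + 1 : ℕ) : ℝ)) ≤ t := by
    refine le_trans ?_ ht1
    have hl : 0 ≤ ((m + 1 : ℕ) : ℝ) * Real.log ((m + 1 : ℕ) : ℝ) :=
      mul_nonneg (by positivity) (Real.log_nonneg (by exact_mod_cast (by omega : 1 ≤ m + 1)))
    rw [le_div_iff₀ (by positivity)]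
    nlinarith
  have hfin := hn t ht3
  -- the weights
  set p : Fin (m + 1) → ℝ := fun k => x k ^ 2 with hpdef
  have hp : ∀ k, 0 ≤ p k := fun k => by positivity
  have hp1 : ∑ k, p k = 1 := by
    have := EuclideanSpace.norm_sq_eq x
    rw [hx] at this
    simp only [Real.norm_eq_abs, sq_abs] at this
    rw [hpdef]
    linarith
  -- the test function
  set f : (Fin (m + 1) → ℝ) → ℝ := fun v => S.indicator (fun _ => (1 : ℝ))
      (‖(WithLp.toLp 2 v : E (m + 1))‖⁻¹ • (WithLp.toLp 2 v : E (m + 1))) with hfdef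
  have hf : Measurable f := by
    have hto : Measurable (fun v : Fin (m + 1) → ℝ => (WithLp.toLp 2 v : E (m + 1))) := by
      fun_prop
    exact (measurable_const.indicator hS).comp ((hto.norm.inv).smul hto)
  have hf0 : ∀ v, 0 ≤ f v := fun v => Set.indicator_nonneg (fun _ _ => zero_le_one) _
  have hf1 : ∀ v, f v ≤ 1 := fun v => Set.indicator_le_self' (fun _ _ => zero_le_one) _
  have h1 := law_rep (m + 1) hn2 t x hx ((law_succ (m + 1) (measurable_stepLaw (m + 1))).1 t)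
    (fun y => f_law_prob (m + 1) hn2 t y) (f_prob (m + 1) hn2 t) (f_good (m + 1) t)
    (fun f hf => f_rep (m + 1) (fun k => x k) t f hf)
    (fun y z hyz f hf hf1 => f_sign (m + 1) hn2 t y z hyz f hf hf1) S hS
  have h2 := step1_avg (m + 1) hn2 (avgLaw (m + 1) t) (f_good (m + 1) t) p hp hp1 f hf hf0 hf1 q
    hq2 hq3 (θ ^ 3) (by positivity) (fun k => (hcn' k).2.2) (fun k => (hcn' k).1)
    (fun a ha hs hb k₀ hk₀ hpos => f_step1 (m + 1) hn2 a p ha hs hp hp1 hb k₀ hk₀ hpos f hf hf0 hf1)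
  have h3 := shift_avg (m + 1) hn2 (avgLaw (m + 1) t) (f_good (m + 1) t) p hp hp1 f hf hf0 hf1 q
    hq2 hq3 (θ ^ 3) θ (by positivity) hθ0 (fun k => (hcn' k).2.2) (fun k => (hcn' k).2.1)
    (fun b c hb hc => f_shift (m + 1) b c hb hc f hf hf0 hf1)
  have htr : ∀ (M : Fin (m + 1) → Fin (m + 1) → ℝ) (k i : Fin (m + 1)), |trc M k i| ≤ 1 / 30 := by
    intro M k i
    unfold trc
    split_ifs with h
    · exact h.1
    · norm_num
  have hcolm : ∀ k i : Fin (m + 1),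
      Measurable (fun M : Fin (m + 1) → Fin (m + 1) → ℝ => col M k i) := by
    intro k i
    unfold col
    fun_prop
  have htrm : Measurable (fun (M : Fin (m + 1) → Fin (m + 1) → ℝ) (k i : Fin (m + 1)) =>
      trc M k i) := by
    apply measurable_pi_lambda
    intro k
    apply measurable_pi_lambda
    intro i
    unfold trc
    apply Measurable.ite
    · apply MeasurableSet.inter
      · exact measurableSet_le (((hcolm k i).sub_const 1).abs) measurable_const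
      · exact measurableSet_le (Finset.measurable_sum _ (fun j _ => ((hcolm k j).sub_const 1).pow_const 2))
          measurable_const
    · exact (hcolm k i).sub_const 1
    · exact measurable_const
  set χ : ℝ := (1 + (2 * θ) ^ 2) * Real.exp (1361 * ((m : ℝ) + 1) ^ (4 / 5 : ℝ) / m) - 1 with hχdef
  have hχ0 : 0 ≤ χ := by
    have h1 : 1 ≤ Real.exp (1361 * ((m : ℝ) + 1) ^ (4 / 5 : ℝ) / m) :=
      Real.one_le_exp (by positivity)
    have h2 : 0 ≤ (2 * θ) ^ 2 := by positivity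
    rw [hχdef]
    nlinarith
  have h4 := tv_chi (m + 1) (avgLaw (m + 1) t) (fun M i => ∑ k, p k * trc M k i)
    (by
      apply measurable_pi_lambda
      intro i
      apply Finset.measurable_sum
      intro k _
      exact ((measurable_pi_apply i).comp ((measurable_pi_apply k).comp htrm)).const_mul (p k))
    (by
      intro M i
      calc |∑ k, p k * trc M k i| ≤ ∑ k, |p k * trc M k i| := Finset.abs_sum_le_sum_abs _ _
        _ ≤ ∑ k, p k * (1 / 30) := by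
            apply Finset.sum_le_sum
            intro k _
            rw [abs_mul, abs_of_nonneg (hp k)]
            exact mul_le_mul_of_nonneg_left (htr M k i) (hp k)
        _ = 1 / 30 := by rw [← Finset.sum_mul, hp1, one_mul]
        _ ≤ 1 / 2 := by norm_num)
    (fun η ξ hη hξ => f_dens (m + 1) η ξ hη hξ) f hf hf0 hf1 χ hχ0
    (by
      refine conv_l2 (m + 1) (avgLaw (m + 1) t) p hp hp1 (fun M k i => trc M k i) htrm
        (fun M k i => htr M k i) (fun η ξ hη hξ => (f_dens (m + 1) η ξ hη hξ).2)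
        (fun x y hx hy => conv_pt (m + 1) (m + 1) p hp hp1 x y hx hy) _ ?_
      intro k
      refine (tr_l2 m hm (avgLaw (m + 1) t) (f_good (m + 1) t)
        (fun σ f hf => avg_perm (m + 1) (avg_meas (m + 1)).1 (avg_meas (m + 1)).2
          (fun g hg => unif_swap g hg) σ t f hf)
        ?_ q hq2 hq3 θ hθ0 hθ1 k (hcn' k).2.2).trans (ENNReal.ofReal_le_ofReal (by rw [hχdef]; linarith))
      intro k Q hQ hb A Y B hB0 hA hY hinv hB
      refine col_l2 m hm ?_ k Q hb A Y B hB0 hA hY hinv hB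
      intro e he heb μ hμ hinv
      exact bi_bound e he heb (fun m ε h => perm_pt m ε h) m μ hinv)
  have h5 := unif_gam (m + 1) (by omega) π hπ (fun π π' h h' => unif_uniq (m + 1) π π' h h')
    (unif_exists (m + 1) (by omega)) S hS
  rw [show (∫ w, S.indicator (fun _ => (1 : ℝ))
      (‖(WithLp.toLp 2 w : E (m + 1))‖⁻¹ • (WithLp.toLp 2 w : E (m + 1))) ∂(gam (m + 1))) =
      ∫ w, f w ∂(gam (m + 1)) from rfl] at h5
  rw [h5]
  have h1' : |(law (m + 1) x t).real S - ∫ M, ∫ w, f (fun i => w i * √(gf (col M) p w i))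
      ∂(gam (m + 1)) ∂(avgLaw (m + 1) t)| ≤ ((m + 1 : ℕ) : ℝ) * (1 - 2 / ((m + 1 : ℕ) : ℝ)) ^ t := h1
  have hsub : ((m + 1 - 1 : ℕ) : ℝ) = m := by simp
  rw [hsub] at hfin
  calc |(law (m + 1) x t).real S - ∫ w, f w ∂(gam (m + 1))|
      ≤ |(law (m + 1) x t).real S - ∫ M, ∫ w, f (fun i => w i * √(gf (col M) p w i))
          ∂(gam (m + 1)) ∂(avgLaw (m + 1) t)| +
        |∫ M, ∫ w, f (fun i => w i * √(gf (col M) p w i)) ∂(gam (m + 1)) ∂(avgLaw (m + 1) t) -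
          ∫ M, ∫ w, f (fun i => w i * √(bv (col M) p i)) ∂(gam (m + 1)) ∂(avgLaw (m + 1) t)| +
        |∫ M, ∫ w, f (fun i => w i * √(bv (col M) p i)) ∂(gam (m + 1)) ∂(avgLaw (m + 1) t) -
          ∫ M, ∫ w, f (fun i => w i * √(1 + ∑ k, p k * trc M k i)) ∂(gam (m + 1))
            ∂(avgLaw (m + 1) t)| +
        |∫ M, ∫ w, f (fun i => w i * √(1 + ∑ k, p k * trc M k i)) ∂(gam (m + 1))
            ∂(avgLaw (m + 1) t) - ∫ w, f w ∂(gam (m + 1))| := by
        refine (abs_sub_le _ (∫ M, ∫ w, f (fun i => w i * √(1 + ∑ k, p k * trc M k i))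
          ∂(gam (m + 1)) ∂(avgLaw (m + 1) t)) _).trans ?_
        gcongr
        refine (abs_sub_le _ (∫ M, ∫ w, f (fun i => w i * √(bv (col M) p i))
          ∂(gam (m + 1)) ∂(avgLaw (m + 1) t)) _).trans ?_
        gcongr
        exact abs_sub_le _ _ _
    _ ≤ ε := by
        have h4' : √χ = √((1 + (2 * θ) ^ 2) *
          Real.exp (1361 * ((m : ℝ) + 1) ^ (4 / 5 : ℝ) / (m : ℝ)) - 1) := rfl
        rw [h4'] at h4
        linarith [h1', h2, h3, h4, hfin]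

end Pool.Agent.H494.Kac
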