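import Pool.Agent.H494.Kac.Defs

open MeasureTheory Filter Topology
open scoped ENNReal

namespace Pool.Agent.H494.Kac
theorem msl_continuous {n : ℕ} (i j : Fin n) :
    Continuous (fun q : E n × ℝ => rot i j q.2 q.1) := by
  unfold rot
  refine (PiLp.continuous_toLp 2 _).comp (continuous_pi fun k => ?_)
  have hc : ∀ l : Fin n, Continuous (fun q : E n × ℝ => q.1 l) := fun l =>
    (EuclideanSpace.proj (𝕜 := ℝ) l).continuous.comp continuous_fst
  have hcos : Continuous (fun q : E n × ℝ => Real.cos q.2) :=
    Real.continuous_cos.comp continuous_snd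
  have hsin : Continuous (fun q : E n × ℝ => Real.sin q.2) :=
    Real.continuous_sin.comp continuous_snd
  by_cases h1 : k = i
  · simp only [if_pos h1]
    exact ((hc i).mul hcos).sub ((hc j).mul hsin)
  · by_cases h2 : k = j
    · simp only [if_neg h1, if_pos h2]
      exact ((hc i).mul hsin).add ((hc j).mul hcos)
    · simp only [if_neg h1, if_neg h2]
      exact hc k

instance msl_sfinite : SFinite unif := by
  unfold unif
  infer_instance

theorem measurable_stepLaw (n : ℕ) : Measurable (stepLaw n) := by
  refine Measure.measurable_of_measurable_coe _ fun s hs => ?_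
  have h : ∀ v, stepLaw n v s = ((prs n).card : ℝ≥0∞)⁻¹ *
      ∑ p ∈ prs n, unif (Prod.mk v ⁻¹' ((fun q : E n × ℝ => rot p.1 p.2 q.2 q.1) ⁻¹' s)) := by
    intro v
    unfold stepLaw
    rw [Measure.smul_apply, Measure.finsetSum_apply, smul_eq_mul]
    congr 1
    refine Finset.sum_congr rfl fun p _ => ?_
    rw [Measure.map_apply _ hs]
    · rfl
    · exact ((msl_continuous p.1 p.2).comp (continuous_const.prodMk continuous_id)).measurable
  simp only [h]
  refine Measurable.const_mul (Finset.measurable_sum _ fun p _ => ?_) _
  exact measurable_measure_prodMk_left ((msl_continuous p.1 p.2).measurable hs)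

end Pool.Agent.H494.Kac
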