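import Pool.Agent.H494.Kac.Defs

open MeasureTheory Filter Topology
open scoped ENNReal

namespace Pool.Agent.H494.Kac
theorem osp_sum {n : ℕ} (Ψ : ℝ → ℝ) (κ : ℝ) (A : Fin n → ℝ) (i j : Fin n) (hij : i ≠ j) (b : ℝ) :
    ∑ k, Ψ (T i j b A k * κ) = ∑ k, Ψ (A k * κ) +
      ((Ψ ((A i + A j) * b * κ) - Ψ (A i * κ)) + (Ψ ((A i + A j) * (1 - b) * κ) - Ψ (A j * κ))) := by
  have h1 : ∀ k, Ψ (T i j b A k * κ) = Ψ (A k * κ) +
      ((if k = i then (Ψ ((A i + A j) * b * κ) - Ψ (A i * κ)) else 0) +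
       (if k = j then (Ψ ((A i + A j) * (1 - b) * κ) - Ψ (A j * κ)) else 0)) := by
    intro k
    unfold T
    by_cases hi : k = i
    · subst hi
      rw [if_pos rfl, if_pos rfl, if_neg hij]
      ring
    · rw [if_neg hi, if_neg hi]
      by_cases hj : k = j
      · subst hj
        rw [if_pos rfl, if_pos rfl]
        ring
      · rw [if_neg hj, if_neg hj]
        ring
  rw [Finset.sum_congr rfl (fun k _ => h1 k), Finset.sum_add_distrib, Finset.sum_add_distrib,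
    Finset.sum_ite_eq', Finset.sum_ite_eq', if_pos (Finset.mem_univ _), if_pos (Finset.mem_univ _)]

theorem osp_real (a C Pi Pj u1 u2 w1 w2 g1 g2 g3 g4 M1 M2 : ℝ) (ha : 0 < a) (haC : 2 * a * C ≤ 1)
    (hPi : 0 ≤ Pi) (hPj : 0 ≤ Pj) (hPiC : Pi ≤ C) (hPjC : Pj ≤ C)
    (hu1 : 0 ≤ u1) (hu2 : 0 ≤ u2) (hw1 : 0 ≤ w1) (hw2 : 0 ≤ w2)
    (hu1' : u1 ≤ Pi) (hu2' : u2 ≤ Pj) (hw1' : w1 ≤ Pi) (hw2' : w2 ≤ Pj)
    (hg1 : g1 ≤ u1) (hg2 : g2 ≤ w1) (hg3 : g3 ≤ u2) (hg4 : g4 ≤ w2)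
    (hM1 : max u1 u2 ≤ M1) (hM2 : max w1 w2 ≤ M2) :
    Real.exp (-a * ((M1 - Pi) + (M2 - Pj))) ≤
      (1 - a * ((g1 + g2 - Pi) + (g3 + g4 - Pj)) + 2 * a * min Pi Pj +
        2 * C * a ^ 2 * (Pi + Pj)) := by
  obtain ⟨J, hJ⟩ : ∃ J, J = max u1 u2 + max w1 w2 - Pi - Pj := ⟨_, rfl⟩
  have hU : max u1 u2 ≤ Pi + Pj := max_le (by linarith) (by linarith)
  have hW : max w1 w2 ≤ Pi + Pj := max_le (by linarith) (by linarith)
  have hU0 : 0 ≤ max u1 u2 := le_max_of_le_left hu1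
  have hW0 : 0 ≤ max w1 w2 := le_max_of_le_left hw1
  have hJabs : |J| ≤ Pi + Pj := by
    rw [abs_le]
    constructor <;> linarith
  have h1 : Real.exp (-a * ((M1 - Pi) + (M2 - Pj))) ≤ Real.exp (-(a * J)) := by
    apply Real.exp_le_exp.2
    have : a * J ≤ a * ((M1 - Pi) + (M2 - Pj)) := mul_le_mul_of_nonneg_left (by linarith) ha.le
    linarith
  have h2 : |-(a * J)| ≤ 1 := by
    rw [abs_neg, abs_mul, abs_of_pos ha]
    have : a * |J| ≤ a * (C + C) := mul_le_mul_of_nonneg_left (by linarith) ha.le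
    linarith
  have h3 := Real.abs_exp_sub_one_sub_id_le h2
  have h4 := (abs_le.1 h3).2
  have h5 : (-(a * J)) ^ 2 ≤ 2 * C * a ^ 2 * (Pi + Pj) := by
    have h6 : J ^ 2 ≤ (Pi + Pj) ^ 2 := sq_le_sq' (by linarith [(abs_le.1 hJabs).1]) (abs_le.1 hJabs).2
    have h7 : (Pi + Pj) ^ 2 ≤ 2 * C * (Pi + Pj) := by nlinarith
    have h8 : a ^ 2 * J ^ 2 ≤ a ^ 2 * (2 * C * (Pi + Pj)) :=
      mul_le_mul_of_nonneg_left (h6.trans h7) (sq_nonneg a)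
    nlinarith
  have hmm1 : max u1 u2 = u1 + u2 - min u1 u2 := by
    have := max_add_min u1 u2
    linarith
  have hmm2 : max w1 w2 = w1 + w2 - min w1 w2 := by
    have := max_add_min w1 w2
    linarith
  have hmin1 : min u1 u2 ≤ min Pi Pj := min_le_min hu1' hu2'
  have hmin2 : min w1 w2 ≤ min Pi Pj := min_le_min hw1' hw2'
  have h9 : -(a * J) ≤ - a * ((g1 + g2 - Pi) + (g3 + g4 - Pj)) + 2 * a * min Pi Pj := by
    have : a * ((g1 + g2 - Pi) + (g3 + g4 - Pj) - 2 * min Pi Pj) ≤ a * J :=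
      mul_le_mul_of_nonneg_left (by rw [hJ, hmm1, hmm2]; linarith) ha.le
    linarith
  linarith

theorem os_point (n : ℕ) (Ψ : ℝ → ℝ) (C a h Λ : ℝ) (hmono : Monotone Ψ)
    (h0 : ∀ y, y ≤ 1 → Ψ y = 0) (hC : ∀ y, Ψ y ≤ C) (hh : 0 ≤ h) (ha : 0 < a) (haC : 2 * a * C ≤ 1)
    (hΛ : 0 < Λ) (A : Fin n → ℝ) (hA : ∀ k, 0 ≤ A k) (i j : Fin n) (hij : i ≠ j) (b : ℝ)
    (hb0 : 0 ≤ b) (hb1 : b ≤ 1) :
    Real.exp (-a * ∑ k, Ψ (T i j b A k * (Λ * Real.exp h))) ≤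
      Real.exp (-a * ∑ k, Ψ (A k * (Λ * Real.exp h))) *
        (1 - a * ((Ψ (A i * Λ * b) + Ψ (A i * Λ * (1 - b)) - Ψ (A i * (Λ * Real.exp h))) +
            (Ψ (A j * Λ * b) + Ψ (A j * Λ * (1 - b)) - Ψ (A j * (Λ * Real.exp h)))) +
          2 * a * min (Ψ (A i * (Λ * Real.exp h))) (Ψ (A j * (Λ * Real.exp h))) +
          2 * C * a ^ 2 * (Ψ (A i * (Λ * Real.exp h)) + Ψ (A j * (Λ * Real.exp h)))) := by
  have hpos : ∀ y, 0 ≤ Ψ y := by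
    intro y
    rcases le_total y 1 with hy | hy
    · rw [h0 y hy]
    · rw [← h0 1 le_rfl]
      exact hmono hy
  have he : 1 ≤ Real.exp h := Real.one_le_exp hh
  obtain ⟨κ, hκ⟩ : ∃ κ, κ = Λ * Real.exp h := ⟨_, rfl⟩
  have hκΛ : Λ ≤ κ := by
    rw [hκ]
    nlinarith
  have hκ0 : 0 < κ := lt_of_lt_of_le hΛ hκΛ
  rw [← hκ, osp_sum Ψ κ A i j hij b, mul_add, Real.exp_add]
  apply mul_le_mul_of_nonneg_left _ (Real.exp_pos _).le
  have hb1' : 0 ≤ 1 - b := by linarith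
  have hb0' : 1 - b ≤ 1 := by linarith
  have hAi := hA i
  have hAj := hA j
  have hyi : 0 ≤ A i * κ := mul_nonneg hAi hκ0.le
  have hyj : 0 ≤ A j * κ := mul_nonneg hAj hκ0.le
  have key : ∀ (x c : ℝ), 0 ≤ x → 0 ≤ c → Ψ (x * Λ * c) ≤ Ψ (x * κ * c) := by
    intro x c hx hc
    apply hmono
    exact mul_le_mul_of_nonneg_right (mul_le_mul_of_nonneg_left hκΛ hx) hc
  have key2 : ∀ (x c : ℝ), 0 ≤ x → c ≤ 1 → Ψ (x * κ * c) ≤ Ψ (x * κ) := by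
    intro x c hx hc
    apply hmono
    have := mul_le_mul_of_nonneg_left hc (mul_nonneg hx hκ0.le)
    linarith
  have key3 : ∀ c, 0 ≤ c → max (Ψ (A i * κ * c)) (Ψ (A j * κ * c)) ≤ Ψ ((A i + A j) * c * κ) := by
    intro c hc
    apply max_le
    · apply hmono
      have := mul_nonneg hyj hc
      nlinarith
    · apply hmono
      have := mul_nonneg hyi hc
      nlinarith
  exact osp_real a C (Ψ (A i * κ)) (Ψ (A j * κ)) (Ψ (A i * κ * b)) (Ψ (A j * κ * b))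
    (Ψ (A i * κ * (1 - b))) (Ψ (A j * κ * (1 - b))) _ _ _ _ _ _ ha haC (hpos _) (hpos _) (hC _) (hC _)
    (hpos _) (hpos _) (hpos _) (hpos _) (key2 _ _ hAi hb1) (key2 _ _ hAj hb1)
    (key2 _ _ hAi hb0') (key2 _ _ hAj hb0') (key _ _ hAi hb0) (key _ _ hAi hb1')
    (key _ _ hAj hb0) (key _ _ hAj hb1') (key3 b hb0) (key3 (1 - b) hb1')

end Pool.Agent.H494.Kac
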