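import Pool.Agent.H494.Kac.Defs

open MeasureTheory Filter Topology
open scoped ENNReal

namespace Pool.Agent.H494.Kac
theorem sqs_T {n : ℕ} (i j : Fin n) (hij : i ≠ j) (b : ℝ) (A : Fin n → ℝ) :
    ∑ k, (T i j b A k) ^ 2 = ∑ k, (A k) ^ 2 - (A i) ^ 2 - (A j) ^ 2 +
      (A i + A j) ^ 2 * (b ^ 2 + (1 - b) ^ 2) := by
  have h1 : ∀ k, (T i j b A k) ^ 2 = (A k) ^ 2 +
      ((if k = i then ((A i + A j) * b) ^ 2 - (A i) ^ 2 else 0) +
        (if k = j then ((A i + A j) * (1 - b)) ^ 2 - (A j) ^ 2 else 0)) := by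
    intro k
    unfold T
    by_cases hki : k = i
    · subst hki
      rw [if_pos rfl, if_pos rfl, if_neg hij]
      ring
    · by_cases hkj : k = j
      · subst hkj
        rw [if_neg hki, if_pos rfl, if_neg hki, if_pos rfl]
        ring
      · rw [if_neg hki, if_neg hkj, if_neg hki, if_neg hkj]
        ring
  simp only [h1, Finset.sum_add_distrib, Finset.sum_ite_eq', Finset.mem_univ, if_true]
  ring

theorem sqs_int : ∫ θ in (0 : ℝ)..(2 * Real.pi), Real.cos (4 * θ) = 0 := by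
  rw [intervalIntegral.integral_comp_mul_left (fun x => Real.cos x) (by norm_num : (4 : ℝ) ≠ 0),
    integral_cos]
  have h1 : Real.sin (4 * (2 * Real.pi)) = 0 := by
    have h2 : 4 * (2 * Real.pi) = ((8 : ℕ) : ℝ) * Real.pi := by push_cast; ring
    rw [h2, Real.sin_nat_mul_pi]
  rw [h1]
  simp

theorem sqs_unif (f : ℝ → ℝ) : ∫ θ, f θ ∂unif =
    (2 * Real.pi)⁻¹ * ∫ θ in (0 : ℝ)..(2 * Real.pi), f θ := by
  unfold unif
  rw [integral_smul_measure, intervalIntegral.integral_of_le (by positivity),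
    ← integral_Ico_eq_integral_Ioc, smul_eq_mul, ENNReal.toReal_inv,
    ENNReal.toReal_ofReal (by positivity)]

theorem sqs_mean (c d : ℝ) : ∫ θ, (c + d * ((Real.cos θ ^ 2) ^ 2 + (1 - Real.cos θ ^ 2) ^ 2)) ∂unif =
    c + d * (3 / 4) := by
  rw [sqs_unif]
  have h1 : ∀ θ : ℝ, c + d * ((Real.cos θ ^ 2) ^ 2 + (1 - Real.cos θ ^ 2) ^ 2) =
      (c + d * (3 / 4)) + (d / 4) * Real.cos (4 * θ) := by
    intro θ
    have h2 : Real.cos (4 * θ) = 2 * (2 * Real.cos θ ^ 2 - 1) ^ 2 - 1 := by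
      rw [show 4 * θ = 2 * (2 * θ) by ring, Real.cos_two_mul, Real.cos_two_mul]
    rw [h2]
    ring
  simp only [h1]
  rw [intervalIntegral.integral_add (by simp) (by
      apply Continuous.intervalIntegrable
      fun_prop), intervalIntegral.integral_const_mul, sqs_int, mul_zero, add_zero,
    intervalIntegral.integral_const, smul_eq_mul, sub_zero, ← mul_assoc,
    inv_mul_cancel₀ (by positivity), one_mul]

instance sqs_fin : IsFiniteMeasure unif := by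
  unfold unif
  have h : (ENNReal.ofReal (2 * Real.pi))⁻¹ ≠ ⊤ := by
    rw [ENNReal.inv_ne_top]
    exact (ENNReal.ofReal_pos.2 (by positivity)).ne'
  exact Measure.smul_finite _ h

theorem sqs_lint {n : ℕ} (i j : Fin n) (hij : i ≠ j) (A : Fin n → ℝ) :
    ∫⁻ θ, ENNReal.ofReal (∑ k, (T i j ((Real.cos θ) ^ 2) A k) ^ 2) ∂unif =
      ENNReal.ofReal (∑ k, (A k) ^ 2 - (A i) ^ 2 - (A j) ^ 2 + (A i + A j) ^ 2 * (3 / 4)) := by
  rw [← ofReal_integral_eq_lintegral_ofReal]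
  · congr 1
    simp only [sqs_T i j hij]
    exact sqs_mean _ _
  · simp only [sqs_T i j hij]
    refine Integrable.mono' (g := fun _ => |∑ k, (A k) ^ 2 - (A i) ^ 2 - (A j) ^ 2| +
      (A i + A j) ^ 2 * 2) (integrable_const _) ?_ ?_
    · exact Continuous.aestronglyMeasurable (by fun_prop)
    · apply Filter.Eventually.of_forall
      intro θ
      have h1 : 0 ≤ Real.cos θ ^ 2 := sq_nonneg _
      have h2 : Real.cos θ ^ 2 ≤ 1 := Real.cos_sq_le_one θ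
      have h3 : (Real.cos θ ^ 2) ^ 2 + (1 - Real.cos θ ^ 2) ^ 2 ≤ 2 := by nlinarith
      have h4 : 0 ≤ (Real.cos θ ^ 2) ^ 2 + (1 - Real.cos θ ^ 2) ^ 2 := by positivity
      rw [Real.norm_eq_abs]
      refine le_trans (abs_add_le _ _) ?_
      gcongr
      rw [abs_mul, abs_of_nonneg (sq_nonneg (A i + A j)), abs_of_nonneg h4]
      exact mul_le_mul_of_nonneg_left h3 (sq_nonneg _)
  · apply Filter.Eventually.of_forall
    intro θ
    exact Finset.sum_nonneg (fun k _ => sq_nonneg _)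

theorem sqs_pairs (n : ℕ) (f : Fin n → Fin n → ℝ) (hf : ∀ i j, f i j = f j i) :
    ∑ i, ∑ j, f i j = 2 * ∑ p ∈ prs n, f p.1 p.2 + ∑ i, f i i := by
  have h1 : ∑ i, ∑ j, f i j = ∑ p : Fin n × Fin n, f p.1 p.2 :=
    (Fintype.sum_prod_type' f).symm
  have h2 : ∀ p : Fin n × Fin n, f p.1 p.2 = (if p.1 < p.2 then f p.1 p.2 else 0) +
      (if p.2 < p.1 then f p.1 p.2 else 0) + (if p.1 = p.2 then f p.1 p.2 else 0) := by
    intro p
    rcases lt_trichotomy p.1 p.2 with h | h | h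
    · rw [if_pos h, if_neg (not_lt.2 h.le), if_neg h.ne]; ring
    · rw [if_neg (by rw [h]; exact lt_irrefl _), if_neg (by rw [h]; exact lt_irrefl _), if_pos h]
      ring
    · rw [if_neg (not_lt.2 h.le), if_pos h, if_neg h.ne']; ring
  have h3 : ∑ p : Fin n × Fin n, (if p.1 < p.2 then f p.1 p.2 else 0) =
      ∑ p ∈ prs n, f p.1 p.2 := by
    rw [prs, Finset.sum_filter]
  have h4 : ∑ p : Fin n × Fin n, (if p.2 < p.1 then f p.1 p.2 else 0) =
      ∑ p ∈ prs n, f p.1 p.2 := by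
    rw [← h3]
    refine Fintype.sum_equiv (Equiv.prodComm _ _) _ _ (fun p => ?_)
    show _ = if p.2 < p.1 then f p.2 p.1 else 0
    rw [hf p.2 p.1]
  have h5 : ∑ p : Fin n × Fin n, (if p.1 = p.2 then f p.1 p.2 else 0) = ∑ i, f i i := by
    rw [Fintype.sum_prod_type]
    apply Finset.sum_congr rfl
    intro i _
    simp
  rw [h1, Finset.sum_congr rfl (fun p _ => h2 p), Finset.sum_add_distrib, Finset.sum_add_distrib,
    h3, h4, h5]
  ring

theorem sq_step (n : ℕ) (hn : 2 ≤ n) (A : Fin n → ℝ) (hA : ∀ k, 0 ≤ A k) (hs : ∑ k, A k = 1) :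
    Qop n (fun A => ENNReal.ofReal (∑ k, (A k) ^ 2)) A ≤
      ENNReal.ofReal ((1 - 1 / (2 * n)) * ∑ k, (A k) ^ 2 + 3 / (2 * (n * (n - 1)))) := by
  obtain ⟨S, hS⟩ : ∃ S, S = ∑ k, (A k) ^ 2 := ⟨_, rfl⟩
  have hS0 : 0 ≤ S := by rw [hS]; exact Finset.sum_nonneg (fun k _ => sq_nonneg _)
  have hnR : (2 : ℝ) ≤ n := by exact_mod_cast hn
  -- counting
  have hcard : ((prs n).card : ℝ) = n * (n - 1) / 2 := by
    have h1 := sqs_pairs n (fun _ _ => 1) (fun _ _ => rfl)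
    simp at h1
    linarith
  have hsq : ∑ p ∈ prs n, ((A p.1) ^ 2 + (A p.2) ^ 2) = (n - 1) * S := by
    have h1 := sqs_pairs n (fun i j => (A i) ^ 2 + (A j) ^ 2) (fun i j => add_comm _ _)
    simp only [Finset.sum_add_distrib, ← hS, Finset.sum_const, Finset.card_univ, Fintype.card_fin,
      nsmul_eq_mul] at h1
    rw [← Finset.mul_sum, ← hS] at h1
    rw [Finset.sum_add_distrib]
    linarith
  have hpr : ∑ p ∈ prs n, (A p.1 * A p.2) = (1 - S) / 2 := by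
    have h1 := sqs_pairs n (fun i j => A i * A j) (fun i j => mul_comm _ _)
    have h2 : ∑ i, ∑ j, A i * A j = 1 := by
      simp only [← Finset.mul_sum, hs, mul_one]
    have h3 : ∑ i, A i * A i = S := by
      rw [hS]
      exact Finset.sum_congr rfl (fun i _ => (sq (A i)).symm)
    rw [h2, h3] at h1
    linarith
  have hterm : ∀ p ∈ prs n, ∫⁻ θ, ENNReal.ofReal (∑ k, (T p.1 p.2 ((Real.cos θ) ^ 2) A k) ^ 2) ∂unif =
      ENNReal.ofReal (S - (A p.1) ^ 2 - (A p.2) ^ 2 + (A p.1 + A p.2) ^ 2 * (3 / 4)) := by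
    intro p hp
    have hlt : p.1 < p.2 := (Finset.mem_filter.1 hp).2
    rw [sqs_lint p.1 p.2 hlt.ne, ← hS]
  have hnn : ∀ p ∈ prs n, 0 ≤ S - (A p.1) ^ 2 - (A p.2) ^ 2 + (A p.1 + A p.2) ^ 2 * (3 / 4) := by
    intro p hp
    have hlt : p.1 < p.2 := (Finset.mem_filter.1 hp).2
    have h1 : ∑ k, (T p.1 p.2 (1 / 2) A k) ^ 2 = S - (A p.1) ^ 2 - (A p.2) ^ 2 +
        (A p.1 + A p.2) ^ 2 * ((1 / 2) ^ 2 + (1 - 1 / 2) ^ 2) := by
      rw [sqs_T p.1 p.2 hlt.ne, ← hS]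
    have h2 : 0 ≤ ∑ k, (T p.1 p.2 (1 / 2) A k) ^ 2 := Finset.sum_nonneg (fun k _ => sq_nonneg _)
    nlinarith [sq_nonneg (A p.1 + A p.2)]
  unfold Qop
  rw [Finset.sum_congr rfl hterm, ← ENNReal.ofReal_sum_of_nonneg hnn]
  have hsum : ∑ p ∈ prs n, (S - (A p.1) ^ 2 - (A p.2) ^ 2 + (A p.1 + A p.2) ^ 2 * (3 / 4)) =
      n * (n - 1) / 2 * S - (1 / 4) * ((n - 1) * S) + (3 / 2) * ((1 - S) / 2) := by
    have h1 : ∀ p : Fin n × Fin n, S - (A p.1) ^ 2 - (A p.2) ^ 2 + (A p.1 + A p.2) ^ 2 * (3 / 4) =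
        S - (1 / 4) * ((A p.1) ^ 2 + (A p.2) ^ 2) + (3 / 2) * (A p.1 * A p.2) := by
      intro p; ring
    simp only [h1, Finset.sum_add_distrib, Finset.sum_sub_distrib, ← Finset.mul_sum,
      Finset.sum_const, nsmul_eq_mul]
    rw [Finset.sum_add_distrib] at hsq
    rw [hsq, hpr, hcard]
  rw [hsum]
  have hcpos : (0 : ℝ) < (prs n).card := by
    rw [hcard]
    have : (0:ℝ) < n * (n - 1) := by nlinarith
    linarith
  have hcE : ((prs n).card : ℝ≥0∞)⁻¹ = ENNReal.ofReal (((prs n).card : ℝ)⁻¹) := by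
    rw [ENNReal.ofReal_inv_of_pos hcpos, ENNReal.ofReal_natCast]
  rw [hcE, ← ENNReal.ofReal_mul (by positivity), ← hS]
  apply ENNReal.ofReal_le_ofReal
  rw [hcard]
  have hn1 : (0 : ℝ) < n - 1 := by linarith
  have hn0 : (0 : ℝ) < n := by linarith
  have key : (1 - 1 / (2 * (n : ℝ))) * S + 3 / (2 * (n * (n - 1))) -
      ((n : ℝ) * (n - 1) / 2)⁻¹ * ((n : ℝ) * (n - 1) / 2 * S - (1 / 4) * (((n : ℝ) - 1) * S) +
        (3 / 2) * ((1 - S) / 2)) = (3 / 2) * S / ((n : ℝ) * (n - 1)) := by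
    field_simp
    ring
  have h6 : 0 ≤ (3 / 2) * S / ((n : ℝ) * (n - 1)) := by positivity
  linarith

end Pool.Agent.H494.Kac
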