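import Pool.Agent.H494.Kac.Defs

open MeasureTheory Filter Topology
open scoped ENNReal

namespace Pool.Agent.H494.Kac
theorem start_point (n : ℕ) (Ψ : ℝ → ℝ) (C Y a z K : ℝ) (hmono : Monotone Ψ)
    (h0 : ∀ y, y ≤ 1 → Ψ y = 0) (hY : ∀ y, Y ≤ y → Ψ y = C) (hC : 0 < C) (hY1 : 1 ≤ Y) (ha : 0 < a)
    (hK : 0 < K) (hz : 0 < z) (A : Fin n → ℝ) (hA : ∀ k, 0 ≤ A k) (hs : ∑ k, A k = 1) :
    Real.exp (-a * ∑ k, Ψ (A k * (Y * z))) ≤
      Real.exp (-a * C * K) + (4 * K * ∑ k, (A k) ^ 2 + 2 * (√z)⁻¹ * ∑ k, √(A k)) := by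
  classical
  have hΨ0 : ∀ y, 0 ≤ Ψ y := by
    intro y
    rcases le_total y 1 with h | h
    · rw [h0 y h]
    · rw [← h0 1 le_rfl]; exact hmono h
  set G := Finset.univ.filter (fun k => 1 / z ≤ A k) with hG
  have hGC : ∀ k ∈ G, Ψ (A k * (Y * z)) = C := by
    intro k hk
    apply hY
    have h1 : 1 / z ≤ A k := (Finset.mem_filter.1 hk).2
    have h2 : 1 ≤ A k * z := by rwa [div_le_iff₀ hz] at h1
    have h3 : Y * 1 ≤ Y * (A k * z) := by gcongr
    linarith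
  have hS2 : 0 ≤ ∑ k, (A k) ^ 2 := Finset.sum_nonneg (fun k _ => sq_nonneg _)
  have hS1 : 0 ≤ (√z)⁻¹ * ∑ k, √(A k) :=
    mul_nonneg (inv_nonneg.2 (Real.sqrt_nonneg _)) (Finset.sum_nonneg (fun k _ => Real.sqrt_nonneg _))
  have hsum0 : 0 ≤ ∑ k, Ψ (A k * (Y * z)) := Finset.sum_nonneg (fun k _ => hΨ0 _)
  rcases le_or_gt K (G.card : ℝ) with hc | hc
  · have h1 : C * K ≤ ∑ k, Ψ (A k * (Y * z)) := by
      calc C * K ≤ C * (G.card : ℝ) := by gcongr
        _ = ∑ k ∈ G, Ψ (A k * (Y * z)) := by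
          rw [Finset.sum_congr rfl hGC, Finset.sum_const, nsmul_eq_mul, mul_comm]
        _ ≤ ∑ k, Ψ (A k * (Y * z)) :=
          Finset.sum_le_sum_of_subset_of_nonneg (Finset.subset_univ _) (fun k _ _ => hΨ0 _)
    have h2 : Real.exp (-a * ∑ k, Ψ (A k * (Y * z))) ≤ Real.exp (-a * C * K) := by
      apply Real.exp_le_exp.2
      nlinarith [mul_le_mul_of_nonneg_left h1 ha.le]
    have h3 : 0 ≤ 4 * K * ∑ k, (A k) ^ 2 := by positivity
    linarith
  · have h1 : Real.exp (-a * ∑ k, Ψ (A k * (Y * z))) ≤ 1 := by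
      rw [Real.exp_le_one_iff]
      nlinarith [mul_nonneg ha.le hsum0]
    have hsplit : ∑ k ∈ G, A k + ∑ k ∈ Finset.univ.filter (fun k => ¬ 1 / z ≤ A k), A k = 1 := by
      rw [hG, Finset.sum_filter_add_sum_filter_not, hs]
    have hp : (∑ k ∈ G, A k) ^ 2 ≤ K * ∑ k, (A k) ^ 2 := by
      calc (∑ k ∈ G, A k) ^ 2 ≤ G.card * ∑ k ∈ G, (A k) ^ 2 := sq_sum_le_card_mul_sum_sq
        _ ≤ K * ∑ k ∈ G, (A k) ^ 2 := by
          have : 0 ≤ ∑ k ∈ G, (A k) ^ 2 := Finset.sum_nonneg (fun k _ => sq_nonneg _)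
          gcongr
        _ ≤ K * ∑ k, (A k) ^ 2 := by
          have := Finset.sum_le_sum_of_subset_of_nonneg (Finset.subset_univ G)
            (fun k _ _ => sq_nonneg (A k))
          gcongr
    have hq : ∑ k ∈ Finset.univ.filter (fun k => ¬ 1 / z ≤ A k), A k ≤ (√z)⁻¹ * ∑ k, √(A k) := by
      rw [Finset.mul_sum]
      calc ∑ k ∈ Finset.univ.filter (fun k => ¬ 1 / z ≤ A k), A k
          ≤ ∑ k ∈ Finset.univ.filter (fun k => ¬ 1 / z ≤ A k), (√z)⁻¹ * √(A k) := by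
            refine Finset.sum_le_sum (fun k hk => ?_)
            have h2 : A k < 1 / z := not_le.1 (Finset.mem_filter.1 hk).2
            have h3 : √(A k) ≤ (√z)⁻¹ := by
              rw [← Real.sqrt_inv]
              apply Real.sqrt_le_sqrt
              rw [one_div] at h2
              exact h2.le
            calc A k = √(A k) * √(A k) := (Real.mul_self_sqrt (hA k)).symm
              _ ≤ (√z)⁻¹ * √(A k) := mul_le_mul_of_nonneg_right h3 (Real.sqrt_nonneg _)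
        _ ≤ ∑ k, (√z)⁻¹ * √(A k) :=
          Finset.sum_le_sum_of_subset_of_nonneg (Finset.subset_univ _) (fun k _ _ =>
            mul_nonneg (inv_nonneg.2 (Real.sqrt_nonneg _)) (Real.sqrt_nonneg _))
    have he : 0 ≤ Real.exp (-a * C * K) := (Real.exp_pos _).le
    set p := ∑ k ∈ G, A k with hpdef
    set q := ∑ k ∈ Finset.univ.filter (fun k => ¬ 1 / z ≤ A k), A k with hqdef
    have hq1 : q = 1 - p := by linarith
    have h5 : 1 ≤ 4 * p ^ 2 + 2 * q := by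
      rw [hq1]; nlinarith [sq_nonneg (4 * p - 1)]
    nlinarith

end Pool.Agent.H494.Kac
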